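import Mathlib

set_option autoImplicit false

namespace Pool.Agent.Lib.helper19.Cake

open MeasureTheory Set

/-- `S` is a finite union of intervals. -/
def FU (S : Set ℝ) : Prop :=
  ∃ I : Finset (Set ℝ), (∀ J ∈ I, J.OrdConnected) ∧ S = ⋃ J ∈ I, J

/-- `f` is a piecewise-constant value density on `[0,1]`. -/
def PC (f : ℝ → ℝ) : Prop :=
  (∀ x ∈ Icc (0 : ℝ) 1, 0 ≤ f x) ∧
  (∃ I : Finset (Set ℝ), (∀ J ∈ I, J.OrdConnected ∧ ∃ c, ∀ x ∈ J, f x = c) ∧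
    (I : Set (Set ℝ)).PairwiseDisjoint id ∧ ⋃ J ∈ I, J = Icc 0 1) ∧
  0 < ∫ x in Icc (0 : ℝ) 1, f x

/-- Truth-telling is a dominant strategy. -/
def Truthful {n : ℕ} (M : (Fin n → ℝ → ℝ) → Fin n → Set ℝ) : Prop :=
  ∀ f : Fin n → ℝ → ℝ, (∀ j, PC (f j)) → ∀ i g, PC g →
    ∫ x in M (Function.update f i g) i, f i x ≤ ∫ x in M f i, f i x

/-- Every agent always gets a piece of positive value. -/
def Positive {n : ℕ} (M : (Fin n → ℝ → ℝ) → Fin n → Set ℝ) : Prop :=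
  ∀ f : Fin n → ℝ → ℝ, (∀ j, PC (f j)) → ∀ i, 0 < ∫ x in M f i, f i x

/-- The pieces are pairwise disjoint finite unions of intervals inside `[0,1]`. -/
def Alloc {n : ℕ} (M : (Fin n → ℝ → ℝ) → Fin n → Set ℝ) : Prop :=
  ∀ f : Fin n → ℝ → ℝ, (∀ j, PC (f j)) →
    (∀ i, FU (M f i) ∧ M f i ⊆ Icc 0 1) ∧ Pairwise fun i j => Disjoint (M f i) (M f j)

/-- The whole cake is allocated. -/
def Entire {n : ℕ} (M : (Fin n → ℝ → ℝ) → Fin n → Set ℝ) : Prop :=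
  ∀ f : Fin n → ℝ → ℝ, (∀ j, PC (f j)) → ⋃ i, M f i = Icc 0 1

end Pool.Agent.Lib.helper19.Cake
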