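import Mathlib

set_option autoImplicit false

namespace Pool.Agent.H19Clique

variable {α β : Type}

/-- Forces the spine of a list before continuing. -/
def force : List α → (List α → β) → β
  | [], k => k []
  | a :: l, k => force l (fun l' => k (a :: l'))

theorem force_eq (l : List α) (k : List α → β) : force l k = k l := by
  induction l generalizing k with
  | nil => rfl
  | cons a l ih => simp [force, ih]

def allTails (p : α → List α → Bool) : List α → Bool
  | [] => true
  | a :: l => p a l && allTails p l

def noClique (r : α → α → Bool) : ℕ → List α → Bool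
  | 0 => fun _ => false
  | k + 1 => fun l => allTails (fun a t => force (t.filter (r a)) (noClique r k)) l

theorem noClique_spec [DecidableEq α] (r : α → α → Bool) (k : ℕ) :
    ∀ l : List α, noClique r k l = true → ∀ T : Finset α, T.card = k → (∀ a ∈ T, a ∈ l) →
      (∀ a ∈ T, ∀ b ∈ T, a ≠ b → r a b = true) → False := by
  induction k with
  | zero => intro l h; simp [noClique] at h
  | succ k ih =>
    intro l
    induction l with
    | nil =>
      intro _ T hT hm _
      have : T.Nonempty := Finset.card_pos.mp (by omega)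
      obtain ⟨a, ha⟩ := this
      simpa using hm a ha
    | cons a l ihl =>
      intro h T hT hm hr
      simp only [noClique, allTails, Bool.and_eq_true, force_eq] at h
      by_cases ha : a ∈ T
      · refine ih _ h.1 (T.erase a) (by rw [Finset.card_erase_of_mem ha]; omega) ?_ ?_
        · intro b hb
          rw [Finset.mem_erase] at hb
          rw [List.mem_filter]
          refine ⟨?_, hr a ha b hb.2 (Ne.symm hb.1)⟩
          rcases List.mem_cons.mp (hm b hb.2) with h1 | h1
          · exact absurd h1 hb.1
          · exact h1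
        · intro x hx y hy hxy
          exact hr x (Finset.mem_of_mem_erase hx) y (Finset.mem_of_mem_erase hy) hxy
      · refine ihl ?_ T hT ?_ hr
        · simpa only [noClique, force_eq] using h.2
        · intro b hb
          rcases List.mem_cons.mp (hm b hb) with h1 | h1
          · exact absurd (h1 ▸ hb) ha
          · exact h1

/-- A connected induced subgraph on at most three vertices has a vertex adjacent to the others. -/
theorem centre {V : Type} [DecidableEq V] (G : SimpleGraph V) (B : Finset V) (hc : B.card ≤ 3)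
    (hB : (G.induce (B : Set V)).Connected) :
    ∃ x y z : V, B = {x, y, z} ∧ (y = x ∨ G.Adj x y) ∧ (z = x ∨ G.Adj x z) := by
  obtain ⟨⟨a, ha⟩⟩ := hB.nonempty
  have ha' : a ∈ B := ha
  have key : ∀ u v : V, u ∈ B → v ∈ B → u ≠ v → ∃ w ∈ B, G.Adj u w := by
    intro u v hu hv huv
    obtain ⟨p⟩ := hB.preconnected ⟨u, hu⟩ ⟨v, hv⟩
    cases p with
    | nil => exact absurd rfl huv
    | @cons _ w _ h p => exact ⟨w.1, w.2, h⟩
  have h1 : 0 < B.card := Finset.card_pos.mpr ⟨a, ha'⟩
  obtain h | h | h : B.card = 1 ∨ B.card = 2 ∨ B.card = 3 := by omega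
  · obtain ⟨x, rfl⟩ := Finset.card_eq_one.mp h
    exact ⟨x, x, x, by simp, Or.inl rfl, Or.inl rfl⟩
  · obtain ⟨x, y, hxy, rfl⟩ := Finset.card_eq_two.mp h
    obtain ⟨w, hw, hadj⟩ := key x y (by simp) (by simp) hxy
    have : w = y := by
      rcases Finset.mem_insert.mp hw with h | h
      · exact absurd (h ▸ hadj) (G.loopless.irrefl _)
      · simpa using h
    exact ⟨x, x, y, by simp, Or.inl rfl, Or.inr (this ▸ hadj)⟩
  · obtain ⟨x, y, z, hxy, hxz, hyz, rfl⟩ := Finset.card_eq_three.mp h
    obtain ⟨w1, hw1, h1⟩ := key x y (by simp) (by simp) hxy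
    obtain ⟨w2, hw2, h2⟩ := key y x (by simp) (by simp) hxy.symm
    obtain ⟨w3, hw3, h3⟩ := key z x (by simp) (by simp) hxz.symm
    simp only [Finset.mem_insert, Finset.mem_singleton] at hw1 hw2 hw3
    have e1 : G.Adj x y ∨ G.Adj x z := by
      rcases hw1 with h | h | h
      · exact absurd (h ▸ h1) (G.loopless.irrefl _)
      · exact Or.inl (h ▸ h1)
      · exact Or.inr (h ▸ h1)
    have e2 : G.Adj x y ∨ G.Adj y z := by
      rcases hw2 with h | h | h
      · exact Or.inl (h ▸ h2).symm
      · exact absurd (h ▸ h2) (G.loopless.irrefl _)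
      · exact Or.inr (h ▸ h2)
    have e3 : G.Adj x z ∨ G.Adj y z := by
      rcases hw3 with h | h | h
      · exact Or.inl (h ▸ h3).symm
      · exact Or.inr (h ▸ h3).symm
      · exact absurd (h ▸ h3) (G.loopless.irrefl _)
    by_cases a1 : G.Adj x y
    · by_cases a2 : G.Adj x z
      · exact ⟨x, y, z, rfl, Or.inr a1, Or.inr a2⟩
      · have a3 := e3.resolve_left a2
        exact ⟨y, x, z, Finset.insert_comm _ _ _, Or.inr a1.symm, Or.inr a3⟩
    · have a2 := e1.resolve_left a1
      have a3 := e2.resolve_left a1
      exact ⟨z, x, y, by rw [Finset.pair_comm y z, Finset.insert_comm], Or.inr a2.symm,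
        Or.inr a3.symm⟩

end Pool.Agent.H19Clique
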