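import Pool.Agent.Lib.helper19.HalfSL

set_option autoImplicit false

namespace Pool.Agent.Lib.helper19.CongColor

open FreeGroup Pool.Agent.Lib.helper19.HalfColor Pool.Agent.Lib.helper19.HalfSL
open scoped MatrixGroups

section abstract
variable {α C : Type} [DecidableEq α]

lemma fold_valid (V : α → C → C → Prop) (Rr : α × Bool → C → C) (c0 : C)
    (hf : ∀ a x, V a x (Rr (a, true) x)) (hb : ∀ a y, V a (Rr (a, false) y) y)
    (a : α) (u : FreeGroup α) :
    V a (u.toWord.foldr Rr c0) ((of a * u).toWord.foldr Rr c0) := by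
  have := toWord_cases (a, true) u
  have e : (of a : FreeGroup α) = mk [(a, true)] := rfl
  rw [e]
  rcases this with h | h
  · rw [h]; exact hf a _
  · rw [h]; exact hb a _

lemma col_word (V : α → C → C → Prop) (Rr : α × Bool → C → C) (c0 : C)
    (hf : ∀ a x, V a x (Rr (a, true) x)) (hb : ∀ a y, V a (Rr (a, false) y) y)
    {W : List (α × Bool)} (hW : IsReduced (W ++ W)) (hne : W ≠ [])
    (hz : ∃ z, ∀ x, (W ++ W).foldr Rr x = z) :
    ∃ c : FreeGroup α → C,
      (∀ a u, V a (c u) (c (of a * u))) ∧ ∀ u, c (u * mk W) = c u := by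
  obtain ⟨z, hz⟩ := hz
  have ev : ∀ u : FreeGroup α, ∃ c, ∀ᶠ N in Filter.atTop,
      (u * mk W ^ N).toWord.foldr Rr c0 = c := by
    intro u
    obtain ⟨m, hm⟩ := exists_good hW hne u
    refine ⟨(u * mk W ^ m).toWord.foldr Rr z, ?_⟩
    rw [Filter.eventually_atTop]
    refine ⟨m + 2, fun N hN => ?_⟩
    obtain ⟨k, rfl⟩ := Nat.exists_eq_add_of_le hN
    have e : u * mk W ^ (m + 2 + k) = u * mk W ^ m * mk W ^ (k + 1 + 1) := by
      rw [mul_assoc, ← pow_add]; congr 2; omega
    rw [e, (good_pow hW hne hm (k + 1 + 1)).2, List.replicate_succ, List.replicate_succ,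
      List.flatten_cons, List.flatten_cons, List.foldr_append, ← List.append_assoc,
      List.foldr_append, hz]
  choose c hc using ev
  refine ⟨c, fun a u => ?_, fun u => ?_⟩
  · obtain ⟨N, h1, h2⟩ := ((hc u).and (hc (of a * u))).exists
    rw [← h1, ← h2, mul_assoc]
    exact fold_valid V Rr c0 hf hb a _
  · have h1 := (Filter.tendsto_add_atTop_nat 1).eventually (hc u)
    obtain ⟨N, h1, h2⟩ := (h1.and (hc (u * mk W))).exists
    rw [← h1, ← h2, mul_assoc, ← pow_succ']

lemma col_action (V : α → C → C → Prop) {X : Type} [MulAction (FreeGroup α) X]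
    (hcomm : ∀ (x : X) (a b : FreeGroup α), a • x = x → b • x = x → a * b = b * a)
    (hcol : ∀ (x : X) (w : FreeGroup α), w • x = x → ∃ c : FreeGroup α → C,
      (∀ a u, V a (c u) (c (of a * u))) ∧ ∀ u, c (u * w) = c u) :
    ∃ col : X → C, ∀ (a : α) (x : X), V a (col x) (col ((of a : FreeGroup α) • x)) := by
  have h1 : ∀ x : X, ∃ c : FreeGroup α → C,
      (∀ a u, V a (c u) (c (of a * u))) ∧ ∀ u v, u • x = v • x → c u = c v := by
    intro x
    obtain ⟨w, hw, hgen⟩ := comm_cyclic (MulAction.stabilizer (FreeGroup α) x)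
      (fun a ha b hb => hcomm x a b ha hb)
    obtain ⟨c, hc1, h2⟩ := hcol x w hw
    have hc2 : ∀ u (n : ℤ), c (u * w ^ n) = c u := by
      intro u n
      induction n using Int.induction_on with
      | zero => simp
      | succ n ih => rw [zpow_add_one, ← mul_assoc, h2, ih]
      | pred n ih =>
        rw [← ih, ← h2 (u * w ^ (-(n : ℤ) - 1)), mul_assoc, ← zpow_add_one]
        congr 3; ring
    refine ⟨c, hc1, fun u v huv => ?_⟩
    obtain ⟨n, hn⟩ := hgen (v⁻¹ * u) (by
      rw [MulAction.mem_stabilizer_iff, mul_smul, huv, inv_smul_smul])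
    rw [← hc2 v n, ← hn, mul_inv_cancel_left]
  choose c hc1 hc2 using h1
  let rep : X → X := fun x =>
    (Quotient.mk (MulAction.orbitRel (FreeGroup α) X) x).out
  have hrep : ∀ x, ∃ u : FreeGroup α, u • rep x = x := by
    intro x
    have : (MulAction.orbitRel (FreeGroup α) X).r (rep x) x :=
      Quotient.mk_out (s := MulAction.orbitRel (FreeGroup α) X) x
    have h2 := (MulAction.orbitRel (FreeGroup α) X).symm this
    exact h2
  have hrep2 : ∀ (u : FreeGroup α) x, rep (u • x) = rep x := by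
    intro u x
    have : Quotient.mk (MulAction.orbitRel (FreeGroup α) X) (u • x) =
        Quotient.mk (MulAction.orbitRel (FreeGroup α) X) x :=
      Quotient.sound ⟨u, rfl⟩
    simp only [rep, this]
  choose p hp using hrep
  refine ⟨fun x => c (rep x) (p x), fun a x => ?_⟩
  show V a (c (rep x) (p x)) (c (rep (of a • x)) (p (of a • x)))
  have h3 := hp (of a • x)
  rw [hrep2] at h3 ⊢
  rw [hc2 (rep x) (p (of a • x)) (of a * p x) (by rw [h3, mul_smul, hp])]
  exact hc1 _ a _

end abstract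

def Prp {I : Type} (T : Set I) : Prop := T.Nonempty ∧ Tᶜ.Nonempty

lemma exists_pick {I : Type} [Nonempty I] (S : Set I) :
    ∃ p : Set I → Prop → I, (∀ T, Prp T → ∀ b, p T b ∈ T ↔ b) ∧
      (∀ T, Prp T → T ≠ S → T ≠ Sᶜ → ∀ b b', p T b ∈ S ↔ p T b' ∈ S) := by
  classical
  have key : ∀ T : Set I, ∃ x y : I, (Prp T → x ∈ T ∧ y ∉ T) ∧
      (Prp T → T ≠ S → T ≠ Sᶜ → (x ∈ S ↔ y ∈ S)) := by
    intro T
    by_cases hT : Prp T
    · by_cases h1 : (∃ x ∈ T, x ∈ S) ∧ ∃ y, y ∉ T ∧ y ∈ S
      · obtain ⟨⟨x, hx, hx'⟩, y, hy, hy'⟩ := h1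
        exact ⟨x, y, fun _ => ⟨hx, hy⟩, fun _ _ _ => by simp [hx', hy']⟩
      · by_cases h2 : (∃ x ∈ T, x ∉ S) ∧ ∃ y, y ∉ T ∧ y ∉ S
        · obtain ⟨⟨x, hx, hx'⟩, y, hy, hy'⟩ := h2
          exact ⟨x, y, fun _ => ⟨hx, hy⟩, fun _ _ _ => by simp [hx', hy']⟩
        · obtain ⟨⟨x, hx⟩, y, hy⟩ := hT
          refine ⟨x, y, fun _ => ⟨hx, hy⟩, fun _ h3 h4 => ?_⟩
          exfalso
          rw [not_and_or] at h1 h2
          push Not at h1 h2
          rcases h1 with h1 | h1 <;> rcases h2 with h2 | h2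
          · exact h1 x hx (h2 x hx)
          · apply h4; ext z
            exact ⟨fun hz => h1 z hz, fun hz => by by_contra h; exact hz (h2 z h)⟩
          · apply h3; ext z
            exact ⟨fun hz => h2 z hz, fun hz => by by_contra h; exact h1 z h hz⟩
          · exact h1 y hy (h2 y hy)
    · obtain ⟨x⟩ := ‹Nonempty I›
      exact ⟨x, x, fun h => absurd h hT, fun h => absurd h hT⟩
  choose x y h1 h2 using key
  refine ⟨fun T b => if b then x T else y T, fun T hT b => ?_, fun T hT h3 h4 b b' => ?_⟩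
  · by_cases hb : b <;> simp [hb, (h1 T hT).1, (h1 T hT).2]
  · have := h2 T hT h3 h4
    by_cases hb : b <;> by_cases hb' : b' <;> simp [hb, hb', this]

def tgt {I J : Type} (B : Set I) (S : J → Set I) : Option J → Set I
  | none => Bᶜ
  | some j => S j

def VV {I J : Type} (B : Set I) (S : J → Set I) (a : Option J) (x y : I) : Prop :=
  y ∈ tgt B S a ↔ x ∈ B

def RR {I J : Type} (B : Set I) (S : J → Set I) (p : Set I → Prop → I) :
    Option J × Bool → I → I
  | (a, true), x => p (tgt B S a) (x ∈ B)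
  | (a, false), y => p B (y ∈ tgt B S a)

structure Sys {I J : Type} (B : Set I) (S : J → Set I) : Prop where
  hB : Prp B
  hS : ∀ j, Prp (S j)
  h1 : ∀ j, B ≠ S j
  h2 : ∀ j, B ≠ (S j)ᶜ
  h3 : ∀ j k, S j = S k → j = k
  h4 : ∀ j k, S j ≠ (S k)ᶜ

section sys
variable {I J : Type} [DecidableEq J] {B : Set I} {S : J → Set I}

omit [DecidableEq J] in
lemma Sys.tgt_prp (h : Sys B S) (a : Option J) : Prp (tgt B S a) := by
  cases a with
  | none => exact ⟨h.hB.2, by simpa [tgt] using h.hB.1⟩
  | some j => exact h.hS j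

omit [DecidableEq J] in
lemma RR_f (h : Sys B S) {p : Set I → Prop → I} (hp : ∀ T, Prp T → ∀ b, p T b ∈ T ↔ b)
    (a : Option J) (x : I) : VV B S a x (RR B S p (a, true) x) := hp _ (h.tgt_prp a) _

omit [DecidableEq J] in
lemma RR_b (h : Sys B S) {p : Set I → Prop → I} (hp : ∀ T, Prp T → ∀ b, p T b ∈ T ↔ b)
    (a : Option J) (y : I) : VV B S a (RR B S p (a, false) y) y := (hp _ h.hB _).symm

lemma sys_word (h : Sys B S) (a : J) {W : List (Option J × Bool)} (hW : IsReduced (W ++ W))
    (ha : (some a, false) ∈ W) :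
    ∃ c : FreeGroup (Option J) → I,
      (∀ a u, VV B S a (c u) (c (of a * u))) ∧ ∀ u, c (u * mk W) = c u := by
  obtain ⟨i0, -⟩ := h.hB.1
  have : Nonempty I := ⟨i0⟩
  obtain ⟨p, hp1, hp2⟩ := exists_pick (S a)
  have hne' : W ≠ [] := by rintro rfl; simp at ha
  refine col_word (VV B S) (RR B S p) i0 (RR_f h hp1) (RR_b h hp1) hW hne' ?_
  obtain ⟨L1, L2, hL⟩ := List.append_of_mem ha
  have hne : L2 ++ W ≠ [] := fun h => hne' (List.append_eq_nil_iff.1 h).2
  obtain ⟨s, L3, hs⟩ := List.exists_cons_of_ne_nil hne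
  have e : W ++ W = L1 ++ (some a, false) :: s :: L3 := by
    rw [← hs]; conv_lhs => rw [hL]
    conv_rhs => rw [hL]
    simp
  have hs' : s ≠ (some a, true) := by
    rw [e] at hW
    have h2 : IsReduced ((some a, false) :: s :: L3) := red_right hW
    have := (isReduced_cons_cons.1 h2).1
    intro h; rw [h] at this; simp at this
  refine ⟨L1.foldr (RR B S p) (RR B S p (some a, false) (RR B S p s i0)), fun x => ?_⟩
  rw [e, List.foldr_append]
  congr 1
  simp only [List.foldr_cons]
  generalize L3.foldr (RR B S p) x = y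
  have : RR B S p s y ∈ S a ↔ RR B S p s i0 ∈ S a := by
    obtain ⟨s1, s2⟩ := s
    cases s2 with
    | false => exact hp2 B h.hB (h.h1 a) (h.h2 a) _ _
    | true =>
      refine hp2 _ (h.tgt_prp s1) ?_ ?_ _ _
      · cases s1 with
        | none => intro h3; apply h.h2 a; rw [← h3]; simp [tgt]
        | some b => intro h3; exact hs' (by rw [h.h3 b a h3])
      · cases s1 with
        | none => intro h3; exact h.h1 a (compl_injective h3)
        | some b => exact h.h4 b a
  show p B (RR B S p s y ∈ S a) = p B (RR B S p s i0 ∈ S a)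
  rw [propext this]

lemma sys_word' (h : Sys B S) (a : J) (b : Bool) {W : List (Option J × Bool)}
    (hW : IsReduced (W ++ W)) (ha : (some a, b) ∈ W) :
    ∃ c : FreeGroup (Option J) → I,
      (∀ a u, VV B S a (c u) (c (of a * u))) ∧ ∀ u, c (u * mk W) = c u := by
  cases b with
  | false => exact sys_word h a hW ha
  | true =>
    have hW' : IsReduced (invRev W ++ invRev W) := by
      rw [← invRev_append, isReduced_iff_reduce_eq, reduce_invRev, hW.reduce_eq]
    have mem : (some a, false) ∈ invRev W := by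
      simp only [invRev, List.mem_reverse, List.mem_map]
      exact ⟨_, ha, by simp⟩
    obtain ⟨c, h1, h2⟩ := sys_word h a hW' mem
    refine ⟨c, h1, fun u => ?_⟩
    have := h2 (u * mk W)
    rw [← inv_mk, mul_inv_cancel_right] at this
    exact this.symm

lemma sys_col (h : Sys B S) (w : FreeGroup (Option J))
    (hw : ∀ (q : FreeGroup (Option J)) (n : ℤ), w = q * of none ^ n * q⁻¹ → w = 1) :
    ∃ c : FreeGroup (Option J) → I,
      (∀ a u, VV B S a (c u) (c (of a * u))) ∧ ∀ u, c (u * w) = c u := by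
  set W := reduceCyclically w.toWord with hWdef
  have hc : IsCyclicallyReduced W := reduceCyclically.isCyclicallyReduced isReduced_toWord
  have hW : IsReduced (W ++ W) := by
    have := (hc.flatten_replicate 2).isReduced
    simpa [List.replicate] using this
  set q : FreeGroup (Option J) := mk (reduceCyclically.conjugator w.toWord) with hq
  have hwq : w = q * mk W * q⁻¹ := by
    conv_lhs => rw [← mk_toWord (x := w),
      ← reduceCyclically.conj_conjugator_reduceCyclically w.toWord]
    rw [hq, inv_mk, mul_mk, mul_mk]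
  by_cases h0 : ∀ s ∈ W, s.1 = none
  · obtain ⟨n, hn⟩ := mk_only none W h0
    have := hw q n (by rw [← hn]; exact hwq)
    obtain ⟨i0, -⟩ := h.hB.1
    have _ : Nonempty I := ⟨i0⟩
    obtain ⟨p, hp1, -⟩ := exists_pick B
    exact ⟨fun u => u.toWord.foldr (RR B S p) i0,
      fold_valid (VV B S) (RR B S p) i0 (RR_f h hp1) (RR_b h hp1), fun u => by rw [this, mul_one]⟩
  · push Not at h0
    obtain ⟨⟨s1, b⟩, hs, hs1⟩ := h0
    obtain ⟨a, rfl⟩ := Option.ne_none_iff_exists'.1 hs1
    obtain ⟨c, h1, h2⟩ := sys_word' h a b hW hs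
    refine ⟨fun u => c (u * q), fun a u => ?_, fun u => ?_⟩
    · simp only [mul_assoc]; exact h1 a _
    · show c (u * w * q) = c (u * q)
      have : u * w * q = u * q * mk W := by rw [hwq]; group
      rw [this, h2]

end sys

theorem sys_solve {I J : Type} {B : Set I} {S : J → Set I} (h : Sys B S)
    (hJ : Cardinal.mk J ≤ Cardinal.continuum) :
    ∃ (a : Option J → SL(2, ℝ)) (col : UpperHalfPlane → I),
      ∀ i x, VV B S i (col x) (col (a i • x)) := by
  classical
  obtain ⟨τ, hτ⟩ := exists_free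
  rw [← Cardinal.mk_real] at hJ
  obtain ⟨e⟩ := hJ
  let ρ := FreeGroup.lift (fun i : Option J => A (τ (i.map e)))
  have hρ : Function.Injective ρ := by
    have : ρ = (FreeGroup.lift (fun i => A (τ i))).comp (FreeGroup.map (Option.map e)) := by
      ext1 i; simp [ρ]
    rw [this]
    exact hτ.comp (FreeGroup.map_injective (Option.map_injective e.injective))
  let _ : MulAction (FreeGroup (Option J)) UpperHalfPlane := MulAction.compHom _ ρ
  have hs : ∀ (u : FreeGroup (Option J)) (x : UpperHalfPlane), u • x = ρ u • x := fun _ _ => rfl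
  obtain ⟨col, hcol⟩ := col_action (VV B S) (X := UpperHalfPlane)
    (fun x a b ha hb => hρ (by
      rw [_root_.map_mul, _root_.map_mul]; exact stab_comm _ _ x ha hb))
    (fun x w hw => sys_col h w (by
      intro q n hq
      have h1 : (of none : FreeGroup (Option J)) ^ n • (q⁻¹ • x) = q⁻¹ • x := by
        conv_rhs => rw [← hw, hq]
        simp only [mul_smul, inv_smul_smul]
      rw [hs, map_zpow] at h1
      simp only [ρ, FreeGroup.lift_apply_of] at h1
      have := A_nofix _ n _ h1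
      rw [hq, this]; simp))
  refine ⟨fun i => A (τ (i.map e)), col, fun i x => ?_⟩
  have := hcol i x
  rw [hs] at this
  simpa only [ρ, FreeGroup.lift_apply_of] using this

/-- every member of a small family of proper subsets gives a set congruent to a fixed one -/
theorem family_solve {I : Type} (F : Set (Set I)) (hF : ∀ T ∈ F, Prp T) (B0 : Set I) (hB0 : B0 ∈ F)
    (hc : Cardinal.mk F ≤ Cardinal.continuum) :
    ∃ (col : UpperHalfPlane → I) (E : Set UpperHalfPlane),
      ∀ T ∈ F, ∃ g : SL(2, ℝ), ∀ x, col (g • x) ∈ T ↔ x ∈ E := by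
  classical
  obtain ⟨i0, hi0⟩ := (hF B0 hB0).1
  let nm : Set I → Set I := fun T => if i0 ∈ T then T else Tᶜ
  have hnm : ∀ T, i0 ∈ nm T := by
    intro T; by_cases h : i0 ∈ T <;> simp [nm, h]
  have hnp : ∀ T, Prp T → Prp (nm T) := by
    intro T hT; by_cases h : i0 ∈ T
    · simpa [nm, h] using hT
    · simp only [nm, h, if_false]; exact ⟨hT.2, by simpa using hT.1⟩
  let J := {T : Set I // T ∈ nm '' F ∧ T ≠ B0}
  have hJ : Cardinal.mk J ≤ Cardinal.continuum :=
    le_trans (le_trans (Cardinal.mk_subtype_le_of_subset (fun T hT => hT.1))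
      Cardinal.mk_image_le) hc
  have hmem : ∀ j : J, i0 ∈ j.1 := by
    rintro ⟨_, ⟨T, _, rfl⟩, _⟩; exact hnm T
  have hsys : Sys B0 (fun j : J => j.1) :=
    { hB := hF B0 hB0
      hS := by rintro ⟨_, ⟨T, hT, rfl⟩, _⟩; exact hnp T (hF T hT)
      h1 := fun j => j.2.2.symm
      h2 := fun j h => by
        have := hi0; rw [h] at this; exact this (hmem j)
      h3 := fun j k h => Subtype.ext h
      h4 := fun j k h => by
        have := hmem j; rw [h] at this; exact this (hmem k) }
  obtain ⟨a, col, h⟩ := sys_solve hsys hJ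
  refine ⟨col, {x | col x ∈ B0}, fun T hT => ?_⟩
  have h1 : ∃ g : SL(2, ℝ), ∀ x, col (g • x) ∈ nm T ↔ col x ∈ B0 := by
    by_cases hB : nm T = B0
    · exact ⟨1, fun x => by rw [one_smul, hB]⟩
    · exact ⟨a (some ⟨nm T, ⟨T, hT, rfl⟩, hB⟩), fun x => h (some ⟨nm T, ⟨T, hT, rfl⟩, hB⟩) x⟩
  obtain ⟨g, hg⟩ := h1
  by_cases hi : i0 ∈ T
  · simp only [nm, hi, if_true] at hg
    exact ⟨g, hg⟩
  · simp only [nm, hi, if_false] at hg
    refine ⟨g * a none, fun x => ?_⟩
    have h2 := hg (a none • x)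
    have h3 : col (a none • x) ∈ B0ᶜ ↔ col x ∈ B0 := h none x
    rw [mul_smul]
    simp only [Set.mem_compl_iff, Set.mem_setOf_eq] at h2 h3 ⊢
    tauto

end Pool.Agent.Lib.helper19.CongColor
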