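import Mathlib

set_option autoImplicit false

namespace Pool.Agent.Lib.helper19.Davies

open Cardinal Set Filter Topology

lemma exists_cl {G : Type} (f : G → G → ℕ → G) : ∃ cl : Set G → Set G, Monotone cl ∧
    (∀ S, S ⊆ cl S) ∧ (∀ S, ∀ a ∈ cl S, ∀ b ∈ cl S, ∀ n, f a b n ∈ cl S) ∧
    ∀ S, #(cl S) ≤ max #S ℵ₀ := by
  let st : Set G → Set G := fun S => S ∪ range fun p : S × S × ℕ => f p.1 p.2.1 p.2.2
  have h1 : Monotone st := fun S T h => union_subset_union h (by
    rintro _ ⟨⟨a, b, n⟩, rfl⟩; exact ⟨(⟨_, h a.2⟩, ⟨_, h b.2⟩, n), rfl⟩)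
  have h2 : ∀ S, Monotone fun k => st^[k] S := fun S => monotone_nat_of_le_succ fun k => by
    rw [Function.iterate_succ_apply']; exact subset_union_left
  have h3 : ∀ S k, #(st^[k] S) ≤ max #S ℵ₀ := fun S k => by
    induction k with
    | zero => exact le_max_left _ _
    | succ k ih =>
      rw [Function.iterate_succ_apply']
      have := le_max_right #S ℵ₀
      refine (mk_union_le _ _).trans (add_le_of_le this ih (mk_range_le.trans ?_))
      simp only [mk_prod, lift_id, mk_nat]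
      exact mul_le_of_le this ih (mul_le_of_le this ih this)
  refine ⟨fun S => ⋃ k, st^[k] S, fun S T h => iUnion_mono fun k => h1.iterate k h,
    fun S => subset_iUnion (fun k => st^[k] S) 0, fun S a ha b hb n => ?_, fun S => ?_⟩
  · obtain ⟨i, hi⟩ := mem_iUnion.1 ha
    obtain ⟨j, hj⟩ := mem_iUnion.1 hb
    refine mem_iUnion.2 ⟨max i j + 1, ?_⟩
    rw [Function.iterate_succ_apply']
    exact Or.inr ⟨(⟨a, h2 S (le_max_left _ _) hi⟩, ⟨b, h2 S (le_max_right _ _) hj⟩, n), rfl⟩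
  · refine (mk_iUnion_le _).trans ?_
    exact mul_le_of_le (le_max_right _ _) (by simp) (ciSup_le' (h3 S))

variable {G : Type} [AddCommGroup G] {H : ℕ → AddSubgroup G}

lemma layer (hH : ∀ n m, n ≠ m → ((H n : Set G) ∩ H m).Countable) (Y : Set G) (hY : ℵ₀ < #Y) :
    ∃ (ρ : G → Y) (B : G → Set ℕ), (∀ β, #{x ∈ Y | ρ x = β} < #Y) ∧ (∀ x, (B x).Subsingleton) ∧
      ∀ n g, ∃ β, ∀ x ∈ Y, x - g ∈ H n → n ∉ B x → ρ x = β := by
  classical
  have : ∀ a b : G, ∃ f : ℕ → G, ∀ x n m, n ≠ m → x - a ∈ H n → x - b ∈ H m → x ∈ range f := by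
    intro a b
    have : (⋃ n, ⋃ m, {x | n ≠ m ∧ x - a ∈ H n ∧ x - b ∈ H m}).Countable :=
      countable_iUnion fun n => countable_iUnion fun m => by
        rcases eq_empty_or_nonempty {x | n ≠ m ∧ x - a ∈ H n ∧ x - b ∈ H m} with h | ⟨y, h, h1, h2⟩
        · simp [h]
        · refine ((hH n m h).image (· + y)).mono ?_
          rintro x ⟨_, k1, k2⟩
          refine ⟨x - y, ⟨?_, ?_⟩, by simp⟩
          · simpa using sub_mem k1 h1
          · simpa using sub_mem k2 h2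
    obtain ⟨f, hf⟩ := (this.insert 0).exists_eq_range (insert_nonempty _ _)
    exact ⟨f, fun x n m h h1 h2 => hf ▸ Or.inr (mem_iUnion₂.2 ⟨n, m, h, h1, h2⟩)⟩
  choose f hf using this
  obtain ⟨cl, c1, c2, c3, c4⟩ := exists_cl f
  obtain ⟨_, _, hord⟩ := exists_ord_eq_type_lt Y
  have : Nonempty Y := mk_ne_zero_iff.1 (aleph0_pos.trans hY).ne'
  let C : Y → Set G := fun β => cl (Subtype.val '' Iic β)
  let ρ : G → Y := fun x => if h : ∃ β, x ∈ C β then wellFounded_lt.min {β | x ∈ C β} h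
    else Classical.arbitrary _
  have r1 : ∀ x β, x ∈ C β → x ∈ C (ρ x) ∧ ρ x ≤ β := fun x β h => by
    have e : ∃ β, x ∈ C β := ⟨β, h⟩
    simp only [ρ, dif_pos e]
    exact ⟨wellFounded_lt.min_mem {β | x ∈ C β} e,
      wellFounded_lt.min_le (s := {β | x ∈ C β}) h⟩
  have r2 : ∀ x ∈ Y, x ∈ C (ρ x) := fun x hx => (r1 x ⟨x, hx⟩ (c2 _ ⟨⟨x, hx⟩, le_rfl, rfl⟩)).1
  refine ⟨ρ, fun x => {n | ∃ a ∈ Y, ρ a < ρ x ∧ x - a ∈ H n}, fun β => ?_, ?_, fun n g => ?_⟩
  · refine (mk_le_mk_of_subset (show {x ∈ Y | ρ x = β} ⊆ C β from fun x hx => hx.2 ▸ r2 x hx.1)).trans_lt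
      ((c4 _).trans_lt (max_lt (mk_image_le.trans_lt ?_) hY))
    rw [← Iio_insert]
    exact mk_insert_le.trans_lt (add_lt_of_lt hY.le (mk_Iio_lt β hord) (one_lt_aleph0.trans hY))
  · rintro x n ⟨a, a1, a2, a3⟩ m ⟨b, b1, b2, b3⟩
    by_contra h
    obtain ⟨k, rfl⟩ := hf a b x n m h a3 b3
    exact (max_lt a2 b2).not_ge (r1 _ _ (c3 _
      a (c1 (image_mono (Iic_subset_Iic.2 (le_max_left _ _))) (r2 a a1))
      b (c1 (image_mono (Iic_subset_Iic.2 (le_max_right _ _))) (r2 b b1)) k)).2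
  · by_cases h : (ρ '' {x ∈ Y | x - g ∈ H n}).Nonempty
    · obtain ⟨a, ha, e⟩ := wellFounded_lt.min_mem _ h
      refine ⟨ρ a, fun x hx h1 h2 => le_antisymm (not_lt.1 fun h3 => h2 ⟨a, ha.1, h3, ?_⟩)
        (e ▸ wellFounded_lt.min_le (s := ρ '' {x ∈ Y | x - g ∈ H n}) ⟨x, ⟨hx, h1⟩, rfl⟩)⟩
      simpa using sub_mem h1 ha.2
    · exact ⟨Classical.arbitrary _, fun x hx h1 _ => absurd ⟨_, x, ⟨hx, h1⟩, rfl⟩ h⟩

theorem davies (hH : ∀ n m, n ≠ m → ((H n : Set G) ∩ H m).Countable) (κ : Cardinal) :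
    ∀ Y : Set G, #Y = κ → ∀ F : G → Set ℕ, (∀ x, (F x).Finite) → ∃ χ : G → ℕ, (∀ x ∈ Y, χ x ∉ F x) ∧
      ∀ n g, {x ∈ Y | χ x = n ∧ x - g ∈ H n}.Countable := by
  induction κ using WellFoundedLT.induction with
  | ind κ ih =>
    rintro Y rfl F hF
    rcases le_or_gt #Y ℵ₀ with h | h
    · choose χ hχ using fun x => (hF x).exists_notMem
      exact ⟨χ, fun x _ => hχ x, fun n g =>
        (le_aleph0_iff_set_countable.1 h).mono (sep_subset _ _)⟩
    obtain ⟨ρ, B, h1, h2, h3⟩ := layer hH Y h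
    choose χ c1 c2 using fun β => ih _ (h1 β) _ rfl (fun x => F x ∪ B x)
      fun x => (hF x).union (h2 x).finite
    refine ⟨fun x => χ (ρ x) x, fun x hx h => c1 _ x ⟨hx, rfl⟩ (Or.inl h), fun n g => ?_⟩
    obtain ⟨β, hβ⟩ := h3 n g
    refine (c2 β n g).mono fun x ⟨a, b, c⟩ => ?_
    obtain rfl := hβ x a c fun h => c1 _ x ⟨a, rfl⟩ (Or.inr (by rwa [← b] at h))
    exact ⟨⟨a, rfl⟩, b, c⟩

theorem two (hH : ∀ n m, n ≠ m → ((H n : Set G) ∩ H m).Countable) (hG : #G = ℵ₁) :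
    ∃ S : Set G, ∀ g, {x ∈ S | x - g ∈ H 0}.Countable ∧ {x ∈ Sᶜ | x - g ∈ H 1}.Countable := by
  obtain ⟨ρ, B, h1, h2, h3⟩ := layer hH univ (by rw [mk_univ, hG]; exact aleph0_lt_aleph_one)
  have h4 : ∀ β, {x | ρ x = β}.Countable := fun β =>
    le_aleph0_iff_set_countable.1 (lt_aleph_one_iff.1 (by simpa [hG] using h1 β))
  refine ⟨{x | 0 ∉ B x}, fun g => ⟨?_, ?_⟩⟩
  · obtain ⟨β, hβ⟩ := h3 0 g
    exact (h4 β).mono fun x hx => hβ x trivial hx.2 hx.1
  · obtain ⟨β, hβ⟩ := h3 1 g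
    exact (h4 β).mono fun x hx => hβ x trivial hx.2 fun h =>
      zero_ne_one (h2 x (not_not.1 hx.1) h)

def P (g : ℕ → G) (c : ℕ → ℤ) (k : ℕ) : G := ∑ j ∈ Finset.range k, c j • g j

lemma exists_seq [MetricSpace G] [IsTopologicalAddGroup G] [(𝓝[≠] (0 : G)).NeBot] :
    ∃ g : ℕ → G, ∀ k, g k ≠ 0 ∧ ∀ c : ℕ → ℤ, (∀ j, |c j| ≤ k) →
      dist (P g c k) (P g c (k + 1)) ≤ (1 / 2) ^ k ∧ ∀ i ≤ k, P g c i ≠ 0 →
        dist (P g c k) (P g c (k + 1)) ≤ dist (P g c i) 0 / 4 * (1 / 2) ^ k := by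
  classical
  have cg : ∀ (g g' : ℕ → G) (c c' : ℕ → ℤ) i, (∀ j < i, g j = g' j ∧ c j = c' j) →
      P g c i = P g' c' i := fun g g' c c' i h => Finset.sum_congr rfl fun j hj => by
    rw [(h j (Finset.mem_range.1 hj)).1, (h j (Finset.mem_range.1 hj)).2]
  have : ∀ (k : ℕ) (g : ℕ → G), ∃ x, x ≠ 0 ∧ ∀ c : ℕ → ℤ, (∀ j, |c j| ≤ k) →
      dist (P g c k) (P g c k + c k • x) ≤ (1 / 2) ^ k ∧ ∀ i ≤ k, P g c i ≠ 0 →
        dist (P g c k) (P g c k + c k • x) ≤ dist (P g c i) 0 / 4 * (1 / 2) ^ k := by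
    intro k g
    let ex : (Fin (k + 1) → ℤ) → ℕ → ℤ := fun d j => if h : j < k + 1 then d ⟨j, h⟩ else 0
    have h1 : ∀ (s : G) (c : ℤ) ε, 0 < ε → ∀ᶠ x in 𝓝 (0 : G), dist s (s + c • x) ≤ ε :=
      fun s c ε h => (Continuous.continuousAt (f := fun x : G => dist s (s + c • x))
        (by fun_prop)).eventually_lt continuousAt_const (by simpa using h) |>.mono fun _ h => h.le
    have h2 : ∀ᶠ x in 𝓝 (0 : G), ∀ d ∈ Fintype.piFinset fun _ => Finset.Icc (-(k : ℤ)) k,
        dist (P g (ex d) k) (P g (ex d) k + ex d k • x) ≤ (1 / 2) ^ k ∧ ∀ i ∈ Finset.range (k + 1),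
          P g (ex d) i ≠ 0 → dist (P g (ex d) k) (P g (ex d) k + ex d k • x) ≤
            dist (P g (ex d) i) 0 / 4 * (1 / 2) ^ k := by
      simp only [eventually_all_finset, eventually_and, eventually_imp_distrib_left]
      exact fun d _ => ⟨h1 _ _ _ (by positivity), fun i _ h =>
        h1 _ _ _ (by have := dist_pos.2 h; positivity)⟩
    obtain ⟨x, x1, x2⟩ := ((h2.filter_mono nhdsWithin_le_nhds).and
      (self_mem_nhdsWithin (s := {0}ᶜ))).exists
    refine ⟨x, x2, fun c hc => ?_⟩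
    have := x1 (fun j => c j) (Fintype.mem_piFinset.2 fun j => Finset.mem_Icc.2 (abs_le.1 (hc j)))
    have e : ∀ i ≤ k, P g (ex fun j => c j) i = P g c i := fun i hi =>
      cg _ _ _ _ _ fun j hj => ⟨rfl, dif_pos (by omega)⟩
    rw [e k le_rfl, show ex (fun j => c j) k = c k from dif_pos k.lt_succ_self] at this
    exact ⟨this.1, fun i hi h => e i hi ▸ this.2 i (Finset.mem_range_succ_iff.2 hi) (e i hi ▸ h)⟩
  choose nx h using this
  let sq : ℕ → ℕ → G := fun k => Nat.rec 0 (fun k s => Function.update s k (nx k s)) k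
  have hs : ∀ k, ∀ j < k, sq k j = nx j (sq j) := fun k => by
    induction k with
    | zero => simp
    | succ k ih =>
      intro j hj
      show Function.update (sq k) k (nx k (sq k)) j = _
      rcases (Nat.lt_succ_iff.1 hj).eq_or_lt with rfl | h
      · simp
      · rw [Function.update_of_ne h.ne, ih j h]
  refine ⟨fun j => nx j (sq j), fun k => ⟨(h k _).1, fun c hc => ?_⟩⟩
  have := (h k (sq k)).2 c hc
  have e : ∀ i ≤ k, P (sq k) c i = P (fun j => nx j (sq j)) c i := fun i hi =>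
    cg _ _ _ _ _ fun j hj => ⟨hs k j (by omega), rfl⟩
  rw [e k le_rfl] at this
  rw [show P _ c (k + 1) = _ from Finset.sum_range_succ _ _]
  exact ⟨this.1, fun i hi h => e i hi ▸ this.2 i hi (e i hi ▸ h)⟩

open MeasureTheory in
theorem exists_subgroups [TopologicalSpace G] [PolishSpace G] [IsTopologicalAddGroup G]
    [Uncountable G] : ∃ (H : ℕ → AddSubgroup G) (μ : ℕ → @Measure G (borel G)),
      (∀ n m, n ≠ m → ((H n : Set G) ∩ H m).Countable) ∧ (∀ n, μ n univ = 1) ∧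
      ∀ n (A : Set G), (A ∩ H n).Countable → μ n A = 0 := by
  classical
  let _ := TopologicalSpace.upgradeIsCompletelyMetrizable G
  let _ := borel G
  have : BorelSpace G := ⟨rfl⟩
  have : (𝓝[≠] (0 : G)).NeBot := by
    by_contra h
    have := discreteTopology_of_isOpen_singleton_zero
      (isOpen_singleton_iff_punctured_nhds (0 : G) |>.2 (not_neBot.1 h))
    exact not_countable (TopologicalSpace.separableSpace_iff_countable.1 inferInstance : Countable G)
  obtain ⟨g, hg⟩ := exists_seq (G := G)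
  have h1 : ∀ (c : ℕ → ℤ) (K : ℕ), (∀ j, |c j| ≤ K) → ∃ x, Tendsto (P g c) atTop (𝓝 x) :=
    fun c K hc => cauchySeq_tendsto_of_complete ((cauchySeq_shift K).1
      (cauchySeq_of_le_geometric (1 / 2) ((1 / 2) ^ K) (by norm_num) fun n => by
        rw [← pow_add, add_comm K, add_right_comm]
        exact ((hg (n + K)).2 c fun j => (hc j).trans (by omega)).1))
  have h2 : ∀ (c : ℕ → ℤ) (K : ℕ), (∀ j, |c j| ≤ K) → Tendsto (P g c) atTop (𝓝 0) →
      ∀ i ≥ K, c i • g i = 0 := by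
    intro c K hc ht
    have : ∀ i ≥ K, P g c i = 0 := fun i hi => by
      by_contra h
      have := dist_le_of_le_geometric_of_tendsto₀ (f := fun n => P g c (n + i)) (1 / 2)
        (dist (P g c i) 0 / 4) (by norm_num) (fun n => by
          rw [add_right_comm]
          refine (((hg (n + i)).2 c fun j => (hc j).trans (by omega)).2 i (by omega) h).trans ?_
          gcongr ?_ * ?_
          exact pow_le_pow_of_le_one (by norm_num) (by norm_num) (by omega))
        ((tendsto_add_atTop_iff_nat i).2 ht)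
      have := dist_pos.2 h
      rename_i k
      norm_num at k
      linarith
    intro i hi
    have e : P g c (i + 1) = P g c i + c i • g i := Finset.sum_range_succ _ _
    rwa [this i hi, this _ (by omega), zero_add, eq_comm] at e
  have h3 : ∀ {c d : ℕ → ℤ} {x y}, Tendsto (P g c) atTop (𝓝 x) → Tendsto (P g d) atTop (𝓝 y) →
      Tendsto (P g (c - d)) atTop (𝓝 (x - y)) := fun a b => (a.sub b).congr fun k => by
    simp [P, sub_smul]
  have h4 : ∀ {c d : ℕ → ℤ} {K L : ℕ}, (∀ j, |c j| ≤ K) → (∀ j, |d j| ≤ L) →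
      ∀ j, |(c - d) j| ≤ (K + L : ℕ) := fun a b j =>
    (abs_sub _ _).trans (by push_cast; exact add_le_add (a j) (b j))
  let H : ℕ → AddSubgroup G := fun n => AddSubgroup.ofSub {x | ∃ (c : ℕ → ℤ) (K : ℕ),
    (∀ j, |c j| ≤ K) ∧ (∀ k, k.unpair.1 ≠ n → c k = 0) ∧ Tendsto (P g c) atTop (𝓝 x)}
    ⟨0, 0, 0, by simp, by simp, tendsto_const_nhds.congr fun k => by simp [P]⟩
    fun x ⟨c, K, a1, a2, a3⟩ y ⟨d, L, b1, b2, b3⟩ =>
      ⟨c - d, _, h4 a1 b1, fun k hk => by simp [a2 k hk, b2 k hk],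
        sub_eq_add_neg x y ▸ h3 a3 b3⟩
  let c : ℕ → (ℕ → Bool) → ℕ → ℤ := fun n x k =>
    if k.unpair.1 = n ∧ x (k.unpair.2 - 1) = true then 1 else 0
  have hc : ∀ n x j, |c n x j| ≤ (1 : ℕ) := fun n x j => by simp only [c]; split_ifs <;> simp
  choose e he using fun n x => h1 _ _ (hc n x)
  have em : ∀ n, MeasurableEmbedding (e n) := fun n => Measurable.measurableEmbedding
    (measurable_of_tendsto_metrizable (f := fun k x => P g (c n x) k) (fun k =>
      Finset.measurable_sum _ fun j _ => (measurable_of_countable fun b : Bool =>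
        (if j.unpair.1 = n ∧ b = true then (1 : ℤ) else 0) • g j).comp (measurable_pi_apply _))
      (tendsto_pi_nhds.2 (he n))) fun x y h => funext fun j => by
      have := h2 (c n x - c n y) 1 (fun k => by
        simp only [c, Pi.sub_apply]; split_ifs <;> simp) (by simpa [h] using h3 (he n x) (he n y))
        (n.pair (j + 1)) (le_trans (by omega) (Nat.right_le_pair _ _))
      have := (hg (n.pair (j + 1))).1
      cases hx : x j <;> cases hy : y j <;> simp_all [c]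
  let φ := PolishSpace.measurableEquivNatBoolOfNotCountable (α := ℝ) not_countable
  refine ⟨H, fun n => (volume.restrict (Icc (0 : ℝ) 1)).map (e n ∘ φ), fun n m hnm => ?_,
    fun n => ?_, fun n A hA => ?_⟩
  · refine (countable_range fun l : ℕ →₀ ℤ => Finsupp.linearCombination ℤ g l).mono ?_
    rintro x ⟨⟨c, K, a1, a2, a3⟩, d, L, b1, b2, b3⟩
    have k := h2 _ _ (h4 a1 b1) (by simpa using h3 a3 b3)
    have k2 : ∀ i ≥ K + L, P g c i = P g c (K + L) := fun i hi => by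
      induction hi with
      | refl => rfl
      | step hi ih =>
        rename_i i
        rw [← ih, show P g c i.succ = P g c i + _ from Finset.sum_range_succ _ _,
          _root_.add_eq_left]
        by_cases h : i.unpair.1 = n
        · simpa [b2 i (h ▸ hnm)] using k i hi
        · simp [a2 i h]
    rw [tendsto_nhds_unique a3 (tendsto_atTop_of_eventually_const k2)]
    exact (Finsupp.range_linearCombination ℤ (v := g)).ge
      (Submodule.sum_mem _ fun j _ => Submodule.smul_mem _ _ (Submodule.subset_span ⟨j, rfl⟩))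
  · rw [((em n).comp φ.measurableEmbedding).map_apply]; simp
  · rw [((em n).comp φ.measurableEmbedding).map_apply]
    refine Countable.measure_zero ((hA.preimage ((em n).comp φ.measurableEmbedding).injective).mono
      (show (e n ∘ φ) ⁻¹' A ⊆ (e n ∘ φ) ⁻¹' (A ∩ H n) from
        fun t ht => ⟨ht, _, _, hc n (φ t), fun k hk => by simp [c, hk], he n _⟩)) _

end Pool.Agent.Lib.helper19.Davies
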