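import Mathlib

set_option autoImplicit false

namespace Pool.Agent.H19Draw

theorem lvl (a b : ℕ) (s t : ℝ) (hs0 : 0 < s) (hs1 : s < 1) (ht0 : 0 ≤ t) (ht1 : t ≤ 1)
    (h : (a : ℝ) + s = b + t) : a = b ∧ s = t := by
  have h1 : a < b + 1 := by
    have : (a : ℝ) < b + 1 := by linarith
    exact_mod_cast this
  have h2 : b < a + 1 := by
    have : (b : ℝ) < a + 1 := by linarith
    exact_mod_cast this
  have h3 : a = b := by omega
  subst h3
  exact ⟨rfl, by linarith⟩

theorem lvl0 (a b : ℕ) (s : ℝ) (hs0 : 0 ≤ s) (hs1 : s ≤ 1) (h : (a : ℝ) + s = b) :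
    (s = 0 ∧ b = a) ∨ (s = 1 ∧ b = a + 1) := by
  have h1 : a ≤ b := by
    have : (a : ℝ) ≤ b := by linarith
    exact_mod_cast this
  have h2 : b ≤ a + 1 := by
    have : (b : ℝ) ≤ a + 1 := by linarith
    exact_mod_cast this
  obtain rfl | rfl : b = a ∨ b = a + 1 := by omega
  · left; exact ⟨by linarith, rfl⟩
  · right; push_cast at h; exact ⟨by linarith, rfl⟩

theorem core (xa xb xa' xb' : ℕ) (δ δ' s : ℝ) (hs0 : 0 < s) (hs1 : s < 1)
    (hδ : δ = 0 ∨ δ = 1 / 2) (hδ' : δ' = 0 ∨ δ' = 1 / 2)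
    (m1 : xb ≤ xb' → xa ≤ xa') (m2 : xb' ≤ xb → xa' ≤ xa)
    (h : (1 - s) * xa + s * xb + δ * (s * (1 - s)) =
      (1 - s) * xa' + s * xb' + δ' * (s * (1 - s))) : xa = xa' ∧ xb = xb' ∧ δ = δ' := by
  have hs : 0 < 1 - s := by linarith
  have hss : 0 < s * (1 - s) := mul_pos hs0 hs
  have hlt : s * (1 - s) < s := by nlinarith
  rcases lt_trichotomy xb xb' with h1 | h1 | h1
  · exfalso
    have e1 : (xa : ℝ) ≤ xa' := by exact_mod_cast m1 h1.le
    have e2 : (xb : ℝ) + 1 ≤ xb' := by exact_mod_cast h1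
    have e3 := mul_le_mul_of_nonneg_left e1 hs.le
    have e4 := mul_le_mul_of_nonneg_left e2 hs0.le
    rcases hδ with rfl | rfl <;> rcases hδ' with rfl | rfl <;> nlinarith
  · have e1 : xa = xa' := le_antisymm (m1 h1.le) (m2 h1.ge)
    subst e1 h1
    refine ⟨rfl, rfl, ?_⟩
    have : (δ - δ') * (s * (1 - s)) = 0 := by linarith
    rcases mul_eq_zero.mp this with h | h
    · linarith
    · linarith
  · exfalso
    have e1 : (xa' : ℝ) ≤ xa := by exact_mod_cast m2 h1.le
    have e2 : (xb' : ℝ) + 1 ≤ xb := by exact_mod_cast h1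
    have e3 := mul_le_mul_of_nonneg_left e1 hs.le
    have e4 := mul_le_mul_of_nonneg_left e2 hs0.le
    rcases hδ with rfl | rfl <;> rcases hδ' with rfl | rfl <;> nlinarith

/-- A layered forest with monotone parent map has a plane drawing, with two arcs per edge. -/
theorem draw {V : Type} (G : SimpleGraph V) (L x : V → ℕ)
    (hinj : ∀ u v, L u = L v → x u = x v → u = v)
    (hadj : ∀ u v, G.Adj u v → L v = L u + 1 ∨ L u = L v + 1)
    (hmono : ∀ u v u' v', G.Adj u v → G.Adj u' v' → L v = L u + 1 → L v' = L u' + 1 →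
      L u = L u' → x v ≤ x v' → x u ≤ x u') :
    ∃ p : V → ℝ × ℝ, Function.Injective p ∧
      ∃ γ : V → V → unitInterval → ℝ × ℝ,
        (∀ u v, G.Adj u v → Continuous (γ u v) ∧ Function.Injective (γ u v) ∧
            γ u v 0 = p u ∧ γ u v 1 = p v) ∧
        (∀ u v w x, G.Adj u v → γ u v x = p w → (w = u ∧ x = 0) ∨ (w = v ∧ x = 1)) ∧
        (∀ u v u' v' x y, G.Adj u v → G.Adj u' v' → (u, v) ≠ (u', v') →
            γ u v x = γ u' v' y → ∃ w, γ u v x = p w) := by
  let δ : V → V → ℝ := fun u v => if L u < L v then 0 else 1 / 2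
  refine ⟨fun v => ((x v : ℝ), (L v : ℝ)), ?_,
    fun u v t => ((1 - t.1) * x u + t.1 * x v + δ u v * (t.1 * (1 - t.1)),
      (1 - t.1) * L u + t.1 * L v), ?_, ?_, ?_⟩
  · intro u v h
    simp only [Prod.mk.injEq, Nat.cast_inj] at h
    exact hinj u v h.2 h.1
  · intro u v huv
    refine ⟨by fun_prop, ?_, by simp, by simp⟩
    intro s t h
    simp only [Prod.mk.injEq] at h
    apply Subtype.ext
    rcases hadj u v huv with h1 | h1 <;> rw [h1] at h <;> push_cast at h <;> linarith [h.2]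
  · intro u v w t huv h
    simp only [Prod.mk.injEq] at h
    obtain ⟨hx, hy⟩ := h
    have hu : t.1 = 0 → L w = L u → w = u ∧ t = 0 := by
      intro ht hl
      rw [ht] at hx
      refine ⟨hinj _ _ hl ?_, Subtype.ext ht⟩
      have : (x w : ℝ) = x u := by linarith
      exact_mod_cast this
    have hv : t.1 = 1 → L w = L v → w = v ∧ t = 1 := by
      intro ht hl
      rw [ht] at hx
      refine ⟨hinj _ _ hl ?_, Subtype.ext ht⟩
      have : (x w : ℝ) = x v := by linarith
      exact_mod_cast this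
    rcases hadj u v huv with h1 | h1
    · rcases lvl0 (L u) (L w) t.1 t.2.1 t.2.2 (by rw [h1] at hy; push_cast at hy; linarith) with
        h | h
      · exact Or.inl (hu h.1 h.2)
      · exact Or.inr (hv h.1 (by omega))
    · rcases lvl0 (L v) (L w) (1 - t.1) (by linarith [t.2.2]) (by linarith [t.2.1])
        (by rw [h1] at hy; push_cast at hy; linarith) with h | h
      · exact Or.inr (hv (by linarith [h.1]) h.2)
      · exact Or.inl (hu (by linarith [h.1]) (by omega))
  · intro u v u' v' s t huv huv' hne h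
    by_cases hs0 : s.1 = 0
    · exact ⟨u, by simp [hs0]⟩
    by_cases hs1 : s.1 = 1
    · exact ⟨v, by simp [hs1]⟩
    exfalso
    have a0 : 0 < s.1 := lt_of_le_of_ne s.2.1 (Ne.symm hs0)
    have a1 : s.1 < 1 := lt_of_le_of_ne s.2.2 hs1
    have b0 := t.2.1
    have b1 := t.2.2
    simp only [Prod.mk.injEq] at h
    obtain ⟨hx, hy⟩ := h
    rcases hadj u v huv with h1 | h1 <;> rcases hadj u' v' huv' with h2 | h2
    · obtain ⟨e1, e2⟩ := lvl (L u) (L u') s.1 t.1 a0 a1 b0 b1
        (by rw [h1, h2] at hy; push_cast at hy; linarith)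
      have d1 : δ u v = 0 := if_pos (by omega)
      have d2 : δ u' v' = 0 := if_pos (by omega)
      obtain ⟨f1, f2, -⟩ := core (x u) (x v) (x u') (x v') 0 0 s.1 a0 a1 (Or.inl rfl) (Or.inl rfl)
        (hmono u v u' v' huv huv' h1 h2 e1) (hmono u' v' u v huv' huv h2 h1 e1.symm)
        (by rw [d1, d2, ← e2] at hx; linarith)
      exact hne (by rw [hinj u u' e1 f1, hinj v v' (by omega) f2])
    · obtain ⟨e1, e2⟩ := lvl (L u) (L v') s.1 (1 - t.1) a0 a1 (by linarith) (by linarith)
        (by rw [h1, h2] at hy; push_cast at hy; linarith)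
      have d1 : δ u v = 0 := if_pos (by omega)
      have d2 : δ u' v' = 1 / 2 := if_neg (by omega)
      have e3 : t.1 = 1 - s.1 := by linarith
      obtain ⟨-, -, f3⟩ := core (x u) (x v) (x v') (x u') 0 (1 / 2) s.1 a0 a1 (Or.inl rfl)
        (Or.inr rfl)
        (hmono u v v' u' huv huv'.symm h1 h2 e1) (hmono v' u' u v huv'.symm huv h2 h1 e1.symm)
        (by rw [d1, d2, e3] at hx; linarith)
      norm_num at f3
    · obtain ⟨e1, e2⟩ := lvl (L v) (L u') (1 - s.1) t.1 (by linarith) (by linarith) b0 b1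
        (by rw [h1, h2] at hy; push_cast at hy; linarith)
      have d1 : δ u v = 1 / 2 := if_neg (by omega)
      have d2 : δ u' v' = 0 := if_pos (by omega)
      obtain ⟨-, -, f3⟩ := core (x v) (x u) (x u') (x v') (1 / 2) 0 (1 - s.1) (by linarith)
        (by linarith) (Or.inr rfl) (Or.inl rfl)
        (hmono v u u' v' huv.symm huv' h1 h2 e1) (hmono u' v' v u huv' huv.symm h2 h1 e1.symm)
        (by rw [d1, d2, ← e2] at hx; linarith)
      norm_num at f3
    · obtain ⟨e1, e2⟩ := lvl (L v) (L v') (1 - s.1) (1 - t.1) (by linarith) (by linarith)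
        (by linarith) (by linarith) (by rw [h1, h2] at hy; push_cast at hy; linarith)
      have d1 : δ u v = 1 / 2 := if_neg (by omega)
      have d2 : δ u' v' = 1 / 2 := if_neg (by omega)
      have e3 : t.1 = s.1 := by linarith
      obtain ⟨f1, f2, -⟩ := core (x v) (x u) (x v') (x u') (1 / 2) (1 / 2) (1 - s.1) (by linarith)
        (by linarith) (Or.inr rfl) (Or.inr rfl)
        (hmono v u v' u' huv.symm huv'.symm h1 h2 e1)
        (hmono v' u' v u huv'.symm huv.symm h2 h1 e1.symm)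
        (by rw [d1, d2, e3] at hx; linarith)
      exact hne (by rw [hinj v v' e1 f1, hinj u u' (by omega) f2])

end Pool.Agent.H19Draw
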