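import Mathlib

/-! Edge-query games on graphs with vertex set `ℕ`: definitions and invariants. -/

namespace Pool.Agent.Lib.helper19.Elus
open SimpleGraph Set

/-- A move: the pair asked by Seeker and the answer of Hider (`true` = green). -/
abbrev Mv := Sym2 ℕ × Bool

/-- The position after `n` turns of the run `r`. -/
def hist (r : ℕ → Mv) (n : ℕ) : List Mv := (List.range n).map r

/-- Seeker only asks pairs of distinct vertices and never repeats a pair. -/
def LegalRun (r : ℕ → Mv) : Prop :=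
  (∀ n, ¬ (r n).1.IsDiag) ∧ Function.Injective fun n => (r n).1

/-- Green pairs at the end of the run. -/
def green (r : ℕ → Mv) : Set (Sym2 ℕ) := {e | ∃ n, r n = (e, true)}

/-- White pairs at the end of the run. -/
def white (r : ℕ → Mv) : Set (Sym2 ℕ) := {e | ¬ e.IsDiag ∧ ∀ n, (r n).1 ≠ e}

/-- The graphs compatible with the end of the run. -/
def poss (r : ℕ → Mv) : Set (SimpleGraph ℕ) :=
  {H | green r ⊆ H.edgeSet ∧ H.edgeSet ⊆ green r ∪ white r}

/-- Seeker wins the run. -/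
def SeekerWins (S : Set (SimpleGraph ℕ)) (r : ℕ → Mv) : Prop :=
  (white r).Nonempty ∧ (poss r ⊆ S ∨ poss r ∩ S = ∅)

/-- A winning strategy of Seeker. -/
def SeekerStrat (S : Set (SimpleGraph ℕ)) (σ : List Mv → Sym2 ℕ) : Prop :=
  ∀ r : ℕ → Mv, (∀ n, (r n).1 = σ (hist r n)) → LegalRun r ∧ SeekerWins S r

/-- A winning strategy of Hider. -/
def HiderStrat (S : Set (SimpleGraph ℕ)) (τ : List Mv → Sym2 ℕ → Bool) : Prop :=
  ∀ r : ℕ → Mv, LegalRun r → (∀ n, (r n).2 = τ (hist r n) (r n).1) → ¬ SeekerWins S r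

lemma mem_hist {r : ℕ → Mv} {n : ℕ} {x : Mv} : x ∈ hist r n ↔ ∃ m < n, r m = x := by
  simp [hist]

lemma hist_congr {r r' : ℕ → Mv} {n : ℕ} (h : ∀ m < n, r m = r' m) : hist r n = hist r' n :=
  List.map_congr_left fun m hm => h m (List.mem_range.1 hm)

lemma exists_run (F : List Mv → Mv) (r0 : ℕ → Mv) (t : ℕ) :
    ∃ r : ℕ → Mv, (∀ n < t, r n = r0 n) ∧ ∀ n, t ≤ n → r n = F (hist r n) := by
  let F' : List Mv → Mv := fun h => if h.length < t then r0 h.length else F h
  let L : ℕ → List Mv := fun n => Nat.rec [] (fun _ l => l ++ [F' l]) n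
  have hL : ∀ n, hist (fun n => F' (L n)) n = L n := by
    intro n
    induction n with
    | zero => rfl
    | succ n ih =>
      have : L (n + 1) = L n ++ [F' (L n)] := rfl
      rw [this, ← ih]
      simp only [hist, List.range_succ, List.map_append, List.map_cons, List.map_nil]
      rw [show List.map (fun n => F' (L n)) (List.range n) = L n from ih]
  have hl : ∀ n, (L n).length = n := fun n => by rw [← hL]; simp [hist]
  refine ⟨fun n => F' (L n), fun n hn => ?_, fun n hn => ?_⟩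
  · simp only [F', hl, if_pos hn]
  · rw [hL]; simp only [F', hl, if_neg (not_lt.2 hn)]

/-- Ordered pairs adjacent in `K` but not in `H`. -/
def dif (K H : SimpleGraph ℕ) : Set (ℕ × ℕ) := {p | K.Adj p.1 p.2 ∧ ¬ H.Adj p.1 p.2}

def Near (H H' : SimpleGraph ℕ) : Prop := (dif H H').Finite ∧ (dif H' H).Finite

lemma Near.symm {H H' : SimpleGraph ℕ} (h : Near H H') : Near H' H := ⟨h.2, h.1⟩

lemma Near.ex {H H' : SimpleGraph ℕ} (h : Near H H') :
    ∃ V : Set ℕ, V.Finite ∧ ∀ a ∉ V, ∀ b, H.Adj a b ↔ H'.Adj a b := by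
  refine ⟨Prod.fst '' (dif H H' ∪ dif H' H), (h.1.union h.2).image _, fun a ha b => ?_⟩
  constructor
  · intro h1; by_contra h2; exact ha ⟨(a, b), Or.inl ⟨h1, h2⟩, rfl⟩
  · intro h1; by_contra h2; exact ha ⟨(a, b), Or.inr ⟨h1, h2⟩, rfl⟩

lemma reach_ind {H : SimpleGraph ℕ} {v : ℕ} (P : ℕ → Prop) (h0 : P v)
    (hs : ∀ a b, H.Reachable v a → P a → H.Adj a b → P b) {w : ℕ} (hw : H.Reachable v w) : P w := by
  rw [reachable_iff_reflTransGen] at hw
  induction hw with
  | refl => exact h0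
  | tail h1 h2 ih => exact hs _ _ ((reachable_iff_reflTransGen _ _).2 h1) ih h2

lemma untouched {H H' : SimpleGraph ℕ} {V : Set ℕ} (h : ∀ a ∉ V, ∀ b, H.Adj a b ↔ H'.Adj a b)
    {v : ℕ} (hv : ∀ a, H.Reachable v a → a ∉ V) (b : ℕ) : H'.Reachable v b ↔ H.Reachable v b :=
  ⟨fun hb => reach_ind (H.Reachable v) (Reachable.refl _)
    (fun a b _ ha hab => ha.trans ((h a (hv a ha) b).2 hab).reachable) hb,
   fun hb => reach_ind (H'.Reachable v) (Reachable.refl _)
    (fun a b hr ha hab => ha.trans ((h a (hv a hr) b).1 hab).reachable) hb⟩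

/-- Sizes of components. -/
def sizes (H : SimpleGraph ℕ) : Set ℕ := {s | ∃ v, {w | H.Reachable v w}.ncard = s}

/-- Vertices of infinite degree. -/
def big (H : SimpleGraph ℕ) : Set ℕ := {v | {w | H.Adj v w}.Infinite}

/-- Degrees inside the set of vertices of infinite degree. -/
def degs (H : SimpleGraph ℕ) : Set ℕ := {d | ∃ v ∈ big H, {w | H.Adj v w ∧ w ∈ big H}.ncard = d}

def inv (c : ℕ → ℕ) (Y : Set ℕ) : Set ℕ := {r | {k | c (Nat.pair r k) ∈ Y}.Infinite}

lemma inv_sub {c : ℕ → ℕ} (hc : Function.Injective c) {Y Y' : Set ℕ} (h : (Y \ Y').Finite) :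
    inv c Y ⊆ inv c Y' := by
  intro r hr hf
  apply hr
  have : Function.Injective fun k => c (Nat.pair r k) := fun k k' hk =>
    (Nat.pair_eq_pair.1 (hc hk)).2
  refine (hf.union (h.preimage this.injOn)).subset fun k hk => ?_
  by_cases h' : c (Nat.pair r k) ∈ Y'
  · exact Or.inl h'
  · exact Or.inr ⟨hk, h'⟩

lemma inv_eq {c : ℕ → ℕ} {Y x : Set ℕ} (h : ∀ i, c i ∈ Y ↔ (Nat.unpair i).1 ∈ x) : inv c Y = x := by
  ext r
  simp only [inv, mem_ofPred_eq, h, Nat.unpair_pair]
  by_cases hr : r ∈ x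
  · simp [hr, infinite_univ]
  · simp [hr]

lemma sizes_near {H H' : SimpleGraph ℕ} (h : Near H H') : (sizes H \ sizes H').Finite := by
  obtain ⟨V, hV, h⟩ := h.ex
  refine (hV.image fun v => {w | H.Reachable v w}.ncard).subset ?_
  rintro s ⟨⟨v, rfl⟩, hs⟩
  by_contra hc
  apply hs
  refine ⟨v, ?_⟩
  congr 1
  ext b
  refine untouched h (fun a ha haV => hc ⟨a, haV, ?_⟩) b
  have : {w | H.Reachable a w} = {w | H.Reachable v w} :=
    Set.ext fun w => ⟨fun hw => ha.trans hw, fun hw => ha.symm.trans hw⟩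
  simp only [this]

lemma big_near {H H' : SimpleGraph ℕ} (h : (dif H H').Finite) : big H ⊆ big H' := by
  intro v hv hf
  apply hv
  refine (hf.union (h.image Prod.snd)).subset fun w hw => ?_
  by_cases h' : H'.Adj v w
  · exact Or.inl h'
  · exact Or.inr ⟨(v, w), ⟨hw, h'⟩, rfl⟩

lemma degs_near {H H' : SimpleGraph ℕ} (h : Near H H') : (degs H \ degs H').Finite := by
  have hb : big H = big H' := (big_near h.1).antisymm (big_near h.2)
  obtain ⟨V, hV, h⟩ := h.ex
  refine (hV.image fun v => {w | H.Adj v w ∧ w ∈ big H}.ncard).subset ?_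
  rintro s ⟨⟨v, hv, rfl⟩, hs⟩
  by_contra hc
  apply hs
  refine ⟨v, hb ▸ hv, ?_⟩
  congr 1
  ext b
  simp only [mem_ofPred_eq, hb, h v (fun hV => hc ⟨v, hV, rfl⟩)]

/-- The pair of invariants. -/
def Phi (H : SimpleGraph ℕ) : Set ℕ × Set ℕ :=
  (inv (fun i => 2 ^ (2 * i + 1)) (sizes H), inv (fun i => i + 2) (degs H))

lemma Phi_near {H H' : SimpleGraph ℕ} (h : Near H H') : Phi H = Phi H' := by
  have h1 : Function.Injective fun i : ℕ => 2 ^ (2 * i + 1) := fun i j hij => by
    have := Nat.pow_right_injective (le_refl 2) hij; omega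
  have h2 : Function.Injective fun i : ℕ => i + 2 := fun i j hij => by simpa using hij
  exact Prod.ext ((inv_sub h1 (sizes_near h)).antisymm (inv_sub h1 (sizes_near h.symm)))
    ((inv_sub h2 (degs_near h)).antisymm (inv_sub h2 (degs_near h.symm)))

lemma Phi_iso {H H' : SimpleGraph ℕ} (φ : H ≃g H') : Phi H = Phi H' := by
  have A : ∀ {H H' : SimpleGraph ℕ} (φ : H ≃g H'), sizes H ⊆ sizes H' := by
    rintro H H' φ s ⟨v, rfl⟩
    refine ⟨φ v, ?_⟩
    rw [← ncard_image_of_injective {w | H.Reachable v w} φ.injective]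
    congr 1
    ext w
    obtain ⟨w, rfl⟩ := φ.surjective w
    simp [Iso.reachable_iff]
  have B : ∀ {H H' : SimpleGraph ℕ} (φ : H ≃g H') (v : ℕ), φ v ∈ big H' ↔ v ∈ big H := by
    intro H H' φ v
    simp only [big, mem_ofPred_eq]
    rw [← infinite_image_iff (s := {w | H.Adj v w}) φ.injective.injOn]
    have : {w | H'.Adj (φ v) w} = φ '' {w | H.Adj v w} := by
      ext w
      obtain ⟨w, rfl⟩ := φ.surjective w
      simp [φ.map_adj_iff]
    rw [this]
  have C : ∀ {H H' : SimpleGraph ℕ} (φ : H ≃g H'), degs H ⊆ degs H' := by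
    rintro H H' φ s ⟨v, hv, rfl⟩
    refine ⟨φ v, (B φ v).2 hv, ?_⟩
    rw [← ncard_image_of_injective {w | H.Adj v w ∧ w ∈ big H} φ.injective]
    congr 1
    ext w
    obtain ⟨w, rfl⟩ := φ.surjective w
    simp [φ.map_adj_iff, B φ]
  simp only [Phi, (A φ).antisymm (A φ.symm), (C φ).antisymm (C φ.symm)]

/-- A splitting of the vertices into one infinite class and one finite class for each level. -/
def Valid (lev : ℕ → Option ℕ) : Prop := {v | lev v = none}.Infinite ∧
  ∀ i, {v | lev v = some i}.ncard = 2 ^ (2 * i) ∨ {v | lev v = some i}.ncard = 2 ^ (2 * i + 1)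

def S0 (H : SimpleGraph ℕ) : Prop := ∃ lev, Valid lev ∧ ∀ a b, lev a = lev b → H.Reachable a b

def Large (H : SimpleGraph ℕ) : Prop := ∃ K, S0 K ∧ (dif K H).Finite ∧ (dif H K).Infinite

def prop (Z : Set (Set ℕ × Set ℕ)) : Set (SimpleGraph ℕ) := {H | Large H ∨ (S0 H ∧ Phi H ∈ Z)}

lemma S0.mono {H H' : SimpleGraph ℕ} (h : S0 H) (hle : H ≤ H') : S0 H' :=
  let ⟨lev, h1, h2⟩ := h
  ⟨lev, h1, fun a b hab => (h2 a b hab).mono hle⟩

lemma Large.near {H H' : SimpleGraph ℕ} (h : Large H) (hn : (dif H H').Finite) : Large H' := by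
  obtain ⟨K, h1, h2, h3⟩ := h
  refine ⟨K, h1, (h2.union hn).subset fun p hp => ?_, fun hf => h3 ((hf.union hn).subset fun p hp => ?_)⟩
  · by_cases h' : H.Adj p.1 p.2
    · exact Or.inr ⟨h', hp.2⟩
    · exact Or.inl ⟨hp.1, h'⟩
  · by_cases h' : H'.Adj p.1 p.2
    · exact Or.inl ⟨h', hp.2⟩
    · exact Or.inr ⟨hp.1, h'⟩

lemma dif_le {H H' : SimpleGraph ℕ} (hle : H ≤ H') : (dif H H').Finite :=
  finite_empty.subset fun p hp => hp.2 (hle hp.1)

lemma prop_mono (Z : Set (Set ℕ × Set ℕ)) {H H' : SimpleGraph ℕ} (h : H ∈ prop Z) (hle : H ≤ H') :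
    H' ∈ prop Z := by
  rcases h with h | ⟨h1, h2⟩
  · exact Or.inl (h.near (dif_le hle))
  · by_cases hf : (dif H' H).Finite
    · exact Or.inr ⟨h1.mono hle, Phi_near ⟨dif_le hle, hf⟩ ▸ h2⟩
    · exact Or.inl ⟨H, h1, dif_le hle, hf⟩

lemma S0.iso {H H' : SimpleGraph ℕ} (h : S0 H) (φ : H ≃g H') : S0 H' := by
  obtain ⟨lev, ⟨h1, h2⟩, h3⟩ := h
  have e : ∀ o, {v | lev (φ.symm v) = o} = φ '' {v | lev v = o} := fun o => by
    ext w
    obtain ⟨w, rfl⟩ := φ.surjective w
    simp
  refine ⟨fun v => lev (φ.symm v), ⟨?_, fun i => ?_⟩, fun a b hab => ?_⟩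
  · rw [e]; exact h1.image φ.injective.injOn
  · rw [e, ncard_image_of_injective _ φ.injective]; exact h2 i
  · exact (Iso.reachable_iff (φ := φ.symm)).1 (h3 _ _ hab)

lemma prop_iso (Z : Set (Set ℕ × Set ℕ)) {H H' : SimpleGraph ℕ} (φ : H ≃g H') (h : H ∈ prop Z) :
    H' ∈ prop Z := by
  rcases h with ⟨K, h1, h2, h3⟩ | ⟨h1, h2⟩
  · let e : ℕ ≃ ℕ := φ.symm.toEquiv
    have hb := (e.prodCongr e).bijective
    refine Or.inl ⟨K.comap e, h1.iso (Iso.comap e K).symm, ?_, ?_⟩
    · refine (h2.preimage hb.1.injOn).subset fun p hp => ⟨hp.1, fun h => hp.2 ?_⟩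
      exact φ.symm.map_adj_iff.1 h
    · refine fun hf => h3 (Finite.of_preimage (f := e.prodCongr e)
        (hf.subset fun p hp => ⟨?_, hp.2⟩) hb.2)
      exact φ.symm.map_adj_iff.1 hp.1
  · exact Or.inr ⟨h1.iso φ, Phi_iso φ ▸ h2⟩

lemma Valid.fin {lev : ℕ → Option ℕ} (h : Valid lev) (i : ℕ) : {v | lev v = some i}.Finite := by
  apply finite_of_ncard_ne_zero
  rcases h.2 i with h | h <;> rw [h] <;> positivity

lemma Valid.eq {lev lev' : ℕ → Option ℕ} (h : Valid lev) (h' : Valid lev') (i : ℕ)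
    (hs : ∀ v w, lev v = some i → lev' w = lev' v → lev w = some i) :
    {v | lev' v = some i} = {v | lev v = some i} := by
  have U : ∀ n, (⋃ j ∈ Finset.range n, {v | lev' v = some j}).ncard < 2 ^ (2 * n) := by
    intro n
    induction n with
    | zero => simp
    | succ n ih =>
      rw [Finset.range_add_one, Finset.set_biUnion_insert]
      refine (ncard_union_le _ _).trans_lt ?_
      have := h'.2 n
      rw [show 2 * (n + 1) = 2 * n + 1 + 1 by ring]
      simp only [pow_succ] at *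
      omega
  have Uf : (⋃ j ∈ Finset.range i, {v | lev' v = some j}).Finite :=
    (Finset.range i).finite_toSet.biUnion fun j _ => h'.fin j
  have sub : {v | lev v = some i} ⊆ {v | lev' v = some i} ∪ ⋃ j ∈ Finset.range i, {v | lev' v = some j} := by
    intro v hv
    rcases hl : lev' v with _ | j
    · exact absurd ((h.fin i).subset fun w hw => hs v w hv (hw.trans hl.symm)) h'.1
    · have := ncard_le_ncard (fun w (hw : lev' w = some j) => hs v w hv (hw.trans hl.symm)) (h.fin i)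
      have h3 : 2 ^ (2 * j) ≤ 2 ^ (2 * i + 1) := by
        have a1 := h.2 i
        have a2 := h'.2 j
        change {v | lev' v = some j}.ncard ≤ {v | lev v = some i}.ncard at this
        simp only [pow_succ] at *
        omega
      have h4 := (Nat.pow_le_pow_iff_right (by norm_num)).1 h3
      rcases (by omega : j = i ∨ j < i) with rfl | h5
      · exact Or.inl hl
      · exact Or.inr (mem_iUnion₂.2 ⟨j, Finset.mem_range.2 h5, hl⟩)
  have a1 := h.2 i
  have a2 := h'.2 i
  have a3 := U i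
  have sub' : {v | lev' v = some i} ⊆ {v | lev v = some i} := by
    by_contra hc
    have : {v | lev v = some i} ⊆ ⋃ j ∈ Finset.range i, {v | lev' v = some j} := fun v hv =>
      (sub hv).resolve_left fun h1 => hc fun w hw => hs v w hv (hw.trans h1.symm)
    have := ncard_le_ncard this Uf
    simp only [pow_succ] at *
    omega
  refine eq_of_subset_of_ncard_le sub' ?_ (h.fin i)
  have b1 := (ncard_le_ncard sub ((h'.fin i).union Uf)).trans (ncard_union_le _ _)
  have b2 := ncard_le_ncard sub' (h.fin i)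
  simp only [pow_succ] at *
  omega

lemma exists_valid (b : ℕ → Prop) (N : ℕ) : ∃ lev, Valid lev ∧ (∀ v ≤ N, lev v = none) ∧
    ∀ i, {v | lev v = some i}.ncard = 2 ^ (2 * i + 1) ↔ b i := by
  classical
  let a : ℕ → ℕ := fun i => if b i then 2 ^ (2 * i + 1) else 2 ^ (2 * i)
  let lev : ℕ → Option ℕ := fun v =>
    if h : ∃ p : ℕ × ℕ, p.2 < a p.1 ∧ v = N + 1 + 2 * Nat.pair p.1 p.2 then some h.choose.1 else none
  have hF : ∀ i, {v | lev v = some i}.ncard = a i := by
    intro i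
    have : {v | lev v = some i} = (fun l => N + 1 + 2 * Nat.pair i l) '' Iio (a i) := by
      ext v
      simp only [lev, mem_ofPred_eq, mem_image, mem_Iio]
      constructor
      · intro hv
        split_ifs at hv with h
        obtain ⟨h1, h2⟩ := h.choose_spec
        rw [Option.some.inj hv] at h1 h2
        exact ⟨_, h1, h2.symm⟩
      · rintro ⟨l, hl, rfl⟩
        have h : ∃ p : ℕ × ℕ, p.2 < a p.1 ∧ N + 1 + 2 * Nat.pair i l = N + 1 + 2 * Nat.pair p.1 p.2 :=
          ⟨(i, l), hl, rfl⟩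
        rw [dif_pos h]
        have := h.choose_spec.2
        exact congrArg some
          (Nat.pair_eq_pair.1 (by omega : Nat.pair i l = Nat.pair h.choose.1 h.choose.2)).1.symm
    rw [this, ncard_image_of_injective _ fun l l' h => (Nat.pair_eq_pair.1 (by
      omega : Nat.pair i l = Nat.pair i l')).2]
    simp
  refine ⟨lev, ⟨?_, fun i => ?_⟩, fun v hv => dif_neg fun ⟨p, _, h⟩ => by omega, fun i => ?_⟩
  · refine infinite_of_injective_forall_mem (f := fun k => N + 2 + 2 * k) (fun k k' h => by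
      simp only at h; omega) fun k => dif_neg fun ⟨p, _, h⟩ => by omega
  · rw [hF]; simp only [a]; split_ifs <;> simp
  · rw [hF]; simp only [a]; split_ifs with h <;> simp [h]

end Pool.Agent.Lib.helper19.Elus
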