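import Pool.Agent.Lib.helper19.Elus1

/-! Edge-query games: the side of Hider. -/

namespace Pool.Agent.Lib.helper19.Elus
open SimpleGraph Set

def gt (r : ℕ → Mv) (t : ℕ) : SimpleGraph ℕ := fromEdgeSet {e | ∃ n < t, r n = (e, true)}

def gI (r : ℕ → Mv) : SimpleGraph ℕ := fromEdgeSet (green r)

def Good (r : ℕ → Mv) (t : ℕ) : Prop :=
  ∀ a b, a ≠ b → (gt r t).Reachable a b → ∃ n < t, (r n).1 = s(a, b)

lemma gt_mono (r : ℕ → Mv) {s t : ℕ} (h : s ≤ t) : gt r s ≤ gt r t :=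
  fromEdgeSet_mono fun e ⟨n, h1, h2⟩ => ⟨n, h1.trans_le h, h2⟩

lemma gt_le (r : ℕ → Mv) (t : ℕ) : gt r t ≤ gI r := fromEdgeSet_mono fun e ⟨n, _, h2⟩ => ⟨n, h2⟩

lemma gt_congr {r r' : ℕ → Mv} {t : ℕ} (h : ∀ m < t, r m = r' m) : gt r t = gt r' t := by
  unfold gt; congr 1; ext e
  exact exists_congr fun n => and_congr_right fun hn => by rw [h n hn]

lemma reach_gt {r : ℕ → Mv} {a b : ℕ} (h : (gI r).Reachable a b) : ∃ t, (gt r t).Reachable a b := by
  refine reach_ind (fun b => ∃ t, (gt r t).Reachable a b) ⟨0, Reachable.refl _⟩ ?_ h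
  rintro c d - ⟨t, ht⟩ hcd
  obtain ⟨⟨n, hn⟩, hne⟩ := (fromEdgeSet_adj _).1 hcd
  exact ⟨max t (n + 1), (ht.mono (gt_mono r (le_max_left _ _))).trans
    (Adj.reachable ((fromEdgeSet_adj _).2 ⟨⟨n, by omega, hn⟩, hne⟩))⟩

lemma gI_poss {r : ℕ → Mv} (h : LegalRun r) : gI r ∈ poss r := by
  refine ⟨fun e he => ?_, fun e he => Or.inl ?_⟩
  · rw [gI, edgeSet_fromEdgeSet]
    obtain ⟨n, hn⟩ := he
    exact ⟨⟨n, hn⟩, by simpa [hn] using h.1 n⟩
  · rw [gI, edgeSet_fromEdgeSet] at he; exact he.1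

lemma root_lemma (Γ : SimpleGraph ℕ) (ρ : ℕ → ℕ)
    (U : ∀ a b a' b', Γ.Adj a b → Γ.Adj a' b' → ρ a < ρ b → ρ a' < ρ b' → ρ b = ρ b' → ρ a = ρ a') :
    ∃ root : ℕ → ℕ, (∀ k, root k ≤ k) ∧ (∀ a b, Γ.Reachable a b → root (ρ a) = root (ρ b)) ∧
      ∀ k, (¬ ∃ a b, Γ.Adj a b ∧ ρ a < ρ b ∧ ρ b = k) → root k = k := by
  classical
  let par : ℕ → ℕ := fun k =>
    if h : ∃ a, ∃ b, Γ.Adj a b ∧ ρ a < ρ b ∧ ρ b = k then ρ h.choose else k
  have hp : ∀ a b, Γ.Adj a b → ρ a < ρ b → par (ρ b) = ρ a := by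
    intro a b hab hlt
    have h : ∃ a', ∃ b', Γ.Adj a' b' ∧ ρ a' < ρ b' ∧ ρ b' = ρ b := ⟨a, b, hab, hlt, rfl⟩
    obtain ⟨b', h1, h2, h3⟩ := h.choose_spec
    simp only [par, dif_pos h]
    exact U _ _ _ _ h1 hab h2 hlt h3
  let root : ℕ → ℕ := fun k => Nat.strongRecOn k fun k ih => if h : par k < k then ih _ h else k
  have hr : ∀ k, root k = if par k < k then root (par k) else k := fun k => by
    simp only [root]; rw [Nat.strongRecOn_eq]; rfl
  have he : ∀ a b, Γ.Adj a b → ρ a < ρ b → root (ρ a) = root (ρ b) := fun a b hab hlt => by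
    rw [hr (ρ b), hp a b hab hlt, if_pos hlt]
  refine ⟨root, fun k => ?_, fun a b hab => ?_, fun k hk => ?_⟩
  · induction k using Nat.strong_induction_on with
    | _ k ih =>
      rw [hr]; split_ifs with h
      · exact (ih _ h).trans h.le
      · exact le_rfl
  · refine reach_ind (fun b => root (ρ a) = root (ρ b)) rfl (fun c d _ h hcd => h.trans ?_) hab
    rcases lt_trichotomy (ρ c) (ρ d) with h1 | h1 | h1
    · exact he _ _ hcd h1
    · rw [h1]
    · exact (he _ _ hcd.symm h1).symm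
  · rw [hr, if_neg]; simp only [par, dif_neg hk]; exact lt_irrefl _

lemma not_large {G : SimpleGraph ℕ} {lev : ℕ → Option ℕ} (hv : Valid lev) (ρ : ℕ → ℕ) (w : ℕ)
    (P2 : ∀ a b, G.Adj a b → lev a = lev b)
    (early : ∀ a b, G.Adj a b → ρ a = ρ b → a < w)
    (UU : ∀ a b a' b', G.Adj a b → G.Adj a' b' → ρ a < ρ b → ρ a' < ρ b' → ρ b = ρ b' →
      a = a' ∧ b = b') : ¬ Large G := by
  rintro ⟨K, ⟨lev', hv', hK⟩, h1, h2⟩
  apply h2
  obtain ⟨V, hV, hVa⟩ : ∃ V : Set ℕ, V.Finite ∧ ∀ a ∉ V, ∀ b, (K ⊓ G).Adj a b ↔ K.Adj a b :=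
    Near.ex ⟨dif_le inf_le_left, h1.subset fun p hp => ⟨hp.1, fun h => hp.2 ⟨hp.1, h⟩⟩⟩
  obtain ⟨root, r1, r2, r3⟩ := root_lemma (K ⊓ G) ρ fun a b a' b' h h' l l' e => by
    rw [(UU a b a' b' h.2 h'.2 l l' e).1]
  let D : Set (ℕ × ℕ) := {p | p ∈ dif G K ∧ ρ p.1 < ρ p.2}
  have hinj : InjOn (fun p : ℕ × ℕ => ρ p.2) D := fun p hp q hq e =>
    Prod.ext (UU _ _ _ _ hp.1.1 hq.1.1 hp.2 hq.2 e).1 (UU _ _ _ _ hp.1.1 hq.1.1 hp.2 hq.2 e).2
  have hroot : ∀ p ∈ D, root (ρ p.2) = ρ p.2 := fun p hp => r3 _ fun ⟨a, b, h, l, e⟩ => by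
    obtain ⟨rfl, rfl⟩ := UU _ _ _ _ h.2 hp.1.1 l hp.2 e
    exact hp.1.2 h.1
  let R : Set ℕ := (fun v => root (ρ v)) '' V
  have hR : ∀ p ∈ D, ρ p.2 ∉ R → ∀ c, K.Reachable p.2 c → root (ρ c) = ρ p.2 := by
    intro p hp hn c hc
    rw [← hroot p hp]
    refine (r2 _ _ ((untouched hVa (fun a ha haV => hn ⟨a, haV, ?_⟩) c).1 hc)).symm
    exact (r2 _ _ ha).symm.trans (hroot p hp)
  have hD : D.Finite := by
    have d1 : {p ∈ D | ρ p.2 ∈ R}.Finite :=
      Finite.of_finite_image ((hV.image _).subset (by rintro _ ⟨p, hp, rfl⟩; exact hp.2))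
        (hinj.mono fun p hp => hp.1)
    have d2 : {p ∈ D | ρ p.2 ∉ R}.Finite := by
      refine Finite.of_finite_image (f := fun p => lev' p.2)
        (((hV.image lev).insert none).subset ?_) fun p hp q hq e => ?_
      · rintro _ ⟨p, hp, rfl⟩
        by_contra hc
        rcases hl : lev' p.2 with _ | i
        · exact hc (Or.inl hl)
        have hcl : ∀ v c, lev v = some i → K.Reachable v c → lev c = some i := fun v c h0 hc' =>
          reach_ind (fun c => lev c = some i) h0 (fun a b _ ha hab => by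
            have : a ∉ V := fun haV => hc (Or.inr ⟨a, haV, ha.trans hl.symm⟩)
            exact (P2 a b ((hVa a this b).2 hab).2).symm.trans ha) hc'
        have e := hv.eq hv' i fun v c h0 h => hcl v c h0 (hK _ _ h.symm)
        have e1 : lev p.2 = some i := (Set.ext_iff.1 e p.2).1 hl
        have e2 : lev' p.1 = some i := (Set.ext_iff.1 e p.1).2 ((P2 _ _ hp.1.1.1).trans e1)
        have := hR p hp.1 hp.2 p.1 (hK _ _ (hl.trans e2.symm))
        have := r1 (ρ p.1)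
        have := hp.1.2
        omega
      · refine hinj hp.1 hq.1 ?_
        have := hR p hp.1 hp.2 q.2 (hK _ _ e)
        exact this.symm.trans (hroot q hq.1)
    refine (d1.union d2).subset fun p hp => ?_
    by_cases h : ρ p.2 ∈ R
    · exact Or.inl ⟨hp, h⟩
    · exact Or.inr ⟨hp, h⟩
  refine ((((finite_Iio w).prod (finite_Iio w)).union hD).union (hD.image Prod.swap)).subset
    fun p hp => ?_
  rcases lt_trichotomy (ρ p.1) (ρ p.2) with h | h | h
  · exact Or.inl (Or.inr ⟨hp, h⟩)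
  · exact Or.inl (Or.inl ⟨early _ _ hp.1 h, early _ _ hp.1.symm h.symm⟩)
  · exact Or.inr ⟨p.swap, ⟨⟨hp.1.symm, fun h => hp.2 h.symm⟩, h⟩, rfl⟩

lemma not_S0 {G : SimpleGraph ℕ} {lev : ℕ → Option ℕ} (hv : Valid lev)
    (P2 : ∀ a b, G.Adj a b → lev a = lev b) {u v : ℕ} (hu : lev u = none) (hv' : lev v = none)
    (h : ¬ G.Reachable u v) : ¬ S0 G := by
  rintro ⟨lev', hv2, hK⟩
  have e := fun i => hv.eq hv2 i fun a c h0 h => reach_ind (fun c => lev c = some i) h0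
    (fun a b _ ha hab => (P2 a b hab).symm.trans ha) (hK _ _ h.symm)
  have : ∀ z, lev z = none → lev' z = none := fun z hz => by
    rcases hl : lev' z with _ | i
    · rfl
    · have : lev z = some i := (Set.ext_iff.1 (e i) z).1 hl
      simp [hz] at this
  exact h (hK _ _ ((this u hu).trans (this v hv').symm))

lemma phi_one {K : SimpleGraph ℕ} {lev : ℕ → Option ℕ} (hv : Valid lev) {x : Set ℕ}
    (hx : ∀ i, {v | lev v = some i}.ncard = 2 ^ (2 * i + 1) ↔ (Nat.unpair i).1 ∈ x)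
    (h : ∀ a b, K.Reachable a b ↔ lev a = lev b) : (Phi K).1 = x := by
  refine inv_eq (c := fun i => 2 ^ (2 * i + 1)) (Y := sizes K) fun i => ?_
  rw [← hx]
  have e : ∀ v, {w | K.Reachable v w} = {w | lev w = lev v} := fun v => by
    ext w; simp [h, eq_comm]
  constructor
  · rintro ⟨v, hs⟩
    rw [e] at hs
    rcases hl : lev v with _ | j
    · rw [hl, hv.1.ncard] at hs; exact absurd hs (by positivity)
    · rw [hl] at hs
      have : j = i := by
        rcases hv.2 j with h1 | h1 <;>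
        · have := Nat.pow_right_injective (le_refl 2) (h1.symm.trans hs); omega
      exact this ▸ hs
  · intro hs
    obtain ⟨v, hv0⟩ := nonempty_of_ncard_ne_zero (s := {v | lev v = some i}) (by rw [hs]; positivity)
    exact ⟨v, by rw [e, show lev v = some i from hv0, hs]⟩

lemma plan (σ : List Mv → Sym2 ℕ) (hσ : ∀ r : ℕ → Mv, (∀ n, (r n).1 = σ (hist r n)) → LegalRun r)
    (r0 : ℕ → Mv) (h0 : ∀ n, (r0 n).1 = σ (hist r0 n)) (t : ℕ) (hg : Good r0 t) (u v : ℕ)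
    (x : Set ℕ) : ∃ r : ℕ → Mv, (∀ n < t, r n = r0 n) ∧ (∀ n, (r n).1 = σ (hist r n)) ∧
      (∀ t', t ≤ t' → Good r t') ∧ ¬ Large (gI r) ∧ (¬ (gI r).Reachable u v → ¬ S0 (gI r)) ∧
      ∃ K ∈ poss r, S0 K ∧ (Phi K).1 = x := by
  classical
  obtain ⟨w, hwu, hwv, hw⟩ : ∃ w, u ≤ w ∧ v ≤ w ∧ ∀ n < t, ∀ a ∈ (r0 n).1, a < w := by
    have : (⋃ n ∈ Iio t, {a | a ∈ (r0 n).1}).Finite :=
      (finite_Iio t).biUnion fun n _ => by
        induction (r0 n).1 using Sym2.ind with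
        | _ a b => exact (toFinite {a, b}).subset fun c hc => by simpa using hc
    obtain ⟨M, hM⟩ := this.bddAbove
    exact ⟨M + 1 + u + v, by omega, by omega, fun n hn a ha =>
      by have := hM (mem_iUnion₂.2 ⟨n, hn, ha⟩); omega⟩
  obtain ⟨lev, hv, hN, hx⟩ := exists_valid (fun i => (Nat.unpair i).1 ∈ x) w
  have g0 : ∀ a b, (gt r0 t).Adj a b → a < w := fun a b h => by
    obtain ⟨⟨n, hn, e⟩, -⟩ := (fromEdgeSet_adj _).1 h
    exact hw n hn a (by simp [e])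
  have g1 : ∀ a b, (gt r0 t).Reachable a b → a = b ∨ (a < w ∧ b < w) := fun a b h =>
    reach_ind (fun b => a = b ∨ (a < w ∧ b < w)) (Or.inl rfl) (fun c d _ hc hcd =>
      Or.inr ⟨by rcases hc with rfl | hc; exacts [g0 _ _ hcd, hc.1], g0 _ _ hcd.symm⟩) h
  let ρ : ℕ → ℕ := fun y => if y = w then 0 else sInf {z | (gt r0 t).Reachable y z} + 1
  have hm : ∀ y, (gt r0 t).Reachable y (sInf {z | (gt r0 t).Reachable y z}) := fun y =>
    Nat.sInf_mem (s := {z | (gt r0 t).Reachable y z}) ⟨y, Reachable.refl _⟩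
  have ρ1 : ∀ y z, ρ y = ρ z ↔ (gt r0 t).Reachable y z := by
    intro y z
    constructor
    · intro h
      simp only [ρ] at h
      split_ifs at h with h1 h2 h2
      · rw [h1, h2]
      · exact (hm y).trans (by rw [Nat.add_right_cancel h]; exact (hm z).symm)
    · intro h
      rcases g1 _ _ h with rfl | ⟨h1, h2⟩
      · rfl
      · simp only [ρ, if_neg h1.ne, if_neg h2.ne]
        congr 2
        exact Set.ext fun c => ⟨fun hc => h.symm.trans hc, fun hc => h.trans hc⟩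
  have ρ2 : ∀ y, y ≤ ρ y + w := fun y => by
    simp only [ρ]; split_ifs with h
    · omega
    · rcases g1 _ _ (hm y) with h | h <;> omega
  let Back : ℕ → Set (Sym2 ℕ) := fun k =>
    {e | ∃ y z, e = s(y, z) ∧ lev y = lev z ∧ ρ y < ρ z ∧ ρ z = k}
  have Bf : ∀ k, (Back k).Finite := fun k =>
    (((finite_Iic (k + w)).prod (finite_Iic (k + w))).image fun p => s(p.1, p.2)).subset (by
      rintro _ ⟨y, z, rfl, -, h1, h2⟩
      have := ρ2 y
      have := ρ2 z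
      exact ⟨(y, z), ⟨by simp; omega, by simp; omega⟩, rfl⟩)
  let τ : List Mv → Sym2 ℕ → Bool := fun h e =>
    decide (∃ k, e ∈ Back k ∧ ∀ e' ∈ Back k, e' ≠ e → ∃ m ∈ h, m.1 = e')
  obtain ⟨r, r1, r2⟩ := exists_run (fun h => (σ h, τ h (σ h))) r0 t
  have hc : ∀ n, (r n).1 = σ (hist r n) := fun n => by
    rcases lt_or_ge n t with h | h
    · rw [r1 n h, h0, hist_congr fun m hm => r1 m (hm.trans h)]
    · rw [r2 n h]
  have hl := hσ r hc
  have ans : ∀ n, t ≤ n → ((r n).2 = true ↔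
      ∃ k, (r n).1 ∈ Back k ∧ ∀ e' ∈ Back k, e' ≠ (r n).1 → ∃ m < n, (r m).1 = e') := fun n hn => by
    rw [hc n, r2 n hn]
    simp only [τ, decide_eq_true_eq, mem_hist]
    refine exists_congr fun k => and_congr_right fun _ => forall₃_congr fun e _ _ => ?_
    exact ⟨fun ⟨_, ⟨m, h1, h2⟩, h3⟩ => ⟨m, h1, h2 ▸ h3⟩, fun ⟨m, h1, h2⟩ => ⟨_, ⟨m, h1, rfl⟩, h2⟩⟩
  have G0 : gt r0 t ≤ gI r := (gt_congr r1).ge.trans (gt_le r t)
  have cases : ∀ a b, (gI r).Adj a b → (gt r0 t).Adj a b ∨ ∃ n, (r n).1 = s(a, b) ∧ ∃ k,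
      s(a, b) ∈ Back k ∧ ∀ e' ∈ Back k, e' ≠ s(a, b) → ∃ m < n, (r m).1 = e' := fun a b h => by
    obtain ⟨⟨n, hn⟩, hne⟩ := (fromEdgeSet_adj _).1 h
    rcases lt_or_ge n t with h' | h'
    · exact Or.inl ((fromEdgeSet_adj _).2 ⟨⟨n, h', r1 n h' ▸ hn⟩, hne⟩)
    · have := (ans n h').1 (by rw [hn])
      rw [hn] at this
      exact Or.inr ⟨n, by rw [hn], this⟩
  have P2 : ∀ a b, (gI r).Adj a b → lev a = lev b := fun a b h => by
    rcases cases a b h with h | ⟨n, -, k, ⟨y, z, e, h1, -⟩, -⟩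
    · rw [hN a (g0 _ _ h).le, hN b (g0 _ _ h.symm).le]
    · rcases Sym2.eq_iff.1 e with ⟨rfl, rfl⟩ | ⟨rfl, rfl⟩
      exacts [h1, h1.symm]
  have late : ∀ a b, (gI r).Adj a b → ρ a < ρ b → ∃ n, (r n).1 = s(a, b) ∧
      ∀ e' ∈ Back (ρ b), e' ≠ s(a, b) → ∃ m < n, (r m).1 = e' := fun a b h hlt => by
    rcases cases a b h with h | ⟨n, hn, k, ⟨y, z, e, h1, h2, h3⟩, h4⟩
    · exact absurd ((ρ1 _ _).2 h.reachable) hlt.ne
    · rcases Sym2.eq_iff.1 e with ⟨rfl, rfl⟩ | ⟨rfl, rfl⟩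
      · exact ⟨n, hn, h3 ▸ h4⟩
      · omega
  have UU : ∀ a b a' b', (gI r).Adj a b → (gI r).Adj a' b' → ρ a < ρ b → ρ a' < ρ b' →
      ρ b = ρ b' → a = a' ∧ b = b' := by
    intro a b a' b' h h' l l' e
    obtain ⟨n, hn, h1⟩ := late a b h l
    obtain ⟨n', hn', h1'⟩ := late a' b' h' l'
    have : s(a, b) = s(a', b') := by
      by_contra hne
      obtain ⟨m, m1, m2⟩ := h1 s(a', b') ⟨a', b', rfl, P2 _ _ h', l', e.symm⟩ (Ne.symm hne)
      obtain ⟨m', m1', m2'⟩ := h1' s(a, b) ⟨a, b, rfl, P2 _ _ h, l, e⟩ hne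
      have := hl.2 (m2.trans hn'.symm)
      have := hl.2 (m2'.trans hn.symm)
      omega
    rcases Sym2.eq_iff.1 this with h | ⟨rfl, rfl⟩
    · exact h
    · omega
  have P2r : ∀ a b, (gI r).Reachable a b → lev a = lev b := fun a b h =>
    reach_ind (fun b => lev a = lev b) rfl (fun c d _ hc hcd => hc.trans (P2 _ _ hcd)) h
  refine ⟨r, r1, hc, fun t' ht' => ?_, not_large hv ρ w P2 (fun a b h e => ?_) UU,
    not_S0 hv P2 (hN u hwu) (hN v hwv), ?_⟩
  · have key : ∀ a b, ρ a < ρ b → (gt r t').Reachable a b → ∃ n < t', (r n).1 = s(a, b) := by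
      intro a b hlt hab
      obtain ⟨root, o1, o2, o3⟩ := root_lemma (gt r t') ρ fun a b a' b' h h' l l' e => by
        rw [(UU a b a' b' (gt_le r t' h) (gt_le r t' h') l l' e).1]
      obtain ⟨a', b', h1, h2, h3⟩ : ∃ a' b', (gt r t').Adj a' b' ∧ ρ a' < ρ b' ∧ ρ b' = ρ b := by
        by_contra hn
        have := o3 _ hn
        have := o2 _ _ hab
        have := o1 (ρ a)
        omega
      obtain ⟨n, hn, h4⟩ := late a' b' (gt_le r t' h1) h2
      obtain ⟨⟨n', hn', e⟩, -⟩ := (fromEdgeSet_adj _).1 h1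
      obtain rfl : n = n' := hl.2 (by simp only [hn, e])
      by_cases he : s(a, b) = s(a', b')
      · exact ⟨n, hn', hn.trans he.symm⟩
      · obtain ⟨m, m1, m2⟩ := h4 s(a, b) ⟨a, b, rfl, P2r _ _ (hab.mono (gt_le r t')), hlt, h3.symm⟩ he
        exact ⟨m, m1.trans hn', m2⟩
    intro a b hne hab
    rcases lt_trichotomy (ρ a) (ρ b) with h | h | h
    · exact key a b h hab
    · obtain ⟨n, hn, e⟩ := hg a b hne ((ρ1 _ _).1 h)
      exact ⟨n, hn.trans_le ht', r1 n hn ▸ e⟩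
    · rw [Sym2.eq_swap]; exact key b a h hab.symm
  · rcases cases a b h with h | ⟨n, -, k, ⟨y, z, e', h1, h2, -⟩, -⟩
    · exact g0 _ _ h
    · rcases Sym2.eq_iff.1 e' with ⟨rfl, rfl⟩ | ⟨rfl, rfl⟩ <;> omega
  let K : SimpleGraph ℕ := gI r ⊔ fromEdgeSet {e | e ∈ white r ∧ ∀ a ∈ e, ∀ b ∈ e, lev a = lev b}
  have D : ∀ y z, lev y = lev z → ρ y < ρ z → ∃ y', lev y' = lev z ∧ ρ y' < ρ z ∧ K.Reachable y' z := by
    intro y z hyz hlt
    suffices ∃ e ∈ Back (ρ z), e ∈ K.edgeSet by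
      obtain ⟨_, ⟨y', z', rfl, h1, h2, h3⟩, h4⟩ := this
      have h5 := ((ρ1 _ _).1 h3).mono G0
      exact ⟨y', h1.trans (P2r _ _ h5), h3 ▸ h2, (Adj.reachable h4).trans (h5.mono le_sup_left)⟩
    by_cases hall : ∀ e ∈ Back (ρ z), ∃ n, (r n).1 = e
    · choose! T hT using hall
      obtain ⟨e0, he0, ht0⟩ : ∃ e0 ∈ Back (ρ z), t ≤ T e0 := by
        by_cases hz : lev z = none
        · have hw0 : ρ w = 0 := if_pos rfl
          refine ⟨s(w, z), ⟨w, z, rfl, (hN w le_rfl).trans hz.symm, by omega, rfl⟩, ?_⟩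
          by_contra hlt'
          have := hT _ ⟨w, z, rfl, (hN w le_rfl).trans hz.symm, by omega, rfl⟩
          rw [r1 _ (not_le.1 hlt')] at this
          exact lt_irrefl _ (hw _ (not_le.1 hlt') w (by simp [this]))
        · refine ⟨s(y, z), ⟨y, z, rfl, hyz, hlt, rfl⟩, ?_⟩
          by_contra hlt'
          have := hT _ ⟨y, z, rfl, hyz, hlt, rfl⟩
          rw [r1 _ (not_le.1 hlt')] at this
          exact hz (hN z (hw _ (not_le.1 hlt') z (by simp [this])).le)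
      obtain ⟨e, he, hmax⟩ := exists_max_image _ T (Bf (ρ z)) ⟨e0, he0⟩
      refine ⟨e, he, edgeSet_mono le_sup_left ((gI_poss hl).1 ⟨T e, Prod.ext (hT e he) ?_⟩)⟩
      refine (ans _ (ht0.trans (hmax _ he0))).2 ⟨ρ z, by rw [hT e he]; exact he, fun e' he' hne => ?_⟩
      refine ⟨T e', lt_of_le_of_ne (hmax _ he') fun h => hne ?_, hT e' he'⟩
      rw [← h, hT e' he']
    · push Not at hall
      obtain ⟨e, he, hn⟩ := hall
      refine ⟨e, he, edgeSet_mono le_sup_right ?_⟩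
      obtain ⟨y', z', rfl, h1, h2, -⟩ := he
      have hne : y' ≠ z' := fun h => by rw [h] at h2; omega
      refine (fromEdgeSet_adj _).2 ⟨⟨⟨by simpa using hne, hn⟩, fun a ha b hb => ?_⟩, hne⟩
      rcases Sym2.mem_iff.1 ha with rfl | rfl <;> rcases Sym2.mem_iff.1 hb with rfl | rfl <;>
        simp [h1]
  have same : ∀ y z, ρ y = ρ z → K.Reachable y z := fun y z h =>
    ((ρ1 _ _).1 h).mono (G0.trans le_sup_left)
  have C : ∀ k z, ρ z = k → ∀ y, lev y = lev z → ρ y < ρ z → K.Reachable y z := by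
    intro k
    induction k using Nat.strong_induction_on with
    | _ k ih =>
      rintro z rfl y hyz hlt
      obtain ⟨y', h1, h2, h3⟩ := D y z hyz hlt
      refine Reachable.trans ?_ h3
      rcases lt_trichotomy (ρ y) (ρ y') with h | h | h
      · exact ih _ h2 y' rfl y (hyz.trans h1.symm) h
      · exact same _ _ h
      · exact (ih _ hlt y rfl y' (h1.trans hyz.symm) h).symm
  have C' : ∀ y z, lev y = lev z → K.Reachable y z := fun y z h => by
    rcases lt_trichotomy (ρ y) (ρ z) with h' | h' | h'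
    · exact C _ z rfl y h h'
    · exact same _ _ h'
    · exact (C _ y rfl z h.symm h').symm
  refine ⟨K, ⟨fun e he => edgeSet_mono le_sup_left ((gI_poss hl).1 he), fun e he => ?_⟩,
    ⟨lev, hv, C'⟩, phi_one hv hx fun a b => ⟨fun h => ?_, C' a b⟩⟩
  · rw [edgeSet_sup, edgeSet_fromEdgeSet] at he
    rcases he with he | he
    · exact (gI_poss hl).2 he
    · exact Or.inr he.1.1
  · refine reach_ind (fun b => lev a = lev b) rfl (fun c d _ hc hcd => hc.trans ?_) h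
    rcases hcd with hcd | hcd
    · exact P2 _ _ hcd
    · exact ((fromEdgeSet_adj _).1 hcd).1.2 c (by simp) d (by simp)

lemma hider (σ : List Mv → Sym2 ℕ)
    (hσ : ∀ r : ℕ → Mv, (∀ n, (r n).1 = σ (hist r n)) → LegalRun r ∧ (white r).Nonempty)
    (x : Set ℕ) : ∃ r : ℕ → Mv, (∀ n, (r n).1 = σ (hist r n)) ∧ ¬ Large (gI r) ∧ ¬ S0 (gI r) ∧
      ∃ K ∈ poss r, S0 K ∧ (Phi K).1 = x := by
  by_contra hcon
  let St := {p : (ℕ → Mv) × ℕ // (∀ n, (p.1 n).1 = σ (hist p.1 n)) ∧ Good p.1 p.2}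
  have step : ∀ (p : St) (e : Sym2 ℕ), ∃ q : St, p.1.2 < q.1.2 ∧ (∀ n < p.1.2, q.1.1 n = p.1.1 n) ∧
      (¬ e.IsDiag → ∃ n < q.1.2, (q.1.1 n).1 = e) := by
    rintro ⟨⟨r0, t⟩, h0, hg⟩ e
    induction e using Sym2.ind with
    | _ u v =>
    obtain ⟨r, r1, r2, r3, r4, r5, r6⟩ := plan σ (fun r h => (hσ r h).1) r0 h0 t hg u v x
    have hr : (gI r).Reachable u v := by_contra fun h => hcon ⟨r, r2, r4, r5 h, r6⟩
    obtain ⟨s, hs⟩ := reach_gt hr
    refine ⟨⟨(r, max s (t + 1)), r2, r3 _ (by omega)⟩, by simp, r1, fun he => ?_⟩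
    exact r3 (max s (t + 1)) (by omega) u v (by simpa using he) (hs.mono (gt_mono r (le_max_left _ _)))
  choose f f1 f2 f3 using step
  obtain ⟨e, he⟩ := exists_surjective_nat (Sym2 ℕ)
  obtain ⟨r0, -, h0⟩ := exists_run (fun h => (σ h, false)) (fun _ => (s(0, 0), false)) 0
  have g0 : Good r0 0 := fun a b hne h => absurd (reach_ind (fun b => a = b) rfl
    (fun c d _ _ hcd => by obtain ⟨⟨n, hn, -⟩, -⟩ := (fromEdgeSet_adj _).1 hcd; omega) h) hne
  let s : ℕ → St := fun k => Nat.rec ⟨(r0, 0), fun n => congrArg Prod.fst (h0 n (Nat.zero_le _)), g0⟩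
    (fun k p => f p (e k)) k
  have s1 : ∀ k, k ≤ (s k).1.2 := fun k => by
    induction k with
    | zero => exact Nat.zero_le _
    | succ k ih => exact ih.trans_lt (f1 (s k) (e k))
  have s2 : ∀ k j, k ≤ j → (s k).1.2 ≤ (s j).1.2 ∧ ∀ n < (s k).1.2, (s j).1.1 n = (s k).1.1 n := by
    intro k j hkj
    induction j, hkj using Nat.le_induction with
    | base => exact ⟨le_rfl, fun _ _ => rfl⟩
    | succ j _ ih => exact ⟨ih.1.trans (f1 (s j) (e j)).le, fun n hn =>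
        (f2 (s j) (e j) n (hn.trans_le ih.1)).trans (ih.2 n hn)⟩
  let r : ℕ → Mv := fun n => (s (n + 1)).1.1 n
  have s3 : ∀ k, ∀ n < (s k).1.2, r n = (s k).1.1 n := fun k n hn =>
    ((s2 (n + 1) (max k (n + 1)) (le_max_right _ _)).2 n (s1 (n + 1))).symm.trans
      ((s2 k _ (le_max_left _ _)).2 n hn)
  obtain ⟨-, g, hg1, hg2⟩ := hσ r fun n => by
    rw [hist_congr fun m (hm : m < n) => s3 (n + 1) m (hm.trans (s1 (n + 1)))]
    exact (s (n + 1)).2.1 n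
  obtain ⟨k, rfl⟩ := he g
  obtain ⟨n, hn, h⟩ := f3 (s k) (e k) hg1
  exact hg2 n (by rw [s3 (k + 1) n hn]; exact h)

end Pool.Agent.Lib.helper19.Elus
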