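import Mathlib

set_option autoImplicit false

namespace Pool.Agent.Lib.helper19.Precol

open Cardinal Set Matrix

open Classical in
lemma free_col {X R C : Type} (g : R → X → X) (hg : ∀ r x, g r (g r x) = x) (W : Set X)
    (gen : ∀ l : List R, l ≠ [] → l.IsChain (· ≠ ·) → ∀ w ∈ W, l.foldr g w ∉ W)
    (σ : R → X → C) (c0 : C) : ∃ c : X → C, ∀ r x,
      (if g r x ∈ W then σ r (g r x) else c (g r x)) = if x ∈ W then σ r x else c x := by
  have uq : ∀ l' l : List R, l'.IsChain (· ≠ ·) → l.IsChain (· ≠ ·) → ∀ w ∈ W, ∀ w' ∈ W,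
      l.foldr g w = l'.foldr g w' → l = l' ∧ w = w' := by
    intro l'
    induction l' with
    | nil =>
      intro l _ hl w hw w' hw' h
      obtain rfl : l = [] := by_contra fun hn => gen l hn hl w hw (h ▸ hw')
      exact ⟨rfl, h⟩
    | cons s m ih =>
      intro l h' hl w hw w' hw' h
      have h2 : g s (l.foldr g w) = m.foldr g w' := by rw [h, List.foldr_cons, hg]
      by_cases hs : s ∈ l.head?
      · obtain _ | ⟨t, l⟩ := l
        · simp at hs
        · obtain rfl : t = s := by simpa using hs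
          rw [List.foldr_cons, hg] at h2
          obtain ⟨rfl, a⟩ := ih l h'.tail hl.tail w hw w' hw' h2
          exact ⟨rfl, a⟩
      · obtain ⟨rfl, -⟩ := ih (s :: l) h'.tail (List.isChain_cons.2 ⟨fun y hy e => hs (e ▸ hy), hl⟩)
          w hw w' hw' h2
        simp at h'
  let Rep : X → R × List R × X → Prop := fun x p =>
    (p.2.1 ++ [p.1]).IsChain (· ≠ ·) ∧ p.2.2 ∈ W ∧ (p.2.1 ++ [p.1]).foldr g p.2.2 = x
  let c : X → C := fun x => if h : ∃ p, Rep x p then σ h.choose.1 h.choose.2.2 else c0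
  have hc : ∀ x p, Rep x p → x ∉ W ∧ c x = σ p.1 p.2.2 := fun x p hp => by
    have h : ∃ p, Rep x p := ⟨p, hp⟩
    refine ⟨hp.2.2 ▸ gen _ (by simp) hp.1 _ hp.2.1, ?_⟩
    obtain ⟨a, b⟩ := uq _ _ hp.1 h.choose_spec.1 _ h.choose_spec.2.1 _ hp.2.1
      (h.choose_spec.2.2.trans hp.2.2.symm)
    simp only [c, dif_pos h, b, (List.append_inj' a rfl).2 |> List.singleton_injective]
  have step : ∀ r x, (x ∈ W ∨ ∃ p, Rep x p) →
      (if g r x ∈ W then σ r (g r x) else c (g r x)) = if x ∈ W then σ r x else c x := by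
    have base : ∀ r x, x ∈ W →
        (if g r x ∈ W then σ r (g r x) else c (g r x)) = if x ∈ W then σ r x else c x := by
      intro r x hx
      obtain ⟨a, b⟩ := hc (g r x) (r, [], x) ⟨by simp, hx, rfl⟩
      rw [if_neg a, if_pos hx, b]
    rintro r x (hx | ⟨⟨s, l, w⟩, hp⟩)
    · exact base r x hx
    by_cases h : g r x ∈ W
    · have := base r _ h
      rw [hg] at this
      exact this.symm
    obtain ⟨a, b⟩ := hc x _ hp
    obtain ⟨p1, p2, rfl⟩ := hp
    rw [if_neg a, if_neg h, b]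
    by_cases hs : r ∈ (l ++ [s]).head?
    · obtain _ | ⟨t, l⟩ := l
      · obtain rfl : s = r := by simpa using hs
        exact absurd (by simpa [hg] using p2) h
      · obtain rfl : t = r := by simpa using hs
        exact (hc _ (s, l, w) ⟨p1.tail, p2, by simp [hg]⟩).2
    · exact (hc _ (s, r :: l, w)
        ⟨List.isChain_cons.2 ⟨fun y hy e => hs (e ▸ hy), p1⟩, p2, rfl⟩).2
  refine ⟨c, fun r x => ?_⟩
  by_cases h : x ∈ W ∨ ∃ p, Rep x p
  · exact step r x h
  by_cases h' : g r x ∈ W ∨ ∃ p, Rep (g r x) p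
  · have := step r _ h'
    rw [hg] at this
    exact this.symm
  rw [not_or] at h h'
  simp only [if_neg h.1, if_neg h'.1, c, dif_neg h.2, dif_neg h'.2]

lemma pick {I X : Type} (f : I → X → X) (hf : ∀ i, Function.Injective (f i)) (M : I → Set X)
    {κ : Cardinal} (hκ : ℵ₀ ≤ κ) (hI : #I ≤ κ) (hM : ∀ i, (M i).Nonempty)
    (hE : {i | #(M i) < κ}.Subsingleton) :
    ∃ w : I → X, (∀ i, w i ∈ M i) ∧ ∀ i j, i ≠ j → w i ≠ w j ∧ w i ≠ f j (w j) := by
  classical
  obtain ⟨_, _, hord⟩ := exists_ord_eq_type_lt I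
  choose w0 hw0 using hM
  let P : ∀ i : I, (∀ j, j < i → X) → X → Prop := fun i r x => x ∈ M i ∧
    ∀ y, ((∃ j h, y = r j h ∨ y = f j (r j h)) ∨ ∃ j, #(M j) < κ ∧ (y = w0 j ∨ y = f j (w0 j))) →
      x ≠ y ∧ f i x ≠ y
  let w : I → X := wellFounded_lt.fix fun i r =>
    if #(M i) < κ then w0 i else @Classical.epsilon _ ⟨w0 i⟩ (P i r)
  have hw : ∀ i, w i = if #(M i) < κ then w0 i else
      @Classical.epsilon _ ⟨w0 i⟩ (P i fun j _ => w j) := fun i => WellFounded.fix_eq _ _ _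
  have good : ∀ i, ¬ #(M i) < κ → P i (fun j _ => w j) (w i) := by
    intro i hi
    rw [hw i, if_neg hi]
    apply Classical.epsilon_spec
    let B : Set X := (w '' Iio i ∪ (fun j => f j (w j)) '' Iio i) ∪
      (w0 '' {j | #(M j) < κ} ∪ (fun j => f j (w0 j)) '' {j | #(M j) < κ})
    have h1 := (mk_Iio_lt i hord).trans_le hI
    have h2 := hE.finite.lt_aleph0.trans_le hκ
    have hB : #B < κ := (mk_union_le _ _).trans_lt (add_lt_of_lt hκ
      ((mk_union_le _ _).trans_lt (add_lt_of_lt hκ (mk_image_le.trans_lt h1) (mk_image_le.trans_lt h1)))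
      ((mk_union_le _ _).trans_lt (add_lt_of_lt hκ (mk_image_le.trans_lt h2) (mk_image_le.trans_lt h2))))
    obtain ⟨x, x1, x2⟩ : ∃ x ∈ M i, x ∉ B ∪ f i ⁻¹' B := by
      by_contra h
      push Not at h
      exact hi ((mk_le_mk_of_subset h).trans_lt ((mk_union_le _ _).trans_lt
        (add_lt_of_lt hκ hB ((mk_preimage_of_injective _ _ (hf i)).trans_lt hB))))
    refine ⟨x, x1, fun y hy => ?_⟩
    have : y ∈ B := by
      rcases hy with ⟨j, h, rfl | rfl⟩ | ⟨j, h, rfl | rfl⟩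
      exacts [Or.inl (Or.inl ⟨j, h, rfl⟩), Or.inl (Or.inr ⟨j, h, rfl⟩),
        Or.inr (Or.inl ⟨j, h, rfl⟩), Or.inr (Or.inr ⟨j, h, rfl⟩)]
    exact ⟨fun e => x2 (Or.inl (e ▸ this)), fun e => x2 (Or.inr (show f i x ∈ B from e ▸ this))⟩
  have exc : ∀ i, #(M i) < κ → w i = w0 i := fun i hi => by rw [hw i, if_pos hi]
  refine ⟨w, fun i => ?_, fun i j hij => ?_⟩
  · by_cases hi : #(M i) < κ
    · exact exc i hi ▸ hw0 i
    · exact (good i hi).1
  by_cases hi : #(M i) < κ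
  · have := (good j fun hj => hij (hE hi hj)).2 (w i) (Or.inr ⟨i, hi, Or.inl (exc i hi)⟩)
    exact ⟨this.1.symm, this.2.symm⟩
  by_cases hj : #(M j) < κ
  · exact ⟨((good i hi).2 _ (Or.inr ⟨j, hj, Or.inl (exc j hj)⟩)).1,
      ((good i hi).2 _ (Or.inr ⟨j, hj, Or.inr (by rw [exc j hj])⟩)).1⟩
  rcases lt_or_gt_of_ne hij with h | h
  · have := (good j hj).2 (w i) (Or.inl ⟨i, h, Or.inl rfl⟩)
    exact ⟨this.1.symm, this.2.symm⟩
  · exact ⟨((good i hi).2 _ (Or.inl ⟨j, h, Or.inl rfl⟩)).1,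
      ((good i hi).2 _ (Or.inl ⟨j, h, Or.inr rfl⟩)).1⟩

section
variable {A B I : Type} [CommRing A] [CommRing B]

def act (v : I → Fin 3 → A) (l : List I) (x : Fin 3 → A) : Fin 3 → A :=
  l.foldr (fun r y => (2 * (v r ⬝ᵥ y)) • v r - (v r ⬝ᵥ v r) • y) x

def nrm (v : I → Fin 3 → A) (l : List I) : A := (l.map fun r => v r ⬝ᵥ v r).prod

lemma act_map (f : A →+* B) (v : I → Fin 3 → A) (l : List I) (x : Fin 3 → A) (i : Fin 3) :
    f (act v l x i) = act (fun r j => f (v r j)) l (fun j => f (x j)) i := by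
  induction l generalizing i with
  | nil => rfl
  | cons r l ih =>
    simp only [act, List.foldr_cons, dotProduct] at ih ⊢
    simp [ih, map_ofNat]

lemma nrm_map (f : A →+* B) (v : I → Fin 3 → A) (l : List I) :
    f (nrm v l) = nrm (fun r j => f (v r j)) l := by
  induction l with
  | nil => simp [nrm]
  | cons r l ih =>
    simp only [nrm, List.map_cons, List.prod_cons, dotProduct] at ih ⊢
    simp [ih]

end

noncomputable def iso (t : ℝ) : Fin 3 → ℂ := ![1 - t ^ 2, Complex.I * (1 + t ^ 2), 2 * t]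

lemma iso_dot (s t : ℝ) : iso s ⬝ᵥ iso t = -2 * (s - t) ^ 2 := by
  simp only [iso, dotProduct, Fin.sum_univ_three]
  simp
  linear_combination (1 + s ^ 2) * (1 + t ^ 2) * Complex.I_sq

lemma act_iso {I : Type} (τ : I → ℝ) (hτ : Function.Injective τ) (x : Fin 3 → ℂ)
    (hx : ∀ r, iso (τ r) ⬝ᵥ x ≠ 0) (l : List I) : ∀ r, (r :: l).IsChain (· ≠ ·) →
      ∃ c : ℂ, c ≠ 0 ∧ act (fun r => iso (τ r)) (r :: l) x = c • iso (τ r) := by
  induction l with
  | nil => exact fun r _ => ⟨_, mul_ne_zero two_ne_zero (hx r), by simp [act, iso_dot]⟩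
  | cons s l ih =>
    intro r h
    obtain ⟨c, h1, h2⟩ := ih s h.tail
    have : (τ r : ℂ) - τ s ≠ 0 := sub_ne_zero.2 (by exact_mod_cast hτ.ne (List.isChain_cons_cons.1 h).1)
    refine ⟨2 * (c * (-2 * (τ r - τ s) ^ 2)), by simp [h1, this], ?_⟩
    unfold act at h2 ⊢
    rw [List.foldr_cons, h2]
    simp [iso_dot]

lemma exists_tau (x : Fin 3 → ℝ) (hx : x ≠ 0) : ∃ τ : ℝ → ℝ, Function.Injective τ ∧
    ∀ r, iso (τ r) ⬝ᵥ (fun j => (x j : ℂ)) ≠ 0 := by
  obtain ⟨t, ht⟩ : ∃ t, iso t ⬝ᵥ (fun j => (x j : ℂ)) ≠ 0 := by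
    by_contra h
    push Not at h
    have a := h 0
    have b := h 1
    simp [iso, dotProduct, Fin.sum_univ_three, Complex.ext_iff] at a b
    exact hx (funext fun i => by fin_cases i <;> simp [a.1, a.2, b.1])
  have : Continuous fun t => iso t ⬝ᵥ (fun j => (x j : ℂ)) := by
    simp only [iso, dotProduct, Fin.sum_univ_three]
    simp
    fun_prop
  obtain ⟨a, b, ⟨h1, h2⟩, h⟩ := mem_nhds_iff_exists_Ioo_subset.1
    (this.continuousAt.eventually_ne ht)
  obtain ⟨e⟩ : Nonempty (ℝ ≃ Ioo a b) := Cardinal.eq.1 (by rw [mk_Ioo_real (h1.trans h2), mk_real])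
  exact ⟨fun r => e r, Subtype.val_injective.comp e.injective, fun r => h (e r).2⟩

noncomputable def half (v : Fin 3 → ℝ) : Matrix (Fin 3) (Fin 3) ℝ :=
  (2 / (v ⬝ᵥ v)) • vecMulVec v v - 1

lemma half_mem {v : Fin 3 → ℝ} (hv : v ⬝ᵥ v ≠ 0) :
    half v ∈ specialOrthogonalGroup (Fin 3) ℝ ∧ half v * half v = 1 := by
  have hc : 2 / (v ⬝ᵥ v) * (v ⬝ᵥ v) = 2 := div_mul_cancel₀ _ hv
  have ht : (half v)ᵀ = half v := by simp [half, transpose_vecMulVec]
  unfold half at *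
  generalize 2 / (v ⬝ᵥ v) = c at *
  simp only [dotProduct, Fin.sum_univ_three] at hc
  have h : (c • vecMulVec v v - 1) * (c • vecMulVec v v - 1) = 1 := by
    ext i j
    fin_cases i <;> fin_cases j <;>
      simp [Matrix.mul_apply, Fin.sum_univ_three, vecMulVec_apply] <;>
      first
        | linear_combination (c * v 0 * v 0) * hc
        | linear_combination (c * v 0 * v 1) * hc
        | linear_combination (c * v 0 * v 2) * hc
        | linear_combination (c * v 1 * v 1) * hc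
        | linear_combination (c * v 1 * v 2) * hc
        | linear_combination (c * v 2 * v 2) * hc
  refine ⟨mem_specialOrthogonalGroup_iff.2 ⟨(mem_orthogonalGroup_iff _ _).2 (ht.symm ▸ h), ?_⟩, h⟩
  simp [det_fin_three, vecMulVec_apply]
  linear_combination hc

lemma act_half {I : Type} (v : I → Fin 3 → ℝ) (hv : ∀ r, v r ⬝ᵥ v r ≠ 0) (l : List I)
    (x : Fin 3 → ℝ) : act v l x = nrm v l • l.foldr (fun r y => half (v r) *ᵥ y) x := by
  induction l with
  | nil => simp [act, nrm]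
  | cons r l ih =>
    unfold act nrm at ih ⊢
    rw [List.foldr_cons, ih]
    have := hv r
    simp only [List.map_cons, List.prod_cons, List.foldr_cons, half, sub_mulVec, smul_mulVec,
      vecMulVec_mulVec, one_mulVec, dotProduct_smul, smul_sub, smul_smul, op_smul_eq_smul,
      smul_eq_mul]
    congr 2
    field_simp

theorem generic (Y : Set ℝ) (hY : #Y < 𝔠) : ∃ v : ℝ → Fin 3 → ℝ, (∀ r, v r ⬝ᵥ v r ≠ 0) ∧
    ∀ l : List ℝ, l ≠ [] → l.IsChain (· ≠ ·) → ∀ x y : Fin 3 → ℝ, x ≠ 0 →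
      (∀ i, x i ∈ Y) → (∀ i, y i ∈ Y) → l.foldr (fun r y => half (v r) *ᵥ y) x ≠ y := by
  let K := Subfield.closure Y
  have hK : #K < 𝔠 := (Subfield.cardinalMk_closure_le_max Y).trans_lt (max_lt hY aleph0_lt_continuum)
  obtain ⟨s, hs⟩ := exists_isTranscendenceBasis K ℝ
  have hne : Nonempty s := by
    by_contra h
    rw [not_nonempty_iff] at h
    have := hs.isEmpty_iff_isAlgebraic.1 h
    have := Algebra.IsAlgebraic.cardinalMk_le_max K ℝ
    rw [mk_real] at this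
    exact (max_lt hK aleph0_lt_continuum).not_ge this
  have h := hs.lift_cardinalMk_eq_max_lift
  simp only [lift_id, mk_real] at h
  obtain ⟨e⟩ : #(ℝ × Fin 3) ≤ #s := by
    by_contra hlt
    have : #s < 𝔠 := by simpa [mk_real] using hlt
    exact (max_lt (max_lt hK this) aleph0_lt_continuum).ne' h
  have ht := hs.1.comp e e.injective
  set t := Subtype.val ∘ e
  have hv : ∀ r, (fun j => t (r, j)) ⬝ᵥ (fun j => t (r, j)) ≠ 0 := fun r h =>
    ht.ne_zero (r, 0) (congrFun (dotProduct_self_eq_zero.1 h) 0)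
  refine ⟨fun r j => t (r, j), hv, fun l hl hc x y hx x1 y1 hxy => ?_⟩
  obtain ⟨τ, τ1, τ2⟩ := exists_tau x hx
  obtain _ | ⟨r, l⟩ := l
  · exact hl rfl
  obtain ⟨c, c1, c2⟩ := act_iso τ τ1 _ τ2 l r hc
  let X : ℝ → Fin 3 → MvPolynomial (ℝ × Fin 3) K := fun r j => .X (r, j)
  let x' : Fin 3 → MvPolynomial (ℝ × Fin 3) K := fun j => .C ⟨x j, Subfield.subset_closure (x1 j)⟩
  let y' : Fin 3 → MvPolynomial (ℝ × Fin 3) K := fun j => .C ⟨y j, Subfield.subset_closure (y1 j)⟩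
  let ψ := MvPolynomial.eval₂Hom (Complex.ofRealHom.comp K.subtype) fun p : ℝ × Fin 3 => iso (τ p.1) p.2
  have e1 : ∀ i, act X (r :: l) x' i = nrm X (r :: l) * y' i := fun i => ht (by
    have a := act_map (MvPolynomial.aeval t : _ →ₐ[K] ℝ).toRingHom X (r :: l) x' i
    have b := nrm_map (MvPolynomial.aeval t : _ →ₐ[K] ℝ).toRingHom X (r :: l)
    have d := congrFun (act_half _ hv (r :: l) x) i
    rw [hxy] at d
    simp only [mul_zero, sub_zero, AlgHom.toRingHom_eq_coe, RingHom.coe_coe, X, x',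
      MvPolynomial.aeval_X, MvPolynomial.aeval_C] at a b
    rw [map_mul, a, b]
    simp only [y', MvPolynomial.aeval_C]
    exact d)
  have e2 : ∀ i, c * iso (τ r) i = 0 := fun i => by
    have a := act_map ψ X (r :: l) x' i
    rw [e1, map_mul, nrm_map] at a
    simp only [ψ, X, x', MvPolynomial.eval₂Hom_X', MvPolynomial.eval₂Hom_C] at a
    have b : nrm (fun r j => iso (τ r) j) (r :: l) = 0 := by simp [nrm, iso_dot]
    rw [b, zero_mul] at a
    exact (congrFun c2 i).symm.trans a.symm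
  refine τ2 r ?_
  rw [show iso (τ r) = 0 from funext fun i => (mul_eq_zero.1 (e2 i)).resolve_left c1, zero_dotProduct]

lemma det3 {A B : Matrix (Fin 3) (Fin 3) ℝ} (hA : A ∈ orthogonalGroup (Fin 3) ℝ)
    (hB : B ∈ orthogonalGroup (Fin 3) ℝ) {a b : Fin 3 → ℝ} (h : a ⨯₃ b ≠ 0) (h1 : A *ᵥ a = B *ᵥ a)
    (h2 : A *ᵥ b = B *ᵥ b) (h3 : A.det = B.det) : A = B := by
  have key : ∀ A ∈ orthogonalGroup (Fin 3) ℝ, (A *ᵥ a) ⨯₃ (A *ᵥ b) = A.det • A *ᵥ (a ⨯₃ b) := by
    intro A hA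
    have e : Aᵀ *ᵥ ((A *ᵥ a) ⨯₃ (A *ᵥ b)) = A.det • (a ⨯₃ b) := by
      ext i
      fin_cases i <;>
        simp [cross_apply, mulVec, dotProduct, Fin.sum_univ_three, det_fin_three] <;> ring
    rw [← mulVec_smul, ← e, mulVec_mulVec, (mem_orthogonalGroup_iff _ _).1 hA, one_mulVec]
  have h0 : B.det ≠ 0 := (UnitaryGroup.det_isUnit ⟨B, hB⟩).ne_zero
  have h4 : A *ᵥ (a ⨯₃ b) = B *ᵥ (a ⨯₃ b) := smul_right_injective _ h0 (by
    simp only; rw [← key B hB, ← h1, ← h2, key A hA, h3])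
  have hd : (Matrix.of ![a ⨯₃ b, a, b])ᵀ.det ≠ 0 := by
    rw [det_transpose]
    exact (triple_product_eq_det _ a b).symm.trans_ne (dotProduct_self_eq_zero.not.2 h)
  refine (isUnit_iff_isUnit_det _ |>.2 hd.isUnit).mul_right_cancel ?_
  ext i j
  fin_cases j
  exacts [congrFun h4 i, congrFun h1 i, congrFun h2 i]

lemma two {T : Set {x : Fin 3 → ℝ // x ⬝ᵥ x = 1}} (hT : T.Infinite) :
    ∃ a ∈ T, ∃ b ∈ T, a.1 ⨯₃ b.1 ≠ 0 := by
  obtain ⟨a, ha⟩ := hT.nonempty
  obtain ⟨b, hb, h⟩ := hT.exists_notMem_finite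
    ((toFinite {a.1, -a.1}).preimage Subtype.val_injective.injOn)
  refine ⟨a, ha, b, hb, fun h0 => h ?_⟩
  have := cross_dot_cross a.1 b.1 a.1 b.1
  rw [h0, a.2, b.2, dotProduct_comm b.1 a.1, zero_dotProduct] at this
  have h2 : (a.1 ⬝ᵥ b.1 - 1) * (a.1 ⬝ᵥ b.1 + 1) = 0 := by linarith
  rcases mul_eq_zero.1 h2 with h3 | h3
  · refine Or.inl (sub_eq_zero.1 (dotProduct_self_eq_zero.1 ?_))
    simp only [sub_dotProduct, dotProduct_sub, a.2, b.2, dotProduct_comm b.1 a.1]; linarith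
  · refine Or.inr (eq_neg_of_add_eq_zero_left (dotProduct_self_eq_zero.1 ?_))
    simp only [add_dotProduct, dotProduct_add, a.2, b.2, dotProduct_comm b.1 a.1]; linarith

end Pool.Agent.Lib.helper19.Precol
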