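import Pool.Agent.Lib.helper19.Elus2
import Pool.Agent.Lib.helper19.Precol

/-! Edge-query games: the side of Seeker, and the diagonal argument. -/

namespace Pool.Agent.Lib.helper19.Elus
open SimpleGraph Set

lemma tree (Y : Set ℕ) : ∃ (π : ℕ → ℕ) (J : Set ℕ), (∀ j ≠ 0, π j < j) ∧ (∀ j, π j ∈ J) ∧
    (∀ i ∈ J, {j | j ≠ 0 ∧ π j = i}.Infinite) ∧ ∀ k, (∃ i ∈ J,
      {i' | i' ∈ J ∧ ((i' ≠ 0 ∧ π i' = i) ∨ (i ≠ 0 ∧ π i = i'))}.ncard = k + 2) ↔ k ∈ Y := by
  classical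
  let J : Set ℕ := {i | i = 0 ∨ (∃ k, i = Nat.pair 0 k + 1) ∨
    ∃ k ∈ Y, ∃ l ≤ k, i = Nat.pair (Nat.pair 0 k + 1) l + 1}
  let π : ℕ → ℕ := fun j => if (Nat.unpair (j - 1)).1 ∈ J then (Nat.unpair (j - 1)).1 else 0
  have hπ : ∀ a ∈ J, ∀ b, π (Nat.pair a b + 1) = a := fun a ha b => by
    simp only [π, Nat.add_sub_cancel, Nat.unpair_pair, if_pos ha]
  have J0 : 0 ∈ J := Or.inl rfl
  have J1 : ∀ k, Nat.pair 0 k + 1 ∈ J := fun k => Or.inr (Or.inl ⟨k, rfl⟩)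
  have inj : ∀ a, Function.Injective fun k => Nat.pair a k + 1 := fun a k l h =>
    (Nat.pair_eq_pair.1 (Nat.add_right_cancel h)).2
  have T1 : ∀ k, {i' | i' ∈ J ∧ ((i' ≠ 0 ∧ π i' = Nat.pair 0 k + 1) ∨ (Nat.pair 0 k + 1 ≠ 0 ∧
      π (Nat.pair 0 k + 1) = i'))}.ncard = if k ∈ Y then k + 2 else 1 := by
    intro k
    have : {i' | i' ∈ J ∧ ((i' ≠ 0 ∧ π i' = Nat.pair 0 k + 1) ∨ (Nat.pair 0 k + 1 ≠ 0 ∧
        π (Nat.pair 0 k + 1) = i'))} = insert 0 ((fun l => Nat.pair (Nat.pair 0 k + 1) l + 1) ''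
          {l | k ∈ Y ∧ l ≤ k}) := by
      ext i
      simp only [mem_ofPred_eq, hπ 0 J0, mem_insert_iff, mem_image]
      constructor
      · rintro ⟨h1, ⟨h2, h3⟩ | ⟨-, h3⟩⟩
        · rcases h1 with h1 | ⟨k', rfl⟩ | ⟨k', hk', l, hl, rfl⟩
          · exact Or.inl h1
          · rw [hπ 0 J0] at h3; omega
          · rw [hπ _ (J1 _)] at h3
            obtain rfl : k' = k := inj 0 h3
            exact Or.inr ⟨l, ⟨hk', hl⟩, rfl⟩
        · exact Or.inl h3.symm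
      · rintro (rfl | ⟨l, ⟨h1, h2⟩, rfl⟩)
        · exact ⟨J0, Or.inr ⟨by omega, rfl⟩⟩
        · exact ⟨Or.inr (Or.inr ⟨k, h1, l, h2, rfl⟩), Or.inl ⟨by omega, hπ _ (J1 _) _⟩⟩
    rw [this, ncard_insert_of_notMem (by simp) (((finite_Iic k).subset fun l hl => hl.2).image _),
      ncard_image_of_injective _ (inj _)]
    split_ifs with h
    · simp only [h, true_and]
      rw [show {l | l ≤ k} = Iic k from rfl]; simp
    · simp [h]
  refine ⟨π, J, fun j hj => ?_, fun j => ?_, fun i hi => ?_, fun k => ⟨?_, fun hk => ?_⟩⟩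
  · have := Nat.unpair_left_le (j - 1)
    simp only [π]; split_ifs <;> omega
  · simp only [π]; split_ifs with h; exacts [h, J0]
  · exact infinite_of_injective_forall_mem (inj i) fun k => ⟨by simp, hπ i hi k⟩
  · rintro ⟨i, rfl | ⟨k', rfl⟩ | ⟨k', hk', l, hl, rfl⟩, h⟩
    · rw [Infinite.ncard (infinite_of_injective_forall_mem (inj 0) fun k => by
        exact ⟨J1 k, Or.inl ⟨by simp, hπ 0 J0 k⟩⟩)] at h
      omega
    · rw [T1] at h
      split_ifs at h with h'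
      · obtain rfl : k' = k := by omega
        exact h'
      · omega
    · have : {i' | i' ∈ J ∧ ((i' ≠ 0 ∧ π i' = Nat.pair (Nat.pair 0 k' + 1) l + 1) ∨
          (Nat.pair (Nat.pair 0 k' + 1) l + 1 ≠ 0 ∧ π (Nat.pair (Nat.pair 0 k' + 1) l + 1) = i'))} ⊆
          {Nat.pair 0 k' + 1} := by
        rintro i ⟨h1, ⟨h2, h3⟩ | ⟨-, h3⟩⟩
        · rcases h1 with h1 | ⟨k', rfl⟩ | ⟨k', hk', l, hl, rfl⟩
          · exact absurd h1 h2
          · rw [hπ 0 J0] at h3; omega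
          · rw [hπ _ (J1 _)] at h3
            have := (Nat.pair_eq_pair.1 (Nat.add_right_cancel h3)).1
            omega
        · rw [hπ _ (J1 _)] at h3; exact h3.symm
      have := ncard_le_ncard this
      rw [h, ncard_singleton] at this
      omega
  · exact ⟨_, J1 k, by rw [T1, if_pos hk]⟩

def res (H : SimpleGraph ℕ) (n : ℕ) : SimpleGraph ℕ where
  Adj a b := H.Adj a b ∧ a < n ∧ b < n
  symm := ⟨fun _ _ h => ⟨h.1.symm, h.2.2, h.2.1⟩⟩
  loopless := ⟨fun _ h => H.irrefl h.1⟩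

lemma res_mono (H : SimpleGraph ℕ) {m n : ℕ} (h : m ≤ n) : res H m ≤ res H n :=
  fun _ _ h' => ⟨h'.1, h'.2.1.trans_le h, h'.2.2.trans_le h⟩

lemma res_le (H : SimpleGraph ℕ) (n : ℕ) : res H n ≤ H := fun _ _ h => h.1

lemma reach_res {H : SimpleGraph ℕ} {a b : ℕ} (h : H.Reachable a b) :
    ∃ n, (res H n).Reachable a b := by
  refine reach_ind (fun b => ∃ t, (res H t).Reachable a b) ⟨0, Reachable.refl _⟩ ?_ h
  rintro c d - ⟨t, ht⟩ hcd
  exact ⟨t + c + d + 1, (ht.mono (res_mono H (by omega))).trans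
    (Adj.reachable ⟨hcd, by omega, by omega⟩)⟩

lemma res_lt {H : SimpleGraph ℕ} {a b n : ℕ} (ha : a < n) (h : (res H n).Reachable a b) : b < n :=
  reach_ind (H := res H n) (fun b => b < n) ha (fun _ _ _ _ h => h.2.2) h

lemma first_visit {H : SimpleGraph ℕ} {a b n : ℕ} (ha : a < n) (h : (res H (n + 1)).Reachable a b) :
    (res H n).Reachable a b ∨ ∃ c < n, (res H n).Reachable a c ∧ H.Adj c n := by
  refine reach_ind (fun b => (res H n).Reachable a b ∨ ∃ c < n, (res H n).Reachable a c ∧ H.Adj c n)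
    (Or.inl (Reachable.refl _)) ?_ h
  rintro c d - (hc | hc) hcd
  · have := res_lt ha hc
    rcases (by have := hcd.2.2; omega : d < n ∨ d = n) with h' | rfl
    · exact Or.inl (hc.trans (Adj.reachable ⟨hcd.1, this, h'⟩))
    · exact Or.inr ⟨c, this, hc, hcd.1⟩
  · exact Or.inr hc

noncomputable def mn (H : SimpleGraph ℕ) (c : ℕ) : ℕ := sInf {z | H.Reachable c z}

lemma mn_reach (H : SimpleGraph ℕ) (c : ℕ) : H.Reachable c (mn H c) :=
  Nat.sInf_mem (s := {z | H.Reachable c z}) ⟨c, Reachable.refl _⟩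

lemma mn_le {H : SimpleGraph ℕ} {c z : ℕ} (h : H.Reachable c z) : mn H c ≤ z := Nat.sInf_le h

lemma mn_eq {H : SimpleGraph ℕ} {c d : ℕ} (h : H.Reachable c d) : mn H c = mn H d :=
  le_antisymm (mn_le (h.trans (mn_reach H d))) (mn_le (h.symm.trans (mn_reach H c)))

def sk (H : SimpleGraph ℕ) (m k : ℕ) : Prop := m ≤ k ∧ (res H (k + 1)).Reachable m k

open Classical in
def IsPort (π : ℕ → ℕ) (H : SimpleGraph ℕ) (n c : ℕ) : Prop :=
  sk H (mn (res H n) c) c ∧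
    Nat.count (sk H (mn (res H n) c)) c = π (Nat.count (sk H (mn (res H n) c)) n)

lemma port_congr {π : ℕ → ℕ} {H H' : SimpleGraph ℕ} {n c : ℕ} (h : res H n = res H' n) (hc : c < n) :
    IsPort π H n c ↔ IsPort π H' n c := by
  classical
  have h1 : ∀ m, ∀ k < n, sk H m k ↔ sk H' m k := fun m k hk => by
    have : res H (k + 1) = res H' (k + 1) := by
      ext a b
      have := congrArg (fun G : SimpleGraph ℕ => G.Adj a b) h
      simp only [res, eq_iff_iff] at this ⊢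
      constructor
      · intro h'; exact ⟨(this.1 ⟨h'.1, by omega, by omega⟩).1, h'.2⟩
      · intro h'; exact ⟨(this.2 ⟨h'.1, by omega, by omega⟩).1, h'.2⟩
    simp only [sk, this]
  have h2 : ∀ m, ∀ k ≤ n, Nat.count (sk H m) k = Nat.count (sk H' m) k := fun m k hk => by
    rw [Nat.count_eq_card_filter_range, Nat.count_eq_card_filter_range]
    congr 1
    exact Finset.filter_congr fun j hj => h1 m j ((Finset.mem_range.1 hj).trans_le hk)
  simp only [IsPort, h, h1 _ c hc]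
  rw [h2 _ c hc.le, h2 _ n le_rfl]

lemma exists_port {π : ℕ → ℕ} (hπ : ∀ j ≠ 0, π j < j) (H : SimpleGraph ℕ) {n c : ℕ} (hc : c < n) :
    ∃ p < n, (res H n).Reachable c p ∧ IsPort π H n p := by
  classical
  set m := mn (res H n) c with hm
  have h0 : Nat.count (sk H m) n ≠ 0 := fun h => by
    have := Nat.count_iff_forall_not.1 h m ((mn_le (Reachable.refl c)).trans_lt hc)
    exact this ⟨le_rfl, Reachable.refl _⟩
  have h1 := hπ _ h0
  have h2 := Nat.nth_lt_of_lt_count h1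
  have h3 : ∀ hf : {k | sk H m k}.Finite, π (Nat.count (sk H m) n) < hf.toFinset.card :=
    fun hf => h1.trans_le (Nat.count_le_card hf n)
  have h4 := Nat.nth_mem _ h3
  have h5 : (res H n).Reachable c (Nat.nth (sk H m) (π (Nat.count (sk H m) n))) :=
    (mn_reach _ c).trans (h4.2.mono (res_mono H h2))
  refine ⟨_, h2, h5, ?_⟩
  simp only [IsPort, ← mn_eq h5, ← hm]
  exact ⟨h4, by convert Nat.count_nth h3⟩

lemma degs_port {H : SimpleGraph ℕ} {π : ℕ → ℕ} {J : Set ℕ} (hJ : ∀ j, π j ∈ J)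
    (hI : ∀ i ∈ J, {j | j ≠ 0 ∧ π j = i}.Infinite)
    (PR : ∀ c n, c < n → H.Adj c n → IsPort π H n c) {v0 : ℕ} (h0 : {w | H.Reachable v0 w}.Infinite)
    (d : ℕ) : d ∈ degs H ↔
      ∃ i ∈ J, {i' | i' ∈ J ∧ ((i' ≠ 0 ∧ π i' = i) ∨ (i ≠ 0 ∧ π i = i'))}.ncard = d := by
  classical
  have A : ∀ v c n, c < n → H.Adj c n → (res H n).Reachable (mn H v) c → sk H (mn H v) c ∧
      Nat.count (sk H (mn H v)) c = π (Nat.count (sk H (mn H v)) n) := fun v c n hc h hr => by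
    have : mn (res H n) c = mn H v := le_antisymm (mn_le hr.symm)
      (mn_le (((mn_reach H v).trans (hr.mono (res_le H n))).trans ((mn_reach _ c).mono (res_le H n))))
    have h1 := PR c n hc h
    simp only [IsPort, this] at h1
    convert h1
  have B : ∀ v, {w | H.Reachable v w}.Infinite → {k | sk H (mn H v) k}.Infinite := by
    intro v hv hf
    obtain ⟨N, hN⟩ := hf.bddAbove
    have hm : mn H v ≤ N := hN ⟨le_rfl, Reachable.refl _⟩
    have : ∀ n, N + 1 ≤ n → ∀ b, (res H n).Reachable (mn H v) b → b < N + 1 := by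
      intro n hn
      induction n, hn using Nat.le_induction with
      | base => exact fun b hb => res_lt (by omega) hb
      | succ n hn ih =>
        intro b hb
        rcases first_visit (by omega) hb with h | ⟨c, h1, h2, h3⟩
        · exact ih b h
        · have := hN (show sk H (mn H v) n from ⟨by omega, (h2.mono (res_mono H n.le_succ)).trans
            (Adj.reachable ⟨h3, by omega, by omega⟩)⟩)
          omega
    refine hv ((finite_Iio (N + 1)).subset fun w hw => ?_)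
    obtain ⟨n, hn⟩ := reach_res ((mn_reach H v).symm.trans hw)
    exact this (n + N + 1) (by omega) w (hn.mono (res_mono H (by omega)))
  have C : ∀ v, ∀ w ∈ big H, H.Reachable v w → sk H (mn H v) w ∧ Nat.count (sk H (mn H v)) w ∈ J := by
    intro v w hw h
    obtain ⟨n0, hn0⟩ := reach_res ((mn_reach H v).symm.trans h)
    obtain ⟨n, h1, h2⟩ := Infinite.exists_gt hw (n0 + w)
    obtain ⟨h3, h4⟩ := A v w n (by omega) h1 (hn0.mono (res_mono H (by omega)))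
    exact ⟨h3, h4 ▸ hJ _⟩
  have Z : ∀ v, Nat.count (sk H (mn H v)) (mn H v) = 0 := fun v =>
    Nat.count_iff_forall_not.2 fun k hk h => absurd h.1 (not_le.2 hk)
  have D : ∀ v, {k | sk H (mn H v) k}.Infinite → ∀ j ≠ 0,
      H.Adj (Nat.nth (sk H (mn H v)) (π j)) (Nat.nth (sk H (mn H v)) j) := by
    intro v hv j hj
    have h1 := Nat.nth_mem_of_infinite hv j
    have h2 := Nat.count_nth_of_infinite hv j
    have h3 : mn H v < Nat.nth (sk H (mn H v)) j := lt_of_le_of_ne h1.1 fun h => by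
      rw [← h, Z] at h2; exact hj h2.symm
    rcases first_visit h3 h1.2 with h | ⟨c, c1, c2, c3⟩
    · exact absurd (res_lt h3 h) (lt_irrefl _)
    · obtain ⟨h4, h5⟩ := A v c _ c1 c3 c2
      rw [h2] at h5
      rw [← h5, Nat.nth_count h4]
      exact c3
  have E : ∀ v, {k | sk H (mn H v) k}.Infinite → ∀ i ∈ J, Nat.nth (sk H (mn H v)) i ∈ big H :=
    fun v hv i hi => ((hI i hi).image (Nat.nth_injective hv).injOn).mono (by
      rintro _ ⟨j, ⟨h1, rfl⟩, rfl⟩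
      exact D v hv j h1)
  have P : ∀ v a b, sk H (mn H v) a → a < b → H.Adj a b → Nat.count (sk H (mn H v)) b ≠ 0 ∧
      π (Nat.count (sk H (mn H v)) b) = Nat.count (sk H (mn H v)) a := fun v a b ha hab h =>
    ⟨fun h0 => Nat.count_iff_forall_not.1 h0 a hab ha,
      (A v a b hab h (ha.2.mono (res_mono H hab))).2.symm⟩
  have F : ∀ v, {k | sk H (mn H v) k}.Infinite → ∀ i ∈ J,
      {w | H.Adj (Nat.nth (sk H (mn H v)) i) w ∧ w ∈ big H}.ncard =
        {i' | i' ∈ J ∧ ((i' ≠ 0 ∧ π i' = i) ∨ (i ≠ 0 ∧ π i = i'))}.ncard := by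
    intro v hv i hi
    rw [← ncard_image_of_injective {i' | i' ∈ J ∧ _} (Nat.nth_injective hv)]
    congr 1
    ext w
    have h1 := Nat.nth_mem_of_infinite hv i
    have h2 := Nat.count_nth_of_infinite hv i
    constructor
    · rintro ⟨h, hw⟩
      obtain ⟨h3, h4⟩ := C v w hw (((mn_reach H v).trans (h1.2.mono (res_le H _))).trans h.reachable)
      refine ⟨_, ⟨h4, ?_⟩, Nat.nth_count h3⟩
      rcases lt_or_gt_of_ne h.ne with hl | hl
      · exact Or.inl (h2 ▸ P v _ _ h1 hl h)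
      · exact Or.inr (h2 ▸ P v _ _ h3 hl h.symm)
    · rintro ⟨j, ⟨hj, ⟨h3, rfl⟩ | ⟨h3, rfl⟩⟩, rfl⟩
      · exact ⟨D v hv j h3, E v hv j hj⟩
      · exact ⟨(D v hv i h3).symm, E v hv _ hj⟩
  constructor
  · rintro ⟨v, hv, rfl⟩
    have hv' := B v (Infinite.mono (fun w (hw : H.Adj v w) => hw.reachable) hv)
    obtain ⟨h1, h2⟩ := C v v hv (Reachable.refl _)
    exact ⟨_, h2, by rw [← F v hv' _ h2, Nat.nth_count h1]⟩
  · rintro ⟨i, hi, rfl⟩
    exact ⟨_, E v0 (B v0 h0) i hi, F v0 (B v0 h0) i hi⟩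

def stage (e : Sym2 ℕ) : ℕ := Sym2.lift ⟨max, max_comm⟩ e

open Classical in
lemma askall (τ : List Mv → Sym2 ℕ → Bool) (g : Sym2 ℕ) (hg : ¬ g.IsDiag)
    (late : List Mv → Sym2 ℕ → Prop) (r0 : ℕ → Mv) (t : ℕ)
    (h1 : ∀ n < t, ¬ (r0 n).1.IsDiag ∧ (r0 n).1 ≠ g ∧ (r0 n).2 = τ (hist r0 n) (r0 n).1)
    (h2 : ∀ m < t, ∀ n < t, (r0 m).1 = (r0 n).1 → m = n) :
    ∃ r : ℕ → Mv, (∀ n < t, r n = r0 n) ∧ LegalRun r ∧ (∀ n, (r n).2 = τ (hist r n) (r n).1) ∧
      white r = {g} ∧ ∀ n, t ≤ n → ∀ e, ¬ e.IsDiag → e ≠ g → (∀ m < n, (r m).1 ≠ e) →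
        2 * stage (r n).1 + (if late (hist r n) (r n).1 then 1 else 0) ≤
          2 * stage e + (if late (hist r n) e then 1 else 0) := by
  let C : List Mv → Set (Sym2 ℕ) := fun h => {e | ¬ e.IsDiag ∧ e ≠ g ∧ ∀ m ∈ h, m.1 ≠ e}
  have hC : ∀ h, (C h).Nonempty := fun h => by
    have : {e : Sym2 ℕ | ¬ e.IsDiag}.Infinite :=
      infinite_of_injective_forall_mem (f := fun k => s(0, k + 1)) (fun k l h => by simpa using h)
        fun k => by simp
    obtain ⟨e, he, hn⟩ := this.exists_notMem_finite (((h.finite_toSet).image Prod.fst).insert g)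
    exact ⟨e, he, fun h' => hn (Or.inl h'), fun m hm h' => hn (Or.inr ⟨m, hm, h'⟩)⟩
  let σ : List Mv → Sym2 ℕ := fun h =>
    Function.argminOn (fun e => 2 * stage e + (if late h e then 1 else 0)) (C h) (hC h)
  obtain ⟨r, r1, r2⟩ := exists_run (fun h => (σ h, τ h (σ h))) r0 t
  have q1 : ∀ n, t ≤ n → (r n).1 ∈ C (hist r n) := fun n hn => by
    rw [r2 n hn]; exact Function.argminOn_mem _ _ (hC _)
  have q2 : ∀ n, t ≤ n → ∀ e, ¬ e.IsDiag → e ≠ g → (∀ m < n, (r m).1 ≠ e) →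
      2 * stage (r n).1 + (if late (hist r n) (r n).1 then 1 else 0) ≤
        2 * stage e + (if late (hist r n) e then 1 else 0) := fun n hn e e1 e2 e3 => by
    rw [show (r n).1 = σ (hist r n) by rw [r2 n hn]]
    refine Function.argminOn_le (fun e => 2 * stage e + (if late (hist r n) e then 1 else 0))
      (C (hist r n)) ⟨e1, e2, fun m hm => ?_⟩
    obtain ⟨k, hk, rfl⟩ := mem_hist.1 hm
    exact e3 k hk
  have lt : ∀ m n, m < n → (r m).1 ≠ (r n).1 := fun m n hmn => by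
    rcases lt_or_ge n t with h | h
    · rw [r1 n h, r1 m (hmn.trans h)]
      exact fun e => hmn.ne (h2 m (hmn.trans h) n h e)
    · exact (q1 n h).2.2 _ (mem_hist.2 ⟨m, hmn, rfl⟩)
  have inj : Function.Injective fun n => (r n).1 := fun m n e => by
    by_contra hne
    rcases lt_or_gt_of_ne hne with h | h
    exacts [lt m n h e, lt n m h e.symm]
  refine ⟨r, r1, ⟨fun n => ?_, inj⟩, fun n => ?_, ?_, q2⟩
  · rcases lt_or_ge n t with h | h
    · rw [r1 n h]; exact (h1 n h).1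
    · exact (q1 n h).1
  · rcases lt_or_ge n t with h | h
    · rw [r1 n h, hist_congr fun m hm => r1 m (hm.trans h)]; exact (h1 n h).2.2
    · rw [r2 n h]
  · refine eq_singleton_iff_unique_mem.2 ⟨⟨hg, fun n => ?_⟩, fun e he => ?_⟩
    · rcases lt_or_ge n t with h | h
      · rw [r1 n h]; exact (h1 n h).2.1
      · exact (q1 n h).2.1
    · by_contra hne
      refine (Ici_infinite t).image inj.injOn ((((finite_Iic (stage e)).prod
        (finite_Iic (stage e))).image fun p => s(p.1, p.2)).subset ?_)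
      rintro _ ⟨n, hn, rfl⟩
      have h3 : stage (r n).1 ≤ stage e := by
        have := q2 n hn e he.1 hne fun m _ => he.2 m
        split_ifs at this <;> omega
      revert h3
      simp only
      induction (r n).1 using Sym2.ind with
      | _ a b =>
        intro h3
        exact ⟨(a, b), ⟨(le_max_left a b).trans h3, (le_max_right a b).trans h3⟩, rfl⟩

lemma wins {r : ℕ → Mv} (hl : LegalRun r) {u v : ℕ} (hw : white r = {s(u, v)})
    (Z : Set (Set ℕ × Set ℕ))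
    (h : (S0 (gI r ⊔ fromEdgeSet {s(u, v)}) → S0 (gI r)) ∨ Phi (gI r) ∉ Z) :
    SeekerWins (prop Z) r := by
  have hn : (dif (gI r ⊔ fromEdgeSet {s(u, v)}) (gI r)).Finite :=
    (toFinite {(u, v), (v, u)}).subset fun p hp => by
      have := ((fromEdgeSet_adj _).1 (hp.1.resolve_left hp.2)).1
      rcases Sym2.eq_iff.1 this with ⟨rfl, rfl⟩ | ⟨rfl, rfl⟩ <;> simp
  have e := Phi_near ⟨hn, dif_le le_sup_left⟩
  refine ⟨hw ▸ singleton_nonempty _, ?_⟩
  by_cases hG : gI r ∈ prop Z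
  · refine Or.inl fun H hH => prop_mono Z hG ?_
    rw [← edgeSet_subset_edgeSet, gI, edgeSet_fromEdgeSet]
    exact fun e he => hH.1 he.1
  · refine Or.inr (eq_empty_of_forall_notMem fun H hH => hG ?_)
    have : gI r ⊔ fromEdgeSet {s(u, v)} ∈ prop Z := prop_mono Z hH.2 fun a b hab => by
      rcases hH.1.2 (show s(a, b) ∈ H.edgeSet from hab) with h | h
      · exact Or.inl ((fromEdgeSet_adj _).2 ⟨h, hab.ne⟩)
      · exact Or.inr ((fromEdgeSet_adj _).2 ⟨hw ▸ h, hab.ne⟩)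
    rcases this with h' | ⟨h1, h2⟩
    · exact Or.inl (h'.near hn)
    · rcases h with h | h
      · exact Or.inr ⟨h h1, e ▸ h2⟩
      · exact absurd (e ▸ h2) h

lemma seeker (τ : List Mv → Sym2 ℕ → Bool) (hτ : ¬ ∃ r : ℕ → Mv, LegalRun r ∧
      (∀ n, (r n).2 = τ (hist r n) (r n).1) ∧ ∀ Z, SeekerWins (prop Z) r) (x : Set ℕ) :
    ∃ r : ℕ → Mv, LegalRun r ∧ (∀ n, (r n).2 = τ (hist r n) (r n).1) ∧ (Phi (gI r)).2 = x ∧
      ∀ Z, Phi (gI r) ∉ Z → SeekerWins (prop Z) r := by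
  classical
  have good : ∀ r : ℕ → Mv, LegalRun r → (∀ n, (r n).2 = τ (hist r n) (r n).1) → ∀ t, Good r t := by
    intro r0 hl hc t u v hne huv
    by_contra hn
    obtain ⟨r, r1, r2, r3, r4, -⟩ := askall τ s(u, v) (by simpa using hne) (fun _ _ => True) r0 t
      (fun n h => ⟨hl.1 n, fun e => hn ⟨n, h, e⟩, hc n⟩) fun m _ n _ e => hl.2 e
    refine hτ ⟨r, r2, r3, fun Z => wins r2 r4 Z (Or.inl fun ⟨lev, h1, h2⟩ => ⟨lev, h1, fun a b h => ?_⟩)⟩
    have h3 : (gI r).Reachable u v := huv.mono ((gt_congr r1).ge.trans (gt_le r t))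
    refine reach_ind ((gI r).Reachable a) (Reachable.refl _) (fun c d _ hc hcd => hc.trans ?_) (h2 a b h)
    rcases hcd with hcd | hcd
    · exact hcd.reachable
    · rcases Sym2.eq_iff.1 ((fromEdgeSet_adj _).1 hcd).1 with ⟨rfl, rfl⟩ | ⟨rfl, rfl⟩
      exacts [h3, h3.symm]
  obtain ⟨π, J, t1, t2, t3, t4⟩ := tree {k | (Nat.unpair k).1 ∈ x}
  obtain ⟨r, -, r2, r3, r4, r5⟩ := askall τ s(0, 1) (by simp) (fun h e => ∃ c n, c < n ∧
    e = s(c, n) ∧ IsPort π (fromEdgeSet {e | (e, true) ∈ h}) n c) (fun _ => (s(0, 0), true)) 0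
    (fun n h => absurd h n.not_lt_zero) fun n h => absurd h n.not_lt_zero
  have hw : ∀ n, (r n).1 ≠ s(0, 1) := (show s(0, 1) ∈ white r from r4 ▸ rfl).2
  have st : ∀ c n : ℕ, c < n → stage s(c, n) = n := fun c n h => max_eq_right h.le
  have hres : ∀ s c n, c < n → (r s).1 = s(c, n) → res (gt r s) n = res (gI r) n := by
    intro s c n hc hs
    refine le_antisymm (fun a b h => ⟨gt_le r s h.1, h.2⟩) fun a b h => ⟨?_, h.2⟩
    obtain ⟨⟨k, hk⟩, hne⟩ := (fromEdgeSet_adj _).1 h.1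
    refine (fromEdgeSet_adj _).2 ⟨⟨k, ?_, hk⟩, hne⟩
    by_contra hks
    have := r5 s s.zero_le s(a, b) (by simpa using hne) (by have := hw k; rwa [hk] at this)
      fun m hm e => by have : m = k := r2.2 (by simp only [e, hk]); omega
    have h1 : stage s(a, b) < n := max_lt h.2.1 h.2.2
    rw [hs, st c n hc] at this
    split_ifs at this <;> omega
  have hlate : ∀ s c' c n, c' < n → c < n → (r s).1 = s(c', n) → ((∃ c1 n1, c1 < n1 ∧
      s(c, n) = s(c1, n1) ∧ IsPort π (fromEdgeSet {e | (e, true) ∈ hist r s}) n1 c1) ↔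
        IsPort π (gI r) n c) := by
    intro s c' c n h' h hs
    have : fromEdgeSet {e | (e, true) ∈ hist r s} = gt r s := by
      unfold gt; congr 1; ext e; exact mem_hist
    rw [this, ← port_congr (hres s c' n h' hs) h]
    refine ⟨fun ⟨c1, n1, h1, h2, h3⟩ => ?_, fun h1 => ⟨c, n, h, rfl, h1⟩⟩
    rcases Sym2.eq_iff.1 h2 with ⟨rfl, rfl⟩ | ⟨rfl, rfl⟩
    · exact h3
    · omega
  have PR : ∀ c n, c < n → (gI r).Adj c n → IsPort π (gI r) n c := by
    intro c n hc h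
    by_contra hp
    obtain ⟨⟨s, hs⟩, -⟩ := (fromEdgeSet_adj _).1 h
    have hs1 : (r s).1 = s(c, n) := by rw [hs]
    obtain ⟨p, p1, p2, p3⟩ := exists_port t1 (gI r) hc
    rw [← hres s c n hc hs1] at p2
    obtain ⟨m, m1, m2⟩ := good r r2 r3 (s + 1) p n p1.ne
      ((p2.symm.mono ((res_le _ _).trans (gt_mono r s.le_succ))).trans
        (Adj.reachable ((fromEdgeSet_adj _).2 ⟨⟨s, s.lt_succ_self, hs⟩, hc.ne⟩)))
    have hms : m ≠ s := fun e => by
      rw [e, hs1] at m2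
      rcases Sym2.eq_iff.1 m2 with ⟨rfl, -⟩ | ⟨rfl, -⟩
      · exact hp p3
      · omega
    have := r5 m m.zero_le s(c, n) (by simpa using hc.ne) (hs1 ▸ hw s)
      fun k hk e => by have : k = s := r2.2 (e.trans hs1.symm); omega
    rw [m2, if_pos ((hlate m p p n p1 p1 m2).2 p3), if_neg (mt (hlate m p c n p1 hc m2).1 hp),
      st p n p1, st c n hc] at this
    omega
  obtain ⟨lev, hv, hK⟩ : S0 (gI r ⊔ fromEdgeSet {s(0, 1)}) := by_contra fun h =>
    hτ ⟨r, r2, r3, fun Z => wins r2 r4 Z (Or.inl fun h' => absurd h' h)⟩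
  obtain ⟨v0, h0⟩ : ∃ v0, {w | (gI r).Reachable v0 w}.Infinite := by
    by_contra hn
    push Not at hn
    obtain ⟨b, hb⟩ := hv.1.nonempty
    refine hv.1 (((hn b).union ((hn 0).union (hn 1))).subset fun c hc => ?_)
    refine reach_ind (fun c => (gI r).Reachable b c ∨ (gI r).Reachable 0 c ∨ (gI r).Reachable 1 c)
      (Or.inl (Reachable.refl _)) (fun c d _ h hcd => ?_) (hK b c (hb.trans hc.symm))
    rcases hcd with hcd | hcd
    · exact h.imp (·.trans hcd.reachable) (Or.imp (·.trans hcd.reachable) (·.trans hcd.reachable))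
    · rcases Sym2.eq_iff.1 ((fromEdgeSet_adj _).1 hcd).1 with ⟨-, rfl⟩ | ⟨-, rfl⟩
      exacts [Or.inr (Or.inr (Reachable.refl _)), Or.inr (Or.inl (Reachable.refl _))]
  exact ⟨r, r2, r3, inv_eq (c := fun i => i + 2) (Y := degs (gI r)) fun i =>
    (degs_port t2 t3 PR h0 _).trans (t4 i), fun Z hZ => wins r2 r4 Z (Or.inr hZ)⟩

open Cardinal in
theorem undetermined : ∃ Z, (¬ ∃ σ, SeekerStrat (prop Z) σ) ∧ ¬ ∃ τ, HiderStrat (prop Z) τ := by
  classical
  let A : (List Mv → Sym2 ℕ) → Set (Set ℕ × Set ℕ) := fun σ => {z |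
    (∀ r : ℕ → Mv, (∀ n, (r n).1 = σ (hist r n)) → LegalRun r ∧ (white r).Nonempty) →
      ∃ r : ℕ → Mv, (∀ n, (r n).1 = σ (hist r n)) ∧ ¬ Large (gI r) ∧ ¬ S0 (gI r) ∧
        ∃ K ∈ poss r, S0 K ∧ Phi K = z}
  let B : (List Mv → Sym2 ℕ → Bool) → Set (Set ℕ × Set ℕ) := fun τ => {z |
    ∃ r : ℕ → Mv, LegalRun r ∧ (∀ n, (r n).2 = τ (hist r n) (r n).1) ∧
      ∀ Z, z ∉ Z → SeekerWins (prop Z) r}
  have hA : ∀ σ x, ∃ z ∈ A σ, z.1 = x := fun σ x => by
    by_cases h : ∀ r : ℕ → Mv, (∀ n, (r n).1 = σ (hist r n)) → LegalRun r ∧ (white r).Nonempty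
    · obtain ⟨r, h1, h2, h3, K, h4, h5, h6⟩ := hider σ h x
      exact ⟨_, fun _ => ⟨r, h1, h2, h3, K, h4, h5, rfl⟩, h6⟩
    · exact ⟨(x, x), fun h' => absurd h' h, rfl⟩
  have hB : ∀ τ x, ∃ z ∈ B τ, z.2 = x := fun τ x => by
    by_cases h : ∃ r : ℕ → Mv, LegalRun r ∧ (∀ n, (r n).2 = τ (hist r n) (r n).1) ∧
      ∀ Z, SeekerWins (prop Z) r
    · obtain ⟨r, h1, h2, h3⟩ := h
      exact ⟨(x, x), ⟨r, h1, h2, fun Z _ => h3 Z⟩, rfl⟩
    · obtain ⟨r, h1, h2, h3, h4⟩ := seeker τ h x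
      exact ⟨_, ⟨r, h1, h2, h4⟩, h3⟩
  let M : (List Mv → Sym2 ℕ) ⊕ (List Mv → Sym2 ℕ → Bool) → Set (Set ℕ × Set ℕ) := Sum.elim A B
  have hM : ∀ i, 𝔠 ≤ #(M i) := by
    have key : ∀ (s : Set (Set ℕ × Set ℕ)) (f : Set ℕ × Set ℕ → Set ℕ), (∀ x, ∃ z ∈ s, f z = x) →
        𝔠 ≤ #s := fun s f h => by
      rw [← mk_set_nat]
      exact mk_le_of_surjective (f := fun z : s => f z) fun x =>
        let ⟨z, h1, h2⟩ := h x; ⟨⟨z, h1⟩, h2⟩
    rintro (σ | τ)
    exacts [key _ _ (hA σ), key _ _ (hB τ)]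
  have hI : #((List Mv → Sym2 ℕ) ⊕ (List Mv → Sym2 ℕ → Bool)) ≤ 𝔠 := by
    have h1 : #(List Mv) ≤ ℵ₀ := mk_le_aleph0
    have h2 : #(Sym2 ℕ) ≤ ℵ₀ := mk_le_aleph0
    have h3 : ∀ X : Type, #X ≤ 𝔠 → #(List Mv → X) ≤ 𝔠 := fun X h => by
      rw [← power_def]
      exact (power_le_power_right h).trans ((power_le_power_left continuum_ne_zero h1).trans
        continuum_power_aleph0.le)
    rw [mk_sum, lift_id, lift_id]
    refine (add_le_add (h3 _ (h2.trans aleph0_le_continuum)) (h3 _ ?_)).trans continuum_add_self.le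
    rw [← power_def, mk_bool]
    exact (power_le_power_left two_ne_zero h2).trans two_power_aleph0.le
  obtain ⟨w, w1, w2⟩ := Precol.pick (fun _ => id) (fun _ => Function.injective_id) M
    aleph0_le_continuum hI (fun i => nonempty_coe_sort.1 (mk_ne_zero_iff.1
      (continuum_pos.trans_le (hM i)).ne')) fun i hi => absurd (hM i) (not_le.2 hi)
  refine ⟨range (w ∘ Sum.inl), fun ⟨σ, hσ⟩ => ?_, fun ⟨τ, hτ⟩ => ?_⟩
  · obtain ⟨r, h1, h2, h3, K, h4, h5, h6⟩ := w1 (Sum.inl σ) fun r h => ⟨(hσ r h).1, (hσ r h).2.1⟩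
    obtain ⟨hl, -, h | h⟩ := hσ r h1
    · exact (h (gI_poss hl)).elim h2 fun h => h3 h.1
    · exact eq_empty_iff_forall_notMem.1 h K ⟨h4, Or.inr ⟨h5, σ, h6.symm⟩⟩
  · obtain ⟨r, h1, h2, h3⟩ := w1 (Sum.inr τ)
    exact hτ r h1 h2 (h3 _ fun ⟨σ, h⟩ => (w2 _ _ Sum.inl_ne_inr).1 h)

end Pool.Agent.Lib.helper19.Elus
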