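import Mathlib

set_option autoImplicit false

namespace Pool.Agent.H19Free

open Finset MvPolynomial

variable {K : Type} [Field K] {ι : Type} [DecidableEq ι] {Y : ι → Type}

/-- functions depending only on the coordinates in `I` -/
def EE (K : Type) [Field K] (Y : ι → Type) (I : Finset ι) : Submodule K ((∀ α, Y α) → K) where
  carrier := {f | DependsOn f (I : Set ι)}
  zero_mem' := fun _ _ _ => rfl
  add_mem' := fun hf hg _ _ h => by simp only [Pi.add_apply, hf h, hg h]
  smul_mem' := fun _ _ hf _ _ h => by simp only [Pi.smul_apply, hf h]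

omit [DecidableEq ι] in
lemma mem_EE {I : Finset ι} {f : (∀ α, Y α) → K} : f ∈ EE K Y I ↔ DependsOn f (I : Set ι) :=
  Iff.rfl

lemma EE_mul {I J : Finset ι} {f g : (∀ α, Y α) → K} (hf : f ∈ EE K Y I) (hg : g ∈ EE K Y J) :
    f * g ∈ EE K Y (I ∪ J) := by
  intro x y h
  simp only [Pi.mul_apply]
  rw [hf fun i hi => h i (by simp [show i ∈ I from hi]),
    hg fun i hi => h i (by simp [show i ∈ J from hi])]

/-- fixing the coordinate `α` -/
def DD (K : Type) [Field K] (α : ι) (y : Y α) : ((∀ α, Y α) → K) →ₐ[K] ((∀ α, Y α) → K) where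
  toFun := fun f x => f (Function.update x α y)
  map_one' := rfl
  map_mul' := fun _ _ => rfl
  map_zero' := rfl
  map_add' := fun _ _ => rfl
  commutes' := fun _ => rfl

lemma DD_apply (α : ι) (y : Y α) (f : (∀ α, Y α) → K) (x : ∀ α, Y α) :
    DD K α y f x = f (Function.update x α y) := rfl

lemma DD_mem {I : Finset ι} (α : ι) (y : Y α) {f : (∀ α, Y α) → K} (hf : f ∈ EE K Y I) :
    DD K α y f ∈ EE K Y (I.erase α) := by
  intro x x' h
  apply hf
  intro i hi
  by_cases hiα : i = α
  · subst hiα; simp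
  · rw [Function.update_of_ne hiα, Function.update_of_ne hiα]
    exact h i (by simp [hiα, show i ∈ I from hi])

lemma DD_of_notMem {I : Finset ι} {α : ι} (y : Y α) {f : (∀ α, Y α) → K} (hf : f ∈ EE K Y I)
    (hα : α ∉ I) : DD K α y f = f := by
  funext x
  apply hf
  intro i hi
  exact Function.update_of_ne (fun h : i = α => hα (h ▸ (show i ∈ I from hi))) _ _

/-- decomposable elements -/
def dec (A : Finset ι → Submodule K ((∀ α, Y α) → K)) (J : Finset ι) :
    Submodule K ((∀ α, Y α) → K) :=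
  Submodule.span K {f | ∃ I, I ⊆ J ∧ I.Nonempty ∧ I ≠ J ∧ ∃ u ∈ A I, ∃ v ∈ A (J \ I), f = u * v}

/-- the local-to-global property -/
def LocGlob (A : Finset ι → Submodule K ((∀ α, Y α) → K)) : Prop :=
  ∀ (J : Finset ι) (α : ι) (t : (∀ α, Y α) → K), t ∈ A J →
    ∀ (κ : Type) [Fintype κ] (I : κ → Finset ι) (g : κ → (∀ α, Y α) → K),
    (∀ i, α ∈ I i ∧ I i ⊆ J ∧ I i ≠ J ∧ g i ∈ A (J \ I i)) →
    (∀ y, ∃ h : κ → (∀ α, Y α) → K, (∀ i, h i ∈ A ((I i).erase α)) ∧
      DD K α y t = ∑ i, h i * g i) → t ∈ dec A J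

lemma locGlob_EE : LocGlob (EE K Y) := by
  intro J α t _ κ _ I g hg hy
  choose h hh ht using hy
  have : t = ∑ i, (fun x => h (x α) i x) * g i := by
    funext x
    have := congrFun (ht (x α)) x
    rw [DD_apply, Function.update_eq_self] at this
    rw [this]
    simp
  rw [this]
  refine Submodule.sum_mem _ fun i _ => Submodule.subset_span
    ⟨I i, (hg i).2.1, ⟨α, (hg i).1⟩, (hg i).2.2.1, _, ?_, _, (hg i).2.2.2, rfl⟩
  intro x x' hx
  simp only
  rw [hx α (hg i).1]
  exact hh _ i fun j hj => hx j (mem_of_mem_erase hj)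

section Poly

variable {Γ : Type} (deg : Γ → Finset ι)

/-- multilinear monomials -/
inductive Mon (K : Type) [Field K] (S : Set Γ) : Finset ι → MvPolynomial Γ K → Prop
  | one : Mon K S ∅ 1
  | mul (γ : Γ) (I : Finset ι) (m : MvPolynomial Γ K) :
      γ ∈ S → Disjoint (deg γ) I → Mon K S I m → Mon K S (deg γ ∪ I) (X γ * m)

/-- multilinear polynomials -/
noncomputable def HH (K : Type) [Field K] (S : Set Γ) (I : Finset ι) : Submodule K (MvPolynomial Γ K) :=
  Submodule.span K {m | Mon deg K S I m}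

variable {deg}

lemma Mon.mono {S S' : Set Γ} (h : S ⊆ S') {I : Finset ι} {m : MvPolynomial Γ K}
    (hm : Mon deg K S I m) : Mon deg K S' I m := by
  induction hm with
  | one => exact Mon.one
  | mul γ I m h1 h2 _ ih => exact Mon.mul γ I m (h h1) h2 ih

lemma HH_mono {S S' : Set Γ} (h : S ⊆ S') (I : Finset ι) : HH deg K S I ≤ HH deg K S' I :=
  Submodule.span_mono fun _ hm => Mon.mono h hm

lemma Mon.mul' {S : Set Γ} {I J : Finset ι} {m m' : MvPolynomial Γ K}
    (hm : Mon deg K S I m) (hm' : Mon deg K S J m') (h : Disjoint I J) :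
    Mon deg K S (I ∪ J) (m * m') := by
  induction hm with
  | one => simpa using hm'
  | mul γ I m h1 h2 _ ih =>
    rw [disjoint_union_left] at h
    rw [union_assoc, mul_assoc]
    exact Mon.mul γ _ _ h1 (disjoint_union_right.2 ⟨h2, h.1⟩) (ih h.2)

lemma HH_mul {S : Set Γ} {I J : Finset ι} {p q : MvPolynomial Γ K}
    (hp : p ∈ HH deg K S I) (hq : q ∈ HH deg K S J) (h : Disjoint I J) :
    p * q ∈ HH deg K S (I ∪ J) := by
  induction hp using Submodule.span_induction with
  | zero => simp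
  | add a b _ _ ha hb => rw [add_mul]; exact add_mem ha hb
  | smul c a _ ha => rw [smul_mul_assoc]; exact Submodule.smul_mem _ _ ha
  | mem a ha =>
    induction hq using Submodule.span_induction with
    | zero => simp
    | add a b _ _ ha hb => rw [mul_add]; exact add_mem ha hb
    | smul c a _ ha => rw [mul_smul_comm]; exact Submodule.smul_mem _ _ ha
    | mem b hb => exact Submodule.subset_span (Mon.mul' ha hb h)

lemma HH_one (S : Set Γ) : (1 : MvPolynomial Γ K) ∈ HH deg K S ∅ :=
  Submodule.subset_span Mon.one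

lemma HH_X {S : Set Γ} {γ : Γ} (h : γ ∈ S) : (X γ : MvPolynomial Γ K) ∈ HH deg K S (deg γ) := by
  have := Mon.mul (deg := deg) (K := K) γ ∅ 1 h (disjoint_empty_right _) Mon.one
  exact Submodule.subset_span (by simpa using this)

lemma HH_prod {S : Set Γ} (s : Finset (Finset ι)) (w : Finset ι → MvPolynomial Γ K)
    (hw : ∀ I ∈ s, w I ∈ HH deg K S I) (hs : (s : Set (Finset ι)).PairwiseDisjoint id) :
    ∏ I ∈ s, w I ∈ HH deg K S (s.sup id) := by
  induction s using Finset.induction_on with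
  | empty => simpa using HH_one S
  | insert I s hI ih =>
    rw [prod_insert hI, sup_insert]
    refine HH_mul (hw I (mem_insert_self _ _)) (ih (fun J hJ => hw J (mem_insert_of_mem hJ))
      (hs.subset (by simp))) ?_
    rw [Finset.disjoint_sup_right]
    intro J hJ
    exact hs (by simp) (by simp [hJ]) (fun h => hI (h ▸ hJ))

lemma HH_finite {I : Finset ι} {p : MvPolynomial Γ K} (hp : p ∈ HH deg K Set.univ I) :
    ∃ S : Set Γ, S.Finite ∧ p ∈ HH deg K S I := by
  induction hp using Submodule.span_induction with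
  | zero => exact ⟨∅, Set.finite_empty, zero_mem _⟩
  | add a b _ _ ha hb =>
    obtain ⟨S, hS, ha⟩ := ha
    obtain ⟨S', hS', hb⟩ := hb
    exact ⟨S ∪ S', hS.union hS', add_mem (HH_mono Set.subset_union_left _ ha)
      (HH_mono Set.subset_union_right _ hb)⟩
  | smul c a _ ha =>
    obtain ⟨S, hS, ha⟩ := ha
    exact ⟨S, hS, Submodule.smul_mem _ _ ha⟩
  | mem a ha =>
    suffices ∃ S : Set Γ, S.Finite ∧ Mon deg K S I a by
      obtain ⟨S, hS, h⟩ := this
      exact ⟨S, hS, Submodule.subset_span h⟩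
    change Mon deg K Set.univ I a at ha
    induction ha with
    | one => exact ⟨∅, Set.finite_empty, Mon.one⟩
    | mul γ I m _ h2 _ ih =>
      obtain ⟨S, hS, h⟩ := ih
      exact ⟨insert γ S, hS.insert γ,
        Mon.mul γ I m (Set.mem_insert _ _) h2 (h.mono (Set.subset_insert _ _))⟩

lemma HH_hom {C : Type} [CommRing C] [Algebra K C] (A : Finset ι → Submodule K C) (ψ : Γ → C)
    {S : Set Γ} (h1 : 1 ∈ A ∅)
    (hm : ∀ I J u v, Disjoint I J → u ∈ A I → v ∈ A J → u * v ∈ A (I ∪ J))
    (hψ : ∀ γ ∈ S, ψ γ ∈ A (deg γ)) {I : Finset ι} {p : MvPolynomial Γ K}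
    (hp : p ∈ HH deg K S I) : aeval ψ p ∈ A I := by
  induction hp using Submodule.span_induction with
  | zero => simp
  | add a b _ _ ha hb => rw [map_add]; exact add_mem ha hb
  | smul c a _ ha => rw [map_smul]; exact Submodule.smul_mem _ _ ha
  | mem a ha =>
    change Mon deg K S I a at ha
    induction ha with
    | one => simpa using h1
    | mul γ I m h1 h2 _ ih =>
      rw [map_mul, aeval_X]
      exact hm _ _ _ _ h2 (hψ γ h1) ih

lemma HH_congr {C : Type} [CommRing C] [Algebra K C] (φ ψ : MvPolynomial Γ K →ₐ[K] C)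
    {S : Set Γ} {I : Finset ι} (h : ∀ γ ∈ S, deg γ ⊆ I → φ (X γ) = ψ (X γ))
    {p : MvPolynomial Γ K} (hp : p ∈ HH deg K S I) : φ p = ψ p := by
  induction hp using Submodule.span_induction with
  | zero => simp
  | add a b _ _ ha hb => rw [map_add, map_add, ha, hb]
  | smul c a _ ha => rw [map_smul, map_smul, ha]
  | mem a ha =>
    change Mon deg K S I a at ha
    induction ha with
    | one => simp
    | mul γ I m h1 h2 _ ih =>
      rw [map_mul, map_mul, h γ h1 subset_union_left,
        ih fun γ' h' h'' => h γ' h' (h''.trans subset_union_right)]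

lemma HH_kill {C : Type} [CommRing C] [Algebra K C] (φ : MvPolynomial Γ K →ₐ[K] C)
    {S : Set Γ} {I : Finset ι} {β : ι} (hβ : β ∈ I) (h : ∀ γ ∈ S, β ∈ deg γ → φ (X γ) = 0)
    {p : MvPolynomial Γ K} (hp : p ∈ HH deg K S I) : φ p = 0 := by
  induction hp using Submodule.span_induction with
  | zero => simp
  | add a b _ _ ha hb => rw [map_add, ha, hb, add_zero]
  | smul c a _ ha => rw [map_smul, ha, smul_zero]
  | mem a ha =>
    change Mon deg K S I a at ha
    induction ha with
    | one => simp at hβ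
    | mul γ I m h1 h2 _ ih =>
      rw [map_mul]
      rcases mem_union.1 hβ with hβ | hβ
      · rw [h γ h1 hβ, zero_mul]
      · rw [ih hβ, mul_zero]

lemma HH_empty (hdeg : ∀ γ, (deg γ).Nonempty) {S : Set Γ} {p : MvPolynomial Γ K}
    (hp : p ∈ HH deg K S ∅) : ∃ c : K, p = C c := by
  have : HH deg K S ∅ ≤ Submodule.span K {1} := by
    apply Submodule.span_mono
    intro m hm
    change Mon deg K S ∅ m at hm
    generalize he : (∅ : Finset ι) = I at hm
    cases hm with
    | one => rfl
    | mul γ I m h1 h2 _ =>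
      exact absurd (union_eq_empty.1 he.symm).1 (hdeg γ).ne_empty
  obtain ⟨c, hc⟩ := Submodule.mem_span_singleton.1 (this hp)
  exact ⟨c, by rw [← hc, C_eq_smul_one]⟩

lemma HH_split {I : Finset ι} {α : ι} (hα : α ∈ I) {p : MvPolynomial Γ K}
    (hp : p ∈ HH deg K Set.univ I) :
    ∃ q : Γ →₀ MvPolynomial Γ K, (∀ γ, q γ ∈ HH deg K Set.univ (I \ deg γ)) ∧
      (∀ γ, q γ ≠ 0 → α ∈ deg γ ∧ deg γ ⊆ I) ∧ p = q.sum fun γ a => X γ * a := by
  classical
  induction hp using Submodule.span_induction with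
  | zero => exact ⟨0, fun _ => zero_mem _, by simp, by simp⟩
  | add a b _ _ ha hb =>
    obtain ⟨q, h1, h2, rfl⟩ := ha
    obtain ⟨q', h1', h2', rfl⟩ := hb
    refine ⟨q + q', fun γ => add_mem (h1 γ) (h1' γ), fun γ hγ => ?_, ?_⟩
    · by_cases h : q γ = 0
      · exact h2' γ (by simpa [h] using hγ)
      · exact h2 γ h
    · rw [Finsupp.sum_add_index' (by simp) (fun _ _ _ => mul_add _ _ _)]
  | smul c a _ ha =>
    obtain ⟨q, h1, h2, rfl⟩ := ha
    refine ⟨c • q, fun γ => Submodule.smul_mem _ _ (h1 γ), fun γ hγ => h2 γ fun h => hγ (by simp [h]), ?_⟩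
    rw [Finsupp.sum_smul_index' (by simp), Finsupp.smul_sum]
    simp
  | mem a ha =>
    suffices ∃ γ m, α ∈ deg γ ∧ deg γ ⊆ I ∧ Mon deg K Set.univ (I \ deg γ) m ∧ a = X γ * m by
      obtain ⟨γ, m, h1, h2, h3, rfl⟩ := this
      refine ⟨Finsupp.single γ m, fun γ' => ?_, fun γ' h => ?_, by simp⟩
      · by_cases h : γ' = γ
        · subst h; rw [Finsupp.single_eq_same]; exact Submodule.subset_span h3
        · simp [h]
      · have : γ' = γ := by
          by_contra h'; exact h (by simp [h'])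
        subst this; exact ⟨h1, h2⟩
    change Mon deg K Set.univ I a at ha
    induction ha with
    | one => simp at hα
    | mul γ I m h1 h2 h3 ih =>
      by_cases hγ : α ∈ deg γ
      · refine ⟨γ, m, hγ, subset_union_left, ?_, rfl⟩
        rwa [union_sdiff_cancel_left h2]
      · obtain ⟨γ', m', a1, a2, a3, rfl⟩ := ih ((mem_union.1 hα).resolve_left hγ)
        refine ⟨γ', X γ * m', a1, a2.trans subset_union_right, ?_, by ring⟩
        rw [union_sdiff_distrib, (Finset.sdiff_eq_self_iff_disjoint).2 (h2.mono_right a2)]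
        exact Mon.mul γ _ _ trivial (h2.mono_right sdiff_subset) a3

end Poly

end Pool.Agent.H19Free
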