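import Mathlib
import Pool.Agent.Lib.helper19.Free1

set_option autoImplicit false

namespace Pool.Agent.H19Free

open Finset MvPolynomial

variable {K : Type} [Field K] {ι : Type} [DecidableEq ι] {Y : ι → Type}

/-- a system of generators of the algebra of all functions -/
structure Gens (K : Type) [Field K] (Y : ι → Type) {Γ : Type} (deg : Γ → Finset ι)
    (fn : Γ → (∀ α, Y α) → K) : Prop where
  ne : ∀ γ, (deg γ).Nonempty
  mem : ∀ γ, fn γ ∈ EE K Y (deg γ)
  ind : ∀ (J : Finset ι) (Z : Finset Γ) (c : Γ → K), (∀ γ ∈ Z, deg γ = J) →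
    ∑ γ ∈ Z, c γ • fn γ ∈ dec (EE K Y) J → ∀ γ ∈ Z, c γ = 0
  span : ∀ J : Finset ι, J.Nonempty →
    EE K Y J ≤ Submodule.span K (fn '' {γ | deg γ = J}) ⊔ dec (EE K Y) J

lemma exists_gens (B : Finset ι → Submodule K ((∀ α, Y α) → K)) (hB : ∀ I, B I ≤ EE K Y I) :
    ∃ (Γ : Type) (deg : Γ → Finset ι) (fn : Γ → (∀ α, Y α) → K) (S : Set Γ),
      Gens K Y deg fn ∧ (∀ γ ∈ S, fn γ ∈ B (deg γ)) ∧
      ∀ J : Finset ι, J.Nonempty →
        B J ≤ Submodule.span K (fn '' {γ | γ ∈ S ∧ deg γ = J}) ⊔ dec (EE K Y) J := by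
  classical
  have h1 : ∀ J : Finset ι, ∃ b1 b2 : Set ((∀ α, Y α) → K), b1 ⊆ B J ∧ b2 ⊆ EE K Y J ∧ b1 ⊆ b2 ∧
      B J ≤ Submodule.span K b1 ⊔ dec (EE K Y) J ∧
      EE K Y J ≤ Submodule.span K b2 ⊔ dec (EE K Y) J ∧
      LinearIndepOn K (dec (EE K Y) J).mkQ b2 := by
    intro J
    obtain ⟨b1, a1, -, a2, a3⟩ := exists_linearIndepOn_extension (K := K)
      (v := (dec (EE K Y) J).mkQ) (t := (B J : Set _)) (linearIndepOn_empty _ _) (Set.empty_subset _)
    obtain ⟨b2, c1, c2, c3, c4⟩ := exists_linearIndepOn_extension (t := (EE K Y J : Set _)) a3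
      (a1.trans (hB J))
    have key : ∀ (b : Set ((∀ α, Y α) → K)) f, (dec (EE K Y) J).mkQ f ∈
        Submodule.span K ((dec (EE K Y) J).mkQ '' b) → f ∈ Submodule.span K b ⊔ dec (EE K Y) J := by
      intro b f hf
      rw [← Submodule.map_span, ← Submodule.mem_comap, Submodule.comap_map_mkQ, sup_comm] at hf
      exact hf
    exact ⟨b1, b2, a1, c1, c2, fun f hf => key _ _ (a2 ⟨f, hf, rfl⟩),
      fun f hf => key _ _ (c3 ⟨f, hf, rfl⟩), c4⟩
  choose b1 b2 a1 a2 a3 a4 a5 a6 using h1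
  refine ⟨{p : Finset ι × ((∀ α, Y α) → K) // p.1.Nonempty ∧ p.2 ∈ b2 p.1}, fun p => p.1.1,
    fun p => p.1.2, {p | p.1.2 ∈ b1 p.1.1}, ⟨fun γ => γ.2.1, fun γ => a2 _ γ.2.2, ?_, ?_⟩,
    fun γ hγ => a1 _ hγ, ?_⟩
  · intro J Z c hZ hs
    have hli : LinearIndepOn K (fun p : {p : Finset ι × ((∀ α, Y α) → K) //
        p.1.Nonempty ∧ p.2 ∈ b2 p.1} => (dec (EE K Y) J).mkQ p.1.2) {p | p.1.1 = J} := by
      have := LinearIndependent.comp (a6 J)
        (fun p : {p : {p : Finset ι × ((∀ α, Y α) → K) // p.1.Nonempty ∧ p.2 ∈ b2 p.1} |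
          p.1.1 = J} => (⟨p.1.1.2, by have := p.1.2.2; rwa [p.2] at this⟩ : b2 J)) (by
          intro p p' h
          apply Subtype.ext; apply Subtype.ext
          exact Prod.ext (p.2.trans p'.2.symm) (congrArg Subtype.val h))
      exact this
    refine linearIndepOn_iff'.1 hli Z c hZ ?_
    rw [← Submodule.Quotient.mk_eq_zero, ← Submodule.mkQ_apply, map_sum] at hs
    simpa using hs
  · intro J hJ
    refine (a5 J).trans (sup_le_sup_right (Submodule.span_mono fun f hf => ?_) _)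
    exact ⟨⟨(J, f), hJ, hf⟩, rfl, rfl⟩
  · intro J hJ
    refine (a4 J).trans (sup_le_sup_right (Submodule.span_mono fun f hf => ?_) _)
    exact ⟨⟨(J, f), hJ, a3 J hf⟩, ⟨hf, rfl⟩, rfl⟩

variable {Γ : Type} {deg : Γ → Finset ι} {fn : Γ → (∀ α, Y α) → K}

lemma Gens.ev_mem (G : Gens K Y deg fn) {S : Set Γ} {I : Finset ι} {p : MvPolynomial Γ K}
    (hp : p ∈ HH deg K S I) : aeval fn p ∈ EE K Y I :=
  HH_hom (EE K Y) fn (fun _ _ _ => rfl) (fun _ _ _ _ _ hu hv => EE_mul hu hv)
    (fun γ _ => G.mem γ) hp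

lemma dec_le_map {A : Finset ι → Submodule K ((∀ α, Y α) → K)} {S : Set Γ} {J : Finset ι}
    (ih : ∀ I, I.card < J.card → A I ≤ (HH deg K S I).map (aeval fn).toLinearMap) :
    dec A J ≤ (HH deg K S J).map (aeval fn).toLinearMap := by
  rw [dec, Submodule.span_le]
  rintro f ⟨I, h1, h2, h3, u, hu, v, hv, rfl⟩
  obtain ⟨p, hp, rfl⟩ := ih I (card_lt_card ⟨h1, fun h => h3 (subset_antisymm h1 h)⟩) hu
  obtain ⟨q, hq, rfl⟩ := ih (J \ I) (card_lt_card (sdiff_ssubset h1 h2)) hv
  refine ⟨p * q, ?_, by simp⟩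
  have := HH_mul hp hq disjoint_sdiff
  rwa [union_sdiff_of_subset h1] at this

lemma const_of_empty [∀ α, Nonempty (Y α)] {f : (∀ α, Y α) → K} (hf : f ∈ EE K Y ∅) (S : Set Γ) :
    f ∈ (HH deg K S ∅).map (aeval fn).toLinearMap := by
  obtain ⟨x0⟩ : Nonempty (∀ α, Y α) := inferInstance
  refine ⟨f x0 • 1, Submodule.smul_mem _ _ (HH_one S), ?_⟩
  funext x
  have : f x = f x0 := hf (by simp)
  simp [this]

lemma Gens.surj [∀ α, Nonempty (Y α)] (G : Gens K Y deg fn) (J : Finset ι) :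
    EE K Y J ≤ (HH deg K Set.univ J).map (aeval fn).toLinearMap := by
  induction hn : J.card using Nat.strong_induction_on generalizing J with
  | _ n ih =>
    rcases J.eq_empty_or_nonempty with rfl | hJ
    · exact fun f hf => const_of_empty hf _
    refine (G.span J hJ).trans (sup_le ?_ (dec_le_map fun I hI => ih _ (hn ▸ hI) I rfl))
    rw [Submodule.span_le]
    rintro _ ⟨γ, rfl, rfl⟩
    exact ⟨X γ, HH_X trivial, by simp⟩

/-- the ideal generated by a set of generators, in degree `I` -/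
def idl (deg : Γ → Finset ι) (fn : Γ → (∀ α, Y α) → K) (S : Set Γ) (I : Finset ι) :
    Submodule K ((∀ α, Y α) → K) :=
  Submodule.span K {f | ∃ s ∈ S, deg s ⊆ I ∧ ∃ h ∈ EE K Y (I \ deg s), f = h * fn s}

lemma Gens.sub_mem_idl (G : Gens K Y deg fn) (S : Set Γ) (ψ : Γ → (∀ α, Y α) → K) (J : Finset ι)
    (h1 : ∀ s ∈ S, deg s ⊆ J → ψ s = 0) (h2 : ∀ s, s ∉ S → ψ s = fn s)
    {I : Finset ι} (hI : I ⊆ J) {p : MvPolynomial Γ K} (hp : p ∈ HH deg K Set.univ I) :
    aeval fn p - aeval ψ p ∈ idl deg fn S I := by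
  induction hp using Submodule.span_induction with
  | zero => simp
  | add a b _ _ ha hb =>
    rw [map_add, map_add, add_sub_add_comm]; exact add_mem ha hb
  | smul c a _ ha => rw [map_smul, map_smul, ← smul_sub]; exact Submodule.smul_mem _ _ ha
  | mem a ha =>
    change Mon deg K Set.univ I a at ha
    induction ha with
    | one => simp
    | mul γ I m _ a2 a3 ih =>
      rw [map_mul, map_mul, aeval_X, aeval_X]
      by_cases hγ : γ ∈ S
      · rw [h1 γ hγ (subset_union_left.trans hI), zero_mul, sub_zero, mul_comm]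
        refine Submodule.subset_span ⟨γ, hγ, subset_union_left, _, ?_, rfl⟩
        rw [union_sdiff_cancel_left a2]
        exact G.ev_mem (Submodule.subset_span a3)
      · rw [h2 γ hγ, ← mul_sub]
        have := ih (subset_union_right.trans hI)
        generalize aeval fn m - aeval ψ m = f at this
        induction this using Submodule.span_induction with
        | zero => simp
        | add a b _ _ ha hb => rw [mul_add]; exact add_mem ha hb
        | smul c a _ ha => rw [mul_smul_comm]; exact Submodule.smul_mem _ _ ha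
        | mem a ha =>
          obtain ⟨s, b1, b2, h, b3, rfl⟩ := ha
          refine Submodule.subset_span ⟨s, b1, b2.trans subset_union_right, fn γ * h, ?_, by ring⟩
          rw [union_sdiff_distrib, (Finset.sdiff_eq_self_iff_disjoint).2 (a2.mono_right b2)]
          exact EE_mul (G.mem γ) b3

omit [DecidableEq ι] in
lemma exists_comb {κ : Type} [Fintype κ] (A : κ → Submodule K ((∀ α, Y α) → K))
    (g : κ → (∀ α, Y α) → K) {f : (∀ α, Y α) → K}
    (hf : f ∈ Submodule.span K {f | ∃ i, ∃ h ∈ A i, f = h * g i}) :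
    ∃ h : κ → (∀ α, Y α) → K, (∀ i, h i ∈ A i) ∧ f = ∑ i, h i * g i := by
  classical
  induction hf using Submodule.span_induction with
  | zero => exact ⟨0, fun _ => zero_mem _, by simp⟩
  | add a b _ _ ha hb =>
    obtain ⟨h, h1, rfl⟩ := ha
    obtain ⟨h', h1', rfl⟩ := hb
    exact ⟨h + h', fun i => add_mem (h1 i) (h1' i), by simp [add_mul, sum_add_distrib]⟩
  | smul c a _ ha =>
    obtain ⟨h, h1, rfl⟩ := ha
    exact ⟨c • h, fun i => Submodule.smul_mem _ _ (h1 i), by simp [smul_sum]⟩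
  | mem a ha =>
    obtain ⟨i, h, hh, rfl⟩ := ha
    refine ⟨Pi.single i h, fun j => ?_, ?_⟩
    · by_cases hj : j = i
      · subst hj; simpa using hh
      · simp [hj]
    · rw [sum_eq_single i]
      · simp
      · intro j _ hj; simp [hj]
      · simp

lemma Gens.free [∀ α, Nonempty (Y α)] (G : Gens K Y deg fn) (I : Finset ι) :
    ∀ p ∈ HH deg K Set.univ I, aeval fn p = 0 → p = 0 := by
  classical
  induction hn : I.card using Nat.strong_induction_on generalizing I with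
  | _ n ih =>
    intro p hp hp0
    rcases I.eq_empty_or_nonempty with rfl | ⟨α, hα⟩
    · obtain ⟨c, rfl⟩ := HH_empty G.ne hp
      obtain ⟨x0⟩ : Nonempty (∀ α, Y α) := inferInstance
      have := congrFun hp0 x0
      simp only [algHom_C, Pi.algebraMap_apply, Algebra.algebraMap_self, RingHom.id_apply,
        Pi.zero_apply] at this
      simp [this]
    obtain ⟨q, hq1, hq2, rfl⟩ := HH_split hα hp
    suffices q = 0 by simp [this]
    by_contra hq0
    obtain ⟨γ0, hγ0, hmax⟩ := exists_max_image q.support (fun γ => (deg γ).card)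
      (Finsupp.support_nonempty_iff.2 hq0)
    obtain ⟨J, hJ⟩ : ∃ J, J = deg γ0 := ⟨_, rfl⟩
    have hsupp : ∀ γ ∈ q.support, α ∈ deg γ ∧ deg γ ⊆ I :=
      fun γ hγ => hq2 γ (Finsupp.mem_support_iff.1 hγ)
    have hlt : ∀ γ ∈ q.support, (I \ deg γ).card < n := fun γ hγ =>
      hn ▸ card_lt_card (sdiff_ssubset (hsupp γ hγ).2 (G.ne γ))
    obtain ⟨x0, hx0⟩ : ∃ x0, aeval fn (q γ0) x0 ≠ 0 := by
      by_contra h
      push Not at h
      exact Finsupp.mem_support_iff.1 hγ0 (ih _ (hlt γ0 hγ0) _ rfl _ (hq1 γ0) (funext h))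
    obtain ⟨S, hSf, hS⟩ : ∃ S : Set Γ, S.Finite ∧
        ∀ γ ∈ q.support, q γ ∈ HH deg K S (I \ deg γ) := by
      choose S hS1 hS2 using fun γ => HH_finite (hq1 γ)
      refine ⟨⋃ γ ∈ q.support, S γ, q.support.finite_toSet.biUnion fun γ _ => hS1 γ,
        fun γ hγ => HH_mono ?_ _ (hS2 γ)⟩
      exact Set.subset_biUnion_of_mem (u := S) (mem_coe.2 hγ)
    obtain ⟨ψ, hψ⟩ : ∃ ψ : Γ → (∀ α, Y α) → K, ψ = fun s =>
      if s ∈ S then (if Disjoint (deg s) J then fun _ => fn s x0 else fun _ => 0) else fn s := ⟨_, rfl⟩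
    obtain ⟨Z, hZ⟩ : ∃ Z, Z = q.support.filter fun γ => deg γ = J := ⟨_, rfl⟩
    have hαJ : α ∈ J := hJ ▸ (hsupp γ0 hγ0).1
    refine hx0 (G.ind J Z (fun γ => aeval fn (q γ) x0) (fun γ hγ => ?_) ?_ γ0 ?_)
    · rw [hZ] at hγ; exact (mem_filter.1 hγ).2
    swap
    · rw [hZ]; exact mem_filter.2 ⟨hγ0, hJ.symm⟩
    haveI : Fintype {s // s ∈ S ∧ deg s ⊆ J.erase α} :=
      (hSf.subset (s := S) (t := {s | s ∈ S ∧ deg s ⊆ J.erase α}) fun _ h => h.1).fintype
    refine locGlob_EE J α _ ?_ {s // s ∈ S ∧ deg s ⊆ J.erase α} (fun s => J \ deg s)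
      (fun s => fn s) ?_ ?_
    · refine Submodule.sum_mem _ fun γ hγ => Submodule.smul_mem _ _ ?_
      rw [hZ] at hγ
      rw [← (mem_filter.1 hγ).2]; exact G.mem γ
    · rintro ⟨s, hs1, hs2⟩
      have hs3 : deg s ⊆ J := hs2.trans (erase_subset _ _)
      refine ⟨mem_sdiff.2 ⟨hαJ, fun h => by simpa using hs2 h⟩, sdiff_subset,
        (sdiff_ssubset hs3 (G.ne s)).ne, ?_⟩
      rw [Finset.sdiff_sdiff_eq_self hs3]; exact G.mem s
    intro y
    apply exists_comb (fun s : {s // s ∈ S ∧ deg s ⊆ J.erase α} => EE K Y ((J \ deg s).erase α))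
    suffices DD K α y (∑ γ ∈ Z, aeval fn (q γ) x0 • fn γ) ∈ idl deg fn S (J.erase α) by
      refine Submodule.span_mono ?_ this
      rintro _ ⟨s, a1, a2, h, a3, rfl⟩
      exact ⟨⟨s, a1, a2⟩, h, by rwa [← erase_sdiff_comm], rfl⟩
    choose l hl1 hl2 using fun γ => G.surj _ (DD_mem α y (G.mem γ))
    have hrel : ∑ γ ∈ q.support, l γ * q γ = 0 := by
      refine ih _ (hn ▸ card_erase_lt_of_mem hα) (I.erase α) rfl _ ?_ ?_
      · refine Submodule.sum_mem _ fun γ hγ => ?_
        have := HH_mul (hl1 γ) (hq1 γ) (disjoint_sdiff.mono_left (erase_subset _ _))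
        convert this using 2
        ext i
        have := hsupp γ hγ
        simp only [mem_erase, mem_union, mem_sdiff]
        constructor
        · rintro ⟨a, b⟩
          by_cases h : i ∈ deg γ
          · exact Or.inl ⟨a, h⟩
          · exact Or.inr ⟨b, h⟩
        · rintro (⟨a, b⟩ | ⟨a, b⟩)
          · exact ⟨a, this.2 b⟩
          · exact ⟨fun h => b (h ▸ this.1), a⟩
      · have := congrArg (DD K α y) hp0
        rw [map_zero, Finsupp.sum, map_sum, map_sum] at this
        rw [map_sum, ← this]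
        refine sum_congr rfl fun γ hγ => ?_
        rw [map_mul, map_mul, map_mul, aeval_X, ← hl2 γ,
          DD_of_notMem y (G.ev_mem (hq1 γ)) (fun h => (mem_sdiff.1 h).2 (hsupp γ hγ).1)]
        rfl
    have hrel2 : ∑ γ ∈ Z, aeval fn (q γ) x0 • aeval ψ (l γ) = 0 := by
      have := congrArg (aeval ψ) hrel
      rw [map_zero, map_sum] at this
      rw [← this, hZ, sum_filter]
      refine sum_congr rfl fun γ hγ => ?_
      rw [map_mul]
      split_ifs with hd
      · have : aeval ψ (q γ) = ((Algebra.ofId K ((∀ α, Y α) → K)).comp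
            ((Pi.evalAlgHom K (fun _ => K) x0).comp (aeval fn))) (q γ) := by
          refine HH_congr _ _ (fun s hs hs' => ?_) (hS γ hγ)
          have : Disjoint (deg s) J := by rw [← hd]; exact disjoint_sdiff.symm.mono_left hs'
          rw [aeval_X, hψ]
          funext x
          simp [hs, this, Algebra.ofId_apply]
        rw [this]
        funext x
        simp [Algebra.ofId_apply, mul_comm]
      · have hns : ¬ J ⊆ deg γ := fun h =>
          hd (eq_of_subset_of_card_le h (hJ ▸ hmax γ hγ)).symm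
        obtain ⟨β, hβ1, hβ2⟩ := not_subset.1 hns
        have : aeval ψ (q γ) = 0 := by
          refine HH_kill _ (β := β) (mem_sdiff.2 ⟨(hsupp γ0 hγ0).2 (hJ ▸ hβ1), hβ2⟩)
            (fun s hs hs' => ?_) (hS γ hγ)
          have : ¬ Disjoint (deg s) J := not_disjoint_iff.2 ⟨β, hs', hβ1⟩
          rw [aeval_X, hψ]
          funext x
          simp [hs, this]
        rw [this, mul_zero]
    rw [← sub_zero (DD K α y _), ← hrel2, map_sum, ← sum_sub_distrib]
    refine Submodule.sum_mem _ fun γ hγ => ?_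
    rw [map_smul, ← smul_sub, ← hl2 γ]
    refine Submodule.smul_mem _ _ ?_
    rw [hZ] at hγ
    refine G.sub_mem_idl S ψ J (fun s hs hs' => ?_) (fun s hs => by simp [hψ, hs])
      (erase_subset _ _) ?_
    · have : ¬ Disjoint (deg s) J := fun h =>
        (G.ne s).ne_empty (disjoint_self.1 (h.mono_right hs'))
      funext x
      simp [hψ, hs, this]
    · rw [← (mem_filter.1 hγ).2]; exact hl1 γ

theorem transfer [Fintype ι] [∀ α, Nonempty (Y α)]
    (B : Finset ι → Submodule K ((∀ α, Y α) → K)) (hB : ∀ I, B I ≤ EE K Y I)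
    (h1 : 1 ∈ B ∅) (hm : ∀ I J u v, Disjoint I J → u ∈ B I → v ∈ B J → u * v ∈ B (I ∪ J))
    (hD : ∀ I α y, ∀ u ∈ B I, DD K α y u ∈ B (I.erase α)) (hL : LocGlob B)
    {κ : Type} [Fintype κ] (P : κ → Finpartition (univ : Finset ι))
    (a : κ → Finset ι → (∀ α, Y α) → K) (ha : ∀ i I, a i I ∈ EE K Y I)
    (hT : ∑ i, ∏ I ∈ (P i).parts, a i I ∈ B univ) :
    ∃ a' : κ → Finset ι → (∀ α, Y α) → K, (∀ i I, a' i I ∈ B I) ∧
      ∑ i, ∏ I ∈ (P i).parts, a i I = ∑ i, ∏ I ∈ (P i).parts, a' i I := by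
  classical
  obtain ⟨Γ, deg, fn, S, G, hS1, hS2⟩ := exists_gens B hB
  obtain ⟨ψ, hψ⟩ : ∃ ψ : Γ → (∀ α, Y α) → K, ψ = fun s => if s ∈ S then fn s else 0 := ⟨_, rfl⟩
  have hr : ∀ I, ∀ p ∈ HH deg K Set.univ I, aeval ψ p ∈ B I := by
    intro I p hp
    refine HH_hom B ψ h1 hm (fun γ _ => ?_) hp
    by_cases h : γ ∈ S
    · simpa [hψ, h] using hS1 γ h
    · simp [hψ, h]
  have hfix : ∀ I, ∀ p ∈ HH deg K S I, ∀ p' ∈ HH deg K Set.univ I,
      aeval fn p = aeval fn p' → aeval fn p = aeval ψ p' := by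
    intro I p hp p' hp' h
    have := G.free I (p - p') (sub_mem (HH_mono (Set.subset_univ _) _ hp) hp')
      (by rw [map_sub, h, sub_self])
    rw [← sub_eq_zero.1 this]
    exact HH_congr _ _ (fun γ hγ _ => by simp [hψ, hγ]) hp
  have hsurj : ∀ J, B J ≤ (HH deg K S J).map (aeval fn).toLinearMap := by
    intro J
    induction hn : J.card using Nat.strong_induction_on generalizing J with
    | _ n ih =>
      rcases J.eq_empty_or_nonempty with rfl | hJ
      · exact fun f hf => const_of_empty (hB _ hf) _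
      intro t ht
      obtain ⟨s, hs, t', ht', rfl⟩ := Submodule.mem_sup.1 (hS2 J hJ ht)
      have hsB : s ∈ B J := by
        refine (Submodule.span_le.2 ?_) hs
        rintro _ ⟨γ, ⟨h, rfl⟩, rfl⟩
        exact hS1 γ h
      have ht'B : t' ∈ B J := by simpa using sub_mem ht hsB
      refine add_mem ((Submodule.span_le.2 ?_) hs)
        (dec_le_map (A := B) (fun I hI => ih _ (hn ▸ hI) I rfl) ?_)
      · rintro _ ⟨γ, ⟨h, rfl⟩, rfl⟩
        exact ⟨X γ, HH_X h, by simp⟩
      obtain ⟨α, hα⟩ := hJ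
      obtain ⟨m, c, g, hg⟩ := Submodule.mem_span_set'.1 ht'
      have hg' : ∀ i, ∃ (A : Finset ι) (u v : (∀ α, Y α) → K), α ∈ A ∧ A ⊆ J ∧ A ≠ J ∧
          u ∈ EE K Y A ∧ v ∈ EE K Y (J \ A) ∧ c i • (g i).1 = u * v := by
        intro i
        obtain ⟨A, b1, b2, b3, u, hu, v, hv, e⟩ := (g i).2
        by_cases h : α ∈ A
        · exact ⟨A, c i • u, v, h, b1, b3, Submodule.smul_mem _ _ hu, hv, by rw [e, smul_mul_assoc]⟩
        · refine ⟨J \ A, c i • v, u, mem_sdiff.2 ⟨hα, h⟩, sdiff_subset, (sdiff_ssubset b1 b2).ne,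
            Submodule.smul_mem _ _ hv, by rwa [Finset.sdiff_sdiff_eq_self b1],
            by rw [e, smul_mul_assoc, mul_comm]⟩
      choose A u v b1 b2 b3 b4 b5 b6 using hg'
      choose w hw1 hw2 using fun i => G.surj _ (b5 i)
      refine hL J α t' ht'B (Fin m) A (fun i => aeval ψ (w i))
        (fun i => ⟨b1 i, b2 i, b3 i, hr _ _ (hw1 i)⟩) fun y => ?_
      choose l hl1 hl2 using fun i => G.surj _ (DD_mem α y (b4 i))
      obtain ⟨p, hp1, hp2⟩ := ih _ (hn ▸ card_erase_lt_of_mem hα) (J.erase α) rfl (hD J α y t' ht'B)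
      refine ⟨fun i => aeval ψ (l i), fun i => hr _ _ (hl1 i), ?_⟩
      rw [← hp2]
      refine (hfix _ p hp1 (∑ i, l i * w i) ?_ ?_).trans (by simp)
      · refine Submodule.sum_mem _ fun i _ => ?_
        have := HH_mul (hl1 i) (hw1 i) (disjoint_sdiff.mono_left (erase_subset _ _))
        convert this using 2
        ext j
        simp only [mem_erase, mem_union, mem_sdiff]
        constructor
        · rintro ⟨a, b⟩
          by_cases h : j ∈ A i
          · exact Or.inl ⟨a, h⟩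
          · exact Or.inr ⟨b, h⟩
        · rintro (⟨a, b⟩ | ⟨a, b⟩)
          · exact ⟨a, b2 i b⟩
          · exact ⟨fun h => b (h ▸ b1 i), a⟩
      · refine hp2.trans ?_
        rw [← hg, map_sum, map_sum]
        refine sum_congr rfl fun i _ => ?_
        rw [b6, map_mul, map_mul, ← hl2 i,
          DD_of_notMem y (b5 i) (fun h => (mem_sdiff.1 h).2 (b1 i)), ← hw2 i]
        rfl
  choose w hw1 hw2 using fun i I => G.surj I (ha i I)
  obtain ⟨p, hp1, hp2⟩ := hsurj _ hT
  refine ⟨fun i I => aeval ψ (w i I), fun i I => hr _ _ (hw1 i I), ?_⟩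
  rw [← hp2]
  refine (hfix _ p hp1 (∑ i, ∏ I ∈ (P i).parts, w i I) ?_ ?_).trans (by simp)
  · refine Submodule.sum_mem _ fun i _ => ?_
    have := HH_prod (P i).parts (w i) (fun I _ => hw1 i I) (P i).disjoint
    rwa [(P i).sup_parts] at this
  · refine hp2.trans ?_
    simp only [map_sum, map_prod]
    exact sum_congr rfl fun i _ => prod_congr rfl fun I _ => (hw2 i I).symm

end Pool.Agent.H19Free
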