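import Mathlib
import Pool.Agent.Lib.helper19.Free2

set_option autoImplicit false

namespace Pool.Agent.H19Free

open Finset Filter

theorem exists_ultraproduct {Λ : Type} (F : Λ → Type) [∀ l, Field (F l)] (W : Ultrafilter Λ) :
    ∃ (K : Type) (_ : Field K) (mk : (∀ l, F l) →+* K), Function.Surjective mk ∧
      ∀ f, mk f = 0 ↔ ∀ᶠ l in (W : Filter Λ), f l = 0 := by
  let m : Ideal (∀ l, F l) :=
    { carrier := {f | ∀ᶠ l in (W : Filter Λ), f l = 0}
      zero_mem' := Eventually.of_forall fun _ => rfl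
      add_mem' := fun hf hg => (hf.and hg).mono fun l h => by simp [h.1, h.2]
      smul_mem' := fun c f hf => hf.mono fun l h => by simp [h] }
  have hm : ∀ f, f ∈ m ↔ ∀ᶠ l in (W : Filter Λ), f l = 0 := fun _ => Iff.rfl
  have hmax : m.IsMaximal := by
    rw [Ideal.isMaximal_iff]
    refine ⟨fun h => ?_, fun J x hJ hx hxJ => ?_⟩
    · obtain ⟨l, hl⟩ := ((hm 1).1 h).exists
      simp at hl
    · rw [hm, ← Ultrafilter.eventually_not] at hx
      have h1 : 1 - x⁻¹ * x ∈ m := (hm _).2 (hx.mono fun l hl => by simp [hl])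
      have := J.add_mem (hJ h1) (J.mul_mem_left x⁻¹ hxJ)
      simpa using this
  exact ⟨_, Ideal.Quotient.field m, Ideal.Quotient.mk m, Ideal.Quotient.mk_surjective,
    fun f => Ideal.Quotient.eq_zero_iff_mem⟩

section

variable {ι : Type} {F : ℕ → Type} [∀ N, Field (F N)] {Q : ℕ → ι → Type}
  {K : Type} [Field K]

/-- internal functions -/
def intH (Q : ℕ → ι → Type) (j : (∀ N, F N) →+* K) :
    (∀ N, (∀ α, Q N α) → F N) →+* ((∀ α, ∀ N, Q N α) → K) where
  toFun := fun φ x => j fun N => φ N fun α => x α N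
  map_one' := funext fun _ => map_one j
  map_mul' := fun _ _ => funext fun _ => map_mul j _ _
  map_zero' := funext fun _ => map_zero j
  map_add' := fun _ _ => funext fun _ => map_add j _ _

lemma intH_apply (j : (∀ N, F N) →+* K) (φ : ∀ N, (∀ α, Q N α) → F N) (x : ∀ α, ∀ N, Q N α) :
    intH Q j φ x = j fun N => φ N fun α => x α N := rfl

/-- internal functions depending on `I` -/
def Int (Q : ℕ → ι → Type) (j : (∀ N, F N) →+* K) (I : Finset ι) :
    Set ((∀ α, ∀ N, Q N α) → K) :=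
  {f | ∃ φ : ∀ N, (∀ α, Q N α) → F N, (∀ N, DependsOn (φ N) (I : Set ι)) ∧ f = intH Q j φ}

/-- span of internal functions -/
def BB (Q : ℕ → ι → Type) (j : (∀ N, F N) →+* K) (I : Finset ι) :
    Submodule K ((∀ α, ∀ N, Q N α) → K) := Submodule.span K (Int Q j I)

variable {U : Ultrafilter ℕ} {j : (∀ N, F N) →+* K}

lemma los [∀ N α, Nonempty (Q N α)] (hj : ∀ c, j c = 0 ↔ ∀ᶠ N in (U : Filter ℕ), c N = 0)
    (φ : ∀ N, (∀ α, Q N α) → F N) : intH Q j φ = 0 ↔ ∀ᶠ N in (U : Filter ℕ), φ N = 0 := by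
  constructor
  · intro h
    have : ∀ N, ∃ z : ∀ α, Q N α, φ N z = 0 → φ N = 0 := by
      intro N
      by_cases h0 : φ N = 0
      · exact ⟨Classical.arbitrary _, fun _ => h0⟩
      · obtain ⟨z, hz⟩ := Function.ne_iff.1 h0
        exact ⟨z, fun h => absurd h hz⟩
    choose z hz using this
    have := congrFun h (fun α N => z N α)
    rw [intH_apply, Pi.zero_apply, hj] at this
    exact this.mono fun N hN => hz N hN
  · intro h
    funext x
    rw [intH_apply, Pi.zero_apply, hj]
    exact h.mono fun N hN => by rw [hN]; rfl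

/-- the subfield of internal scalars -/
def sub (hj : ∀ c, j c = 0 ↔ ∀ᶠ N in (U : Filter ℕ), c N = 0) : Subfield K :=
  { j.range with
    inv_mem' := by
      rintro _ ⟨c, rfl⟩
      refine ⟨c⁻¹, ?_⟩
      by_cases h : j c = 0
      · rw [h, inv_zero, hj]
        exact ((hj c).1 h).mono fun N hN => by simp [hN]
      · have h2 := h
        rw [hj, ← Ultrafilter.eventually_not] at h2
        have : j (c * c⁻¹ - 1) = 0 := (hj _).2 (h2.mono fun N hN => by simp [hN])
        rw [map_sub, map_mul, map_one, sub_eq_zero] at this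
        exact (eq_inv_of_mul_eq_one_right this) }

lemma mem_sub (hj : ∀ c, j c = 0 ↔ ∀ᶠ N in (U : Filter ℕ), c N = 0) (a : K) :
    a ∈ sub hj ↔ ∃ c, j c = a := Iff.rfl

lemma theta {X : Type} (L : Subfield K) (M : Set (X → K)) (h0 : 0 ∈ M)
    (hadd : ∀ f ∈ M, ∀ g ∈ M, f + g ∈ M) (hval : ∀ f ∈ M, ∀ x, f x ∈ L)
    (hsm : ∀ f ∈ M, ∀ c ∈ L, c • f ∈ M) (θ : K →ₗ[L] L) {f : X → K}
    (hf : f ∈ Submodule.span K M) : (fun x => (θ (f x) : K)) ∈ M := by
  suffices ∀ c : K, (fun x => (θ (c * f x) : K)) ∈ M by simpa using this 1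
  induction hf using Submodule.span_induction with
  | zero => intro c; convert h0 using 1; funext x; simp
  | add a b _ _ ha hb =>
    intro c
    have := hadd _ (ha c) _ (hb c)
    convert this using 1
    funext x; simp [mul_add]
  | smul a f _ hf =>
    intro c
    have := hf (c * a)
    simpa [mul_assoc] using this
  | mem f hf =>
    intro c
    have := hsm f hf (θ c) (θ c).2
    convert this using 1
    funext x
    have e : c * f x = (⟨f x, hval f hf x⟩ : L) • c := by
      rw [mul_comm]; rfl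
    rw [e, map_smul]
    simp [mul_comm]

lemma recon {X : Type} (L : Subfield K) (M : Set (X → K)) (hval : ∀ f ∈ M, ∀ x, f x ∈ L)
    (P : Submodule K (X → K)) {f : X → K} (hf : f ∈ Submodule.span K M)
    (h : ∀ θ : K →ₗ[L] L, (fun x => (θ (f x) : K)) ∈ P) : f ∈ P := by
  classical
  obtain ⟨b, hb⟩ : ∃ b, b = Module.Basis.ofVectorSpace L K := ⟨_, rfl⟩
  have hW : ∀ c : K, ∃ W : Finset (Module.Basis.ofVectorSpaceIndex L K),
      ∀ x, (b.repr (c * f x)).support ⊆ W := by
    clear h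
    induction hf using Submodule.span_induction with
    | zero => intro c; exact ⟨∅, by simp⟩
    | add f g _ _ hf hg =>
      intro c
      obtain ⟨W, hW⟩ := hf c
      obtain ⟨W', hW'⟩ := hg c
      refine ⟨W ∪ W', fun x => ?_⟩
      rw [Pi.add_apply, mul_add, map_add]
      exact Finsupp.support_add.trans (union_subset_union (hW x) (hW' x))
    | smul a f _ hf =>
      intro c
      obtain ⟨W, hW⟩ := hf (c * a)
      exact ⟨W, fun x => by simpa [mul_assoc] using hW x⟩
    | mem f hf =>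
      intro c
      refine ⟨(b.repr c).support, fun x => ?_⟩
      have e : c * f x = (⟨f x, hval f hf x⟩ : L) • c := by
        rw [mul_comm]; rfl
      rw [e, map_smul]
      exact Finsupp.support_smul
  obtain ⟨W, hW⟩ := hW 1
  have : f = ∑ i ∈ W, b i • fun x => (b.coord i (f x) : K) := by
    funext x
    have e := b.linearCombination_repr (f x)
    rw [Finsupp.linearCombination_apply, Finsupp.sum_of_support_subset _ (by simpa using hW x) _
      (by simp)] at e
    rw [← e, Finset.sum_apply]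
    refine sum_congr rfl fun i _ => ?_
    simp [Subfield.smul_def, mul_comm]
  rw [this]
  exact P.sum_mem fun i _ => P.smul_mem _ (h _)

variable [DecidableEq ι]

omit [DecidableEq ι] in
lemma BB_le (I : Finset ι) : BB Q j I ≤ EE K (fun α => ∀ N, Q N α) I := by
  rw [BB, Submodule.span_le]
  rintro _ ⟨φ, hφ, rfl⟩ x y h
  rw [intH_apply, intH_apply]
  congr 1
  funext N
  exact hφ N fun i hi => by rw [h i hi]

omit [DecidableEq ι] in
lemma BB_one : 1 ∈ BB Q j ∅ :=
  Submodule.subset_span ⟨1, fun _ _ _ _ => rfl, (map_one _).symm⟩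

lemma BB_mul (I J : Finset ι) (u v : (∀ α, ∀ N, Q N α) → K) (hu : u ∈ BB Q j I)
    (hv : v ∈ BB Q j J) : u * v ∈ BB Q j (I ∪ J) := by
  induction hu using Submodule.span_induction with
  | zero => simp
  | add a b _ _ ha hb => rw [add_mul]; exact add_mem ha hb
  | smul c a _ ha => rw [smul_mul_assoc]; exact Submodule.smul_mem _ _ ha
  | mem a ha =>
    induction hv using Submodule.span_induction with
    | zero => simp
    | add a b _ _ ha hb => rw [mul_add]; exact add_mem ha hb
    | smul c a _ ha => rw [mul_smul_comm]; exact Submodule.smul_mem _ _ ha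
    | mem b hb =>
      obtain ⟨φ, hφ, rfl⟩ := ha
      obtain ⟨ψ, hψ, rfl⟩ := hb
      exact Submodule.subset_span ⟨φ * ψ, fun N =>
        EE_mul (K := F N) (Y := Q N) (hφ N) (hψ N), (map_mul _ _ _).symm⟩

lemma DD_int (α : ι) (y : ∀ N, Q N α) (φ : ∀ N, (∀ α, Q N α) → F N) :
    DD K (Y := fun α => ∀ N, Q N α) α y (intH Q j φ) = intH Q j fun N => DD (F N) α (y N) (φ N) := by
  funext x
  rw [DD_apply, intH_apply, intH_apply]
  congr 1
  funext N
  rw [DD_apply]
  congr 1
  funext β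
  exact Function.apply_update (fun β (g : ∀ N, Q N β) => g N) x α y β

lemma BB_DD (I : Finset ι) (α : ι) (y : ∀ N, Q N α) (u : (∀ α, ∀ N, Q N α) → K)
    (hu : u ∈ BB Q j I) : DD K (Y := fun α => ∀ N, Q N α) α y u ∈ BB Q j (I.erase α) := by
  induction hu using Submodule.span_induction with
  | zero => simp
  | add a b _ _ ha hb => rw [map_add]; exact add_mem ha hb
  | smul c a _ ha => rw [map_smul]; exact Submodule.smul_mem _ _ ha
  | mem a ha =>
    obtain ⟨φ, hφ, rfl⟩ := ha
    exact Submodule.subset_span ⟨_, fun N => DD_mem (K := F N) (Y := Q N) α (y N) (hφ N),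
      DD_int α y φ⟩

omit [DecidableEq ι] in
lemma smul_int (c : ∀ N, F N) (φ : ∀ N, (∀ α, Q N α) → F N) :
    j c • intH Q j φ = intH Q j fun N => c N • φ N := by
  funext x
  rw [Pi.smul_apply, intH_apply, intH_apply, smul_eq_mul, ← map_mul]
  rfl

lemma BB_locGlob [∀ N α, Nonempty (Q N α)]
    (hj : ∀ c, j c = 0 ↔ ∀ᶠ N in (U : Filter ℕ), c N = 0) : LocGlob (BB Q j) := by
  classical
  intro J α t ht κ _ A g hg hy
  choose n c γ hγ using fun i => Submodule.mem_span_set'.1 (hg i).2.2.2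
  choose φ hφ1 hφ2 using fun i m => (γ i m).2
  refine recon (sub hj) (Int Q j J) (by rintro _ ⟨ψ, -, rfl⟩ x; exact ⟨_, rfl⟩) _ ht fun θ => ?_
  obtain ⟨τ, hτ1, hτ2⟩ := theta (sub hj) (Int Q j J)
    ⟨0, fun _ _ _ _ => rfl, (map_zero _).symm⟩
    (by
      rintro _ ⟨ψ, h1, rfl⟩ _ ⟨ψ', h2, rfl⟩
      exact ⟨ψ + ψ', fun N => (EE (F N) (Q N) J).add_mem (h1 N) (h2 N), (map_add _ _ _).symm⟩)
    (by rintro _ ⟨ψ, -, rfl⟩ x; exact ⟨_, rfl⟩)
    (by
      rintro _ ⟨ψ, h1, rfl⟩ _ ⟨c, rfl⟩
      exact ⟨_, fun N => (EE (F N) (Q N) J).smul_mem (c N) (h1 N), smul_int c ψ⟩) θ ht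
  obtain ⟨M, hM⟩ : ∃ M : Set ((∀ α, ∀ N, Q N α) → K), ∀ f, f ∈ M ↔
      ∃ η : (Σ i, Fin (n i)) → ∀ N, (∀ α, Q N α) → F N,
        (∀ im N, DependsOn (η im N) ((A im.1).erase α : Set ι)) ∧
        f = intH Q j (∑ im, η im * φ im.1 im.2) := ⟨{f | _}, fun _ => Iff.rfl⟩
  have hM0 : 0 ∈ M := (hM _).2 ⟨0, fun _ _ _ _ _ => rfl, by simp⟩
  have key : ∀ y : ∀ N, Q N α, ∃ η : (Σ i, Fin (n i)) → ∀ N, (∀ α, Q N α) → F N,
      (∀ im N, DependsOn (η im N) ((A im.1).erase α : Set ι)) ∧
      ∀ᶠ N in (U : Filter ℕ), DD (F N) α (y N) (τ N) = ∑ im, η im N * φ im.1 im.2 N := by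
    intro y
    obtain ⟨h, hh1, hh2⟩ := hy y
    have a1 : DD K (Y := fun α => ∀ N, Q N α) α y t ∈ Submodule.span K M := by
      rw [hh2]
      refine Submodule.sum_mem _ fun i _ => ?_
      rw [← hγ i, mul_sum]
      refine Submodule.sum_mem _ fun m _ => ?_
      rw [mul_smul_comm, hφ2]
      refine Submodule.smul_mem _ _ ?_
      have := hh1 i
      generalize h i = u at this
      induction this using Submodule.span_induction with
      | zero => simp
      | add a b _ _ ha hb => rw [add_mul]; exact add_mem ha hb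
      | smul c a _ ha => rw [smul_mul_assoc]; exact Submodule.smul_mem _ _ ha
      | mem a ha =>
        obtain ⟨ψ, h1, rfl⟩ := ha
        refine Submodule.subset_span ((hM _).2 ⟨Pi.single ⟨i, m⟩ ψ, fun im N => ?_, ?_⟩)
        · by_cases him : im = ⟨i, m⟩
          · subst him; simpa using h1 N
          · rw [Pi.single_eq_of_ne him]; exact fun _ _ _ => rfl
        · rw [sum_eq_single ⟨i, m⟩]
          · simp
          · intro b _ hb; simp [hb]
          · simp
    have a2 := theta (sub hj) M hM0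
      (by
        intro f hf f' hf'
        obtain ⟨η, h1, rfl⟩ := (hM _).1 hf
        obtain ⟨η', h2, rfl⟩ := (hM _).1 hf'
        refine (hM _).2 ⟨η + η', fun im N =>
          (EE (F N) (Q N) ((A im.1).erase α)).add_mem (h1 im N) (h2 im N), ?_⟩
        rw [← map_add, ← sum_add_distrib]
        simp [add_mul])
      (by
        intro f hf x
        obtain ⟨η, -, rfl⟩ := (hM _).1 hf
        exact ⟨_, rfl⟩)
      (by
        rintro f hf _ ⟨c, rfl⟩
        obtain ⟨η, h1, rfl⟩ := (hM _).1 hf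
        refine (hM _).2 ⟨fun im N => c N • η im N, fun im N =>
          (EE (F N) (Q N) ((A im.1).erase α)).smul_mem (c N) (h1 im N), ?_⟩
        rw [smul_int]
        congr 1
        funext N
        simp [smul_sum]) θ a1
    obtain ⟨η, h1, h2⟩ := (hM _).1 a2
    refine ⟨η, h1, ?_⟩
    have a3 : intH Q j ((fun N => DD (F N) α (y N) (τ N)) - ∑ im, η im * φ im.1 im.2) = 0 := by
      rw [map_sub, ← h2, ← DD_int, ← hτ2, sub_eq_zero]
      rfl
    refine ((los hj _).1 a3).mono fun N hN => ?_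
    simpa [sub_eq_zero] using hN
  obtain ⟨good, hgood⟩ : ∃ good : ∀ N, Q N α → Prop, ∀ N y, good N y ↔
      ∃ η : (Σ i, Fin (n i)) → (∀ α, Q N α) → F N,
        (∀ im, DependsOn (η im) ((A im.1).erase α : Set ι)) ∧
        DD (F N) α y (τ N) = ∑ im, η im * φ im.1 im.2 N := ⟨_, fun _ _ => Iff.rfl⟩
  have hall : ∀ᶠ N in (U : Filter ℕ), ∀ y, good N y := by
    have : ∀ N, ∃ y : Q N α, good N y → ∀ y', good N y' := by
      intro N
      by_cases h : ∀ y', good N y'
      · exact ⟨Classical.arbitrary _, fun _ => h⟩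
      · push Not at h
        obtain ⟨y, hy⟩ := h
        exact ⟨y, fun h => absurd h hy⟩
    choose y hy using this
    obtain ⟨η, h1, h2⟩ := key y
    exact h2.mono fun N hN => hy N ((hgood _ _).2 ⟨fun im => η im N, fun im => h1 im N, hN⟩)
  have hch : ∀ N (y : Q N α), ∃ η : (Σ i, Fin (n i)) → (∀ α, Q N α) → F N,
      (∀ im, DependsOn (η im) ((A im.1).erase α : Set ι)) ∧
      (good N y → DD (F N) α y (τ N) = ∑ im, η im * φ im.1 im.2 N) := by
    intro N y
    by_cases h : good N y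
    · obtain ⟨η, h1, h2⟩ := (hgood _ _).1 h
      exact ⟨η, h1, fun _ => h2⟩
    · exact ⟨0, fun _ _ _ _ => rfl, fun h' => absurd h' h⟩
  choose η hη1 hη2 using hch
  have a4 : intH Q j (τ - ∑ im : (Σ i, Fin (n i)),
      (fun N z => η N (z α) im z) * φ im.1 im.2) = 0 := by
    refine (los hj _).2 (hall.mono fun N hN => ?_)
    funext z
    have := congrFun (hη2 N (z α) (hN _)) z
    rw [DD_apply, Function.update_eq_self] at this
    simp [this]
  rw [map_sub, sub_eq_zero, map_sum] at a4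
  rw [hτ2, a4]
  refine Submodule.sum_mem _ fun im _ => ?_
  rw [map_mul]
  refine Submodule.subset_span ⟨A im.1, (hg _).2.1, ⟨α, (hg _).1⟩, (hg _).2.2.1,
    _, Submodule.subset_span ⟨_, fun N z z' hz => ?_, rfl⟩,
    _, Submodule.subset_span ⟨_, hφ1 im.1 im.2, rfl⟩, rfl⟩
  rw [hz α (hg _).1]
  exact hη1 N _ im fun i hi => hz i (mem_of_mem_erase hi)

end

end Pool.Agent.H19Free
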