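import Mathlib

set_option autoImplicit false

namespace Pool.Agent.H19Annular
open Real Set Metric Filter Topology

/-- The open unit disc. -/
abbrev D : Set ℂ := Metric.ball (0:ℂ) 1

/-- A continuous function on the disc is holomorphic. -/
def Hol (f : C(D, ℂ)) : Prop := ∃ F : ℂ → ℂ, DifferentiableOn ℂ F D ∧ ∀ z : D, f z = F z

/-- Strongly annular: `limsup_{r → 1⁻} min_{|z| = r} |f z| = +∞`. -/
def StronglyAnnular (f : C(D, ℂ)) : Prop :=
  ∀ K r₀ : ℝ, r₀ < 1 → ∃ r : ℝ, r₀ < r ∧ r < 1 ∧ ∀ z : D, ‖(z : ℂ)‖ = r → K ≤ ‖f z‖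

def N : ℕ → ℕ
  | 0 => 1
  | s + 1 => 2 ^ (s + 1) * (N s + 2 * (s + 1))

lemma N_mono : StrictMono N := by
  refine strictMono_nat_of_lt_succ (fun s => ?_)
  have : 1 ≤ 2 ^ (s + 1) := Nat.one_le_two_pow
  rw [N]; nlinarith

lemma N_ge (s : ℕ) : 2 ^ s ≤ N s ∧ 2 ^ s * (2 * s) ≤ N s := by
  cases s with
  | zero => simp [N]
  | succ s =>
    rw [N]
    exact ⟨Nat.le_mul_of_pos_right _ (by omega), Nat.mul_le_mul_left _ (by omega)⟩

lemma N_pos (s : ℕ) : (0:ℝ) < N s := by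
  have := (N_ge s).1
  have h : 0 < 2 ^ s := by positivity
  exact_mod_cast h.trans_le this

lemma annular (b : ℕ → ℂ) (h1 : ∀ ε > 0, ∀ᶠ s in atTop, ‖b s‖ ≤ exp (ε * N s))
    (h2 : ∀ s0, ∃ s ≥ s0, exp (4 / 2 ^ s * N s) < ‖b s‖) (K r0 : ℝ) (hr0 : r0 < 1) :
    ∃ r, r0 < r ∧ r < 1 ∧ ∀ z v : ℂ, ‖z‖ = r → HasSum (fun s => b s * z ^ N s) v → K ≤ ‖v‖ := by
  obtain ⟨S, hS⟩ := eventually_atTop.1 (h1 1 one_pos)
  obtain ⟨C, hC⟩ : ∃ C, C = 1 + ∑ s ∈ Finset.range S, ‖b s‖ := ⟨_, rfl⟩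
  have hsum : 0 ≤ ∑ s ∈ Finset.range S, ‖b s‖ := Finset.sum_nonneg (fun _ _ => norm_nonneg _)
  have hC1 : 1 ≤ C := by linarith
  have hCb : ∀ s, ‖b s‖ ≤ C * exp (N s) := by
    intro s
    have he : 1 ≤ exp (N s) := one_le_exp (N_pos s).le
    by_cases hs : S ≤ s
    · have := hS s hs
      rw [one_mul] at this
      nlinarith
    · have := Finset.single_le_sum (f := fun s => ‖b s‖) (fun _ _ => norm_nonneg _)
        (Finset.mem_range.2 (not_le.1 hs))
      nlinarith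
  obtain ⟨θ, hθ⟩ : ∃ θ : ℕ → ℝ, θ = fun s => log (max 1 ‖b s‖) / N s := ⟨_, rfl⟩
  have hθe : ∀ s, exp (θ s * N s) = max 1 ‖b s‖ := by
    intro s
    rw [hθ]; beta_reduce
    rw [div_mul_cancel₀ _ (N_pos s).ne', exp_log (lt_max_of_lt_left one_pos)]
  have hθl : ∀ ε > 0, ∀ᶠ s in atTop, θ s ≤ ε := by
    intro ε hε
    filter_upwards [h1 ε hε] with s hs
    have : exp (θ s * N s) ≤ exp (ε * N s) := by
      rw [hθe]; exact max_le (one_le_exp (mul_pos hε (N_pos s)).le) hs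
    exact le_of_mul_le_mul_right (exp_le_exp.1 this) (N_pos s)
  have hm : 0 < max r0 (1 / 2) := lt_max_of_lt_right (by norm_num)
  have hε : 0 < -log (max r0 (1 / 2)) := neg_pos.2 (log_neg hm (max_lt hr0 (by norm_num)))
  obtain ⟨S1, hS1⟩ := eventually_atTop.1 (hθl _ hε)
  obtain ⟨S2, hS2⟩ := exists_nat_ge (C + |K|)
  obtain ⟨s2, hs2, hb2⟩ := h2 (max S1 S2)
  have hφ2 : 0 < θ s2 - 4 / 2 ^ s2 := by
    have : exp (4 / 2 ^ s2 * N s2) < exp (θ s2 * N s2) := by
      rw [hθe]; exact lt_max_of_lt_right hb2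
    have := lt_of_mul_lt_mul_right (exp_lt_exp.1 this) (N_pos s2).le
    linarith
  obtain ⟨S3, hS3⟩ := eventually_atTop.1 (hθl _ hφ2)
  obtain ⟨s, hs, hmax⟩ := Finset.exists_max_image (Finset.Icc (max S1 S2) (max S3 s2))
    (fun s => θ s - 4 / 2 ^ s) ⟨s2, Finset.mem_Icc.2 ⟨hs2, le_max_right _ _⟩⟩
  have hs0 := (Finset.mem_Icc.1 hs).1
  have hφ : θ s2 - 4 / 2 ^ s2 ≤ θ s - 4 / 2 ^ s :=
    hmax s2 (Finset.mem_Icc.2 ⟨hs2, le_max_right _ _⟩)
  have hall : ∀ s', s ≤ s' → θ s' - 4 / 2 ^ s' ≤ θ s - 4 / 2 ^ s := by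
    intro s' hs'
    by_cases h : s' ≤ max S3 s2
    · exact hmax s' (Finset.mem_Icc.2 ⟨hs0.trans hs', h⟩)
    · have := hS3 s' ((le_max_left _ _).trans (not_le.1 h).le)
      have : (0:ℝ) < 4 / 2 ^ s' := by positivity
      linarith
  have hτ : (0:ℝ) < 1 / 2 ^ s := by positivity
  have hτ4 : (4:ℝ) / 2 ^ s = 4 * (1 / 2 ^ s) := by ring
  have hsK : C + |K| ≤ s := hS2.trans (by exact_mod_cast (le_max_right _ _).trans hs0)
  refine ⟨exp (-(θ s - 1 / 2 ^ s)), ?_, exp_lt_one_iff.2 (by linarith), fun z v hz hv => ?_⟩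
  · have := hS1 s ((le_max_left _ _).trans hs0)
    calc r0 ≤ max r0 (1 / 2) := le_max_left _ _
      _ = exp (log (max r0 (1 / 2))) := (exp_log hm).symm
      _ < _ := exp_lt_exp.2 (by linarith)
  have hz1 : ‖z‖ ≤ 1 := by rw [hz]; exact exp_le_one_iff.2 (by linarith)
  have hmain : ‖b s * z ^ N s‖ = exp (N s / 2 ^ s) := by
    have e1 : ‖b s‖ = exp (θ s * N s) := by
      have h3 : 1 < exp (θ s * N s) := one_lt_exp_iff.2 (mul_pos (by linarith) (N_pos s))
      rw [hθe] at h3 ⊢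
      exact (max_eq_right (le_of_lt ((lt_max_iff.1 h3).resolve_left (lt_irrefl _)))).symm
    rw [norm_mul, norm_pow, hz, e1, ← exp_nat_mul, ← exp_add]; congr 1; ring
  have hlate : ∀ i, ‖b (i + (s + 1)) * z ^ N (i + (s + 1))‖ ≤ 1 / 2 / 2 ^ i := by
    intro i
    have e1 : ‖b (i + (s + 1))‖ ≤ exp (θ (i + (s + 1)) * N (i + (s + 1))) := by
      rw [hθe]; exact le_max_right _ _
    have e2 := hall (i + (s + 1)) (by omega)
    have e3 : (4:ℝ) / 2 ^ (i + (s + 1)) ≤ 2 * (1 / 2 ^ s) := by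
      have : (2:ℝ) ^ (s + 1) ≤ 2 ^ (i + (s + 1)) := pow_le_pow_right₀ one_le_two (by omega)
      calc _ ≤ (4:ℝ) / 2 ^ (s + 1) := div_le_div_of_nonneg_left (by norm_num) (by positivity) this
        _ = _ := by rw [pow_succ]; field_simp; norm_num
    have e4 : ((i + 1 : ℕ):ℝ) ≤ 1 / 2 ^ s * N (i + (s + 1)) := by
      have a1 : (i + 1) * 2 ^ s ≤ N (i + (s + 1)) := by
        refine le_trans ?_ (N_ge _).1
        rw [show i + (s + 1) = (i + 1) + s by ring, pow_add]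
        exact Nat.mul_le_mul_right _ Nat.lt_two_pow_self.le
      rw [one_div_mul_eq_div, le_div_iff₀ (by positivity)]
      exact_mod_cast a1
    rw [norm_mul, norm_pow, hz, ← exp_nat_mul]
    refine (mul_le_mul_of_nonneg_right e1 (exp_pos _).le).trans ?_
    rw [← exp_add]
    have e5 : θ (i + (s + 1)) * N (i + (s + 1)) + N (i + (s + 1)) * -(θ s - 1 / 2 ^ s)
        ≤ ((i + 1 : ℕ):ℝ) * (-1) := by
      have := mul_le_mul_of_nonneg_right
        (show θ (i + (s + 1)) - (θ s - 1 / 2 ^ s) ≤ -(1 / 2 ^ s) by linarith) (N_pos (i + (s + 1))).le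
      linarith
    refine (exp_le_exp.2 e5).trans ?_
    rw [exp_nat_mul, show (1:ℝ) / 2 / 2 ^ i = (1 / 2) ^ (i + 1) by rw [pow_succ, one_div_pow]; ring]
    refine pow_le_pow_left₀ (exp_pos _).le ?_ _
    rw [exp_neg, one_div]
    exact inv_anti₀ two_pos (by linarith [add_one_le_exp (1:ℝ)])
  have htail := ((hasSum_nat_add_iff' (s + 1)).2 hv).norm_le_of_bounded (hasSum_geometric_two' 1) hlate
  obtain ⟨u, rfl⟩ : ∃ u, s = u + 1 := by
    refine ⟨s - 1, ?_⟩
    have : (0:ℝ) < s := by linarith [abs_nonneg K]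
    have : 0 < s := by exact_mod_cast this
    omega
  have hearly : ‖∑ i ∈ Finset.range (u + 1), b i * z ^ N i‖ ≤ ((u + 1 : ℕ):ℝ) * (C * exp (N u)) := by
    refine (norm_sum_le _ _).trans ?_
    have := Finset.sum_le_card_nsmul (Finset.range (u + 1)) (fun i => ‖b i * z ^ N i‖)
      (C * exp (N u)) (fun i hi => by
        rw [norm_mul, norm_pow]
        refine (mul_le_of_le_one_right (norm_nonneg _) (pow_le_one₀ (norm_nonneg _) hz1)).trans ?_
        refine (hCb i).trans (mul_le_mul_of_nonneg_left (exp_le_exp.2 ?_) (by linarith))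
        exact_mod_cast N_mono.monotone (Nat.lt_succ_iff.1 (Finset.mem_range.1 hi)))
    rwa [Finset.card_range, nsmul_eq_mul] at this
  rw [Finset.sum_range_succ] at htail
  have e6 : ((N (u + 1) : ℕ):ℝ) / 2 ^ (u + 1) = N u + 2 * ((u + 1 : ℕ):ℝ) := by
    rw [N]; push_cast; field_simp
  rw [e6, exp_add] at hmain
  have e7 : b (u + 1) * z ^ N (u + 1) = v - (v - (∑ i ∈ Finset.range (u + 1), b i * z ^ N i
      + b (u + 1) * z ^ N (u + 1))) - ∑ i ∈ Finset.range (u + 1), b i * z ^ N i := by ring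
  have e8 := hmain.symm.le
  rw [e7] at e8
  have e9 := e8.trans ((norm_sub_le _ _).trans (add_le_add (norm_sub_le _ _) hearly))
  have q1 := quadratic_le_exp_of_nonneg (x := 2 * ((u + 1 : ℕ):ℝ)) (by positivity)
  have q2 : 1 ≤ exp (N u) := one_le_exp (N_pos u).le
  have q3 := le_abs_self K
  have q4 := abs_nonneg K
  generalize ((u + 1 : ℕ):ℝ) = x at *
  have q5 : 1 + |K| ≤ exp (2 * x) - x * C := by nlinarith
  have q6 := mul_le_mul q2 q5 (by linarith) (exp_pos _).le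
  nlinarith

open Classical in
noncomputable def ext (f : C(D, ℂ)) (z : ℂ) : ℂ := if h : z ∈ D then f ⟨z, h⟩ else 0

lemma ext_coe (f : C(D, ℂ)) (z : D) : ext f z = f z := by simp [ext, z.2]

lemma ext_add (f g : C(D, ℂ)) : ext (f + g) = ext f + ext g := by
  funext z; by_cases h : z ∈ D <;> simp [ext, h]

lemma ext_smul (c : ℂ) (f : C(D, ℂ)) : ext (c • f) = c • ext f := by
  funext z; by_cases h : z ∈ D <;> simp [ext, h]

noncomputable def co (n : ℕ) (f : C(D, ℂ)) : ℂ := iteratedDeriv n (ext f) 0 / (n.factorial : ℂ)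

lemma cd {F : ℂ → ℂ} (hF : DifferentiableOn ℂ F D) (n : ℕ) : ContDiffAt ℂ n F 0 :=
  (hF.analyticAt (ball_mem_nhds 0 one_pos)).contDiffAt

lemma co_add {f g : C(D, ℂ)} (hf : DifferentiableOn ℂ (ext f) D) (hg : DifferentiableOn ℂ (ext g) D)
    (n : ℕ) : co n (f + g) = co n f + co n g := by
  unfold co; rw [ext_add, iteratedDeriv_add (cd hf n) (cd hg n), add_div]

lemma co_smul (c : ℂ) {f : C(D, ℂ)} (hf : DifferentiableOn ℂ (ext f) D) (n : ℕ) :
    co n (c • f) = c * co n f := by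
  unfold co; rw [ext_smul, iteratedDeriv_const_smul (cd hf n), smul_eq_mul, mul_div_assoc]

noncomputable def a (s : ℕ) : ℂ := ((exp (N s / (s + 1)) : ℝ) : ℂ)

lemma a_norm (s : ℕ) : ‖a s‖ = exp (N s / (s + 1)) := by
  unfold a; rw [Complex.norm_real, Real.norm_eq_abs, abs_of_pos (exp_pos _)]

lemma a_ne (s : ℕ) : a s ≠ 0 := norm_pos_iff.1 (by rw [a_norm]; exact exp_pos _)

noncomputable def M : Submodule ℂ C(D, ℂ) where
  carrier := {f | DifferentiableOn ℂ (ext f) D ∧ (∀ n, n ∉ range N → co n f = 0) ∧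
    ∀ s t, (Nat.unpair s).1 = (Nat.unpair t).1 → co (N s) f * a t = co (N t) f * a s}
  add_mem' := by
    rintro f g ⟨hf, f1, f2⟩ ⟨hg, g1, g2⟩
    refine ⟨by rw [ext_add]; exact hf.add hg, fun n hn => ?_, fun s t h => ?_⟩
    · rw [co_add hf hg, f1 n hn, g1 n hn, add_zero]
    · rw [co_add hf hg, co_add hf hg, add_mul, add_mul, f2 s t h, g2 s t h]
  zero_mem' := by
    have : ext 0 = 0 := by funext z; simp [ext]
    have h0 : ∀ n, co n 0 = 0 := fun n => by simp [co, this]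
    exact ⟨by rw [this]; exact differentiableOn_const 0, fun n _ => h0 n, fun s t _ => by simp [h0]⟩
  smul_mem' := by
    rintro c f ⟨hf, f1, f2⟩
    refine ⟨by rw [ext_smul]; exact hf.const_smul c, fun n hn => ?_, fun s t h => ?_⟩
    · rw [co_smul c hf, f1 n hn, mul_zero]
    · rw [co_smul c hf, co_smul c hf, mul_assoc, mul_assoc, f2 s t h]

lemma iter_lim {ι : Type*} {φ : Filter ι} {F : ι → ℂ → ℂ} {f : ℂ → ℂ}
    (h : TendstoLocallyUniformlyOn F f φ D) (hF : ∀ᶠ i in φ, DifferentiableOn ℂ (F i) D) (n : ℕ) :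
    TendstoLocallyUniformlyOn (fun i => iteratedDeriv n (F i)) (iteratedDeriv n f) φ D ∧
      ∀ᶠ i in φ, DifferentiableOn ℂ (iteratedDeriv n (F i)) D := by
  induction n with
  | zero => simpa using ⟨h, hF⟩
  | succ n ih =>
    simp only [iteratedDeriv_succ]
    exact ⟨ih.1.deriv ih.2 isOpen_ball, ih.2.mono fun i hi => hi.deriv isOpen_ball⟩

lemma M_closed : IsClosed (M : Set C(D, ℂ)) := by
  refine isClosed_of_closure_subset (fun f hf => ?_)
  have := mem_closure_iff_nhdsWithin_neBot.1 hf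
  have : LocallyCompactSpace D := (isOpen_ball (x := (0:ℂ)) (ε := 1)).locallyCompactSpace
  have h1 : Tendsto (fun g : C(D, ℂ) => g) (𝓝[M] f) (𝓝 f) := tendsto_nhdsWithin_of_tendsto_nhds tendsto_id
  rw [ContinuousMap.tendsto_iff_tendstoLocallyUniformly] at h1
  have h2 : TendstoLocallyUniformlyOn ext (ext f) (𝓝[M] f) D := by
    rw [tendstoLocallyUniformlyOn_iff_tendstoLocallyUniformly_comp_coe]
    simpa only [Function.comp_def, ext_coe] using h1
  have hM : ∀ᶠ g in 𝓝[M] f, g ∈ (M : Set C(D, ℂ)) := self_mem_nhdsWithin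
  have h3 : ∀ᶠ g in 𝓝[M] f, DifferentiableOn ℂ (ext g) D := hM.mono fun g hg => hg.1
  have h4 : ∀ n, Tendsto (co n) (𝓝[M] f) (𝓝 (co n f)) := fun n =>
    ((iter_lim h2 h3 n).1.tendsto_at (mem_ball_self one_pos)).div_const _
  refine ⟨h2.differentiableOn h3 isOpen_ball, fun n hn => ?_, fun s t h => ?_⟩
  · exact tendsto_nhds_unique (h4 n) (tendsto_const_nhds.congr' (hM.mono fun g hg => (hg.2.1 n hn).symm))
  · exact tendsto_nhds_unique ((h4 _).mul_const _)
      (((h4 _).mul_const _).congr' (hM.mono fun g hg => (hg.2.2 s t h).symm))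

lemma M_sum {f : C(D, ℂ)} (hf : f ∈ M) (z : D) :
    HasSum (fun s => co (N s) f * (z:ℂ) ^ N s) (f z) := by
  have h := Complex.hasSum_taylorSeries_on_ball hf.1 z.2
  rw [ext_coe] at h
  have e : (fun n : ℕ => (n.factorial : ℂ)⁻¹ • ((z:ℂ) - 0) ^ n • iteratedDeriv n (ext f) 0)
      = fun n => co n f * (z:ℂ) ^ n := by
    funext n; simp only [co, smul_eq_mul, sub_zero]; ring
  rw [e] at h
  exact (N_mono.injective.hasSum_iff (fun n hn => by rw [hf.2.1 n hn, zero_mul])).2 h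

lemma M_annular {f : C(D, ℂ)} (hf : f ∈ M) (h0 : f ≠ 0) : StronglyAnnular f := by
  intro K r0 hr0
  have hex : ∃ s1, co (N s1) f ≠ 0 := by
    by_contra hn
    push Not at hn
    refine h0 (ContinuousMap.ext fun z => ?_)
    have := M_sum hf z
    simp only [hn, zero_mul] at this
    exact this.unique hasSum_zero
  obtain ⟨s1, hs1⟩ := hex
  obtain ⟨r, h1, h2, h3⟩ := annular (fun s => co (N s) f) (fun ε hε => by
    have hz : ((exp (-ε) : ℝ) : ℂ) ∈ D := by
      rw [mem_ball_zero_iff, Complex.norm_real, Real.norm_eq_abs, abs_of_pos (exp_pos _)]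
      exact exp_lt_one_iff.2 (by linarith)
    have := (M_sum hf ⟨_, hz⟩).summable.tendsto_atTop_zero.norm
    rw [norm_zero] at this
    filter_upwards [this.eventually (gt_mem_nhds one_pos)] with s hs
    rw [norm_mul, norm_pow, Complex.norm_real, Real.norm_eq_abs, abs_of_pos (exp_pos _),
      ← exp_nat_mul] at hs
    have e : exp (N s * -ε) * exp (ε * N s) = 1 := by rw [← exp_add]; ring_nf; exact exp_zero
    have := mul_lt_mul_of_pos_right hs (exp_pos (ε * N s))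
    rw [mul_assoc, e] at this
    linarith) (fun s0 => by
    obtain ⟨c, hc⟩ : ∃ c, c = ‖co (N s1) f‖ / ‖a s1‖ := ⟨_, rfl⟩
    have ha1 : 0 < ‖a s1‖ := norm_pos_iff.2 (a_ne s1)
    have hc0 : 0 < c := by rw [hc]; exact div_pos (norm_pos_iff.2 hs1) ha1
    obtain ⟨j, hj⟩ := exists_nat_ge (1 / c)
    obtain ⟨s, hs⟩ : ∃ s, s = Nat.pair (Nat.unpair s1).1 (s0 + 6 + j) := ⟨_, rfl⟩
    have hs' : s0 + 6 + j ≤ s := by rw [hs]; exact Nat.right_le_pair _ _
    refine ⟨s, by omega, ?_⟩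
    have e := congrArg norm (hf.2.2 s s1 (by rw [hs, Nat.unpair_pair]))
    rw [norm_mul, norm_mul] at e
    have e2 : ‖co (N s) f‖ = c * exp (N s / (s + 1)) := by
      rw [hc, ← a_norm]; field_simp; linarith
    have p1 : ∀ m : ℕ, 8 * (m + 6 + 1) ≤ 2 ^ (m + 6) := by
      intro m
      induction m with
      | zero => norm_num
      | succ m ih => rw [show m + 1 + 6 = m + 6 + 1 by ring, pow_succ]; omega
    have p2 : 8 * (s + 1) ≤ 2 ^ s := by
      have := p1 (s - 6); rwa [show s - 6 + 6 = s by omega] at this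
    have p3 : 8 * ((s:ℝ) + 1) ≤ 2 ^ s := by exact_mod_cast p2
    have p4 : (2:ℝ) ^ s * (2 * s) ≤ N s := by exact_mod_cast (N_ge s).2
    have hs0 : (0:ℝ) ≤ s := Nat.cast_nonneg s
    have p5 : 4 / 2 ^ s * (N s : ℝ) + s ≤ N s / (s + 1) := by
      have q1 : (4:ℝ) / 2 ^ s ≤ 1 / (2 * (s + 1)) := by
        rw [div_le_div_iff₀ (by positivity) (by positivity)]; linarith
      have q2 : (s:ℝ) ≤ N s / (2 * (s + 1)) := by
        rw [le_div_iff₀ (by positivity)]; nlinarith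
      have q3 := mul_le_mul_of_nonneg_right q1 (N_pos s).le
      have q4 : (N s : ℝ) / (s + 1) = 1 / (2 * (s + 1)) * N s + N s / (2 * (s + 1)) := by
        field_simp; ring
      linarith
    have p6 : 1 < c * exp s := by
      have q1 : (j:ℝ) ≤ s := by exact_mod_cast (by omega : j ≤ s)
      rw [div_le_iff₀ hc0] at hj
      nlinarith [add_one_le_exp (s:ℝ)]
    beta_reduce
    rw [e2]
    calc _ < exp (4 / 2 ^ s * (N s : ℝ)) * (c * exp s) := lt_mul_of_one_lt_right (exp_pos _) p6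
      _ = c * exp (4 / 2 ^ s * (N s : ℝ) + s) := by rw [exp_add]; ring
      _ ≤ _ := mul_le_mul_of_nonneg_left (exp_le_exp.2 p5) hc0.le) K r0 hr0
  exact ⟨r, h1, h2, fun z hz => h3 z _ hz (M_sum hf z)⟩

lemma series (c : ℕ → ℂ) (hc : ∀ r : ℝ, 0 < r → r < 1 → ∀ᶠ n in atTop, ‖c n‖ * r ^ n ≤ 1) :
    ∃ f : C(D, ℂ), DifferentiableOn ℂ (ext f) D ∧ ∀ n, co n f = c n := by
  obtain ⟨p, hp⟩ : ∃ p, p = FormalMultilinearSeries.ofScalars ℂ c := ⟨_, rfl⟩
  have hr : (1 : ENNReal) ≤ p.radius := by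
    refine ENNReal.le_of_forall_pos_nnreal_lt (fun r h0 h1 => ?_)
    refine p.le_radius_of_eventually_le 1 ?_
    simp only [hp, FormalMultilinearSeries.ofScalars_norm]
    exact hc r (by exact_mod_cast h0) (by exact_mod_cast h1)
  have H := (p.hasFPowerSeriesOnBall (zero_lt_one.trans_le hr)).mono zero_lt_one hr
  have hd : DifferentiableOn ℂ p.sum D := by
    have := H.differentiableOn
    rwa [← ENNReal.coe_one, Metric.eball_coe, NNReal.coe_one] at this
  refine ⟨⟨fun z => p.sum z, hd.continuousOn.domRestrict⟩, ?_, fun n => ?_⟩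
  · exact hd.congr (fun z hz => by simp [ext, hz])
  · have e : ext ⟨fun z => p.sum z, hd.continuousOn.domRestrict⟩ =ᶠ[𝓝 0] p.sum := by
      filter_upwards [ball_mem_nhds (0:ℂ) one_pos] with z hz
      simp [ext, hz]
    unfold co
    rw [e.iteratedDeriv_eq, iteratedDeriv_eq_iteratedFDeriv, ← H.factorial_smul, hp,
      FormalMultilinearSeries.ofScalars_apply_eq]
    have : (n.factorial : ℂ) ≠ 0 := by exact_mod_cast n.factorial_ne_zero
    simp only [one_pow, smul_eq_mul, mul_one, nsmul_eq_mul]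
    field_simp

lemma basis (k : ℕ) : ∃ f ∈ M, ∀ s, co (N s) f = if (Nat.unpair s).1 = k then a s else 0 := by
  obtain ⟨f, hf, hco⟩ := series
    (Function.extend N (fun s => if (Nat.unpair s).1 = k then a s else 0) 0) (by
    intro r h0 h1
    have hl : 0 < -log r := neg_pos.2 (log_neg h0 h1)
    obtain ⟨s0, hs0⟩ := exists_nat_ge (1 / -log r)
    filter_upwards [eventually_ge_atTop (N s0)] with n hn
    by_cases h : ∃ s, N s = n
    · obtain ⟨s, rfl⟩ := h
      rw [N_mono.injective.extend_apply]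
      have hs : (s0:ℝ) ≤ s := by exact_mod_cast N_mono.le_iff_le.1 hn
      have : ‖a s‖ * r ^ N s ≤ 1 := by
        rw [a_norm, ← exp_log h0, ← exp_nat_mul, ← exp_add, exp_le_one_iff]
        rw [div_le_iff₀ hl] at hs0
        have q : 1 / ((s:ℝ) + 1) ≤ -log r := by
          rw [div_le_iff₀ (by positivity)]; nlinarith
        have := mul_le_mul_of_nonneg_left q (N_pos s).le
        rw [mul_one_div] at this
        linarith
      split_ifs
      · exact this
      · simp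
    · rw [Function.extend_apply' _ _ _ h]; simp)
  have h2 : ∀ s, co (N s) f = if (Nat.unpair s).1 = k then a s else 0 := fun s => by
    rw [hco, N_mono.injective.extend_apply]
  refine ⟨f, ⟨hf, fun n hn => ?_, fun s t h => ?_⟩, h2⟩
  · rw [hco, Function.extend_apply' _ _ _ hn]; rfl
  · rw [h2, h2, h]; split_ifs <;> ring

noncomputable def phi (j : ℕ) : M →ₗ[ℂ] ℂ where
  toFun := fun g => co (N (Nat.pair j 0)) g.1 / a (Nat.pair j 0)
  map_add' := fun g h => by rw [Submodule.coe_add, co_add g.2.1 h.2.1, add_div]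
  map_smul' := fun c g => by
    rw [Submodule.coe_smul, co_smul c g.2.1, mul_div_assoc]; rfl

lemma phi_apply (j : ℕ) (g : M) : phi j g = co (N (Nat.pair j 0)) g.1 / a (Nat.pair j 0) := rfl

lemma inf_of {X : Type*} [TopologicalSpace X] (W : Submodule ℂ C(X, ℂ)) (v : ℕ → W)
    (φ : ℕ → W →ₗ[ℂ] ℂ) (h1 : ∀ i j, i ≠ j → φ i (v j) = 0) (h2 : ∀ i, φ i (v i) = 1) :
    ¬ FiniteDimensional ℂ W := fun _ =>
  Module.Finite.not_linearIndependent_of_infinite _
    (LinearIndependent.of_pairwise_dual_eq_zero_one v φ h1 h2)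

lemma M_inf : ¬ FiniteDimensional ℂ M := by
  intro hfin
  choose f hf hco using basis
  obtain ⟨v, hv⟩ : ∃ v : ℕ → M, ∀ k, (v k).1 = f k := ⟨fun k => ⟨f k, hf k⟩, fun _ => rfl⟩
  have h1 : ∀ i j, i ≠ j → phi i (v j) = 0 := fun i j hij => by
    rw [phi_apply, hv, hco, Nat.unpair_pair, if_neg hij, zero_div]
  have h2 : ∀ i, phi i (v i) = 1 := fun i => by
    rw [phi_apply, hv, hco, Nat.unpair_pair, if_pos rfl, div_self (a_ne _)]
  exact inf_of M v phi h1 h2 hfin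

theorem main : ∃ M : Submodule ℂ C(D, ℂ), IsClosed (M : Set C(D, ℂ)) ∧ ¬ FiniteDimensional ℂ M ∧
    (∀ f ∈ M, Hol f) ∧ ∀ f ∈ M, f ≠ 0 → StronglyAnnular f :=
  ⟨M, M_closed, M_inf, fun f hf => ⟨ext f, hf.1, fun z => (ext_coe f z).symm⟩,
    fun _ hf h0 => M_annular hf h0⟩

end Pool.Agent.H19Annular
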