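import Mathlib

set_option autoImplicit false

namespace Pool.Agent.H19Craig
open MeasureTheory Set Real Filter Topology

lemma inner_t (b u v : ℝ) :
    ∫ t in (0:ℝ)..u, 2 * b * t * exp (-(b * t ^ 2 * (1 + v ^ 2)))
      = (1 - exp (-(b * u ^ 2 * (1 + v ^ 2)))) / (1 + v ^ 2) := by
  have hv : (1 + v ^ 2) ≠ 0 := by positivity
  have : ∀ t ∈ uIcc 0 u, HasDerivAt (fun t : ℝ => - exp (-(b * t ^ 2 * (1 + v ^ 2))) / (1 + v ^ 2))
      (2 * b * t * exp (-(b * t ^ 2 * (1 + v ^ 2)))) t := by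
    intro t _
    have h1 : HasDerivAt (fun t : ℝ => -(b * t ^ 2 * (1 + v ^ 2))) (-(b * (2 * t) * (1 + v ^ 2))) t := by
      exact (((hasDerivAt_pow 2 t).const_mul b).mul_const (1 + v ^ 2)).fun_neg.congr_deriv (by simp)
    refine ((h1.exp.fun_neg).div_const (1 + v ^ 2)).congr_deriv ?_
    field_simp
  rw [intervalIntegral.integral_eq_sub_of_hasDerivAt this
    (Continuous.intervalIntegrable (by fun_prop) _ _)]
  simp only [ne_eq, OfNat.ofNat_ne_zero, not_false_eq_true, zero_pow, mul_zero, zero_mul, neg_zero,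
    exp_zero]
  ring

lemma inner_v {b t : ℝ} (hb : 0 ≤ b) (ht : 0 < t) :
    ∫ v in Ioi (0:ℝ), 2 * b * t * exp (-(b * t ^ 2 * (1 + v ^ 2)))
      = √π * (√b * exp (-(b * t ^ 2))) := by
  have : ∀ v : ℝ, 2 * b * t * exp (-(b * t ^ 2 * (1 + v ^ 2)))
      = (2 * b * t * exp (-(b * t ^ 2))) * exp (-(b * t ^ 2) * v ^ 2) := by
    intro v; rw [mul_assoc _ (exp _), ← exp_add]; congr 2; ring
  simp_rw [this]
  rw [integral_const_mul, integral_gaussian_Ioi]
  rcases hb.eq_or_lt with rfl | hb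
  · simp
  rw [sqrt_div pi_pos.le, sqrt_mul hb.le, sqrt_sq ht.le]
  have h := mul_self_sqrt hb.le
  have h2 := sqrt_pos.2 hb
  generalize √b = c at h h2
  subst h
  field_simp

lemma craig_int {b : ℝ} (hb : 0 ≤ b) (u : ℝ) :
    IntegrableOn (fun v : ℝ => (1 - exp (-(b * u ^ 2 * (1 + v ^ 2)))) / (1 + v ^ 2)) (Ioi 0) := by
  refine Integrable.mono' integrable_inv_one_add_sq.integrableOn
    (Continuous.aestronglyMeasurable (Continuous.div (by fun_prop) (by fun_prop)
      (fun v => by positivity))) (Eventually.of_forall fun v => ?_)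
  have h1 : exp (-(b * u ^ 2 * (1 + v ^ 2))) ≤ 1 := exp_le_one_iff.2 (by
    have : 0 ≤ b * u ^ 2 * (1 + v ^ 2) := by positivity
    linarith)
  have h2 := exp_pos (-(b * u ^ 2 * (1 + v ^ 2)))
  rw [Real.norm_eq_abs, abs_of_nonneg (div_nonneg (by linarith) (by positivity)), ← one_div]
  exact div_le_div_of_nonneg_right (by linarith) (by positivity)

lemma craig {b u : ℝ} (hb : 0 ≤ b) (hu : 0 ≤ u) :
    √π * ∫ t in (0:ℝ)..u, √b * exp (-(b * t ^ 2))
      = ∫ v in Ioi (0:ℝ), (1 - exp (-(b * u ^ 2 * (1 + v ^ 2)))) / (1 + v ^ 2) := by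
  have hint : Integrable (Function.uncurry fun t v : ℝ => 2 * b * t * exp (-(b * t ^ 2 * (1 + v ^ 2))))
      ((volume.restrict (uIoc 0 u)).prod (volume.restrict (Ioi (0:ℝ)))) := by
    have hc : Continuous (Function.uncurry fun t v : ℝ =>
        2 * b * t * exp (-(b * t ^ 2 * (1 + v ^ 2)))) := by
      unfold Function.uncurry; fun_prop
    rw [integrable_prod_iff' hc.aestronglyMeasurable]
    constructor
    · refine Eventually.of_forall fun v => ?_
      have : IntervalIntegrable (fun t : ℝ => 2 * b * t * exp (-(b * t ^ 2 * (1 + v ^ 2)))) volume 0 u :=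
        Continuous.intervalIntegrable (by fun_prop) _ _
      exact intervalIntegrable_iff.1 this
    · refine (craig_int hb u).congr (Eventually.of_forall fun v => ?_)
      simp only [Function.uncurry]
      rw [← inner_t, uIoc_of_le hu, intervalIntegral.integral_of_le hu]
      refine setIntegral_congr_fun measurableSet_Ioc (fun t ht => ?_)
      have := ht.1
      beta_reduce
      rw [Real.norm_eq_abs, abs_of_nonneg (by positivity)]
  have h := intervalIntegral_integral_swap hint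
  simp_rw [inner_t] at h
  rw [← h, ← intervalIntegral.integral_const_mul, intervalIntegral.integral_of_le hu,
    intervalIntegral.integral_of_le hu]
  refine setIntegral_congr_fun measurableSet_Ioc (fun t ht => ?_)
  beta_reduce
  rw [inner_v hb ht.1]

/-- the density `W'` -/
noncomputable def w (h : ℕ → ℝ) (M : ℕ) (t : ℝ) : ℝ :=
  ∑ k ∈ Finset.range M, h k * (√(k:ℝ) * exp (-(k * t ^ 2)))

lemma w_cont (h : ℕ → ℝ) (M : ℕ) : Continuous (w h M) := by
  unfold w; fun_prop

lemma W_nonneg (h : ℕ → ℝ) (M : ℕ)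
    (hH : ∀ s ∈ Icc (0:ℝ) 1, ∑ k ∈ Finset.range M, h k * s ^ k ≤ ∑ k ∈ Finset.range M, h k)
    {u : ℝ} (hu : 0 ≤ u) : 0 ≤ ∫ t in (0:ℝ)..u, w h M t := by
  have hp : 0 < √π := sqrt_pos.2 pi_pos
  refine le_of_mul_le_mul_left ?_ hp
  unfold w
  rw [mul_zero, intervalIntegral.integral_finsetSum
    (fun k _ => Continuous.intervalIntegrable (by fun_prop) _ _), Finset.mul_sum]
  have : ∀ k ∈ Finset.range M, √π * ∫ t in (0:ℝ)..u, h k * (√(k:ℝ) * exp (-(k * t ^ 2)))
      = ∫ v in Ioi (0:ℝ), h k * ((1 - exp (-(k * u ^ 2 * (1 + v ^ 2)))) / (1 + v ^ 2)) := by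
    intro k _
    rw [intervalIntegral.integral_const_mul, integral_const_mul, ← craig (Nat.cast_nonneg k) hu]
    ring
  rw [Finset.sum_congr rfl this, ← integral_finsetSum _
    (fun k _ => (craig_int (Nat.cast_nonneg k) u).const_mul _)]
  refine integral_nonneg (fun v => ?_)
  have h1 := hH (exp (-(u ^ 2 * (1 + v ^ 2)))) ⟨(exp_pos _).le, exp_le_one_iff.2 (by
    have : 0 ≤ u ^ 2 * (1 + v ^ 2) := by positivity
    linarith)⟩
  have h2 : ∑ k ∈ Finset.range M, h k * ((1 - exp (-(k * u ^ 2 * (1 + v ^ 2)))) / (1 + v ^ 2))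
      = (∑ k ∈ Finset.range M, h k - ∑ k ∈ Finset.range M, h k * exp (-(u ^ 2 * (1 + v ^ 2))) ^ k)
        / (1 + v ^ 2) := by
    rw [← Finset.sum_sub_distrib, Finset.sum_div]
    refine Finset.sum_congr rfl (fun k _ => ?_)
    rw [← exp_nat_mul, show (k:ℝ) * -(u ^ 2 * (1 + v ^ 2)) = -(k * u ^ 2 * (1 + v ^ 2)) by ring]
    ring
  simp only [Pi.zero_apply]
  rw [h2]
  exact div_nonneg (by linarith) (by positivity)

noncomputable def r (u : ℝ) : ℝ := √(exp (u ^ 2) - 1)

noncomputable def g (u : ℝ) : ℝ := u / r u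

lemma r_pos {u : ℝ} (hu : 0 < u) : 0 < r u := by
  have := add_one_le_exp (u ^ 2)
  exact sqrt_pos.2 (by nlinarith)

lemma r_sq (u : ℝ) : r u ^ 2 = exp (u ^ 2) - 1 := by
  have := add_one_le_exp (u ^ 2)
  exact sq_sqrt (by nlinarith)

lemma r_cont : Continuous r := by unfold r; fun_prop

lemma r_zero : r 0 = 0 := by simp [r]

lemma r_ge (u : ℝ) : |u| ≤ r u := by
  have := add_one_le_exp (u ^ 2)
  exact abs_le_sqrt (by linarith)

lemma g_abs (u : ℝ) : |g u| ≤ 1 := by
  unfold g
  rw [abs_div, abs_of_nonneg (show 0 ≤ r u from sqrt_nonneg _)]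
  exact div_le_one_of_le₀ (r_ge u) (sqrt_nonneg _)

lemma g_nonneg {u : ℝ} (hu : 0 ≤ u) : 0 ≤ g u := div_nonneg hu (sqrt_nonneg _)

lemma g_meas : Measurable g := measurable_id.div r_cont.measurable

lemma r_deriv {u : ℝ} (hu : 0 < u) : HasDerivAt r (u * exp (u ^ 2) / r u) u := by
  have h1 : HasDerivAt (fun u : ℝ => exp (u ^ 2) - 1) (exp (u ^ 2) * (2 * u)) u := by
    have := ((hasDerivAt_pow 2 u).exp).sub_const 1
    simpa using this
  have h0 : exp (u ^ 2) - 1 ≠ 0 := by
    have := add_one_le_exp (u ^ 2)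
    nlinarith
  refine (h1.sqrt h0).congr_deriv ?_
  unfold r
  field_simp

lemma g_deriv {u : ℝ} (hu : 0 < u) : ∃ d, d ≤ 0 ∧ HasDerivAt g d u := by
  have h := (hasDerivAt_id u).div (r_deriv hu) (r_pos hu).ne'
  refine ⟨_, ?_, h⟩
  refine div_nonpos_of_nonpos_of_nonneg ?_ (sq_nonneg _)
  have h1 := r_pos hu
  have h2 := r_sq u
  have h3 : 1 * r u - id u * (u * exp (u ^ 2) / r u) = (r u ^ 2 - u ^ 2 * exp (u ^ 2)) / r u := by
    simp only [id]; field_simp
  rw [h3, h2]
  refine div_nonpos_of_nonpos_of_nonneg ?_ h1.le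
  have h4 := add_one_le_exp (-(u ^ 2))
  have h5 : exp (-(u ^ 2)) * exp (u ^ 2) = 1 := by rw [← exp_add]; simp
  have h6 := exp_pos (u ^ 2)
  nlinarith

lemma r_top : Tendsto r atTop atTop :=
  tendsto_atTop_mono (fun u => (le_abs_self u).trans (r_ge u)) tendsto_id

lemma g_int : IntegrableOn g (Ioi 0) ∧ ∫ u in Ioi (0:ℝ), g u = π / 2 := by
  have hd : ∀ u ∈ Ioi (0:ℝ), HasDerivAt (fun u => arctan (r u)) (g u) u := by
    intro u hu
    have := (r_deriv hu).arctan
    convert this using 1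
    have h1 := r_pos hu
    rw [r_sq]; unfold g
    field_simp
    ring
  have hc : ContinuousWithinAt (fun u => arctan (r u)) (Ici 0) 0 :=
    (continuous_arctan.comp r_cont).continuousWithinAt
  have ht : Tendsto (fun u => arctan (r u)) atTop (𝓝 (π / 2)) :=
    (tendsto_nhds_of_tendsto_nhdsWithin tendsto_arctan_atTop).comp r_top
  refine ⟨integrableOn_Ioi_deriv_of_nonneg hc hd (fun u hu => g_nonneg (le_of_lt hu)) ht, ?_⟩
  rw [integral_Ioi_of_hasDerivAt_of_nonneg hc hd (fun u hu => g_nonneg (le_of_lt hu)) ht]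
  simp [r_zero]

lemma ge_int (k : ℕ) : IntegrableOn (fun u => g u * exp (-(k * u ^ 2))) (Ioi 0) := by
  refine Integrable.mul_bdd (c := 1) g_int.1 (Continuous.aestronglyMeasurable (by fun_prop))
    (Eventually.of_forall fun u => ?_)
  rw [Real.norm_eq_abs, abs_of_pos (exp_pos _)]
  exact exp_le_one_iff.2 (by
    have : 0 ≤ (k:ℝ) * u ^ 2 := by positivity
    linarith)

noncomputable def wal (k : ℕ) : ℝ := ((2 * k).factorial : ℝ) / (4 ^ k * (k.factorial : ℝ) ^ 2)

lemma I_eq (k : ℕ) : ∫ u in Ioi (0:ℝ), g u * exp (-(k * u ^ 2)) = π / 2 * wal k := by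
  induction k with
  | zero => simp [wal, g_int.2]
  | succ k ih =>
    have hd : ∀ u ∈ Ioi (0:ℝ), HasDerivAt (fun u => exp (-(((k + 1 : ℕ):ℝ) * u ^ 2)) * r u)
        ((2 * k + 2) * (g u * exp (-(((k + 1 : ℕ):ℝ) * u ^ 2)))
          - (2 * k + 1) * (g u * exp (-(k * u ^ 2)))) u := by
      intro u hu
      have h1 : HasDerivAt (fun u : ℝ => -(((k + 1 : ℕ):ℝ) * u ^ 2)) (-(((k + 1 : ℕ):ℝ) * (2 * u))) u := by
        exact ((hasDerivAt_pow 2 u).const_mul (((k + 1 : ℕ):ℝ))).fun_neg.congr_deriv (by simp)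
      refine (h1.exp.fun_mul (r_deriv hu)).congr_deriv ?_
      have h1 := r_pos hu
      have h2 := r_sq u
      have h3 : exp (-((k:ℝ) * u ^ 2)) = exp (-(((k + 1 : ℕ):ℝ) * u ^ 2)) * exp (u ^ 2) := by
        rw [← exp_add]; congr 1; push_cast; ring
      rw [h3]
      unfold g
      generalize exp (-(((k + 1 : ℕ):ℝ) * u ^ 2)) = A
      have h4 : exp (u ^ 2) = r u ^ 2 + 1 := by linarith
      rw [h4]
      push_cast
      field_simp
      ring
    have hc : ContinuousWithinAt (fun u => exp (-(((k + 1 : ℕ):ℝ) * u ^ 2)) * r u) (Ici 0) 0 :=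
      Continuous.continuousWithinAt (Continuous.mul (by fun_prop) r_cont)
    have ht : Tendsto (fun u => exp (-(((k + 1 : ℕ):ℝ) * u ^ 2)) * r u) atTop (𝓝 0) := by
      have h0 : Tendsto (fun u : ℝ => exp (-(u ^ 2 / 2))) atTop (𝓝 0) :=
        tendsto_exp_neg_atTop_nhds_zero.comp ((tendsto_pow_atTop two_ne_zero).atTop_div_const two_pos)
      refine squeeze_zero (fun u => mul_nonneg (exp_pos _).le (sqrt_nonneg _)) (fun u => ?_) h0
      have h1 : r u ≤ exp (u ^ 2 / 2) := by
        refine sqrt_le_iff.2 ⟨(exp_pos _).le, ?_⟩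
        rw [← exp_nat_mul]
        have : ((2:ℕ):ℝ) * (u ^ 2 / 2) = u ^ 2 := by push_cast; ring
        rw [this]; linarith
      refine (mul_le_mul_of_nonneg_left h1 (exp_pos _).le).trans ?_
      rw [← exp_add, exp_le_exp]
      have : 0 ≤ (k:ℝ) * u ^ 2 := by positivity
      push_cast; nlinarith
    have H := integral_Ioi_of_hasDerivAt_of_tendsto hc hd
      (((ge_int (k + 1)).const_mul _).sub ((ge_int k).const_mul _)) ht
    rw [integral_sub ((ge_int (k + 1)).const_mul _) ((ge_int k).const_mul _), integral_const_mul,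
      integral_const_mul, ih, r_zero] at H
    have e : wal (k + 1) = (2 * k + 1) / (2 * k + 2) * wal k := by
      unfold wal
      rw [show 2 * (k + 1) = 2 * k + 1 + 1 by ring, Nat.factorial_succ, Nat.factorial_succ,
        Nat.factorial_succ]
      push_cast; field_simp; ring
    rw [e]
    have : (0:ℝ) < 2 * k + 2 := by positivity
    field_simp
    linarith

lemma key (h : ℕ → ℝ) (M : ℕ)
    (hH : ∀ s ∈ Icc (0:ℝ) 1, ∑ k ∈ Finset.range M, h k * s ^ k ≤ ∑ k ∈ Finset.range M, h k) :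
    0 ≤ ∑ k ∈ Finset.range M, h k * (√(k:ℝ) * wal k) := by
  have hw := w_cont h M
  have hii : ∀ a b, IntervalIntegrable (fun t => g t * w h M t) volume a b := by
    intro a b
    have h1 : IntervalIntegrable (w h M) volume a b := hw.intervalIntegrable a b
    rw [intervalIntegrable_iff] at h1 ⊢
    exact Integrable.bdd_mul (c := 1) h1 g_meas.aestronglyMeasurable
      (Eventually.of_forall fun u => g_abs u)
  have hWd : ∀ u, HasDerivAt (fun u => ∫ t in (0:ℝ)..u, w h M t) (w h M u) u := fun u =>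
    intervalIntegral.integral_hasDerivAt_right (hw.intervalIntegrable _ _)
      hw.measurable.stronglyMeasurable.stronglyMeasurableAtFilter hw.continuousAt
  have hWc : Continuous (fun u => ∫ t in (0:ℝ)..u, w h M t) :=
    continuous_iff_continuousAt.2 fun u => (hWd u).continuousAt
  have hD : ∀ u, 0 < u → ∃ d, 0 ≤ d ∧ HasDerivAt (fun u => (∫ t in (0:ℝ)..u, g t * w h M t)
      - g u * ∫ t in (0:ℝ)..u, w h M t) d u := by
    intro u hu
    obtain ⟨d, hd, hg⟩ := g_deriv hu
    have h1 : HasDerivAt (fun u => ∫ t in (0:ℝ)..u, g t * w h M t) (g u * w h M u) u :=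
      intervalIntegral.integral_hasDerivAt_right (hii _ _)
        (g_meas.mul hw.measurable).stronglyMeasurable.stronglyMeasurableAtFilter
        (hg.continuousAt.mul hw.continuousAt)
    refine ⟨_, ?_, h1.sub (hg.mul (hWd u))⟩
    have := W_nonneg h M hH hu.le
    nlinarith
  have hcont : ContinuousOn (fun u => (∫ t in (0:ℝ)..u, g t * w h M t)
      - g u * ∫ t in (0:ℝ)..u, w h M t) (Ici 0) := by
    intro u hu
    rcases (mem_Ici.1 hu).eq_or_lt with rfl | hu
    · refine ContinuousAt.continuousWithinAt (ContinuousAt.sub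
        (intervalIntegral.continuous_primitive hii 0).continuousAt ?_)
      unfold ContinuousAt
      simp only [intervalIntegral.integral_same, mul_zero]
      have h0 : Tendsto (fun u => |∫ t in (0:ℝ)..u, w h M t|) (𝓝 0) (𝓝 0) := by
        have := (hWc.abs).tendsto 0
        simpa using this
      refine squeeze_zero_norm (fun u => ?_) h0
      rw [Real.norm_eq_abs, abs_mul]
      exact mul_le_of_le_one_left (abs_nonneg _) (g_abs u)
    · obtain ⟨d, _, hd⟩ := hD u hu
      exact hd.continuousAt.continuousWithinAt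
  have hmono := monotoneOn_of_deriv_nonneg (convex_Ici 0) hcont
    (fun u hu => by
      rw [interior_Ici] at hu
      obtain ⟨d, _, hd⟩ := hD u hu
      exact hd.differentiableAt.differentiableWithinAt)
    (fun u hu => by
      rw [interior_Ici] at hu
      obtain ⟨d, h0, hd⟩ := hD u hu
      rw [hd.deriv]; exact h0)
  have hA : ∀ u, 0 ≤ u → 0 ≤ ∫ t in (0:ℝ)..u, g t * w h M t := by
    intro u hu
    have := hmono (mem_Ici.2 le_rfl) (mem_Ici.2 hu) hu
    simp only [intervalIntegral.integral_same, mul_zero, sub_zero] at this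
    have h2 := mul_nonneg (g_nonneg hu) (W_nonneg h M hH hu)
    linarith
  have e : ∀ t, g t * w h M t
      = ∑ k ∈ Finset.range M, (h k * √(k:ℝ)) * (g t * exp (-(k * t ^ 2))) := by
    intro t; unfold w; rw [Finset.mul_sum]
    exact Finset.sum_congr rfl (fun k _ => by ring)
  have hI : IntegrableOn (fun t => g t * w h M t) (Ioi 0) := by
    simp_rw [e]
    exact integrable_finsetSum _ (fun k _ => (ge_int k).const_mul _)
  have hlim := intervalIntegral_tendsto_integral_Ioi 0 hI (tendsto_id (x := atTop))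
  have h0 : 0 ≤ ∫ t in Ioi (0:ℝ), g t * w h M t :=
    ge_of_tendsto hlim ((eventually_ge_atTop 0).mono fun u hu => hA u hu)
  simp_rw [e] at h0
  rw [integral_finsetSum _ (fun k _ => (ge_int k).const_mul _)] at h0
  simp_rw [integral_const_mul, I_eq] at h0
  have e2 : ∑ k ∈ Finset.range M, h k * √(k:ℝ) * (π / 2 * wal k)
      = π / 2 * ∑ k ∈ Finset.range M, h k * (√(k:ℝ) * wal k) := by
    rw [Finset.mul_sum]; exact Finset.sum_congr rfl (fun k _ => by ring)
  rw [e2] at h0
  exact le_of_mul_le_mul_left (by simpa using h0) (half_pos pi_pos)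

end Pool.Agent.H19Craig
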