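import Mathlib

set_option autoImplicit false

namespace Pool.Agent.H19Mom
open MeasureTheory Set

/-- `h` is absolutely summable and its power series is bounded by `K` on `(0,1]`. -/
def P (h : ℕ → ℝ) (K : ℝ) : Prop :=
  Summable (fun k => |h k|) ∧ ∀ s ∈ Ioc (0:ℝ) 1, |∑' k, s ^ k * h k| ≤ K

lemma summable_pow {h : ℕ → ℝ} (hs : Summable (fun k => |h k|)) {s : ℝ} (hs1 : s ∈ Ioc (0:ℝ) 1) :
    Summable (fun k => |s ^ k * h k|) := by
  refine Summable.of_nonneg_of_le (fun _ => abs_nonneg _) (fun k => ?_) hs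
  rw [abs_mul, abs_of_nonneg (pow_nonneg hs1.1.le k)]
  exact mul_le_of_le_one_left (abs_nonneg _) (pow_le_one₀ hs1.1.le hs1.2)

lemma P.add {h g : ℕ → ℝ} {K L : ℝ} (a : P h K) (b : P g L) : P (fun k => h k + g k) (K + L) := by
  refine ⟨?_, fun s hs => ?_⟩
  · exact Summable.of_nonneg_of_le (fun _ => abs_nonneg _) (fun k => abs_add_le _ _) (a.1.add b.1)
  · simp_rw [mul_add]
    rw [Summable.tsum_add (summable_pow a.1 hs).of_abs (summable_pow b.1 hs).of_abs]
    exact (abs_add_le _ _).trans (add_le_add (a.2 s hs) (b.2 s hs))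

lemma P.smul {h : ℕ → ℝ} {K : ℝ} (a : P h K) (c : ℝ) : P (fun k => c * h k) (|c| * K) := by
  refine ⟨?_, fun s hs => ?_⟩
  · simp_rw [abs_mul]; exact a.1.mul_left _
  · have : ∀ k, s ^ k * (c * h k) = c * (s ^ k * h k) := fun k => by ring
    simp_rw [this]
    rw [tsum_mul_left, abs_mul]
    exact mul_le_mul_of_nonneg_left (a.2 s hs) (abs_nonneg _)

lemma int_rpow {a : ℝ} (ha : 0 < a) : ∫ t in Ioc (0:ℝ) 1, t ^ (a - 1) = 1 / a := by
  rw [← intervalIntegral.integral_of_le zero_le_one, integral_rpow (Or.inl (by linarith))]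
  simp [Real.zero_rpow ha.ne']

lemma intb_rpow {a : ℝ} (ha : 0 < a) : IntegrableOn (fun t : ℝ => t ^ (a - 1)) (Ioc (0:ℝ) 1) := by
  have := intervalIntegral.intervalIntegrable_rpow' (a := 0) (b := 1) (r := a - 1) (by linarith)
  exact (intervalIntegrable_iff_integrableOn_Ioc_of_le zero_le_one).1 this

lemma core {g : ℕ → ℝ} {K α : ℝ} (hα : 0 < α) (a : P g K) :
    |∑' k, g k / (k + α)| ≤ K / α := by
  have hk : ∀ k : ℕ, (0:ℝ) < k + α := fun k => by positivity
  set F : ℕ → ℝ → ℝ := fun k t => t ^ ((k + α) - 1) * g k with hF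
  have hint : ∀ k, Integrable (F k) (volume.restrict (Ioc (0:ℝ) 1)) :=
    fun k => (intb_rpow (hk k)).mul_const _
  have hI : ∀ k, ∫ t in Ioc (0:ℝ) 1, F k t = g k / (k + α) := by
    intro k
    simp only [hF]
    rw [integral_mul_const, int_rpow (hk k)]; ring
  have hN : ∀ k, ∫ t in Ioc (0:ℝ) 1, ‖F k t‖ = |g k| / (k + α) := by
    intro k
    have : ∫ t in Ioc (0:ℝ) 1, ‖F k t‖ = ∫ t in Ioc (0:ℝ) 1, t ^ ((k + α) - 1) * |g k| := by
      refine setIntegral_congr_fun measurableSet_Ioc (fun t ht => ?_)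
      simp only [hF, Real.norm_eq_abs, abs_mul]
      rw [abs_of_nonneg (Real.rpow_nonneg ht.1.le _)]
    rw [this, integral_mul_const, int_rpow (hk k)]; ring
  have hsum : Summable fun k => ∫ t in Ioc (0:ℝ) 1, ‖F k t‖ := by
    simp_rw [hN]
    refine Summable.of_nonneg_of_le (fun k => div_nonneg (abs_nonneg _) (hk k).le) (fun k => ?_)
      (a.1.div_const α)
    exact div_le_div_of_nonneg_left (abs_nonneg _) hα (by linarith [Nat.cast_nonneg (α := ℝ) k])
  have H := hasSum_integral_of_summable_integral_norm hint hsum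
  simp_rw [hI] at H
  rw [H.tsum_eq]
  have hb : ∀ t ∈ Ioc (0:ℝ) 1, ‖∑' k, F k t‖ ≤ t ^ (α - 1) * K := by
    intro t ht
    have : ∀ k : ℕ, F k t = t ^ (α - 1) * (t ^ k * g k) := by
      intro k
      simp only [hF]
      rw [show (k:ℝ) + α - 1 = (α - 1) + k by ring, Real.rpow_add ht.1, Real.rpow_natCast]; ring
    simp_rw [this]
    rw [tsum_mul_left, Real.norm_eq_abs, abs_mul, abs_of_nonneg (Real.rpow_nonneg ht.1.le _)]
    exact mul_le_mul_of_nonneg_left (a.2 t ht) (Real.rpow_nonneg ht.1.le _)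
  have h2 : ‖∫ t in Ioc (0:ℝ) 1, ∑' k, F k t‖ ≤ ∫ t in Ioc (0:ℝ) 1, t ^ (α - 1) * K := by
    refine norm_integral_le_of_norm_le ((intb_rpow hα).mul_const _) ?_
    exact (ae_restrict_iff' measurableSet_Ioc).2 (Filter.Eventually.of_forall hb)
  rw [integral_mul_const, int_rpow hα] at h2
  rw [← Real.norm_eq_abs]
  refine h2.trans (le_of_eq ?_); ring

lemma P.div {g : ℕ → ℝ} {K α : ℝ} (a : P g K) (hα : 0 < α) :
    P (fun k => g k / (k + α)) (K / α) := by
  have hk : ∀ k : ℕ, (0:ℝ) < k + α := fun k => by positivity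
  refine ⟨?_, fun s hs => ?_⟩
  · refine Summable.of_nonneg_of_le (fun k => abs_nonneg _) (fun k => ?_) (a.1.div_const α)
    rw [abs_div, abs_of_pos (hk k)]
    exact div_le_div_of_nonneg_left (abs_nonneg _) hα (by linarith [Nat.cast_nonneg (α := ℝ) k])
  · have b : P (fun k => s ^ k * g k) K := by
      refine ⟨summable_pow a.1 hs, fun t ht => ?_⟩
      have : ∀ k, t ^ k * (s ^ k * g k) = (t * s) ^ k * g k := fun k => by rw [mul_pow]; ring
      simp_rw [this]
      exact a.2 _ ⟨mul_pos ht.1 hs.1, mul_le_one₀ ht.2 hs.1.le hs.2⟩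
    have := core hα b
    simp_rw [← mul_div_assoc]
    exact this

lemma P.prod {ι : Type*} {g : ℕ → ℝ} {K : ℝ} (a : P g K) (d α β : ι → ℝ) (s : Finset ι)
    (hd : ∀ j ∈ s, 0 ≤ d j) (hα : ∀ j ∈ s, 0 < α j) (hβ : ∀ j ∈ s, 0 < β j) :
    P (fun k => ((∏ j ∈ s, (1 - d j / ((k + α j) * (k + β j)))) - 1) * g k)
      (((∏ j ∈ s, (1 + d j / (α j * β j))) - 1) * K) := by
  classical
  induction s using Finset.induction_on with
  | empty =>
    simp only [Finset.prod_empty, sub_self, zero_mul]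
    refine ⟨by simp [summable_zero], fun s _ => by simp⟩
  | insert j s hj ih =>
    have ih' := ih (fun i hi => hd i (Finset.mem_insert_of_mem hi))
      (fun i hi => hα i (Finset.mem_insert_of_mem hi))
      (fun i hi => hβ i (Finset.mem_insert_of_mem hi))
    have h1 := hd j (Finset.mem_insert_self _ _)
    have h2 := hα j (Finset.mem_insert_self _ _)
    have h3 := hβ j (Finset.mem_insert_self _ _)
    have b1 := (((a.div h2).div h3).smul (-d j))
    have b2 := (((ih'.div h2).div h3).smul (-d j))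
    have c := (ih'.add b1).add b2
    simp only [Finset.prod_insert hj]
    convert c using 1
    · funext k
      have : (0:ℝ) < k + α j := by positivity
      have : (0:ℝ) < k + β j := by positivity
      field_simp
      ring
    · rw [abs_neg, abs_of_nonneg h1]
      field_simp
      ring

lemma P.one {g : ℕ → ℝ} {K : ℝ} (a : P g K) : |∑' k, g k| ≤ K := by
  simpa using a.2 1 ⟨one_pos, le_rfl⟩

end Pool.Agent.H19Mom
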