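import Pool.Agent.Lib.helper19.XiDefs

open scoped ENNReal
open Metric Complex

namespace H19Xi

lemma cnt_eq (f : ℂ → ℂ) (S : Set ℂ) :
    zeroCount f S = ∑' z : ℂ, S.indicator (fun z => ((analyticOrderAt f z : ℕ∞) : ℝ≥0∞)) z :=
  tsum_subtype S (fun z => ((analyticOrderAt f z : ℕ∞) : ℝ≥0∞))

lemma cnt_mono (f : ℂ → ℂ) {S T : Set ℂ} (h : S ⊆ T) : zeroCount f S ≤ zeroCount f T := by
  rw [cnt_eq, cnt_eq]
  exact ENNReal.tsum_le_tsum fun z => Set.indicator_le_indicator_of_subset h (fun _ => by simp) z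

lemma cnt_union_le (f : ℂ → ℂ) (S T : Set ℂ) :
    zeroCount f (S ∪ T) ≤ zeroCount f S + zeroCount f T := by
  rw [cnt_eq, cnt_eq, cnt_eq, ← ENNReal.tsum_add]
  refine ENNReal.tsum_le_tsum fun z => ?_
  by_cases h1 : z ∈ S <;> by_cases h2 : z ∈ T <;> simp [h1, h2, Set.indicator]

lemma cnt_union (f : ℂ → ℂ) {S T : Set ℂ} (h : Disjoint S T) :
    zeroCount f (S ∪ T) = zeroCount f S + zeroCount f T := by
  rw [cnt_eq, cnt_eq, cnt_eq, ← ENNReal.tsum_add]
  refine tsum_congr fun z => ?_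
  rw [Set.indicator_union_of_disjoint h]

lemma cnt_congr {f g : ℂ → ℂ} (S : Set ℂ) (h : ∀ z, analyticOrderAt f z = analyticOrderAt g z) :
    zeroCount f S = zeroCount g S := by
  unfold zeroCount; simp only [h]

lemma order_mul_ne {f e : ℂ → ℂ} (hf : Differentiable ℂ f) (he : Differentiable ℂ e)
    (h0 : ∀ z, e z ≠ 0) (z : ℂ) :
    analyticOrderAt (fun w => f w * e w) z = analyticOrderAt f z := by
  have := analyticOrderAt_mul (hf.analyticAt z) (he.analyticAt z)
  rw [(he.analyticAt z).analyticOrderAt_eq_zero.2 (h0 z), add_zero] at this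
  exact this

lemma cnt_zero {f : ℂ → ℂ} {S : Set ℂ} (h : ∀ z ∈ S, f z ≠ 0) : zeroCount f S = 0 := by
  unfold zeroCount
  rw [ENNReal.tsum_eq_zero]
  intro z
  rw [analyticOrderAt_eq_zero.2 (Or.inr (h z z.2))]; simp

lemma cnt_step {f g : ℂ → ℂ} {S : Set ℂ} {ρ : ℂ} (hρ : ρ ∈ S) (hg : Differentiable ℂ g)
    (h : ∀ z, f z = (z - ρ) * g z) : zeroCount f S = 1 + zeroCount g S := by
  classical
  have hf : f = (fun z => z - ρ) * g := by ext z; simp [h]
  have ho : ∀ z, ((analyticOrderAt f z : ℕ∞) : ℝ≥0∞)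
      = (if z = ρ then 1 else 0) + ((analyticOrderAt g z : ℕ∞) : ℝ≥0∞) := by
    intro z
    rw [hf, analyticOrderAt_mul (by fun_prop) (hg.analyticAt z)]
    by_cases hz : z = ρ
    · subst hz; simp
    · rw [analyticOrderAt_id_sub_const_of_ne hz]; simp [hz]
  rw [cnt_eq, cnt_eq]
  have h1 : (1 : ℝ≥0∞) = ∑' z : ℂ, (if z = ρ then 1 else 0) := by simp
  rw [h1, ← ENNReal.tsum_add]
  refine tsum_congr fun z => ?_
  by_cases hz : z ∈ S
  · simp only [Set.indicator_of_mem hz, ho]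
  · have : z ≠ ρ := fun e => hz (e ▸ hρ)
    simp [Set.indicator_of_notMem hz, this]

lemma factor (S : Set ℂ) (n : ℕ) : ∀ f : ℂ → ℂ, Differentiable ℂ f →
    ∃ (l : List ℂ) (g : ℂ → ℂ), Differentiable ℂ g ∧ (∀ ρ ∈ l, ρ ∈ S) ∧
      (∀ z, f z = (l.map (fun ρ => z - ρ)).prod * g z) ∧
      ((l.length = n ∧ (n : ℝ≥0∞) ≤ zeroCount f S) ∨
        (l.length < n ∧ (∀ z ∈ S, g z ≠ 0) ∧ zeroCount f S = l.length)) := by
  induction n with
  | zero => intro f hf; exact ⟨[], f, hf, by simp, by simp, Or.inl ⟨rfl, by simp⟩⟩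
  | succ n ih =>
    intro f hf
    by_cases h : ∀ z ∈ S, f z ≠ 0
    · exact ⟨[], f, hf, by simp, by simp, Or.inr ⟨by simp, h, by simp [cnt_zero h]⟩⟩
    · push Not at h
      obtain ⟨ρ, hρ, h0⟩ := h
      have hd : Differentiable ℂ (dslope f ρ) := by
        rw [← differentiableOn_univ, Complex.differentiableOn_dslope Filter.univ_mem]
        exact hf.differentiableOn
      have he : ∀ z, f z = (z - ρ) * dslope f ρ z := by
        intro z
        have := sub_smul_dslope f ρ z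
        rw [h0, sub_zero, smul_eq_mul] at this
        exact this.symm
      obtain ⟨l, g, hg, hl, hfg, hc⟩ := ih _ hd
      have hs := cnt_step hρ hd he
      refine ⟨ρ :: l, g, hg, ?_, ?_, ?_⟩
      · intro σ hσ
        rcases List.mem_cons.1 hσ with rfl | h'
        · exact hρ
        · exact hl σ h'
      · intro z; rw [he z, hfg z]; simp [mul_assoc]
      · rcases hc with ⟨h1, h2⟩ | ⟨h1, h2, h3⟩
        · left; refine ⟨by simp [h1], ?_⟩
          rw [hs]; push_cast; rw [add_comm]; gcongr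
        · right; refine ⟨by simp [h1], h2, ?_⟩
          rw [hs, h3]; simp [add_comm]

lemma prod_ge (l : List ℂ) (z : ℂ) {a : ℝ} (ha : 0 ≤ a) (h : ∀ ρ ∈ l, a ≤ ‖z - ρ‖) :
    a ^ l.length ≤ ‖(l.map (fun ρ => z - ρ)).prod‖ := by
  induction l with
  | nil => simp
  | cons ρ l ih =>
    simp only [List.length_cons, List.map_cons, List.prod_cons, norm_mul, pow_succ']
    exact mul_le_mul (h ρ (by simp)) (ih fun σ hσ => h σ (by simp [hσ])) (by positivity)
      (norm_nonneg _)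

lemma prod_le (l : List ℂ) (z : ℂ) {a : ℝ} (ha : 0 ≤ a) (h : ∀ ρ ∈ l, ‖z - ρ‖ ≤ a) :
    ‖(l.map (fun ρ => z - ρ)).prod‖ ≤ a ^ l.length := by
  induction l with
  | nil => simp
  | cons ρ l ih =>
    simp only [List.length_cons, List.map_cons, List.prod_cons, norm_mul, pow_succ']
    exact mul_le_mul (h ρ (by simp)) (ih fun σ hσ => h σ (by simp [hσ])) (norm_nonneg _) ha

lemma maxmod {g : ℂ → ℂ} {c : ℂ} {R R' M : ℝ} (hR : 0 < R) (hRR : R < R')
    (hg : DifferentiableOn ℂ g (ball c R'))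
    (h : ∀ z ∈ sphere c R, ‖g z‖ ≤ M) : ∀ z ∈ closedBall c R, ‖g z‖ ≤ M := by
  intro z hz
  have hd : DiffContOnCl ℂ g (ball c R) := by
    apply DifferentiableOn.diffContOnCl
    rw [closure_ball c hR.ne']
    exact hg.mono (closedBall_subset_ball hRR)
  refine Complex.norm_le_of_forall_mem_frontier_norm_le isBounded_ball hd ?_ ?_
  · rw [frontier_ball c hR.ne']; exact h
  · rw [closure_ball c hR.ne']; exact hz

/-- Jensen-type upper bound. -/
lemma cnt_le {f : ℂ → ℂ} (hf : Differentiable ℂ f) {c : ℂ} {r M : ℝ} (hr : 0 < r) {n : ℕ}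
    (hM : ∀ z ∈ closedBall c (3 * r), ‖f z‖ ≤ M) (hn : M < 2 ^ n * ‖f c‖) :
    zeroCount f (closedBall c r) ≤ n := by
  obtain ⟨l, g, hg, hl, hfg, hc⟩ := factor (closedBall c r) n f hf
  rcases hc with ⟨h1, -⟩ | ⟨h1, -, h3⟩
  · exfalso
    have hs : ∀ z ∈ sphere c (3 * r), ‖g z‖ ≤ M / (2 * r) ^ n := by
      intro z hz
      have h2 : (2 * r) ^ l.length ≤ _ := prod_ge l z (by positivity) (fun ρ hρ => by
        have a1 := mem_closedBall.1 (hl ρ hρ)
        have a2 := mem_sphere.1 hz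
        have a3 := dist_triangle z ρ c
        rw [← dist_eq_norm]; linarith)
      rw [h1] at h2
      rw [le_div_iff₀ (by positivity)]
      have := hM z (sphere_subset_closedBall hz)
      rw [hfg z, norm_mul] at this
      nlinarith [norm_nonneg (g z)]
    have hc := maxmod (R' := 4 * r) (by positivity) (by linarith) hg.differentiableOn hs c
      (mem_closedBall_self (by positivity))
    have h2 : _ ≤ r ^ l.length := prod_le l c hr.le (fun ρ hρ => by
      have a1 := mem_closedBall.1 (hl ρ hρ)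
      rw [← dist_eq_norm, dist_comm]; exact a1)
    rw [h1] at h2
    have h3 : ‖f c‖ ≤ r ^ n * (M / (2 * r) ^ n) := by
      rw [hfg c, norm_mul]; gcongr
    have h4 : r ^ n * (M / (2 * r) ^ n) = M / 2 ^ n := by
      rw [mul_pow]; field_simp
    rw [h4, le_div_iff₀ (by positivity)] at h3
    linarith
  · rw [h3]; exact_mod_cast h1.le

lemma bc {k : ℂ → ℂ} {c : ℂ} {R M : ℝ} (hR : 0 < R) (hM : 0 < M)
    (hk : DifferentiableOn ℂ k (ball c R)) (h0 : k c = 0)
    (h : ∀ z ∈ ball c R, (k z).re ≤ M) : ∀ z ∈ closedBall c (R / 2), ‖k z‖ ≤ 2 * M := by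
  intro z hz
  have hz' : ‖z - c‖ ≤ R / 2 := by rw [← dist_eq_norm]; exact hz
  have hmap : Set.MapsTo (fun w => c + w) (ball 0 R) (ball c R) := by
    intro w hw; simpa using hw
  have := Complex.borelCaratheodory_zero (f := fun w => k (c + w)) (z := z - c) hM
    (hk.comp (by fun_prop) hmap) (fun w hw => h _ (hmap hw)) hR
    (by rw [mem_ball_zero_iff]; linarith) (by simpa using h0)
  simp only [add_sub_cancel] at this
  refine this.trans ?_
  rw [div_le_iff₀ (by linarith)]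
  nlinarith

lemma interp {c : ℂ} {R R1 r : ℝ} (hr : 0 < r) (hrR : r ≤ R1) (hR : R1 < R) (K : ℕ) :
    ∀ (k : ℂ → ℂ) (A B : ℝ), DifferentiableOn ℂ k (ball c R) →
      (∀ z ∈ closedBall c R1, ‖k z‖ ≤ A) → (∀ z ∈ closedBall c r, ‖k z‖ ≤ B) →
      ∀ z ∈ closedBall c R1, ‖k z‖ ≤ B * (∑ j ∈ Finset.range K, (2 * ‖z - c‖ / r) ^ j)
        + A * (2 * ‖z - c‖ / R1) ^ K := by
  induction K with
  | zero => intro k A B _ hA _ z hz; simpa using hA z hz
  | succ K ih =>
    intro k A B hk hA hB z hz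
    have hR1 : 0 < R1 := by linarith
    have hd : DifferentiableOn ℂ (dslope k c) (ball c R) := by
      rw [Complex.differentiableOn_dslope (ball_mem_nhds c (by linarith))]; exact hk
    have he : ∀ w, k w = k c + (w - c) * dslope k c w := by
      intro w
      have := sub_smul_dslope k c w
      rw [smul_eq_mul] at this
      rw [this]; ring
    have key : ∀ (s D : ℝ), 0 < s → s < R → (∀ z ∈ closedBall c s, ‖k z‖ ≤ D) →
        ∀ z ∈ closedBall c s, ‖dslope k c z‖ ≤ 2 * D / s := by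
      intro s D hs hsR hD
      apply maxmod hs hsR hd
      intro w hw
      have a1 : ‖w - c‖ = s := by rw [← dist_eq_norm]; exact hw
      have a2 : (w - c) * dslope k c w = k w - k c := by rw [he w]; ring
      have a3 : s * ‖dslope k c w‖ ≤ 2 * D := by
        rw [← a1, ← norm_mul, a2]
        have := norm_sub_le (k w) (k c)
        have := hD w (sphere_subset_closedBall hw)
        have := hD c (mem_closedBall_self hs.le)
        linarith
      rw [le_div_iff₀ hs]; linarith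
    have h1 := ih _ _ _ hd (key R1 A hR1 hR hA) (key r B hr (by linarith) hB) z hz
    have h2 : ‖k z‖ ≤ B + ‖z - c‖ * ‖dslope k c z‖ := by
      rw [he z, ← norm_mul]
      exact (norm_add_le _ _).trans (by gcongr; exact hB c (mem_closedBall_self hr.le))
    refine h2.trans ?_
    rw [Finset.sum_range_succ', pow_zero]
    have h3 : ‖z - c‖ * ‖dslope k c z‖ ≤ ‖z - c‖ * (2 * B / r *
        (∑ j ∈ Finset.range K, (2 * ‖z - c‖ / r) ^ j) + 2 * A / R1 * (2 * ‖z - c‖ / R1) ^ K) := by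
      gcongr
    refine (add_le_add_right h3 B).trans (le_of_eq ?_)
    simp only [pow_succ, ← Finset.sum_mul]
    field_simp
    ring

lemma exists_log {g : ℂ → ℂ} {c : ℂ} {R : ℝ} (hR : 0 < R) (hg : Differentiable ℂ g)
    (h0 : ∀ z ∈ ball c R, g z ≠ 0) :
    ∃ k : ℂ → ℂ, DifferentiableOn ℂ k (ball c R) ∧ k c = 0 ∧
      ∀ z ∈ ball c R, g z = g c * Complex.exp (k z) := by
  have hq : DifferentiableOn ℂ (fun z => deriv g z / g z) (ball c R) :=
    (hg.deriv.differentiableOn).div hg.differentiableOn h0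
  obtain ⟨k, hk0, hk⟩ := hq.isExactOn_ball.with_val_at c 0
  refine ⟨k, fun z hz => (hk z hz).differentiableAt.differentiableWithinAt, hk0, ?_⟩
  have hder : ∀ z ∈ ball c R, HasDerivAt (fun w => g w * Complex.exp (-k w)) 0 z := by
    intro z hz
    have h1 := ((hg z).hasDerivAt).mul ((hk z hz).neg.cexp)
    have h2 := h0 z hz
    have h3 : deriv g z * Complex.exp (-k z)
        + g z * (Complex.exp (-k z) * -(deriv g z / g z)) = 0 := by
      field_simp; ring
    exact h3 ▸ h1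
  intro z hz
  have := isOpen_ball.is_const_of_deriv_eq_zero (convex_ball c R).isPreconnected
    (fun w hw => (hder w hw).differentiableAt.differentiableWithinAt)
    (fun w hw => (hder w hw).deriv) hz (mem_ball_self hR)
  simp only [hk0, neg_zero, Complex.exp_zero, mul_one] at this
  rw [← this, mul_assoc, ← Complex.exp_add]; simp

/-- Many zeros from growth. -/
lemma many_zeros (C : ℝ) (hC : 0 < C) : ∃ δ > 0, ∃ m0 : ℝ, ∀ m ≥ m0, ∀ (f : ℂ → ℂ) (c z1 : ℂ),
    Differentiable ℂ f → ‖z1 - c‖ ≤ 4 * m →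
    (∀ z ∈ closedBall c (48 * m), ‖f z‖ ≤ Real.exp (C * m ^ 2)) →
    (∀ z ∈ closedBall c (2 * m), 1 / 4 ≤ ‖f z‖ ∧ ‖f z‖ ≤ 2) →
    Real.exp (m ^ 2) / 2 ≤ ‖f z1‖ →
    ENNReal.ofReal (δ * m ^ 2) ≤ zeroCount f (closedBall c (24 * m)) := by
  obtain ⟨K, hK⟩ := exists_pow_lt_of_lt_one (x := 1 / (8 * (C + 2))) (y := (2 / 3 : ℝ))
    (by positivity) (by norm_num)
  set W : ℝ := ∑ j ∈ Finset.range K, (16 : ℝ) ^ j with hW
  have hW0 : 0 ≤ W := Finset.sum_nonneg fun _ _ => by positivity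
  refine ⟨1 / (4 * (4 + 8 * W)), by positivity, 5 + 12 * W, ?_⟩
  intro m hm f c z1 hf hz1 hU hL hB
  have hm1 : 1 ≤ m := by linarith
  have hm0 : 0 < m := by linarith
  obtain ⟨l, g, hg, hl, hfg, hc⟩ := factor (closedBall c (24 * m))
    ⌈1 / (4 * (4 + 8 * W)) * m ^ 2⌉₊ f hf
  rcases hc with ⟨-, h2⟩ | ⟨h1, h2, -⟩
  · refine le_trans ?_ h2
    rw [← ENNReal.ofReal_natCast]
    exact ENNReal.ofReal_le_ofReal (Nat.le_ceil _)
  exfalso
  set p := l.length with hp
  have hpm : (p : ℝ) * (4 + 8 * W) ≤ m ^ 2 / 4 := by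
    have := (Nat.lt_ceil.1 h1).le
    rw [one_div, inv_mul_eq_div, le_div_iff₀ (by positivity)] at this
    linarith
  have hfar : ∀ ρ ∈ l, 2 * m < ‖ρ - c‖ := by
    intro ρ hρ
    by_contra hcon
    have h3 := (hL ρ (by rw [mem_closedBall, dist_eq_norm]; linarith)).1
    have h4 : (l.map (fun σ => ρ - σ)).prod = 0 :=
      List.prod_eq_zero (List.mem_map.2 ⟨ρ, hρ, sub_self ρ⟩)
    rw [hfg ρ, h4] at h3
    norm_num at h3
  have hnear : ∀ ρ ∈ l, ‖ρ - c‖ ≤ 24 * m := fun ρ hρ => by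
    have := hl ρ hρ; rwa [mem_closedBall, dist_eq_norm] at this
  have tri : ∀ z ρ : ℂ, ‖z - c‖ - ‖ρ - c‖ ≤ ‖z - ρ‖ ∧ ‖ρ - c‖ - ‖z - c‖ ≤ ‖z - ρ‖ ∧
      ‖z - ρ‖ ≤ ‖z - c‖ + ‖ρ - c‖ := by
    intro z ρ
    have e : z - ρ = (z - c) - (ρ - c) := by ring
    rw [e]
    refine ⟨norm_sub_norm_le _ _, ?_, norm_sub_le _ _⟩
    rw [norm_sub_rev (z - c)]; exact norm_sub_norm_le _ _
  have g1 : ∀ z ∈ closedBall c (48 * m), ‖g z‖ ≤ Real.exp (C * m ^ 2) / (24 * m) ^ p := by
    apply maxmod (R' := 49 * m) (by positivity) (by linarith) hg.differentiableOn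
    intro z hz
    have a0 : ‖z - c‖ = 48 * m := by rw [← dist_eq_norm]; exact hz
    have a1 : (24 * m) ^ p ≤ _ := prod_ge l z (by positivity) (fun ρ hρ => by
      have := (tri z ρ).1; have := hnear ρ hρ; linarith)
    have a2 := hU z (sphere_subset_closedBall hz)
    rw [hfg z, norm_mul] at a2
    rw [le_div_iff₀ (by positivity)]
    nlinarith [norm_nonneg (g z)]
  have g2 : ∀ z ∈ closedBall c m, ‖g z‖ ≤ 2 / m ^ p := by
    intro z hz
    have a0 : ‖z - c‖ ≤ m := by rw [← dist_eq_norm]; exact hz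
    have a1 : m ^ p ≤ _ := prod_ge l z (by positivity) (fun ρ hρ => by
      have := (tri z ρ).2.1; have := hfar ρ hρ; linarith)
    have a2 := (hL z (closedBall_subset_closedBall (by linarith) hz)).2
    rw [hfg z, norm_mul] at a2
    rw [le_div_iff₀ (by positivity)]
    nlinarith [norm_nonneg (g z)]
  have g3 : 1 / 4 ≤ (24 * m) ^ p * ‖g c‖ := by
    have a1 : _ ≤ (24 * m) ^ p := prod_le l c (by positivity) (fun ρ hρ => by
      rw [norm_sub_rev]; exact hnear ρ hρ)
    have a2 := (hL c (mem_closedBall_self (by positivity))).1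
    rw [hfg c, norm_mul] at a2
    exact a2.trans (by gcongr)
  have g4 : Real.exp (m ^ 2) / 2 ≤ (48 * m) ^ p * ‖g z1‖ := by
    have a1 : _ ≤ (48 * m) ^ p := prod_le l z1 (by positivity) (fun ρ hρ => by
      have := (tri z1 ρ).2.2; have := hnear ρ hρ; linarith)
    rw [hfg z1, norm_mul] at hB
    exact hB.trans (by gcongr)
  obtain ⟨k, hk, hk0, hgk⟩ := exists_log (c := c) (R := 24 * m) (by positivity) hg
    (fun z hz => h2 z (ball_subset_closedBall hz))
  have hnorm : ∀ z ∈ ball c (24 * m), ‖g z‖ = ‖g c‖ * Real.exp (k z).re := by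
    intro z hz; rw [hgk z hz, norm_mul, Complex.norm_exp]
  have e1 : (2.7 : ℝ) ≤ Real.exp 1 := by have := Real.exp_one_gt_d9; linarith
  have e2 : (4 : ℝ) ≤ Real.exp 2 := by
    rw [show (2 : ℝ) = 1 + 1 by norm_num, Real.exp_add]; nlinarith
  have e3 : (8 : ℝ) ≤ Real.exp 3 := by
    rw [show (3 : ℝ) = 2 + 1 by norm_num, Real.exp_add]; nlinarith
  have e4 : (48 : ℝ) ≤ Real.exp 4 := by
    have : (7 : ℝ) ≤ Real.exp 2 := by
      rw [show (2 : ℝ) = 1 + 1 by norm_num, Real.exp_add]; nlinarith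
    rw [show (4 : ℝ) = 2 + 2 by norm_num, Real.exp_add]; nlinarith
  have e4p : (48 : ℝ) ^ p ≤ Real.exp (4 * p) := by
    rw [mul_comm, Real.exp_nat_mul]; gcongr
  have e4p' : (24 : ℝ) ^ p ≤ Real.exp (4 * p) := le_trans (by gcongr; norm_num) e4p
  have hmp : 0 < m ^ p := by positivity
  have k1 : ∀ z ∈ ball c (24 * m), (k z).re ≤ C * m ^ 2 + 2 := by
    intro z hz
    have a1 := g1 z (ball_subset_closedBall (ball_subset_ball (by linarith) hz))
    rw [hnorm z hz, le_div_iff₀ (by positivity)] at a1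
    rw [← Real.exp_le_exp, Real.exp_add]
    have a2 := Real.exp_pos (k z).re
    have a3 := Real.exp_pos (C * m ^ 2)
    nlinarith
  have k2 : ∀ z ∈ ball c m, (k z).re ≤ 3 + 4 * p := by
    intro z hz
    have a1 := g2 z (ball_subset_closedBall hz)
    rw [hnorm z (ball_subset_ball (by linarith) hz), le_div_iff₀ (by positivity)] at a1
    rw [← Real.exp_le_exp, Real.exp_add]
    have a2 := Real.exp_pos (k z).re
    rw [mul_pow] at g3
    have a3 : 1 / 4 * Real.exp (k z).re ≤ 24 ^ p * 2 := by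
      calc 1 / 4 * Real.exp (k z).re ≤ 24 ^ p * m ^ p * ‖g c‖ * Real.exp (k z).re := by gcongr
        _ = 24 ^ p * (‖g c‖ * Real.exp (k z).re * m ^ p) := by ring
        _ ≤ _ := by gcongr
    have a4 : (0 : ℝ) < 24 ^ p := by positivity
    nlinarith
  have hz1b : z1 ∈ ball c (24 * m) := by rw [mem_ball, dist_eq_norm]; linarith
  have k3 : m ^ 2 - 2 - 4 * p ≤ (k z1).re := by
    have a1 := g2 c (mem_closedBall_self hm0.le)
    rw [le_div_iff₀ hmp] at a1
    rw [hnorm z1 hz1b, mul_pow] at g4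
    have a2 := Real.exp_pos (k z1).re
    have a3 : Real.exp (m ^ 2) / 2 ≤ 48 ^ p * 2 * Real.exp (k z1).re := by
      calc _ ≤ _ := g4
        _ = 48 ^ p * (‖g c‖ * m ^ p) * Real.exp (k z1).re := by ring
        _ ≤ _ := by gcongr
    have a4 : Real.exp (m ^ 2) ≤ Real.exp (2 + 4 * p + (k z1).re) := by
      rw [Real.exp_add, Real.exp_add]
      calc Real.exp (m ^ 2) ≤ 4 * 48 ^ p * Real.exp (k z1).re := by linarith
        _ ≤ _ := by gcongr
    rw [Real.exp_le_exp] at a4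
    linarith
  have b1 := bc (by positivity) (by positivity) hk hk0 k1
  have b2 := bc hm0 (by positivity) (hk.mono (ball_subset_ball (by linarith))) hk0 k2
  have i1 := interp (c := c) (R := 24 * m) (R1 := 24 * m / 2) (r := m / 2) (by positivity)
    (by linarith) (by linarith) K k _ _ hk b1 b2 z1
    (by rw [mem_closedBall, dist_eq_norm]; linarith)
  have i2 : ∑ j ∈ Finset.range K, (2 * ‖z1 - c‖ / (m / 2)) ^ j ≤ W := by
    apply Finset.sum_le_sum
    intro j _
    gcongr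
    rw [div_le_iff₀ (by positivity)]; linarith
  have i3 : (2 * ‖z1 - c‖ / (24 * m / 2)) ^ K ≤ 1 / (8 * (C + 2)) := by
    refine le_trans (pow_le_pow_left₀ (by positivity) ?_ K) hK.le
    rw [div_le_iff₀ (by positivity)]; linarith
  have i4 : 2 * (C * m ^ 2 + 2) * (2 * ‖z1 - c‖ / (24 * m / 2)) ^ K ≤ m ^ 2 / 4 := by
    calc _ ≤ 2 * ((C + 2) * m ^ 2) * (1 / (8 * (C + 2))) := by
          gcongr; nlinarith
      _ = m ^ 2 / 4 := by field_simp; ring
  have i5 : 2 * (3 + 4 * (p : ℝ)) * ∑ j ∈ Finset.range K, (2 * ‖z1 - c‖ / (m / 2)) ^ j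
      ≤ 2 * (3 + 4 * p) * W := by gcongr
  have i6 := Complex.re_le_norm (k z1)
  have i7 : m ≤ m ^ 2 := by nlinarith
  have i8 : 2 * (3 + 4 * (p : ℝ)) * W = 6 * W + p * (4 + 8 * W) - 4 * p := by ring
  have i9 : 5 * m ≤ m ^ 2 := by nlinarith
  linarith

end H19Xi
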