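import Mathlib
import Pool.Agent.Lib.helper19.XiZeros

set_option autoImplicit false

namespace Pool.Agent.H19Trunc
open Real Set Metric MeasureTheory

/-- `Φ(t) = ∑_{n ≥ 1} (2n⁴π²e^{9t} - 3n²πe^{5t}) exp(-n²πe^{4t})`. -/
noncomputable def Phi (t : ℝ) : ℝ :=
  ∑' n : ℕ, (2 * ((n:ℝ) + 1) ^ 4 * π ^ 2 * exp (9 * t) - 3 * ((n:ℝ) + 1) ^ 2 * π * exp (5 * t))
    * exp (-(((n:ℝ) + 1) ^ 2 * π * exp (4 * t)))

/-- `F_a(z) = ∫_0^a Φ(t) cos(zt) dt`. -/
noncomputable def F (a : ℝ) (z : ℂ) : ℂ :=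
  ∫ t in (0:ℝ)..a, ((Phi t : ℝ) : ℂ) * Complex.cos (z * (t : ℂ))

lemma diff1 {k : ℂ → ℂ} {c : ℂ} {ρ B d : ℝ} (hd : 0 ≤ d) (hdρ : d < ρ / 2)
    (hk : DifferentiableOn ℂ k (ball c ρ)) (hB : ∀ z ∈ ball c ρ, ‖k z‖ ≤ B) :
    DifferentiableOn ℂ (fun z => k (z + d) - k z) (ball c (ρ / 2)) ∧
      ∀ z ∈ ball c (ρ / 2), ‖k (z + d) - k z‖ ≤ 4 * B * d / ρ := by
  have hρ : 0 < ρ := by linarith
  have hsub : ∀ z ∈ ball c (ρ / 2), ball z (ρ / 2) ⊆ ball c ρ := by
    intro z hz w hw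
    rw [mem_ball] at *
    linarith [dist_triangle w z c]
  have hzd : ∀ z : ℂ, z + d ∈ ball z (ρ / 2) := by
    intro z
    rw [mem_ball, dist_eq_norm, add_sub_cancel_left, Complex.norm_real, Real.norm_eq_abs,
      abs_of_nonneg hd]
    exact hdρ
  refine ⟨DifferentiableOn.sub (hk.comp (by fun_prop) (fun z hz => hsub z hz (hzd z)))
    (hk.mono (ball_subset_ball (by linarith))), fun z hz => ?_⟩
  have h := Complex.dist_le_div_mul_dist_of_mapsTo_ball (R₂ := 2 * B) (hk.mono (hsub z hz))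
    (fun w hw => by
      rw [mem_closedBall, dist_eq_norm]
      have h1 := hB w (hsub z hz hw)
      have h2 := hB z (hsub z hz (mem_ball_self (by linarith)))
      linarith [norm_sub_le (k w) (k z)]) (hzd z)
  rw [dist_eq_norm, dist_eq_norm, add_sub_cancel_left, Complex.norm_real, Real.norm_eq_abs,
    abs_of_nonneg hd] at h
  refine h.trans (le_of_eq ?_)
  field_simp
  ring

lemma third {G : ℂ → ℂ} {c : ℂ} {R M d : ℝ} (hR : 0 < R) (hM : 0 < M) (hd : 0 ≤ d)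
    (hdR : d < R / 16) (hG : Differentiable ℂ G) (h0 : ∀ z ∈ ball c R, G z ≠ 0)
    (hb : ∀ z ∈ ball c R, ‖G z‖ ≤ ‖G c‖ * exp M) (herr : 8192 * M * d ^ 3 / R ^ 3 ≤ 1) :
    ‖G (c + d + d)‖ ^ 3 * ‖G c‖ ≤ exp 1 * (‖G (c + d + d + d)‖ * ‖G (c + d)‖ ^ 3) := by
  obtain ⟨k, hk, hk0, hGk⟩ := H19Xi.exists_log hR hG h0
  have hc : 0 < ‖G c‖ := norm_pos_iff.2 (h0 c (mem_ball_self hR))
  have hn : ∀ z ∈ ball c R, ‖G z‖ = ‖G c‖ * exp (k z).re := by
    intro z hz
    rw [hGk z hz, norm_mul, Complex.norm_exp]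
  have hre : ∀ z ∈ ball c R, (k z).re ≤ M := by
    intro z hz
    have := hb z hz
    rw [hn z hz] at this
    exact exp_le_exp.1 (le_of_mul_le_mul_left this hc)
  have h1 := H19Xi.bc hR hM hk hk0 hre
  obtain ⟨a1, b1⟩ := diff1 (ρ := R / 2) hd (by linarith) (hk.mono (ball_subset_ball (by linarith)))
    (fun z hz => h1 z (ball_subset_closedBall hz))
  obtain ⟨a2, b2⟩ := diff1 hd (by linarith) a1 b1
  obtain ⟨-, b3⟩ := diff1 hd (by linarith) a2 b2
  have h3 := b3 c (mem_ball_self (by linarith))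
  have e : 4 * (4 * (4 * (2 * M) * d / (R / 2)) * d / (R / 2 / 2)) * d / (R / 2 / 2 / 2)
      = 8192 * M * d ^ 3 / R ^ 3 := by field_simp; ring
  rw [e] at h3
  have h4 := (abs_le.1 ((Complex.abs_re_le_norm _).trans (h3.trans herr))).1
  simp only [Complex.sub_re, hk0, Complex.zero_re] at h4
  have m : ∀ x : ℝ, 0 ≤ x → x < R → c + x ∈ ball c R := by
    intro x h1 h2
    rw [mem_ball, dist_eq_norm, add_sub_cancel_left, Complex.norm_real, Real.norm_eq_abs,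
      abs_of_nonneg h1]
    exact h2
  have m1 := m d hd (by linarith)
  have m2 : c + d + d ∈ ball c R := by
    have := m (d + d) (by linarith) (by linarith)
    push_cast at this; rwa [← add_assoc] at this
  have m3 : c + d + d + d ∈ ball c R := by
    have := m (d + d + d) (by linarith) (by linarith)
    push_cast at this; rwa [← add_assoc, ← add_assoc] at this
  rw [hn _ m1, hn _ m2, hn _ m3]
  have e1 : (‖G c‖ * exp (k (c + d + d)).re) ^ 3 * ‖G c‖
      = ‖G c‖ ^ 4 * exp (3 * (k (c + d + d)).re) := by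
    rw [mul_pow, ← exp_nat_mul]; push_cast; ring
  have e2 : exp 1 * (‖G c‖ * exp (k (c + d + d + d)).re * (‖G c‖ * exp (k (c + d)).re) ^ 3)
      = ‖G c‖ ^ 4 * exp (1 + (k (c + d + d + d)).re + 3 * (k (c + d)).re) := by
    rw [mul_pow, ← exp_nat_mul, exp_add, exp_add]; push_cast; ring
  rw [e1, e2]
  exact mul_le_mul_of_nonneg_left (exp_le_exp.2 (by linarith)) (by positivity)

noncomputable def T (n : ℕ) (t : ℝ) : ℝ :=
  (2 * ((n:ℝ) + 1) ^ 4 * π ^ 2 * exp (9 * t) - 3 * ((n:ℝ) + 1) ^ 2 * π * exp (5 * t))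
    * exp (-(((n:ℝ) + 1) ^ 2 * π * exp (4 * t)))

noncomputable def P1 (t : ℝ) : ℝ := exp (9 * t - π * exp (4 * t))

noncomputable def u (n : ℕ) : ℝ := 2 * π ^ 2 * (((n:ℝ) + 1) ^ 4 * exp (-(n:ℝ)))

lemma u_sum : Summable u := by
  have h := (summable_nat_add_iff 1).2 (Real.summable_pow_mul_exp_neg_nat_mul 4 one_pos)
  refine ((h.mul_left (exp 1)).mul_left (2 * π ^ 2)).congr (fun n => ?_)
  unfold u
  push_cast
  rw [show -(n:ℝ) = 1 + -1 * (n + 1) by ring, exp_add]; ring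

lemma T_lower (n : ℕ) {t : ℝ} (ht : 0 ≤ t) :
    exp (9 * t) * exp (-(((n:ℝ) + 1) ^ 2 * π * exp (4 * t))) ≤ T n t := by
  unfold T
  refine mul_le_mul_of_nonneg_right ?_ (exp_pos _).le
  have h1 : exp (5 * t) ≤ exp (9 * t) := exp_le_exp.2 (by linarith)
  have h2 := exp_pos (5 * t)
  have h3 := pi_gt_three
  have h4 : (1:ℝ) ≤ ((n:ℝ) + 1) ^ 2 := by nlinarith [Nat.cast_nonneg (α := ℝ) n]
  have h5 : ((n:ℝ) + 1) ^ 4 = (((n:ℝ) + 1) ^ 2) ^ 2 := by ring
  rw [h5]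
  generalize ((n:ℝ) + 1) ^ 2 = m at h4
  have h6 : 3 ≤ m * π := by nlinarith
  have h7 : 3 * m * π * exp (5 * t) ≤ 3 * m * π * exp (9 * t) :=
    mul_le_mul_of_nonneg_left h1 (by positivity)
  have h8 : 1 ≤ 2 * m ^ 2 * π ^ 2 - 3 * m * π := by nlinarith
  nlinarith [mul_le_mul_of_nonneg_right h8 (exp_pos (9 * t)).le]

lemma T_nonneg (n : ℕ) {t : ℝ} (ht : 0 ≤ t) : 0 ≤ T n t :=
  le_trans (by positivity) (T_lower n ht)

lemma T_upper (n : ℕ) {t : ℝ} (ht : 0 ≤ t) : T n t ≤ u n * P1 t := by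
  have h1 : 1 ≤ exp (4 * t) := one_le_exp (by linarith)
  have h3 := pi_gt_three
  have hn : (0:ℝ) ≤ n := Nat.cast_nonneg n
  have h2 : exp (9 * t) * exp (-(((n:ℝ) + 1) ^ 2 * π * exp (4 * t))) ≤ exp (-(n:ℝ)) * P1 t := by
    unfold P1
    rw [← exp_add, ← exp_add, exp_le_exp]
    have h4 : 1 ≤ π * exp (4 * t) := by nlinarith
    have h5 : (n:ℝ) * 1 ≤ (n ^ 2 + 2 * n) * (π * exp (4 * t)) :=
      mul_le_mul (by nlinarith) h4 zero_le_one (by positivity)
    nlinarith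
  unfold T u
  calc _ ≤ (2 * ((n:ℝ) + 1) ^ 4 * π ^ 2 * exp (9 * t)) * exp (-(((n:ℝ) + 1) ^ 2 * π * exp (4 * t))) := by
        refine mul_le_mul_of_nonneg_right ?_ (exp_pos _).le
        have : 0 ≤ 3 * ((n:ℝ) + 1) ^ 2 * π * exp (5 * t) := by positivity
        linarith
    _ = (2 * π ^ 2 * ((n:ℝ) + 1) ^ 4) * (exp (9 * t) * exp (-(((n:ℝ) + 1) ^ 2 * π * exp (4 * t)))) := by
        ring
    _ ≤ (2 * π ^ 2 * ((n:ℝ) + 1) ^ 4) * (exp (-(n:ℝ)) * P1 t) :=
        mul_le_mul_of_nonneg_left h2 (by positivity)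
    _ = _ := by ring

lemma T_sum {t : ℝ} (ht : 0 ≤ t) : Summable (fun n => T n t) :=
  Summable.of_nonneg_of_le (fun n => T_nonneg n ht) (fun n => T_upper n ht) (u_sum.mul_right _)

noncomputable def C : ℝ := ∑' n, u n

lemma Phi_bd {t : ℝ} (ht : 0 ≤ t) : P1 t ≤ Phi t ∧ Phi t ≤ C * P1 t := by
  constructor
  · have h := (T_sum ht).le_tsum 0 (fun n _ => T_nonneg n ht)
    refine le_trans ?_ ((T_lower 0 ht).trans h)
    unfold P1
    rw [← exp_add]; simp [sub_eq_add_neg]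
  · unfold C
    rw [← tsum_mul_right]
    exact (T_sum ht).tsum_le_tsum (fun n => T_upper n ht) (u_sum.mul_right _)

lemma P1_pos (t : ℝ) : 0 < P1 t := exp_pos _

lemma C_ge : 1 ≤ C := by
  obtain ⟨h1, h2⟩ := Phi_bd (le_refl (0:ℝ))
  have := P1_pos 0
  nlinarith

lemma Phi_cont (a : ℝ) : ContinuousOn Phi (Icc 0 a) := by
  refine continuousOn_tsum (f := T) (u := fun n => u n * exp (9 * a)) (fun n => ?_)
    (u_sum.mul_right _) (fun n t ht => ?_)
  · unfold T; fun_prop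
  · rw [Real.norm_eq_abs, abs_of_nonneg (T_nonneg n ht.1)]
    refine (T_upper n ht.1).trans (mul_le_mul_of_nonneg_left ?_ (by unfold u; positivity))
    unfold P1
    rw [exp_le_exp]
    have : 0 ≤ π * exp (4 * t) := by positivity
    linarith [ht.2]

lemma norm_cosh (z : ℂ) : ‖Complex.cosh z‖ ≤ cosh z.re := by
  rw [Complex.cosh, cosh_eq, norm_div]
  have := norm_add_le (Complex.exp z) (Complex.exp (-z))
  rw [Complex.norm_exp, Complex.norm_exp, Complex.neg_re] at this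
  simp only [Complex.norm_ofNat]
  linarith

lemma norm_sinh (z : ℂ) : ‖Complex.sinh z‖ ≤ cosh z.re := by
  rw [Complex.sinh, cosh_eq, norm_div]
  have := norm_sub_le (Complex.exp z) (Complex.exp (-z))
  rw [Complex.norm_exp, Complex.norm_exp, Complex.neg_re] at this
  simp only [Complex.norm_ofNat]
  linarith

noncomputable def G (a : ℝ) (w : ℂ) : ℂ := ∫ t in (0:ℝ)..a, ((Phi t : ℝ) : ℂ) * Complex.cosh (w * t)

noncomputable def J (a y : ℝ) : ℝ := ∫ t in (0:ℝ)..a, Phi t * cosh (y * t)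

lemma F_eq (a : ℝ) (w : ℂ) : F a (w * Complex.I) = G a w := by
  unfold F G
  congr 1; funext t
  rw [mul_right_comm, Complex.cos_mul_I]

lemma G_real (a y : ℝ) : G a y = (J a y : ℝ) := by
  unfold G J
  rw [← intervalIntegral.integral_ofReal]
  congr 1; funext t; push_cast; rfl

lemma PhiC_cont (a : ℝ) : ContinuousOn (fun t => ((Phi t : ℝ) : ℂ)) (Icc 0 a) :=
  Complex.continuous_ofReal.comp_continuousOn (Phi_cont a)

lemma G_diff {a : ℝ} (ha : 0 ≤ a) : Differentiable ℂ (G a) := by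
  intro w
  have c1 : ∀ x : ℂ, ContinuousOn (fun t : ℝ => ((Phi t : ℝ) : ℂ) * Complex.cosh (x * t)) (Icc 0 a) :=
    fun x => (PhiC_cont a).mul (by fun_prop)
  have c2 : ContinuousOn (fun t : ℝ => ((Phi t : ℝ) : ℂ) * (Complex.sinh (w * t) * t)) (Icc 0 a) :=
    (PhiC_cont a).mul (by fun_prop)
  have hs : uIoc 0 a ⊆ Icc 0 a := by rw [uIoc_of_le ha]; exact Ioc_subset_Icc_self
  have := intervalIntegral.hasDerivAt_integral_of_dominated_loc_of_deriv_le (μ := volume) (a := 0)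
    (b := a) (F := fun (x : ℂ) (t : ℝ) => ((Phi t : ℝ) : ℂ) * Complex.cosh (x * t))
    (F' := fun (x : ℂ) (t : ℝ) => ((Phi t : ℝ) : ℂ) * (Complex.sinh (x * t) * t)) (x₀ := w)
    (bound := fun t => ‖Phi t‖ * (cosh ((‖w‖ + 1) * a) * a)) (ball_mem_nhds w one_pos)
    (Filter.Eventually.of_forall fun x =>
      ((c1 x).mono hs).aestronglyMeasurable measurableSet_uIoc)
    ((c1 w).intervalIntegrable_of_Icc ha)
    ((c2.mono hs).aestronglyMeasurable measurableSet_uIoc)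
    (Filter.Eventually.of_forall fun t ht x hx => by
      have ht' := hs ht
      rw [norm_mul, norm_mul, Complex.norm_real, Complex.norm_real, Real.norm_eq_abs t,
        abs_of_nonneg ht'.1]
      refine mul_le_mul_of_nonneg_left (mul_le_mul ((norm_sinh _).trans ?_) ht'.2 ht'.1
        (cosh_pos _).le) (norm_nonneg _)
      rw [cosh_le_cosh]
      refine (Complex.abs_re_le_norm _).trans ?_
      rw [norm_mul, Complex.norm_real, Real.norm_eq_abs, abs_of_nonneg ht'.1,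
        abs_of_nonneg (by positivity)]
      refine mul_le_mul ?_ ht'.2 ht'.1 (by positivity)
      rw [mem_ball, dist_eq_norm] at hx
      linarith [norm_le_norm_sub_add x w])
    (((Phi_cont a).norm.mul continuousOn_const).intervalIntegrable_of_Icc ha)
    (Filter.Eventually.of_forall fun t ht x hx => by
      have h1 : HasDerivAt (fun x : ℂ => x * (t:ℂ)) (t:ℂ) x := by
        simpa using (hasDerivAt_id x).mul_const (t:ℂ)
      exact h1.ccosh.const_mul _)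
  exact this.2.differentiableAt

lemma Phi_nonneg {t : ℝ} (ht : 0 ≤ t) : 0 ≤ Phi t := (P1_pos t).le.trans (Phi_bd ht).1

lemma G_bd {a c R : ℝ} (ha : 0 ≤ a) {z : ℂ} (hz : z ∈ ball (c:ℂ) R) :
    ‖G a z‖ ≤ J a c * exp (a * R) := by
  unfold G J
  rw [← intervalIntegral.integral_mul_const]
  refine intervalIntegral.norm_integral_le_of_norm_le ha (Filter.Eventually.of_forall fun t ht => ?_)
    ((((Phi_cont a).mul (by fun_prop)).mul continuousOn_const).intervalIntegrable_of_Icc ha)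
  rw [norm_mul, Complex.norm_real, Real.norm_eq_abs, abs_of_nonneg (Phi_nonneg ht.1.le), mul_assoc]
  refine mul_le_mul_of_nonneg_left ((norm_cosh _).trans ?_) (Phi_nonneg ht.1.le)
  rw [mem_ball, dist_eq_norm] at hz
  have h1 := abs_le.1 ((Complex.abs_re_le_norm _).trans hz.le)
  simp only [Complex.sub_re, Complex.ofReal_re] at h1
  have hR : 0 ≤ R := (norm_nonneg _).trans hz.le
  have h2 : (z * t).re = z.re * t := by simp
  have h3 : t * R ≤ a * R := mul_le_mul_of_nonneg_right ht.2 hR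
  have h4 : (z.re - c) * t ≤ R * t := mul_le_mul_of_nonneg_right h1.2 ht.1.le
  have h5 : -R * t ≤ (z.re - c) * t := mul_le_mul_of_nonneg_right h1.1 ht.1.le
  rw [h2, cosh_eq, cosh_eq, div_mul_eq_mul_div, add_mul, ← exp_add, ← exp_add]
  have h6 : exp (z.re * t) ≤ exp (c * t + a * R) := exp_le_exp.2 (by linarith)
  have h7 : exp (-(z.re * t)) ≤ exp (-(c * t) + a * R) := exp_le_exp.2 (by linarith)
  linarith

lemma expo {a L η t : ℝ} (hL : L ^ 2 = 4 * π * exp (4 * a)) (ht : t ≤ a) :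
    ((L ^ 2 + η * L) * a - L ^ 2 / 4) - η * L * (a - t) - 2 * L ^ 2 * (a - t) ^ 2
        ≤ (L ^ 2 + η * L) * t - π * exp (4 * t) ∧
      (L ^ 2 + η * L) * t - π * exp (4 * t) ≤ ((L ^ 2 + η * L) * a - L ^ 2 / 4) - η * L * (a - t) := by
  obtain ⟨s, rfl⟩ : ∃ s, t = a - s := ⟨a - t, by ring⟩
  have hs : 0 ≤ s := by linarith
  have e : π * exp (4 * (a - s)) = L ^ 2 / 4 * exp (-(4 * s)) := by
    rw [hL, show 4 * (a - s) = 4 * a + -(4 * s) by ring, exp_add]; ring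
  have h1 := add_one_le_exp (-(4 * s))
  have h2 : exp (-(4 * s)) ≤ 1 - 4 * s + 8 * s ^ 2 := by
    have h3 := quadratic_le_exp_of_nonneg (x := 4 * s) (by linarith)
    have h4 : exp (-(4 * s)) * exp (4 * s) = 1 := by rw [← exp_add]; simp
    have h5 := exp_pos (-(4 * s))
    have h6 : 0 < 1 - 4 * s + 8 * s ^ 2 := by nlinarith [sq_nonneg (s - 1 / 4)]
    by_contra hn
    push Not at hn
    have h7 : (1 - 4 * s + 8 * s ^ 2) * (1 + 4 * s + (4 * s) ^ 2 / 2) < exp (-(4 * s)) * exp (4 * s) :=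
      mul_lt_mul hn h3 (by positivity) h5.le
    nlinarith [pow_nonneg hs 4]
  have hL2 : 0 ≤ L ^ 2 / 4 := by positivity
  have h8 := mul_le_mul_of_nonneg_left h1 hL2
  have h9 := mul_le_mul_of_nonneg_left h2 hL2
  rw [e]
  constructor <;> nlinarith

lemma J_upper {a L η : ℝ} (ha : 0 ≤ a) (hL0 : 0 < L) (hL : L ^ 2 = 4 * π * exp (4 * a)) (hη : 1 ≤ η)
    (hy : 0 ≤ L ^ 2 - 9 + η * L) :
    J a (L ^ 2 - 9 + η * L) ≤ C * exp ((L ^ 2 + η * L) * a - L ^ 2 / 4) / L := by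
  obtain ⟨ψ, hψ⟩ : ∃ ψ, ψ = (L ^ 2 + η * L) * a - L ^ 2 / 4 := ⟨_, rfl⟩
  have hC : 0 ≤ C := zero_le_one.trans C_ge
  have h1 : J a (L ^ 2 - 9 + η * L) ≤ ∫ t in (0:ℝ)..a, C * exp (ψ - L * (a - t)) := by
    refine intervalIntegral.integral_mono_on ha
      (((Phi_cont a).mul (by fun_prop)).intervalIntegrable_of_Icc ha)
      (Continuous.intervalIntegrable (by fun_prop) _ _) (fun t ht => ?_)
    have h2 : cosh ((L ^ 2 - 9 + η * L) * t) ≤ exp ((L ^ 2 - 9 + η * L) * t) := by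
      rw [cosh_eq]
      have : 0 ≤ (L ^ 2 - 9 + η * L) * t := mul_nonneg hy ht.1
      have : exp (-((L ^ 2 - 9 + η * L) * t)) ≤ exp ((L ^ 2 - 9 + η * L) * t) :=
        exp_le_exp.2 (by linarith)
      linarith
    refine (mul_le_mul (Phi_bd ht.1).2 h2 (cosh_pos _).le (mul_nonneg hC (P1_pos t).le)).trans ?_
    rw [mul_assoc]
    refine mul_le_mul_of_nonneg_left ?_ hC
    unfold P1
    rw [← exp_add, exp_le_exp]
    have h3 := (expo (η := η) hL ht.2).2
    have h4 : 1 * (L * (a - t)) ≤ η * (L * (a - t)) :=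
      mul_le_mul_of_nonneg_right hη (mul_nonneg hL0.le (by linarith [ht.2]))
    rw [hψ]; linarith
  have h2 : ∫ t in (0:ℝ)..a, C * exp (ψ - L * (a - t))
      = C * exp (ψ - L * (a - a)) / L - C * exp (ψ - L * (a - 0)) / L := by
    refine intervalIntegral.integral_eq_sub_of_hasDerivAt
      (f := fun t => C * exp (ψ - L * (a - t)) / L) (fun t _ => ?_)
      (Continuous.intervalIntegrable (by fun_prop) _ _)
    have h3 : HasDerivAt (fun t => ψ - L * (a - t)) L t :=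
      ((((hasDerivAt_id t).const_sub a).const_mul L).const_sub ψ).congr_deriv (by ring)
    exact ((h3.exp.const_mul C).div_const L).congr_deriv (by field_simp)
  rw [h2] at h1
  rw [← hψ]
  have : 0 ≤ C * exp (ψ - L * (a - 0)) / L := by positivity
  simp only [sub_self, mul_zero, sub_zero] at h1 this
  linarith

lemma J_lower {a L η u0 w m : ℝ} (ha : 0 ≤ a) (hL0 : 0 < L) (hL : L ^ 2 = 4 * π * exp (4 * a))
    (hu : 0 ≤ u0) (hw : 0 ≤ w) (huw : (u0 + w) / L ≤ a)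
    (hm : ∀ v, u0 ≤ v → v ≤ u0 + w → m ≤ -(η * v) - 2 * v ^ 2) :
    exp ((L ^ 2 + η * L) * a - L ^ 2 / 4 + m) * w / (2 * L) ≤ J a (L ^ 2 - 9 + η * L) := by
  obtain ⟨ψ, hψ⟩ : ∃ ψ, ψ = (L ^ 2 + η * L) * a - L ^ 2 / 4 := ⟨_, rfl⟩
  have hi : IntervalIntegrable (fun t => Phi t * cosh ((L ^ 2 - 9 + η * L) * t)) volume 0 a :=
    ((Phi_cont a).mul (by fun_prop)).intervalIntegrable_of_Icc ha
  have k1 : 0 ≤ a - (u0 + w) / L := by linarith
  have k2 : a - (u0 + w) / L ≤ a - u0 / L := by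
    have : u0 / L ≤ (u0 + w) / L := div_le_div_of_nonneg_right (by linarith) hL0.le
    linarith
  have k3 : a - u0 / L ≤ a := by
    have : 0 ≤ u0 / L := by positivity
    linarith
  have h1 := intervalIntegral.integral_mono_interval k1 k2 k3
    ((ae_restrict_iff' measurableSet_Ioc).2 (Filter.Eventually.of_forall fun t ht =>
      mul_nonneg (Phi_nonneg ht.1.le) (cosh_pos _).le)) hi
  refine le_trans ?_ h1
  have h2 : ∫ t in (a - (u0 + w) / L)..(a - u0 / L), exp (ψ + m) / 2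
      ≤ ∫ t in (a - (u0 + w) / L)..(a - u0 / L), Phi t * cosh ((L ^ 2 - 9 + η * L) * t) := by
    refine intervalIntegral.integral_mono_on k2 (Continuous.intervalIntegrable (by fun_prop) _ _)
      (hi.mono_set (by
        rw [uIcc_of_le k2, uIcc_of_le ha]; exact Icc_subset_Icc k1 k3)) (fun t ht => ?_)
    have t0 : 0 ≤ t := k1.trans ht.1
    have t1 : t ≤ a := ht.2.trans k3
    have h3 : exp ((L ^ 2 - 9 + η * L) * t) / 2 ≤ cosh ((L ^ 2 - 9 + η * L) * t) := by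
      rw [cosh_eq]; linarith [exp_pos (-((L ^ 2 - 9 + η * L) * t))]
    refine le_trans ?_ (mul_le_mul (Phi_bd t0).1 h3 (by positivity) (Phi_nonneg t0))
    rw [← mul_div_assoc]
    refine div_le_div_of_nonneg_right ?_ (by norm_num)
    unfold P1
    rw [← exp_add, exp_le_exp]
    have h4 := (expo (η := η) hL t1).1
    have v1 : u0 ≤ L * (a - t) := by
      have : u0 / L ≤ a - t := by linarith [ht.2]
      rwa [div_le_iff₀ hL0, mul_comm] at this
    have v2 : L * (a - t) ≤ u0 + w := by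
      have : a - t ≤ (u0 + w) / L := by linarith [ht.1]
      rwa [le_div_iff₀ hL0, mul_comm] at this
    have h5 := hm _ v1 v2
    rw [hψ]; nlinarith
  refine le_trans (le_of_eq ?_) h2
  rw [intervalIntegral.integral_const, smul_eq_mul, ← hψ]
  field_simp
  ring

lemma final {h a L : ℝ} (hh : 2 ≤ h) (hC : 16384 * C ^ 4 * exp 12 < h) (ha : 1 ≤ a) (hL0 : 0 < L)
    (hL : L ^ 2 = 4 * π * exp (4 * a)) (h1 : 64 * (h + 1) < L)
    (h2 : 131072 * (h + 1) ^ 3 * a ≤ L) : ∃ w : ℂ, 0 < w.re ∧ G a w = 0 := by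
  by_contra hn
  push Not at hn
  have ha0 : 0 ≤ a := by linarith
  have hLL : 64 * (h + 1) * L < L ^ 2 := by nlinarith
  have hLb : 192 < L := by linarith
  have hhL : 0 < h * L := by positivity
  have hc : L ^ 2 / 4 ≤ L ^ 2 - 9 + -h * L := by nlinarith
  have lo0 := J_lower (η := -h) (u0 := h / 4) (w := 1) (m := h ^ 2 / 8 - 2) ha0 hL0 hL
    (by positivity) zero_le_one (by rw [div_le_iff₀ hL0]; nlinarith) (fun v v1 v2 => by nlinarith)
  have lo2 := J_lower (η := h + 2) (u0 := 0) (w := 1 / (h + 2)) (m := -3) ha0 hL0 hL le_rfl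
    (by positivity) (by
      have : 1 / (h + 2) ≤ 1 := by rw [div_le_one (by linarith)]; linarith
      rw [div_le_iff₀ hL0]; nlinarith) (fun v v1 v2 => by
      rw [zero_add, le_div_iff₀ (by linarith)] at v2
      have : v ≤ 1 := by nlinarith
      nlinarith)
  have up1 := J_upper (η := 1) ha0 hL0 hL le_rfl (by nlinarith)
  have up3 := J_upper (η := 2 * h + 3) ha0 hL0 hL (by linarith) (by nlinarith)
  have Jn : ∀ y, 0 ≤ J a y := fun y => intervalIntegral.integral_nonneg ha0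
    (fun t ht => mul_nonneg (Phi_nonneg ht.1) (cosh_pos _).le)
  have nG : ∀ y : ℝ, ‖G a y‖ = J a y := fun y => by
    rw [G_real, Complex.norm_real, Real.norm_eq_abs, abs_of_nonneg (Jn y)]
  have key := third (G := G a) (c := ((L ^ 2 - 9 + -h * L : ℝ) : ℂ)) (R := L ^ 2 / 4)
    (M := a * (L ^ 2 / 4)) (d := (h + 1) * L) (by positivity) (by positivity) (by positivity)
    (by linarith) (G_diff ha0) (fun z hz => hn z (by
      rw [mem_ball, dist_eq_norm] at hz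
      have := (abs_lt.1 ((Complex.abs_re_le_norm _).trans_lt hz)).1
      simp only [Complex.sub_re, Complex.ofReal_re] at this
      linarith)) (fun z hz => by rw [nG]; exact G_bd ha0 hz) (by
      rw [div_le_one (by positivity)]
      have : 8192 * (a * (L ^ 2 / 4)) * ((h + 1) * L) ^ 3
          = (131072 * (h + 1) ^ 3 * a) * (L ^ 5 / 64) := by ring
      rw [this, show (L ^ 2 / 4) ^ 3 = L * (L ^ 5 / 64) by ring]
      exact mul_le_mul_of_nonneg_right h2 (by positivity))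
  simp only [← Complex.ofReal_add, nG] at key
  rw [show L ^ 2 - 9 + -h * L + (h + 1) * L + (h + 1) * L + (h + 1) * L
      = L ^ 2 - 9 + (2 * h + 3) * L by ring,
    show L ^ 2 - 9 + -h * L + (h + 1) * L + (h + 1) * L = L ^ 2 - 9 + (h + 2) * L by ring,
    show L ^ 2 - 9 + -h * L + (h + 1) * L = L ^ 2 - 9 + 1 * L by ring] at key
  have hC0 : 0 ≤ C := zero_le_one.trans C_ge
  have k1 := mul_le_mul (pow_le_pow_left₀ (by positivity) lo2 3) lo0 (by positivity)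
    (pow_nonneg (Jn _) 3)
  have k2 := mul_le_mul_of_nonneg_left (mul_le_mul up3 (pow_le_pow_left₀ (Jn _) up1 3)
    (pow_nonneg (Jn _) 3) (by positivity)) (exp_pos 1).le
  have k3 := k1.trans (key.trans k2)
  obtain ⟨Z, hZ⟩ : ∃ Z, Z = 4 * (L ^ 2 * a - L ^ 2 / 4) + (2 * h + 6) * L * a := ⟨_, rfl⟩
  have e1 : (exp ((L ^ 2 + (h + 2) * L) * a - L ^ 2 / 4 + -3) * (1 / (h + 2)) / (2 * L)) ^ 3 *
      (exp ((L ^ 2 + -h * L) * a - L ^ 2 / 4 + (h ^ 2 / 8 - 2)) * 1 / (2 * L))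
      = exp (Z - 11) / L ^ 4 * (exp (h ^ 2 / 8) / (16 * (h + 2) ^ 3)) := by
    have : exp ((L ^ 2 + (h + 2) * L) * a - L ^ 2 / 4 + -3) ^ 3 *
        exp ((L ^ 2 + -h * L) * a - L ^ 2 / 4 + (h ^ 2 / 8 - 2)) = exp (Z - 11) * exp (h ^ 2 / 8) := by
      rw [← exp_nat_mul, ← exp_add, ← exp_add, hZ]; congr 1; push_cast; ring
    generalize exp ((L ^ 2 + (h + 2) * L) * a - L ^ 2 / 4 + -3) = A at this ⊢
    generalize exp ((L ^ 2 + -h * L) * a - L ^ 2 / 4 + (h ^ 2 / 8 - 2)) = B at this ⊢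
    have h3 : (h + 2) ≠ 0 := by linarith
    calc _ = A ^ 3 * B / (L ^ 4 * (16 * (h + 2) ^ 3)) := by field_simp; ring
      _ = _ := by rw [this]; field_simp
  have e2 : exp 1 * (C * exp ((L ^ 2 + (2 * h + 3) * L) * a - L ^ 2 / 4) / L *
      (C * exp ((L ^ 2 + 1 * L) * a - L ^ 2 / 4) / L) ^ 3)
      = exp (Z - 11) / L ^ 4 * (C ^ 4 * exp 12) := by
    have : exp 1 * exp ((L ^ 2 + (2 * h + 3) * L) * a - L ^ 2 / 4) *
        exp ((L ^ 2 + 1 * L) * a - L ^ 2 / 4) ^ 3 = exp (Z - 11) * exp 12 := by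
      rw [← exp_nat_mul, ← exp_add, ← exp_add, ← exp_add, hZ]; congr 1; push_cast; ring
    generalize exp ((L ^ 2 + (2 * h + 3) * L) * a - L ^ 2 / 4) = A at this ⊢
    generalize exp ((L ^ 2 + 1 * L) * a - L ^ 2 / 4) = B at this ⊢
    calc _ = exp 1 * A * B ^ 3 * C ^ 4 / L ^ 4 := by field_simp
      _ = _ := by rw [this]; field_simp
  rw [e1, e2] at k3
  have k4 := le_of_mul_le_mul_left k3 (by positivity)
  rw [div_le_iff₀ (by positivity)] at k4
  have k5 := quadratic_le_exp_of_nonneg (x := h ^ 2 / 8) (by positivity)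
  have k6 : (h + 2) ^ 3 ≤ (2 * h) ^ 3 := pow_le_pow_left₀ (by linarith) (by linarith) 3
  obtain ⟨D, hD⟩ : ∃ D, D = C ^ 4 * exp 12 := ⟨_, rfl⟩
  rw [mul_assoc, ← hD] at hC
  rw [← hD] at k4
  have hD0 : 0 ≤ D := by rw [hD]; positivity
  have k7 : D * (16 * (h + 2) ^ 3) ≤ D * (16 * (2 * h) ^ 3) := by gcongr
  have k8 : 16384 * D * h ^ 3 < h * h ^ 3 := mul_lt_mul_of_pos_right hC (by positivity)
  nlinarith [sq_nonneg h]

theorem main : ∃ a₀ : ℝ, 0 < a₀ ∧ ∀ a : ℝ, a₀ ≤ a → ∃ z : ℂ, F a z = 0 ∧ z.im ≠ 0 := by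
  obtain ⟨h, hh⟩ : ∃ h, h = 16384 * C ^ 4 * exp 12 + 2 := ⟨_, rfl⟩
  have hC0 : 0 ≤ C := zero_le_one.trans C_ge
  have h0 : 0 ≤ 16384 * C ^ 4 * exp 12 := by positivity
  have h2 : 2 ≤ h := by linarith
  refine ⟨131072 * (h + 1) ^ 3, by positivity, fun a ha => ?_⟩
  have h3 : h + 1 ≤ (h + 1) ^ 3 := le_self_pow₀ (by linarith) (by norm_num)
  have ha1 : 1 ≤ a := by linarith
  have hL : a * a ≤ √(4 * π * exp (4 * a)) := by
    refine le_sqrt_of_sq_le ?_
    have h4 := quadratic_le_exp_of_nonneg (x := 2 * a) (by linarith)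
    have h5 : exp (4 * a) = exp (2 * a) ^ 2 := by rw [← exp_nat_mul]; congr 1; push_cast; ring
    have h6 : (a * a) ^ 2 ≤ exp (2 * a) ^ 2 := pow_le_pow_left₀ (by positivity) (by nlinarith) 2
    rw [h5]
    nlinarith [pi_gt_three, sq_nonneg (exp (2 * a))]
  obtain ⟨w, hw, hG⟩ := final (L := √(4 * π * exp (4 * a))) h2 (by linarith) ha1
    (sqrt_pos.2 (by positivity)) (sq_sqrt (by positivity)) (by nlinarith)
    ((mul_le_mul_of_nonneg_right ha (by linarith)).trans hL)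
  exact ⟨w * Complex.I, by rw [F_eq, hG], by simpa using hw.ne'⟩

end Pool.Agent.H19Trunc
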