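import Mathlib

set_option autoImplicit false

namespace Pool.Agent.Lib.helper19.HalfColor

open FreeGroup

variable {I : Type} [DecidableEq I]

/-- the colouring rule for prepending a letter -/
def R (d : I) : Option I × Bool → Option I → Option I
  | (none, _), c => if c = none then some d else none
  | (some a, true), c => if c = none then some a else none
  | (some a, false), c => if c = some a then none else some d

/-- the constraint along an edge -/
def V : Option I → Option I → Option I → Prop
  | none, x, y => (y = none ↔ x ≠ none)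
  | some i, x, y => (y = some i ↔ x = none)

def kap (d : I) (u : FreeGroup (Option I)) : Option I := u.toWord.foldr (R d) none

lemma V_fwd (d : I) (a : Option I) (x : Option I) : V a x (R d (a, true) x) := by
  cases a <;> cases x <;> simp [V, R]

lemma V_bwd (d : I) (a : Option I) (y : Option I) : V a (R d (a, false) y) y := by
  cases a with
  | none => cases y <;> simp [V, R]
  | some i => by_cases h : y = some i <;> simp [V, R, h]

lemma toWord_cases {α : Type} [DecidableEq α] (s : α × Bool) (u : FreeGroup α) :
    (mk [s] * u).toWord = s :: u.toWord ∨ u.toWord = (s.1, !s.2) :: (mk [s] * u).toWord := by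
  have h1 : (mk [s] * u).toWord = reduce (s :: u.toWord) := by
    conv_lhs => rw [← mk_toWord (x := u), mul_mk, toWord_mk]
    rfl
  have h2 : reduce u.toWord = u.toWord := reduce_toWord u
  rw [h1, reduce.cons, h2]
  cases hu : u.toWord with
  | nil => left; rfl
  | cons hd tl =>
    by_cases h : s.1 = hd.1 ∧ s.2 = !hd.2
    · right
      simp only [h, and_self, if_true]
      obtain ⟨a, b⟩ := hd
      simp
    · left
      simp only [h, if_false]

lemma kap_valid (d : I) (a : Option I) (u : FreeGroup (Option I)) :
    V a (kap d u) (kap d (of a * u)) := by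
  have := toWord_cases (a, true) u
  have e : (of a : FreeGroup (Option I)) = mk [(a, true)] := rfl
  rw [e]
  rcases this with h | h
  · have : kap d (mk [(a, true)] * u) = R d (a, true) (kap d u) := by
      unfold kap; rw [h]; rfl
    rw [this]; exact V_fwd d a _
  · have : kap d u = R d (a, false) (kap d (mk [(a, true)] * u)) := by
      unfold kap; rw [h]; rfl
    rw [this]; exact V_bwd d a _

lemma red_right {α : Type} {L₁ L₂ : List (α × Bool)} (h : IsReduced (L₁ ++ L₂)) : IsReduced L₂ :=
  List.IsChain.right_of_append h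

section good
variable {α : Type} [DecidableEq α]

lemma good_mul {W : List (α × Bool)} {v : FreeGroup α} (h : IsReduced (v.toWord ++ W)) :
    (v * mk W).toWord = v.toWord ++ W := by
  conv_lhs => rw [← mk_toWord (x := v), mul_mk, toWord_mk]
  exact h.reduce_eq

lemma good_step {W : List (α × Bool)} (hW : IsReduced (W ++ W)) (hne : W ≠ [])
    {v : FreeGroup α} (h : IsReduced (v.toWord ++ W)) :
    IsReduced ((v * mk W).toWord ++ W) := by
  rw [good_mul h]
  exact IsReduced.append_overlap h hW hne

lemma good_pow {W : List (α × Bool)} (hW : IsReduced (W ++ W)) (hne : W ≠ [])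
    {v : FreeGroup α} (h : IsReduced (v.toWord ++ W)) (k : ℕ) :
    IsReduced ((v * mk W ^ k).toWord ++ W) ∧
      (v * mk W ^ k).toWord = v.toWord ++ (List.replicate k W).flatten := by
  induction k with
  | zero => simpa using h
  | succ k ih =>
    rw [pow_succ, ← mul_assoc]
    refine ⟨good_step hW hne ih.1, ?_⟩
    rw [good_mul ih.1, ih.2, List.replicate_succ', List.flatten_concat, List.append_assoc]

lemma good_letter {W : List (α × Bool)} (hW : IsReduced (W ++ W)) (hne : W ≠ [])
    {v : FreeGroup α} (h : IsReduced (v.toWord ++ W)) (s : α × Bool) :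
    IsReduced ((mk [s] * (v * mk W)).toWord ++ W) := by
  have h1 := good_mul h
  have h2 := good_step hW hne h
  rcases toWord_cases s (v * mk W) with h3 | h3
  · have h4 : IsReduced ((mk [s] * (v * mk W)).toWord) := isReduced_toWord
    rw [h3, h1] at h4 ⊢
    have := IsReduced.append_overlap (L₁ := s :: v.toWord) (L₂ := W) (L₃ := W)
      (by simpa using h4) hW hne
    simpa using this
  · rw [h3] at h2
    exact red_right (L₁ := [(s.1, !s.2)]) h2

lemma exists_good {W : List (α × Bool)} (hW : IsReduced (W ++ W)) (hne : W ≠ [])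
    (u : FreeGroup α) : ∃ m : ℕ, IsReduced ((u * mk W ^ m).toWord ++ W) := by
  have key : ∀ L : List (α × Bool), ∃ m : ℕ, IsReduced ((mk L * mk W ^ m).toWord ++ W) := by
    intro L
    induction L with
    | nil =>
      refine ⟨0, ?_⟩
      have : (mk ([] : List (α × Bool)) * mk W ^ 0) = 1 := by rw [pow_zero, mul_one]; rfl
      rw [this, toWord_one, List.nil_append]
      exact red_right hW
    | cons s L ih =>
      obtain ⟨m, hm⟩ := ih
      refine ⟨m + 1, ?_⟩
      have := good_letter hW hne hm s
      have e : mk (s :: L) * mk W ^ (m + 1) = mk [s] * (mk L * mk W ^ m * mk W) := by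
        have : mk (s :: L) = mk [s] * mk L := rfl
        rw [this, pow_succ]; group
      rw [e]; exact this
  have := key u.toWord
  rwa [mk_toWord] at this

end good

lemma reset (d a : I) {W : List (Option I × Bool)} (hW : IsReduced (W ++ W))
    (ha : (some a, false) ∈ W) (hd : ∀ b, (some d, b) ∉ W) :
    ∃ z, ∀ x, (W ++ W).foldr (R d) x = z := by
  obtain ⟨L1, L2, hL⟩ := List.append_of_mem ha
  have hne : L2 ++ W ≠ [] := by
    intro h
    have := (List.append_eq_nil_iff.1 h).2
    rw [this] at ha; simp at ha
  obtain ⟨s, L3, hs⟩ := List.exists_cons_of_ne_nil hne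
  have e : W ++ W = L1 ++ (some a, false) :: s :: L3 := by
    rw [← hs]; conv_lhs => rw [hL]
    conv_rhs => rw [hL]
    simp
  have had : a ≠ d := fun h => hd false (h ▸ ha)
  have hs' : s ≠ (some a, true) := by
    rw [e] at hW
    have h2 : IsReduced ((some a, false) :: s :: L3) := red_right hW
    have := (isReduced_cons_cons.1 h2).1
    intro h; rw [h] at this; simp at this
  refine ⟨L1.foldr (R d) (some d), fun x => ?_⟩
  rw [e, List.foldr_append]
  congr 1
  simp only [List.foldr_cons]
  generalize L3.foldr (R d) x = y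
  have : R d s y ≠ some a := by
    obtain ⟨s1, s2⟩ := s
    cases s1 with
    | none => by_cases h : y = none <;> simp [R, h, had.symm]
    | some b =>
      cases s2 with
      | true =>
        have : b ≠ a := fun h => hs' (by rw [h])
        by_cases h : y = none <;> simp [R, h, this]
      | false => by_cases h : y = some b <;> simp [R, h, had.symm]
  generalize R d s y = y' at this
  simp [R, this]

lemma exists_col_word (d a : I) {W : List (Option I × Bool)} (hW : IsReduced (W ++ W))
    (ha : (some a, false) ∈ W) (hd : ∀ b, (some d, b) ∉ W) :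
    ∃ c : FreeGroup (Option I) → Option I,
      (∀ a u, V a (c u) (c (of a * u))) ∧ ∀ u, c (u * mk W) = c u := by
  have hne : W ≠ [] := by rintro rfl; simp at ha
  obtain ⟨z, hz⟩ := reset d a hW ha hd
  have ev : ∀ u : FreeGroup (Option I), ∃ c, ∀ᶠ N in Filter.atTop, kap d (u * mk W ^ N) = c := by
    intro u
    obtain ⟨m, hm⟩ := exists_good hW hne u
    refine ⟨(u * mk W ^ m).toWord.foldr (R d) z, ?_⟩
    rw [Filter.eventually_atTop]
    refine ⟨m + 2, fun N hN => ?_⟩
    obtain ⟨k, rfl⟩ := Nat.exists_eq_add_of_le hN
    have e : u * mk W ^ (m + 2 + k) = u * mk W ^ m * mk W ^ (k + 1 + 1) := by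
      rw [mul_assoc, ← pow_add]; congr 2; omega
    unfold kap
    rw [e, (good_pow hW hne hm (k + 1 + 1)).2, List.replicate_succ, List.replicate_succ,
      List.flatten_cons, List.flatten_cons, List.foldr_append, ← List.append_assoc,
      List.foldr_append, hz]
  choose c hc using ev
  refine ⟨c, fun a u => ?_, fun u => ?_⟩
  · obtain ⟨N, h1, h2⟩ := ((hc u).and (hc (of a * u))).exists
    rw [← h1, ← h2, mul_assoc]
    exact kap_valid d a _
  · have h1 := (Filter.tendsto_add_atTop_nat 1).eventually (hc u)
    obtain ⟨N, h1, h2⟩ := (h1.and (hc (u * mk W))).exists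
    rw [← h1, ← h2, mul_assoc, ← pow_succ']

lemma mk_only {α : Type} (g : α) (W : List (α × Bool)) (h : ∀ s ∈ W, s.1 = g) :
    ∃ n : ℤ, mk W = of g ^ n := by
  induction W with
  | nil => exact ⟨0, rfl⟩
  | cons s L ih =>
    obtain ⟨n, hn⟩ := ih (fun t ht => h t (List.mem_cons_of_mem _ ht))
    have hs := h s List.mem_cons_self
    have e : mk (s :: L) = mk [s] * mk L := rfl
    obtain ⟨s1, s2⟩ := s
    simp only at hs
    subst hs
    cases s2 with
    | true => exact ⟨1 + n, by rw [e, hn, zpow_add, zpow_one]; rfl⟩
    | false => exact ⟨-1 + n, by rw [e, hn, zpow_add, zpow_neg_one]; rfl⟩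

lemma exists_col_word' [Infinite I] {W : List (Option I × Bool)} (hW : IsReduced (W ++ W))
    (a : I) (b : Bool) (ha : (some a, b) ∈ W) :
    ∃ c : FreeGroup (Option I) → Option I,
      (∀ a u, V a (c u) (c (of a * u))) ∧ ∀ u, c (u * mk W) = c u := by
  obtain ⟨d, hd⟩ := Infinite.exists_notMem_finset
    ((W.map (fun s => s.1.getD a)).toFinset)
  have hd' : ∀ b, (some d, b) ∉ W := by
    intro b hb
    apply hd
    simp only [List.mem_toFinset, List.mem_map]
    exact ⟨_, hb, rfl⟩
  cases b with
  | false => exact exists_col_word d a hW ha hd'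
  | true =>
    have hW' : IsReduced (invRev W ++ invRev W) := by
      rw [← invRev_append, isReduced_iff_reduce_eq, reduce_invRev, hW.reduce_eq]
    have mem : ∀ s : Option I × Bool, s ∈ invRev W ↔ (s.1, !s.2) ∈ W := by
      intro s
      simp only [invRev, List.mem_reverse, List.mem_map]
      constructor
      · rintro ⟨t, ht, rfl⟩; simpa using ht
      · intro h; exact ⟨_, h, by simp⟩
    obtain ⟨c, h1, h2⟩ := exists_col_word d a hW' ((mem _).2 ha)
      (fun b hb => hd' _ ((mem _).1 hb))
    refine ⟨c, h1, fun u => ?_⟩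
    have := h2 (u * mk W)
    rw [← inv_mk, mul_inv_cancel_right] at this
    exact this.symm

/-- main colouring lemma -/
theorem exists_col [Infinite I] (w : FreeGroup (Option I))
    (hw : ∀ (q : FreeGroup (Option I)) (n : ℤ), w = q * of none ^ n * q⁻¹ → w = 1) :
    ∃ c : FreeGroup (Option I) → Option I,
      (∀ a u, V a (c u) (c (of a * u))) ∧ ∀ u (n : ℤ), c (u * w ^ n) = c u := by
  suffices h : ∃ c : FreeGroup (Option I) → Option I,
      (∀ a u, V a (c u) (c (of a * u))) ∧ ∀ u, c (u * w) = c u by
    obtain ⟨c, h1, h2⟩ := h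
    refine ⟨c, h1, fun u n => ?_⟩
    induction n using Int.induction_on with
    | zero => simp
    | succ n ih => rw [zpow_add_one, ← mul_assoc, h2, ih]
    | pred n ih =>
      rw [← ih, ← h2 (u * w ^ (-(n : ℤ) - 1)), mul_assoc, ← zpow_add_one]
      congr 3; ring
  set W := reduceCyclically w.toWord with hWdef
  have hc : IsCyclicallyReduced W := reduceCyclically.isCyclicallyReduced isReduced_toWord
  have hW : IsReduced (W ++ W) := by
    have := (hc.flatten_replicate 2).isReduced
    simpa [List.replicate] using this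
  set q : FreeGroup (Option I) := mk (reduceCyclically.conjugator w.toWord) with hq
  have hwq : w = q * mk W * q⁻¹ := by
    conv_lhs => rw [← mk_toWord (x := w),
      ← reduceCyclically.conj_conjugator_reduceCyclically w.toWord]
    rw [hq, inv_mk, mul_mk, mul_mk]
  by_cases h : ∀ s ∈ W, s.1 = none
  · obtain ⟨n, hn⟩ := mk_only none W h
    have := hw q n (by rw [← hn]; exact hwq)
    obtain ⟨d⟩ : Nonempty I := inferInstance
    exact ⟨kap d, kap_valid d, fun u => by rw [this, mul_one]⟩
  · push Not at h
    obtain ⟨⟨s1, b⟩, hs, hs1⟩ := h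
    obtain ⟨a, rfl⟩ := Option.ne_none_iff_exists'.1 hs1
    obtain ⟨c, h1, h2⟩ := exists_col_word' hW a b hs
    refine ⟨fun u => c (u * q), fun a u => ?_, fun u => ?_⟩
    · simp only [mul_assoc]; exact h1 a _
    · show c (u * w * q) = c (u * q)
      have : u * w * q = u * q * mk W := by rw [hwq]; group
      rw [this, h2]

/-- a commutative subgroup of a free group is cyclic -/
theorem comm_cyclic {α : Type} (H : Subgroup (FreeGroup α))
    (hH : ∀ a ∈ H, ∀ b ∈ H, a * b = b * a) :
    ∃ w ∈ H, ∀ s ∈ H, ∃ n : ℤ, s = w ^ n := by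
  classical
  have hsub : ∀ a b : IsFreeGroup.Generators H, a = b := by
    intro a b
    by_contra hab
    let f : IsFreeGroup.Generators H → Equiv.Perm (Fin 3) :=
      fun x => if x = a then Equiv.swap 0 1 else Equiv.swap 1 2
    have h1 : (IsFreeGroup.of a : H) * IsFreeGroup.of b = IsFreeGroup.of b * IsFreeGroup.of a :=
      Subtype.ext (hH _ (IsFreeGroup.of a : H).2 _ (IsFreeGroup.of b : H).2)
    have h2 := congrArg (IsFreeGroup.lift f) h1
    rw [_root_.map_mul, _root_.map_mul, IsFreeGroup.lift_of, IsFreeGroup.lift_of] at h2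
    simp only [f, if_true, if_neg (Ne.symm hab)] at h2
    revert h2; decide
  let e := IsFreeGroup.toFreeGroup H
  rcases isEmpty_or_nonempty (IsFreeGroup.Generators H) with h | ⟨⟨g⟩⟩
  · refine ⟨1, H.one_mem, fun s hs => ⟨0, ?_⟩⟩
    have : e ⟨s, hs⟩ = e 1 := Subsingleton.elim _ _
    have := e.injective this
    simpa using congrArg Subtype.val this
  · refine ⟨(e.symm (of g) : H), (e.symm (of g)).2, fun s hs => ?_⟩
    obtain ⟨n, hn⟩ := mk_only g (e ⟨s, hs⟩).toWord (fun t _ => hsub _ _)
    rw [mk_toWord] at hn
    refine ⟨n, ?_⟩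
    have : (⟨s, hs⟩ : H) = e.symm (of g) ^ n := by
      rw [← map_zpow, ← hn, MulEquiv.symm_apply_apply]
    simpa using congrArg Subtype.val this

/-- colouring of a locally commutative action -/
theorem exists_col_action [Infinite I] {X : Type} [MulAction (FreeGroup (Option I)) X]
    (hcomm : ∀ (x : X) (a b : FreeGroup (Option I)), a • x = x → b • x = x → a * b = b * a)
    (hg : ∀ (x : X) (n : ℤ), (of none : FreeGroup (Option I)) ^ n • x = x → n = 0) :
    ∃ col : X → Option I, ∀ (a : Option I) (x : X),
      V a (col x) (col ((of a : FreeGroup (Option I)) • x)) := by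
  have h1 : ∀ x : X, ∃ c : FreeGroup (Option I) → Option I,
      (∀ a u, V a (c u) (c (of a * u))) ∧ ∀ u v, u • x = v • x → c u = c v := by
    intro x
    obtain ⟨w, hw, hgen⟩ := comm_cyclic (MulAction.stabilizer (FreeGroup (Option I)) x)
      (fun a ha b hb => hcomm x a b ha hb)
    obtain ⟨c, hc1, hc2⟩ := exists_col w (by
      intro q n hq
      have hw' : w • x = x := hw
      have : (of none : FreeGroup (Option I)) ^ n • (q⁻¹ • x) = q⁻¹ • x := by
        conv_rhs => rw [← hw', hq]
        simp only [mul_smul, inv_smul_smul]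
      have := hg _ n this
      rw [hq, this]; simp)
    refine ⟨c, hc1, fun u v huv => ?_⟩
    obtain ⟨n, hn⟩ := hgen (v⁻¹ * u) (by
      rw [MulAction.mem_stabilizer_iff, mul_smul, huv, inv_smul_smul])
    rw [← hc2 v n, ← hn, mul_inv_cancel_left]
  choose c hc1 hc2 using h1
  let rep : X → X := fun x =>
    (Quotient.mk (MulAction.orbitRel (FreeGroup (Option I)) X) x).out
  have hrep : ∀ x, ∃ u : FreeGroup (Option I), u • rep x = x := by
    intro x
    have : (MulAction.orbitRel (FreeGroup (Option I)) X).r (rep x) x := Quotient.mk_out (s := MulAction.orbitRel (FreeGroup (Option I)) X) x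
    have h2 := (MulAction.orbitRel (FreeGroup (Option I)) X).symm this
    exact h2
  have hrep2 : ∀ (u : FreeGroup (Option I)) x, rep (u • x) = rep x := by
    intro u x
    have : Quotient.mk (MulAction.orbitRel (FreeGroup (Option I)) X) (u • x) =
        Quotient.mk (MulAction.orbitRel (FreeGroup (Option I)) X) x :=
      Quotient.sound ⟨u, rfl⟩
    simp only [rep, this]
  choose p hp using hrep
  refine ⟨fun x => c (rep x) (p x), fun a x => ?_⟩
  show V a (c (rep x) (p x)) (c (rep (of a • x)) (p (of a • x)))
  have h3 := hp (of a • x)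
  rw [hrep2] at h3 ⊢
  rw [hc2 (rep x) (p (of a • x)) (of a * p x) (by rw [h3, mul_smul, hp])]
  exact hc1 _ a _

end Pool.Agent.Lib.helper19.HalfColor
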