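import Pool.Agent.Lib.helper19.HalfColor

set_option autoImplicit false

namespace Pool.Agent.Lib.helper19.HalfSL

open Pool.Agent.Lib.helper19.HalfColor
open scoped MatrixGroups Pointwise

def A {K : Type} [CommRing K] (t : K) : SL(2, K) :=
  ⟨!![1 + 2 * t, -(2 * t ^ 2); 2, 1 - 2 * t], by rw [Matrix.det_fin_two_of]; ring⟩

def An {K : Type} [CommRing K] (t : K) (n : K) : SL(2, K) :=
  ⟨!![1 + 2 * n * t, -(2 * n * t ^ 2); 2 * n, 1 - 2 * n * t], by rw [Matrix.det_fin_two_of]; ring⟩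

lemma An_add {K : Type} [CommRing K] (t m n : K) : An t (m + n) = An t m * An t n := by
  ext i j
  fin_cases i <;> fin_cases j <;> simp [An, Matrix.mul_apply, Fin.sum_univ_two] <;> ring

lemma An_zero {K : Type} [CommRing K] (t : K) : An t 0 = 1 := by
  ext i j
  fin_cases i <;> fin_cases j <;> simp [An]

lemma An_one {K : Type} [CommRing K] (t : K) : An t 1 = A t := by
  ext i j
  fin_cases i <;> fin_cases j <;> simp [An, A]

lemma An_neg_one {K : Type} [CommRing K] (t : K) : An t (-1) = (A t)⁻¹ := by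
  rw [eq_inv_iff_mul_eq_one, ← An_one, ← An_add]; simp [An_zero]

lemma A_zpow {K : Type} [CommRing K] (t : K) (n : ℤ) : A t ^ n = An t n := by
  induction n using Int.induction_on with
  | zero => simp [An_zero]
  | succ n ih => rw [zpow_add_one, ih, ← An_one, ← An_add]; push_cast; rfl
  | pred n ih =>
    rw [zpow_sub_one, ih, ← An_neg_one, ← An_add]; push_cast; rw [sub_eq_add_neg]

lemma A_map {K L : Type} [CommRing K] [CommRing L] (f : K →+* L) (t : K) :
    Matrix.SpecialLinearGroup.map f (A t) = A (f t) := by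
  ext i j
  fin_cases i <;> fin_cases j <;> simp [A, map_ofNat]

def NZ (K : Type) [Field K] : SubMulAction SL(2, K) (Fin 2 → K) where
  carrier := {v | v ≠ 0}
  smul_mem' := by
    intro g v hv h
    apply hv
    have : g⁻¹ • g • v = g⁻¹ • (0 : Fin 2 → K) := by rw [h]
    rw [inv_smul_smul] at this
    rw [this]
    show (g⁻¹ : SL(2, K)).1.mulVec 0 = 0
    simp

lemma An_smul {K : Type} [Field K] (t n : K) (v : NZ K) :
    (An t n • v).1 0 = v.1 0 + 2 * n * t * (v.1 0 - t * v.1 1) ∧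
    (An t n • v).1 1 = v.1 1 + 2 * n * (v.1 0 - t * v.1 1) := by
  have : (An t n • v).1 = (An t n).1.mulVec v.1 := rfl
  rw [this]
  constructor <;> simp [An, Matrix.mulVec, dotProduct, Fin.sum_univ_two] <;> ring

lemma pingpong {K ι : Type} [Field K] [LinearOrder K] [IsStrictOrderedRing K] [Nontrivial ι]
    (t : ι → K) (ht : ∀ i j, i ≠ j → 2 < |t i - t j|) :
    Function.Injective (FreeGroup.lift (fun i => A (t i))) := by
  let X : ι → Set (NZ K) := fun i =>
    {v | (v.1 0 - t i * v.1 1) ^ 2 ≤ v.1 1 * (v.1 0 - t i * v.1 1)}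
  let Y : ι → Set (NZ K) := fun i =>
    {v | v.1 1 * (v.1 0 - t i * v.1 1) < -(v.1 0 - t i * v.1 1) ^ 2}
  have hb : ∀ i v, v ∈ X i ∨ v ∈ Y i → |v.1 0 - t i * v.1 1| ≤ |v.1 1| := by
    intro i v hv
    set p := v.1 0 - t i * v.1 1 with hp
    have h1 : p ^ 2 ≤ |v.1 1| * |p| := by
      rw [← abs_mul]
      rcases hv with hv | hv
      · exact le_trans hv (le_abs_self _)
      · have : v.1 1 * p < -p ^ 2 := hv
        have := neg_abs_le (v.1 1 * p)
        linarith
    rw [← sq_abs, sq] at h1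
    rcases (abs_nonneg p).eq_or_lt with h | h
    · rw [← h]; exact abs_nonneg _
    · exact le_of_mul_le_mul_right h1 h
  have hd : ∀ i j, i ≠ j → ∀ v, (v ∈ X i ∨ v ∈ Y i) → (v ∈ X j ∨ v ∈ Y j) → False := by
    intro i j hij v hi hj
    have h1 := hb i v hi
    have h2 := hb j v hj
    have h3 := ht i j hij
    have h4 : |t i - t j| * |v.1 1| ≤ 2 * |v.1 1| := by
      rw [← abs_mul]
      have : (t i - t j) * v.1 1 = (v.1 0 - t j * v.1 1) - (v.1 0 - t i * v.1 1) := by ring
      rw [this]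
      have := abs_sub (v.1 0 - t j * v.1 1) (v.1 0 - t i * v.1 1)
      linarith
    have h5 : |v.1 1| = 0 := by
      by_contra h
      have : 0 < |v.1 1| := lt_of_le_of_ne (abs_nonneg _) (Ne.symm h)
      nlinarith
    have h6 : v.1 1 = 0 := abs_eq_zero.1 h5
    rw [h6] at h1
    simp at h1
    apply v.2
    ext k
    fin_cases k <;> simp [h1, h6]
  apply FreeGroup.injective_lift_of_ping_pong (fun i => A (t i)) X Y
  · intro i
    refine ⟨⟨![t i, 1], ?_⟩, ?_⟩
    · intro h; have := congrFun h 1; simp at this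
    · simp [X]
  · intro i j hij
    exact Set.disjoint_left.2 fun v h1 h2 => hd i j hij v (Or.inl h1) (Or.inl h2)
  · intro i j hij
    exact Set.disjoint_left.2 fun v h1 h2 => hd i j hij v (Or.inr h1) (Or.inr h2)
  · intro i j
    refine Set.disjoint_left.2 fun v h1 h2 => ?_
    by_cases hij : i = j
    · subst hij
      have h1' : (v.1 0 - t i * v.1 1) ^ 2 ≤ v.1 1 * (v.1 0 - t i * v.1 1) := h1
      have h2' : v.1 1 * (v.1 0 - t i * v.1 1) < -(v.1 0 - t i * v.1 1) ^ 2 := h2
      nlinarith [sq_nonneg (v.1 0 - t i * v.1 1)]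
    · exact hd i j hij v (Or.inl h1) (Or.inr h2)
  · rintro i _ ⟨v, hv, rfl⟩
    have hv' : ¬ v.1 1 * (v.1 0 - t i * v.1 1) < -(v.1 0 - t i * v.1 1) ^ 2 := hv
    obtain ⟨h0, h1⟩ := An_smul (t i) 1 v
    rw [An_one] at h0 h1
    show ((A (t i) • v).1 0 - t i * (A (t i) • v).1 1) ^ 2 ≤
      (A (t i) • v).1 1 * ((A (t i) • v).1 0 - t i * (A (t i) • v).1 1)
    rw [h0, h1]
    nlinarith
  · rintro i _ ⟨v, hv, rfl⟩
    have hv' : ¬ (v.1 0 - t i * v.1 1) ^ 2 ≤ v.1 1 * (v.1 0 - t i * v.1 1) := hv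
    obtain ⟨h0, h1⟩ := An_smul (t i) (-1) v
    rw [An_neg_one] at h0 h1
    show ((A (t i))⁻¹ • v).1 1 * (((A (t i))⁻¹ • v).1 0 - t i * ((A (t i))⁻¹ • v).1 1) <
      -(((A (t i))⁻¹ • v).1 0 - t i * ((A (t i))⁻¹ • v).1 1) ^ 2
    rw [h0, h1]
    nlinarith

lemma exists_indep : ∃ τ : Option ℝ → ℝ, AlgebraicIndependent ℚ τ := by
  obtain ⟨s, hs⟩ := exists_isTranscendenceBasis ℚ ℝ
  have hne : Nonempty s := by
    by_contra h
    rw [not_nonempty_iff] at h
    have h1 : Algebra.IsAlgebraic ℚ ℝ := (hs.isEmpty_iff_isAlgebraic).1 h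
    exact transcendental_liouvilleNumber (m := 2) le_rfl
      (((IsFractionRing.isAlgebraic_iff ℤ ℚ ℝ).2 (h1.isAlgebraic _)))
  have h := hs.lift_cardinalMk_eq_max_lift
  simp only [Cardinal.lift_id, Cardinal.mk_real, Cardinal.mk_eq_aleph0 ℚ] at h
  have h2 : Cardinal.mk (Option ℝ) ≤ Cardinal.mk s := by
    rw [Cardinal.mk_option, Cardinal.mk_real, Cardinal.add_one_eq Cardinal.aleph0_le_continuum]
    by_contra hlt
    push Not at hlt
    have : Cardinal.aleph0 ⊔ Cardinal.mk s ⊔ Cardinal.aleph0 < Cardinal.continuum :=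
      max_lt (max_lt Cardinal.aleph0_lt_continuum hlt) Cardinal.aleph0_lt_continuum
    exact this.ne' h
  obtain ⟨e⟩ := h2
  exact ⟨_, hs.1.comp e e.injective⟩

lemma exists_free : ∃ τ : Option ℝ → ℝ,
    Function.Injective (FreeGroup.lift (fun i => A (τ i))) := by
  obtain ⟨τ, hτ⟩ := exists_indep
  obtain ⟨e⟩ : Nonempty (Option ℝ ≃ ℝ) := by
    rw [← Cardinal.eq, Cardinal.mk_option, Cardinal.mk_real,
      Cardinal.add_one_eq Cardinal.aleph0_le_continuum]
  let t : Option ℝ → Hyperreal := fun i => ((e i : ℝ) : Hyperreal) * Hyperreal.omega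
  have h1 := pingpong t (by
    intro i j hij
    have h0 : 0 < |e i - e j| := abs_pos.2 (sub_ne_zero.2 (e.injective.ne hij))
    have : t i - t j = ((e i - e j : ℝ) : Hyperreal) * Hyperreal.omega := by
      simp only [t]; push_cast; ring
    rw [this, abs_mul, Hyperreal.abs_omega, ← Hyperreal.coe_abs]
    have h2 := Hyperreal.coe_lt_omega (2 / |e i - e j|)
    have h3 : (0 : Hyperreal) < ((|e i - e j| : ℝ) : Hyperreal) := by exact_mod_cast h0
    rw [Hyperreal.coe_div, div_lt_iff₀ h3] at h2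
    rw [mul_comm]
    exact_mod_cast h2)
  let φ : MvPolynomial (Option ℝ) ℚ →+* ℝ := (MvPolynomial.aeval τ).toRingHom
  let ψ : MvPolynomial (Option ℝ) ℚ →+* Hyperreal := (MvPolynomial.aeval t).toRingHom
  let ρ : FreeGroup (Option ℝ) →* SL(2, MvPolynomial (Option ℝ) ℚ) :=
    FreeGroup.lift (fun i => A (MvPolynomial.X i))
  have e1 : FreeGroup.lift (fun i => A (τ i)) = (Matrix.SpecialLinearGroup.map φ).comp ρ := by
    ext1 i; simp [ρ, A_map, φ]
  have e2 : FreeGroup.lift (fun i => A (t i)) = (Matrix.SpecialLinearGroup.map ψ).comp ρ := by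
    ext1 i; simp [ρ, A_map, ψ]
  have hρ : Function.Injective ρ := by
    rw [e2] at h1
    exact Function.Injective.of_comp (f := Matrix.SpecialLinearGroup.map ψ) h1
  have hφ : Function.Injective (Matrix.SpecialLinearGroup.map (n := Fin 2) φ) := by
    intro a b hab
    ext1 i j
    apply hτ
    have := congrArg (fun m : SL(2, ℝ) => m i j) hab
    exact this
  refine ⟨τ, ?_⟩
  rw [e1]
  exact hφ.comp hρ

lemma fix_eq (g : SL(2, ℝ)) (z : UpperHalfPlane) (h : g • z = z) :
    g 1 1 = g 0 0 - 2 * g 1 0 * z.re ∧ g 0 1 = -(g 1 0 * (z.re ^ 2 + z.im ^ 2)) := by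
  have h1 := UpperHalfPlane.coe_specialLinearGroup_apply g z
  rw [h] at h1
  simp only [Algebra.algebraMap_self, RingHom.id_apply] at h1
  have hden : ((g 1 0 : ℝ) : ℂ) * z + (g 1 1 : ℝ) ≠ 0 := by
    intro h0
    rw [h0, div_zero] at h1
    exact z.ne_zero h1
  rw [eq_div_iff hden] at h1
  have hre := congrArg Complex.re h1
  have him := congrArg Complex.im h1
  simp at hre him
  have hy := z.im_pos
  have e1 : g 1 1 = g 0 0 - 2 * g 1 0 * z.re := by
    apply mul_left_cancel₀ hy.ne'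
    linear_combination him
  refine ⟨e1, ?_⟩
  rw [e1] at hre
  linear_combination -hre

lemma stab_comm (a b : SL(2, ℝ)) (z : UpperHalfPlane) (ha : a • z = z) (hb : b • z = z) :
    a * b = b * a := by
  obtain ⟨a1, a2⟩ := fix_eq a z ha
  obtain ⟨b1, b2⟩ := fix_eq b z hb
  ext i j
  fin_cases i <;> fin_cases j <;>
    simp [Matrix.mul_apply, Fin.sum_univ_two, a1, a2, b1, b2] <;> ring

lemma A_nofix (t : ℝ) (n : ℤ) (z : UpperHalfPlane) (h : A t ^ n • z = z) : n = 0 := by
  rw [A_zpow] at h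
  obtain ⟨h1, h2⟩ := fix_eq _ z h
  simp [An] at h1 h2
  by_contra hn
  have hn' : (n : ℝ) ≠ 0 := by exact_mod_cast hn
  have e1 : z.re = t := by
    apply mul_left_cancel₀ hn'
    linarith
  have hy := z.im_pos
  rcases h2 with h2 | h2
  · rw [e1] at h2; nlinarith
  · exact hn h2

theorem exists_colouring : ∃ (a : Option ℝ → SL(2, ℝ)) (col : UpperHalfPlane → Option ℝ),
    ∀ i x, V i (col x) (col (a i • x)) := by
  obtain ⟨τ, hτ⟩ := exists_free
  let ρ := FreeGroup.lift (fun i => A (τ i))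
  let _ : MulAction (FreeGroup (Option ℝ)) UpperHalfPlane := MulAction.compHom _ ρ
  have hs : ∀ (u : FreeGroup (Option ℝ)) (x : UpperHalfPlane), u • x = ρ u • x := fun _ _ => rfl
  classical
  obtain ⟨col, hcol⟩ := exists_col_action (I := ℝ) (X := UpperHalfPlane)
    (fun x a b ha hb => hτ (by
      rw [map_mul, map_mul]; exact stab_comm _ _ x ha hb))
    (fun x n h => by
      rw [hs, map_zpow] at h
      simp only [ρ, FreeGroup.lift_apply_of] at h
      exact A_nofix _ n x h)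
  refine ⟨fun i => A (τ i), col, fun i x => ?_⟩
  have := hcol i x
  rw [hs] at this
  simpa only [ρ, FreeGroup.lift_apply_of] using this

end Pool.Agent.Lib.helper19.HalfSL
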