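import Mathlib

set_option autoImplicit false

namespace Pool.Agent.Lib.helper19.Heis

open SimpleGraph

/-- The vertices at graph distance at most `r` from `v`. -/
def ball {V : Type} (G : SimpleGraph V) (v : V) (r : ℕ) : Set V := {w | G.edist v w ≤ r}

/-- Vertex-transitivity. -/
def VT {V : Type} (G : SimpleGraph V) : Prop := ∀ u v, ∃ f : G ≃g G, f u = v

/-- Some rooted `r`-ball of `G` is isomorphic, as a rooted graph, to some rooted `r`-ball of `H`. -/
def SameBall {V W : Type} (G : SimpleGraph V) (H : SimpleGraph W) (r : ℕ) : Prop :=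
  ∃ (v : V) (w : W) (φ : G.induce (ball G v r) ≃g H.induce (ball H w r)),
    ∀ x : ball G v r, x.1 = v → (φ x).1 = w

section Aux

section Graph

variable {V W U : Type} {G : SimpleGraph V} {H : SimpleGraph W} {K : SimpleGraph U}

lemma mem_ball_zero {v w : V} : w ∈ ball G v 0 ↔ w = v := by
  simp only [ball, Set.mem_setOf_eq, Nat.cast_zero, nonpos_iff_eq_zero, edist_eq_zero_iff]
  exact eq_comm

lemma self_mem (v : V) (r : ℕ) : v ∈ ball G v r := by simp [ball]

lemma ball_mono {v : V} {r s : ℕ} (h : r ≤ s) : ball G v r ⊆ ball G v s := by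
  intro w hw
  exact le_trans (show G.edist v w ≤ r from hw) (Nat.cast_le.2 h)

lemma ball_step {v u w : V} {r : ℕ} (hu : u ∈ ball G v r) (h : G.Adj u w) :
    w ∈ ball G v (r + 1) := by
  have h1 : G.edist u w = 1 := edist_eq_one_iff_adj.2 h
  have := G.edist_triangle (u := v) (v := u) (w := w)
  rw [h1] at this
  refine le_trans this ?_
  push_cast
  exact add_le_add_left hu _

lemma ball_succ {v w : V} {r : ℕ} (hw : w ∈ ball G v (r + 1)) :
    w ∈ ball G v r ∨ ∃ u ∈ ball G v r, G.Adj u w := by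
  have hne : G.edist v w ≠ ⊤ := ne_top_of_le_ne_top (ENat.coe_ne_top _) hw
  obtain ⟨p, hp⟩ := exists_walk_of_edist_ne_top hne
  have hl : p.length ≤ r + 1 := by
    have : (p.length : ℕ∞) ≤ ((r + 1 : ℕ) : ℕ∞) := hp ▸ hw
    exact_mod_cast this
  cases hq : p.reverse with
  | nil => exact Or.inl (self_mem _ _)
  | cons h q =>
    right
    refine ⟨_, ?_, h.symm⟩
    have e : p.length = q.length + 1 := by
      rw [← p.length_reverse, hq]; simp
    refine le_trans (edist_le q.reverse) ?_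
    rw [q.length_reverse]
    exact_mod_cast (by omega : q.length ≤ r)

/-- a chart of radius `r` -/
structure Chart (G : SimpleGraph V) (v : V) (H : SimpleGraph W) (w : W) (r : ℕ) (ψ : V → W) :
    Prop where
  root : ψ v = w
  inj : Set.InjOn ψ (ball G v r)
  adj : ∀ g ∈ ball G v r, ∀ h ∈ ball G v r, H.Adj (ψ g) (ψ h) ↔ G.Adj g h
  surj : ∀ u ∈ ball H w r, ∃ g ∈ ball G v r, ψ g = u

lemma Chart.maps {v : V} {w : W} {r : ℕ} {ψ : V → W} (C : Chart G v H w r ψ) (k : ℕ)
    (hk : k ≤ r) : ∀ g ∈ ball G v k, ψ g ∈ ball H w k := by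
  induction k with
  | zero => intro g hg; rw [mem_ball_zero.1 hg, C.root]; exact self_mem _ _
  | succ k ih =>
    intro g hg
    rcases ball_succ hg with h | ⟨u, hu, h⟩
    · exact ball_mono (Nat.le_succ k) (ih (by omega) g h)
    · exact ball_step (ih (by omega) u hu)
        ((C.adj u (ball_mono (by omega) hu) g (ball_mono hk hg)).2 h)

lemma Chart.comp {v : V} {w : W} {u : U} {r : ℕ} {ψ : V → W} {χ : W → U}
    (C : Chart G v H w r ψ) (D : Chart H w K u r χ) : Chart G v K u r (χ ∘ ψ) where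
  root := by simp [C.root, D.root]
  inj := D.inj.comp C.inj (C.maps r le_rfl)
  adj := fun g hg h hh => by
    rw [← C.adj g hg h hh, ← D.adj _ (C.maps r le_rfl g hg) _ (C.maps r le_rfl h hh)]; rfl
  surj := fun x hx => by
    obtain ⟨y, hy, rfl⟩ := D.surj x hx
    obtain ⟨z, hz, rfl⟩ := C.surj y hy
    exact ⟨z, hz, rfl⟩

lemma iso_ball (f : G ≃g H) (v : V) (r : ℕ) : ∀ g ∈ ball G v r, f g ∈ ball H (f v) r := by
  induction r with
  | zero => intro g hg; rw [mem_ball_zero.1 hg]; exact self_mem _ _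
  | succ k ih =>
    intro g hg
    rcases ball_succ hg with h | ⟨u, hu, h⟩
    · exact ball_mono (Nat.le_succ k) (ih g h)
    · exact ball_step (ih u hu) (f.map_adj_iff.2 h)

lemma chart_iso (f : G ≃g H) (v : V) (r : ℕ) : Chart G v H (f v) r f where
  root := rfl
  inj := f.injective.injOn
  adj := fun _ _ _ _ => f.map_adj_iff
  surj := fun u hu => ⟨f.symm u, by simpa using iso_ball f.symm _ r u hu, by simp⟩

lemma sameBall_of_chart {v : V} {w : W} {r : ℕ} {ψ : V → W} (C : Chart G v H w r ψ) :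
    SameBall G H r := by
  refine ⟨v, w, ⟨Equiv.ofBijective (fun x => ⟨ψ x.1, C.maps r le_rfl _ x.2⟩) ⟨?_, ?_⟩, ?_⟩, ?_⟩
  · intro x y h
    exact Subtype.ext (C.inj x.2 y.2 (congrArg Subtype.val h))
  · intro y
    obtain ⟨g, hg, e⟩ := C.surj y.1 y.2
    exact ⟨⟨g, hg⟩, Subtype.ext e⟩
  · intro x y
    exact C.adj _ x.2 _ y.2
  · intro x hx
    change ψ x.1 = w
    rw [hx, C.root]

lemma chart_of_sameBall {r : ℕ} (h : SameBall G H r) (hG : VT G) (hH : VT H) (v : V) (w : W) :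
    ∃ ψ, Chart G v H w r ψ := by
  classical
  obtain ⟨v0, w0, φ, hφ⟩ := h
  have C : Chart G v0 H w0 r fun x => if h : x ∈ ball G v0 r then (φ ⟨x, h⟩).1 else w0 := by
    refine ⟨?_, ?_, ?_, ?_⟩
    · rw [dif_pos (self_mem _ _)]; exact hφ _ rfl
    · intro x hx y hy e
      simp only [dif_pos hx, dif_pos hy] at e
      exact congrArg Subtype.val (φ.injective (Subtype.ext e))
    · intro x hx y hy
      simp only [dif_pos hx, dif_pos hy]
      exact φ.map_adj_iff (v := ⟨x, hx⟩) (w := ⟨y, hy⟩)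
    · intro u hu
      refine ⟨(φ.symm ⟨u, hu⟩).1, (φ.symm ⟨u, hu⟩).2, ?_⟩
      simp
  obtain ⟨f, hf⟩ := hG v v0
  obtain ⟨f', hf'⟩ := hH w0 w
  subst hf hf'
  exact ⟨_, ((chart_iso f v r).comp C).comp (chart_iso f' w0 r)⟩

end Graph

section Cay

variable {Γ : Type} [Group Γ]

/-- index of the inverse generator -/
def iv : Fin 12 → Fin 12 := ![1, 0, 3, 2, 5, 4, 7, 6, 9, 8, 11, 10]

/-- Cayley graph -/
def Cay (s : Fin 12 → Γ) (hs : ∀ i, s (iv i) = (s i)⁻¹) : SimpleGraph Γ where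
  Adj g h := g ≠ h ∧ ∃ i, h = g * s i
  symm := ⟨fun g h ⟨h1, i, h2⟩ => ⟨h1.symm, iv i, by rw [h2, hs]; simp⟩⟩
  loopless := ⟨fun _ h => h.1 rfl⟩

variable {s : Fin 12 → Γ} {hs : ∀ i, s (iv i) = (s i)⁻¹}

lemma cay_vt : VT (Cay s hs) := by
  intro u v
  refine ⟨⟨Equiv.mulLeft (v * u⁻¹), ?_⟩, by simp⟩
  intro a b
  simp [Cay, mul_assoc]

lemma mem_cay_ball (r : ℕ) (g : Γ) :
    g ∈ ball (Cay s hs) 1 r ↔ ∃ l : List (Fin 12), l.length ≤ r ∧ g = (l.map s).prod := by
  induction r generalizing g with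
  | zero => simp [mem_ball_zero]
  | succ r ih =>
    constructor
    · intro hg
      rcases ball_succ hg with h | ⟨u, hu, -, i, rfl⟩
      · obtain ⟨l, h1, h2⟩ := (ih g).1 h
        exact ⟨l, by omega, h2⟩
      · obtain ⟨l, h1, rfl⟩ := (ih u).1 hu
        exact ⟨l ++ [i], by simpa using h1, by simp⟩
    · rintro ⟨l, h1, rfl⟩
      induction l using List.reverseRecOn with
      | nil => exact self_mem _ _
      | append_singleton l i _ =>
        have h2 := (ih _).2 ⟨l, by simpa using h1, rfl⟩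
        have e : ((l ++ [i]).map s).prod = (l.map s).prod * s i := by simp
        rw [e]
        by_cases h : (l.map s).prod = (l.map s).prod * s i
        · rw [← h]; exact ball_mono (Nat.le_succ r) h2
        · exact ball_step h2 ⟨h, i, rfl⟩

lemma cay_conn (h : ∀ g : Γ, ∃ l : List (Fin 12), g = (l.map s).prod) : (Cay s hs).Connected := by
  have : ∀ g, (Cay s hs).Reachable 1 g := by
    intro g
    obtain ⟨l, hl⟩ := h g
    exact reachable_of_edist_ne_top
      (ne_top_of_le_ne_top (ENat.coe_ne_top _) ((mem_cay_ball l.length g).2 ⟨l, le_rfl, hl⟩))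
  exact ⟨fun u v => (this u).symm.trans (this v)⟩

lemma cay_nbr (h1 : ∀ i, s i ≠ 1) (g : Γ) :
    (Cay s hs).neighborSet g = Set.range fun i => g * s i := by
  ext h
  constructor
  · rintro ⟨-, i, rfl⟩; exact ⟨i, rfl⟩
  · rintro ⟨i, rfl⟩; exact ⟨by simpa using h1 i, i, rfl⟩

lemma chart_hom {Δ : Type} [Group Δ] (π : Γ →* Δ) (r : ℕ)
    (hπ : Set.InjOn π (ball (Cay s hs) 1 (r + 1))) (hs' : ∀ i, (π ∘ s) (iv i) = ((π ∘ s) i)⁻¹) :
    Chart (Cay s hs) 1 (Cay (π ∘ s) hs') 1 r π where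
  root := map_one π
  inj := hπ.mono (ball_mono (Nat.le_succ r))
  adj := fun g hg h hh => by
    have hg' := ball_mono (Nat.le_succ r) hg
    have hh' := ball_mono (Nat.le_succ r) hh
    constructor
    · rintro ⟨h1, i, h2⟩
      refine ⟨fun e => h1 (by rw [e]), i, hπ hh' ?_ (by simpa using h2)⟩
      obtain ⟨l, a, rfl⟩ := (mem_cay_ball _ _).1 hg
      exact (mem_cay_ball _ _).2 ⟨l ++ [i], by simpa using a, by simp⟩
    · rintro ⟨h1, i, rfl⟩
      exact ⟨fun e => h1 (hπ hg' hh' e), i, by simp⟩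
  surj := fun u hu => by
    obtain ⟨l, a, rfl⟩ := (mem_cay_ball _ _).1 hu
    exact ⟨(l.map s).prod, (mem_cay_ball _ _).2 ⟨l, a, rfl⟩, by simp [map_list_prod]⟩

end Cay

/-- the Heisenberg group -/
@[ext] structure Hs (R : Type) where
  a : R
  b : R
  c : R
  deriving DecidableEq

instance {R : Type} [CommRing R] : Group (Hs R) where
  mul g h := ⟨g.a + h.a, g.b + h.b, g.c + h.c + g.a * h.b⟩
  one := ⟨0, 0, 0⟩
  inv g := ⟨-g.a, -g.b, -g.c + g.a * g.b⟩
  mul_assoc g h k := Hs.ext (add_assoc _ _ _) (add_assoc _ _ _) (by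
    change g.c + h.c + g.a * h.b + k.c + (g.a + h.a) * k.b
      = g.c + (h.c + k.c + h.a * k.b) + g.a * (h.b + k.b)
    ring)
  one_mul g := Hs.ext (zero_add _) (zero_add _) (by
    change 0 + g.c + 0 * g.b = g.c
    ring)
  mul_one g := Hs.ext (add_zero _) (add_zero _) (by
    change g.c + 0 + g.a * 0 = g.c
    ring)
  inv_mul_cancel g := Hs.ext (neg_add_cancel _) (neg_add_cancel _) (by
    change -g.c + g.a * g.b + g.c + -g.a * g.b = 0
    ring)

lemma mul_def {R : Type} [CommRing R] (g h : Hs R) :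
    g * h = ⟨g.a + h.a, g.b + h.b, g.c + h.c + g.a * h.b⟩ := rfl

lemma one_def {R : Type} [CommRing R] : (1 : Hs R) = ⟨0, 0, 0⟩ := rfl

/-- the generators -/
def S : Fin 12 → Hs ℤ := ![⟨1, 0, 0⟩, ⟨-1, 0, 0⟩, ⟨0, 1, 0⟩, ⟨0, -1, 0⟩, ⟨0, 0, 1⟩, ⟨0, 0, -1⟩,
  ⟨1, 1, 2⟩, ⟨-1, -1, -1⟩, ⟨1, -1, 0⟩, ⟨-1, 1, -1⟩, ⟨1, 0, 1⟩, ⟨-1, 0, -1⟩]

lemma hS : ∀ i, S (iv i) = (S i)⁻¹ := by decide

lemma S_ne : ∀ i, S i ≠ 1 := by decide

lemma S_inj : Function.Injective S := by decide

/-- the Cayley graph of the Heisenberg group -/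
def GG : SimpleGraph (Hs ℤ) := Cay S hS

lemma prod_x (k : ℕ) : ((List.replicate k 0).map S).prod = ⟨k, 0, 0⟩ := by
  induction k with
  | zero => rfl
  | succ k ih =>
    rw [List.replicate_succ, List.map_cons, List.prod_cons, ih]
    simp [mul_def, S, add_comm]

lemma prod_y (k : ℕ) : ((List.replicate k 2).map S).prod = ⟨0, k, 0⟩ := by
  induction k with
  | zero => rfl
  | succ k ih =>
    rw [List.replicate_succ, List.map_cons, List.prod_cons, ih]
    simp [mul_def, S, add_comm]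

lemma prod_z (k : ℕ) : ((List.replicate k 4).map S).prod = ⟨0, 0, k⟩ := by
  induction k with
  | zero => rfl
  | succ k ih =>
    rw [List.replicate_succ, List.map_cons, List.prod_cons, ih]
    simp [mul_def, S, add_comm]

lemma gen (g : Hs ℤ) : ∃ l : List (Fin 12), g = (l.map S).prod := by
  let W : Subgroup (Hs ℤ) :=
    { carrier := {g | ∃ l : List (Fin 12), g = (l.map S).prod}
      one_mem' := ⟨[], rfl⟩
      mul_mem' := by
        rintro _ _ ⟨l, rfl⟩ ⟨l', rfl⟩
        exact ⟨l ++ l', by simp⟩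
      inv_mem' := by
        rintro _ ⟨l, rfl⟩
        refine ⟨(l.map iv).reverse, ?_⟩
        rw [List.prod_inv_reverse, List.map_reverse, List.map_map, List.map_map]
        congr 2
        exact List.map_congr_left fun i _ => (hS i).symm }
  have h1 : ∀ (f : ℤ → Hs ℤ), (∀ k, f (-k) = (f k)⁻¹) → (∀ k : ℕ, f k ∈ W) → ∀ k, f k ∈ W := by
    intro f a b k
    obtain ⟨n, rfl | rfl⟩ := k.eq_nat_or_neg
    · exact b n
    · rw [a]; exact W.inv_mem (b n)
  have hx := h1 (fun k => ⟨k, 0, 0⟩) (fun k => by ext <;> simp [Inv.inv])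
    (fun k => ⟨_, (prod_x k).symm⟩) g.a
  have hy := h1 (fun k => ⟨0, k, 0⟩) (fun k => by ext <;> simp [Inv.inv])
    (fun k => ⟨_, (prod_y k).symm⟩) g.b
  have hz := h1 (fun k => ⟨0, 0, k⟩) (fun k => by ext <;> simp [Inv.inv])
    (fun k => ⟨_, (prod_z k).symm⟩) g.c
  have h2 := W.mul_mem (W.mul_mem hy hx) hz
  have h3 : g ∈ W := by simpa [mul_def] using h2
  exact h3

/-- reduction modulo `n` -/
def red (n : ℕ) : Hs ℤ →* Hs (ZMod n) where
  toFun g := ⟨g.a, g.b, g.c⟩
  map_one' := by simp [one_def]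
  map_mul' g h := by simp [mul_def]

lemma exists_model (r : ℕ) : ∃ (n : ℕ) (H : SimpleGraph (Hs (ZMod (n + 1)))),
    H.Connected ∧ VT H ∧ (∀ v, (H.neighborSet v).ncard = 12) ∧
      Chart GG 1 H 1 r (red (n + 1)) := by
  have hfin : (ball GG 1 (r + 1)).Finite := by
    refine ((List.finite_length_le (Fin 12) (r + 1)).image fun l => (l.map S).prod).subset ?_
    intro g hg
    obtain ⟨l, a, rfl⟩ := (mem_cay_ball _ _).1 hg
    exact ⟨l, a, rfl⟩
  obtain ⟨M, hM⟩ := (hfin.image fun g => g.a.natAbs + g.b.natAbs + g.c.natAbs).bddAbove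
  have hM' : ∀ g ∈ ball GG 1 (r + 1), g.a.natAbs + g.b.natAbs + g.c.natAbs ≤ M :=
    fun g hg => hM ⟨g, hg, rfl⟩
  have key : ∀ a b : ℤ, a.natAbs ≤ M → b.natAbs ≤ M → (a : ZMod (2 * M + 1)) = b → a = b := by
    intro a b ha hb h
    rw [ZMod.intCast_eq_intCast_iff_dvd_sub] at h
    have := Int.eq_zero_of_dvd_of_natAbs_lt_natAbs h (by omega)
    omega
  have hinj : Set.InjOn (red (2 * M + 1)) (ball GG 1 (r + 1)) := by
    intro g hg h hh e
    have h1 := hM' g hg
    have h2 := hM' h hh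
    exact Hs.ext (key _ _ (by omega) (by omega) (congrArg Hs.a e))
      (key _ _ (by omega) (by omega) (congrArg Hs.b e))
      (key _ _ (by omega) (by omega) (congrArg Hs.c e))
  have hs' : ∀ i, (red (2 * M + 1) ∘ S) (iv i) = ((red (2 * M + 1) ∘ S) i)⁻¹ := fun i => by
    simp [hS]
  have hSm : ∀ i, S i ∈ ball GG 1 (r + 1) := fun i =>
    (mem_cay_ball _ _).2 ⟨[i], by simp, by simp⟩
  refine ⟨2 * M, Cay _ hs', cay_conn fun g => ?_, cay_vt, fun v => ?_, chart_hom _ r hinj hs'⟩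
  · obtain ⟨l, hl⟩ := gen ⟨g.a.cast, g.b.cast, g.c.cast⟩
    refine ⟨l, ?_⟩
    rw [← List.map_map, ← map_list_prod, ← hl]
    simp [red]
  · rw [cay_nbr (fun i h => S_ne i (hinj (hSm i) (self_mem _ _) (by simpa using h))),
      Set.ncard_range_of_injective]
    · simp
    · intro i j h
      exact S_inj (hinj (hSm i) (hSm j) (by simpa using h))

/-- the link graph -/
def lk (i j : Fin 12) : Bool := decide (∃ k, S j = S i * S k)

lemma rigid (f : Equiv.Perm (Fin 12)) (hf : ∀ i j, lk (f i) (f j) = lk i j) (i : Fin 12) :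
    f i = i := by
  have step : ∀ u u' : Fin 12 → ℕ, (∀ i, u (f i) = u i) →
      (∀ i, u' i = ∑ j, if lk i j then u j else 0) → ∀ i, u' (f i) = u' i := by
    intro u u' h1 h2 i
    rw [h2, h2, ← Equiv.sum_comp f]
    simp_rw [hf, h1]
  have h1 := step (fun _ => 1) ![3, 3, 3, 3, 2, 2, 1, 1, 2, 2, 4, 4] (fun _ => rfl) (by decide +kernel)
  have h2 := step _ ![9, 8, 9, 7, 7, 7, 4, 3, 7, 6, 8, 11] h1 (by decide +kernel)
  have h3 := step _ ![24, 24, 26, 21, 16, 20, 8, 7, 15, 17, 27, 31] h2 (by decide +kernel)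
  have h4 := step _ ![73, 64, 72, 53, 51, 55, 27, 21, 48, 50, 63, 91] h3 (by decide +kernel)
  have hinj : Function.Injective
    (![73, 64, 72, 53, 51, 55, 27, 21, 48, 50, 63, 91] : Fin 12 → ℕ) := by decide +kernel
  exact hinj (h4 i)

variable {W : Type} {H : SimpleGraph W}

/-- a labelling of the neighbours of `w` -/
structure Lab (H : SimpleGraph W) (w : W) (t : Fin 12 → W) : Prop where
  inj : Function.Injective t
  nbr : ∀ u, H.Adj w u ↔ ∃ i, t i = u
  adj : ∀ i j, H.Adj (t i) (t j) ↔ lk i j = true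

lemma Lab.unique {w : W} {t t' : Fin 12 → W} (L : Lab H w t) (L' : Lab H w t') : t = t' := by
  choose f hf using fun i => (L.nbr (t' i)).1 ((L'.nbr _).2 ⟨i, rfl⟩)
  have hfi : Function.Injective f := fun i j h => L'.inj (by rw [← hf, ← hf, h])
  have := rigid (Equiv.ofBijective f (Finite.injective_iff_bijective.1 hfi)) (by
    intro i j
    change lk (f i) (f j) = lk i j
    rw [Bool.eq_iff_iff, ← L.adj, ← L'.adj, hf, hf])
  funext i
  rw [← hf]
  exact congrArg t (this i).symm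

lemma Lab.map {w : W} {t : Fin 12 → W} (L : Lab H w t) (f : H ≃g H) : Lab H (f w) (f ∘ t) where
  inj := f.injective.comp L.inj
  nbr := fun u => by
    obtain ⟨u, rfl⟩ := f.surjective u
    rw [f.map_adj_iff, L.nbr]
    simp
  adj := fun i j => by rw [← L.adj]; exact f.map_adj_iff

lemma Chart.lab {w : W} {r : ℕ} {ψ : Hs ℤ → W} (C : Chart GG 1 H w (r + 1) ψ) (g : Hs ℤ)
    (hg : g ∈ ball GG 1 r) : Lab H (ψ g) fun i => ψ (g * S i) := by
  have hadj : ∀ i, GG.Adj g (g * S i) := fun i => ⟨by simpa using S_ne i, i, rfl⟩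
  have hm : ∀ i, g * S i ∈ ball GG 1 (r + 1) := fun i => ball_step hg (hadj i)
  have hg' := ball_mono (Nat.le_succ r) hg
  refine ⟨fun i j h => S_inj (mul_left_cancel (C.inj (hm i) (hm j) h)), fun u => ⟨fun h => ?_, ?_⟩,
    fun i j => ?_⟩
  · obtain ⟨k, hk, rfl⟩ := C.surj u (ball_step (C.maps r (Nat.le_succ r) g hg) h)
    obtain ⟨-, i, rfl⟩ := (C.adj _ hg' _ hk).1 h
    exact ⟨i, rfl⟩
  · rintro ⟨i, rfl⟩
    exact (C.adj _ hg' _ (hm i)).2 (hadj i)
  · rw [C.adj _ (hm i) _ (hm j), lk, decide_eq_true_iff]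
    constructor
    · rintro ⟨-, k, hk⟩
      exact ⟨k, by simpa [mul_assoc] using hk⟩
    · rintro ⟨k, hk⟩
      exact ⟨by rw [hk, ← mul_assoc]; simpa using S_ne k, k, by rw [hk, mul_assoc]⟩

theorem lower [Finite W] (hc : H.Connected) (hV : VT H) (ρ : ℕ) (hρ : 1 ≤ ρ)
    (hch : ∀ w, ∃ ψ, Chart GG 1 H w (3 * ρ) ψ) : ρ ^ 2 ≤ 2 * H.diam + 1 := by
  obtain ⟨r, hr⟩ : ∃ r, 3 * ρ = r + 1 := ⟨3 * ρ - 1, by omega⟩
  rw [hr] at hch
  choose ψ C using hch
  obtain ⟨σ0, hσ0⟩ : ∃ σ0 : Fin 12 → W → W, ∀ i w, σ0 i w = ψ w (1 * S i) := ⟨_, fun _ _ => rfl⟩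
  have hL : ∀ w, Lab H w fun i => σ0 i w := fun w => by
    have := (C w).lab 1 (self_mem _ _)
    rw [(C w).root] at this
    simpa [hσ0] using this
  have hstep : ∀ w g, g ∈ ball GG 1 r → ∀ i, σ0 i (ψ w g) = ψ w (g * S i) := fun w g hg i =>
    congrFun ((hL _).unique ((C w).lab g hg)) i
  have hinv : ∀ i w, σ0 (iv i) (σ0 i w) = w := by
    intro i w
    rw [hσ0 i, hstep w _ ((mem_cay_ball _ _).2 ⟨[i], by simp; omega, by simp⟩), hS]
    simp [(C w).root]
  have hiv : ∀ i, iv (iv i) = i := by decide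
  obtain ⟨σ, hσ⟩ : ∃ σ : Fin 12 → Equiv.Perm W, ∀ i w, σ i w = σ0 i w :=
    ⟨fun i => ⟨σ0 i, σ0 (iv i), hinv i, fun w => by simpa [hiv] using hinv (iv i) w⟩,
      fun _ _ => rfl⟩
  obtain ⟨act, hact0, hact⟩ : ∃ act : List (Fin 12) → Equiv.Perm W, act [] = 1 ∧
      ∀ l i, act (l ++ [i]) = σ i * act l :=
    ⟨fun l => (l.reverse.map σ).prod, rfl, fun l i => by simp⟩
  have hword : ∀ (l : List (Fin 12)) w, l.length ≤ r + 1 → act l w = ψ w (l.map S).prod := by
    intro l w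
    induction l using List.reverseRecOn with
    | nil => intro _; rw [hact0]; exact (C w).root.symm
    | append_singleton l i ih =>
      intro hl
      have hl' : l.length ≤ r := by simpa using hl
      rw [hact, Equiv.Perm.mul_apply, ih (by omega), hσ,
        hstep w _ ((mem_cay_ball _ _).2 ⟨l, hl', rfl⟩)]
      simp
  have hrel : ∀ l l' : List (Fin 12), l.length ≤ 3 → l'.length ≤ 3 →
      (l.map S).prod = (l'.map S).prod → act l = act l' := by
    intro l l' a b e
    ext w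
    rw [hword l w (by omega), hword l' w (by omega), e]
  have a1 : ∀ i, act [i] = σ i := fun i => by simpa [hact0] using hact [] i
  have a2 : ∀ i j, act [i, j] = σ j * σ i := fun i j => by simpa [a1] using hact [i] j
  have a3 : ∀ i j k, act [i, j, k] = σ k * (σ j * σ i) := fun i j k => by
    simpa [a2] using hact [i, j] k
  have hZ : ∀ i, Commute (σ i) (σ 4) := fun i => by
    have := hrel [4, i] [i, 4] (by simp) (by simp) (by revert i; decide)
    rwa [a2, a2] at this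
  have h5 : σ 5 = (σ 4)⁻¹ := by
    rw [eq_inv_iff_mul_eq_one, ← a2, ← hact0]
    exact hrel _ _ (by simp) (by simp) (by decide)
  have hY : ∀ i, σ 2 * σ i = σ 4 ^ (S i).a * (σ i * σ 2) := by
    intro i
    have : (S i).a = 0 ∧ ([i, 2].map S).prod = ([2, i].map S).prod ∨
        (S i).a = 1 ∧ ([i, 2].map S).prod = ([2, i, 4].map S).prod ∨
        (S i).a = -1 ∧ ([i, 2].map S).prod = ([2, i, 5].map S).prod := by revert i; decide
    rcases this with ⟨h, e⟩ | ⟨h, e⟩ | ⟨h, e⟩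
    · have := hrel _ _ (by simp) (by simp) e
      rw [a2, a2] at this
      simpa [h] using this
    · have := hrel _ _ (by simp) (by simp) e
      rw [a2, a3] at this
      simpa [h] using this
    · have := hrel _ _ (by simp) (by simp) e
      rw [a2, a3, h5] at this
      simpa [h] using this
  have hb0 : ∀ i, (S i).a.natAbs ≤ 1 := by decide
  have hdeg : ∀ l : List (Fin 12), Commute (act l) (σ 4) ∧ ((l.map S).prod.a.natAbs ≤ l.length ∧
      σ 2 * act l = σ 4 ^ (l.map S).prod.a * (act l * σ 2)) := by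
    intro l
    induction l using List.reverseRecOn with
    | nil => simp [hact0, one_def]
    | append_singleton l i ih =>
      have e : ((l ++ [i]).map S).prod.a = (S i).a + (l.map S).prod.a := by
        simp [mul_def, add_comm]
      have hb : (S i).a.natAbs ≤ 1 := hb0 i
      refine ⟨hact l i ▸ (hZ i).mul_left ih.1, by rw [e]; simp; omega, ?_⟩
      rw [hact, e, ← mul_assoc, hY, mul_assoc, mul_assoc, ih.2.2, zpow_add, ← mul_assoc (σ i),
        ((hZ i).zpow_right _).eq]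
      simp only [mul_assoc]
  have hrep : ∀ (l : List (Fin 12)) i k, act (l ++ List.replicate k i) = σ i ^ k * act l := by
    intro l i k
    induction k with
    | zero => simp
    | succ k ih => rw [List.replicate_succ', ← List.append_assoc, hact, ih, pow_succ', mul_assoc]
  have hX : ∀ k : ℕ, σ 2 * σ 0 ^ k = σ 4 ^ k * (σ 0 ^ k * σ 2) := by
    intro k
    have := (hdeg (List.replicate k 0)).2.2
    have e := hrep [] 0 k
    rw [List.nil_append, hact0, mul_one] at e
    rw [prod_x, e] at this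
    simpa using this
  have hXY : ∀ k m : ℕ, σ 2 ^ m * σ 0 ^ k = σ 4 ^ (k * m) * (σ 0 ^ k * σ 2 ^ m) := by
    intro k m
    induction m with
    | zero => simp
    | succ m ih =>
      rw [pow_succ', mul_assoc, ih, ← mul_assoc, ((hZ 2).pow_right _).eq, mul_assoc,
        ← mul_assoc (σ 2), hX, Nat.mul_succ, pow_add]
      simp only [mul_assoc]
  obtain ⟨w0⟩ := hc.nonempty
  have hord : ρ ^ 2 ≤ orderOf (σ 4) := by
    by_contra hlt
    push Not at hlt
    obtain ⟨n, hn⟩ : ∃ n, n = orderOf (σ 4) := ⟨_, rfl⟩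
    have hn0 : 0 < n := hn ▸ orderOf_pos _
    rw [← hn] at hlt
    have hq : n / ρ < ρ := by rw [Nat.div_lt_iff_lt_mul (by omega)]; nlinarith
    have hs : n % ρ < ρ := Nat.mod_lt _ (by omega)
    have e1 : act (([] ++ List.replicate (n % ρ) 4 ++ List.replicate (n / ρ) 0) ++
        List.replicate ρ 2) = act (([] ++ List.replicate ρ 2) ++ List.replicate (n / ρ) 0) := by
      simp only [hrep, hact0, mul_one]
      rw [← mul_assoc, hXY, mul_assoc, mul_assoc, (((hZ 2).pow_left _).pow_right _).eq,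
        ← mul_assoc (σ 0 ^ _), (((hZ 0).pow_left _).pow_right _).eq, ← mul_assoc, ← mul_assoc,
        ← pow_add, Nat.div_add_mod', hn, pow_orderOf_eq_one, one_mul]
    have e2 := congrArg (fun p : Equiv.Perm W => p w0) e1
    beta_reduce at e2
    rw [hword _ _ (by simp; omega), hword _ _ (by simp; omega)] at e2
    have e3 := (C w0).inj ((mem_cay_ball _ _).2 ⟨_, by simp; omega, rfl⟩)
      ((mem_cay_ball _ _).2 ⟨_, by simp; omega, rfl⟩) e2
    simp only [List.nil_append, List.map_append, List.prod_append, prod_x, prod_y, prod_z] at e3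
    have e4 := congrArg Hs.c e3
    simp only [mul_def] at e4
    have e5 : ((n / ρ * ρ + n % ρ : ℕ) : ℤ) = 0 := by push_cast at e4 ⊢; linarith
    rw [Nat.div_add_mod'] at e5
    omega
  have hcomm : ∀ (f : H ≃g H) (l : List (Fin 12)) w, act l (f w) = f (act l w) := by
    intro f l w
    induction l using List.reverseRecOn with
    | nil => simp [hact0]
    | append_singleton l i ih =>
      rw [hact, Equiv.Perm.mul_apply, Equiv.Perm.mul_apply, ih, hσ, hσ]
      exact congrFun ((hL _).unique ((hL _).map f)) i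
  have hreach : ∀ k, ∀ u ∈ ball H w0 k, ∃ l : List (Fin 12), l.length ≤ k ∧ act l w0 = u := by
    intro k
    induction k with
    | zero => intro u hu; exact ⟨[], le_rfl, by rw [hact0, mem_ball_zero.1 hu]; rfl⟩
    | succ k ih =>
      intro u hu
      rcases ball_succ hu with h | ⟨v, hv, h⟩
      · obtain ⟨l, a, b⟩ := ih u h
        exact ⟨l, by omega, b⟩
      · obtain ⟨l, a, rfl⟩ := ih v hv
        obtain ⟨i, rfl⟩ := ((hL _).nbr u).1 h
        exact ⟨l ++ [i], by simpa using a, by rw [hact, Equiv.Perm.mul_apply, hσ]⟩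
  haveI : Nonempty W := ⟨w0⟩
  have hne : H.ediam ≠ ⊤ := connected_iff_ediam_ne_top.1 hc
  obtain ⟨l, hl1, hl2⟩ := hreach H.diam (act (List.replicate (H.diam + 1) 0) w0) (by
    change _ ≤ ((H.diam : ℕ) : ℕ∞)
    rw [SimpleGraph.diam, ENat.coe_toNat hne]
    exact edist_le_ediam)
  have heq : act l = act (List.replicate (H.diam + 1) 0) := by
    ext w
    obtain ⟨f, rfl⟩ := hV w0 w
    rw [hcomm, hcomm, hl2]
  have d1 := hdeg l
  have d2 := (hdeg (List.replicate (H.diam + 1) 0)).2.2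
  rw [prod_x, ← heq, d1.2.2, mul_left_inj, zpow_eq_zpow_iff_modEq] at d2
  have d4 : (orderOf (σ 4) : ℤ) ∣ ((H.diam + 1 : ℕ) : ℤ) - (l.map S).prod.a := d2.dvd
  have := d1.2.1
  have d3 := Int.le_of_dvd (by omega) d4
  omega

lemma main (c : ℝ) : ∃ r : ℕ, 1 ≤ r ∧ ∀ (W : Type) [Finite W] (H : SimpleGraph W),
    H.Connected → VT H → (∀ w, ∃ ψ, Chart GG 1 H w r ψ) → c * r < H.diam := by
  obtain ⟨ρ, hρ⟩ := exists_nat_gt (6 * |c| + 1)
  have h0 := abs_nonneg c
  have hρ1 : (1 : ℝ) < ρ := by linarith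
  have hρ2 : 1 ≤ ρ := by exact_mod_cast hρ1.le
  refine ⟨3 * ρ, by omega, fun W _ H hc hV hch => ?_⟩
  have h := lower hc hV ρ hρ2 hch
  have h' : (ρ : ℝ) ^ 2 ≤ 2 * H.diam + 1 := by exact_mod_cast h
  have := le_abs_self c
  push_cast
  nlinarith

instance (n : ℕ) : Finite (Hs (ZMod (n + 1))) :=
  Finite.of_injective (fun g => (g.a, g.b, g.c)) fun g h e => by
    simp only [Prod.mk.injEq] at e
    exact Hs.ext e.1 e.2.1 e.2.2

end Aux

/-- Both questions have a negative answer. -/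
theorem both :
    (∃ (V : Type) (G : SimpleGraph V), Infinite V ∧ G.Connected ∧
      (∀ v, (G.neighborSet v).Finite) ∧ VT G ∧
      (∀ r : ℕ, 1 ≤ r → ∃ (W : Type) (H : SimpleGraph W),
        Finite W ∧ H.Connected ∧ VT H ∧ SameBall G H r) ∧
      ∀ c : ℝ, ∃ r : ℕ, 1 ≤ r ∧ ∀ (W : Type) (H : SimpleGraph W),
        Finite W → H.Connected → VT H → SameBall G H r → c * r < H.diam) ∧
    (∃ d : ℕ, ∀ c : ℝ, ∃ (W : Type) (H : SimpleGraph W) (r : ℕ),
      Finite W ∧ H.Connected ∧ VT H ∧ (∀ v, (H.neighborSet v).ncard = d) ∧ 1 ≤ r ∧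
      ∀ (W' : Type) (H' : SimpleGraph W'),
        Finite W' → H'.Connected → VT H' → SameBall H H' r → c * r < H'.diam) := by
  refine ⟨⟨Hs ℤ, GG, ?_, cay_conn gen, fun v => ?_, cay_vt, fun r _ => ?_, fun c => ?_⟩,
    12, fun c => ?_⟩
  · exact Infinite.of_injective (fun k : ℤ => (⟨k, 0, 0⟩ : Hs ℤ)) fun a b h => congrArg Hs.a h
  · rw [GG, cay_nbr S_ne]; exact Set.finite_range _
  · obtain ⟨n, H, h1, h2, -, h4⟩ := exists_model r
    exact ⟨_, H, inferInstance, h1, h2, sameBall_of_chart h4⟩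
  · obtain ⟨r, hr, h⟩ := main c
    exact ⟨r, hr, fun W H _ h1 h2 h3 => h W H h1 h2 fun w => chart_of_sameBall h3 cay_vt h2 1 w⟩
  · obtain ⟨r, hr, h⟩ := main c
    obtain ⟨n, H, h1, h2, h3, h4⟩ := exists_model r
    refine ⟨_, H, r, inferInstance, h1, h2, h3, hr, fun W' H' _ a1 a2 a3 => h W' H' a1 a2 fun w => ?_⟩
    obtain ⟨ψ, C⟩ := chart_of_sameBall a3 h2 a2 1 w
    exact ⟨_, h4.comp C⟩

end Pool.Agent.Lib.helper19.Heis
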