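import Mathlib

/-! A transfinite recursion of length continuum adding finitely many points at each step. -/

namespace Pool.Agent.Lib.helper19.Recur3

open Cardinal

theorem recur3 {T Y : Type} (hT : #T ≤ 𝔠) (P : Set Y → Prop) (R : T → Set Y → Prop)
    (h0 : P ∅) (hmono : ∀ A A', A ⊆ A' → P A' → P A)
    (hfin : ∀ A, (∀ F : Finset Y, ↑F ⊆ A → P ↑F) → P A)
    (hR : ∀ t A A', A ⊆ A' → R t A → R t A')
    (hstep : ∀ A : Set Y, #A < 𝔠 → P A → ∀ t, ∃ F : Finset Y, R t (A ∪ ↑F) ∧ P (A ∪ ↑F)) :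
    ∃ A, P A ∧ ∀ t, R t A := by
  classical
  obtain ⟨_, _, hord⟩ := exists_ord_eq_type_lt T
  let Q : ∀ t : T, (∀ u, u < t → Finset Y) → Finset Y → Prop := fun t r x =>
    R t ({y | ∃ u h, y ∈ r u h} ∪ ↑x) ∧ P ({y | ∃ u h, y ∈ r u h} ∪ ↑x)
  let g : T → Finset Y := wellFounded_lt.fix fun t r => Classical.epsilon (Q t r)
  have hg : ∀ t, g t = Classical.epsilon (Q t fun u _ => g u) := fun t =>
    WellFounded.fix_eq _ _ _
  have key : ∀ A : Set T, (∀ u ∈ A, Q u (fun v _ => g v) (g u)) → P (⋃ u ∈ A, ↑(g u)) := by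
    intro A hA
    apply hfin
    intro F hF
    have : ∀ y : F, ∃ u ∈ A, y.1 ∈ g u := fun y => by simpa using hF y.2
    choose f hf using this
    rcases F.eq_empty_or_nonempty with rfl | hne
    · simpa using h0
    · have hne' : (Finset.univ.image f).Nonempty := by
        obtain ⟨y, hy⟩ := hne
        exact ⟨f ⟨y, hy⟩, by simp⟩
      obtain ⟨z, -, hz⟩ := Finset.mem_image.1 (Finset.max'_mem _ hne')
      refine hmono _ _ ?_ (hA _ (hf z).1).2
      intro y hy
      rcases (Finset.le_max' (Finset.univ.image f) (f ⟨y, hy⟩) (by simp)).eq_or_lt with h | h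
      · right
        rw [hz, ← h]; exact (hf _).2
      · exact Or.inl ⟨f ⟨y, hy⟩, hz ▸ h, (hf _).2⟩
  have good : ∀ t, Q t (fun u _ => g u) (g t) := by
    intro t
    induction t using WellFoundedLT.induction with
    | ind t ih =>
      rw [hg t]
      apply Classical.epsilon_spec
      have e : {y | ∃ u, ∃ _ : u < t, y ∈ g u} = ⋃ u ∈ Set.Iio t, ↑(g u) := by
        ext y; simp
      simp only [Q, e]
      refine hstep _ ((mk_biUnion_le _ _).trans_lt ?_) (key _ ih) t
      exact mul_lt_of_lt aleph0_le_continuum ((mk_Iio_lt t hord).trans_le hT)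
        (lt_of_le_of_lt (ciSup_le' fun u => (finset_card_lt_aleph0 _).le) aleph0_lt_continuum)
  refine ⟨_, key Set.univ fun u _ => good u, fun t => hR t _ _ ?_ (good t).1⟩
  rintro y (⟨u, _, h⟩ | h)
  · exact Set.mem_biUnion (Set.mem_univ u) h
  · exact Set.mem_biUnion (Set.mem_univ t) h

end Pool.Agent.Lib.helper19.Recur3
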