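import Mathlib
import Pool.Agent.Lib.helper19.Recur3

/-! A two-point set that splits into two Hamel bases in every direction. -/

namespace Pool.Agent.Lib.helper19.Mazur

open Cardinal Submodule Real Pool.Agent.Lib.helper19.Recur3

abbrev Pt := (ℝ × ℝ) × (ℝ → Bool)

noncomputable def ph (θ : ℝ) (p : ℝ × ℝ) : ℝ := cos θ * p.1 - sin θ * p.2

def cr (a b c : ℝ × ℝ) : ℝ := (b.1 - a.1) * (c.2 - a.2) - (b.2 - a.2) * (c.1 - a.1)

def cls (A : Set Pt) (θ : ℝ) (i : Bool) : Set (ℝ × ℝ) := {p | ∃ x ∈ A, x.1 = p ∧ x.2 θ = i}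

structure P (A : Set Pt) : Prop where
  inj : ∀ x ∈ A, ∀ y ∈ A, x.1 = y.1 → x = y
  ncol : ∀ x ∈ A, ∀ y ∈ A, ∀ z ∈ A, x.1 ≠ y.1 → x.1 ≠ z.1 → y.1 ≠ z.1 → cr x.1 y.1 z.1 ≠ 0
  ind : ∀ θ i, LinearIndepOn ℚ id (cls A θ i)
  spl : ∀ θ, ∀ x ∈ A, ∀ y ∈ A, x.1 ≠ y.1 → ph θ x.1 = ph θ y.1 → x.2 θ ≠ y.2 θ

theorem cls_mono {A B : Set Pt} (h : A ⊆ B) (θ : ℝ) (i : Bool) : cls A θ i ⊆ cls B θ i :=
  fun _ ⟨x, h1, h2⟩ => ⟨x, h h1, h2⟩

theorem cls_insert (A : Set Pt) (x : Pt) (θ : ℝ) (i : Bool) :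
    cls (insert x A) θ i ⊆ insert x.1 (cls A θ i) := by
  rintro p ⟨y, rfl | hy, h⟩
  · exact Or.inl h.1.symm
  · exact Or.inr ⟨y, hy, h⟩

theorem cls_insert' (A : Set Pt) (x : Pt) (θ : ℝ) (i : Bool) (hx : x.2 θ ≠ i) :
    cls (insert x A) θ i ⊆ cls A θ i := by
  rintro p ⟨y, rfl | hy, h⟩
  · exact absurd h.2 hx
  · exact ⟨y, hy, h⟩

theorem P.mono {A B : Set Pt} (h : A ⊆ B) (hB : P B) : P A :=
  ⟨fun x hx y hy => hB.inj x (h hx) y (h hy), fun x hx y hy z hz => hB.ncol x (h hx) y (h hy) z (h hz),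
    fun θ i => (hB.ind θ i).mono (cls_mono h θ i), fun θ x hx y hy => hB.spl θ x (h hx) y (h hy)⟩

theorem P.fin (A : Set Pt) (h : ∀ F : Finset Pt, ↑F ⊆ A → P ↑F) : P A := by
  classical
  refine ⟨fun x hx y hy => (h {x, y} (by simp [Set.insert_subset_iff, hx, hy])).inj x (by simp) y
    (by simp), fun x hx y hy z hz => (h {x, y, z}
      (by simp [Set.insert_subset_iff, hx, hy, hz])).ncol x (by simp) y (by simp) z (by simp),
    fun θ i => linearIndepOn_of_finite _ fun t ht hf => ?_, fun θ x hx y hy =>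
      (h {x, y} (by simp [Set.insert_subset_iff, hx, hy])).spl θ x (by simp) y (by simp)⟩
  have : ∀ p : t, ∃ x ∈ A, x.1 = p ∧ x.2 θ = i := fun p => ht p.2
  choose f hf' using this
  have := hf.fintype
  refine ((h (Finset.univ.image f) ?_).ind θ i).mono fun p hp => ⟨f ⟨p, hp⟩, by simp, (hf' _).2⟩
  intro x hx
  obtain ⟨p, -, rfl⟩ := Finset.mem_image.1 hx
  exact (hf' p).1

theorem add1 {A : Set Pt} (hA : P A) (x : Pt) (h0 : ∀ y ∈ A, y.1 ≠ x.1)
    (h1 : ∀ y ∈ A, ∀ z ∈ A, y.1 ≠ z.1 → cr y.1 z.1 x.1 ≠ 0)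
    (h2 : ∀ θ, x.1 ∉ span ℚ (cls A θ (x.2 θ)))
    (h3 : ∀ θ, ∀ y ∈ A, ph θ y.1 = ph θ x.1 → y.2 θ ≠ x.2 θ) : P (insert x A) := by
  refine ⟨?_, ?_, fun θ i => ?_, ?_⟩
  · rintro a (rfl | ha) b (rfl | hb) h
    · rfl
    · exact absurd h.symm (h0 b hb)
    · exact absurd h (h0 a ha)
    · exact hA.inj a ha b hb h
  · rintro a (rfl | ha) b (rfl | hb) c (rfl | hc) k1 k2 k3
    · exact absurd rfl k1
    · exact absurd rfl k1
    · exact absurd rfl k2
    · intro h; apply h1 b hb c hc k3; unfold cr at h ⊢; linear_combination h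
    · exact absurd rfl k3
    · intro h; apply h1 a ha c hc k2; unfold cr at h ⊢; linear_combination -h
    · exact h1 a ha b hb k1
    · exact hA.ncol a ha b hb c hc k1 k2 k3
  · by_cases h : x.2 θ = i
    · exact ((hA.ind θ i).id_insert (h ▸ h2 θ)).mono (cls_insert A x θ i)
    · exact (hA.ind θ i).mono (cls_insert' A x θ i h)
  · rintro θ a (rfl | ha) b (rfl | hb) k1 k2
    · exact absurd rfl k1
    · exact (h3 θ b hb k2.symm).symm
    · exact h3 θ a ha k2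
    · exact hA.spl θ a ha b hb k1 k2

theorem par {θ : ℝ} {a b c d : ℝ × ℝ} (h1 : ph θ a = ph θ b) (h2 : ph θ c = ph θ d) :
    (b.1 - a.1) * (d.2 - c.2) - (b.2 - a.2) * (d.1 - c.1) = 0 := by
  unfold ph at h1 h2
  have h := sin_sq_add_cos_sq θ
  linear_combination (-(cos θ) * (d.2 - c.2) - sin θ * (d.1 - c.1)) * h1 +
    (cos θ * (b.2 - a.2) + sin θ * (b.1 - a.1)) * h2 -
    ((b.1 - a.1) * (d.2 - c.2) - (b.2 - a.2) * (d.1 - c.1)) * h

theorem exists_col {A : Set Pt} (hA : P A) (p : ℝ × ℝ)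
    (h1 : ∀ y ∈ A, ∀ z ∈ A, y.1 ≠ z.1 → cr y.1 z.1 p ≠ 0) (θ : ℝ) :
    ∃ b, ∀ y ∈ A, ph θ y.1 = ph θ p → y.2 θ ≠ b := by
  by_cases h : ∃ y ∈ A, ph θ y.1 = ph θ p
  · obtain ⟨y, hy, e⟩ := h
    refine ⟨!y.2 θ, fun z hz e' => ?_⟩
    by_cases hyz : y.1 = z.1
    · rw [hA.inj y hy z hz hyz]; simp
    · exact absurd (par (e.trans e'.symm) e) (h1 y hy z hz hyz)
  · exact ⟨true, fun y hy e => absurd ⟨y, hy, e⟩ h⟩

def InK (K : Subfield ℝ) (p : ℝ × ℝ) : Prop := p.1 ∈ K ∧ p.2 ∈ K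

def Gen (K : Subfield ℝ) (q : ℝ × ℝ) : Prop :=
  ∀ a ∈ K, ∀ b ∈ K, ∀ c ∈ K, a * q.1 + b * q.2 = c → a = 0 ∧ b = 0

theorem exists_field (s : Set ℝ) (hs : #s < 𝔠) : ∃ K : Subfield ℝ, s ⊆ K ∧ #K < 𝔠 :=
  ⟨Subfield.closure s, Subfield.subset_closure,
    (Subfield.cardinalMk_closure_le_max s).trans_lt (max_lt hs aleph0_lt_continuum)⟩

theorem un_lt {α : Type} {s t : Set α} (h1 : #s < 𝔠) (h2 : #t < 𝔠) : #(s ∪ t : Set α) < 𝔠 :=
  (mk_union_le _ _).trans_lt (add_lt_of_lt aleph0_le_continuum h1 h2)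

theorem exists_field' (K : Subfield ℝ) (hK : #K < 𝔠) (s : Set ℝ) (hs : s.Finite) :
    ∃ K' : Subfield ℝ, K ≤ K' ∧ s ⊆ K' ∧ #K' < 𝔠 := by
  obtain ⟨K', h1, h2⟩ := exists_field (↑K ∪ s) (un_lt hK (hs.lt_aleph0.trans aleph0_lt_continuum))
  exact ⟨K', fun x hx => h1 (Or.inl hx), fun x hx => h1 (Or.inr hx), h2⟩

theorem exists_notin (K : Subfield ℝ) (hK : #K < 𝔠) : ∃ t, t ∉ K := by
  by_contra h
  push Not at h
  have : (K : Set ℝ) = Set.univ := Set.eq_univ_of_forall h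
  have e : #K = 𝔠 := by
    show #(K : Set ℝ) = 𝔠
    rw [this, mk_univ, mk_real]
  exact lt_irrefl _ (e ▸ hK)

theorem lin {K : Subfield ℝ} {t a c : ℝ} (ht : t ∉ K) (ha : a ∈ K) (hc : c ∈ K) (h : a * t = c) :
    a = 0 := by
  by_contra h0
  exact ht (by rw [show t = c / a by field_simp; linear_combination h]; exact K.div_mem hc ha)

theorem exists_gen (K : Subfield ℝ) (hK : #K < 𝔠) : ∃ q, Gen K q := by
  obtain ⟨x, hx⟩ := exists_notin K hK
  obtain ⟨K', h1, h2, h3⟩ := exists_field' K hK {x} (Set.finite_singleton x)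
  obtain ⟨y, hy⟩ := exists_notin K' h3
  refine ⟨(x, y), fun a ha b hb c hc h => ?_⟩
  have hb0 : b = 0 := lin hy (h1 hb) (K'.sub_mem (h1 hc) (K'.mul_mem (h1 ha) (h2 rfl)))
    (by simp only at h; linear_combination h)
  subst hb0
  exact ⟨lin hx ha hc (by simpa using h), rfl⟩

theorem exists_field_pts (A : Set Pt) (hA : #A < 𝔠) (s : Set ℝ) (hs : s.Finite) :
    ∃ K : Subfield ℝ, (∀ y ∈ A, InK K y.1) ∧ s ⊆ K ∧ #K < 𝔠 := by
  obtain ⟨K, h1, h2⟩ := exists_field (((fun y : Pt => y.1.1) '' A ∪ (fun y : Pt => y.1.2) '' A) ∪ s)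
    (un_lt (un_lt (mk_image_le.trans_lt hA) (mk_image_le.trans_lt hA))
      (hs.lt_aleph0.trans aleph0_lt_continuum))
  exact ⟨K, fun y hy => ⟨h1 (Or.inl (Or.inl ⟨y, hy, rfl⟩)), h1 (Or.inl (Or.inr ⟨y, hy, rfl⟩))⟩,
    fun x hx => h1 (Or.inr hx), h2⟩

theorem span_inK {K : Subfield ℝ} {S : Set (ℝ × ℝ)} (hS : ∀ p ∈ S, InK K p) {x : ℝ × ℝ}
    (hx : x ∈ span ℚ S) : InK K x := by
  induction hx using Submodule.span_induction with
  | mem x hx => exact hS x hx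
  | zero => exact ⟨K.zero_mem, K.zero_mem⟩
  | add x y _ _ hx hy => exact ⟨K.add_mem hx.1 hy.1, K.add_mem hx.2 hy.2⟩
  | smul a x _ hx =>
    exact ⟨by rw [Prod.smul_fst, Rat.smul_def]; exact K.mul_mem (SubfieldClass.ratCast_mem K a) hx.1,
      by rw [Prod.smul_snd, Rat.smul_def]; exact K.mul_mem (SubfieldClass.ratCast_mem K a) hx.2⟩

theorem Gen.notin {K : Subfield ℝ} {q : ℝ × ℝ} (h : Gen K q) : ¬ InK K q := fun hq =>
  one_ne_zero (h 1 K.one_mem 0 K.zero_mem q.1 hq.1 (by ring)).1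

theorem Gen.cross {K : Subfield ℝ} {q a b c : ℝ × ℝ} (h : Gen K q) (ha : InK K a) (hb : InK K b)
    (hc : InK K c) (hab : a ≠ b) :
    (b.1 - a.1) * (q.2 - c.2) - (b.2 - a.2) * (q.1 - c.1) ≠ 0 := fun e => by
  have := h (a.2 - b.2) (K.sub_mem ha.2 hb.2) (b.1 - a.1) (K.sub_mem hb.1 ha.1)
    ((b.1 - a.1) * c.2 - (b.2 - a.2) * c.1) (K.sub_mem (K.mul_mem (K.sub_mem hb.1 ha.1) hc.2)
      (K.mul_mem (K.sub_mem hb.2 ha.2) hc.1)) (by linear_combination e)
  exact hab (Prod.ext (by linarith [this.2]) (by linarith [this.1]))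

theorem Gen.ph {K : Subfield ℝ} {q : ℝ × ℝ} (h : Gen K q) {θ r : ℝ} (h1 : cos θ ∈ K)
    (h2 : sin θ ∈ K) (hr : r ∈ K) : ph θ q ≠ r := fun e => by
  have := h (cos θ) h1 (-sin θ) (K.neg_mem h2) r hr (by unfold Mazur.ph at e; linear_combination e)
  have h3 := sin_sq_add_cos_sq θ
  rw [this.1, neg_eq_zero.1 this.2] at h3
  norm_num at h3

theorem ph_mem {K : Subfield ℝ} {p : ℝ × ℝ} (h : InK K p) {θ : ℝ} (h1 : cos θ ∈ K)
    (h2 : sin θ ∈ K) : ph θ p ∈ K := K.sub_mem (K.mul_mem h1 h.1) (K.mul_mem h2 h.2)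

theorem cls_inK {K : Subfield ℝ} {A : Set Pt} (h : ∀ y ∈ A, InK K y.1) (θ : ℝ) (i : Bool) :
    ∀ p ∈ cls A θ i, InK K p := fun _ ⟨y, hy, e, _⟩ => e ▸ h y hy

theorem addline {A : Set Pt} (hA : P A) (hc : #A < 𝔠) (α β γ : ℝ) (hl : α ≠ 0 ∨ β ≠ 0)
    (hno : ¬ ∃ x ∈ A, ∃ y ∈ A, x.1 ≠ y.1 ∧ α * x.1.1 + β * x.1.2 = γ ∧ α * y.1.1 + β * y.1.2 = γ) :
    ∃ x : Pt, α * x.1.1 + β * x.1.2 = γ ∧ (∀ y ∈ A, y.1 ≠ x.1) ∧ P (insert x A) := by
  obtain ⟨K, k1, k2, k3⟩ := exists_field_pts A hc {α, β, γ} (Set.toFinite _)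
  have ka : α ∈ K := k2 (by simp)
  have kb : β ∈ K := k2 (by simp)
  have kc : γ ∈ K := k2 (by simp)
  obtain ⟨t, ht⟩ := exists_notin K k3
  have hn : α * α + β * β ≠ 0 := by
    rcases hl with h | h
    · nlinarith [mul_self_pos.2 h, mul_self_nonneg β]
    · nlinarith [mul_self_pos.2 h, mul_self_nonneg α]
  obtain ⟨u, w, hu, hw, huw⟩ : ∃ u w, u ∈ K ∧ w ∈ K ∧ α * u + β * w = γ :=
    ⟨α * γ / (α * α + β * β), β * γ / (α * α + β * β),
      K.div_mem (K.mul_mem ka kc) (K.add_mem (K.mul_mem ka ka) (K.mul_mem kb kb)),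
      K.div_mem (K.mul_mem kb kc) (K.add_mem (K.mul_mem ka ka) (K.mul_mem kb kb)),
      by rw [← mul_div_assoc, ← mul_div_assoc, ← add_div, div_eq_iff hn]; ring⟩
  let p : ℝ × ℝ := (u - β * t, w + α * t)
  have hp : ¬ InK K p := fun h => by
    have a1 : β = 0 := lin ht kb (K.sub_mem hu h.1) (by simp [p])
    have a2 : α = 0 := lin ht ka (K.sub_mem h.2 hw) (by simp [p])
    tauto
  have h1 : ∀ y ∈ A, ∀ z ∈ A, y.1 ≠ z.1 → cr y.1 z.1 p ≠ 0 := by
    intro y hy z hz hne e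
    obtain ⟨y1, y2⟩ := k1 y hy
    obtain ⟨z1, z2⟩ := k1 z hz
    have a1 : (z.1.1 - y.1.1) * α + (z.1.2 - y.1.2) * β = 0 :=
      lin ht (K.add_mem (K.mul_mem (K.sub_mem z1 y1) ka) (K.mul_mem (K.sub_mem z2 y2) kb))
        (c := (z.1.2 - y.1.2) * (u - y.1.1) - (z.1.1 - y.1.1) * (w - y.1.2))
        (K.sub_mem (K.mul_mem (K.sub_mem z2 y2) (K.sub_mem hu y1))
          (K.mul_mem (K.sub_mem z1 y1) (K.sub_mem hw y2)))
        (by simp only [cr, p] at e; linear_combination e)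
    have a2 : (z.1.1 - y.1.1) * (w - y.1.2) - (z.1.2 - y.1.2) * (u - y.1.1) = 0 := by
      simp only [cr, p] at e; linear_combination e - t * a1
    have a3 : α * y.1.1 + β * y.1.2 = γ := by
      by_contra h
      have h' : γ - (α * y.1.1 + β * y.1.2) ≠ 0 := sub_ne_zero.2 (Ne.symm h)
      apply hne
      apply Prod.ext
      · have : (z.1.1 - y.1.1) * (γ - (α * y.1.1 + β * y.1.2)) = 0 := by
          linear_combination (u - y.1.1) * a1 + β * a2 - (z.1.1 - y.1.1) * huw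
        linarith [(mul_eq_zero.1 this).resolve_right h']
      · have : (z.1.2 - y.1.2) * (γ - (α * y.1.1 + β * y.1.2)) = 0 := by
          linear_combination (w - y.1.2) * a1 - α * a2 - (z.1.2 - y.1.2) * huw
        linarith [(mul_eq_zero.1 this).resolve_right h']
    exact hno ⟨y, hy, z, hz, hne, a3, by linear_combination a3 + a1⟩
  choose c hcol using exists_col hA p h1
  have h0 : ∀ y ∈ A, y.1 ≠ p := fun y hy e => hp (e ▸ k1 y hy)
  exact ⟨(p, c), by simp only [p]; linear_combination huw, h0,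
    add1 hA (p, c) h0 h1 (fun θ h => hp (span_inK (cls_inK k1 θ _) h)) hcol⟩

theorem addspan {A : Set Pt} (hA : P A) (hc : #A < 𝔠) (θ : ℝ) (v : ℝ × ℝ) (i : Bool)
    (hv : v ∉ span ℚ (cls A θ i)) :
    ∃ x y z : Pt, v ∈ span ℚ (cls (insert z (insert y (insert x A))) θ i) ∧
      P (insert z (insert y (insert x A))) := by
  classical
  obtain ⟨K, k1, k2, k3⟩ := exists_field_pts A hc {v.1, v.2, cos θ, sin θ} (Set.toFinite _)
  have kv : InK K v := ⟨k2 (by simp), k2 (by simp)⟩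
  have kc : cos θ ∈ K := k2 (by simp)
  have ks : sin θ ∈ K := k2 (by simp)
  obtain ⟨p, hp⟩ := exists_gen K k3
  obtain ⟨L, l1, l2, l3⟩ := exists_field' K k3 {p.1, p.2} (Set.toFinite _)
  have lp : InK L p := ⟨l2 (by simp), l2 (by simp)⟩
  have lA : ∀ y ∈ A, InK L y.1 := fun y hy => ⟨l1 (k1 y hy).1, l1 (k1 y hy).2⟩
  have lu : InK L (v - p) := ⟨L.sub_mem (l1 kv.1) lp.1, L.sub_mem (l1 kv.2) lp.2⟩
  obtain ⟨q, hq⟩ := exists_gen L l3
  have hs : Gen L (v - p - q) := by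
    intro a ha b hb c hc e
    refine hq a ha b hb (a * (v - p).1 + b * (v - p).2 - c)
      (L.sub_mem (L.add_mem (L.mul_mem ha lu.1) (L.mul_mem hb lu.2)) hc) ?_
    simp only [Prod.fst_sub, Prod.snd_sub] at e ⊢
    linear_combination -e
  have p0 : ∀ y ∈ A, y.1 ≠ p := fun y hy e => hp.notin (e ▸ k1 y hy)
  have p1 : ∀ y ∈ A, ∀ z ∈ A, y.1 ≠ z.1 → cr y.1 z.1 p ≠ 0 :=
    fun y hy z hz h => hp.cross (k1 y hy) (k1 z hz) (k1 y hy) h
  have q1 : ∀ y ∈ A, ∀ z ∈ A, y.1 ≠ z.1 → cr y.1 z.1 q ≠ 0 :=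
    fun y hy z hz h => hq.cross (lA y hy) (lA z hz) (lA y hy) h
  have hb : ∀ η, ∃ b, (∀ y ∈ A, ph η y.1 = ph η p → y.2 η ≠ b) ∧
      ∀ y ∈ A, ph η y.1 = ph η q → y.2 η ≠ !b := by
    intro η
    by_cases h : ∃ y ∈ A, ph η y.1 = ph η p
    · obtain ⟨b, hb⟩ := exists_col hA p p1 η
      obtain ⟨y, hy, e⟩ := h
      exact ⟨b, hb, fun z hz e' => absurd (par e e') (hq.cross (lA y hy) lp (lA z hz) (p0 y hy))⟩
    · obtain ⟨b, hb⟩ := exists_col hA q q1 η
      exact ⟨!b, fun y hy e => absurd ⟨y, hy, e⟩ h, by simpa using hb⟩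
  choose b hb using hb
  let x : Pt := (p, fun η => if η = θ then i else b η)
  let y : Pt := (q, fun η => if η = θ then i else !b η)
  have hx : P (insert x A) := by
    refine add1 hA x p0 p1 (fun η h => hp.notin (span_inK (cls_inK k1 η _) h)) fun η w hw e => ?_
    by_cases h : η = θ
    · subst h
      exact absurd e.symm (hp.ph kc ks (ph_mem (k1 w hw) kc ks))
    · simpa [x, h] using (hb η).1 w hw e
  have lA1 : ∀ w ∈ insert x A, InK L w.1 := by
    rintro w (rfl | hw)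
    · exact lp
    · exact lA w hw
  have hy : P (insert y (insert x A)) := by
    refine add1 hx y (fun w hw e => hq.notin (show InK L y.1 from e ▸ lA1 w hw))
      (fun w hw z hz h => hq.cross (lA1 w hw) (lA1 z hz) (lA1 w hw) h)
      (fun η h => hq.notin (span_inK (cls_inK lA1 η _) h)) fun η w hw e => ?_
    by_cases h : η = θ
    · subst h
      exact absurd e.symm (hq.ph (l1 kc) (l1 ks) (ph_mem (lA1 w hw) (l1 kc) (l1 ks)))
    · rcases hw with rfl | hw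
      · simp [x, y, h]
      · simpa [y, h] using (hb η).2 w hw e
  have two : (2 : ℝ) ∈ L := by simp
  have s1' : ∀ w ∈ insert x A, cr w.1 q (v - p - q) ≠ 0 := by
    intro w hw e
    obtain ⟨w1, w2⟩ := lA1 w hw
    have := hq ((v - p).2 - 2 * w.1.2) (L.sub_mem lu.2 (L.mul_mem two w2))
      (2 * w.1.1 - (v - p).1) (L.sub_mem (L.mul_mem two w1) lu.1)
      (w.1.1 * (v - p).2 - w.1.2 * (v - p).1) (L.sub_mem (L.mul_mem w1 lu.2) (L.mul_mem w2 lu.1))
      (by simp only [cr, Prod.fst_sub, Prod.snd_sub] at e ⊢; linear_combination e)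
    have e1 := this.2
    simp only [Prod.fst_sub] at e1
    rcases hw with rfl | hw
    · have := hp 3 (by simp) 0 K.zero_mem v.1 kv.1
        (by simp only [x] at e1; linear_combination e1)
      norm_num at this
    · have := hp 1 K.one_mem 0 K.zero_mem (v.1 - 2 * w.1.1) (K.sub_mem kv.1
        (K.mul_mem (by simp) (k1 w hw).1)) (by linear_combination e1)
      norm_num at this
  have s1 : ∀ w ∈ insert y (insert x A), ∀ z ∈ insert y (insert x A), w.1 ≠ z.1 →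
      cr w.1 z.1 (v - p - q) ≠ 0 := by
    rintro w (rfl | hw) z (rfl | hz) h
    · exact absurd rfl h
    · intro e; apply s1' z hz; simp only [cr, y] at e ⊢; linear_combination -e
    · exact s1' w hw
    · exact hs.cross (lA1 w hw) (lA1 z hz) (lA1 w hw) h
  have sq : ph θ q ≠ ph θ (v - p - q) := fun e => by
    have := hq.ph (l1 kc) (l1 ks) (r := ph θ (v - p) / 2)
      (L.div_mem (ph_mem lu (l1 kc) (l1 ks)) two)
    apply this
    simp only [ph, Prod.fst_sub, Prod.snd_sub] at e ⊢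
    linear_combination e / 2
  choose c hcol using exists_col hy (v - p - q) s1
  let z : Pt := (v - p - q, fun η => if η = θ then i else c η)
  have red : ∀ T : Set (ℝ × ℝ), (∀ w ∈ T, InK L w) → v - p - q ∈ span ℚ (insert q T) →
      v - p ∈ span ℚ T := by
    intro T hT h
    obtain ⟨a, w, hw, e⟩ := mem_span_insert.1 h
    have e1 := congrArg Prod.fst e
    simp only [Prod.fst_sub, Prod.fst_add, Prod.smul_fst, Rat.smul_def] at e1
    have := (hq (1 + a) (L.add_mem L.one_mem (SubfieldClass.ratCast_mem L a)) 0 L.zero_mem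
      ((v - p).1 - w.1) (L.sub_mem lu.1 (span_inK hT hw).1)
      (by simp only [Prod.fst_sub]; linear_combination -e1)).1
    have ha : a = -1 := by
      have : (a : ℝ) = ((-1 : ℚ) : ℝ) := by push_cast; linarith
      exact_mod_cast this
    subst ha
    have : v - p = w := by
      have : v - p = v - p - q + q := by abel
      rw [this, e]; simp
    exact this ▸ hw
  refine ⟨x, y, z, ?_, add1 hy z ?_ s1 (fun η h => ?_) fun η w hw e => ?_⟩
  · have : v = p + q + (v - p - q) := by abel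
    rw [this]
    exact add_mem (add_mem (subset_span ⟨x, by simp, rfl, by simp [x]⟩)
      (subset_span ⟨y, by simp, rfl, by simp [y]⟩)) (subset_span ⟨z, by simp, by simp [z], by simp [z]⟩)
  · rintro w (rfl | hw) e
    · exact sq (congrArg (ph θ) e)
    · exact hs.notin (show InK L z.1 from e ▸ lA1 w hw)
  · by_cases hη : η = θ
    · subst hη
      have h' := red _ (cls_inK lA1 η _) (span_mono (cls_insert _ y η _) h)
      obtain ⟨a, w, hw, e⟩ := mem_span_insert.1 (span_mono (cls_insert _ x η _) h')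
      have e1 := congrArg Prod.fst e
      simp only [Prod.fst_sub, Prod.fst_add, Prod.smul_fst, Rat.smul_def, x] at e1
      have := (hp (1 + a) (K.add_mem K.one_mem (SubfieldClass.ratCast_mem K a)) 0 K.zero_mem
        (v.1 - w.1) (K.sub_mem kv.1 (span_inK (cls_inK k1 η _) hw).1)
        (by linear_combination -e1)).1
      have ha : a = -1 := by
        have : (a : ℝ) = ((-1 : ℚ) : ℝ) := by push_cast; linarith
        exact_mod_cast this
      subst ha
      have : v = w := by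
        have : v = v - p + p := by abel
        rw [this, e]; simp [x]
      apply hv
      simpa [z, this] using hw
    · by_cases hj : y.2 η = z.2 η
      · have hj' : x.2 η ≠ z.2 η := by rw [← hj]; simp [x, y, hη]
        have h' := red _ (cls_inK lA1 η _) (span_mono (cls_insert _ y η _) h)
        have := span_inK (cls_inK k1 η _) (span_mono (cls_insert' _ x η _ hj') h')
        refine hp.notin ⟨?_, ?_⟩
        · simpa using K.sub_mem kv.1 this.1
        · simpa using K.sub_mem kv.2 this.2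
      · exact hs.notin (span_inK (cls_inK lA1 η _) (span_mono (cls_insert' _ y η _ hj) h))
  · by_cases h : η = θ
    · subst h
      rcases hw with rfl | hw
      · exact absurd e sq
      · exact absurd e.symm (hs.ph (l1 kc) (l1 ks) (ph_mem (lA1 w hw) (l1 kc) (l1 ks)))
    · simpa [z, h] using hcol η w hw e

theorem exists_A : ∃ A : Set Pt, P A ∧ (∀ α β γ : ℝ, α ≠ 0 ∨ β ≠ 0 → ∃ x ∈ A, ∃ y ∈ A,
    x.1 ≠ y.1 ∧ α * x.1.1 + β * x.1.2 = γ ∧ α * y.1.1 + β * y.1.2 = γ) ∧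
    ∀ θ v i, v ∈ span ℚ (cls A θ i) := by
  classical
  obtain ⟨A, h1, h2⟩ := recur3 (T := (ℝ × ℝ × ℝ) ⊕ (ℝ × (ℝ × ℝ) × Bool)) (by simp [mk_real]) P
    (fun t A => match t with
      | .inl t => t.1 ≠ 0 ∨ t.2.1 ≠ 0 → ∃ x ∈ A, ∃ y ∈ A, x.1 ≠ y.1 ∧
          t.1 * x.1.1 + t.2.1 * x.1.2 = t.2.2 ∧ t.1 * y.1.1 + t.2.1 * y.1.2 = t.2.2
      | .inr t => t.2.1 ∈ span ℚ (cls A t.1 t.2.2))
    ⟨by simp, by simp, fun θ i => by simp [cls], by simp⟩ (fun _ _ => P.mono) P.fin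
    (by
      rintro (t | t) A A' h k
      · intro k'
        obtain ⟨x, hx, y, hy, e⟩ := k k'
        exact ⟨x, h hx, y, h hy, e⟩
      · exact span_mono (cls_mono h _ _) k)
    (by
      rintro A hc hA (⟨α, β, γ⟩ | ⟨θ, v, i⟩)
      · by_cases hl : α ≠ 0 ∨ β ≠ 0
        · by_cases hno : ∃ x ∈ A, ∃ y ∈ A, x.1 ≠ y.1 ∧ α * x.1.1 + β * x.1.2 = γ ∧
            α * y.1.1 + β * y.1.2 = γ
          · exact ⟨∅, by simpa using fun _ => hno, by simpa using hA⟩
          obtain ⟨x, x1, x2, x3⟩ := addline hA hc α β γ hl hno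
          by_cases hno' : ∃ a ∈ insert x A, ∃ y ∈ insert x A, a.1 ≠ y.1 ∧
            α * a.1.1 + β * a.1.2 = γ ∧ α * y.1.1 + β * y.1.2 = γ
          · refine ⟨{x}, ?_, ?_⟩
            · rw [Finset.coe_singleton, Set.union_singleton]; exact fun _ => hno'
            · rw [Finset.coe_singleton, Set.union_singleton]; exact x3
          obtain ⟨y, y1, y2, y3⟩ := addline x3 (mk_insert_le.trans_lt
            (add_lt_of_lt aleph0_le_continuum hc (one_lt_aleph0.trans aleph0_lt_continuum)))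
            α β γ hl hno'
          have e : A ∪ ↑({y, x} : Finset Pt) = insert y (insert x A) := by ext; simp
          refine ⟨{y, x}, ?_, e ▸ y3⟩
          rw [e]
          exact fun _ => ⟨x, by simp, y, by simp, y2 x (by simp), x1, y1⟩
        · exact ⟨∅, fun h => absurd h hl, by simpa using hA⟩
      · by_cases hv : v ∈ span ℚ (cls A θ i)
        · exact ⟨∅, by simpa using hv, by simpa using hA⟩
        · obtain ⟨x, y, z, k1, k2⟩ := addspan hA hc θ v i hv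
          have e : A ∪ ↑({z, y, x} : Finset Pt) = insert z (insert y (insert x A)) := by
            ext; simp
          exact ⟨{z, y, x}, by rw [e]; exact k1, e ▸ k2⟩)
  exact ⟨A, h1, fun α β γ => h2 (.inl (α, β, γ)), fun θ v i => h2 (.inr (θ, v, i))⟩

noncomputable def rot (θ : ℝ) (p : ℝ × ℝ) : ℝ × ℝ :=
  (cos θ * p.1 - sin θ * p.2, sin θ * p.1 + cos θ * p.2)

noncomputable def rotL (θ : ℝ) : (ℝ × ℝ) →ₗ[ℚ] (ℝ × ℝ) where
  toFun := rot θ
  map_add' a b := by ext <;> simp [rot] <;> ring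
  map_smul' a b := by ext <;> simp [rot, Rat.smul_def] <;> ring

theorem rot_inv (θ : ℝ) (p : ℝ × ℝ) : rot θ (rot (-θ) p) = p := by
  have h := sin_sq_add_cos_sq θ
  ext
  · simp only [rot, cos_neg, sin_neg]; linear_combination p.1 * h
  · simp only [rot, cos_neg, sin_neg]; linear_combination p.2 * h

theorem main : ∃ M : Set (ℝ × ℝ),
    (∀ α β γ : ℝ, α ≠ 0 ∨ β ≠ 0 → {p ∈ M | α * p.1 + β * p.2 = γ}.encard = 2) ∧
    ∀ θ, ∃ f : Bool → ℝ → ℝ, (∀ i, LinearIndepOn ℚ id {p : ℝ × ℝ | p.2 = f i p.1} ∧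
      span ℚ {p : ℝ × ℝ | p.2 = f i p.1} = ⊤) ∧
      rot θ '' M = {p | p.2 = f false p.1} ∪ {p | p.2 = f true p.1} := by
  obtain ⟨A, hA, h1, h2⟩ := exists_A
  refine ⟨Prod.fst '' A, fun α β γ hl => ?_, fun θ => ?_⟩
  · obtain ⟨x, hx, y, hy, hne, e1, e2⟩ := h1 α β γ hl
    rw [Set.encard_eq_two]
    refine ⟨x.1, y.1, hne, Set.Subset.antisymm ?_ ?_⟩
    · rintro _ ⟨⟨z, hz, rfl⟩, e3⟩
      by_contra hn
      simp only [Set.mem_insert_iff, Set.mem_singleton_iff, not_or] at hn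
      apply hA.ncol x hx y hy z hz hne (Ne.symm hn.1) (Ne.symm hn.2)
      rcases hl with h | h
      · apply mul_left_cancel₀ h
        unfold cr
        linear_combination (z.1.2 - x.1.2) * (e2 - e1) - (y.1.2 - x.1.2) * (e3 - e1)
      · apply mul_left_cancel₀ h
        unfold cr
        linear_combination (y.1.1 - x.1.1) * (e3 - e1) - (z.1.1 - x.1.1) * (e2 - e1)
    · rintro _ (rfl | rfl)
      · exact ⟨⟨x, hx, rfl⟩, e1⟩
      · exact ⟨⟨y, hy, rfl⟩, e2⟩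
  · have ex : ∀ i t, ∃ p ∈ cls A θ i, ph θ p = t := by
      intro i t
      obtain ⟨x, hx, y, hy, hne, e1, e2⟩ := h1 (cos θ) (-sin θ) t (by
        by_contra h
        push Not at h
        have h3 := sin_sq_add_cos_sq θ
        rw [h.1, neg_eq_zero.1 h.2] at h3
        norm_num at h3)
      have a1 : ph θ x.1 = t := by unfold ph; linear_combination e1
      have a2 : ph θ y.1 = t := by unfold ph; linear_combination e2
      have := hA.spl θ x hx y hy hne (a1.trans a2.symm)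
      by_cases h : x.2 θ = i
      · exact ⟨x.1, ⟨x, hx, rfl, h⟩, a1⟩
      · exact ⟨y.1, ⟨y, hy, rfl, by revert h this; cases x.2 θ <;> cases y.2 θ <;> cases i <;> simp⟩,
          a2⟩
    choose g g1 g2 using ex
    have hinj : Function.Injective (rotL θ) := by
      intro a b h
      have := congrArg (rot (-θ)) h
      have e := rot_inv (-θ)
      rw [neg_neg] at e
      exact (e a).symm.trans (this.trans (e b))
    have gr : ∀ i, {p : ℝ × ℝ | p.2 = (rot θ (g i p.1)).2} = rotL θ '' cls A θ i := by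
      intro i
      ext p
      constructor
      · intro h
        exact ⟨g i p.1, g1 i _, Prod.ext (g2 i _) h.symm⟩
      · rintro ⟨_, ⟨x, hx, rfl, hi⟩, rfl⟩
        obtain ⟨y, hy, e, hi'⟩ := g1 i (ph θ x.1)
        have : x.1 = g i (ph θ x.1) := by
          by_contra hne
          exact hA.spl θ x hx y hy (e ▸ hne) (e ▸ (g2 i _).symm) (hi.trans hi'.symm)
        exact congrArg (fun w => (rot θ w).2) this
    refine ⟨fun i t => (rot θ (g i t)).2, fun i => ?_, ?_⟩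
    · rw [gr i]
      refine ⟨LinearIndepOn.id_image (LinearIndependent.map' (hA.ind θ i) _
        (LinearMap.ker_eq_bot.2 hinj)), ?_⟩
      rw [← map_span, eq_top_iff]
      intro p _
      exact ⟨rot (-θ) p, h2 θ _ i, rot_inv θ p⟩
    · rw [gr false, gr true]
      ext p
      constructor
      · rintro ⟨_, ⟨x, hx, rfl⟩, rfl⟩
        cases h : x.2 θ
        · exact Or.inl ⟨x.1, ⟨x, hx, rfl, h⟩, rfl⟩
        · exact Or.inr ⟨x.1, ⟨x, hx, rfl, h⟩, rfl⟩
      · rintro (⟨_, ⟨x, hx, rfl, -⟩, rfl⟩ | ⟨_, ⟨x, hx, rfl, -⟩, rfl⟩) <;>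
          exact ⟨x.1, ⟨x, hx, rfl⟩, rfl⟩

end Pool.Agent.Lib.helper19.Mazur
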