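import Mathlib

set_option autoImplicit false

namespace Pool.Agent.Lib.helper19.PWDiv

open Set

section basic
variable {H : Type*} [Group H] [MeasurableSpace H]

/-- countably piecewise left translation with measurable pieces -/
def PW (f : H → H) : Prop :=
  (range fun x => f x * x⁻¹).Countable ∧ ∀ g, MeasurableSet {x | f x = g * x}

lemma PW.const (g : H) : PW (fun x : H => g * x) := by
  refine ⟨(countable_singleton g).mono ?_, fun k => ?_⟩
  · rintro _ ⟨x, rfl⟩; simp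
  · simp only [mul_left_inj]; exact MeasurableSet.const _

lemma PW.id : PW (fun x : H => x) := by simpa using PW.const (1 : H)

lemma PW.select {ι : Type*} [Countable ι] {c : H → ι} (hc : ∀ i, MeasurableSet {x | c x = i})
    {f : ι → H → H} (hf : ∀ i, PW (f i)) : PW (fun x => f (c x) x) := by
  refine ⟨(countable_iUnion fun i => (hf i).1).mono ?_, fun g => ?_⟩
  · rintro _ ⟨x, rfl⟩; exact mem_iUnion.2 ⟨c x, x, rfl⟩
  · have : {x | f (c x) x = g * x} = ⋃ i, {x | c x = i} ∩ {x | f i x = g * x} := by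
      ext x; simp
    rw [this]
    exact MeasurableSet.iUnion fun i => (hc i).inter ((hf i).2 g)

lemma PW.ite {S : Set H} (hS : MeasurableSet S) [DecidablePred (· ∈ S)] {f g : H → H}
    (hf : PW f) (hg : PW g) : PW (fun x => if x ∈ S then f x else g x) := by
  refine ⟨(hf.1.union hg.1).mono ?_, fun k => ?_⟩
  · rintro _ ⟨x, rfl⟩
    by_cases h : x ∈ S
    · left; exact ⟨x, by simp [h]⟩
    · right; exact ⟨x, by simp [h]⟩
  · have : {x | (if x ∈ S then f x else g x) = k * x} =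
        (S ∩ {x | f x = k * x}) ∪ (Sᶜ ∩ {x | g x = k * x}) := by
      ext x; by_cases h : x ∈ S <;> simp [h]
    rw [this]
    exact (hS.inter (hf.2 k)).union (hS.compl.inter (hg.2 k))

variable [MeasurableMul H]

lemma PW.measurable {f : H → H} (hf : PW f) : Measurable f := by
  intro S hS
  have : f ⁻¹' S = ⋃ g ∈ range (fun x => f x * x⁻¹), {x | f x = g * x} ∩ (g * ·) ⁻¹' S := by
    ext x
    simp only [mem_preimage, mem_iUnion, mem_inter_iff, mem_ofPred_eq]
    constructor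
    · intro h; exact ⟨f x * x⁻¹, ⟨x, rfl⟩, by simp, by simpa using h⟩
    · rintro ⟨g, -, h1, h2⟩; rwa [h1]
  rw [this]
  exact MeasurableSet.biUnion hf.1 fun g _ => (hf.2 g).inter (measurable_const_mul g hS)

lemma PW.comp {f g : H → H} (hf : PW f) (hg : PW g) : PW (fun x => f (g x)) := by
  refine ⟨((hf.1.prod hg.1).image (fun p => p.1 * p.2)).mono ?_, fun k => ?_⟩
  · rintro _ ⟨x, rfl⟩
    exact ⟨(f (g x) * (g x)⁻¹, g x * x⁻¹), ⟨⟨g x, rfl⟩, ⟨x, rfl⟩⟩, by simp [mul_assoc]⟩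
  · have : {x | f (g x) = k * x} = ⋃ a ∈ range (fun x => g x * x⁻¹),
        {x | g x = a * x} ∩ g ⁻¹' {y | f y = (k * a⁻¹) * y} := by
      ext x
      simp only [mem_preimage, mem_iUnion, mem_inter_iff, mem_ofPred_eq]
      constructor
      · intro h; exact ⟨g x * x⁻¹, ⟨x, rfl⟩, by simp, by rw [h]; group⟩
      · rintro ⟨a, -, h1, h2⟩; rw [h2, h1]; group
    rw [this]
    exact MeasurableSet.biUnion hg.1 fun a _ => (hg.2 a).inter (hg.measurable (hf.2 _))

lemma PW.iterate {f : H → H} (hf : PW f) (n : ℕ) : PW f^[n] := by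
  induction n with
  | zero => exact PW.id
  | succ n ih => exact ih.comp hf

lemma PW.image {f : H → H} (hf : PW f) {S : Set H} (hS : MeasurableSet S) :
    MeasurableSet (f '' S) := by
  have : f '' S = ⋃ g ∈ range (fun x => f x * x⁻¹), (g⁻¹ * ·) ⁻¹' (S ∩ {x | f x = g * x}) := by
    ext y
    simp only [mem_preimage, mem_iUnion, mem_inter_iff, mem_ofPred_eq]
    constructor
    · rintro ⟨x, hx, rfl⟩; exact ⟨f x * x⁻¹, ⟨x, rfl⟩, by simpa using hx, by simp⟩
    · rintro ⟨g, -, h1, h2⟩; exact ⟨_, h1, by simpa using h2⟩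
  rw [this]
  exact MeasurableSet.biUnion hf.1 fun g _ => measurable_const_mul _ (hS.inter (hf.2 g))

lemma PW.inv {f : H → H} (hf : PW f) {A : Set H} (hA : MeasurableSet A) (hi : InjOn f A) :
    ∃ g : H → H, PW g ∧ ∀ x ∈ A, g (f x) = x := by
  classical
  let g : H → H := fun y => if h : y ∈ f '' A then h.choose else y
  have hg : ∀ x ∈ A, g (f x) = x := by
    intro x hx
    have h : f x ∈ f '' A := ⟨x, hx, rfl⟩
    simp only [g, dif_pos h]
    exact hi h.choose_spec.1 hx h.choose_spec.2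
  have hg' : ∀ y, y ∉ f '' A → g y = y := fun y hy => by simp only [g, dif_neg hy]
  refine ⟨g, ⟨((hf.1.image (fun a => a⁻¹)).insert 1).mono ?_, fun k => ?_⟩, hg⟩
  · rintro _ ⟨y, rfl⟩
    by_cases h : y ∈ f '' A
    · obtain ⟨x, hx, rfl⟩ := h
      right; exact ⟨_, ⟨x, rfl⟩, by simp [hg x hx]⟩
    · left; simp [hg' y h]
  · have : {y | g y = k * y} = f '' (A ∩ {x | f x = k⁻¹ * x}) ∪ ((f '' A)ᶜ ∩ {_y | k = 1}) := by
      ext y
      by_cases h : y ∈ f '' A
      · obtain ⟨x, hx, rfl⟩ := h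
        simp only [mem_ofPred_eq, hg x hx, mem_union, mem_inter_iff, mem_compl_iff]
        constructor
        · intro h; left; exact ⟨x, ⟨hx, eq_inv_mul_iff_mul_eq.2 h.symm⟩, rfl⟩
        · rintro (⟨x', ⟨h1, h2⟩, h3⟩ | h)
          · obtain rfl := hi h1 hx h3
            exact (eq_inv_mul_iff_mul_eq.1 h2).symm
          · exact absurd ⟨x, hx, rfl⟩ h.1
      · simp only [mem_ofPred_eq, hg' y h, mem_union, mem_inter_iff, mem_compl_iff]
        constructor
        · intro h'; right; exact ⟨h, by simpa using h'⟩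
        · rintro (h' | h')
          · exact absurd (image_mono inter_subset_left h') h
          · simp [h'.2]
    rw [this]
    exact (hf.image (hA.inter (hf.2 _))).union ((hf.image hA).compl.inter (MeasurableSet.const _))

def gp (A B : Set H) (γ : ℕ → H) : ℕ → Set H
  | n => {x | x ∈ A ∧ γ n * x ∈ B ∧
      ∀ m : Fin n, x ∉ gp A B γ m ∧ (γ m)⁻¹ * (γ n * x) ∉ gp A B γ m}
  decreasing_by all_goals exact m.2

omit [MeasurableSpace H] [MeasurableMul H] in
lemma mem_gp {A B : Set H} {γ : ℕ → H} {n : ℕ} {x : H} : x ∈ gp A B γ n ↔ x ∈ A ∧ γ n * x ∈ B ∧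
      ∀ m < n, x ∉ gp A B γ m ∧ (γ m)⁻¹ * (γ n * x) ∉ gp A B γ m := by
  rw [gp]
  simp only [mem_ofPred_eq, Fin.forall_iff]

lemma gp_meas {A B : Set H} (hA : MeasurableSet A) (hB : MeasurableSet B) (γ : ℕ → H) (n : ℕ) :
    MeasurableSet (gp A B γ n) := by
  induction n using Nat.strong_induction_on with
  | _ n ih =>
    have : gp A B γ n = A ∩ ((γ n * ·) ⁻¹' B ∩ ⋂ m, ⋂ _ : m < n, ((gp A B γ m)ᶜ ∩
        (fun x => (γ m)⁻¹ * (γ n * x)) ⁻¹' (gp A B γ m)ᶜ)) := by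
      ext x; rw [mem_gp]; simp
    rw [this]
    refine hA.inter ((measurable_const_mul _ hB).inter (MeasurableSet.iInter fun m =>
      MeasurableSet.iInter fun hm => (ih m hm).compl.inter ?_))
    exact ((measurable_const_mul _).comp (measurable_const_mul _)) (ih m hm).compl

lemma greedy {A B : Set H} (hA : MeasurableSet A) (hB : MeasurableSet B) (γ : ℕ → H) :
    ∃ (f : H → H) (A0 : Set H), PW f ∧ MeasurableSet A0 ∧ A0 ⊆ A ∧ InjOn f A0 ∧ MapsTo f A0 B ∧
      (∀ x ∈ A0, ∃ n, f x = γ n * x) ∧ ∀ x ∈ A \ A0, ∀ n, γ n * x ∈ B → γ n * x ∈ f '' A0 := by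
  classical
  let c : H → ℕ := fun x => if h : ∃ n, x ∈ gp A B γ n then h.choose else 0
  have huniq : ∀ x m n, x ∈ gp A B γ m → x ∈ gp A B γ n → m = n := by
    intro x m n hm hn
    rcases lt_trichotomy m n with h | h | h
    · exact absurd hm ((mem_gp.1 hn).2.2 m h).1
    · exact h
    · exact absurd hn ((mem_gp.1 hm).2.2 n h).1
  have hc : ∀ x n, x ∈ gp A B γ n → c x = n := by
    intro x n hn
    have h : ∃ n, x ∈ gp A B γ n := ⟨n, hn⟩
    simp only [c, dif_pos h]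
    exact huniq x _ _ h.choose_spec hn
  have hcm : ∀ n, MeasurableSet {x | c x = n} := by
    intro n
    have : {x | c x = n} = gp A B γ n ∪ ((⋃ m, gp A B γ m)ᶜ ∩ {_x | 0 = n}) := by
      ext x
      by_cases h : ∃ m, x ∈ gp A B γ m
      · obtain ⟨m, hm⟩ := h
        simp only [mem_ofPred_eq, hc x m hm, mem_union, mem_inter_iff, mem_compl_iff, mem_iUnion]
        exact ⟨fun h => Or.inl (h ▸ hm), fun h => h.elim (huniq x _ _ hm)
          (fun h => absurd ⟨m, hm⟩ h.1)⟩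
      · have h' : x ∉ gp A B γ n := fun h' => h ⟨n, h'⟩
        have e : c x = 0 := dif_neg h
        simp only [mem_ofPred_eq, e, mem_union, mem_inter_iff, mem_compl_iff,
          mem_iUnion, h, h', false_or, not_false_eq_true, true_and]
    rw [this]
    exact (gp_meas hA hB γ n).union
      ((MeasurableSet.iUnion (gp_meas hA hB γ)).compl.inter (MeasurableSet.const _))
  refine ⟨fun x => γ (c x) * x, ⋃ n, gp A B γ n, PW.select hcm (fun n => PW.const (γ n)),
    MeasurableSet.iUnion (gp_meas hA hB γ), iUnion_subset fun n x hx => (mem_gp.1 hx).1, ?_, ?_,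
    fun x _ => ⟨_, rfl⟩, ?_⟩
  · intro x hx y hy hxy
    obtain ⟨m, hm⟩ := mem_iUnion.1 hx
    obtain ⟨n, hn⟩ := mem_iUnion.1 hy
    simp only [hc x m hm, hc y n hn] at hxy
    rcases lt_trichotomy m n with h | h | h
    · exact absurd (by rw [← hxy]; simpa using hm) ((mem_gp.1 hn).2.2 m h).2
    · subst h; simpa using hxy
    · exact absurd (by rw [hxy]; simpa using hn) ((mem_gp.1 hm).2.2 n h).2
  · intro x hx
    obtain ⟨m, hm⟩ := mem_iUnion.1 hx
    simp only [hc x m hm]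
    exact (mem_gp.1 hm).2.1
  · rintro x ⟨hx, hx0⟩ n hn
    by_contra hcon
    apply hx0
    refine mem_iUnion.2 ⟨n, mem_gp.2 ⟨hx, hn, fun m _ =>
      ⟨fun h => hx0 (mem_iUnion.2 ⟨m, h⟩), fun h => hcon ⟨_, mem_iUnion.2 ⟨m, h⟩, ?_⟩⟩⟩⟩
    simp [hc _ m h]

end basic

section prod
variable {G Λ : Type*} [Group G] [MeasurableSpace G] [MeasurableMul G] [Group Λ] [Finite Λ]
  [MeasurableSpace Λ] [DiscreteMeasurableSpace Λ]

instance instMulProd : MeasurableMul (G × Λ) where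
  measurable_const_mul c :=
    ((measurable_const_mul c.1).comp measurable_fst).prodMk
      ((measurable_const_mul c.2).comp measurable_snd)
  measurable_mul_const c :=
    ((measurable_mul_const c.1).comp measurable_fst).prodMk
      ((measurable_mul_const c.2).comp measurable_snd)

omit [MeasurableMul G] [DiscreteMeasurableSpace Λ] in
lemma PW.pic {F : G × Λ → G × Λ} (hF : PW F) (s : Λ) : PW (fun a : G => (F (a, s)).1) := by
  refine ⟨(hF.1.image Prod.fst).mono ?_, fun g => ?_⟩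
  · rintro _ ⟨x, rfl⟩; exact ⟨_, ⟨(x, s), rfl⟩, rfl⟩
  · have : {a : G | (F (a, s)).1 = g * a} =
        ⋃ l : Λ, (fun a => (a, s)) ⁻¹' {z | F z = (g, l) * z} := by
      ext a
      simp only [mem_ofPred_eq, mem_iUnion, mem_preimage, Prod.ext_iff, Prod.fst_mul, Prod.snd_mul]
      exact ⟨fun h => ⟨(F (a, s)).2 * s⁻¹, h, by simp⟩, fun ⟨_, h, _⟩ => h⟩
    rw [this]
    exact MeasurableSet.iUnion fun l => measurable_prodMk_right (hF.2 _)

omit [MeasurableMul G] [DiscreteMeasurableSpace Λ] [Finite Λ] in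
lemma PW.lift {f : G → G} (hf : PW f) : PW (fun z : G × Λ => (f z.1, z.2)) := by
  refine ⟨(hf.1.image (fun g => (g, (1 : Λ)))).mono ?_, fun g => ?_⟩
  · rintro _ ⟨x, rfl⟩; exact ⟨_, ⟨x.1, rfl⟩, by ext <;> simp⟩
  · have : {z : G × Λ | (f z.1, z.2) = g * z} =
        Prod.fst ⁻¹' {x | f x = g.1 * x} ∩ {_z | g.2 = 1} := by
      ext z; simp [Prod.ext_iff]
    rw [this]
    exact (measurable_fst (hf.2 _)).inter (MeasurableSet.const _)

lemma absorb {A A0 C : Set G} (hC : MeasurableSet C) (h0 : A0 ⊆ A) (hCA : C ⊆ A \ A0)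
    {j : G × Λ → G × Λ} (hj : PW j) (inj : InjOn j (A ×ˢ univ))
    (maps : MapsTo j (A ×ˢ univ) (A0 ×ˢ univ)) (s : Λ)
    (hinf : ∀ c ∈ C, ∀ N, ∃ m ≥ N, (j^[m] (c, 1)).2 = s) :
    ∃ τ : G → G, PW τ ∧ InjOn τ A ∧ (∀ x ∈ A0 ∪ C, τ x ∈ A0) ∧
      ∀ x ∈ A, x ∉ A0 ∪ C → τ x = x := by
  classical
  have maps' : MapsTo j (A ×ˢ univ) (A ×ˢ univ) := maps.mono_right (prod_mono h0 le_rfl)
  let W : Set (G × Λ) := ⋃ k, j^[k] '' (C ×ˢ {1})
  have hWm : MeasurableSet W := MeasurableSet.iUnion fun k =>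
    (hj.iterate k).image (hC.prod (MeasurableSet.singleton _))
  have hWA : W ⊆ A ×ˢ univ := by
    intro z hz
    obtain ⟨k, w, hw, rfl⟩ := mem_iUnion.1 hz
    exact maps'.iterate k ⟨(hCA hw.1).1, trivial⟩
  have hWj : ∀ m, ∀ z ∈ W, j^[m] z ∈ W := by
    intro m z hz
    obtain ⟨k, w, hw, rfl⟩ := mem_iUnion.1 hz
    exact mem_iUnion.2 ⟨m + k, w, hw, Function.iterate_add_apply _ _ _ _⟩
  have hex : ∀ z, ∃ m, z ∈ W → (j^[m + 1] z).2 = s := by
    intro z
    by_cases hz : z ∈ W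
    · obtain ⟨k, ⟨c, l⟩, hw, rfl⟩ := mem_iUnion.1 hz
      obtain rfl : l = 1 := hw.2
      obtain ⟨m, hm, h⟩ := hinf c hw.1 (k + 1)
      refine ⟨m - (k + 1), fun _ => ?_⟩
      rw [← Function.iterate_add_apply, ← h]
      congr 2; omega
    · exact ⟨0, fun h => absurd h hz⟩
  let ret : G × Λ → G × Λ := fun z => j^[Nat.find (hex z) + 1] z
  have hret : PW ret := by
    refine PW.select (c := fun z => Nat.find (hex z)) (f := fun m => j^[m + 1]) (fun m => ?_)
      (fun m => hj.iterate _)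
    refine measurable_find hex (fun k => ?_) (MeasurableSet.singleton m)
    have : {z | z ∈ W → (j^[k + 1] z).2 = s} = Wᶜ ∪ j^[k + 1] ⁻¹' (Prod.snd ⁻¹' {s}) := by
      ext z; simp [imp_iff_not_or]
    rw [this]
    exact hWm.compl.union ((hj.iterate _).measurable (measurable_snd (MeasurableSet.singleton _)))
  have r1 : ∀ z ∈ W, ret z ∈ W ∧ (ret z).2 = s ∧ (ret z).1 ∈ A0 := by
    intro z hz
    refine ⟨hWj _ z hz, Nat.find_spec (hex z) hz, ?_⟩
    simp only [ret, Function.iterate_succ_apply']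
    exact (maps (maps'.iterate _ (hWA hz))).1
  let ι : G → G × Λ := fun a => if a ∈ C then (a, 1) else (a, s)
  have hι1 : ∀ a, (ι a).1 = a := by intro a; simp only [ι]; split_ifs <;> rfl
  have r2 : ∀ a b, ι a ∈ W → ι b ∈ W → Nat.find (hex (ι a)) ≤ Nat.find (hex (ι b)) →
      ret (ι a) = ret (ι b) → a = b := by
    intro a b ha hb hle h
    obtain ⟨d, hd⟩ := Nat.exists_eq_add_of_le hle
    have h1 : j^[Nat.find (hex (ι a)) + 1] (ι a) =
        j^[Nat.find (hex (ι a)) + 1] (j^[d] (ι b)) := by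
      rw [← Function.iterate_add_apply]
      have : Nat.find (hex (ι a)) + 1 + d = Nat.find (hex (ι b)) + 1 := by omega
      rw [this]; exact h
    have h2 : ι a = j^[d] (ι b) :=
      (inj.iterate maps' _) (hWA ha) (hWA (hWj d _ hb)) h1
    cases d with
    | zero => rw [← hι1 a, h2]; exact hι1 b
    | succ d =>
      exfalso
      have h3 : a ∈ A0 := by
        rw [← hι1 a, h2, Function.iterate_succ_apply']
        exact (maps (maps'.iterate _ (hWA hb))).1
      have h4 : a ∉ C := fun h => (hCA h).2 h3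
      have h5 : (j^[d + 1] (ι b)).2 = s := by rw [← h2]; simp [ι, h4]
      exact Nat.find_min (hex (ι b)) (m := d) (by omega) (fun _ => h5)
  let D : Set G := ι ⁻¹' W
  have hD : MeasurableSet D := by
    have : Measurable ι := Measurable.ite hC measurable_prodMk_right measurable_prodMk_right
    exact this hWm
  let τ : G → G := fun a => if a ∈ D then (ret (ι a)).1 else a
  have hτ1 : ∀ a ∈ D, τ a = (ret (ι a)).1 := fun a ha => if_pos ha
  have hτ2 : ∀ a, a ∉ D → τ a = a := fun a ha => if_neg ha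
  have hτ3 : ∀ a ∈ D, ι (τ a) = ret (ι a) := by
    intro a ha
    obtain ⟨-, h2, h3⟩ := r1 _ ha
    rw [hτ1 a ha]
    simp only [ι, if_neg (fun h => (hCA h).2 h3)]
    exact Prod.ext rfl h2.symm
  have hτ4 : ∀ a ∈ D, τ a ∈ D := fun a ha => by
    show ι (τ a) ∈ W
    rw [hτ3 a ha]; exact (r1 _ ha).1
  refine ⟨τ, ?_, ?_, ?_, ?_⟩
  · refine PW.ite hD ?_ PW.id
    have := PW.ite hC (hret.pic 1) (hret.pic s)
    convert this using 2 with a
    simp only [ι]; split_ifs <;> rfl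
  · intro a _ b _ hab
    by_cases ha : a ∈ D <;> by_cases hb : b ∈ D
    · have : ret (ι a) = ret (ι b) := by rw [← hτ3 a ha, ← hτ3 b hb, hab]
      rcases le_total (Nat.find (hex (ι a))) (Nat.find (hex (ι b))) with h | h
      · exact r2 a b ha hb h this
      · exact (r2 b a hb ha h this.symm).symm
    · exact absurd (hτ2 b hb ▸ hab ▸ hτ4 a ha) hb
    · exact absurd (hτ2 a ha ▸ hab.symm ▸ hτ4 b hb) ha
    · rwa [hτ2 a ha, hτ2 b hb] at hab
  · intro x hx
    by_cases h : x ∈ D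
    · rw [hτ1 x h]; exact (r1 _ h).2.2
    · rw [hτ2 x h]
      refine hx.resolve_right fun hc => h ?_
      show ι x ∈ W
      exact mem_iUnion.2 ⟨0, (x, 1), ⟨hc, rfl⟩, by simp [ι, hc]⟩
  · intro x _ hx
    refine hτ2 x fun h => hx ?_
    obtain ⟨k, w, hw, hk⟩ := mem_iUnion.1 (show ι x ∈ W from h)
    rw [← hι1 x, ← hk]
    cases k with
    | zero => exact Or.inr hw.1
    | succ k =>
      rw [Function.iterate_succ_apply']
      exact Or.inl (maps (maps'.iterate _ ⟨(hCA hw.1).1, trivial⟩)).1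

lemma shrink {A A0 : Set G} (hA : MeasurableSet A) (hA0 : MeasurableSet A0) (h0 : A0 ⊆ A)
    {j : G × Λ → G × Λ} (hj : PW j) (inj : InjOn j (A ×ˢ univ))
    (maps : MapsTo j (A ×ˢ univ) (A0 ×ˢ univ)) :
    ∃ θ : G → G, PW θ ∧ InjOn θ A ∧ MapsTo θ A A0 := by
  classical
  let I : Λ → Set G := fun s => {c | ∀ N, ∃ m ≥ N, (j^[m] (c, 1)).2 = s}
  have hI : ∀ s, MeasurableSet (I s) := by
    intro s
    have : I s = ⋂ N, ⋃ m, ⋃ _ : m ≥ N,
        (fun c => (c, (1 : Λ))) ⁻¹' (j^[m] ⁻¹' (Prod.snd ⁻¹' {s})) := by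
      ext c; simp [I]
    rw [this]
    exact MeasurableSet.iInter fun N => MeasurableSet.iUnion fun m => MeasurableSet.iUnion fun _ =>
      measurable_prodMk_right ((hj.iterate m).measurable
        (measurable_snd (MeasurableSet.singleton _)))
  have key : ∀ S : Finset Λ, ∃ τ : G → G, PW τ ∧ InjOn τ A ∧
      (∀ x ∈ A, x ∈ A0 ∪ ⋃ s ∈ S, I s → τ x ∈ A0) ∧
      ∀ x ∈ A, x ∉ A0 ∪ ⋃ s ∈ S, I s → τ x = x := by
    intro S
    induction S using Finset.induction_on with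
    | empty => exact ⟨fun x => x, PW.id, fun _ _ _ _ h => h, by simp, by simp⟩
    | insert s S _ ih =>
      obtain ⟨τ, h1, h2, h3, h4⟩ := ih
      have hU : MeasurableSet (A0 ∪ ⋃ s ∈ S, I s) :=
        hA0.union (Finset.measurableSet_biUnion _ fun s _ => hI s)
      obtain ⟨σ, g1, g2, g3, g4⟩ := absorb (C := (A ∩ I s) \ (A0 ∪ ⋃ s ∈ S, I s))
        ((hA.inter (hI s)).diff hU) h0 (fun x hx => ⟨hx.1.1, fun h => hx.2 (Or.inl h)⟩)
        hj inj maps s (fun c hc => hc.1.2)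
      have hτA : MapsTo τ A A := by
        intro x hx
        by_cases h : x ∈ A0 ∪ ⋃ s ∈ S, I s
        · exact h0 (h3 x hx h)
        · rw [h4 x hx h]; exact hx
      refine ⟨fun x => σ (τ x), g1.comp h1, g2.comp h2 hτA, fun x hx hx' => ?_,
        fun x hx hx' => ?_⟩
      · by_cases h : x ∈ A0 ∪ ⋃ s ∈ S, I s
        · exact g3 _ (Or.inl (h3 x hx h))
        · show σ (τ x) ∈ A0
          rw [h4 x hx h]
          refine g3 _ (Or.inr ⟨⟨hx, ?_⟩, h⟩)
          rw [Finset.set_biUnion_insert] at hx'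
          rcases hx' with h' | h' | h'
          · exact absurd (Or.inl h') h
          · exact h'
          · exact absurd (Or.inr h') h
      · rw [Finset.set_biUnion_insert] at hx'
        have h : x ∉ A0 ∪ ⋃ s ∈ S, I s := fun h => hx' (h.elim Or.inl (fun h => Or.inr (Or.inr h)))
        show σ (τ x) = x
        rw [h4 x hx h]
        refine g4 x hx ?_
        rintro (h' | h')
        · exact h (Or.inl h')
        · exact hx' (Or.inr (Or.inl h'.1.2))
  have := Fintype.ofFinite Λ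
  obtain ⟨τ, h1, h2, h3, -⟩ := key Finset.univ
  refine ⟨τ, h1, h2, fun x hx => h3 x hx (Or.inr ?_)⟩
  obtain ⟨s, hs⟩ := Finite.exists_infinite_fiber (fun m : ℕ => (j^[m] (x, 1)).2)
  refine mem_iUnion₂.2 ⟨s, Finset.mem_univ s, fun N => ?_⟩
  obtain ⟨m, hm, hN⟩ := (Set.infinite_coe_iff.1 hs).exists_gt N
  exact ⟨m, hN.le, hm⟩

/-- measurable cancellation law -/
theorem divide {A B : Set G} (hA : MeasurableSet A) (hB : MeasurableSet B)
    {J : G × Λ → G × Λ} (hJ : PW J) (inj : InjOn J (A ×ˢ univ))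
    (maps : MapsTo J (A ×ˢ univ) (B ×ˢ univ)) :
    ∃ f : G → G, PW f ∧ InjOn f A ∧ MapsTo f A B := by
  classical
  let Γ : Subgroup G := Subgroup.closure (Prod.fst '' range fun z => J z * z⁻¹)
  have hΓ : (Γ : Set G).Countable := by
    have := (hJ.1.image Prod.fst).to_subtype
    have h2 := FreeGroup.range_lift_eq_closure
      (f := (Subtype.val : (Prod.fst '' range fun z => J z * z⁻¹) → G))
    rw [Subtype.range_coe] at h2
    simp only [Γ, ← h2, MonoidHom.coe_range]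
    exact countable_range _
  obtain ⟨γ, hγ⟩ := hΓ.exists_eq_range ⟨1, Γ.one_mem⟩
  have hγ1 : ∀ n, γ n ∈ Γ := fun n => by
    show γ n ∈ (Γ : Set G)
    rw [hγ]; exact ⟨n, rfl⟩
  have hγ2 : ∀ g ∈ Γ, ∃ n, γ n = g := fun g hg => by
    have : g ∈ (Γ : Set G) := hg
    rwa [hγ] at this
  obtain ⟨f, A0, hf, hA0, h0, finj, fmaps, fγ, fmax⟩ := greedy hA hB γ
  let Q : Set G := ⋃ n, (γ n * ·) ⁻¹' (A \ A0)
  have hQ : MeasurableSet Q := MeasurableSet.iUnion fun n => measurable_const_mul _ (hA.diff hA0)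
  have hQi : ∀ g ∈ Γ, ∀ x ∈ Q, g * x ∈ Q := by
    intro g hg x hx
    obtain ⟨n, hn⟩ := mem_iUnion.1 hx
    obtain ⟨m, hm⟩ := hγ2 (γ n * g⁻¹) (Γ.mul_mem (hγ1 n) (Γ.inv_mem hg))
    refine mem_iUnion.2 ⟨m, ?_⟩
    show γ m * (g * x) ∈ A \ A0
    rw [hm]; simpa [mul_assoc] using hn
  have hfQ : ∀ x ∈ A0, f x ∈ Q ↔ x ∈ Q := by
    intro x hx
    obtain ⟨n, hn⟩ := fγ x hx
    rw [hn]
    exact ⟨fun h => by simpa using hQi _ (Γ.inv_mem (hγ1 n)) _ h, hQi _ (hγ1 n) x⟩
  have hBQ : ∀ y ∈ B ∩ Q, ∃ x ∈ A0 ∩ Q, f x = y := by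
    rintro y ⟨hy, hyQ⟩
    obtain ⟨n, hn⟩ := mem_iUnion.1 hyQ
    obtain ⟨m, hm⟩ := hγ2 (γ n)⁻¹ (Γ.inv_mem (hγ1 n))
    have e : γ m * (γ n * y) = y := by rw [hm]; simp
    obtain ⟨x, hx, hxy⟩ := fmax _ hn m (by rw [e]; exact hy)
    rw [e] at hxy
    exact ⟨x, ⟨hx, (hfQ x hx).1 (hxy ▸ hyQ)⟩, hxy⟩
  obtain ⟨g, hg, hgf⟩ := hf.inv hA0 finj
  have hJQ : ∀ z ∈ (A ∩ Q) ×ˢ (univ : Set Λ), ∃ x ∈ A0 ∩ Q, f x = (J z).1 := by
    intro z hz
    refine hBQ _ ⟨(maps ⟨hz.1.1, trivial⟩).1, ?_⟩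
    have := hQi (J z * z⁻¹).1 (Subgroup.subset_closure ⟨_, ⟨z, rfl⟩, rfl⟩) _ hz.1.2
    simpa using this
  obtain ⟨θ, hθ, θinj, θmaps⟩ := shrink (Λ := Λ) (hA.inter hQ) (hA0.inter hQ)
    (inter_subset_inter_left _ h0) (j := fun z => (g (J z).1, (J z).2)) (hg.lift.comp hJ)
    (by
      intro z hz w hw h
      obtain ⟨x, hx, hx'⟩ := hJQ z hz
      obtain ⟨y, hy, hy'⟩ := hJQ w hw
      simp only [Prod.mk.injEq, ← hx', ← hy', hgf x hx.1, hgf y hy.1] at h
      refine inj ⟨hz.1.1, trivial⟩ ⟨hw.1.1, trivial⟩ (Prod.ext ?_ h.2)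
      rw [← hx', ← hy', h.1])
    (by
      intro z hz
      obtain ⟨x, hx, hx'⟩ := hJQ z hz
      refine ⟨?_, trivial⟩
      show g (J z).1 ∈ A0 ∩ Q
      rw [← hx', hgf x hx.1]; exact hx)
  have hAQ : ∀ x ∈ A, x ∉ Q → x ∈ A0 := by
    intro x hx hxQ
    by_contra h
    obtain ⟨n, hn⟩ := hγ2 1 Γ.one_mem
    exact hxQ (mem_iUnion.2 ⟨n, by simpa [hn] using ⟨hx, h⟩⟩)
  let θ' : G → G := fun x => if x ∈ Q then θ x else x
  have h1 : MapsTo θ' A A0 := by
    intro x hx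
    by_cases h : x ∈ Q
    · simp only [θ', if_pos h]; exact (θmaps ⟨hx, h⟩).1
    · simp only [θ', if_neg h]; exact hAQ x hx h
  have h2 : InjOn θ' A := by
    intro x hx y hy hxy
    by_cases h : x ∈ Q <;> by_cases h' : y ∈ Q <;> simp only [θ', h, h', if_true, if_false] at hxy
    · exact θinj ⟨hx, h⟩ ⟨hy, h'⟩ hxy
    · exact absurd (hxy ▸ (θmaps ⟨hx, h⟩).2) h'
    · exact absurd (hxy ▸ (θmaps ⟨hy, h'⟩).2) h
    · exact hxy
  exact ⟨fun x => f (θ' x), hf.comp (PW.ite hQ hθ PW.id), finj.comp h2 h1, fmaps.comp h1⟩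

end prod

end Pool.Agent.Lib.helper19.PWDiv
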