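import Pool.Agent.Lib.helper19.PWDiv

set_option autoImplicit false

namespace Pool.Agent.Lib.helper19.PWPack

open Set MeasureTheory Pool.Agent.Lib.helper19.PWDiv Topology Filter
open scoped Pointwise ENNReal

lemma fib {X ι : Type*} [MeasurableSpace X] [Fintype ι] (p : ι → X → Prop)
    [∀ x, DecidablePred (p · x)] (hp : ∀ e, MeasurableSet {x | p e x}) (S : Finset ι) :
    MeasurableSet {x | Finset.univ.filter (p · x) = S} := by
  have : {x | Finset.univ.filter (p · x) = S} = ⋂ e, {x | p e x ↔ e ∈ S} := by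
    ext x; simp [Finset.ext_iff]
  rw [this]
  refine MeasurableSet.iInter fun e => ?_
  by_cases h : e ∈ S
  · simpa [h] using hp e
  · simp only [h, iff_false]; exact (hp e).compl

open Classical in
lemma count_embed {G : Type*} [Group G] [MeasurableSpace G] [MeasurableMul G] {A B : Set G}
    (hA : MeasurableSet A) (hB : MeasurableSet B) {ι : Type} [Fintype ι] (w : ι → G) (n : ℕ)
    (hn : 0 < n) (hout : ∀ z ∈ A, n ≤ (Finset.univ.filter fun e => (w e)⁻¹ * z ∈ B).card)
    (hin : ∀ v ∈ B, (Finset.univ.filter fun e => w e * v ∈ A).card ≤ n) :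
    ∃ f : G → G, PW f ∧ InjOn f A ∧ MapsTo f A B := by
  rcases A.eq_empty_or_nonempty with rfl | ⟨z0, hz0⟩
  · exact ⟨fun x => x, PW.id, injOn_empty _, mapsTo_empty _ _⟩
  obtain ⟨e0, -⟩ := Finset.card_pos.1 (hn.trans_le (hout z0 hz0))
  have : NeZero n := ⟨hn.ne'⟩
  let Λ := Multiplicative (ZMod n)
  let _ : MeasurableSpace Λ := ⊤
  have : DiscreteMeasurableSpace Λ := ⟨fun _ => trivial⟩
  have hΛ : Fintype.card Λ = n := by simp [Λ]
  have h1 : ∀ S : Finset ι, ∃ sel : Λ → ι, n ≤ S.card → Function.Injective sel ∧ ∀ l, sel l ∈ S := by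
    intro S
    by_cases h : n ≤ S.card
    · obtain ⟨φ⟩ : Nonempty (Λ ↪ S) := Function.Embedding.nonempty_of_card_le (by simpa [hΛ])
      exact ⟨fun l => φ l, fun _ => ⟨Subtype.val_injective.comp φ.injective, fun l => (φ l).2⟩⟩
    · exact ⟨fun _ => e0, fun h' => absurd h' h⟩
  have h2 : ∀ S : Finset ι, ∃ rk : ι → Λ, S.card ≤ n → InjOn rk S := by
    intro S
    by_cases h : S.card ≤ n
    · obtain ⟨φ⟩ : Nonempty (S ↪ Λ) := Function.Embedding.nonempty_of_card_le (by simpa [hΛ])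
      refine ⟨fun e => if h : e ∈ S then φ ⟨e, h⟩ else 1, fun _ a ha b hb hab => ?_⟩
      have ha' : a ∈ S := ha
      have hb' : b ∈ S := hb
      simp only [dif_pos ha', dif_pos hb'] at hab
      exact congrArg Subtype.val (φ.injective hab)
    · exact ⟨fun _ => 1, fun h' => absurd h' h⟩
  choose sel hsel using h1
  choose rk hrk using h2
  let Out : G → Finset ι := fun z => Finset.univ.filter fun e => (w e)⁻¹ * z ∈ B
  let In : G → Finset ι := fun v => Finset.univ.filter fun e => w e * v ∈ A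
  let J : G × Λ → G × Λ := fun z =>
    ((w (sel (Out z.1) z.2))⁻¹ * z.1, rk (In ((w (sel (Out z.1) z.2))⁻¹ * z.1)) (sel (Out z.1) z.2))
  have hJ : PW J := by
    let c : G × Λ → Finset ι × (ι → Finset ι) × Λ := fun z =>
      (Out z.1, fun e => In ((w e)⁻¹ * z.1), z.2)
    have := PW.select (c := c) (f := fun i z => ((w (sel i.1 i.2.2))⁻¹,
      rk (i.2.1 (sel i.1 i.2.2)) (sel i.1 i.2.2) * i.2.2⁻¹) * z) (fun i => ?_)
      (fun i => PW.const _)
    · convert this using 2 with z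
      exact Prod.ext rfl (inv_mul_cancel_right _ _).symm
    · have : {x | c x = i} = Prod.fst ⁻¹' {z | Out z = i.1} ∩
          ((⋂ e, Prod.fst ⁻¹' (((w e)⁻¹ * ·) ⁻¹' {v | In v = i.2.1 e})) ∩ Prod.snd ⁻¹' {i.2.2}) := by
        ext x; simp [c, Prod.ext_iff, funext_iff]
      rw [this]
      refine (measurable_fst (fib _ (fun e => measurable_const_mul _ hB) _)).inter
        ((MeasurableSet.iInter fun e => measurable_fst (measurable_const_mul _
          (fib _ (fun e => measurable_const_mul _ hA) _))).inter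
          (measurable_snd (MeasurableSet.singleton _)))
  have hm : ∀ z ∈ A ×ˢ (univ : Set Λ), (w (sel (Out z.1) z.2))⁻¹ * z.1 ∈ B := fun z hz =>
    (Finset.mem_filter.1 ((hsel _ (hout z.1 hz.1)).2 z.2)).2
  refine divide hA hB hJ ?_ (fun z hz => ⟨hm z hz, trivial⟩)
  intro z hz y hy h
  simp only [J, Prod.mk.injEq] at h
  obtain ⟨h1, h2⟩ := h
  rw [h1] at h2
  have h3 : sel (Out z.1) z.2 = sel (Out y.1) y.2 := by
    refine hrk _ (hin _ (hm y hy)) ?_ ?_ h2
    · rw [← h1]; simpa [In] using hz.1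
    · simpa [In] using hy.1
  rw [h3] at h1
  have h4 : z.1 = y.1 := mul_left_cancel h1
  rw [h4] at h3
  exact Prod.ext h4 ((hsel _ (hout y.1 hy.1)).1 h3)

variable {G : Type*} [Group G] [TopologicalSpace G] [IsTopologicalGroup G] [T2Space G]
  [MeasurableSpace G] [BorelSpace G] (μ : Measure G) [μ.IsHaarMeasure] [μ.Regular]

open Classical in
lemma card_sig {r : ℕ} (m : Fin r → ℕ) (P : Fin r → Prop) :
    (Finset.univ.filter fun e : Σ k : Fin r, Fin (m k) => P e.1).card =
      ∑ k ∈ Finset.univ.filter P, m k := by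
  rw [Finset.card_filter, Finset.sum_filter, ← Finset.univ_sigma_univ, Finset.sum_sigma]
  refine Finset.sum_congr rfl fun k _ => ?_
  by_cases h : P k <;> simp [h]

lemma pack_compact {K V O : Set G} (hK : IsCompact K) (hV : IsCompact V) (hO : IsOpen O)
    (hKO : K ⊆ O) {c : ℝ≥0∞} (h1 : ∀ v ∈ V, μ ((· * v) ⁻¹' O) ≤ c) (h2 : c < μ (interior V)⁻¹) :
    ∃ f : G → G, PW f ∧ InjOn f K ∧ MapsTo f K V := by
  classical
  obtain ⟨L, hLV, hL, hcL⟩ := (isOpen_interior (s := V)).inv.exists_lt_isCompact h2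
  obtain ⟨W1, hW1, hW1'⟩ := compact_open_separated_mul_left hL.inv (isOpen_interior (s := V))
    (by intro x hx; simpa using hLV hx)
  obtain ⟨W2, hW2, hW2'⟩ := compact_open_separated_mul_right hK hO hKO
  have hW3 : ∀ᶠ ω in 𝓝 (1 : G), ∀ v ∈ V, v⁻¹ * ω * v ∈ W2 := by
    refine hV.eventually_forall_of_forall_eventually (P := fun ω v => v⁻¹ * ω * v ∈ W2)
      fun v _ => ?_
    have : Continuous fun z : G × G => z.2⁻¹ * z.1 * z.2 := by fun_prop
    exact this.continuousAt.preimage_mem_nhds (by simpa using hW2)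
  obtain ⟨W, hWs, hWo, hWm⟩ := mem_nhds_iff.1 (inter_mem hW1 hW3)
  have hR : IsCompact (K * L) := hK.mul hL
  obtain ⟨t, -, ht⟩ := hR.elim_nhds_subcover (fun x => (x⁻¹ * ·) ⁻¹' W)
    (fun x _ => (hWo.preimage (by fun_prop)).mem_nhds (by simpa using hWm))
  let r := t.card
  let w : Fin r → G := fun k => t.equivFin.symm k
  let U : Fin r → Set G := fun k => ((w k)⁻¹ * ·) ⁻¹' W
  have hU : ∀ k, MeasurableSet (U k) := fun k => measurable_const_mul _ hWo.measurableSet
  let C : Fin r → Set G := fun k => (K * L ∩ U k) \ ⋃ j, ⋃ _ : j < k, U j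
  have hC : ∀ k, MeasurableSet (C k) := fun k => (hR.measurableSet.inter (hU k)).diff
    (MeasurableSet.iUnion fun j => MeasurableSet.iUnion fun _ => hU j)
  have hCf : ∀ k, μ (C k) ≠ ⊤ := fun k =>
    ((measure_mono fun x hx => hx.1.1).trans_lt hR.measure_lt_top).ne
  have hCd : Pairwise (Function.onFun Disjoint C) := by
    intro i j hij
    refine disjoint_left.2 fun x hi hj => ?_
    rcases lt_or_gt_of_ne hij with h | h
    · exact hj.2 (mem_iUnion₂.2 ⟨i, h, hi.1.2⟩)
    · exact hi.2 (mem_iUnion₂.2 ⟨j, h, hj.1.2⟩)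
  have hCc : ∀ x ∈ K * L, ∃ k, x ∈ C k := by
    intro x hx
    obtain ⟨y, hy, hxy⟩ := mem_iUnion₂.1 (ht hx)
    have hne : (Finset.univ.filter fun k => x ∈ U k).Nonempty :=
      ⟨t.equivFin ⟨y, hy⟩, by simpa [U, w] using hxy⟩
    refine ⟨Finset.min' _ hne, ⟨hx, (Finset.mem_filter.1 (Finset.min'_mem _ hne)).2⟩, ?_⟩
    intro h
    obtain ⟨j, hj, hxj⟩ := mem_iUnion₂.1 h
    exact absurd (Finset.min'_le _ j (by simpa using hxj)) (not_le.2 hj)
  have hctop : c ≠ ⊤ := hcL.ne_top
  have hca : c.toReal < μ.real L := (ENNReal.toReal_lt_toReal hctop hL.measure_lt_top.ne).2 hcL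
  obtain ⟨N, hN⟩ := exists_nat_ge (((r : ℝ) + 2) / (μ.real L - c.toReal))
  rw [div_le_iff₀ (sub_pos.2 hca)] at hN
  have hN0 : (0 : ℝ) ≤ N := Nat.cast_nonneg N
  have hc0 : 0 ≤ c.toReal := ENNReal.toReal_nonneg
  have hr0 : (0 : ℝ) ≤ r := Nat.cast_nonneg r
  let m : Fin r → ℕ := fun k => ⌈N * μ.real (C k)⌉₊
  have hfl : N * μ.real L < ⌊N * μ.real L⌋₊ + 1 := Nat.lt_floor_add_one _
  refine count_embed hK.measurableSet hV.measurableSet (ι := Σ k : Fin r, Fin (m k))
    (fun e => w e.1) ⌊N * μ.real L⌋₊ ?_ ?_ ?_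
  · have : (0 : ℝ) < ⌊N * μ.real L⌋₊ := by nlinarith [mul_nonneg hN0 hc0]
    exact_mod_cast this
  · intro z hz
    rw [card_sig m (fun k => (w k)⁻¹ * z ∈ V)]
    have a1 : (z⁻¹ * ·) ⁻¹' L ⊆ ⋃ k ∈ Finset.univ.filter fun k => (w k)⁻¹ * z ∈ V, C k := by
      intro x hx
      obtain ⟨k, hk⟩ := hCc x ⟨z, hz, _, hx, by simp⟩
      refine mem_iUnion₂.2 ⟨k, Finset.mem_filter.2 ⟨Finset.mem_univ _, ?_⟩, hk⟩
      refine interior_subset (hW1' ⟨(w k)⁻¹ * x, (hWs hk.1.2).1, (z⁻¹ * x)⁻¹, ?_, by group⟩)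
      simpa using hx
    have a2 : μ.real L ≤ ∑ k ∈ Finset.univ.filter fun k => (w k)⁻¹ * z ∈ V, μ.real (C k) := by
      have : μ.real L = μ.real ((z⁻¹ * ·) ⁻¹' L) := by
        simp only [Measure.real, measure_preimage_mul]
      rw [this]
      exact (measureReal_mono a1 ((measure_biUnion_finset_le _ _).trans_lt
        (ENNReal.sum_lt_top.2 fun k _ => (hCf k).lt_top)).ne).trans
        (measureReal_biUnion_finset_le _ _)
    apply Nat.floor_le_of_le
    push_cast
    refine (mul_le_mul_of_nonneg_left a2 hN0).trans ?_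
    rw [Finset.mul_sum]
    exact Finset.sum_le_sum fun k _ => Nat.le_ceil _
  · intro v hv
    rw [card_sig m (fun k => w k * v ∈ K)]
    have a1 : (⋃ k ∈ Finset.univ.filter fun k => w k * v ∈ K, C k) ⊆ (· * v) ⁻¹' O := by
      intro x hx
      obtain ⟨k, hk, hx⟩ := mem_iUnion₂.1 hx
      exact hW2' ⟨_, (Finset.mem_filter.1 hk).2, _, (hWs hx.1.2).2 v hv, by group⟩
    have a2 : ∑ k ∈ Finset.univ.filter fun k => w k * v ∈ K, μ.real (C k) ≤ c.toReal := by
      rw [← measureReal_biUnion_finset (fun i _ j _ hij => hCd hij) (fun k _ => hC k)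
        (fun k _ => hCf k)]
      exact ENNReal.toReal_mono hctop ((measure_mono a1).trans (h1 v hv))
    have a3 : ((∑ k ∈ Finset.univ.filter fun k => w k * v ∈ K, m k : ℕ) : ℝ) ≤
        N * c.toReal + r := by
      push_cast
      calc _ ≤ ∑ k ∈ Finset.univ.filter fun k => w k * v ∈ K, (N * μ.real (C k) + 1) :=
            Finset.sum_le_sum fun k _ =>
              (Nat.ceil_lt_add_one (mul_nonneg hN0 measureReal_nonneg)).le
        _ = N * ∑ k ∈ Finset.univ.filter fun k => w k * v ∈ K, μ.real (C k) +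
            (Finset.univ.filter fun k => w k * v ∈ K).card := by
            rw [Finset.sum_add_distrib, Finset.mul_sum]; simp
        _ ≤ _ := by
            refine add_le_add (mul_le_mul_of_nonneg_left a2 hN0) ?_
            have := Finset.card_filter_le Finset.univ fun k => w k * v ∈ K
            simp only [Finset.card_univ, Fintype.card_fin] at this
            exact_mod_cast this
    have : ((∑ k ∈ Finset.univ.filter fun k => w k * v ∈ K, m k : ℕ) : ℝ) ≤ ⌊N * μ.real L⌋₊ := by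
      nlinarith
    exact_mod_cast this

end Pool.Agent.Lib.helper19.PWPack
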