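import Mathlib

/-! A transfinite recursion of length continuum with an invariant of finite character. -/

namespace Pool.Agent.Lib.helper19.Recur

open Cardinal

theorem recur {T X : Type} (hT : #T ≤ 𝔠) (Inv : Set X → Prop) (R : T → X → Prop)
    (h0 : Inv ∅) (hmono : ∀ S S', S ⊆ S' → Inv S' → Inv S)
    (hfin : ∀ S, (∀ F : Finset X, ↑F ⊆ S → Inv ↑F) → Inv S)
    (hstep : ∀ S : Set X, #S < 𝔠 → Inv S → ∀ t, ∃ x, R t x ∧ Inv (insert x S)) :
    ∃ S, Inv S ∧ ∀ t, ∃ x ∈ S, R t x := by
  classical
  obtain ⟨_, _, hord⟩ := exists_ord_eq_type_lt T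
  have : Nonempty T → Nonempty X := fun ⟨t⟩ => by
    obtain ⟨x, -⟩ := hstep ∅ (by simpa using continuum_pos) h0 t
    exact ⟨x⟩
  rcases isEmpty_or_nonempty T with hT0 | hT0
  · exact ⟨∅, h0, fun t => hT0.elim t⟩
  have := this hT0
  let P : ∀ t : T, (∀ u, u < t → X) → X → Prop := fun t r x =>
    R t x ∧ Inv (insert x {y | ∃ u h, r u h = y})
  let g : T → X := wellFounded_lt.fix fun t r => Classical.epsilon (P t r)
  have hg : ∀ t, g t = Classical.epsilon (P t fun u _ => g u) := fun t =>
    WellFounded.fix_eq _ _ _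
  have key : ∀ A : Set T, (∀ u ∈ A, P u (fun v _ => g v) (g u)) → Inv (g '' A) := by
    intro A hA
    apply hfin
    intro F hF
    obtain ⟨F', h1, rfl⟩ := Finset.subset_set_image_iff.1 hF
    rcases F'.eq_empty_or_nonempty with rfl | hne
    · simpa using h0
    · refine hmono _ _ ?_ (hA _ (h1 (F'.max'_mem hne))).2
      intro y hy
      obtain ⟨u, hu, rfl⟩ := Finset.mem_image.1 hy
      rcases (F'.le_max' u hu).eq_or_lt with h | h
      · exact Or.inl (congrArg g h)
      · exact Or.inr ⟨u, h, rfl⟩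
  have good : ∀ t, P t (fun u _ => g u) (g t) := by
    intro t
    induction t using WellFoundedLT.induction with
    | ind t ih =>
      rw [hg t]
      apply Classical.epsilon_spec
      have e : {y | ∃ u, ∃ _ : u < t, g u = y} = g '' Set.Iio t := by
        ext y; simp
      simp only [P, e]
      exact hstep _ (mk_image_le.trans_lt ((mk_Iio_lt t hord).trans_le hT)) (key _ ih) t
  exact ⟨g '' Set.univ, key _ fun u _ => good u, fun t => ⟨g t, ⟨t, trivial, rfl⟩, (good t).1⟩⟩

theorem closed_enum (Y : Type) [TopologicalSpace Y] [SecondCountableTopology Y] :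
    ∃ Γ : Set ℕ → Set Y, (∀ t, IsClosed (Γ t)) ∧ ∀ s, IsClosed s → ∃ t, Γ t = s := by
  obtain ⟨b, hb⟩ := ((TopologicalSpace.countable_countableBasis Y).insert ∅).exists_eq_range
    (Set.insert_nonempty _ _)
  refine ⟨fun t => (⋃ n ∈ t, b n)ᶜ, fun t => ?_, fun s hs => ⟨{n | b n ⊆ sᶜ}, ?_⟩⟩
  · refine (isOpen_biUnion fun n _ => ?_).isClosed_compl
    have : b n ∈ insert ∅ (TopologicalSpace.countableBasis Y) := hb ▸ Set.mem_range_self n
    rcases this with h | h
    · rw [h]; exact isOpen_empty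
    · exact TopologicalSpace.isOpen_of_mem_countableBasis h
  rw [compl_eq_comm]
  apply Set.Subset.antisymm
  · intro y hy
    obtain ⟨v, hv, h1, h2⟩ := (TopologicalSpace.isBasis_countableBasis Y).exists_subset_of_mem_open
      hy hs.isOpen_compl
    obtain ⟨n, rfl⟩ : v ∈ Set.range b := hb ▸ Set.mem_insert_of_mem _ hv
    exact Set.mem_biUnion (show n ∈ {n | b n ⊆ sᶜ} from h2) h1
  · exact Set.iUnion₂_subset fun n hn => hn

theorem mk_span_lt {V : Type} [AddCommGroup V] [Module (ZMod 2) V] {s : Set V} (hs : #s < 𝔠) :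
    #(Submodule.span (ZMod 2) s) < 𝔠 := by
  have h1 : (Submodule.span (ZMod 2) s : Set V) ⊆
      Set.range fun l : List s => (l.map Subtype.val).sum := by
    intro x hx
    induction hx using Submodule.span_induction with
    | mem x hx => exact ⟨[⟨x, hx⟩], by simp⟩
    | zero => exact ⟨[], by simp⟩
    | add x y _ _ hx hy =>
      obtain ⟨l, rfl⟩ := hx
      obtain ⟨l', rfl⟩ := hy
      exact ⟨l ++ l', by simp⟩
    | smul a x _ hx =>
      have : a = 0 ∨ a = 1 := by revert a; decide
      rcases this with rfl | rfl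
      · exact ⟨[], by simp⟩
      · simpa using hx
  exact ((mk_le_mk_of_subset h1).trans (mk_range_le.trans (mk_list_le_max _))).trans_lt
    (max_lt aleph0_lt_continuum hs)

end Pool.Agent.Lib.helper19.Recur
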