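import Pool.Agent.Lib.helper19.Precol
import Pool.Agent.Lib.helper19.Recur

set_option autoImplicit false

namespace Pool.Agent.Lib.helper19.Replace

open Cardinal Set Matrix Pool.Agent.Lib.helper19.Precol

inductive Path {X R : Type} (g : R → X → X) (W : R → Set X) (p : R) (w : X) : List R → X → Prop
  | base : Path g W p w [p] (g p w)
  | step {l x r} : Path g W p w l x → x ∉ W r → g r x ∉ W r → r ∉ l.head? →
      Path g W p w (r :: l) (g r x)

open Classical in
lemma free_col {X R C : Type} (g : R → X → X) (hg : ∀ r x, g r (g r x) = x) (W : R → Set X)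
    (gen : ∀ l : List R, l.IsChain (· ≠ ·) → ∀ p ∈ l.getLast?, ∀ q ∈ l.head?, ∀ w ∈ W p,
      l.foldr g w ∉ W q) (σ : R → X → C) (c0 : C) : ∃ c : X → C, ∀ r x,
      (if g r x ∈ W r then σ r (g r x) else c (g r x)) = if x ∈ W r then σ r x else c x := by
  have h1 : ∀ {p w l x}, Path g W p w l x →
      l.IsChain (· ≠ ·) ∧ p ∈ l.getLast? ∧ l.foldr g w = x := by
    intro p w l x h
    induction h with
    | base => simp
    | step _ _ _ h ih =>
      exact ⟨List.isChain_cons.2 ⟨fun y hy e => h (e ▸ hy), ih.1⟩,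
        List.mem_getLast?_cons ih.2.1, by simp [ih.2.2]⟩
  have h2 : ∀ {p w l x r}, w ∈ W p → Path g W p w l x → x ∉ W r → g r x ∉ W r →
      ∃ l', Path g W p w l' (g r x) := by
    intro p w l x r hw h a b
    by_cases hr : r ∈ l.head?
    · cases h with
      | base =>
        obtain rfl : p = r := by simpa using hr
        exact absurd (by rwa [hg]) b
      | step h =>
        obtain rfl := Option.some.inj hr
        exact ⟨_, by rwa [hg]⟩
    · exact ⟨_, h.step a b hr⟩
  have h3 : ∀ {p w q u l' x}, w ∈ W p → u ∈ W q → Path g W q u l' x → ∀ l, Path g W p w l x →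
      p = q ∧ w = u := by
    intro p w q u l' x hw hu h'
    induction h' with
    | base =>
      intro l h
      generalize e : g q u = x at h
      have e' : g q x = u := by rw [← e, hg]
      by_cases hq : q ∈ l.head?
      · cases h with
        | base =>
          obtain rfl : p = q := by simpa using hq
          exact ⟨rfl, by rw [← e', hg]⟩
        | step _ a =>
          obtain rfl := Option.some.inj hq
          exact absurd (by rwa [← e', hg] at hu) a
      · obtain ⟨a, b, c⟩ := h1 h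
        exact absurd (by rwa [List.foldr_cons, c, e'])
          (gen (q :: l) (List.isChain_cons.2 ⟨fun y hy e => hq (e ▸ hy), a⟩) p
            (List.mem_getLast?_cons b) q rfl w hw)
    | step _ a b _ ih =>
      intro l h
      obtain ⟨l', h⟩ := h2 hw h b (by rwa [hg])
      rw [hg] at h
      exact ih l' h
  let c : X → C := fun x => if h : ∃ t : R × X, t.2 ∈ W t.1 ∧ ∃ l, Path g W t.1 t.2 l x then
    σ h.choose.1 h.choose.2 else c0
  have hc : ∀ {p w l x}, w ∈ W p → Path g W p w l x → c x = σ p w := by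
    intro p w l x hw h
    have e : ∃ t : R × X, t.2 ∈ W t.1 ∧ ∃ l, Path g W t.1 t.2 l x := ⟨(p, w), hw, l, h⟩
    obtain ⟨a, l', b⟩ := e.choose_spec
    obtain ⟨d, f⟩ := h3 a hw h _ b
    simp only [c, dif_pos e, d, f]
  have base : ∀ r x, x ∈ W r →
      (if g r x ∈ W r then σ r (g r x) else c (g r x)) = if x ∈ W r then σ r x else c x :=
    fun r x hx => by
      rw [if_neg (show g r x ∉ W r from gen [r] (by simp) r rfl r rfl x hx), if_pos hx, hc hx Path.base]
  refine ⟨c, fun r x => ?_⟩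
  by_cases a : x ∈ W r
  · exact base r x a
  by_cases b : g r x ∈ W r
  · have := base r _ b
    rw [hg] at this
    exact this.symm
  rw [if_neg a, if_neg b]
  by_cases e : ∃ t : R × X, t.2 ∈ W t.1 ∧ ∃ l, Path g W t.1 t.2 l x
  · obtain ⟨t, d, l, f⟩ := e
    obtain ⟨l', f'⟩ := h2 d f a b
    rw [hc d f, hc d f']
  · have e' : ¬ ∃ t : R × X, t.2 ∈ W t.1 ∧ ∃ l, Path g W t.1 t.2 l (g r x) := fun ⟨t, d, l, f⟩ => by
      obtain ⟨l', f'⟩ := h2 d f b (by rwa [hg])
      rw [hg] at f'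
      exact e ⟨t, d, l', f'⟩
    simp only [c, dif_neg e, dif_neg e']

open Polynomial

noncomputable def J : Fin 3 → ℂ[X] := ![1 - X ^ 2, C Complex.I * (1 + X ^ 2), 2 * X]

noncomputable def ι : ℝ →+* ℂ[X] := C.comp Complex.ofRealHom

lemma J_eval (t : ℝ) (i : Fin 3) : (J i).eval (t : ℂ) = iso t i := by
  fin_cases i <;> simp [J, iso]

lemma JJ : J ⬝ᵥ J = 0 := by
  have : (C Complex.I : ℂ[X]) ^ 2 = -1 := by rw [← C_pow, Complex.I_sq]; simp
  simp [J, dotProduct, Fin.sum_univ_three]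
  linear_combination (1 + X ^ 2) ^ 2 * this

lemma J_real {x : Fin 3 → ℝ} (hx : x ≠ 0) : J ⬝ᵥ (fun j => ι (x j)) ≠ 0 := fun h => by
  obtain ⟨τ, -, h2⟩ := exists_tau x hx
  refine h2 0 ?_
  simpa [dotProduct, Fin.sum_univ_three, J_eval, ι] using congrArg (eval (τ 0 : ℂ)) h

lemma J_rot {G : Matrix (Fin 3) (Fin 3) ℝ} (hG : G ∈ specialOrthogonalGroup (Fin 3) ℝ)
    (h : J ⬝ᵥ (G.map ι *ᵥ J) = 0) : G = 1 := by
  have key : ∀ t : ℝ, iso t ⬝ᵥ (G.map (↑) *ᵥ iso t) = 0 := fun t => by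
    simpa [dotProduct, mulVec, Fin.sum_univ_three, J_eval, ι] using congrArg (eval (t : ℂ)) h
  have a := key 0
  have b := key 1
  have c := key (-1)
  simp [iso, dotProduct, mulVec, Fin.sum_univ_three, Complex.ext_iff] at a b c
  have d := key 2
  rw [show iso 2 = ![-3, Complex.I * 5, 4] by
    ext i; fin_cases i <;> simp [iso] <;> norm_num] at d
  simp [dotProduct, mulVec, Fin.sum_univ_three, Complex.ext_iff] at d
  obtain ⟨h1, h2⟩ := mem_specialOrthogonalGroup_iff.1 hG
  have h3 := (mem_orthogonalGroup_iff _ _).1 h1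
  have h4 : G + Gᵀ = (2 * G 0 0) • 1 := by
    ext i j
    fin_cases i <;> fin_cases j <;> simp <;> linarith [a.1, a.2, b.1, b.2, c.1, c.2, d.1, d.2]
  have h5 : (G - 1) * (G - 1)ᵀ = (2 - 2 * G 0 0) • 1 := by
    rw [transpose_sub, transpose_one, sub_mul, mul_sub, mul_sub, h3, sub_smul, ← h4, two_smul]
    simp only [mul_one, one_mul]; abel
  have h6 : (G - 1).det = 0 := by
    have : G - 1 = G * (-(G - 1))ᵀ := by simp [mul_sub, h3]
    have := congrArg det this
    rw [det_mul, h2, det_transpose, det_neg] at this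
    norm_num at this
    linarith
  have h7 := congrArg det h5
  rw [det_mul, h6, zero_mul, det_smul, det_one, mul_one] at h7
  rw [pow_eq_zero_iff (by simp) |>.1 h7.symm, zero_smul] at h5
  exact sub_eq_zero.1 (self_mul_conjTranspose_eq_zero.1 (by rwa [conjTranspose_eq_transpose_of_trivial]))

noncomputable def M {I : Type} (v : I → Fin 3 → ℝ) (l : List I) : Matrix (Fin 3) (Fin 3) ℝ :=
  (l.map fun r => half (v r)).prod

lemma M_mem {I : Type} {v : I → Fin 3 → ℝ} {l : List I} (h : ∀ r ∈ l, v r ⬝ᵥ v r ≠ 0) :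
    M v l ∈ specialOrthogonalGroup (Fin 3) ℝ :=
  list_prod_mem (by simpa using fun r hr => (half_mem (h r hr)).1)

lemma M_fold {I : Type} (v : I → Fin 3 → ℝ) (l : List I) (x : Fin 3 → ℝ) :
    l.foldr (fun r y => half (v r) *ᵥ y) x = M v l *ᵥ x := by
  induction l with
  | nil => simp [M]
  | cons r l ih => simp [M] at ih ⊢; simp [ih]

lemma act_half' {I : Type} (v : I → Fin 3 → ℝ) (l : List I) (hv : ∀ r ∈ l, v r ⬝ᵥ v r ≠ 0)
    (x : Fin 3 → ℝ) : act v l x = nrm v l • l.foldr (fun r y => half (v r) *ᵥ y) x := by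
  induction l with
  | nil => simp [act, nrm]
  | cons r l ih =>
    unfold act nrm at ih ⊢
    rw [List.foldr_cons, ih fun s hs => hv s (by simp [hs])]
    have := hv r (by simp)
    simp only [List.map_cons, List.prod_cons, List.foldr_cons, half, sub_mulVec, smul_mulVec,
      vecMulVec_mulVec, one_mulVec, dotProduct_smul, smul_sub, smul_smul, op_smul_eq_smul,
      smul_eq_mul]
    congr 2
    field_simp

lemma H_map {v : Fin 3 → ℝ} (hv : v ⬝ᵥ v ≠ 0) (z : Fin 3 → ℂ[X]) :
    (2 * ((fun j => ι (v j)) ⬝ᵥ z)) • (fun j => ι (v j)) -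
      ((fun j => ι (v j)) ⬝ᵥ fun j => ι (v j)) • z = ι (v ⬝ᵥ v) • (half v).map ι *ᵥ z := by
  have hc := congrArg ι (div_mul_cancel₀ (2 : ℝ) hv)
  unfold half
  generalize 2 / (v ⬝ᵥ v) = c at *
  simp only [dotProduct, Fin.sum_univ_three, map_add, map_mul, map_ofNat] at hc
  ext1 i
  fin_cases i <;> simp [dotProduct, mulVec, Fin.sum_univ_three, vecMulVec_apply]
  · linear_combination (-ι (v 0) * (ι (v 0) * z 0 + ι (v 1) * z 1 + ι (v 2) * z 2)) * hc
  · linear_combination (-ι (v 1) * (ι (v 0) * z 0 + ι (v 1) * z 1 + ι (v 2) * z 2)) * hc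
  · linear_combination (-ι (v 2) * (ι (v 0) * z 0 + ι (v 1) * z 1 + ι (v 2) * z 2)) * hc

lemma act_J {I : Type} [DecidableEq I] (v : I → Fin 3 → ℝ) (T : I) (x : Fin 3 → ℝ) (hx : x ≠ 0)
    (l : List I) : (∀ r ∈ l, v r ⬝ᵥ v r ≠ 0) → l.IsChain (· ≠ ·) →
    (∀ m, m <:+: l → T ∉ m → m ≠ [] → M v m ≠ 1) →
    ∃ c ≠ (0 : ℂ[X]), (T ∉ l ∧ act (fun r => if r = T then J else fun j => ι (v r j)) l (fun j => ι (x j)) =
        c • (M v l).map ι *ᵥ fun j => ι (x j)) ∨ ∃ l1 l2, l = l1 ++ T :: l2 ∧ T ∉ l1 ∧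
      act (fun r => if r = T then J else fun j => ι (v r j)) l (fun j => ι (x j)) =
        c • (M v l1).map ι *ᵥ J := by
  induction l with
  | nil => exact fun _ _ _ => ⟨1, one_ne_zero, Or.inl ⟨by simp, by simp [act, M]⟩⟩
  | cons r l ih =>
    intro h1 h2 h3
    obtain ⟨c, c0, h⟩ := ih (fun s hs => h1 s (by simp [hs])) h2.tail
      fun m hm => h3 m (hm.trans (List.suffix_cons _ _).isInfix)
    have hr := h1 r (by simp)
    unfold act at h ⊢
    rw [List.foldr_cons]
    by_cases e : r = T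
    · subst e
      simp only [if_true, JJ, zero_smul, sub_zero]
      rcases h with ⟨a, b⟩ | ⟨l1, l2, rfl, a, b⟩
      · refine ⟨2 * (c * J ⬝ᵥ (M v l).map ι *ᵥ fun j => ι (x j)), ?_,
          Or.inr ⟨[], l, rfl, by simp, by rw [b, dotProduct_smul]; simp [M]⟩⟩
        have k : M v l *ᵥ x ≠ 0 := fun k => hx (mulVec_injective_iff_isUnit.2
          ((isUnit_iff_isUnit_det _).2 (by simp [(mem_specialOrthogonalGroup_iff.1
            (M_mem (l := l) fun s hs => h1 s (by simp [hs]))).2])) (k.trans (mulVec_zero _).symm))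
        have := J_real k
        rw [show (fun j => ι ((M v l *ᵥ x) j)) = (M v l).map ι *ᵥ fun j => ι (x j) from
          funext fun j => RingHom.map_mulVec ι _ _ j] at this
        exact mul_ne_zero two_ne_zero (mul_ne_zero c0 this)
      · refine ⟨2 * (c * J ⬝ᵥ (M v l1).map ι *ᵥ J), ?_,
          Or.inr ⟨[], _, rfl, by simp, by rw [b, dotProduct_smul]; simp [M]⟩⟩
        have := mt (J_rot (M_mem (l := l1) fun s hs => h1 s (by simp [hs])))
          (h3 l1 ⟨[r], r :: l2, by simp⟩ a (by rintro rfl; simp at h2))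
        exact mul_ne_zero two_ne_zero (mul_ne_zero c0 this)
    · have k : ι (v r ⬝ᵥ v r) ≠ 0 := (map_ne_zero ι).2 hr
      simp only [if_neg e, H_map hr]
      refine ⟨ι (v r ⬝ᵥ v r) * c, mul_ne_zero k c0, ?_⟩
      rcases h with ⟨a, b⟩ | ⟨l1, l2, rfl, a, b⟩
      · exact Or.inl ⟨by simp [a, Ne.symm e], by
          rw [b]; simp [M, mulVec_smul, smul_smul, Matrix.map_mul]⟩
      · exact Or.inr ⟨r :: l1, l2, rfl, by simp [a, Ne.symm e], by
          rw [b]; simp [M, mulVec_smul, smul_smul, Matrix.map_mul]⟩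

theorem fresh (Y : Set ℝ) (hY : #Y < 𝔠) : ∃ u : Fin 3 → ℝ, u ⬝ᵥ u ≠ 0 ∧ u 0 ∉ Y ∧
    ∀ {I : Type} (v : I → Fin 3 → ℝ) (T : I) (l : List I) (x y : Fin 3 → ℝ), v T = u → T ∈ l →
      x ≠ 0 → (∀ i, x i ∈ Y) → (∀ i, y i ∈ Y) → (∀ r ∈ l, r ≠ T → ∀ i, v r i ∈ Y) →
      (∀ r ∈ l, v r ⬝ᵥ v r ≠ 0) → l.IsChain (· ≠ ·) →
      (∀ m, m <:+: l → T ∉ m → m ≠ [] → M v m ≠ 1) → M v l *ᵥ x ≠ y := by
  classical
  let K := Subfield.closure Y
  have hK : #K < 𝔠 := (Subfield.cardinalMk_closure_le_max Y).trans_lt (max_lt hY aleph0_lt_continuum)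
  obtain ⟨s, hs⟩ := exists_isTranscendenceBasis K ℝ
  have hne : Nonempty s := by
    by_contra h
    rw [not_nonempty_iff] at h
    have := hs.isEmpty_iff_isAlgebraic.1 h
    have := Algebra.IsAlgebraic.cardinalMk_le_max K ℝ
    rw [mk_real] at this
    exact (max_lt hK aleph0_lt_continuum).not_ge this
  have h := hs.lift_cardinalMk_eq_max_lift
  simp only [lift_id, mk_real] at h
  obtain ⟨e⟩ : #(Fin 3) ≤ #s := by
    by_contra hlt
    exact (max_lt (max_lt hK ((not_le.1 hlt).trans ((lt_aleph0_of_finite _).trans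
      aleph0_lt_continuum))) aleph0_lt_continuum).ne' h
  have ht := hs.1.comp e e.injective
  set t := Subtype.val ∘ e
  refine ⟨t, fun h => ht.ne_zero 0 (congrFun (dotProduct_self_eq_zero.1 h) 0), fun h =>
    ht.transcendental 0 (isAlgebraic_algebraMap (⟨_, Subfield.subset_closure h⟩ : K)),
    fun {I} v T l x y hT hl hx x1 y1 v1 v2 hc hm hxy => ?_⟩
  let k : ℝ → MvPolynomial (Fin 3) K := fun a =>
    if h : a ∈ Y then .C ⟨a, Subfield.subset_closure h⟩ else 0
  let φ := (MvPolynomial.aeval t : _ →ₐ[K] ℝ).toRingHom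
  let ψ := MvPolynomial.eval₂Hom (ι.comp K.subtype) J
  have k1 : ∀ a ∈ Y, φ (k a) = a := fun a ha => by simp [φ, k, ha]; rfl
  have k2 : ∀ a ∈ Y, ψ (k a) = ι a := fun a ha => by simp [ψ, k, ha]
  let X : I → Fin 3 → MvPolynomial (Fin 3) K := fun r j => if r = T then .X j else k (v r j)
  have cg : ∀ {A : Type} [CommRing A] (v v' : I → Fin 3 → A) (x : Fin 3 → A), (∀ r ∈ l, v r = v' r) →
      act v l x = act v' l x ∧ nrm v l = nrm v' l := fun v v' x h =>
    ⟨List.foldr_ext _ _ _ fun r hr _ => by rw [h r hr],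
      congrArg _ (List.map_congr_left fun r hr => by rw [h r hr])⟩
  have e1 : ∀ i, act X l (fun j => k (x j)) i = nrm X l * k (y i) := fun i => ht (by
    have d := congrFun (act_half' v l v2 x) i
    rw [M_fold, hxy] at d
    show φ _ = φ _
    obtain ⟨a, b⟩ := cg (fun r j => φ (X r j)) v x fun r hr => funext fun j => by
      by_cases e : r = T
      · simp [X, e, φ, hT]
      · simp only [X, if_neg e, k1 _ (v1 r hr e j)]
    rw [map_mul, act_map, nrm_map, k1 _ (y1 i), b, funext fun j => k1 _ (x1 j), a, d]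
    rfl)
  obtain ⟨c, c0, ⟨a, -⟩ | ⟨l1, l2, a, -, b⟩⟩ := act_J v T x hx l v2 hc hm
  · exact a hl
  obtain ⟨d1, d2⟩ := cg (fun r j => ψ (X r j)) (fun r => if r = T then J else fun j => ι (v r j))
    (fun j => ι (x j)) fun r hr => funext fun j => by
      by_cases e : r = T
      · simp [X, e, ψ]
      · simp only [X, if_neg e, k2 _ (v1 r hr e j)]
  have e2 : (M v l1).map ι *ᵥ J = 0 := funext fun i => by
    have f := act_map ψ X l (fun j => k (x j)) i
    rw [e1, map_mul, nrm_map, d2, funext fun j => k2 _ (x1 j), d1, b,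
      nrm, List.prod_eq_zero (List.mem_map.2 ⟨T, hl, by simp [JJ]⟩), zero_mul] at f
    exact (mul_eq_zero.1 f.symm).resolve_left c0
  have e3 := congrArg (fun z => ((M v l1)ᵀ.map ι *ᵥ z) 2) e2
  simp only [mulVec_mulVec, ← Matrix.map_mul, (mem_orthogonalGroup_iff' _ _).1
    (mem_specialOrthogonalGroup_iff.1 (M_mem (l := l1) fun s hs => v2 s (by simp [a, hs]))).1] at e3
  simp [J] at e3

end Pool.Agent.Lib.helper19.Replace
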