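import Mathlib

set_option autoImplicit false

namespace Pool.Agent.H19Rev

open Module

/-- A multiplicative function on the complex numbers with values in the roots of unity
(and zero) sending -1 to -1. -/
theorem exists_chi : ∃ χ : ℂ → ℂ, (∀ a b, χ (a * b) = χ a * χ b) ∧ χ 1 = 1 ∧ χ (-1) = -1 ∧
    ∀ a, a ≠ 0 → ∃ N : ℕ, 1 ≤ N ∧ χ a ^ N = 1 := by
  classical
  have hne : (Additive.ofMul (-1 : ℂˣ)) ≠ 0 := by
    intro h
    have h1 : (-1 : ℂˣ) = 1 := h
    have h2 := congrArg (fun u : ℂˣ => (u : ℂ)) h1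
    norm_num at h2
  obtain ⟨c, hc⟩ := CharacterModule.exists_character_apply_ne_zero_of_ne_zero hne
  -- exponential on the rational circle
  have hrep : ∀ x : AddCircle (1 : ℚ), ∃ q : ℚ, (q : AddCircle (1 : ℚ)) = x := fun x =>
    QuotientAddGroup.mk_surjective x
  choose rep hrep using hrep
  obtain ⟨e, he⟩ : ∃ e : ℚ → ℂ, e = fun q : ℚ => Complex.exp (2 * Real.pi * Complex.I * (q : ℂ)) :=
    ⟨_, rfl⟩
  have e_add : ∀ p q : ℚ, e (p + q) = e p * e q := by
    intro p q; rw [he]; simp only; rw [← Complex.exp_add]; congr 1; push_cast; ring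
  have e_one : ∀ q : ℚ, e q = 1 ↔ (q : AddCircle (1 : ℚ)) = 0 := by
    intro q
    rw [he, AddCircle.coe_eq_zero_iff]
    simp only
    rw [Complex.exp_eq_one_iff]
    constructor
    · rintro ⟨n, hn⟩
      refine ⟨n, ?_⟩
      have h2 : (2 * Real.pi * Complex.I : ℂ) ≠ 0 := Complex.two_pi_I_ne_zero
      have h3 : (q : ℂ) = n := by
        apply mul_left_cancel₀ h2
        rw [hn]; ring
      have h4 : q = n := by exact_mod_cast h3
      simp [h4]
    · rintro ⟨n, hn⟩
      refine ⟨n, ?_⟩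
      rw [← hn]; simp; ring
  have e_zero : e 0 = 1 := by rw [he]; simp
  have e_congr : ∀ p q : ℚ, (p : AddCircle (1 : ℚ)) = q → e p = e q := by
    intro p q h
    have h1 : e (p - q) = 1 := by
      rw [e_one, AddCircle.coe_sub, h, sub_self]
    calc e p = e ((p - q) + q) := by ring_nf
      _ = e q := by rw [e_add, h1, one_mul]
  have e_pow : ∀ (q : ℚ) (N : ℕ), e q ^ N = e (N * q) := by
    intro q N
    induction N with
    | zero => simp [e_zero]
    | succ N ih => rw [pow_succ, ih, ← e_add]; congr 1; push_cast; ring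
  obtain ⟨ψ, hψ⟩ : ∃ ψ : ℂˣ → ℂ, ψ = fun u => e (rep (c (Additive.ofMul u))) := ⟨_, rfl⟩
  have ψ_mul : ∀ u v, ψ (u * v) = ψ u * ψ v := by
    intro u v
    rw [hψ]; simp only
    rw [← e_add]
    apply e_congr
    rw [AddCircle.coe_add, hrep, hrep, hrep, ofMul_mul, map_add]
  have ψ_one : ψ 1 = 1 := by
    rw [hψ]; simp only
    rw [e_one, hrep, ofMul_one, map_zero]
  have ψ_neg : ψ (-1) = -1 := by
    have h1 : ψ (-1) * ψ (-1) = 1 := by rw [← ψ_mul]; simp [ψ_one]
    have h2 : ψ (-1) ≠ 1 := by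
      rw [hψ]; simp only
      rw [ne_eq, e_one, hrep]; exact hc
    rcases mul_self_eq_one_iff.1 h1 with h | h
    · exact absurd h h2
    · exact h
  refine ⟨fun a => if h : a = 0 then 0 else ψ (Units.mk0 a h), ?_, ?_, ?_, ?_⟩
  · intro a b
    by_cases ha : a = 0
    · simp [ha]
    by_cases hb : b = 0
    · simp [hb]
    have hab : a * b ≠ 0 := mul_ne_zero ha hb
    simp only [ha, hb, hab, dif_neg, not_false_eq_true]
    rw [← ψ_mul]; congr 1; ext; simp
  · simp only [one_ne_zero, dif_neg, not_false_eq_true]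
    refine Eq.trans ?_ ψ_one; congr 1; ext; simp
  · have : (-1 : ℂ) ≠ 0 := by norm_num
    simp only [this, dif_neg, not_false_eq_true]
    refine Eq.trans ?_ ψ_neg; congr 1; ext; simp
  · intro a ha
    simp only [ha, dif_neg, not_false_eq_true]
    obtain ⟨q, hq⟩ : ∃ q, q = rep (c (Additive.ofMul (Units.mk0 a ha))) := ⟨_, rfl⟩
    refine ⟨q.den, q.pos, ?_⟩
    rw [hψ]; simp only
    rw [← hq, e_pow, e_one, AddCircle.coe_eq_zero_iff]
    exact ⟨q.num, by simp⟩

section Lin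

variable {V W : Type*} [AddCommGroup V] [Module ℂ V] [AddCommGroup W] [Module ℂ W]

/-- `T` acts by the scalar `χ μ` on the generalised `μ`-eigenspace of `η`. -/
def Acts (χ : ℂ → ℂ) (η T : End ℂ V) : Prop :=
  ∀ μ, ∀ v ∈ η.maxGenEigenspace μ, T v = χ μ • v

theorem exists_acts [FiniteDimensional ℂ V] (χ : ℂ → ℂ) (η : End ℂ V) :
    ∃ T : End ℂ V, Acts χ η T := by
  classical
  have hint : DirectSum.IsInternal η.maxGenEigenspace :=
    DirectSum.isInternal_submodule_of_iSupIndep_of_iSup_eq_top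
      η.independent_maxGenEigenspace η.iSup_maxGenEigenspace_eq_top
  obtain ⟨E, hE⟩ : ∃ E, E = LinearEquiv.ofBijective
    (DirectSum.coeLinearMap η.maxGenEigenspace) hint := ⟨_, rfl⟩
  refine ⟨(DirectSum.toModule ℂ ℂ V fun μ => χ μ • (η.maxGenEigenspace μ).subtype) ∘ₗ
    E.symm.toLinearMap, ?_⟩
  intro μ v hv
  have h1 : E.symm v = DirectSum.lof ℂ ℂ (fun μ => η.maxGenEigenspace μ) μ ⟨v, hv⟩ := by
    rw [LinearEquiv.symm_apply_eq, hE]
    simp [DirectSum.lof_eq_of]
  simp only [LinearMap.coe_comp, LinearEquiv.coe_coe, Function.comp_apply]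
  rw [h1, DirectSum.toModule_lof]
  simp

theorem gen_induction [FiniteDimensional ℂ V] (η : End ℂ V) (P : Submodule ℂ V)
    (h : ∀ μ, ∀ v ∈ η.maxGenEigenspace μ, v ∈ P) (v : V) : v ∈ P := by
  have : (⊤ : Submodule ℂ V) ≤ P := by
    rw [← η.iSup_maxGenEigenspace_eq_top]
    exact iSup_le fun μ => h μ
  exact this Submodule.mem_top

theorem map_gen (η : End ℂ V) (η' : End ℂ W) (ψ : V →ₗ[ℂ] W) (c : ℂ)
    (h : ∀ v, η' (ψ v) = c • ψ (η v)) (μ : ℂ) (v : V) (hv : v ∈ η.maxGenEigenspace μ) :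
    ψ v ∈ η'.maxGenEigenspace (c * μ) := by
  rw [End.mem_maxGenEigenspace] at hv ⊢
  obtain ⟨k, hk⟩ := hv
  refine ⟨k, ?_⟩
  have key : ∀ (k : ℕ) (v : V), ((η' - (c * μ) • (1 : End ℂ W)) ^ k) (ψ v)
      = c ^ k • ψ (((η - μ • (1 : End ℂ V)) ^ k) v) := by
    intro k
    induction k with
    | zero => intro v; simp
    | succ k ih =>
      intro v
      rw [pow_succ, pow_succ, pow_succ, End.mul_apply, End.mul_apply]
      have : (η' - (c * μ) • (1 : End ℂ W)) (ψ v) = c • ψ ((η - μ • (1 : End ℂ V)) v) := by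
        simp [h, smul_sub, mul_smul]
      rw [this, map_smul, ih, smul_smul, mul_comm]
  rw [key, hk]; simp

theorem acts_natural [FiniteDimensional ℂ V] {χ : ℂ → ℂ} (hχ : ∀ a b, χ (a * b) = χ a * χ b)
    {η T : End ℂ V} {η' T' : End ℂ W} (hT : Acts χ η T) (hT' : Acts χ η' T')
    (ψ : V →ₗ[ℂ] W) (c : ℂ) (h : ∀ v, η' (ψ v) = c • ψ (η v)) (v : V) :
    T' (ψ v) = χ c • ψ (T v) := by
  have := gen_induction η (LinearMap.eqLocus (T' ∘ₗ ψ) (χ c • (ψ ∘ₗ T))) (by
    intro μ v hv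
    rw [LinearMap.mem_eqLocus]
    simp only [LinearMap.coe_comp, Function.comp_apply, LinearMap.smul_apply]
    rw [hT' _ _ (map_gen η η' ψ c h μ v hv), hT _ _ hv, map_smul, smul_smul, hχ]) v
  simpa using this

theorem acts_reverse [FiniteDimensional ℂ V] {χ : ℂ → ℂ} (hχ : ∀ a b, χ (a * b) = χ a * χ b)
    (h1 : χ 1 = 1) (hn : χ (-1) = -1) {η T : End ℂ V} (hT : Acts χ η T)
    (φ γ : End ℂ V) (hφγ : ∀ v, φ (γ v) = v) (hγφ : ∀ v, γ (φ v) = v)
    (hrel : ∀ v, φ (η (φ v)) = η v) (v : V) : φ (T (φ v)) = T v := by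
  have ha : ∀ v, η (φ v) = γ (η v) := fun v => by rw [← hrel v, hγφ]
  have hb : ∀ v, η (γ v) = φ (η v) := fun v => by
    have := hrel (γ v); rw [hφγ] at this; exact this.symm
  have hp := acts_natural hχ hT hT (φ + γ) 1 (by
    intro v; simp [ha, hb, add_comm]) v
  have hm := acts_natural hχ hT hT (φ - γ) (-1) (by
    intro v; simp [ha, hb]) v
  rw [h1] at hp
  rw [hn] at hm
  simp only [LinearMap.add_apply, LinearMap.sub_apply, map_add, map_sub, one_smul, neg_smul,
    neg_sub] at hp hm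
  have h2 : (2 : ℂ) • T (φ v) = (2 : ℂ) • γ (T v) := by
    rw [two_smul, two_smul]
    have := congrArg₂ (· + ·) hp hm
    calc T (φ v) + T (φ v) = (T (φ v) + T (γ v)) + (T (φ v) - T (γ v)) := by abel
      _ = _ := this
      _ = _ := by abel
  have h3 : T (φ v) = γ (T v) := smul_right_injective V (by norm_num : (2 : ℂ) ≠ 0) h2
  rw [h3, hφγ]

theorem acts_pow {χ : ℂ → ℂ} {η T : End ℂ V} (hT : Acts χ η T) (N : ℕ) :
    Acts (fun μ => χ μ ^ N) η (T ^ N) := by
  intro μ v hv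
  induction N with
  | zero => simp
  | succ N ih =>
    rw [pow_succ', End.mul_apply, ih, map_smul, hT _ _ hv, smul_smul]
    simp only [pow_succ]

theorem acts_finite_order [FiniteDimensional ℂ V] {χ : ℂ → ℂ}
    (hroot : ∀ a, a ≠ 0 → ∃ N : ℕ, 1 ≤ N ∧ χ a ^ N = 1)
    {η T : End ℂ V} (hT : Acts χ η T) (hinj : Function.Injective η) :
    ∃ N : ℕ, 1 ≤ N ∧ ∀ v, (T ^ N) v = v := by
  classical
  have hfin : {μ | η.maxGenEigenspace μ ≠ ⊥}.Finite :=
    WellFoundedGT.finite_ne_bot_of_iSupIndep η.independent_maxGenEigenspace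
  have h0 : η.maxGenEigenspace 0 = ⊥ := by
    rw [eq_bot_iff]
    intro v hv
    rw [End.mem_maxGenEigenspace] at hv
    obtain ⟨k, hk⟩ := hv
    simp only [zero_smul, sub_zero] at hk
    have : Function.Injective (η ^ k) := by
      rw [End.coe_pow]; exact hinj.iterate k
    exact (Submodule.mem_bot ℂ).2 (this (by rw [hk, map_zero]))
  have hN : ∀ μ, ∃ N : ℕ, 1 ≤ N ∧ (μ ≠ 0 → χ μ ^ N = 1) := by
    intro μ
    by_cases h : μ = 0
    · exact ⟨1, le_rfl, fun h' => absurd h h'⟩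
    · obtain ⟨N, h1, h2⟩ := hroot μ h
      exact ⟨N, h1, fun _ => h2⟩
  choose N hN1 hN2 using hN
  refine ⟨∏ μ ∈ hfin.toFinset, N μ, Finset.one_le_prod' fun μ _ => hN1 μ, fun v => ?_⟩
  have := gen_induction η (LinearMap.eqLocus (T ^ (∏ μ ∈ hfin.toFinset, N μ)) LinearMap.id) (by
    intro μ v hv
    rw [LinearMap.mem_eqLocus, acts_pow hT _ μ v hv]
    by_cases hb : η.maxGenEigenspace μ = ⊥
    · rw [hb] at hv
      rw [(Submodule.mem_bot ℂ).1 hv]; simp
    · have hμ : μ ≠ 0 := fun e => hb (e ▸ h0)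
      obtain ⟨m, hm⟩ : N μ ∣ ∏ μ ∈ hfin.toFinset, N μ :=
        Finset.dvd_prod_of_mem _ (by simpa using hb)
      simp only
      rw [hm, pow_mul, hN2 μ hμ]; simp) v
  simpa using this

theorem acts_unipotent [FiniteDimensional ℂ V] {χ : ℂ → ℂ}
    {η U : End ℂ V} (hU : Acts χ η U) (k : ℕ) (hk : ∀ v, ((U - 1) ^ k) v = 0) (v : V) :
    U v = v := by
  have hD : Acts (fun μ => χ μ - 1) η (U - 1) := by
    intro μ v hv
    simp [hU _ _ hv, sub_smul]
  have := gen_induction η (LinearMap.eqLocus U LinearMap.id) (by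
    intro μ v hv
    rw [LinearMap.mem_eqLocus]
    have h1 := acts_pow hD k μ v hv
    rw [hk] at h1
    rcases smul_eq_zero.1 h1.symm with h | h
    · have h2 : χ μ = 1 := sub_eq_zero.1 (pow_eq_zero_iff'.1 h).1
      rw [hU _ _ hv, h2]; simp
    · simp [h]) v
  simpa using this

end Lin

section Alg

variable {A : Type*} [CommRing A] [Algebra ℂ A]

theorem gen_mul (η : A →ₐ[ℂ] A) (μ ν : ℂ) (a b : A)
    (ha : a ∈ End.maxGenEigenspace η.toLinearMap μ)
    (hb : b ∈ End.maxGenEigenspace η.toLinearMap ν) :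
    a * b ∈ End.maxGenEigenspace η.toLinearMap (μ * ν) := by
  obtain ⟨E, hE⟩ : ∃ E : End ℂ A, E = η.toLinearMap := ⟨_, rfl⟩
  have hEa : ∀ x, E x = η x := fun x => by rw [hE]; rfl
  rw [← hE] at ha hb ⊢
  rw [End.mem_maxGenEigenspace] at ha hb
  obtain ⟨m, hm⟩ := ha
  obtain ⟨n, hn⟩ := hb
  have step : ∀ (l : ℂ) (x : A), (E - l • (1 : End ℂ A)) x ∈ E.maxGenEigenspace l →
      x ∈ E.maxGenEigenspace l := by
    intro l x hx
    rw [End.mem_maxGenEigenspace] at hx ⊢
    obtain ⟨k, hk⟩ := hx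
    exact ⟨k + 1, by rw [pow_succ, End.mul_apply, hk]⟩
  have comm : ∀ (l : ℂ) (k : ℕ) (x : A), ((E - l • (1 : End ℂ A)) ^ k) (E x)
      = E (((E - l • (1 : End ℂ A)) ^ k) x) := by
    intro l k x
    have hc : Commute ((E - l • (1 : End ℂ A)) ^ k) E := by
      apply Commute.pow_left
      exact (Commute.refl E).sub_left ((Commute.one_left E).smul_left l)
    rw [← End.mul_apply, hc.eq, End.mul_apply]
  have key : ∀ (s m n : ℕ), m + n = s → ∀ a b : A, ((E - μ • (1 : End ℂ A)) ^ m) a = 0 →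
      ((E - ν • (1 : End ℂ A)) ^ n) b = 0 → a * b ∈ E.maxGenEigenspace (μ * ν) := by
    intro s
    induction s with
    | zero =>
      intro m n h a b ha hb
      have : m = 0 := by omega
      subst this
      have : a = 0 := by simpa using ha
      rw [this, zero_mul]; exact Submodule.zero_mem _
    | succ s ih =>
      intro m n h a b ha hb
      rcases m with _ | m
      · have : a = 0 := by simpa using ha
        rw [this, zero_mul]; exact Submodule.zero_mem _
      rcases n with _ | n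
      · have : b = 0 := by simpa using hb
        rw [this, mul_zero]; exact Submodule.zero_mem _
      apply step
      have e1 : (E - (μ * ν) • (1 : End ℂ A)) (a * b) =
          ((E - μ • (1 : End ℂ A)) a) * (E b) + μ • (a * ((E - ν • (1 : End ℂ A)) b)) := by
        simp only [LinearMap.sub_apply, LinearMap.smul_apply, End.one_apply, hEa, map_mul]
        simp only [Algebra.smul_def, map_mul]
        ring
      rw [e1]
      refine Submodule.add_mem _ ?_ (Submodule.smul_mem _ _ ?_)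
      · refine ih m (n + 1) (by omega) _ _ ?_ ?_
        · rw [← End.mul_apply, ← pow_succ]; exact ha
        · rw [comm, hb, map_zero]
      · refine ih (m + 1) n (by omega) _ _ ha ?_
        rw [← End.mul_apply, ← pow_succ]; exact hb
  exact key _ m n rfl a b hm hn

theorem acts_mul [FiniteDimensional ℂ A] {χ : ℂ → ℂ} (hχ : ∀ a b, χ (a * b) = χ a * χ b)
    (η : A →ₐ[ℂ] A) {T : End ℂ A} (hT : Acts χ η.toLinearMap T) (a b : A) :
    T (a * b) = T a * T b := by
  have h1 : ∀ μ, ∀ a ∈ End.maxGenEigenspace η.toLinearMap μ, ∀ b, T (a * b) = T a * T b := by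
    intro μ a ha b
    have := gen_induction η.toLinearMap
      (LinearMap.eqLocus (T ∘ₗ LinearMap.mulLeft ℂ a) (LinearMap.mulLeft ℂ (T a) ∘ₗ T)) (by
        intro ν b hb
        rw [LinearMap.mem_eqLocus]
        simp only [LinearMap.coe_comp, Function.comp_apply, LinearMap.mulLeft_apply]
        rw [hT _ _ (gen_mul η μ ν a b ha hb), hT _ _ ha, hT _ _ hb, hχ]
        simp [Algebra.smul_def]; ring) b
    simpa using this
  have := gen_induction η.toLinearMap
    (LinearMap.eqLocus (T ∘ₗ LinearMap.mulRight ℂ b) (LinearMap.mulRight ℂ (T b) ∘ₗ T)) (by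
      intro μ a ha
      rw [LinearMap.mem_eqLocus]
      simpa using h1 μ a ha b) a
  simpa using this

theorem acts_one {χ : ℂ → ℂ} (h1 : χ 1 = 1)
    (η : A →ₐ[ℂ] A) {T : End ℂ A} (hT : Acts χ η.toLinearMap T) : T 1 = 1 := by
  rw [hT 1 1, h1, one_smul]
  rw [End.mem_maxGenEigenspace]
  exact ⟨1, by simp⟩

end Alg

end Pool.Agent.H19Rev
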