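import Mathlib
import Pool.Agent.Lib.helper19.Recur

/-! Two subgroups of the Cantor group whose union is rigid and Baire. -/

namespace Pool.Agent.Lib.helper19.Rigid

open Cardinal Filter Topology Submodule Pool.Agent.Lib.helper19.Recur

abbrev Om := ℕ → ZMod 2

theorem mk_Om : #Om = 𝔠 := by simp [Om]

theorem add_self (x : Om) : x + x = 0 := by
  ext n
  exact CharTwo.add_self_eq_zero (x n)

theorem mem_ins {s : Set Om} {x z : Om} (h : z ∈ span (ZMod 2) (insert x s)) :
    z ∈ span (ZMod 2) s ∨ z + x ∈ span (ZMod 2) s := by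
  obtain ⟨a, w, hw, rfl⟩ := mem_span_insert.1 h
  have : ∀ a : ZMod 2, a = 0 ∨ a = 1 := by decide
  rcases this a with rfl | rfl
  · left; simpa using hw
  · right
    rw [one_smul, add_comm x w, add_assoc, add_self, add_zero]; exact hw

abbrev Mv := Om × Om × Option Om

def GG (D : Set Om) (S : Set Mv) : Submodule (ZMod 2) Om := span (ZMod 2) (D ∪ (fun m => m.1) '' S)
def HH (S : Set Mv) : Submodule (ZMod 2) Om := span (ZMod 2) ((fun m => m.2.1) '' S)

def Inv (D : Set Om) (S : Set Mv) : Prop :=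
  (∀ x ∈ GG D S, x ∈ HH S → x = 0) ∧ ∀ m ∈ S, ∀ y, m.2.2 = some y → y ∉ GG D S ∧ y ∉ HH S

theorem fin_char (D : Set Om) (f : Mv → Om) (S : Set Mv) {x : Om}
    (hx : x ∈ span (ZMod 2) (D ∪ f '' S)) :
    ∃ F : Finset Mv, ↑F ⊆ S ∧ x ∈ span (ZMod 2) (D ∪ f '' ↑F) := by
  classical
  induction hx using Submodule.span_induction with
  | mem x hx =>
    rcases hx with h | ⟨m, hm, rfl⟩
    · exact ⟨∅, by simp, subset_span (Or.inl h)⟩
    · exact ⟨{m}, by simpa using hm, subset_span (Or.inr ⟨m, by simp, rfl⟩)⟩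
  | zero => exact ⟨∅, by simp, zero_mem _⟩
  | add x y _ _ hx hy =>
    obtain ⟨F, h1, h2⟩ := hx
    obtain ⟨F', h3, h4⟩ := hy
    refine ⟨F ∪ F', by simp [h1, h3], add_mem (span_mono ?_ h2) (span_mono ?_ h4)⟩
    · exact Set.union_subset_union_right _ (Set.image_mono (by simp))
    · exact Set.union_subset_union_right _ (Set.image_mono (by simp))
  | smul a x _ hx =>
    obtain ⟨F, h1, h2⟩ := hx
    exact ⟨F, h1, smul_mem _ _ h2⟩

theorem GG_mono (D : Set Om) {S S' : Set Mv} (h : S ⊆ S') : GG D S ≤ GG D S' :=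
  span_mono (Set.union_subset_union_right _ (Set.image_mono h))

theorem HH_mono {S S' : Set Mv} (h : S ⊆ S') : HH S ≤ HH S' := span_mono (Set.image_mono h)

theorem HH_fin (S : Set Mv) {x : Om} (hx : x ∈ HH S) : ∃ F : Finset Mv, ↑F ⊆ S ∧ x ∈ HH ↑F := by
  have := fin_char ∅ (fun m => m.2.1) S (x := x) (by simpa [HH] using hx)
  simpa [HH] using this

theorem ins_inv {D : Set Om} {S : Set Mv} (h : Inv D S) (a b : Om) (c : Option Om)
    (h1 : ∀ x, (x ∈ GG D S ∨ x + a ∈ GG D S) → (x ∈ HH S ∨ x + b ∈ HH S) → x = 0)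
    (h2 : ∀ m ∈ S, ∀ y, m.2.2 = some y → y + a ∉ GG D S ∧ y + b ∉ HH S)
    (h3 : ∀ y, c = some y → y ∉ GG D S ∧ y + a ∉ GG D S ∧ y ∉ HH S ∧ y + b ∉ HH S) :
    Inv D (insert (a, b, c) S) := by
  have g1 : ∀ x ∈ GG D (insert (a, b, c) S), x ∈ GG D S ∨ x + a ∈ GG D S := by
    intro x hx
    unfold GG at hx
    rw [Set.image_insert_eq, Set.union_insert] at hx
    exact mem_ins hx
  have g2 : ∀ x ∈ HH (insert (a, b, c) S), x ∈ HH S ∨ x + b ∈ HH S := by
    intro x hx
    unfold HH at hx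
    rw [Set.image_insert_eq] at hx
    exact mem_ins hx
  refine ⟨fun x hx hx' => h1 x (g1 x hx) (g2 x hx'), ?_⟩
  rintro m (rfl | hm) y hy
  · obtain ⟨k1, k2, k3, k4⟩ := h3 y hy
    exact ⟨fun h' => (g1 y h').elim k1 k2, fun h' => (g2 y h').elim k3 k4⟩
  · exact ⟨fun h' => (g1 y h').elim (h.2 m hm y hy).1 (h2 m hm y hy).1,
      fun h' => (g2 y h').elim (h.2 m hm y hy).2 (h2 m hm y hy).2⟩

theorem core (D : Set Om) (hD : D.Countable) {T : Type} (hT : #T ≤ 𝔠) (Γ : T → Set (Om × Om))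
    (E : T → Set Om) : ∃ G H : Submodule (ZMod 2) Om, D ⊆ G ∧ ∀ t,
      ((∀ W : Submodule (ZMod 2) Om, #W < 𝔠 → D ⊆ W → ∃ x ∉ W, ∃ y ≠ x, (x, y) ∈ Γ t) →
        ∃ x y, (x, y) ∈ Γ t ∧ ¬ ((x ∈ G ∨ x ∈ H) ↔ (y ∈ G ∨ y ∈ H))) ∧
      ((∀ W : Submodule (ZMod 2) Om, #W < 𝔠 → D ⊆ W → ∃ x ∉ W, x ∈ E t) → ∃ x ∈ G, x ∈ E t) := by
  classical
  obtain ⟨S, hS, hR⟩ := recur (T := T × Bool) (X := Mv)
    (by
      rw [mk_prod, lift_id, lift_id]
      exact (mul_le_mul' hT (mk_le_aleph0.trans aleph0_le_continuum)).trans continuum_mul_self.le)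
    (Inv D) (fun t m => if t.2 then
      ((∀ W : Submodule (ZMod 2) Om, #W < 𝔠 → D ⊆ W → ∃ x ∉ W, ∃ y ≠ x, (x, y) ∈ Γ t.1) →
        ∃ x y, (x, y) ∈ Γ t.1 ∧ (((x = m.1 ∨ x = m.2.1) ∧ m.2.2 = some y) ∨
          ((y = m.1 ∨ y = m.2.1) ∧ m.2.2 = some x)))
      else ((∀ W : Submodule (ZMod 2) Om, #W < 𝔠 → D ⊆ W → ∃ x ∉ W, x ∈ E t.1) → m.1 ∈ E t.1))
    ⟨fun x _ hx => by simpa [HH] using hx, by simp⟩
    (fun S S' h h' => ⟨fun x h1 h2 => h'.1 x (GG_mono D h h1) (HH_mono h h2),
      fun m hm y hy => ⟨fun k => (h'.2 m (h hm) y hy).1 (GG_mono D h k),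
        fun k => (h'.2 m (h hm) y hy).2 (HH_mono h k)⟩⟩)
    (fun S h => ⟨fun x h1 h2 => by
        obtain ⟨F, k1, k2⟩ := fin_char D _ S h1
        obtain ⟨F', k3, k4⟩ := HH_fin S h2
        exact (h (F ∪ F') (by simp [k1, k3])).1 x (GG_mono D (by simp) k2) (HH_mono (by simp) k4),
      fun m hm y hy => ⟨fun h1 => by
        obtain ⟨F, k1, k2⟩ := fin_char D _ S h1
        exact ((h (insert m F) (by simp [Set.insert_subset_iff, k1, hm])).2 m (by simp) y hy).1
          (GG_mono D (by simp) k2), fun h1 => by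
        obtain ⟨F, k1, k2⟩ := HH_fin S h1
        exact ((h (insert m F) (by simp [Set.insert_subset_iff, k1, hm])).2 m (by simp) y hy).2
          (HH_mono (by simp) k2)⟩⟩)
    (by
      intro S hS hI t
      let W : Submodule (ZMod 2) Om := span (ZMod 2) (((D ∪ (fun m => m.1) '' S) ∪
        (fun m => m.2.1) '' S) ∪ (fun m => m.2.2.getD 0) '' S)
      have hW : #W < 𝔠 := by
        apply mk_span_lt
        have a : ∀ f : Mv → Om, #(f '' S) < 𝔠 := fun f => mk_image_le.trans_lt hS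
        have b : ∀ s t : Set Om, #s < 𝔠 → #t < 𝔠 → #(s ∪ t : Set Om) < 𝔠 := fun s t h1 h2 =>
          (mk_union_le _ _).trans_lt (add_lt_of_lt aleph0_le_continuum h1 h2)
        exact b _ _ (b _ _ (b _ _ (hD.le_aleph0.trans_lt aleph0_lt_continuum) (a _)) (a _)) (a _)
      have w0 : D ⊆ W := fun x hx => subset_span (Or.inl (Or.inl (Or.inl hx)))
      have w1 : GG D S ≤ W := span_mono fun x hx => Or.inl (Or.inl hx)
      have w2 : HH S ≤ W := span_mono fun x hx => Or.inl (Or.inr hx)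
      have w3 : ∀ m ∈ S, ∀ y, m.2.2 = some y → y ∈ W := fun m hm y hy =>
        subset_span (Or.inr ⟨m, hm, by simp [hy]⟩)
      have w4 : ∀ x ∉ W, ∀ z ∈ W, z + x ∉ W := fun x hx z hz h => hx (by simpa using sub_mem h hz)
      have triv : Inv D (insert ((0 : Om), (0 : Om), (none : Option Om)) S) :=
        ins_inv hI 0 0 none (fun x h1 h2 => hI.1 x (by simpa using h1) (by simpa using h2))
          (fun m hm y hy => by simpa using hI.2 m hm y hy) (by simp)
      have addG : ∀ x ∉ W, ∀ c : Option Om, (∀ y, c = some y →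
          y ∉ GG D S ∧ y + x ∉ GG D S ∧ y ∉ HH S) → Inv D (insert (x, (0 : Om), c) S) := by
        intro x hx c hc
        refine ins_inv hI x 0 c (fun z h1 h2 => ?_) (fun m hm y hy => ⟨fun k =>
          w4 x hx y (w3 m hm y hy) (w1 k), by simpa using (hI.2 m hm y hy).2⟩)
          (fun y hy => by simpa using hc y hy)
        have h2' : z ∈ HH S := by simpa using h2
        rcases h1 with h1 | h1
        · exact hI.1 z h1 h2'
        · exact absurd (w1 h1) (w4 x hx z (w2 h2'))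
      obtain ⟨t, b⟩ := t
      cases b
      · by_cases h : ∀ W : Submodule (ZMod 2) Om, #W < 𝔠 → D ⊆ W → ∃ x ∉ W, x ∈ E t
        · obtain ⟨x, hx, hE⟩ := h W hW w0
          exact ⟨(x, 0, none), by simp [hE], addG x hx none (by simp)⟩
        · exact ⟨(0, 0, none), by simp only [Bool.false_eq_true, if_false]; exact fun k => absurd k h,
            triv⟩
      · by_cases h : ∀ W : Submodule (ZMod 2) Om, #W < 𝔠 → D ⊆ W → ∃ x ∉ W, ∃ y ≠ x, (x, y) ∈ Γ t
        · obtain ⟨x, hx, y, hyx, hΓ⟩ := h W hW w0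
          simp only [if_true]
          by_cases y1 : y ∈ GG D S
          · refine ⟨(y, 0, some x), fun _ => ⟨x, y, hΓ, Or.inr ⟨Or.inl rfl, rfl⟩⟩, ?_⟩
            have e : ∀ z, z + y ∈ GG D S ↔ z ∈ GG D S := fun z => Submodule.add_mem_iff_left _ y1
            refine ins_inv hI y 0 _ (fun z h1 h2 => hI.1 z (by simpa [e] using h1)
              (by simpa using h2)) (fun m hm y hy => by simpa [e] using hI.2 m hm y hy) ?_
            rintro _ ⟨rfl⟩
            simpa [e] using And.intro (fun k => hx (w1 k)) (fun k => hx (w2 k))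
          by_cases y2 : y ∈ HH S
          · refine ⟨(0, y, some x), fun _ => ⟨x, y, hΓ, Or.inr ⟨Or.inr rfl, rfl⟩⟩, ?_⟩
            have e : ∀ z, z + y ∈ HH S ↔ z ∈ HH S := fun z => Submodule.add_mem_iff_left _ y2
            refine ins_inv hI 0 y _ (fun z h1 h2 => hI.1 z (by simpa using h1)
              (by simpa [e] using h2)) (fun m hm y hy => by simpa [e] using hI.2 m hm y hy) ?_
            rintro _ ⟨rfl⟩
            simpa [e] using And.intro (fun k => hx (w1 k)) (fun k => hx (w2 k))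
          by_cases y3 : y + x ∈ GG D S
          · have y4 : y + x ∉ HH S := fun k => hyx (by
              have := hI.1 _ y3 k
              rw [← add_zero y, ← add_self x, ← add_assoc, this, zero_add])
            refine ⟨(0, x, some y), fun _ => ⟨x, y, hΓ, Or.inl ⟨Or.inr rfl, rfl⟩⟩, ?_⟩
            refine ins_inv hI 0 x _ (fun z h1 h2 => ?_) (fun m hm y hy =>
              ⟨by simpa using (hI.2 m hm y hy).1, fun k => w4 x hx y (w3 m hm y hy) (w2 k)⟩) ?_
            · have h1' : z ∈ GG D S := by simpa using h1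
              rcases h2 with h2 | h2
              · exact hI.1 z h1' h2
              · exact absurd (w2 h2) (w4 x hx z (w1 h1'))
            · rintro _ ⟨rfl⟩
              simpa using And.intro y1 (And.intro y2 y4)
          · refine ⟨(x, 0, some y), fun _ => ⟨x, y, hΓ, Or.inl ⟨Or.inl rfl, rfl⟩⟩, addG x hx _ ?_⟩
            rintro _ ⟨rfl⟩
            exact ⟨y1, y3, y2⟩
        · exact ⟨(0, 0, none), by simp only [if_true]; exact fun k => absurd k h, triv⟩)
  refine ⟨GG D S, HH S, fun x hx => subset_span (Or.inl hx), fun t => ⟨fun h => ?_, fun h => ?_⟩⟩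
  · obtain ⟨m, hm, k⟩ := hR (t, true)
    simp only [if_true] at k
    obtain ⟨x, y, hΓ, k⟩ := k h
    have i1 : m.1 ∈ GG D S := subset_span (Or.inr ⟨m, hm, rfl⟩)
    have i2 : m.2.1 ∈ HH S := subset_span ⟨m, hm, rfl⟩
    refine ⟨x, y, hΓ, fun e => ?_⟩
    rcases k with ⟨k1, k2⟩ | ⟨k1, k2⟩
    · have := hS.2 m hm y k2
      exact (e.1 (k1.imp (fun q => by rw [q]; exact i1) (fun q => by rw [q]; exact i2))).elim this.1 this.2
    · have := hS.2 m hm x k2
      exact (e.2 (k1.imp (fun q => by rw [q]; exact i1) (fun q => by rw [q]; exact i2))).elim this.1 this.2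
  · obtain ⟨m, hm, k⟩ := hR (t, false)
    simp only [Bool.false_eq_true, if_false] at k
    exact ⟨m.1, subset_span (Or.inr ⟨m, hm, rfl⟩), k h⟩

theorem small_ne {W : Submodule (ZMod 2) Om} (hW : #W < 𝔠) : ¬ ∀ z, z ∈ W := fun h => by
  have : W = ⊤ := eq_top_iff'.2 h
  subst this
  rw [mk_congr (Submodule.topEquiv (R := ZMod 2) (M := Om)).toEquiv, mk_Om] at hW
  exact lt_irrefl _ hW

theorem main : ∃ G H : Submodule (ZMod 2) Om, Dense (G : Set Om) ∧
    (∀ Z : Set Om, Z ⊆ ↑G ∪ ↑H → closure Z ∩ (↑G ∪ ↑H) ⊆ Z → ∀ U : Set Om, IsOpen U →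
      U ∩ (↑G ∪ ↑H) ⊆ Z → ∀ h : Z ≃ₜ Z, ∀ x : Z, x.1 ∈ U → h x = x) ∧
    ∀ C : ℕ → Set Om, (∀ n, IsClosed (C n)) → (↑G : Set Om) ⊆ ⋃ n, C n →
      ∃ n, (interior (C n)).Nonempty := by
  obtain ⟨D, hDc, hD⟩ := TopologicalSpace.exists_countable_dense Om
  obtain ⟨Γ, -, hΓ⟩ := closed_enum (Om × Om)
  obtain ⟨K, -, hK⟩ := closed_enum Om
  obtain ⟨G, H, h0, h1⟩ := core D hDc (T := ℕ → Set ℕ) (by simp) (fun t => Γ (t 0))
    (fun t => (⋃ n, K (t n))ᶜ)
  have hG : Dense (G : Set Om) := hD.mono h0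
  refine ⟨G, H, hG, fun Z z1 z2 U hU z3 h x0 hx0 => ?_, fun C hC hGC => ?_⟩
  · by_contra hne
    obtain ⟨n, hn⟩ : ∃ n, (h x0).1 n ≠ x0.1 n := by
      by_contra hh
      push Not at hh
      exact hne (Subtype.ext (funext hh))
    let g : Z → Om × Om := fun x => (x.1, (h x).1)
    obtain ⟨t, ht⟩ := hΓ (closure (Set.range g)) isClosed_closure
    obtain ⟨x, y, hxy, hn'⟩ := (h1 fun _ => t).1 (by
      intro W hW hDW
      have ho : IsOpen {x : Z | (h x).1 n = (h x0).1 n} :=
        (isOpen_discrete {(h x0).1 n}).preimage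
          ((continuous_apply n).comp (continuous_subtype_val.comp h.continuous))
      obtain ⟨V, hV, hVe⟩ := isOpen_induced_iff.1 ho
      let O : Set Om := U ∩ V ∩ {x | x n = x0.1 n}
      have hO : IsOpen O := (hU.inter hV).inter
        ((isOpen_discrete {x0.1 n}).preimage (continuous_apply (A := fun _ => ZMod 2) n))
      have hx0O : x0.1 ∈ O := ⟨⟨hx0, by
        have : x0 ∈ Subtype.val ⁻¹' V := by rw [hVe]; rfl
        exact this⟩, rfl⟩
      obtain ⟨x, hxO, hxW⟩ : ∃ x ∈ O, x ∉ W := by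
        by_contra hh
        push Not at hh
        apply small_ne hW
        intro z
        obtain ⟨d, hd1, hd2⟩ := hD.inter_open_nonempty ((fun u => u + z) ⁻¹' O)
          (hO.preimage (continuous_add_const z)) ⟨x0.1 - z, by simpa using hx0O⟩
        simpa using sub_mem (hh _ hd1) (hDW hd2)
      have hcl : IsClosed (Prod.fst '' (closure (Set.range g) ∩ {p | p.2 n = (h x0).1 n})) :=
        isClosedMap_fst_of_compactSpace _ (isClosed_closure.inter
          ((isClosed_discrete {(h x0).1 n}).preimage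
            ((continuous_apply (A := fun _ => ZMod 2) n).comp continuous_snd)))
      have hsub : O ∩ ↑G ⊆ Prod.fst '' (closure (Set.range g) ∩ {p | p.2 n = (h x0).1 n}) := by
        rintro u ⟨u1, u2⟩
        have uZ : u ∈ Z := z3 ⟨u1.1.1, Or.inl u2⟩
        refine ⟨g ⟨u, uZ⟩, ⟨subset_closure ⟨_, rfl⟩, ?_⟩, rfl⟩
        have : (⟨u, uZ⟩ : Z) ∈ Subtype.val ⁻¹' V := u1.1.2
        rw [hVe] at this
        exact this
      obtain ⟨⟨x', y⟩, ⟨p1, p2⟩, rfl⟩ := closure_minimal hsub hcl (hG.open_subset_closure_inter hO hxO)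
      refine ⟨x', hxW, y, fun e => hn ?_, by rw [ht]; exact p1⟩
      subst e
      exact p2.symm.trans hxO.2)
    apply hn'
    rw [ht, mem_closure_iff_seq_limit] at hxy
    obtain ⟨p, hp, hl⟩ := hxy
    choose u hu using hp
    have l1 : Tendsto (fun k => (u k).1) atTop (𝓝 x) :=
      ((continuous_fst.tendsto _).comp hl).congr fun k => by simp [← hu k, g]
    have l2 : Tendsto (fun k => (h (u k)).1) atTop (𝓝 y) :=
      ((continuous_snd.tendsto _).comp hl).congr fun k => by simp [← hu k, g]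
    constructor
    · intro hx
      have xZ : x ∈ Z := z2 ⟨mem_closure_of_tendsto l1 (Eventually.of_forall fun k => (u k).2), hx⟩
      have a := (continuous_subtype_val.tendsto _).comp
        ((h.continuous.tendsto ⟨x, xZ⟩).comp (tendsto_subtype_rng.2 l1))
      exact tendsto_nhds_unique l2 a ▸ z1 (h _).2
    · intro hy
      have yZ : y ∈ Z :=
        z2 ⟨mem_closure_of_tendsto l2 (Eventually.of_forall fun k => (h (u k)).2), hy⟩
      have a := (continuous_subtype_val.tendsto _).comp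
        ((h.symm.continuous.tendsto ⟨y, yZ⟩).comp (tendsto_subtype_rng.2 l2))
      exact tendsto_nhds_unique l1 (a.congr fun k => by simp) ▸ z1 (h.symm _).2
  · by_contra hh
    push Not at hh
    choose t ht using fun n => hK (C n) (hC n)
    obtain ⟨x, hx, hx'⟩ := (h1 t).2 (by
      intro W hW _
      by_contra hk
      push Not at hk
      apply small_ne hW
      intro z
      have d1 : ∀ n, Dense (C n)ᶜ := fun n => interior_eq_empty_iff_dense_compl.1 (hh n)
      obtain ⟨u, hu⟩ := (dense_iInter_of_isOpen_nat (f := fun n => (C n)ᶜ ∩ (fun u => u + z) ⁻¹' (C n)ᶜ)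
        (fun n => (hC n).isOpen_compl.inter ((hC n).isOpen_compl.preimage (continuous_add_const z)))
        (fun n => (d1 n).inter_of_isOpen_left ((d1 n).preimage (Homeomorph.addRight z).isOpenMap)
          (hC n).isOpen_compl)).nonempty
      rw [Set.mem_iInter] at hu
      have a : ∀ v, (∀ n, v ∉ C n) → v ∈ W := fun v hv => by
        by_contra hv'
        exact hk v hv' (by simpa [ht] using hv)
      simpa using sub_mem (a _ fun n => (hu n).2) (a _ fun n => (hu n).1))
    exact hx' (by simpa [ht] using hGC hx)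

theorem homog (G : Submodule (ZMod 2) Om) (x y : (G : Set Om)) :
    ∃ h : (G : Set Om) ≃ₜ (G : Set Om), h x = y :=
  ⟨Homeomorph.addRight (G := G) (y - x : G), by
    show (x : G) + ((y : G) - (x : G)) = y
    abel⟩

theorem zero_dim (X : Set Om) : TopologicalSpace.IsTopologicalBasis {s : Set X | IsClopen s} := by
  refine (isTopologicalBasis_isClopen (X := Om)).isInducing IsInducing.subtypeVal |>.of_isOpen_of_subset
    (fun s hs => hs.2) ?_
  rintro _ ⟨s, hs, rfl⟩
  exact IsClopen.preimage hs continuous_subtype_val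

end Pool.Agent.Lib.helper19.Rigid
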