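import Pool.Agent.Lib.helper19.TwoUltra

set_option autoImplicit false

namespace Pool.Agent.Lib.helper19.StatFilter

open Filter Set Pool.Agent.Lib.helper19.TwoUltra

/-- every family of grill members with pairwise intersections in the ideal is countable -/
def Poor (F : Filter ℕ) : Prop :=
  ∀ 𝒜 : Set (Set ℕ), (∀ A ∈ 𝒜, Aᶜ ∉ F) → 𝒜.Pairwise (fun A B => (A ∩ B)ᶜ ∈ F) → 𝒜.Countable

def Conglomerated (F : Filter ℕ) : Prop :=
  ∃ D : ℕ → Set ℕ, Pairwise (fun m n => Disjoint (D m) (D n)) ∧ (∀ n, (D n)ᶜ ∈ F) ∧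
    ∀ M : Set ℕ, M.Infinite → (⋃ n ∈ M, D n)ᶜ ∉ F

def StatMeasure (μ : Set ℕ → ℝ) : Prop :=
  (∀ A, 0 ≤ μ A) ∧ (∀ A B, Disjoint A B → μ (A ∪ B) = μ A + μ B) ∧ μ univ = 1 ∧ ∀ k, μ {k} = 0

def Adm (F : Finset (ℕ → ℕ)) : Prop := ∀ n, (F.image (· n)).card ≤ n + 1

lemma Adm.mono {F G : Finset (ℕ → ℕ)} (h : Adm G) (hFG : F ⊆ G) : Adm F := fun n =>
  (Finset.card_le_card (Finset.image_subset_image hFG)).trans (h n)

lemma sum_le {μ : Set ℕ → ℝ} (h0 : ∀ A, 0 ≤ μ A)
    (hadd : ∀ A B, Disjoint A B → μ (A ∪ B) = μ A + μ B) {T : Type} [DecidableEq T]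
    (X : T → Set ℕ) (G : Finset T) : ∀ (r : ℕ) (Y : Set ℕ),
      (∀ H ⊆ G, H.card = r + 1 → μ (Y ∩ {x | ∀ t ∈ H, x ∈ X t}) = 0) →
      ∑ t ∈ G, μ (Y ∩ X t) ≤ r * μ Y := by
  have split : ∀ A B, μ A = μ (A ∩ B) + μ (A \ B) := fun A B => by
    rw [← hadd _ _ (disjoint_sdiff_inter.symm), inter_union_sdiff]
  have mono : ∀ A B, A ⊆ B → μ A ≤ μ B := fun A B h => by
    rw [split B A, inter_eq_self_of_subset_right h]; linarith [h0 (B \ A)]
  induction G using Finset.induction_on with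
  | empty => intro r Y _; simpa using mul_nonneg (Nat.cast_nonneg r) (h0 Y)
  | insert s G hs ih =>
    intro r Y hY
    rw [Finset.sum_insert hs]
    have e : ∀ t, μ (Y ∩ X t) = μ ((Y ∩ X s) ∩ X t) + μ ((Y \ X s) ∩ X t) := fun t => by
      rw [split (Y ∩ X t) (X s)]
      congr 2 <;> ext x <;> simp <;> tauto
    have b := ih r (Y \ X s) (fun H hH hc => le_antisymm
      ((mono _ _ (inter_subset_inter_left _ sdiff_subset)).trans
        (hY H (hH.trans (Finset.subset_insert _ _)) hc).le) (h0 _))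
    rw [Finset.sum_congr rfl (fun t _ => e t), Finset.sum_add_distrib, split Y (X s)]
    cases r with
    | zero =>
      have c : μ (Y ∩ X s) = 0 := by simpa using hY {s} (by simp) (by simp)
      have d : ∑ t ∈ G, μ (Y ∩ X s ∩ X t) ≤ 0 := Finset.sum_nonpos fun t _ =>
        (mono _ _ inter_subset_left).trans c.le
      simp only [Nat.cast_zero, zero_mul] at b ⊢
      linarith
    | succ r =>
      have a := ih r (Y ∩ X s) (fun H hH hc => by
        have hsH : s ∉ H := fun h => hs (hH h)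
        rw [← hY (insert s H) (Finset.insert_subset_insert _ hH)
          (by rw [Finset.card_insert_of_notMem hsH, hc])]
        congr 1; ext x; simp [and_assoc])
      push_cast at b ⊢
      linarith

theorem exists_poor : ∃ F : Filter ℕ, F.NeBot ∧ F ≤ cofinite ∧ Poor F ∧
    ∀ μ, StatMeasure μ → ¬ ∀ A, A ∈ F ↔ μ A = 1 := by
  classical
  obtain ⟨A, hA⟩ := exists_indep
  let e : (ℕ → ℕ) → Set ℕ := fun t => range fun n => Nat.pair n (t n)
  have he : Function.Injective e := by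
    intro s t h
    funext n
    have : Nat.pair n (s n) ∈ e t := h ▸ ⟨n, rfl⟩
    obtain ⟨m, hm⟩ := this
    obtain ⟨rfl, h2⟩ := Nat.pair_eq_pair.1 hm
    exact h2.symm
  let X : Finset (ℕ → ℕ) → Set ℕ := fun F => {x | ∀ t ∈ F, x ∈ A (e t)}
  let S : Set (Set (Set ℕ)) := {I | (∀ B ∈ I, ∀ C ⊆ B, C ∈ I) ∧ (∀ B ∈ I, ∀ C ∈ I, B ∪ C ∈ I) ∧
    ∀ F, Adm F → X F ∉ I}
  let I0 : Set (Set ℕ) := {B | ∃ s : Finset (Finset (ℕ → ℕ)), (∀ F ∈ s, ¬ Adm F) ∧
    (B \ ⋃ F ∈ s, X F).Finite}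
  have hI0 : I0 ∈ S := by
    refine ⟨fun B ⟨s, h1, h2⟩ C hC => ⟨s, h1, h2.subset (sdiff_subset_sdiff_left hC)⟩,
      fun B ⟨s, h1, h2⟩ C ⟨s', h1', h2'⟩ => ⟨s ∪ s', fun F hF =>
        (Finset.mem_union.1 hF).elim (h1 F) (h1' F), (h2.union h2').subset ?_⟩, ?_⟩
    · intro x hx
      simp only [Finset.set_biUnion_union, Set.mem_sdiff, mem_union, not_or] at hx ⊢
      tauto
    · rintro F hF ⟨s, h1, h2⟩
      have : ∀ G : Finset (ℕ → ℕ), ∃ t, G ∈ s → t ∈ G ∧ t ∉ F := by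
        intro G
        by_cases hG : G ∈ s
        · obtain ⟨t, h⟩ := Finset.not_subset.1 (fun h => h1 G hG (hF.mono h))
          exact ⟨t, fun _ => h⟩
        · exact ⟨0, fun h => absurd h hG⟩
      choose c hc using this
      refine hA ((F ∪ s.image c).image e) (fun i => decide (i ∈ F.image e)) (h2.subset ?_)
      intro x hx
      refine ⟨fun t ht => (hx _ (Finset.mem_image_of_mem _ (Finset.mem_union_left _ ht))).2
        (decide_eq_true (Finset.mem_image_of_mem _ ht)), ?_⟩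
      simp only [mem_iUnion, not_exists]
      intro G hG hxG
      have := (hx _ (Finset.mem_image_of_mem _ (Finset.mem_union_right _
        (Finset.mem_image_of_mem _ hG)))).1 (hxG _ (hc G hG).1)
      obtain ⟨t, ht, h⟩ := Finset.mem_image.1 (of_decide_eq_true this)
      exact (hc G hG).2 (he h ▸ ht)
  obtain ⟨I, hI0I, hI⟩ := zorn_subset_nonempty S (by
    intro c hc hch _
    refine ⟨⋃₀ c, ⟨fun B ⟨J, hJ, hB⟩ C hC => ⟨J, hJ, (hc hJ).1 B hB C hC⟩,
      fun B ⟨J, hJ, hB⟩ C ⟨J', hJ', hC⟩ => ?_, fun F hF ⟨J, hJ, h⟩ => (hc hJ).2.2 F hF h⟩,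
      fun s hs => subset_sUnion_of_mem hs⟩
    rcases hch.total hJ hJ' with h | h
    · exact ⟨J', hJ', (hc hJ').2.1 B (h hB) C hC⟩
    · exact ⟨J, hJ, (hc hJ).2.1 B hB C (h hC)⟩) I0 hI0
  obtain ⟨i1, i2, i3⟩ := hI.prop
  have ifin : ∀ B : Set ℕ, B.Finite → B ∈ I := fun B hB => hI0I ⟨∅, by simp, by simpa using hB⟩
  have ibad : ∀ F, ¬ Adm F → X F ∈ I := fun F hF => hI0I ⟨{F}, by simpa using hF, by simp⟩
  have dense : ∀ B, B ∉ I → ∃ F, Adm F ∧ ∃ J ∈ I, X F ⊆ B ∪ J := by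
    intro B hB
    by_contra hcon
    push Not at hcon
    apply hB
    have : {C | ∃ J ∈ I, C ⊆ B ∪ J} ∈ S :=
      ⟨fun C ⟨J, hJ, h⟩ C' hC' => ⟨J, hJ, hC'.trans h⟩,
        fun C ⟨J, hJ, h⟩ C' ⟨J', hJ', h'⟩ => ⟨J ∪ J', i2 J hJ J' hJ', union_subset
          (h.trans (union_subset_union_right _ subset_union_left))
          (h'.trans (union_subset_union_right _ subset_union_right))⟩,
        fun F hF ⟨J, hJ, h⟩ => hcon F hF J hJ h⟩
    exact hI.le_of_ge this (fun C hC => ⟨C, hC, subset_union_right⟩)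
      ⟨∅, ifin _ finite_empty, by simp⟩
  let Φ : Filter ℕ :=
    { sets := {B | Bᶜ ∈ I}
      univ_sets := by simpa using ifin _ finite_empty
      sets_of_superset := fun h h' => i1 _ h _ (compl_subset_compl.2 h')
      inter_sets := fun h h' => by
        simpa [compl_inter] using i2 _ h _ h' }
  have hΦ : ∀ B, Bᶜ ∈ Φ ↔ B ∈ I := fun B => by
    show Bᶜᶜ ∈ I ↔ _
    rw [compl_compl]
  refine ⟨Φ, ⟨fun h => ?_⟩, fun B hB => ifin _ hB, ?_, ?_⟩
  · refine i3 ∅ (fun n => by simp) ((hΦ _).1 ?_)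
    rw [h]; trivial
  · intro 𝒜 h1 h2
    simp only [hΦ] at h1 h2
    have : ∀ B, ∃ F, B ∈ 𝒜 → Adm F ∧ ∃ J ∈ I, X F ⊆ B ∪ J := fun B => by
      by_cases h : B ∈ 𝒜
      · obtain ⟨F, hF⟩ := dense B (h1 B h); exact ⟨F, fun _ => hF⟩
      · exact ⟨∅, fun h' => absurd h' h⟩
    choose f hf using this
    refine countable_of_injective_of_countable_image (f := fun B => ((f B).card,
      (List.range (2 * (f B).card)).map fun n => (f B).image (· n))) ?_ (to_countable _)
    intro B hB C hC h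
    by_contra hne
    simp only [Prod.mk.injEq] at h
    obtain ⟨h3, h4⟩ := h
    rw [h3, List.map_inj_left] at h4
    obtain ⟨a1, J, hJ, a2⟩ := hf B hB
    obtain ⟨b1, J', hJ', b2⟩ := hf C hC
    refine i3 (f B ∪ f C) (fun n => ?_) (i1 _ (i2 _ (h2 hB hC hne) _ (i2 _ hJ _ hJ')) _ ?_)
    · by_cases hn : n < 2 * (f C).card
      · rw [Finset.image_union, h4 n (List.mem_range.2 hn), Finset.union_self]; exact b1 n
      · have := Finset.card_union_le (f B) (f C)
        have := Finset.card_image_le (s := f B ∪ f C) (f := (· n))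
        omega
    · intro x hx
      have c1 := a2 (fun t ht => hx t (Finset.mem_union_left _ ht))
      have c2 := b2 (fun t ht => hx t (Finset.mem_union_right _ ht))
      simp only [mem_union, mem_inter_iff] at c1 c2 ⊢
      tauto
  · rintro μ ⟨m0, madd, m1, -⟩ hμ
    have hz : ∀ B, B ∈ I ↔ μ B = 0 := fun B => by
      have := madd B Bᶜ disjoint_compl_right
      rw [union_compl_self, m1] at this
      rw [← hΦ, hμ]; constructor <;> intro <;> linarith
    have hfin : ∀ k : ℕ, ((fun t : ℕ → ℕ => t k) '' {t | 1 / ((k : ℝ) + 1) < μ (A (e t))}).Finite := by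
      intro k
      by_contra hinf
      obtain ⟨V, hV, hc⟩ := Set.Infinite.exists_subset_card_eq hinf ((k + 1) * (k + 1) + 1)
      obtain ⟨G, hG1, hG2, hG3⟩ := Finset.exists_subset_injOn_image_eq_of_surjOn
        {t : ℕ → ℕ | 1 / ((k : ℝ) + 1) < μ (A (e t))} V (f := fun t : ℕ → ℕ => t k) hV
      have hc' : G.card = (k + 1) * (k + 1) + 1 := by
        rw [← hc, ← hG3, Finset.card_image_of_injOn hG2]
      have := sum_le m0 madd (fun t => A (e t)) G (k + 1) univ (fun H hH hH' => by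
        rw [univ_inter]
        refine (hz _).1 (ibad H fun h => ?_)
        have := h k
        rw [Finset.card_image_of_injOn (hG2.mono (Finset.coe_subset.2 hH))] at this
        omega)
      simp only [univ_inter, m1, mul_one] at this
      have h2 := Finset.card_nsmul_le_sum G (fun t => μ (A (e t))) (1 / ((k : ℝ) + 1))
        (fun t ht => le_of_lt (hG1 ht))
      rw [hc', nsmul_eq_mul] at h2
      have h3 := h2.trans this
      have hk : (0 : ℝ) < k + 1 := by positivity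
      rw [mul_one_div, div_le_iff₀ hk] at h3
      push_cast at h3
      linarith
    choose t ht using fun k => (hfin k).exists_notMem
    have hpos : 0 < μ (A (e t)) := by
      refine lt_of_le_of_ne (m0 _) fun h => i3 {t} (fun n => by simp) ?_
      have : X {t} = A (e t) := by ext x; simp [X]
      rw [this, hz]; exact h.symm
    obtain ⟨k, hk⟩ := exists_nat_one_div_lt hpos
    exact ht k ⟨t, hk, rfl⟩

/-- an almost disjoint family indexed by all subsets of `ℕ` -/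
theorem exists_ad : ∃ M : Set ℕ → Set ℕ, (∀ X, (M X).Infinite) ∧
    ∀ X Y, X ≠ Y → (M X ∩ M Y).Finite := by
  classical
  let c : Set ℕ → ℕ → ℕ := fun X n =>
    Nat.pair n (Encodable.encode ((Finset.range n).filter (· ∈ X)))
  refine ⟨fun X => range (c X), fun X => infinite_range_of_injective fun m n h =>
    (Nat.pair_eq_pair.1 h).1, fun X Y hXY => ?_⟩
  obtain ⟨k, hk⟩ : ∃ k, ¬ (k ∈ X ↔ k ∈ Y) := not_forall.1 fun h => hXY (Set.ext h)
  refine ((finite_le_nat k).image (c X)).subset ?_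
  rintro _ ⟨⟨n, rfl⟩, m, hm⟩
  obtain ⟨rfl, h⟩ := Nat.pair_eq_pair.1 hm
  refine ⟨m, ?_, rfl⟩
  by_contra hlt
  have := Finset.ext_iff.1 (Encodable.encode_injective h) k
  simp only [mem_ofPred_eq, not_le] at hlt
  simp [hlt] at this
  exact hk this.symm

lemma inter_small {F : Filter ℕ} {D : ℕ → Set ℕ} (h1 : Pairwise (fun m n => Disjoint (D m) (D n)))
    (h2 : ∀ n, (D n)ᶜ ∈ F) {M N : Set ℕ} (h : (M ∩ N).Finite) :
    ((⋃ n ∈ M, D n) ∩ ⋃ n ∈ N, D n)ᶜ ∈ F := by
  refine mem_of_superset ((biInter_mem h).2 fun n _ => h2 n) ?_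
  intro x hx ⟨ha, hb⟩
  obtain ⟨m, hm, hxm⟩ := mem_iUnion₂.1 ha
  obtain ⟨n, hn, hxn⟩ := mem_iUnion₂.1 hb
  by_cases hmn : m = n
  · subst hmn; exact mem_iInter₂.1 hx m ⟨hm, hn⟩ hxm
  · exact disjoint_left.1 (h1 hmn) hxm hxn

theorem Poor.not_congl {F : Filter ℕ} (h : Poor F) : ¬ Conglomerated F := by
  rintro ⟨D, h1, h2, h3⟩
  obtain ⟨M, hM1, hM2⟩ := exists_ad
  have hinj : Function.Injective fun X => ⋃ n ∈ M X, D n := by
    intro X Y hXY
    by_contra hne
    have := inter_small h1 h2 (hM2 X Y hne)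
    simp only at hXY
    rw [hXY, inter_self] at this
    exact h3 _ (hM1 Y) this
  have := h (range fun X => ⋃ n ∈ M X, D n) (by rintro _ ⟨X, rfl⟩; exact h3 _ (hM1 X))
    (by
      rintro _ ⟨X, rfl⟩ _ ⟨Y, rfl⟩ hne
      exact inter_small h1 h2 (hM2 X Y fun h => hne (by rw [h])))
  rw [← image_univ] at this
  have h4 := countable_of_injective_of_countable_image hinj.injOn this
  rw [countable_univ_iff, ← Cardinal.mk_le_aleph0_iff] at h4
  simp at h4
  exact absurd h4 (not_le.2 Cardinal.aleph0_lt_continuum)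

end Pool.Agent.Lib.helper19.StatFilter
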