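import Mathlib

set_option autoImplicit false

namespace Pool.Agent.H19Ten

open Finset

/-- The multilinear form of a `d`-dimensional tensor with index set `ι`. -/
def form {F : Type} [Field F] {d : ℕ} {ι : Type} [Fintype ι] [DecidableEq ι]
    (A : (Fin d → ι) → F) (X : Fin d → ι → F) : F :=
  ∑ I : Fin d → ι, A I * ∏ j, X j (I j)

/-- The form of `A` is a sum of `r` products `g * h` split along nontrivial partitions. -/
def HasPR {F : Type} [Field F] {d : ℕ} {ι : Type} [Fintype ι] [DecidableEq ι]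
    (A : (Fin d → ι) → F) (r : ℕ) : Prop :=
  ∃ (S : Fin r → Set (Fin d)) (g h : Fin r → (Fin d → ι → F) → F),
    (∀ j, S j ≠ ∅ ∧ S j ≠ Set.univ ∧ DependsOn (g j) (S j) ∧ DependsOn (h j) (S j)ᶜ) ∧
    ∀ X, form A X = ∑ j, g j X * h j X

/-- Partition rank. -/
noncomputable def prank {F : Type} [Field F] {d : ℕ} {ι : Type} [Fintype ι] [DecidableEq ι]
    (A : (Fin d → ι) → F) : ℕ :=
  sInf {r | HasPR A r}

/-- Bias: the mean of `ω ^ f(X)` with `ω = exp (2πi/p)`. -/
noncomputable def bias {p : ℕ} [Fact p.Prime] {d : ℕ} {ι : Type} [Fintype ι] [DecidableEq ι]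
    (A : (Fin d → ι) → ZMod p) : ℂ :=
  (∑ X : Fin d → ι → ZMod p, Complex.exp (2 * Real.pi * Complex.I / p) ^ (form A X).val) /
    Fintype.card (Fin d → ι → ZMod p)

/-- Analytic rank. -/
noncomputable def arank {p : ℕ} [Fact p.Prime] {d : ℕ} {ι : Type} [Fintype ι] [DecidableEq ι]
    (A : (Fin d → ι) → ZMod p) : ℝ :=
  -Real.logb p (bias A).re

/-- Identity tensor. -/
def idT (F : Type) [Field F] (d : ℕ) (ι : Type) [DecidableEq ι] : (Fin d → ι) → F :=
  fun I => if ∀ i j, I i = I j then 1 else 0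

/-- Tensor power. -/
def tpow {F : Type} [Field F] {d : ℕ} {ι : Type} (m : ℕ) (A : (Fin d → ι) → F) :
    (Fin d → (Fin m → ι)) → F :=
  fun I => ∏ k, A (fun j => I j k)

/-- `A` contains the identity tensor on `ν` as a subtensor. -/
def Sub {F : Type} [Field F] {d : ℕ} {ι : Type} (A : (Fin d → ι) → F) (ν : Type)
    [DecidableEq ν] : Prop :=
  ∃ φ : Fin d → ν → ι, ∀ u : Fin d → ν, A (fun i => φ i (u i)) = idT F d ν u

section PR

variable {F : Type} [Field F]

lemma big_support [DecidableEq F] {ν J : Type} [Fintype ν] [DecidableEq ν] [Fintype J] (D : Finset ν)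
    (u : J → ν → F) :
    ∃ v : ν → F, (∀ j, ∑ a, v a * u j a = 0) ∧
      D.card ≤ Fintype.card J + (D.filter fun a => v a ≠ 0).card := by
  classical
  obtain ⟨P, hP⟩ : ∃ P : ℕ → Prop, ∀ s, P s ↔ ∃ v : ν → F, (∀ j, ∑ a, v a * u j a = 0) ∧
      (D.filter fun a => v a ≠ 0).card = s := ⟨_, fun _ => Iff.rfl⟩
  have h0 : P 0 := (hP 0).2 ⟨0, by simp, by simp⟩
  have hmax := Nat.findGreatest_spec (P := P) (Nat.zero_le D.card) h0
  obtain ⟨v, hv, hs⟩ := (hP _).1 hmax
  refine ⟨v, hv, ?_⟩
  by_contra hlt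
  push Not at hlt
  obtain ⟨Z, hZ⟩ : ∃ Z : Finset ν, Z = Dᶜ ∪ D.filter fun a => v a ≠ 0 := ⟨_, rfl⟩
  have hZc : Z.card ≤ (Fintype.card ν - D.card) + (D.filter fun a => v a ≠ 0).card := by
    rw [hZ, ← Finset.card_compl]; exact card_union_le _ _
  have hD : D.card ≤ Fintype.card ν := card_le_univ _
  let L : (ν → F) →ₗ[F] (J → F) × (Z → F) :=
    { toFun := fun w => (fun j => ∑ a, w a * u j a, fun z => w z)
      map_add' := fun w w' => by
        ext <;> simp [add_mul, sum_add_distrib]
      map_smul' := fun c w => by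
        ext <;> simp [mul_sum, mul_assoc] }
  have hker : LinearMap.ker L ≠ ⊥ := by
    apply LinearMap.ker_ne_bot_of_finrank_lt
    simp only [Module.finrank_prod, Module.finrank_fintype_fun_eq_card, Fintype.card_coe]
    omega
  obtain ⟨w, hw, hw0⟩ := Submodule.exists_mem_ne_zero_of_ne_bot hker
  rw [LinearMap.mem_ker] at hw
  have hw1 : ∀ j, ∑ a, w a * u j a = 0 := fun j => congrFun (congrArg Prod.fst hw) j
  have hw2 : ∀ z ∈ Z, w z = 0 := fun z hz => congrFun (congrArg Prod.snd hw) ⟨z, hz⟩
  obtain ⟨a, ha⟩ : ∃ a, w a ≠ 0 := by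
    by_contra h; push Not at h; exact hw0 (funext h)
  have haZ : a ∉ Z := fun h => ha (hw2 a h)
  have haD : a ∈ D := by
    by_contra h; exact haZ (by rw [hZ]; simp [h])
  have hva : v a = 0 := by
    by_contra h; exact haZ (by rw [hZ]; simp [h, haD])
  have hsub : insert a (D.filter fun a => v a ≠ 0) ⊆ D.filter fun b => (v + w) b ≠ 0 := by
    intro b hb
    rw [mem_insert] at hb
    rcases hb with rfl | hb
    · simp [haD, hva, ha]
    · have : w b = 0 := hw2 b (by rw [hZ]; exact mem_union_right _ hb)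
      rw [mem_filter] at hb ⊢
      exact ⟨hb.1, by simpa [this] using hb.2⟩
  have hc := card_le_card hsub
  rw [card_insert_of_notMem (by simp [hva])] at hc
  have hP' : P (D.filter fun b => (v + w) b ≠ 0).card :=
    (hP _).2 ⟨v + w, fun j => by simp [add_mul, sum_add_distrib, hv j, hw1 j], rfl⟩
  have := Nat.le_findGreatest (card_filter_le D _) hP'
  omega

lemma naslund [DecidableEq F] {ν : Type} [Fintype ν] [DecidableEq ν] (d : ℕ) :
    ∀ (J : Type) [Fintype J] (lam : ν → F) (S : J → Set (Fin (d + 1)))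
      (g h : J → (Fin (d + 1) → ν) → F),
      (∀ j, S j ≠ ∅ ∧ S j ≠ Set.univ ∧ DependsOn (g j) (S j) ∧ DependsOn (h j) (S j)ᶜ) →
      (∀ I, (if ∀ i, I i = I 0 then lam (I 0) else 0) = ∑ j, g j I * h j I) →
      (univ.filter fun a => lam a ≠ 0).card ≤ Fintype.card J := by
  classical
  induction d with
  | zero =>
    intro J _ lam S g h hS hI
    have hJ : IsEmpty J := ⟨fun j => by
      obtain ⟨h1, h2, -⟩ := hS j
      obtain ⟨x, hx⟩ := Set.nonempty_iff_ne_empty.2 h1
      exact h2 (Set.eq_univ_of_forall fun y => by rwa [Subsingleton.elim (α := Fin 1) y x])⟩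
    have : ∀ a, lam a = 0 := fun a => by simpa using hI (fun _ => a)
    simp [this]
  | succ d ih =>
    intro J _ lam S g h hS hI
    rcases isEmpty_or_nonempty ν with hν | ⟨⟨a0⟩⟩
    · simp
    -- arrange that the coordinate 0 lies in every S j
    obtain ⟨S, g, h, hS, hI, h0⟩ : ∃ (S : J → Set (Fin (d + 2)))
        (g h : J → (Fin (d + 2) → ν) → F),
        (∀ j, S j ≠ ∅ ∧ S j ≠ Set.univ ∧ DependsOn (g j) (S j) ∧ DependsOn (h j) (S j)ᶜ) ∧
        (∀ I, (if ∀ i, I i = I 0 then lam (I 0) else 0) = ∑ j, g j I * h j I) ∧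
        ∀ j, 0 ∈ S j := by
      refine ⟨fun j => if 0 ∈ S j then S j else (S j)ᶜ, fun j => if 0 ∈ S j then g j else h j,
        fun j => if 0 ∈ S j then h j else g j, fun j => ?_, fun I => ?_, fun j => ?_⟩
      · by_cases hj : 0 ∈ S j
        · simpa [hj] using hS j
        · obtain ⟨h1, h2, h3, h4⟩ := hS j
          simp only [hj, if_false, compl_compl]
          exact ⟨by simpa using h2, by simpa using h1, h4, h3⟩
      · rw [hI]
        refine sum_congr rfl fun j _ => ?_
        by_cases hj : 0 ∈ S j <;> simp [hj, mul_comm]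
      · by_cases hj : 0 ∈ S j <;> simp [hj]
    obtain ⟨T, hT⟩ : ∃ T : J → Prop, ∀ j, T j ↔ ∀ i : Fin (d + 1), i.succ ∉ S j :=
      ⟨_, fun _ => Iff.rfl⟩
    obtain ⟨v, hv, hc⟩ := big_support (J := {j // T j}) (univ.filter fun a => lam a ≠ 0)
      (fun j a => g j (fun _ => a))
    have hh : ∀ j (I : Fin (d + 1) → ν) a, h j (Fin.cons a I) = h j (Fin.cons a0 I) := by
      intro j I a
      apply (hS j).2.2.2
      intro i hi
      refine Fin.cases (fun hi => absurd (h0 j) hi) (fun i _ => by simp) i hi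
    have key := ih {j // ¬ T j} (fun a => v a * lam a) (fun j => Fin.succ ⁻¹' S j)
      (fun j I => ∑ a, v a * g j (Fin.cons a I)) (fun j I => h j (Fin.cons a0 I)) ?_ ?_
    · have e1 : ((univ.filter fun a => lam a ≠ 0).filter fun a => v a ≠ 0)
          = univ.filter fun a => v a * lam a ≠ 0 := by
        ext a; simp [and_comm]
      rw [e1] at hc
      have e2 := Fintype.card_subtype_compl T
      have e3 := Fintype.card_subtype_le T
      omega
    · rintro ⟨j, hj⟩
      obtain ⟨h1, h2, h3, h4⟩ := hS j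
      rw [hT] at hj
      push Not at hj
      refine ⟨Set.nonempty_iff_ne_empty.1 hj, ?_, ?_, ?_⟩
      · intro he
        apply h2
        apply Set.eq_univ_of_forall
        intro i
        refine Fin.cases (h0 j) (fun i => ?_) i
        have : i ∈ Fin.succ ⁻¹' S j := by rw [he]; trivial
        exact this
      · intro I I' hII
        refine sum_congr rfl fun a _ => ?_
        congr 1
        apply h3
        intro i hi
        refine Fin.cases (fun _ => by simp) (fun i hi => by simpa using hII i hi) i hi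
      · intro I I' hII
        apply h4
        intro i hi
        refine Fin.cases (fun _ => by simp) (fun i hi => by simpa using hII i hi) i hi
    · intro I
      have e1 : (if ∀ i, I i = I 0 then v (I 0) * lam (I 0) else 0)
          = ∑ a, v a * (if ∀ i, (Fin.cons a I : Fin (d + 2) → ν) i = (Fin.cons a I : Fin (d + 2) → ν) 0
            then lam ((Fin.cons a I : Fin (d + 2) → ν) 0) else 0) := by
        rw [sum_eq_single (I 0)]
        · simp [Fin.forall_fin_succ]
        · intro b _ hb
          rw [if_neg, mul_zero]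
          intro hh
          exact hb (by simpa using (hh (Fin.succ 0)).symm)
        · simp
      rw [e1]
      simp_rw [hI, mul_sum]
      rw [sum_comm, ← Fintype.sum_subtype_add_sum_subtype T]
      have e2 : ∑ j : {j // T j}, ∑ a, v a * (g j (Fin.cons a I) * h j (Fin.cons a I)) = 0 := by
        refine sum_eq_zero fun j _ => ?_
        have : ∀ a, g j (Fin.cons a I) = g j (fun _ => a) := by
          intro a
          apply (hS j).2.2.1
          intro i hi
          refine Fin.cases (fun _ => by simp) (fun i hi => absurd hi ((hT j).1 j.2 i)) i hi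
        simp_rw [this, hh, ← mul_assoc, ← sum_mul, hv j, zero_mul]
      rw [e2, zero_add]
      refine sum_congr rfl fun j _ => ?_
      simp_rw [hh, ← mul_assoc, ← sum_mul]

variable {ι : Type} [Fintype ι] [DecidableEq ι]

lemma form_single {d : ℕ} (A : (Fin d → ι) → F) (I : Fin d → ι) :
    form A (fun i => Pi.single (I i) 1) = A I := by
  unfold form
  rw [sum_eq_single I]
  · simp
  · intro K _ hK
    obtain ⟨i, hi⟩ := Function.ne_iff.1 hK
    rw [prod_eq_zero (mem_univ i) (by simp [hi]), mul_zero]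
  · simp

lemma form_update {d : ℕ} (A : (Fin d → ι) → F) (X : Fin d → ι → F) (j : Fin d) (v : ι → F) :
    form A (Function.update X j v) = ∑ I, A I * (v (I j) * ∏ i ∈ univ.erase j, X i (I i)) := by
  unfold form
  refine sum_congr rfl fun I _ => ?_
  rw [← mul_prod_erase univ _ (mem_univ j), Function.update_self]
  congr 2
  exact prod_congr rfl fun i hi => by rw [Function.update_of_ne (ne_of_mem_erase hi)]

lemma form_lin {d : ℕ} (A : (Fin d → ι) → F) (X : Fin d → ι → F) (j : Fin d) (v : ι → F) :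
    form A (Function.update X j v)
      = ∑ a, v a * form A (Function.update X j (Pi.single a 1)) := by
  simp_rw [form_update, mul_sum]
  rw [sum_comm]
  refine sum_congr rfl fun I _ => ?_
  rw [sum_eq_single (I j)]
  · simp; ring
  · intro b _ hb
    simp [Pi.single_eq_of_ne hb.symm]
  · simp

lemma hasPR_card {d : ℕ} (A : (Fin (d + 2) → ι) → F) : HasPR A (Fintype.card ι) := by
  obtain ⟨e⟩ : Nonempty (Fin (Fintype.card ι) ≃ ι) := ⟨(Fintype.equivFin ι).symm⟩
  refine ⟨fun _ => {0}, fun j X => X 0 (e j),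
    fun j X => form A (Function.update X 0 (Pi.single (e j) 1)), fun j => ⟨by simp, ?_, ?_, ?_⟩,
    fun X => ?_⟩
  · intro h
    have h' : ({0} : Set (Fin (d + 2))) = Set.univ := h
    have : (1 : Fin (d + 2)) ∈ ({0} : Set (Fin (d + 2))) := by rw [h']; trivial
    simp at this
  · intro X Y h
    simp only
    rw [h 0 rfl]
  · intro X Y h
    simp only
    congr 1
    funext i
    by_cases hi : i = 0
    · subst hi; simp
    · rw [Function.update_of_ne hi, Function.update_of_ne hi, h i hi]
  · rw [e.sum_comp (fun a => X 0 a * form A (Function.update X 0 (Pi.single a 1))), ← form_lin,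
      Function.update_eq_self]

lemma prank_le {d : ℕ} {A : (Fin d → ι) → F} {r : ℕ} (h : HasPR A r) : prank A ≤ r :=
  Nat.sInf_le h

lemma le_prank {d : ℕ} {A : (Fin (d + 2) → ι) → F} {ν : Type} [Fintype ν] [DecidableEq ν]
    (h : Sub A ν) : Fintype.card ν ≤ prank A := by
  classical
  obtain ⟨φ, hφ⟩ := h
  obtain ⟨S, g, h, hS, hX⟩ : HasPR A (prank A) :=
    Nat.sInf_mem (s := {r | HasPR A r}) ⟨_, hasPR_card A⟩
  have := naslund (F := F) (ν := ν) (d + 1) (Fin (prank A)) (fun _ => 1) S
    (fun j u => g j fun i => Pi.single (φ i (u i)) 1)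
    (fun j u => h j fun i => Pi.single (φ i (u i)) 1) ?_ ?_
  · simpa using this
  · intro j
    obtain ⟨h1, h2, h3, h4⟩ := hS j
    refine ⟨h1, h2, fun u u' hu => h3 fun i hi => by rw [hu i hi],
      fun u u' hu => h4 fun i hi => by rw [hu i hi]⟩
  · intro u
    rw [← hX, form_single A (fun i => φ i (u i)), hφ, idT]
    congr 1
    exact propext ⟨fun h i j => by rw [h i, h j], fun h i => h i 0⟩

omit [Fintype ι] in
lemma sub_id (d : ℕ) : Sub (idT F d ι) ι := ⟨fun _ a => a, fun _ => rfl⟩

lemma prank_id (d : ℕ) : prank (idT F (d + 2) ι) = Fintype.card ι :=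
  le_antisymm (prank_le (hasPR_card _)) (le_prank (sub_id _))

omit [Fintype ι] in
lemma tpow_id (d m : ℕ) : tpow m (idT F d ι) = idT F d (Fin m → ι) := by
  funext I
  unfold tpow idT
  rw [prod_boole]
  congr 1
  exact propext ⟨fun h i j => funext fun k => h k (mem_univ _) i j,
    fun h k _ i j => congrFun (h i j) k⟩

end PR

end Pool.Agent.H19Ten
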