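import Mathlib
import Pool.Agent.Lib.helper19.Ten1

set_option autoImplicit false

namespace Pool.Agent.H19Ten

open Finset

lemma sum_update {κ V M : Type} [Fintype κ] [DecidableEq κ] [Fintype V] [AddCommMonoid M]
    (G : (κ → V) → M) (j : κ) :
    ∑ X : κ → V, ∑ v : V, G (Function.update X j v) = Fintype.card V • ∑ X : κ → V, G X := by
  have hinv : Function.Involutive
      (fun q : (κ → V) × V => (Function.update q.1 j q.2, q.1 j)) := by
    rintro ⟨X, v⟩
    simp
  rw [← Fintype.sum_prod_type' (fun (X : κ → V) (v : V) => G (Function.update X j v))]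
  rw [← Equiv.sum_comp (Function.Involutive.toPerm _ hinv)]
  simp only [Function.Involutive.coe_toPerm, Function.update_idem, Function.update_eq_self]
  rw [Fintype.sum_prod_type' (fun (X : κ → V) (_ : V) => G X)]
  simp [Finset.smul_sum]

lemma avg_surj {G H : Type} [AddCommGroup G] [AddCommGroup H] [Fintype G] [Fintype H]
    (π : G →+ H) (hπ : Function.Surjective π) (f : H → ℂ) :
    (∑ x, f (π x)) / Fintype.card G = (∑ y, f y) / Fintype.card H := by
  classical
  obtain ⟨c, hc⟩ : ∃ c, ∀ y, (univ.filter fun x => π x = y).card = c :=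
    ⟨_, fun y => AddMonoidHom.card_fiber_eq_of_mem_range π (hπ y) (hπ 0)⟩
  have key : ∀ f : H → ℂ, ∑ x, f (π x) = c * ∑ y, f y := by
    intro f
    rw [← sum_fiberwise_of_maps_to (s := univ) (t := univ) (g := π) (fun _ _ => mem_univ _),
      mul_sum]
    refine sum_congr rfl fun y _ => ?_
    rw [sum_congr rfl (g := fun _ => f y) (fun x hx => by rw [(mem_filter.1 hx).2])]
    simp [hc]
  have h1 := key (fun _ => 1)
  simp only [sum_const, card_univ, nsmul_eq_mul, mul_one] at h1
  have hG : (Fintype.card G : ℂ) ≠ 0 := by exact_mod_cast Fintype.card_ne_zero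
  have hc0 : (c : ℂ) ≠ 0 := fun h => hG (by rw [h1, h, zero_mul])
  rw [key, h1, mul_div_mul_left _ _ hc0]

section AR

variable {p : ℕ} [hp : Fact p.Prime]

lemma prim : IsPrimitiveRoot (Complex.exp (2 * Real.pi * Complex.I / p)) p :=
  Complex.isPrimitiveRoot_exp p hp.out.ne_zero

/-- the additive character -/
noncomputable def ch (p : ℕ) [hp : Fact p.Prime] : AddChar (ZMod p) ℂ :=
  AddChar.zmodChar p (prim (p := p)).pow_eq_one

lemma ch_apply (a : ZMod p) : ch p a = Complex.exp (2 * Real.pi * Complex.I / p) ^ a.val :=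
  AddChar.zmodChar_apply _ _

lemma ch_sum {κ : Type} (s : Finset κ) (f : κ → ZMod p) :
    ch p (∑ k ∈ s, f k) = ∏ k ∈ s, ch p (f k) := by
  classical
  induction s using Finset.induction_on with
  | empty => simp
  | insert a s ha ih => rw [sum_insert ha, prod_insert ha, AddChar.map_add_eq_mul, ih]

lemma sum_ch (c : ZMod p) : ∑ x : ZMod p, ch p (x * c) = if c = 0 then (p : ℂ) else 0 := by
  have := AddChar.sum_mulShift c (AddChar.zmodChar_primitive_of_primitive_root p (prim (p := p)))
  rw [ZMod.card] at this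
  unfold ch
  rw [this]; split_ifs <;> simp

variable {ι : Type} [Fintype ι] [DecidableEq ι] {d : ℕ}

lemma sum_ch_lin (c : ι → ZMod p) :
    ∑ v : ι → ZMod p, ch p (∑ a, v a * c a)
      = if ∀ a, c a = 0 then (Fintype.card (ι → ZMod p) : ℂ) else 0 := by
  simp_rw [ch_sum]
  rw [← Fintype.piFinset_univ, ← prod_univ_sum (fun _ => univ) (fun a x => ch p (x * c a))]
  simp_rw [sum_ch]
  split_ifs with h
  · simp [h]
  · push Not at h
    obtain ⟨a, ha⟩ := h
    exact prod_eq_zero (mem_univ a) (if_neg ha)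

/-- number of points where the linear form in the variable `j` vanishes -/
noncomputable def cnt (A : (Fin d → ι) → ZMod p) (j : Fin d) : ℕ :=
  (univ.filter fun X : Fin d → ι → ZMod p =>
    ∀ a, form A (Function.update X j (Pi.single a 1)) = 0).card

lemma sum_eq_cnt (A : (Fin d → ι) → ZMod p) (j : Fin d) :
    ∑ X : Fin d → ι → ZMod p, ch p (form A X) = cnt A j := by
  have h := sum_update (fun X : Fin d → ι → ZMod p => ch p (form A X)) j
  have h2 : ∀ X : Fin d → ι → ZMod p, ∑ v, ch p (form A (Function.update X j v))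
      = Fintype.card (ι → ZMod p) •
        (if ∀ a, form A (Function.update X j (Pi.single a 1)) = 0 then (1 : ℂ) else 0) := by
    intro X
    rw [sum_congr rfl (fun v _ => by rw [form_lin A X j v]), sum_ch_lin]
    split_ifs <;> simp
  simp_rw [h2] at h
  rw [← smul_sum] at h
  have hV : (Fintype.card (ι → ZMod p) : ℂ) ≠ 0 := by exact_mod_cast Fintype.card_ne_zero
  rw [nsmul_eq_mul, nsmul_eq_mul] at h
  rw [← mul_left_cancel₀ hV h, sum_boole, cnt]

lemma bias_eq (A : (Fin d → ι) → ZMod p) :
    bias A = (∑ X : Fin d → ι → ZMod p, ch p (form A X)) / Fintype.card (Fin d → ι → ZMod p) := by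
  simp_rw [ch_apply]; rfl

lemma bias_re (A : (Fin d → ι) → ZMod p) (j : Fin d) :
    (bias A).re = (cnt A j : ℝ) / Fintype.card (Fin d → ι → ZMod p) := by
  rw [bias_eq, sum_eq_cnt A j, ← Complex.ofReal_natCast, ← Complex.ofReal_natCast,
    ← Complex.ofReal_div, Complex.ofReal_re]

lemma cnt_indep (A : (Fin d → ι) → ZMod p) (i j : Fin d) : cnt A i = cnt A j := by
  have := (sum_eq_cnt A i).symm.trans (sum_eq_cnt A j)
  exact_mod_cast this

lemma cnt_pos (A : (Fin (d + 2) → ι) → ZMod p) : 0 < cnt A 0 := by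
  refine card_pos.2 ⟨0, ?_⟩
  simp only [mem_filter, mem_univ, true_and]
  intro a
  rw [form_update]
  refine sum_eq_zero fun I _ => ?_
  rw [prod_eq_zero (i := (1 : Fin (d + 2))) (by simp) (by simp)]; simp

lemma bias_pos (A : (Fin (d + 2) → ι) → ZMod p) : 0 < (bias A).re := by
  rw [bias_re A 0]
  have := cnt_pos A
  have h2 : 0 < Fintype.card (Fin (d + 2) → ι → ZMod p) := Fintype.card_pos
  positivity

lemma cnt_mask (A : (Fin d → ι) → ZMod p) (j : Fin d) (R : ι → Prop) [DecidablePred R] :
    cnt A j ≤ cnt (fun I => if R (I j) then A I else 0) j := by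
  refine card_le_card fun X hX => ?_
  simp only [mem_filter, mem_univ, true_and] at hX ⊢
  intro a
  by_cases ha : R a
  · rw [← hX a, form_update, form_update]
    refine sum_congr rfl fun I _ => ?_
    by_cases h : I j = a
    · rw [if_pos (h ▸ ha)]
    · simp [Pi.single_eq_of_ne h]
  · rw [form_update]
    refine sum_eq_zero fun I _ => ?_
    by_cases h : I j = a
    · rw [if_neg (h ▸ ha), zero_mul]
    · simp [Pi.single_eq_of_ne h]

lemma cnt_masks (A : (Fin d → ι) → ZMod p) (j : Fin d) (R : Fin d → ι → Prop)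
    [∀ i, DecidablePred (R i)] (T : Finset (Fin d)) :
    cnt A j ≤ cnt (fun I => if ∀ i ∈ T, R i (I i) then A I else 0) j := by
  induction T using Finset.induction_on with
  | empty => simp
  | insert i T hi ih =>
    refine ih.trans ?_
    rw [cnt_indep _ j i, cnt_indep _ j i]
    refine (cnt_mask _ i (R i)).trans (le_of_eq ?_)
    congr 1
    funext I
    by_cases h1 : R i (I i) <;> simp [h1]

lemma bias_sub {A : (Fin (d + 2) → ι) → ZMod p} {ν : Type} [Fintype ν] [DecidableEq ν]
    (h : Sub A ν) : (bias A).re ≤ (bias (idT (ZMod p) (d + 2) ν)).re := by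
  classical
  obtain ⟨φ, hφ⟩ := h
  have hinj : ∀ i, Function.Injective (φ i) := by
    intro i u u' huu
    have h1 := hφ (fun _ => u)
    have h2 := hφ (Function.update (fun _ => u) i u')
    have h3 : (fun k => φ k (Function.update (fun _ => u) i u' k)) = fun k => φ k u := by
      funext k
      by_cases hk : k = i
      · subst hk; simp [huu]
      · simp [hk]
    rw [h3, h1] at h2
    obtain ⟨k, hk⟩ := exists_ne i
    by_contra hne
    unfold idT at h2
    rw [if_pos (fun _ _ => rfl), if_neg] at h2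
    · exact one_ne_zero h2
    · intro hh
      have := hh k i
      simp [hk] at this
      exact hne this
  have h1 := cnt_masks A 0 (fun i a => a ∈ Set.range (φ i)) univ
  obtain ⟨B, hB⟩ : ∃ B : (Fin (d + 2) → ι) → ZMod p,
    B = fun I => if ∀ i ∈ (univ : Finset (Fin (d + 2))), I i ∈ Set.range (φ i) then A I else 0 :=
    ⟨_, rfl⟩
  rw [← hB] at h1
  let π : (Fin (d + 2) → ι → ZMod p) →+ (Fin (d + 2) → ν → ZMod p) :=
    { toFun := fun X i u => X i (φ i u), map_zero' := rfl, map_add' := fun _ _ => rfl }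
  have hπ : Function.Surjective π := by
    intro Y
    refine ⟨fun i => Function.extend (φ i) (Y i) 0, ?_⟩
    funext i u
    exact (hinj i).extend_apply _ _ _
  have hform : ∀ X, form B X = form (idT (ZMod p) (d + 2) ν) (π X) := by
    intro X
    symm
    unfold form
    refine sum_of_injOn (fun u i => φ i (u i)) ?_ (fun _ _ => mem_univ _) ?_ ?_
    · intro u _ u' _ h
      funext i
      exact hinj i (congrFun h i)
    · intro I _ hI
      rw [hB]
      simp only
      rw [if_neg, zero_mul]
      intro hh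
      choose u hu using fun i => hh i (mem_univ i)
      exact hI ⟨u, mem_univ _, funext hu⟩
    · intro u _
      rw [hB]
      simp only
      rw [if_pos (fun i _ => ⟨u i, rfl⟩), hφ]
      rfl
  have h2 : bias B = bias (idT (ZMod p) (d + 2) ν) := by
    rw [bias_eq, bias_eq]
    simp_rw [hform]
    exact avg_surj π hπ (fun Y => ch p (form (idT (ZMod p) (d + 2) ν) Y))
  rw [← h2, bias_re A 0, bias_re B 0]
  gcongr

lemma form_id {F : Type} [Field F] (X : Fin (d + 1) → ι → F) :
    form (idT F (d + 1) ι) X = ∑ a, ∏ i, X i a := by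
  symm
  unfold form
  refine sum_of_injOn (fun a _ => a) ?_ (fun _ _ => mem_univ _) ?_ ?_
  · intro a _ b _ h; exact congrFun h 0
  · intro I _ hI
    unfold idT
    rw [if_neg, zero_mul]
    intro hh
    exact hI ⟨I 0, mem_univ _, funext fun i => hh 0 i⟩
  · intro a _
    simp [idT]

lemma bias_id (ν : Type) [Fintype ν] [DecidableEq ν] :
    bias (idT (ZMod p) (d + 1) ν) = ((∑ x : Fin (d + 1) → ZMod p, ch p (∏ i, x i)) /
      Fintype.card (Fin (d + 1) → ZMod p)) ^ Fintype.card ν := by
  rw [bias_eq]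
  simp_rw [form_id, ch_sum]
  rw [← (Equiv.piComm (fun (_ : ν) (_ : Fin (d + 1)) => ZMod p)).sum_comp,
    ← Fintype.card_congr (Equiv.piComm (fun (_ : ν) (_ : Fin (d + 1)) => ZMod p))]
  have := prod_univ_sum (fun _ : ν => (univ : Finset (Fin (d + 1) → ZMod p)))
    (fun _ x => ch p (∏ i, x i))
  rw [Fintype.piFinset_univ] at this
  simp only [Equiv.piComm_apply, Function.swap]
  rw [← this, prod_const, card_univ, div_pow, Fintype.card_fun]
  push_cast; rfl

lemma exists_gamma (p : ℕ) [hp : Fact p.Prime] (d : ℕ) : ∃ γ : ℝ, 0 < γ ∧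
    ∀ (ν : Type) [Fintype ν] [DecidableEq ν],
      arank (idT (ZMod p) (d + 2) ν) = Fintype.card ν * γ := by
  have hq := bias_id (p := p) (d := d + 1) Unit
  rw [Fintype.card_unit, pow_one] at hq
  obtain ⟨q, hqd⟩ : ∃ q, q = (bias (idT (ZMod p) (d + 2) Unit)).re := ⟨_, rfl⟩
  have hq0 : 0 < q := hqd ▸ bias_pos _
  have hq1 : q < 1 := by
    rw [hqd, bias_re _ 0, div_lt_one (by exact_mod_cast Fintype.card_pos)]
    have : cnt (idT (ZMod p) (d + 2) Unit) 0 < Fintype.card (Fin (d + 2) → Unit → ZMod p) := by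
      refine card_lt_card (filter_ssubset.2 ⟨fun _ _ => 1, mem_univ _, ?_⟩)
      intro h
      have := h ()
      rw [form_id] at this
      simp only [Fintype.sum_unique] at this
      obtain ⟨i, -, hi⟩ := prod_eq_zero_iff.1 this
      by_cases h0 : i = 0
      · subst h0; simp at hi
      · simp [h0] at hi
    exact_mod_cast this
  have hqc : bias (idT (ZMod p) (d + 2) Unit) = (q : ℂ) := by
    rw [hqd, bias_re _ 0, bias_eq, sum_eq_cnt _ 0]; push_cast; rfl
  have hp1 : (1 : ℝ) < p := by exact_mod_cast hp.out.one_lt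
  refine ⟨-Real.logb p q, neg_pos.2 (Real.logb_neg hp1 hq0 hq1), fun ν _ _ => ?_⟩
  unfold arank
  rw [bias_id (d := d + 1) ν, ← hq, hqc, ← Complex.ofReal_pow, Complex.ofReal_re, Real.logb_pow]
  ring

lemma le_arank {A : (Fin (d + 2) → ι) → ZMod p} {ν : Type} [Fintype ν] [DecidableEq ν]
    (h : Sub A ν) : arank (idT (ZMod p) (d + 2) ν) ≤ arank A := by
  have hp1 : (1 : ℝ) < p := by exact_mod_cast hp.out.one_lt
  unfold arank
  exact neg_le_neg (Real.logb_le_logb_of_le hp1 (bias_pos A) (bias_sub h))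

end AR

end Pool.Agent.H19Ten
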