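import Mathlib
import Pool.Agent.Lib.helper19.Ten2

set_option autoImplicit false

namespace Pool.Agent.H19Ten

open Finset

lemma amplify {B D : Type} [Fintype D] [DecidableEq D] (Pat : (Fin 4 → B) → Prop) (b W : ℕ)
    (φ : Fin 4 → D → Fin b → B) (β : Fin 4 → D → ℤ)
    (h1 : ∀ u q, Pat fun i => φ i u q) (h2 : ∀ u, ∑ i, β i u = 0)
    (h3 : ∀ u : Fin 4 → D, (∀ q, Pat fun i => φ i (u i) q) →
      (∀ i j, u i = u j) ∨ 0 < ∑ i, β i (u i))
    (h4 : ∀ i u, |β i u| ≤ W) (t : ℕ) :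
    ∃ (N : ℕ) (Φ : Fin 4 → Fin N → Fin (t * b) → B),
      Fintype.card D ^ t ≤ N * (2 * (t * W) + 1) ^ 4 ∧
      ∀ u : Fin 4 → Fin N, (∀ q, Pat fun i => Φ i (u i) q) ↔ ∀ i j, u i = u j := by
  classical
  obtain ⟨σ, hσ⟩ : ∃ σ : (Fin t → D) → Fin 4 → ℤ, σ = fun U i => ∑ s, β i (U s) := ⟨_, rfl⟩
  obtain ⟨Y, hY⟩ : ∃ Y : Finset (Fin 4 → ℤ),
    Y = Fintype.piFinset fun _ => Icc (-((t * W : ℕ) : ℤ)) (t * W : ℕ) := ⟨_, rfl⟩
  have hYc : Y.card = (2 * (t * W) + 1) ^ 4 := by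
    rw [hY, Fintype.card_piFinset, prod_const, Int.card_Icc]
    simp only [card_univ, Fintype.card_fin]
    congr 1
    omega
  have hmaps : ∀ U ∈ (univ : Finset (Fin t → D)), σ U ∈ Y := by
    intro U _
    rw [hY, Fintype.mem_piFinset]
    intro i
    rw [mem_Icc, ← abs_le, hσ]
    refine (abs_sum_le_sum_abs _ _).trans ?_
    refine (sum_le_sum fun s _ => h4 i (U s)).trans ?_
    simp
  have hYne : Y.Nonempty := by rw [← card_pos, hYc]; positivity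
  obtain ⟨y, -, hy⟩ := exists_max_image Y (fun y => (univ.filter fun U => σ U = y).card) hYne
  have hcard := card_le_mul_card_image_of_maps_to hmaps _ hy
  rw [hYc, card_univ, Fintype.card_fun, Fintype.card_fin] at hcard
  obtain ⟨e⟩ : Nonempty (Fin (univ.filter fun U => σ U = y).card ≃
    (univ.filter fun U => σ U = y)) := ⟨(equivFin _).symm⟩
  have he : ∀ x, σ (e x).1 = y := fun x => (mem_filter.1 (e x).2).2
  refine ⟨_, fun i x q => φ i ((e x).1 (finProdFinEquiv.symm q).1) (finProdFinEquiv.symm q).2,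
    hcard, fun u => ⟨fun h => ?_, fun h q => ?_⟩⟩
  · have hb : ∀ s r, Pat fun i => φ i ((e (u i)).1 s) r := by
      intro s r
      simpa using h (finProdFinEquiv (s, r))
    have hnn : ∀ s, 0 ≤ ∑ i, β i ((e (u i)).1 s) := by
      intro s
      rcases h3 (fun i => (e (u i)).1 s) (hb s) with h | h
      · rw [sum_congr rfl fun i _ => by rw [h i 0], h2]
      · exact h.le
    have htot : ∑ s, ∑ i, β i ((e (u i)).1 s) = 0 := by
      rw [sum_comm]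
      have e1 : ∀ i, ∑ s, β i ((e (u i)).1 s) = ∑ s, β i ((e (u 0)).1 s) := by
        intro i
        have a1 := congrFun (he (u i)) i
        have a2 := congrFun (he (u 0)) i
        exact ((congrFun (congrFun hσ _) i).symm.trans (a1.trans a2.symm)).trans
          (congrFun (congrFun hσ _) i)
      rw [sum_congr rfl fun i _ => e1 i, sum_comm]
      exact sum_eq_zero fun s _ => h2 _
    rw [sum_eq_zero_iff_of_nonneg fun s _ => hnn s] at htot
    intro i j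
    apply e.injective
    apply Subtype.ext
    funext s
    rcases h3 (fun i => (e (u i)).1 s) (hb s) with h | h
    · exact h i j
    · exact absurd (htot s (mem_univ _)) h.ne'
  · have : ∀ i, u i = u 0 := fun i => h i 0
    simp_rw [this]
    exact h1 _ _

/-- support pattern of the tensor `(x·y)(z·w) ⊕ (x·z)(y·w)` -/
def Pat {k : ℕ} (I : Fin 4 → Bool × Fin k) : Prop :=
  (I 1).1 = (I 0).1 ∧ (I 2).1 = (I 0).1 ∧ (I 3).1 = (I 0).1 ∧
    ((I 0).1 = true → (I 0).2 = (I 2).2 ∧ (I 1).2 = (I 3).2) ∧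
    ((I 0).1 = false → (I 0).2 = (I 1).2 ∧ (I 2).2 = (I 3).2)

instance {k : ℕ} : DecidablePred (Pat (k := k)) := fun _ => by unfold Pat; infer_instance

lemma exists_enc {κ : Type} [DecidableEq κ] (k j : ℕ) (hk : 0 < k) (S : Finset κ) :
    ∃ E : ℕ → κ → Fin k, S.card = j → ∀ a a', a < k ^ j → a' < k ^ j →
      (∀ r ∈ S, E a r = E a' r) → a = a' := by
  by_cases hS : S.card = j
  swap
  · exact ⟨fun _ _ => ⟨0, hk⟩, fun h => absurd h hS⟩
  have hc : Fintype.card (S → Fin k) = k ^ j := by simp [hS]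
  obtain ⟨e⟩ : Nonempty (Fin (k ^ j) ≃ (S → Fin k)) := ⟨(Fintype.equivFinOfCardEq hc).symm⟩
  refine ⟨fun a r => if h : a < k ^ j ∧ r ∈ S then e ⟨a, h.1⟩ ⟨r, h.2⟩ else ⟨0, hk⟩,
    fun _ a a' ha ha' h => ?_⟩
  have : e ⟨a, ha⟩ = e ⟨a', ha'⟩ := by
    funext r
    have := h r r.2
    simpa [ha, ha'] using this
  exact congrArg Fin.val (e.injective this)

lemma block (k j h : ℕ) (hk : 0 < k) (hh : 2 * h ≤ k ^ j) (t : ℕ) :
    ∃ (N : ℕ) (Φ : Fin 4 → Fin N → Fin (t * (2 * j)) → Bool × Fin k),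
      (j.centralBinom * (h * h)) ^ t ≤ N * (2 * (t * (4 * h ^ 2)) + 1) ^ 4 ∧
      ∀ u : Fin 4 → Fin N, (∀ q, Pat fun i => Φ i (u i) q) ↔ ∀ i j, u i = u j := by
  classical
  choose E hE using exists_enc (κ := Fin (2 * j)) k j hk
  obtain ⟨ψ, hψ⟩ : ∃ ψ : Finset (Fin (2 * j)) → ℕ → ℕ → Fin (2 * j) → Bool × Fin k,
    ψ = fun S x y r => if r ∈ S then (true, E S x r) else (false, E Sᶜ y r) := ⟨_, rfl⟩
  have := amplify (D := (powersetCard j (univ : Finset (Fin (2 * j)))) × Fin h × Fin h)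
    Pat (2 * j) (4 * h ^ 2)
    ![fun u => ψ u.1 u.2.1 (u.2.1 + u.2.2), fun u => ψ u.1 u.2.2 (u.2.1 + u.2.2),
      fun u => ψ u.1 u.2.1 (h + u.2.2 - u.2.1), fun u => ψ u.1 u.2.2 (h + u.2.2 - u.2.1)]
    ![fun u => (u.2.1 : ℤ) ^ 2 + (u.2.2 : ℤ) ^ 2, fun u => -2 * (u.2.1 : ℤ) * (u.2.2 : ℤ),
      fun u => (u.2.2 : ℤ) ^ 2 - (u.2.1 : ℤ) ^ 2,
      fun u => -2 * (u.2.2 : ℤ) ^ 2 + 2 * (u.2.1 : ℤ) * (u.2.2 : ℤ)] ?_ ?_ ?_ ?_ t
  · simpa [Nat.centralBinom_eq_two_mul_choose] using this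
  · intro u q
    by_cases hq : q ∈ u.1.1 <;> simp [Pat, hψ, hq]
  · intro u
    simp [Fin.sum_univ_four]; ring
  · intro u hu
    have hf : ∀ S x y r, (ψ S x y r).1 = decide (r ∈ S) := by
      intro S x y r; rw [hψ]; by_cases hr : r ∈ S <;> simp [hr]
    have hs1 : ∀ S x y r, r ∈ S → (ψ S x y r).2 = E S x r := by
      intro S x y r hr; rw [hψ]; simp [hr]
    have hs2 : ∀ S x y r, r ∉ S → (ψ S x y r).2 = E Sᶜ y r := by
      intro S x y r hr; rw [hψ]; simp [hr]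
    have key : ∀ (S0 S1 S2 S3 : Finset (Fin (2 * j))) (x0 x1 x2 x3 y0 y1 y2 y3 : ℕ),
        S0.card = j → x0 < k ^ j → x1 < k ^ j → x2 < k ^ j → x3 < k ^ j →
        y0 < k ^ j → y1 < k ^ j → y2 < k ^ j → y3 < k ^ j →
        (∀ q, Pat ![ψ S0 x0 y0 q, ψ S1 x1 y1 q, ψ S2 x2 y2 q, ψ S3 x3 y3 q]) →
        S1 = S0 ∧ S2 = S0 ∧ S3 = S0 ∧ x0 = x2 ∧ x1 = x3 ∧ y0 = y1 ∧ y2 = y3 := by
      intro S0 S1 S2 S3 x0 x1 x2 x3 y0 y1 y2 y3 hS a0 a1 a2 a3 b0 b1 b2 b3 hq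
      simp only [Pat, Matrix.cons_val_zero, Matrix.cons_val_one, Matrix.cons_val, hf,
        decide_eq_decide, decide_eq_true_eq, decide_eq_false_iff_not] at hq
      have e1 : S1 = S0 := Finset.ext fun q => (hq q).1
      have e2 : S2 = S0 := Finset.ext fun q => (hq q).2.1
      have e3 : S3 = S0 := Finset.ext fun q => (hq q).2.2.1
      subst e1 e2
      subst e3
      have hSc : S3ᶜ.card = j := by rw [card_compl, hS, Fintype.card_fin]; omega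
      refine ⟨rfl, rfl, rfl, hE _ hS _ _ a0 a2 fun r hr => ?_, hE _ hS _ _ a1 a3 fun r hr => ?_,
        hE _ hSc _ _ b0 b1 fun r hr => ?_, hE _ hSc _ _ b2 b3 fun r hr => ?_⟩
      · simpa [hs1 _ _ _ _ hr] using ((hq r).2.2.2.1 hr).1
      · simpa [hs1 _ _ _ _ hr] using ((hq r).2.2.2.1 hr).2
      · rw [mem_compl] at hr
        simpa [hs2 _ _ _ _ hr] using ((hq r).2.2.2.2 hr).1
      · rw [mem_compl] at hr
        simpa [hs2 _ _ _ _ hr] using ((hq r).2.2.2.2 hr).2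
    have c0 := (u 0).2.1.2
    have c1 := (u 1).2.1.2
    have c2 := (u 2).2.1.2
    have c3 := (u 3).2.1.2
    have d0 := (u 0).2.2.2
    have d1 := (u 1).2.2.2
    have d2 := (u 2).2.2.2
    have d3 := (u 3).2.2.2
    obtain ⟨e1, e2, e3, f1, f2, f3, f4⟩ := key (u 0).1 (u 1).1 (u 2).1 (u 3).1
      (u 0).2.1 (u 1).2.2 (u 2).2.1 (u 3).2.2 ((u 0).2.1 + (u 0).2.2) ((u 1).2.1 + (u 1).2.2)
      (h + (u 2).2.2 - (u 2).2.1) (h + (u 3).2.2 - (u 3).2.1)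
      (mem_powersetCard.1 (u 0).1.2).2 (by omega) (by omega) (by omega) (by omega)
      (by omega) (by omega) (by omega) (by omega) (fun q => by
        have := hu q
        simpa [Pat] using this)
    by_cases hd : ((u 1).2.2 : ℕ) = (u 0).2.2 ∧ ((u 2).2.2 : ℕ) = (u 1).2.2
    · left
      have : ∀ i, u i = u 0 := by
        intro i
        fin_cases i
        · rfl
        · exact Prod.ext (Subtype.ext e1) (Prod.ext (Fin.ext (by simp; omega)) (Fin.ext (by simp; omega)))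
        · exact Prod.ext (Subtype.ext e2) (Prod.ext (Fin.ext (by simp; omega)) (Fin.ext (by simp; omega)))
        · exact Prod.ext (Subtype.ext e3) (Prod.ext (Fin.ext (by simp; omega)) (Fin.ext (by simp; omega)))
      intro i j; rw [this i, this j]
    · right
      simp only [Fin.sum_univ_four, Matrix.cons_val_zero, Matrix.cons_val_one, Matrix.cons_val]
      have g1 : (((u 2).2.1 : ℕ) : ℤ) = ((u 0).2.1 : ℕ) := by omega
      have g2 : (((u 3).2.2 : ℕ) : ℤ) = ((u 1).2.2 : ℕ) := by omega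
      have g3 : (((u 1).2.1 : ℕ) : ℤ) = ((u 0).2.1 : ℕ) + ((u 0).2.2 : ℕ) - ((u 1).2.2 : ℕ) := by
        omega
      have g4 : (((u 3).2.1 : ℕ) : ℤ) = ((u 0).2.1 : ℕ) + ((u 1).2.2 : ℕ) - ((u 2).2.2 : ℕ) := by
        omega
      rw [g1, g2, g3, g4]
      have g5 : 0 < ((((u 1).2.2 : ℕ) : ℤ) - ((u 0).2.2 : ℕ)) ^ 2
          + ((((u 2).2.2 : ℕ) : ℤ) - ((u 1).2.2 : ℕ)) ^ 2 := by
        by_cases h1 : ((u 1).2.2 : ℕ) = (u 0).2.2
        · have h2 : (((u 2).2.2 : ℕ) : ℤ) - ((u 1).2.2 : ℕ) ≠ 0 := by omega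
          positivity
        · have h2 : (((u 1).2.2 : ℕ) : ℤ) - ((u 0).2.2 : ℕ) ≠ 0 := by omega
          positivity
      nlinarith
  · intro i u
    obtain ⟨S, c, d⟩ := u
    have hc : (c : ℤ) < h := by exact_mod_cast c.2
    have hd : (d : ℤ) < h := by exact_mod_cast d.2
    have hc0 : (0 : ℤ) ≤ (c : ℕ) := by positivity
    have hd0 : (0 : ℤ) ≤ (d : ℕ) := by positivity
    rw [abs_le]
    fin_cases i <;> simp <;> constructor <;> nlinarith

lemma asym (k : ℕ) (hk : 0 < k) (c : ℝ) (hc0 : 0 < c) (hc1 : c < 1) :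
    ∃ (m N : ℕ) (Φ : Fin 4 → Fin N → Fin m → Bool × Fin (2 * k)), 1 ≤ m ∧
      c ^ m * (4 * k) ^ m ≤ N ∧
      ∀ u : Fin 4 → Fin N, (∀ q, Pat fun i => Φ i (u i) q) ↔ ∀ i j, u i = u j := by
  have t1 := tendsto_self_mul_const_pow_of_lt_one (r := c ^ 2) (by positivity) (by nlinarith)
  obtain ⟨j, hj1, hj⟩ := ((Filter.eventually_ge_atTop 1).and
    (t1.eventually (gt_mem_nhds (by norm_num : (0 : ℝ) < 1 / 16)))).exists
  obtain ⟨h, hh⟩ : ∃ h, (2 * k) ^ j = 2 * h :=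
    (dvd_mul_right 2 k).trans (dvd_pow_self _ (by omega))
  obtain ⟨W, hW⟩ : ∃ W, W = 4 * h ^ 2 := ⟨_, rfl⟩
  have t2 := (tendsto_pow_const_div_const_pow_of_one_lt 4 (r := (2 : ℝ)) one_lt_two).const_mul
    ((2 * W + 1) ^ 4 : ℝ)
  rw [mul_zero] at t2
  obtain ⟨t, ht1, ht⟩ := ((Filter.eventually_ge_atTop 1).and
    (t2.eventually (gt_mem_nhds (by norm_num : (0 : ℝ) < 1)))).exists
  obtain ⟨N, Φ, hN, hΦ⟩ := block (2 * k) j h (by omega) hh.ge t
  refine ⟨t * (2 * j), N, Φ, Nat.mul_pos ht1 (by omega), ?_, hΦ⟩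
  rw [← hW] at hN
  obtain ⟨Dn, hD⟩ : ∃ Dn, Dn = j.centralBinom * (h * h) := ⟨_, rfl⟩
  rw [← hD] at hN
  have a1 : (4 * k) ^ (2 * j) ≤ 8 * j * Dn := by
    have := Nat.four_pow_le_two_mul_self_mul_centralBinom j hj1
    calc (4 * k) ^ (2 * j) = 4 ^ j * ((2 * k) ^ j) ^ 2 := by
          rw [show 4 * k = 2 * (2 * k) by ring, mul_pow, pow_mul, mul_comm 2 j, pow_mul]; norm_num
      _ = 4 ^ j * (4 * (h * h)) := by rw [hh]; ring
      _ ≤ (2 * j * j.centralBinom) * (4 * (h * h)) := Nat.mul_le_mul_right _ this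
      _ = _ := by rw [hD]; ring
  have a1' : ((4 : ℝ) * k) ^ (2 * j) ≤ 8 * j * Dn := by exact_mod_cast a1
  have a2 : c ^ (2 * j) * ((4 : ℝ) * k) ^ (2 * j) ≤ Dn / 2 := by
    have hDn : (0 : ℝ) ≤ Dn := by positivity
    calc c ^ (2 * j) * ((4 : ℝ) * k) ^ (2 * j) ≤ c ^ (2 * j) * (8 * j * Dn) := by gcongr
      _ = 8 * (j * (c ^ 2) ^ j) * Dn := by rw [← pow_mul]; ring
      _ ≤ 8 * (1 / 16) * Dn := by gcongr
      _ = Dn / 2 := by ring
  have a3 : ((2 * (t * W) + 1 : ℝ)) ^ 4 ≤ 2 ^ t := by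
    have ht1' : (1 : ℝ) ≤ t := by exact_mod_cast ht1
    have hW0 : (0 : ℝ) ≤ W := by positivity
    rw [← mul_div_assoc, div_lt_one (by positivity), ← mul_pow] at ht
    refine le_trans ?_ ht.le
    gcongr
    nlinarith
  have hN' : (Dn : ℝ) ^ t ≤ N * (2 * (t * W) + 1) ^ 4 := by exact_mod_cast hN
  calc c ^ (t * (2 * j)) * ((4 : ℝ) * k) ^ (t * (2 * j))
      = (c ^ (2 * j) * ((4 : ℝ) * k) ^ (2 * j)) ^ t := by
        rw [mul_pow (c ^ (2 * j)), ← pow_mul, ← pow_mul, mul_comm t]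
    _ ≤ (Dn / 2) ^ t := by gcongr
    _ = Dn ^ t / 2 ^ t := div_pow _ _ _
    _ ≤ N := by
        rw [div_le_iff₀ (by positivity)]
        exact hN'.trans (by gcongr)

end Pool.Agent.H19Ten
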