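import Mathlib

set_option autoImplicit false

namespace Pool.Agent.H19Trade

open Finset

/-- `f` is a weighted threshold function. -/
def Weighted {κ : Type} [Fintype κ] (f : (κ → Bool) → Bool) : Prop :=
  ∃ (w : κ → ℝ) (q : ℝ), ∀ x, f x = true ↔ q ≤ ∑ i, w i * (if x i then 1 else 0)

/-- There are `j` true vectors and `j` false vectors of `f` with the same sum. -/
def Trade {κ : Type} (f : (κ → Bool) → Bool) (j : ℕ) : Prop :=
  ∃ x y : Fin j → κ → Bool, (∀ t, f (x t) = true) ∧ (∀ t, f (y t) = false) ∧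
    ∀ i, ∑ t, (if x t i then (1 : ℤ) else 0) = ∑ t, (if y t i then (1 : ℤ) else 0)

end Pool.Agent.H19Trade
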