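import Mathlib
import Pool.Agent.Lib.helper19.Trade

set_option autoImplicit false

namespace Pool.Agent.H19Trade

open Finset

abbrev K (N r : ℕ) : Type := (Bool × Fin 7 × Fin N) ⊕ Fin r

def Φ0 (N : ℕ) (a e : ℕ → ℝ) (t : Fin 7) (j : ℕ) : ℝ :=
  if t = 0 then a j
  else if t = 1 then e j
  else if t = 2 then
    (if j + 3 < N then e j + (∑ k ∈ range N, a k - a j - a (j + 1) - a (j + 3)) else 0)
  else if t = 3 then (if j + 4 < N then e (j + 1) - e j + a j + a (j + 3) else 0)
  else if t = 4 then (if j + 4 < N then e j - e (j + 1) + a (j + 2) + a (j + 4) else 0)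
  else if t = 5 then (if j + 5 < N then e j + e (j + 2) else 0)
  else (if j + 5 < N then e j + e (j + 2) - a (j + 3) else 0)

def Φ1 (N r : ℕ) (a e : ℕ → ℝ) : K N r → ℝ
  | Sum.inl (false, t, j) => Φ0 N a e t j
  | Sum.inl (true, t, j) => ∑ k ∈ range N, a k - Φ0 N a e t j
  | Sum.inr _ => 0

theorem Φ0_add (N : ℕ) (a e a' e' : ℕ → ℝ) (t : Fin 7) (j : ℕ) :
    Φ0 N (a + a') (e + e') t j = Φ0 N a e t j + Φ0 N a' e' t j := by
  simp only [Φ0, Pi.add_apply, sum_add_distrib]
  split_ifs <;> ring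

theorem Φ0_smul (N : ℕ) (c : ℝ) (a e : ℕ → ℝ) (t : Fin 7) (j : ℕ) :
    Φ0 N (c • a) (c • e) t j = c * Φ0 N a e t j := by
  simp only [Φ0, Pi.smul_apply, smul_eq_mul, ← mul_sum]
  split_ifs <;> ring

def Φ (N r : ℕ) : ((ℕ → ℝ) × (ℕ → ℝ)) →ₗ[ℝ] (K N r → ℝ) where
  toFun q := Φ1 N r q.1 q.2
  map_add' p q := by
    funext c
    rcases c with ⟨_ | _, t, j⟩ | c
    · simp [Φ1, Φ0_add]
    · simp only [Φ1, Prod.fst_add, Prod.snd_add, Φ0_add, Pi.add_apply, sum_add_distrib]
      ring
    · simp [Φ1]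
  map_smul' c q := by
    funext c
    rcases c with ⟨_ | _, t, j⟩ | c
    · simp [Φ1, Φ0_smul]
    · simp only [Φ1, Prod.smul_fst, Prod.smul_snd, Φ0_smul, Pi.smul_apply, smul_eq_mul, ← mul_sum,
        RingHom.id_apply]
      ring
    · simp [Φ1]

def ex (N r : ℕ) : (K N r → ℝ) →ₗ[ℝ] ((ℕ → ℝ) × (ℕ → ℝ)) where
  toFun z := (fun k => if h : k < N then z (Sum.inl (false, 0, ⟨k, h⟩)) else 0,
    fun j => if h : j + 3 < N then z (Sum.inl (false, 1, ⟨j, by omega⟩)) else 0)
  map_add' p q := by
    ext k <;> simp only [Pi.add_apply, Prod.mk_add_mk] <;> split_ifs <;> simp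
  map_smul' c q := by
    ext k <;> simp only [Pi.smul_apply, Prod.smul_mk, RingHom.id_apply] <;> split_ifs <;> simp

theorem ex_Φ (N r : ℕ) (a e : ℕ → ℝ) (ha : ∀ k, N ≤ k → a k = 0) (he : ∀ j, N ≤ j + 3 → e j = 0) :
    ex N r (Φ N r (a, e)) = (a, e) := by
  ext k
  · show (if h : k < N then Φ0 N a e 0 k else 0) = a k
    split_ifs with h
    · simp [Φ0]
    · exact (ha k (by omega)).symm
  · show (if h : k + 3 < N then Φ0 N a e 1 k else 0) = e k
    split_ifs with h
    · simp [Φ0]
    · exact (he k (by omega)).symm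

theorem sum_Φ (N r : ℕ) (a e : ℕ → ℝ) :
    ∑ c, Φ N r (a, e) c = 7 * N * ∑ k ∈ range N, a k := by
  show ∑ c, Φ1 N r a e c = _
  simp only [Fintype.sum_sum_type, Fintype.sum_prod_type, Fintype.sum_bool, Φ1, sum_const_zero,
    add_zero, ← sum_add_distrib, sub_add_cancel, sum_const, card_univ, Fintype.card_fin,
    nsmul_eq_mul]
  push_cast
  ring

noncomputable def aP (k : ℕ) : ℕ → ℝ := fun i => if i = k then 1 else 0
noncomputable def eP (N : ℕ) (b : Bool) (k : ℕ) : ℕ → ℝ := fun j =>
  if j + 3 < N ∧ (if b then j = k ∨ j + 1 = k else j + 3 = k) then 1 else 0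

theorem sum_aP {N k : ℕ} (hk : k < N) : ∑ i ∈ range N, aP k i = 1 := by
  simp [aP, hk]

theorem Φ0_01 {N k : ℕ} (hk : k < N) (b : Bool) (t : Fin 7) (j : ℕ) :
    Φ0 N (aP k) (eP N b k) t j = 0 ∨ Φ0 N (aP k) (eP N b k) t j = 1 := by
  unfold Φ0
  rw [sum_aP hk]
  cases b <;> simp only [aP, eP, Bool.false_eq_true, if_false, if_true] <;> split_ifs <;>
    first | omega | simp

theorem Φ_01 {N k : ℕ} (r : ℕ) (hk : k < N) (b : Bool) (c : K N r) :
    Φ N r (aP k, eP N b k) c = 0 ∨ Φ N r (aP k, eP N b k) c = 1 := by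
  show Φ1 N r _ _ c = 0 ∨ Φ1 N r _ _ c = 1
  rcases c with ⟨_ | _, t, j⟩ | c
  · exact Φ0_01 hk b t j
  · simp only [Φ1, sum_aP hk]
    rcases Φ0_01 hk b t j with h | h <;> simp [h]
  · simp [Φ1]

theorem pattern {N k : ℕ} (hN : 6 ≤ N) (hk : k < N) (e : ℕ → ℝ)
    (h0 : ∀ j, N ≤ j + 3 → e j = 0)
    (h : ∀ (t : Fin 7) (j : ℕ), j < N → Φ0 N (aP k) e t j = 0 ∨ Φ0 N (aP k) e t j = 1) :
    ∃ b, e = eP N b k := by
  have F0 : ∀ j, e j = 0 ∨ e j = 1 := by
    intro j
    by_cases hj : j < N
    · simpa [Φ0] using h 1 j hj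
    · exact Or.inl (h0 j (by omega))
  have F1 : ∀ j, k ≠ j → k ≠ j + 1 → k ≠ j + 3 → e j = 0 := by
    intro j a1 a2 a3
    by_cases hj : j + 3 < N
    · have := h 2 j (by omega)
      unfold Φ0 at this
      rw [sum_aP hk] at this
      simp only [aP, hj, a1.symm, a2.symm, a3.symm] at this
      simp at this
      rcases F0 j with h1 | h1
      · exact h1
      · rw [h1] at this; norm_num at this
    · exact h0 j (by omega)
  have F2 : ∀ j, j + 4 < N → k = j + 1 → e (j + 1) = e j := by
    intro j hj a1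
    have h3 := h 3 j (by omega)
    have h4 := h 4 j (by omega)
    simp only [Φ0, aP, hj, a1] at h3 h4
    simp at h3 h4
    rcases h3 with h3 | h3 <;> rcases h4 with h4 | h4 <;> linarith
  have F3 : ∀ j, j + 5 < N → k = j + 3 → e j + e (j + 2) = 1 := by
    intro j hj a1
    have h3 := h 5 j (by omega)
    have h4 := h 6 j (by omega)
    simp only [Φ0, aP, hj, a1] at h3 h4
    simp at h3 h4
    rcases h3 with h3 | h3 <;> rcases h4 with h4 | h4 <;> linarith
  have fin : ∀ (b : Bool) (v : ℝ), v = (if b then 1 else 0) → (k + 3 < N → e k = v) →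
      (∀ j, j + 1 = k → j + 3 < N → e j = v) → (∀ j, j + 3 = k → e j = 1 - v) → e = eP N b k := by
    intro b v hv g1 g2 g3
    funext j
    unfold eP
    by_cases hj : j + 3 < N
    · by_cases a1 : j = k
      · subst a1
        rw [g1 hj, hv]
        cases b <;> simp [hj]
      by_cases a2 : j + 1 = k
      · rw [g2 j a2 hj, hv]
        cases b <;> simp [hj, a2]
        omega
      by_cases a3 : j + 3 = k
      · rw [g3 j a3, hv]
        cases b <;> simp [hj, a1, a2, a3]
        omega
      · rw [F1 j (Ne.symm a1) (Ne.symm a2) (Ne.symm a3)]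
        cases b <;> simp [a1, a2, a3]
    · rw [h0 j (by omega)]
      simp [hj]
  by_cases hk3 : 3 ≤ k
  · obtain ⟨i, rfl⟩ : ∃ i, k = i + 3 := ⟨k - 3, by omega⟩
    have g2 : ∀ j, j + 1 = i + 3 → j + 3 < N → e j = 1 - e i := by
      intro j a1 a2
      obtain rfl : j = i + 2 := by omega
      linarith [F3 i (by omega) rfl]
    have g1 : i + 3 + 3 < N → e (i + 3) = 1 - e i := by
      intro a1
      rw [F2 (i + 2) (by omega) rfl, g2 (i + 2) rfl (by omega)]
    have g3 : ∀ j, j + 3 = i + 3 → e j = 1 - (1 - e i) := by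
      intro j a1
      obtain rfl : j = i := by omega
      ring
    rcases F0 i with h1 | h1
    · exact ⟨true, fin true _ (by simp [h1]) g1 g2 g3⟩
    · exact ⟨false, fin false _ (by simp [h1]) g1 g2 g3⟩
  · have g2 : ∀ j, j + 1 = k → j + 3 < N → e j = e k := by
      intro j a1 a2
      rw [← a1, F2 j (by omega) a1.symm]
    rcases F0 k with h1 | h1
    · exact ⟨false, fin false _ (by simp [h1]) (fun _ => rfl) g2 (fun j _ => by omega)⟩
    · exact ⟨true, fin true _ (by simp [h1]) (fun _ => rfl) g2 (fun j _ => by omega)⟩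

noncomputable def val {κ : Type} (x : κ → Bool) : κ → ℝ := fun c => if x c then 1 else 0

theorem hull {N r : ℕ} (hN : 6 ≤ N) (x : K N r → Bool) (h : val x = Φ N r (ex N r (val x)))
    (hw : ∑ c, val x c = 7 * N) : ∃ k < N, ∃ b, val x = Φ N r (aP k, eP N b k) := by
  have v01 : ∀ c, val x c = 0 ∨ val x c = 1 := fun c => by unfold val; split_ifs <;> simp
  obtain ⟨a, e, hae⟩ : ∃ a e, ex N r (val x) = (a, e) := ⟨_, _, rfl⟩
  have ha : ∀ k, a k = if h : k < N then val x (Sum.inl (false, 0, ⟨k, h⟩)) else 0 :=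
    fun k => (congrFun (congrArg Prod.fst hae) k).symm
  have he : ∀ j, N ≤ j + 3 → e j = 0 := by
    intro j hj
    have : e j = if h : j + 3 < N then val x (Sum.inl (false, 1, ⟨j, by omega⟩)) else 0 :=
      (congrFun (congrArg Prod.snd hae) j).symm
    rw [this, dif_neg (by omega)]
  rw [hae] at h
  have hs : ∑ k ∈ range N, a k = 1 := by
    rw [h, sum_Φ] at hw
    have : (0 : ℝ) < 7 * N := by have : (6 : ℝ) ≤ N := by exact_mod_cast hN
                                 linarith
    exact mul_left_cancel₀ this.ne' (by rw [hw, mul_one])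
  have a01 : ∀ k, a k = 0 ∨ a k = 1 := by
    intro k
    rw [ha]
    split_ifs
    · exact v01 _
    · exact Or.inl rfl
  obtain ⟨k, hk, hak⟩ : ∃ k < N, a k = 1 := by
    by_contra hc
    push Not at hc
    rw [sum_eq_zero (fun k hk => (a01 k).resolve_right (hc k (mem_range.mp hk)))] at hs
    norm_num at hs
  have hak' : a = aP k := by
    funext i
    unfold aP
    split_ifs with hi
    · rw [hi, hak]
    by_cases hiN : i < N
    · refine (a01 i).resolve_right fun h1 => ?_
      have := sum_le_sum_of_subset_of_nonneg (s := {i, k}) (t := range N) (f := a)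
        (by intro y hy; simp only [mem_insert, mem_singleton] at hy
            rcases hy with rfl | rfl <;> simpa)
        (fun y _ _ => by rcases a01 y with h | h <;> simp [h])
      rw [sum_pair hi, hs, h1, hak] at this
      norm_num at this
    · rw [ha, dif_neg hiN]
  subst hak'
  obtain ⟨b, hb⟩ := pattern hN hk e he (fun t j hj => by
    have := v01 (Sum.inl (false, t, ⟨j, hj⟩))
    rw [h] at this
    exact this)
  exact ⟨k, hk, b, hb ▸ h⟩

theorem growth (m : ℕ) (p : ℕ → ℕ) (h : ∀ j, j + 3 < 3 * m + 3 → p (j + 3) = p j + p (j + 1))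
    (hp : ∃ k < 3 * m + 3, 0 < p k) : 2 ^ m ≤ p (3 * m) + p (3 * m + 1) + p (3 * m + 2) := by
  have h0 : 1 ≤ p 0 + p 1 + p 2 := by
    by_contra hc
    have : ∀ k, k < 3 * m + 3 → p k = 0 := by
      intro k
      induction k using Nat.strong_induction_on with
      | _ k ih =>
        intro hk
        by_cases h3 : k < 3
        · interval_cases k <;> omega
        · obtain ⟨j, rfl⟩ : ∃ j, k = j + 3 := ⟨k - 3, by omega⟩
          rw [h j hk, ih j (by omega) (by omega), ih (j + 1) (by omega) (by omega)]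
    obtain ⟨k, hk, hk'⟩ := hp
    have := this k hk
    omega
  have : ∀ i ≤ m, 2 ^ i ≤ p (3 * i) + p (3 * i + 1) + p (3 * i + 2) := by
    intro i
    induction i with
    | zero => intro _; simpa using h0
    | succ i ih =>
      intro hi
      have e0 := ih (by omega)
      have e1 := h (3 * i) (by omega)
      have e2 := h (3 * i + 1) (by omega)
      have e3 := h (3 * i + 2) (by omega)
      rw [show 3 * (i + 1) = 3 * i + 3 by ring, pow_succ]
      rw [show 3 * i + 1 + 3 = 3 * i + 3 + 1 by ring] at e2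
      rw [show 3 * i + 2 + 3 = 3 * i + 3 + 2 by ring] at e3
      rw [show 3 * i + 1 + 1 = 3 * i + 2 by ring] at e2
      rw [show 3 * i + 2 + 1 = 3 * i + 3 by ring] at e3
      omega
  exact this m le_rfl

def pad : ℕ → ℕ
  | 0 => 1
  | 1 => 1
  | 2 => 1
  | j + 3 => pad j + pad (j + 1)

theorem eP_true {N : ℕ} (k j : ℕ) (hj : j + 3 < N) : eP N true k j = aP k j + aP k (j + 1) := by
  simp only [eP, aP, hj, true_and, if_true]
  split_ifs <;> first | omega | simp

theorem eP_false {N : ℕ} (k j : ℕ) (hj : j + 3 < N) : eP N false k j = aP k (j + 3) := by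
  simp [eP, aP, hj]

theorem eP_out {N : ℕ} (b : Bool) (k j : ℕ) (hj : N ≤ j + 3) : eP N b k j = 0 := by
  unfold eP
  rw [if_neg]
  omega

theorem main (m r : ℕ) (hm : 1 ≤ m) : ∃ f : (K (3 * m + 3) r → Bool) → Bool, Monotone f ∧
    ¬ Weighted f ∧ ∀ j, 1 ≤ j → Trade f j → 2 ^ m ≤ j := by
  classical
  set N := 3 * m + 3 with hN
  let D : (K N r → ℝ) →ₗ[ℝ] (K N r → ℝ) := LinearMap.id - (Φ N r).comp (ex N r)
  obtain ⟨g0, hg0⟩ := Module.exists_dual_forall_apply_ne_zero (K := ℝ)
    (fun x : {x : K N r → Bool // D (val x) ≠ 0} => D (val x.1)) (fun x => x.2)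
  let g := g0.comp D
  have hg : ∀ x, g (val x) = 0 → val x = Φ N r (ex N r (val x)) := by
    intro x hx
    by_contra hc
    exact hg0 ⟨x, fun h => hc (sub_eq_zero.mp h)⟩ hx
  have exP : ∀ k < N, ∀ b, ex N r (Φ N r (aP k, eP N b k)) = (aP k, eP N b k) := fun k hk b =>
    ex_Φ N r _ _ (fun i hi => if_neg (by omega)) (eP_out b k)
  have gP : ∀ k < N, ∀ b, g (Φ N r (aP k, eP N b k)) = 0 := by
    intro k hk b
    have : D (Φ N r (aP k, eP N b k)) = 0 := by
      show _ - Φ N r (ex N r _) = 0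
      rw [exP k hk b]
      exact sub_self _
    show g0 (D _) = 0
    rw [this, map_zero]
  let F : (K N r → Bool) → Prop := fun x => (7 * N : ℝ) < ∑ c, val x c ∨ (∑ c, val x c = 7 * N ∧
    (0 < g (val x) ∨ ∃ k < N, val x = Φ N r (aP k, eP N true k)))
  let pt : ℕ → Bool → K N r → Bool := fun k b c => decide (Φ N r (aP k, eP N b k) c = 1)
  have hpt : ∀ k < N, ∀ b, val (pt k b) = Φ N r (aP k, eP N b k) := by
    intro k hk b
    funext c
    rcases Φ_01 r hk b c with h | h <;> simp [val, pt, h]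
  have hwt : ∀ k < N, ∀ b, ∑ c, Φ N r (aP k, eP N b k) c = 7 * N := by
    intro k hk b
    rw [sum_Φ, sum_aP hk, mul_one]
  refine ⟨fun x => decide (F x), ?_, ?_, ?_⟩
  · intro x y hxy
    rw [Bool.le_iff_imp]
    simp only [decide_eq_true_eq]
    intro hx
    by_cases he : x = y
    · exact he ▸ hx
    left
    have h1 : (7 * N : ℝ) ≤ ∑ c, val x c := by
      rcases hx with h | h
      · exact h.le
      · exact h.1.ge
    refine lt_of_le_of_lt h1 (sum_lt_sum ?_ ?_)
    · intro c _
      have := hxy c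
      unfold val
      cases hx : x c <;> cases hy : y c <;> simp_all
      exact absurd this (not_le.mpr Bool.false_lt_true)
    · obtain ⟨c, hc⟩ := Function.ne_iff.mp he
      refine ⟨c, mem_univ _, ?_⟩
      have := hxy c
      unfold val
      cases hx : x c <;> cases hy : y c <;> simp_all
      exact absurd this (not_le.mpr Bool.false_lt_true)
  · rintro ⟨w, q, hw⟩
    let L : (K N r → ℝ) →ₗ[ℝ] ℝ := ∑ c, w c • LinearMap.proj c
    have hL : ∀ x, L (val x) = ∑ i, w i * (if x i then 1 else 0) := by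
      intro x
      simp [L, val, LinearMap.sum_apply]
    have t1 : ∀ k < N, q ≤ L (Φ N r (aP k, eP N true k)) := by
      intro k hk
      rw [← hpt k hk, hL, ← hw, decide_eq_true_eq]
      right
      rw [hpt k hk]
      exact ⟨hwt k hk _, Or.inr ⟨k, hk, rfl⟩⟩
    have t2 : ∀ k < N, L (Φ N r (aP k, eP N false k)) < q := by
      intro k hk
      rw [← hpt k hk, hL, ← not_le, ← hw, decide_eq_true_eq]
      simp only [F]
      rw [hpt k hk, hwt k hk, gP k hk]
      rintro (h | ⟨-, h | ⟨l, hl, h⟩⟩)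
      · exact lt_irrefl _ h
      · exact lt_irrefl _ h
      have h1 := congrArg (ex N r) h
      rw [exP k hk, exP l hl] at h1
      have h2 := congrFun (congrArg Prod.fst h1) k
      have h3 := congrArg Prod.snd h1
      have hlk : k = l := by
        by_contra hc
        simp [aP, hc] at h2
      subst hlk
      by_cases h4 : k + 3 < N
      · have := congrFun h3 k
        simp [eP, h4] at this
      · have := congrFun h3 (k - 3)
        have a1 : k - 3 + 3 = k := by omega
        have a2 : k - 3 ≠ k := by omega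
        have a3 : k - 3 + 1 ≠ k := by omega
        simp [eP, a1, a2, a3, hk] at this
    have dep : ∑ k ∈ range N, (pad k : ℝ) • (aP k, eP N true k) =
        ∑ k ∈ range N, (pad k : ℝ) • (aP k, eP N false k) := by
      ext j
      · simp [Prod.fst_sum]
      · simp only [Prod.snd_sum, Prod.smul_mk, Finset.sum_apply, Pi.smul_apply, smul_eq_mul]
        by_cases hj : j + 3 < N
        · simp only [eP_true _ _ hj, eP_false _ _ hj, mul_add, sum_add_distrib, aP]
          have a1 : j < N := by omega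
          have a2 : j + 1 < N := by omega
          simp [a1, a2, hj, pad]
        · simp [eP_out _ _ _ (not_lt.mp hj)]
    have dep2 := congrArg (L.comp (Φ N r)) dep
    simp only [map_sum, map_smul, smul_eq_mul, LinearMap.comp_apply] at dep2
    refine absurd dep2 (ne_of_gt (sum_lt_sum ?_ ⟨0, by simp [hN], ?_⟩))
    · intro k hk
      have hk := mem_range.mp hk
      exact mul_le_mul_of_nonneg_left ((t2 k hk).le.trans (t1 k hk)) (Nat.cast_nonneg _)
    · exact mul_lt_mul_of_pos_left ((t2 0 (by omega)).trans_le (t1 0 (by omega))) (by simp [pad])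
  · rintro J hJ ⟨x, y, hx, hy, hxy⟩
    simp only [decide_eq_true_eq, decide_eq_false_iff_not] at hx hy
    have hsum : ∑ t, val (x t) = ∑ t, val (y t) := by
      funext c
      simp only [Finset.sum_apply, val]
      exact_mod_cast hxy c
    have squeeze : ∀ (u v : Fin J → ℝ) (c : ℝ), (∀ t, c ≤ u t) → (∀ t, v t ≤ c) →
        ∑ t, u t = ∑ t, v t → (∀ t, u t = c) ∧ ∀ t, v t = c := by
      intro u v c hu hv huv
      have e1 : ∑ t, (u t - c) + ∑ t, (c - v t) = 0 := by
        simp only [sum_sub_distrib]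
        linarith
      have e2 : 0 ≤ ∑ t, (u t - c) := sum_nonneg fun t _ => sub_nonneg.mpr (hu t)
      have e3 : 0 ≤ ∑ t, (c - v t) := sum_nonneg fun t _ => sub_nonneg.mpr (hv t)
      constructor
      · intro t
        have := (sum_eq_zero_iff_of_nonneg (fun t _ => sub_nonneg.mpr (hu t))).mp
          (by linarith : ∑ t, (u t - c) = 0) t (mem_univ _)
        linarith
      · intro t
        have := (sum_eq_zero_iff_of_nonneg (fun t _ => sub_nonneg.mpr (hv t))).mp
          (by linarith : ∑ t, (c - v t) = 0) t (mem_univ _)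
        linarith
    obtain ⟨w1, w2⟩ := squeeze (fun t => ∑ c, val (x t) c) (fun t => ∑ c, val (y t) c) (7 * N)
      (fun t => by
        rcases hx t with h | h
        · exact h.le
        · exact h.1.ge)
      (fun t => not_lt.mp fun h => hy t (Or.inl h))
      (by rw [sum_comm, sum_comm (f := fun t c => val (y t) c)]
          refine sum_congr rfl fun c _ => ?_
          simpa only [Finset.sum_apply] using congrFun hsum c)
    obtain ⟨g1, g2⟩ := squeeze (fun t => g (val (x t))) (fun t => g (val (y t))) 0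
      (fun t => by
        rcases hx t with h | ⟨-, h | ⟨k, hk, h⟩⟩
        · exact absurd (w1 t) h.ne'
        · exact h.le
        · exact (h ▸ gP k hk true).ge)
      (fun t => not_lt.mp fun h => hy t (Or.inr ⟨w2 t, Or.inl h⟩))
      (by rw [← map_sum, ← map_sum, hsum])
    have hx' : ∀ t, ∃ k < N, val (x t) = Φ N r (aP k, eP N true k) := by
      intro t
      rcases hx t with h | ⟨-, h | h⟩
      · exact absurd (w1 t) h.ne'
      · exact absurd (g1 t) h.ne'
      · exact h
    have hy' : ∀ t, ∃ k < N, val (y t) = Φ N r (aP k, eP N false k) := by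
      intro t
      obtain ⟨k, hk, b, h⟩ := hull (by omega) (y t) (hg _ (g2 t)) (w2 t)
      cases b
      · exact ⟨k, hk, h⟩
      · exact absurd (Or.inr ⟨w2 t, Or.inr ⟨k, hk, h⟩⟩) (hy t)
    choose k hk hk' using hx'
    choose l hl hl' using hy'
    have e1 := congrArg (ex N r) hsum
    simp only [map_sum, hk', hl', exP _ (hk _), exP _ (hl _)] at e1
    let p : ℕ → ℕ := fun i => (univ.filter (fun t => i = k t)).card
    have hp : ∀ i, (p i : ℝ) = ∑ t, aP (k t) i := by
      intro i
      simp [p, aP]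
    have hp' : ∀ i, (p i : ℝ) = ∑ t, aP (l t) i := by
      intro i
      rw [hp]
      simpa [Prod.fst_sum, Finset.sum_apply] using congrFun (congrArg Prod.fst e1) i
    have hrec : ∀ j, j + 3 < 3 * m + 3 → p (j + 3) = p j + p (j + 1) := by
      intro j hj
      have := congrFun (congrArg Prod.snd e1) j
      have hj : j + 3 < N := hj
      simp only [Prod.snd_sum, Finset.sum_apply, eP_true _ _ hj, eP_false _ _ hj, sum_add_distrib,
        ← hp, ← hp'] at this
      exact_mod_cast this.symm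
    have := growth m p hrec ⟨k ⟨0, hJ⟩, hk _, card_pos.mpr ⟨⟨0, hJ⟩, by simp⟩⟩
    refine this.trans ?_
    simp only [p, card_filter, ← sum_add_distrib]
    refine le_trans (sum_le_sum (g := fun _ => 1) fun t _ => ?_) (by simp)
    split_ifs <;> omega

theorem main_fin (m n : ℕ) (hm : 1 ≤ m) (hn : 42 * (m + 1) ≤ n) :
    ∃ f : (Fin n → Bool) → Bool, Monotone f ∧ ¬ Weighted f ∧
      ∀ j, 1 ≤ j → Trade f j → 2 ^ m ≤ j := by
  obtain ⟨f, h1, h2, h3⟩ := main m (n - 42 * (m + 1)) hm
  let e : K (3 * m + 3) (n - 42 * (m + 1)) ≃ Fin n := Fintype.equivFinOfCardEq (by simp; omega)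
  refine ⟨fun x => f (x ∘ e), fun x y hxy => h1 (fun c => hxy (e c)), ?_, ?_⟩
  · rintro ⟨w, q, hw⟩
    refine h2 ⟨w ∘ e, q, fun x => ?_⟩
    have := hw (x ∘ e.symm)
    simp only [Function.comp_assoc, Equiv.symm_comp_self, Function.comp_id] at this
    rw [this, ← Equiv.sum_comp e]
    simp
  · rintro j hj ⟨x, y, hx, hy, hxy⟩
    exact h3 j hj ⟨fun t => x t ∘ e, fun t => y t ∘ e, hx, hy, fun i => hxy (e i)⟩

end Pool.Agent.H19Trade
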