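import Mathlib

set_option autoImplicit false

namespace Pool.Agent.H19Tree

open SimpleGraph

variable {ι : Type*} {T : SimpleGraph ι}

theorem parent_unique (hT : T.IsTree) (ρ i a b : ι) (ha : T.Adj i a) (hb : T.Adj i b)
    (h1 : T.dist ρ a < T.dist ρ i) (h2 : T.dist ρ b < T.dist ρ i) : a = b := by
  classical
  obtain ⟨q, hq, -⟩ := hT.connected.exists_path_of_dist ρ i
  have key : ∀ a, T.Adj i a → T.dist ρ a < T.dist ρ i → a = q.penultimate := by
    intro a ha h1
    obtain ⟨p, hp, hl⟩ := hT.connected.exists_path_of_dist ρ a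
    have hi : i ∉ p.support := by
      intro hi
      have h3 := T.dist_le (p.takeUntil i hi)
      have h4 := p.length_takeUntil_le_length hi
      omega
    exact hT.isAcyclic.eq_penultimate_of_adj_end hq ha
      (hT.isAcyclic.mem_support_of_ne_mem_support_of_adj_of_isPath hq hp ha hi)
  rw [key a ha h1, key b hb h2]

theorem down_path (hT : T.IsTree) (ρ : ι) {x y : ι} (p : T.Walk x y) (hp : p.IsPath) :
    ∀ z, T.Adj x z → z ∉ p.support → T.dist ρ z < T.dist ρ x → T.dist ρ x ≤ T.dist ρ y := by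
  induction p with
  | nil => intro _ _ _ _; exact le_rfl
  | @cons x x' y h p ih =>
    intro z hz hzs hlt
    rw [Walk.cons_isPath_iff] at hp
    have hne := hT.dist_ne_of_adj ρ h
    rcases lt_or_gt_of_ne hne with h1 | h1
    · exact h1.le.trans (ih hp.1 x h.symm hp.2 h1)
    · exfalso
      apply hzs
      rw [parent_unique hT ρ x z x' hz h hlt h1]
      simp

theorem exists_up (hT : T.IsTree) (ρ : ι) (S : Set ι) (hS : (T.induce S).Connected) (t i : ι)
    (ht : t ∈ S) (hi : i ∈ S) (hmin : T.dist ρ t ≤ T.dist ρ i) (hne : i ≠ t) :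
    ∃ j ∈ S, T.Adj i j ∧ T.dist ρ j < T.dist ρ i := by
  classical
  obtain ⟨q0⟩ := hS.preconnected ⟨i, hi⟩ ⟨t, ht⟩
  obtain ⟨q, hq⟩ := q0.toPath
  have hne' : (⟨i, hi⟩ : S) ≠ ⟨t, ht⟩ := fun h => hne (congrArg Subtype.val h)
  have key : ∀ (a b : S) (q : (T.induce S).Walk a b), q.IsPath → a ≠ b →
      T.dist ρ b ≤ T.dist ρ a → ∃ j ∈ S, T.Adj a j ∧ T.dist ρ j < T.dist ρ a := by
    intro a b q hq hab hmin
    cases q with
    | nil => exact absurd rfl hab
    | @cons _ j _ h p =>
      rw [Walk.cons_isPath_iff] at hq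
      have hadj : T.Adj a j := h
      refine ⟨j.1, j.2, hadj, ?_⟩
      have hne := hT.dist_ne_of_adj ρ hadj
      rcases lt_or_gt_of_ne hne with h1 | h1
      · exfalso
        have hinj : Function.Injective (Embedding.induce S : T.induce S ↪g T).toHom :=
          (Embedding.induce S : T.induce S ↪g T).injective
        have := down_path hT ρ (p.map (Embedding.induce S).toHom)
          (Walk.map_isPath_of_injective hinj hq.1) a hadj.symm (by
            rw [Walk.support_map, List.mem_map]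
            rintro ⟨c, hc, hca⟩
            have : c = a := Subtype.ext hca
            exact hq.2 (this ▸ hc)) h1
        have h2 : T.dist ρ j ≤ T.dist ρ b := this
        omega
      · exact h1
  exact key _ _ q hq hne' hmin

/-- Each subtree has a top node, and the lower top of two meeting subtrees lies in both. -/
theorem exists_top {V : Type*} (hT : T.IsTree) (S : V → Set ι)
    (hS : ∀ v, (T.induce (S v)).Connected) :
    ∃ (top : V → ι) (d : V → ℕ), (∀ v, top v ∈ S v) ∧
      ∀ u v, d u ≤ d v → (∃ i, i ∈ S u ∧ i ∈ S v) → top v ∈ S u := by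
  classical
  obtain ⟨ρ⟩ := hT.connected.nonempty
  have hex : ∀ v, ∃ t ∈ S v, ∀ i ∈ S v, T.dist ρ t ≤ T.dist ρ i := by
    intro v
    obtain ⟨⟨i0, hi0⟩⟩ := (hS v).nonempty
    have h : ∃ n, ∃ t ∈ S v, T.dist ρ t = n := ⟨_, i0, hi0, rfl⟩
    obtain ⟨t, ht, hn⟩ := Nat.find_spec h
    exact ⟨t, ht, fun i hi => hn ▸ Nat.find_min' h ⟨i, hi, rfl⟩⟩
  choose top h1 h2 using hex
  refine ⟨top, fun v => T.dist ρ (top v), h1, ?_⟩
  rintro u v huv ⟨i, hu, hv⟩
  induction hn : T.dist ρ i using Nat.strong_induction_on generalizing i with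
  | _ n ih =>
    by_cases hiv : i = top v
    · exact hiv ▸ hu
    obtain ⟨j, hj, hij, hlt⟩ := exists_up hT ρ (S v) (hS v) (top v) i (h1 v) hv (h2 v i hv) hiv
    by_cases hiu : i = top u
    · have := h2 v j hj
      have huv' : T.dist ρ (top u) ≤ T.dist ρ (top v) := huv
      rw [← hiu] at huv'
      omega
    obtain ⟨j', hj', hij', hlt'⟩ := exists_up hT ρ (S u) (hS u) (top u) i (h1 u) hu (h2 u i hu) hiu
    have : j = j' := parent_unique hT ρ i j j' hij hij' hlt hlt'
    subst this
    exact ih _ (hn ▸ hlt) j hj' hj rfl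

end Pool.Agent.H19Tree
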