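import Mathlib

/-! Two ultrafilters diagonalising against continuum many tasks. -/

namespace Pool.Agent.Lib.helper19.TwoUltra

open Filter Topology Cardinal

def lit {I : Type} (A : I → Set ℕ) (p : Finset I) (ε : I → Bool) : Set ℕ :=
  {x | ∀ i ∈ p, (x ∈ A i ↔ ε i = true)}

theorem exists_indep : ∃ A : Set ℕ → Set ℕ, ∀ p ε, (lit A p ε).Infinite := by
  classical
  let tr : ℕ → Set ℕ → Finset ℕ := fun n X => (Finset.range n).filter (· ∈ X)
  refine ⟨fun X => {x | tr (Nat.unpair x).2 X ∈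
    ((Encodable.decode (Nat.unpair x).1 : Option (Finset (Finset ℕ)))).getD ∅}, fun p ε => ?_⟩
  have h1 : ∀ i j : Set ℕ, ∃ k, i ≠ j → ¬ (k ∈ i ↔ k ∈ j) := by
    intro i j
    by_cases h : i = j
    · exact ⟨0, fun h' => absurd h h'⟩
    · by_contra hn
      push Not at hn
      exact h (Set.ext fun k => (hn k).2)
  choose f hf using h1
  apply Set.infinite_of_forall_exists_gt
  intro a
  set n := max (a + 1) ((p ×ˢ p).sup (fun q => f q.1 q.2) + 1) with hn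
  refine ⟨Nat.pair (Encodable.encode ((p.filter fun i => ε i = true).image (tr n))) n, ?_,
    lt_of_lt_of_le (by omega) (Nat.right_le_pair _ _)⟩
  intro i hi
  simp only [Set.mem_ofPred_eq, Nat.unpair_pair, Encodable.encodek, Option.getD_some,
    Finset.mem_image, Finset.mem_filter]
  constructor
  · rintro ⟨j, ⟨hj, hε⟩, e⟩
    by_cases hij : j = i
    · exact hij ▸ hε
    · exfalso
      apply hf j i hij
      have hlt : f j i < n := by
        have := Finset.le_sup (f := fun q : Set ℕ × Set ℕ => f q.1 q.2)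
          (Finset.mem_product.2 ⟨hj, hi⟩ : (j, i) ∈ p ×ˢ p)
        simp only at this
        omega
      have := congrArg (f j i ∈ ·) e
      simpa [tr, hlt] using this
  · exact fun h => ⟨i, ⟨hi, h⟩, rfl⟩

theorem side {I : Type} (A : I → Set ℕ) (S : Set (Set ℕ)) (K : Set I)
    (hS : ∀ E ∈ S, ∀ E' ∈ S, E ∩ E' ∈ S)
    (H : ∀ E ∈ S, ∀ p : Finset I, (∀ j ∈ p, j ∉ K) → ∀ ε, (E ∩ lit A p ε).Infinite)
    (i : I) (hi : i ∉ K) (C : Set ℕ) :
    (∃ (D : Set ℕ) (J : Finset I), D ⊆ C ∧ ∀ E ∈ S, ∀ p : Finset I, (∀ j ∈ p, j ∉ K ∧ j ∉ J) →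
      ∀ ε, (E ∩ D ∩ lit A p ε).Infinite) ∨
    (∀ E ∈ S, ∀ p : Finset I, (∀ j ∈ p, j ∉ K ∧ j ≠ i) →
      ∀ ε, (E ∩ (A i \ C) ∩ lit A p ε).Infinite) := by
  classical
  by_contra hcon
  rw [not_or] at hcon
  obtain ⟨h1, h2⟩ := hcon
  apply h2
  intro E hE p hp ε
  let ε' : I → Bool := Function.update ε i true
  simp only [not_exists, not_and, not_forall] at h1
  obtain ⟨E', hE', q, hq, δ, hfin⟩ := h1 (C ∩ lit A (insert i p) ε') (insert i p)
    Set.inter_subset_left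
  rw [Set.not_infinite] at hfin
  have := H (E ∩ E') (hS E hE E' hE') (insert i p ∪ q) (by
    intro j hj
    rcases Finset.mem_union.1 hj with h | h
    · rcases Finset.mem_insert.1 h with h | h
      · exact h ▸ hi
      · exact (hp j h).1
    · exact (hq j h).1) (fun j => if j ∈ insert i p then ε' j else δ j)
  refine (this.sdiff hfin).mono ?_
  rintro x ⟨⟨⟨x1, x2⟩, x3⟩, x4⟩
  have a1 : x ∈ lit A (insert i p) ε' := fun j hj => by
    have := x3 j (Finset.mem_union_left _ hj)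
    simpa only [if_pos hj] using this
  have a2 : x ∈ lit A q δ := fun j hj => by
    have := x3 j (Finset.mem_union_right _ hj)
    simpa only [if_neg (hq j hj).2] using this
  refine ⟨⟨x1, ?_, fun hC => x4 ⟨⟨x2, hC, a1⟩, a2⟩⟩, fun j hj => ?_⟩
  · exact (a1 i (Finset.mem_insert_self _ _)).2 (by simp [ε'])
  · have := a1 j (Finset.mem_insert_of_mem hj)
    simpa only [ε', Function.update_of_ne (hp j hj).2] using this

theorem neg_lit {I : Type} (A : I → Set ℕ) (S : Set (Set ℕ)) (K : Set I)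
    (H : ∀ E ∈ S, ∀ p : Finset I, (∀ j ∈ p, j ∉ K) → ∀ ε, (E ∩ lit A p ε).Infinite)
    (i : I) (hi : i ∉ K) : ∀ E ∈ S, ∀ p : Finset I, (∀ j ∈ p, j ∉ K ∧ j ≠ i) →
      ∀ ε, (E ∩ (A i)ᶜ ∩ lit A p ε).Infinite := by
  classical
  intro E hE p hp ε
  refine (H E hE (insert i p) (fun j hj => by
    rcases Finset.mem_insert.1 hj with h | h
    · exact h ▸ hi
    · exact (hp j h).1) (Function.update ε i false)).mono ?_
  rintro x ⟨x1, x2⟩
  refine ⟨⟨x1, fun h => ?_⟩, fun j hj => ?_⟩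
  · simpa using (x2 i (Finset.mem_insert_self _ _)).1 h
  · have := x2 j (Finset.mem_insert_of_mem hj)
    simpa only [Function.update_of_ne (hp j hj).2] using this

def Kill (C : Set ℕ × Set ℕ) (B : Set ℕ) (D : Bool → Set ℕ) : Prop :=
  ∀ U V : Ultrafilter ℕ, D false ∈ U → D true ∈ V → ¬ ((C.1 ∈ U ∨ C.2 ∈ V) ↔ (B ∈ U ∧ B ∈ V))

theorem step {I : Type} (A : I → Set ℕ) (S : Bool → Set (Set ℕ)) (K : Set I)
    (hS : ∀ s, ∀ E ∈ S s, ∀ E' ∈ S s, E ∩ E' ∈ S s)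
    (H : ∀ s, ∀ E ∈ S s, ∀ p : Finset I, (∀ j ∈ p, j ∉ K) → ∀ ε, (E ∩ lit A p ε).Infinite)
    (i : I) (hi : i ∉ K) (C : Set ℕ × Set ℕ) :
    ∃ x : (Bool → Set ℕ) × Finset I, Kill C (A i) x.1 ∧ ∀ s, ∀ E ∈ S s, ∀ p : Finset I,
      (∀ j ∈ p, j ∉ K ∧ j ∉ x.2) → ∀ ε, (E ∩ x.1 s ∩ lit A p ε).Infinite := by
  classical
  rcases side A (S false) K (hS _) (H _) i hi C.1 with ⟨D, J, h1, h2⟩ | h0
  · refine ⟨(fun s => if s then (A i)ᶜ else D, insert i J), ?_, ?_⟩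
    · intro U V hU hV h
      exact Ultrafilter.compl_mem_iff_notMem.1 hV (h.1 (Or.inl (mem_of_superset hU h1))).2
    · intro s E hE p hp ε
      cases s
      · exact h2 E hE p (fun j hj => ⟨(hp j hj).1, fun h => (hp j hj).2
          (Finset.mem_insert_of_mem h)⟩) ε
      · exact neg_lit A _ K (H _) i hi E hE p (fun j hj => ⟨(hp j hj).1, fun h => (hp j hj).2
          (h ▸ Finset.mem_insert_self _ _)⟩) ε
  rcases side A (S true) K (hS _) (H _) i hi C.2 with ⟨D, J, h1, h2⟩ | h1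
  · refine ⟨(fun s => if s then D else (A i)ᶜ, insert i J), ?_, ?_⟩
    · intro U V hU hV h
      exact Ultrafilter.compl_mem_iff_notMem.1 hU (h.1 (Or.inr (mem_of_superset hV h1))).1
    · intro s E hE p hp ε
      cases s
      · exact neg_lit A _ K (H _) i hi E hE p (fun j hj => ⟨(hp j hj).1, fun h => (hp j hj).2
          (h ▸ Finset.mem_insert_self _ _)⟩) ε
      · exact h2 E hE p (fun j hj => ⟨(hp j hj).1, fun h => (hp j hj).2
          (Finset.mem_insert_of_mem h)⟩) ε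
  · refine ⟨(fun s => if s then A i \ C.2 else A i \ C.1, {i}), ?_, ?_⟩
    · intro U V hU hV h
      rcases h.2 ⟨mem_of_superset hU Set.sdiff_subset, mem_of_superset hV Set.sdiff_subset⟩
        with h' | h'
      · exact Ultrafilter.compl_mem_iff_notMem.1 (mem_of_superset hU fun x hx => hx.2) h'
      · exact Ultrafilter.compl_mem_iff_notMem.1 (mem_of_superset hV fun x hx => hx.2) h'
    · intro s E hE p hp ε
      cases s
      · exact h0 E hE p (fun j hj => ⟨(hp j hj).1, by simpa using (hp j hj).2⟩) ε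
      · exact h1 E hE p (fun j hj => ⟨(hp j hj).1, by simpa using (hp j hj).2⟩) ε

theorem exists_ultra (E : Set (Set ℕ)) (h0 : Set.univ ∈ E) (hE : ∀ a ∈ E, ∀ b ∈ E, a ∩ b ∈ E)
    (hinf : ∀ a ∈ E, a.Infinite) : ∃ U : Ultrafilter ℕ, (U : Filter ℕ) ≤ cofinite ∧ ∀ a ∈ E, a ∈ U := by
  let G : Filter ℕ :=
    { sets := {X | ∃ a ∈ E, (a \ X).Finite}
      univ_sets := ⟨_, h0, by simp⟩
      sets_of_superset := fun ⟨a, ha, h⟩ hxy => ⟨a, ha, h.subset (Set.sdiff_subset_sdiff_right hxy)⟩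
      inter_sets := fun ⟨a, ha, h⟩ ⟨b, hb, h'⟩ => ⟨a ∩ b, hE a ha b hb, (h.union h').subset (by
        rintro x ⟨⟨x1, x2⟩, x3⟩
        by_contra hx
        simp only [Set.mem_union, Set.mem_sdiff, not_or, not_and, not_not] at hx
        exact x3 ⟨hx.1 x1, hx.2 x2⟩)⟩ }
  have : G.NeBot := ⟨fun h => by
    obtain ⟨a, ha, h'⟩ : ∅ ∈ G := h ▸ mem_bot
    exact hinf a ha (by simpa using h')⟩
  refine ⟨Ultrafilter.of G, fun X hX => Ultrafilter.of_le G ⟨_, h0, ?_⟩,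
    fun a ha => Ultrafilter.of_le G ⟨a, ha, by simp⟩⟩
  rw [← Set.compl_eq_univ_sdiff]
  exact hX

theorem diag {A : Set ℕ → Set ℕ} (hA : ∀ p ε, (lit A p ε).Infinite)
    (c : Set ℕ → Set ℕ → Set ℕ × Set ℕ) : ∃ U V : Ultrafilter ℕ, (U : Filter ℕ) ≤ cofinite ∧
      (V : Filter ℕ) ≤ cofinite ∧
      ∀ t, ∃ i, ¬ (((c t i).1 ∈ U ∨ (c t i).2 ∈ V) ↔ (A i ∈ U ∧ A i ∈ V)) := by
  classical
  let T := (𝔠 : Cardinal.{0}).ord.ToType
  obtain ⟨e⟩ : Nonempty (T ≃ Set ℕ) := Cardinal.eq.1 (by simp [T])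
  let X := (Bool → Set ℕ) × Finset (Set ℕ)
  let S : ∀ t : T, (∀ u, u < t → X) → Bool → Set (Set ℕ) := fun t r s =>
    {E | ∃ F : Finset T, E = {x | ∀ u ∈ F, ∀ h : u < t, x ∈ (r u h).1 s}}
  let K : ∀ t : T, (∀ u, u < t → X) → Set (Set ℕ) := fun t r => {j | ∃ u h, j ∈ (r u h).2}
  let R : ∀ t : T, (∀ u, u < t → X) → X → Prop := fun t r x =>
    (∃ i, Kill (c (e t) i) (A i) x.1) ∧ ∀ s, ∀ E ∈ S t r s, ∀ p : Finset (Set ℕ),
      (∀ j ∈ p, j ∉ K t r ∧ j ∉ x.2) → ∀ ε, (E ∩ x.1 s ∩ lit A p ε).Infinite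
  let g : T → X := wellFounded_lt.fix fun t r => Classical.epsilon (R t r)
  have hg : ∀ t, g t = Classical.epsilon (R t fun u _ => g u) := fun t =>
    WellFounded.fix_eq _ _ _
  have key : ∀ F : Finset T, (∀ u ∈ F, R u (fun v _ => g v) (g u)) → ∀ s, ∀ p : Finset (Set ℕ),
      (∀ j ∈ p, ∀ u ∈ F, ∀ v ≤ u, j ∉ (g v).2) → ∀ ε,
      ({x | ∀ u ∈ F, x ∈ (g u).1 s} ∩ lit A p ε).Infinite := by
    intro F hF s p hp ε
    rcases F.eq_empty_or_nonempty with rfl | hne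
    · simpa using hA p ε
    · have hm := F.max'_mem hne
      refine ((hF _ hm).2 s _ ⟨F, rfl⟩ p (fun j hj => ⟨?_, hp j hj _ hm _ le_rfl⟩) ε).mono ?_
      · rintro ⟨u, h, hu⟩
        exact hp j hj _ hm u h.le hu
      · rintro x ⟨⟨x1, x2⟩, x3⟩
        refine ⟨fun u hu => ?_, x3⟩
        rcases (F.le_max' u hu).eq_or_lt with h | h
        · exact h ▸ x2
        · exact x1 u hu h
  have good : ∀ t, R t (fun u _ => g u) (g t) := by
    intro t
    induction t using WellFoundedLT.induction with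
    | ind t ih =>
      rw [hg t]
      apply Classical.epsilon_spec
      obtain ⟨i, hi⟩ : ∃ i, i ∉ K t fun u _ => g u := by
        by_contra hall
        push Not at hall
        have h1 : (Set.univ : Set (Set ℕ)) ⊆ ⋃ u ∈ Set.Iio t, (↑(g u).2 : Set (Set ℕ)) := by
          intro j _
          obtain ⟨u, h, hu⟩ := hall j
          exact Set.mem_biUnion (show u ∈ Set.Iio t from h) hu
        have h2 := (mk_le_mk_of_subset h1).trans (mk_biUnion_le _ _)
        have h3 : #(Set.Iio t) * ⨆ u : Set.Iio t, #(↑(g u.1).2 : Set (Set ℕ)) < 𝔠 :=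
          mul_lt_of_lt aleph0_le_continuum (mk_Iio_toType_ord_lt t)
            (lt_of_le_of_lt (ciSup_le' fun u => (finset_card_lt_aleph0 _).le) aleph0_lt_continuum)
        rw [mk_univ, mk_set_nat] at h2
        exact absurd h2 (not_le.2 h3)
      obtain ⟨x, h1, h2⟩ := step A (S t fun u _ => g u) (K t fun u _ => g u) (by
        rintro s _ ⟨F, rfl⟩ _ ⟨F', rfl⟩
        refine ⟨F ∪ F', ?_⟩
        ext x
        simp only [Set.mem_inter_iff, Set.mem_ofPred_eq, Finset.mem_union, or_imp, forall_and]) (by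
        rintro s _ ⟨F, rfl⟩ p hp ε
        refine (key (F.filter (· < t)) (fun u hu => ih u (Finset.mem_filter.1 hu).2) s p
          (fun j hj u hu v hv h => hp j hj ⟨v, hv.trans_lt (Finset.mem_filter.1 hu).2, h⟩) ε).mono ?_
        rintro x ⟨x1, x2⟩
        exact ⟨fun u hu h => x1 u (Finset.mem_filter.2 ⟨hu, h⟩), x2⟩) i hi (c (e t) i)
      exact ⟨x, ⟨i, h1⟩, h2⟩
  have hU : ∀ s, ∃ U : Ultrafilter ℕ, (U : Filter ℕ) ≤ cofinite ∧ ∀ t, (g t).1 s ∈ U := by
    intro s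
    obtain ⟨U, h1, h2⟩ := exists_ultra {E | ∃ F : Finset T, E = {x | ∀ u ∈ F, x ∈ (g u).1 s}}
      ⟨∅, by simp⟩ (by
        rintro _ ⟨F, rfl⟩ _ ⟨F', rfl⟩
        refine ⟨F ∪ F', ?_⟩
        ext x
        simp only [Set.mem_inter_iff, Set.mem_ofPred_eq, Finset.mem_union, or_imp, forall_and]) (by
        rintro _ ⟨F, rfl⟩
        exact (key F (fun u _ => good u) s ∅ (by simp) (fun _ => true)).mono Set.inter_subset_left)
    exact ⟨U, h1, fun t => h2 _ ⟨{t}, by simp⟩⟩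
  obtain ⟨U, u1, u2⟩ := hU false
  obtain ⟨V, v1, v2⟩ := hU true
  refine ⟨U, V, u1, v1, fun t => ?_⟩
  obtain ⟨i, hi⟩ := (good (e.symm t)).1
  rw [e.apply_symm_apply] at hi
  exact ⟨i, hi U V (u2 _) (v2 _)⟩

theorem closed_enum (Y : Type) [TopologicalSpace Y] [SecondCountableTopology Y] :
    ∃ Γ : Set ℕ → Set Y, ∀ s, IsClosed s → ∃ t, Γ t = s := by
  obtain ⟨b, hb⟩ := ((TopologicalSpace.countable_countableBasis Y).insert ∅).exists_eq_range
    (Set.insert_nonempty _ _)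
  refine ⟨fun t => (⋃ n ∈ t, b n)ᶜ, fun s hs => ⟨{n | b n ⊆ sᶜ}, ?_⟩⟩
  rw [compl_eq_comm]
  apply Set.Subset.antisymm
  · intro y hy
    obtain ⟨v, hv, h1, h2⟩ := (TopologicalSpace.isBasis_countableBasis Y).exists_subset_of_mem_open
      hy hs.isOpen_compl
    obtain ⟨n, rfl⟩ : v ∈ Set.range b := hb ▸ Set.mem_insert_of_mem _ hv
    exact Set.mem_biUnion (show n ∈ {n | b n ⊆ sᶜ} from h2) h1
  · exact Set.iUnion₂_subset fun n hn => hn

def part (r : ℕ) (x : ℕ → Bool) : Set ℕ := {n | x (2 * n + r) = true}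

open Classical in
noncomputable def emb (r : ℕ) (B : Set ℕ) : ℕ → Bool := fun n => decide (n % 2 = r ∧ n / 2 ∈ B)

end Pool.Agent.Lib.helper19.TwoUltra
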