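import Mathlib

open scoped ENNReal

namespace H19Xi

/-- The kernel `Φ(t) = 2 ∑_{n ≥ 1} (2π²n⁴e^{9t/2} - 3πn²e^{5t/2}) e^{-πn²e^{2t}}`. -/
noncomputable def Phi (t : ℝ) : ℝ :=
  2 * ∑' n : ℕ, (2 * Real.pi ^ 2 * ((n : ℝ) + 1) ^ 4 * Real.exp (9 * t / 2)
      - 3 * Real.pi * ((n : ℝ) + 1) ^ 2 * Real.exp (5 * t / 2))
      * Real.exp (-(Real.pi * ((n : ℝ) + 1) ^ 2 * Real.exp (2 * t)))

/-- `Ξ_λ(z) = ∫ Φ(t) e^{λt²} e^{izt} dt`. -/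
noncomputable def Xi (lam : ℝ) (z : ℂ) : ℂ :=
  ∫ t : ℝ, ((Phi t * Real.exp (lam * t ^ 2) : ℝ) : ℂ) * Complex.exp (Complex.I * z * (t : ℂ))

/-- Number of zeros of `f` in the set `S`, counted with multiplicity (order of vanishing),
as an element of `[0, ∞]`. -/
noncomputable def zeroCount (f : ℂ → ℂ) (S : Set ℂ) : ℝ≥0∞ :=
  ∑' z : S, ((analyticOrderAt f (z : ℂ) : ℕ∞) : ℝ≥0∞)

end H19Xi
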