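import Mathlib

open Metric Complex Filter Topology

namespace H19Xi

lemma tele1 (τ : ℝ) (hτ : 0 < τ) (N : ℕ) :
    ∑ j ∈ Finset.range N, 1 / (2 + (j : ℝ) + τ) ^ 2 ≤ 1 / (1 + τ) - 1 / (1 + N + τ) := by
  induction N with
  | zero => simp
  | succ N ih =>
    rw [Finset.sum_range_succ]
    push_cast
    have : 1 / (2 + (N : ℝ) + τ) ^ 2 ≤ 1 / (1 + N + τ) - 1 / (1 + (N + 1) + τ) := by
      rw [div_sub_div _ _ (by positivity) (by positivity), div_le_div_iff₀ (by positivity)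
        (by positivity)]
      nlinarith [Nat.cast_nonneg (α := ℝ) N]
    linarith

lemma tele1' (τ : ℝ) (hτ : 0 < τ) (N : ℕ) :
    ∑ j ∈ Finset.range N, 1 / (2 + (j : ℝ) + τ) ^ 2 ≤ 1 / τ := by
  have h := tele1 τ hτ N
  have : 0 ≤ 1 / (1 + N + τ) := by positivity
  have : 1 / (1 + τ) ≤ 1 / τ := by gcongr; linarith
  linarith

lemma log_step {x : ℝ} (hx : 0 < x) :
    1 / (x + 1) ≤ Real.log (x + 1) - Real.log x ∧ Real.log (x + 1) - Real.log x ≤ 1 / x := by
  constructor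
  · have := Real.log_le_sub_one_of_pos (x := x / (x + 1)) (by positivity)
    rw [Real.log_div hx.ne' (by positivity)] at this
    have e : x / (x + 1) - 1 = -(1 / (x + 1)) := by field_simp; ring
    linarith
  · have := Real.log_le_sub_one_of_pos (x := (x + 1) / x) (by positivity)
    rw [Real.log_div (by positivity) hx.ne'] at this
    have e : (x + 1) / x - 1 = 1 / x := by field_simp; ring
    linarith

lemma tele2 (τ : ℝ) (hτ : 0 < τ) (N : ℕ) :
    Real.log (2 + N + τ) - Real.log (2 + τ) ≤ ∑ j ∈ Finset.range N, 1 / (2 + (j : ℝ) + τ) ∧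
    ∑ j ∈ Finset.range N, 1 / (2 + (j : ℝ) + τ) ≤ Real.log (1 + N + τ) - Real.log (1 + τ) := by
  induction N with
  | zero => simp
  | succ N ih =>
    rw [Finset.sum_range_succ]
    push_cast
    have h1 := (log_step (x := 2 + N + τ) (by positivity)).2
    have h2 := (log_step (x := 1 + N + τ) (by positivity)).1
    rw [show (2 + (N : ℝ) + τ + 1) = 2 + (N + 1) + τ by ring] at h1
    rw [show (1 + (N : ℝ) + τ + 1) = 2 + N + τ by ring] at h2
    rw [show (1 + ((N : ℝ) + 1) + τ) = 2 + N + τ by ring]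
    constructor <;> linarith [ih.1, ih.2]

lemma norm_pj (τ : ℝ) (hτ : 0 < τ) (j : ℕ) :
    (2 + (j : ℝ) + τ) ^ 2 ≤ 2 * ‖(2 + τ * I : ℂ) + j‖ ^ 2 ∧ τ ≤ ‖(2 + τ * I : ℂ) + j‖ := by
  constructor
  · rw [Complex.sq_norm, Complex.normSq_apply]
    simp
    nlinarith [sq_nonneg (2 + (j : ℝ) - τ)]
  · have := Complex.im_le_norm ((2 + τ * I : ℂ) + j)
    simpa using this

noncomputable def betaSeq (τ : ℝ) (n : ℕ) : ℂ :=
  (Real.log n : ℂ) - ∑ j ∈ Finset.range (n + 1), 1 / ((2 + τ * I : ℂ) + j)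

lemma betaSeq_bound (τ : ℝ) (hτ : 1 ≤ τ) (n : ℕ) (hn : τ + 3 ≤ n) :
    ‖betaSeq τ n - (Real.log τ : ℂ)‖ ≤ 4 := by
  have hτ0 : 0 < τ := by linarith
  have h1 : ‖∑ j ∈ Finset.range (n + 1), (((1 / (2 + (j : ℝ) + τ) : ℝ) : ℂ)
      - 1 / ((2 + τ * I : ℂ) + j))‖ ≤ 2 := by
    refine (norm_sum_le _ _).trans ?_
    have : ∀ j ∈ Finset.range (n + 1), ‖(((1 / (2 + (j : ℝ) + τ) : ℝ) : ℂ)
        - 1 / ((2 + τ * I : ℂ) + j))‖ ≤ 2 * τ * (1 / (2 + (j : ℝ) + τ) ^ 2) := by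
      intro j _
      obtain ⟨a1, a2⟩ := norm_pj τ hτ0 j
      set q : ℂ := (2 + τ * I : ℂ) + j with hq
      have q0 : q ≠ 0 := by intro h; rw [h] at a2; simp at a2; linarith
      have r0 : (0 : ℝ) < 2 + j + τ := by positivity
      have r1 : ((2 + j + τ : ℝ) : ℂ) ≠ 0 := by exact_mod_cast r0.ne'
      have e : (((1 / (2 + (j : ℝ) + τ) : ℝ) : ℂ) - 1 / q)
          = (τ * (I - 1)) / (((2 + j + τ : ℝ) : ℂ) * q) := by
        rw [Complex.ofReal_div, Complex.ofReal_one, div_sub_div _ _ r1 q0]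
        congr 1
        rw [hq]; push_cast; ring
      rw [e, norm_div, norm_mul, norm_mul, Complex.norm_real, Complex.norm_real,
        Real.norm_of_nonneg hτ0.le, Real.norm_of_nonneg r0.le]
      have b1 : ‖(I - 1 : ℂ)‖ ^ 2 = 2 := by
        rw [Complex.sq_norm, Complex.normSq_apply]; simp; norm_num
      have qp : 0 < ‖q‖ := norm_pos_iff.2 q0
      have b2 : ‖(I - 1 : ℂ)‖ * (2 + j + τ) ≤ 2 * ‖q‖ := by
        refine (pow_le_pow_iff_left₀ (by positivity) (by positivity) two_ne_zero).1 ?_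
        rw [mul_pow, mul_pow, b1]; linarith
      rw [div_le_iff₀ (by positivity)]
      have e2 : 2 * τ * (1 / (2 + (j : ℝ) + τ) ^ 2) * ((2 + j + τ) * ‖q‖)
          = τ * (2 * ‖q‖ / (2 + j + τ)) := by field_simp
      rw [e2]
      gcongr
      rw [le_div_iff₀ r0]; exact b2
    refine (Finset.sum_le_sum this).trans ?_
    rw [← Finset.mul_sum]
    have := tele1' τ hτ0 (n + 1)
    calc _ ≤ 2 * τ * (1 / τ) := by gcongr
      _ = 2 := by field_simp
  have h2 : |Real.log n - ∑ j ∈ Finset.range (n + 1), 1 / (2 + (j : ℝ) + τ) - Real.log τ| ≤ 2 := by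
    obtain ⟨a1, a2⟩ := tele2 τ hτ0 (n + 1)
    push_cast at a1 a2
    have n0 : (0 : ℝ) < n := by linarith
    have l2 : Real.log 2 ≤ 1 := by have := Real.log_two_lt_d9; linarith
    have l3 : Real.log 3 ≤ 2 := by
      have := Real.log_le_sub_one_of_pos (x := 3) (by norm_num); linarith
    have c1 : Real.log (1 + (n + 1) + τ) ≤ Real.log 2 + Real.log n := by
      rw [← Real.log_mul (by norm_num) n0.ne']
      exact Real.log_le_log (by positivity) (by linarith)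
    have c2 : Real.log τ ≤ Real.log (1 + τ) := Real.log_le_log hτ0 (by linarith)
    have c3 : Real.log n ≤ Real.log (2 + (n + 1) + τ) := Real.log_le_log n0 (by linarith)
    have c4 : Real.log (2 + τ) ≤ Real.log 3 + Real.log τ := by
      rw [← Real.log_mul (by norm_num) hτ0.ne']
      exact Real.log_le_log (by positivity) (by linarith)
    rw [abs_le]; constructor <;> linarith
  have e : betaSeq τ n - (Real.log τ : ℂ) =
      ((Real.log n - ∑ j ∈ Finset.range (n + 1), 1 / (2 + (j : ℝ) + τ) - Real.log τ : ℝ) : ℂ)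
      + ∑ j ∈ Finset.range (n + 1), (((1 / (2 + (j : ℝ) + τ) : ℝ) : ℂ)
      - 1 / ((2 + τ * I : ℂ) + j)) := by
    rw [Finset.sum_sub_distrib, betaSeq]; push_cast; ring
  rw [e]
  refine (norm_add_le _ _).trans ?_
  rw [Complex.norm_real, Real.norm_eq_abs]
  linarith

lemma seq_ratio (τ : ℝ) (hτ : 1 ≤ τ) (n : ℕ) (hn : n ≠ 0) (ω : ℂ) (hω : ‖ω‖ ≤ τ / 2) :
    ‖GammaSeq (2 + τ * I + ω) n * exp (-(ω * betaSeq τ n)) - GammaSeq (2 + τ * I) n‖
      ≤ ‖GammaSeq (2 + τ * I) n‖ * (2 * ‖ω‖ ^ 2 / τ * Real.exp (2 * ‖ω‖ ^ 2 / τ)) := by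
  have hτ0 : 0 < τ := by linarith
  set p : ℂ := 2 + τ * I with hp
  have q0 : ∀ j : ℕ, p + j ≠ 0 := by
    intro j h
    have := (norm_pj τ hτ0 j).2
    rw [← hp, h] at this; simp at this; linarith
  have hsmall : ∀ j : ℕ, ‖ω / (p + j)‖ ≤ 1 / 2 := by
    intro j
    have := (norm_pj τ hτ0 j).2
    rw [norm_div, div_le_iff₀ (norm_pos_iff.2 (q0 j))]
    linarith
  have h1 : ∀ j : ℕ, 1 + ω / (p + j) ≠ 0 := by
    intro j h
    have e : ω / (p + j) = -1 := by linear_combination h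
    have := hsmall j
    rw [e] at this; norm_num at this
  set θ : ℂ := ∑ j ∈ Finset.range (n + 1), (Complex.log (1 + ω / (p + j)) - ω / (p + j)) with hθ
  have hθb : ‖θ‖ ≤ 2 * ‖ω‖ ^ 2 / τ := by
    refine (norm_sum_le _ _).trans ?_
    have : ∀ j ∈ Finset.range (n + 1), ‖Complex.log (1 + ω / (p + j)) - ω / (p + j)‖
        ≤ 2 * ‖ω‖ ^ 2 * (1 / (2 + (j : ℝ) + τ) ^ 2) := by
      intro j _
      have a1 := Complex.norm_log_one_add_sub_self_le (z := ω / (p + j))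
        (by linarith [hsmall j])
      have a2 : (1 - ‖ω / (p + j)‖)⁻¹ ≤ 2 := by
        rw [inv_le_comm₀ (by linarith [hsmall j]) (by norm_num)]; linarith [hsmall j]
      have a3 : ‖ω / (p + j)‖ ^ 2 ≤ 2 * ‖ω‖ ^ 2 * (1 / (2 + (j : ℝ) + τ) ^ 2) := by
        have b1 := (norm_pj τ hτ0 j).1
        have qp : 0 < ‖p + j‖ := norm_pos_iff.2 (q0 j)
        rw [norm_div, div_pow, mul_one_div, div_le_div_iff₀ (by positivity) (by positivity)]
        nlinarith [sq_nonneg ‖ω‖]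
      nlinarith [sq_nonneg ‖ω / (p + j)‖]
    refine (Finset.sum_le_sum this).trans ?_
    rw [← Finset.mul_sum]
    have := tele1' τ hτ0 (n + 1)
    calc _ ≤ 2 * ‖ω‖ ^ 2 * (1 / τ) := by gcongr
      _ = _ := by ring
  have hprod : ∏ j ∈ Finset.range (n + 1), (p + ω + j) = (∏ j ∈ Finset.range (n + 1), (p + j))
      * exp (∑ j ∈ Finset.range (n + 1), Complex.log (1 + ω / (p + j))) := by
    rw [Complex.exp_sum, ← Finset.prod_mul_distrib]
    refine Finset.prod_congr rfl fun j _ => ?_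
    rw [Complex.exp_log (h1 j)]
    have := q0 j
    field_simp
    ring
  have n0 : (n : ℂ) ≠ 0 := by exact_mod_cast hn
  have hpow : (n : ℂ) ^ (p + ω) = (n : ℂ) ^ p * exp (ω * (Real.log n : ℂ)) := by
    rw [Complex.cpow_add _ _ n0, Complex.cpow_def_of_ne_zero n0 ω, ← Complex.natCast_log, mul_comm ω]
  have hmain : GammaSeq (p + ω) n * exp (-(ω * betaSeq τ n)) = GammaSeq p n * exp (-θ) := by
    unfold GammaSeq
    rw [hprod, hpow]
    have e : -θ = ω * (Real.log n : ℂ) + -(ω * betaSeq τ n)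
        - ∑ j ∈ Finset.range (n + 1), Complex.log (1 + ω / (p + j)) := by
      rw [hθ, betaSeq, Finset.sum_sub_distrib, mul_sub, Finset.mul_sum]
      simp only [mul_one_div, ← hp]; ring
    rw [e, Complex.exp_sub, Complex.exp_add]
    field_simp
  rw [hmain, ← mul_sub_one, norm_mul]
  gcongr
  have := Complex.norm_exp_sub_sum_le_norm_mul_exp (-θ) 1
  simp only [Finset.range_one, Finset.sum_singleton, pow_zero, Nat.factorial_zero, Nat.cast_one,
    div_one, pow_one, norm_neg] at this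
  refine this.trans ?_
  gcongr

lemma gamma_ratio (τ : ℝ) (hτ : 1 ≤ τ) : ∃ β : ℂ, ‖β - (Real.log τ : ℂ)‖ ≤ 4 ∧
    ∀ ω : ℂ, ‖ω‖ ≤ τ / 2 → ‖Gamma (2 + τ * I + ω) * exp (-(ω * β)) - Gamma (2 + τ * I)‖
      ≤ ‖Gamma (2 + τ * I)‖ * (2 * ‖ω‖ ^ 2 / τ * Real.exp (2 * ‖ω‖ ^ 2 / τ)) := by
  obtain ⟨n0, hn0⟩ := exists_nat_ge (τ + 3)
  have hmem : ∀ n, betaSeq τ (n + n0) ∈ closedBall (Real.log τ : ℂ) 4 := by
    intro n
    rw [mem_closedBall, dist_eq_norm]
    apply betaSeq_bound τ hτ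
    push_cast; linarith [Nat.cast_nonneg (α := ℝ) n]
  obtain ⟨β, hβ, φ, hφ, hlim⟩ := (isCompact_closedBall _ _).tendsto_subseq hmem
  refine ⟨β, by rwa [mem_closedBall, dist_eq_norm] at hβ, fun ω hω => ?_⟩
  have ht : Tendsto (fun n => φ n + n0) atTop atTop :=
    (tendsto_add_atTop_nat n0).comp hφ.tendsto_atTop
  have t1 := (Complex.GammaSeq_tendsto_Gamma (2 + τ * I + ω)).comp ht
  have t2 := (Complex.GammaSeq_tendsto_Gamma (2 + τ * I)).comp ht
  have t3 := ((t1.mul ((hlim.const_mul ω).neg.cexp)).sub t2).norm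
  have t4 := t2.norm.mul_const (2 * ‖ω‖ ^ 2 / τ * Real.exp (2 * ‖ω‖ ^ 2 / τ))
  refine le_of_tendsto_of_tendsto' t3 t4 fun n => ?_
  apply seq_ratio τ hτ _ _ ω hω
  have : (0 : ℝ) < n0 := by linarith
  have : 0 < n0 := by exact_mod_cast this
  show φ n + n0 ≠ 0
  omega

lemma norm_Gamma_le {s : ℂ} (hs : 0 < s.re) : ‖Gamma s‖ ≤ Real.Gamma s.re := by
  rw [Complex.Gamma_eq_integral hs, Real.Gamma_eq_integral hs, Complex.GammaIntegral]
  refine (MeasureTheory.norm_integral_le_integral_norm _).trans (le_of_eq ?_)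
  refine MeasureTheory.setIntegral_congr_fun measurableSet_Ioi fun x hx => ?_
  simp only [norm_mul, Complex.norm_real, Real.norm_eq_abs, Real.abs_exp]
  rw [Complex.norm_cpow_eq_rpow_re_of_pos hx]; simp

lemma real_Gamma_le {x : ℝ} (hx : 2 ≤ x) : Real.Gamma x ≤ Real.exp ((x + 1) ^ 2) := by
  have h1 : x ≤ (⌈x⌉₊ : ℝ) := Nat.le_ceil x
  have h2 : (⌈x⌉₊ : ℝ) < x + 1 := Nat.ceil_lt_add_one (by linarith)
  have h3 : Real.Gamma x ≤ Real.Gamma (⌈x⌉₊ + 1) :=
    Real.Gamma_strictMonoOn_Ici.monotoneOn hx (by simp only [Set.mem_Ici]; linarith) (by linarith)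
  rw [Real.Gamma_nat_eq_factorial] at h3
  set n := ⌈x⌉₊
  have h4 : (n.factorial : ℝ) ≤ (n : ℝ) ^ n := by exact_mod_cast Nat.factorial_le_pow n
  have h5 : (n : ℝ) ^ n ≤ Real.exp n ^ n := by
    gcongr; linarith [Real.add_one_le_exp (n : ℝ)]
  rw [← Real.exp_nat_mul] at h5
  have h6 : Real.exp (n * n) ≤ Real.exp ((x + 1) ^ 2) := by
    gcongr; nlinarith
  linarith

lemma norm_Gamma_ge (τ : ℝ) (hτ : 1 ≤ τ) : Real.exp (-2 * τ) ≤ ‖Gamma (2 + τ * I)‖ := by
  have hτ0 : 0 < τ := by linarith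
  have z0 : (τ * I : ℂ) ≠ 0 := by simp [hτ0.ne']
  have z1 : (1 + τ * I : ℂ) ≠ 0 := by
    intro h; have := congrArg Complex.re h; simp at this
  have e1 : Gamma (2 + τ * I) = (1 + τ * I) * Gamma (1 + τ * I) := by
    rw [← Complex.Gamma_add_one _ z1]; congr 1; ring
  have e2 : Gamma (1 + τ * I) = (τ * I) * Gamma (τ * I) := by
    rw [← Complex.Gamma_add_one _ z0]; congr 1; ring
  have e3 : ‖Gamma (1 - τ * I)‖ = ‖Gamma (1 + τ * I)‖ := by
    have : (1 - τ * I : ℂ) = (starRingEnd ℂ) (1 + τ * I) := by simp [sub_eq_add_neg]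
    rw [this, Complex.Gamma_conj, Complex.norm_conj]
  have e4 := congrArg norm (Complex.Gamma_mul_Gamma_one_sub (τ * I))
  have e5 : Complex.sin (Real.pi * (τ * I)) = (Real.sinh (Real.pi * τ) : ℂ) * I := by
    rw [← mul_assoc, Complex.sin_mul_I]; push_cast; ring
  have sp : 0 < Real.sinh (Real.pi * τ) := Real.sinh_pos_iff.2 (by positivity)
  rw [norm_mul, e3, e5, norm_div, norm_mul, Complex.norm_real, Complex.norm_real, Complex.norm_I,
    mul_one, Real.norm_of_nonneg Real.pi_pos.le, Real.norm_of_nonneg sp.le] at e4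
  have e6 : ‖Gamma (1 + τ * I)‖ = τ * ‖Gamma (τ * I)‖ := by
    rw [e2, norm_mul, norm_mul, Complex.norm_real, Complex.norm_I, mul_one,
      Real.norm_of_nonneg hτ0.le]
  have e7 : ‖Gamma (1 + τ * I)‖ ^ 2 = τ * (Real.pi / Real.sinh (Real.pi * τ)) := by
    rw [← e4, sq]; nth_rewrite 1 [e6]; ring
  have s1 : Real.sinh (Real.pi * τ) ≤ Real.exp (4 * τ) := by
    rw [Real.sinh_eq]
    have := Real.exp_pos (-(Real.pi * τ))
    have h2 : Real.exp (Real.pi * τ) ≤ Real.exp (4 * τ) := by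
      gcongr; exact Real.pi_le_four
    have := Real.exp_pos (4 * τ)
    linarith
  have e8 : Real.exp (-2 * τ) ^ 2 ≤ ‖Gamma (1 + τ * I)‖ ^ 2 := by
    rw [e7, ← Real.exp_nat_mul]
    have : Real.exp (((2 : ℕ) : ℝ) * (-2 * τ)) = 1 / Real.exp (4 * τ) := by
      rw [one_div, ← Real.exp_neg]; congr 1; push_cast; ring
    rw [this]
    have h3 : 1 / Real.exp (4 * τ) ≤ Real.pi / Real.sinh (Real.pi * τ) := by
      gcongr; linarith [Real.pi_gt_three]
    have h4 : 0 ≤ Real.pi / Real.sinh (Real.pi * τ) := by positivity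
    nlinarith
  have e9 : Real.exp (-2 * τ) ≤ ‖Gamma (1 + τ * I)‖ :=
    (pow_le_pow_iff_left₀ (by positivity) (by positivity) (by norm_num)).1 e8
  have e10 : 1 ≤ ‖(1 + τ * I : ℂ)‖ := by
    have := Complex.re_le_norm (1 + τ * I : ℂ); simpa using this
  rw [e1, norm_mul]
  nlinarith [norm_nonneg (Gamma (1 + τ * I))]

/-- The factor `γ(s) = (s-1) π^{-s/2} Γ(s/2+1)`. -/
noncomputable def gam (s : ℂ) : ℂ :=
  (s - 1) * exp (-(s / 2 * (Real.log Real.pi : ℂ))) * Gamma (s / 2 + 1)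

lemma logpi : 1 ≤ Real.log Real.pi ∧ Real.log Real.pi ≤ 2 := by
  constructor
  · rw [Real.le_log_iff_exp_le Real.pi_pos]
    linarith [Real.exp_one_lt_d9, Real.pi_gt_three]
  · rw [Real.log_le_iff_le_exp Real.pi_pos]
    have e1 : (2.7 : ℝ) ≤ Real.exp 1 := by have := Real.exp_one_gt_d9; linarith
    rw [show (2 : ℝ) = 1 + 1 by norm_num, Real.exp_add]; nlinarith [Real.pi_le_four]

lemma gam_near (X : ℝ) (hX : 2 ≤ X) : ∃ u : ℂ, ‖u - (Real.log X / 2 : ℝ)‖ ≤ 4 ∧ |u.im| ≤ 2 ∧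
    ∀ w : ℂ, ‖w‖ ≤ X / 2 → ‖gam (2 + X * I + w) - gam (2 + X * I) * exp (w * u)‖ ≤
      ‖gam (2 + X * I) * exp (w * u)‖ * ((2 * ‖w‖ ^ 2 + ‖w‖) / X * Real.exp (‖w‖ ^ 2 / X)) := by
  have hX0 : 0 < X := by linarith
  obtain ⟨β, hβ, h⟩ := gamma_ratio (X / 2) (by linarith)
  refine ⟨(β - (Real.log Real.pi : ℂ)) / 2, ?_, ?_, fun w hw => ?_⟩
  · have e : (β - (Real.log Real.pi : ℂ)) / 2 - (Real.log X / 2 : ℝ)
        = ((β - (Real.log (X / 2) : ℂ)) - ((Real.log Real.pi + Real.log 2 : ℝ) : ℂ)) / 2 := by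
      rw [Real.log_div hX0.ne' two_ne_zero]; push_cast; ring
    rw [e, norm_div]
    have := norm_sub_le (β - (Real.log (X / 2) : ℂ)) ((Real.log Real.pi + Real.log 2 : ℝ) : ℂ)
    rw [Complex.norm_real, Real.norm_of_nonneg (by
      linarith [logpi.1, Real.log_two_gt_d9])] at this
    have := logpi.2
    have := Real.log_two_lt_d9
    simp only [Complex.norm_ofNat]
    linarith
  · have := (Complex.abs_im_le_norm _).trans hβ
    simp only [Complex.sub_im, Complex.ofReal_im, sub_zero] at this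
    have e : ((β - (Real.log Real.pi : ℂ)) / 2).im = β.im / 2 := by
      simp only [Complex.div_ofNat_im, Complex.sub_im, Complex.ofReal_im, sub_zero]
    rw [e, abs_div]; norm_num; linarith
  have h1 := h (w / 2) (by rw [norm_div]; simp only [Complex.norm_ofNat]; linarith)
  set p : ℂ := 2 + ((X / 2 : ℝ) : ℂ) * I with hp
  have e0 : 2 * ‖w / 2‖ ^ 2 / (X / 2) = ‖w‖ ^ 2 / X := by
    rw [norm_div]; simp only [Complex.norm_ofNat]; field_simp
  rw [e0] at h1
  set Θ := ‖w‖ ^ 2 / X * Real.exp (‖w‖ ^ 2 / X) with hΘ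
  set L : ℂ := (Real.log Real.pi : ℂ)
  set A : ℂ := exp (-((2 + X * I + w) / 2 * L)) * exp (w / 2 * β) with hA
  have p1 : (2 + X * I) / 2 + 1 = p := by rw [hp]; push_cast; ring
  have p2 : (2 + X * I + w) / 2 + 1 = p + w / 2 := by rw [hp]; push_cast; ring
  have f1 : gam (2 + X * I) * exp (w * ((β - L) / 2)) = (1 + X * I) * A * Gamma p := by
    rw [gam, p1, hA, ← Complex.exp_add]
    have : exp (-((2 + X * I + w) / 2 * L) + w / 2 * β)
        = exp (-((2 + X * I) / 2 * L)) * exp (w * ((β - L) / 2)) := by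
      rw [← Complex.exp_add]; congr 1; ring
    rw [this]; ring
  have f2 : gam (2 + X * I + w)
      = (1 + X * I + w) * A * (Gamma (p + w / 2) * exp (-(w / 2 * β))) := by
    rw [gam, p2, hA, Complex.exp_neg (w / 2 * β)]
    have := Complex.exp_ne_zero (w / 2 * β)
    field_simp; ring
  rw [f1, f2]
  have f3 : (1 + X * I + w) * A * (Gamma (p + w / 2) * exp (-(w / 2 * β)))
      - (1 + X * I) * A * Gamma p = A * ((1 + X * I + w) *
        (Gamma (p + w / 2) * exp (-(w / 2 * β)) - Gamma p) + w * Gamma p) := by ring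
  have n1 : X ≤ ‖(1 + X * I : ℂ)‖ := by
    have := Complex.im_le_norm (1 + X * I : ℂ); simpa using this
  have n2 : ‖(1 + X * I + w : ℂ)‖ ≤ 2 * ‖(1 + X * I : ℂ)‖ := by
    have := norm_add_le (1 + X * I : ℂ) w; linarith
  have n3 : ‖w‖ ≤ ‖(1 + X * I : ℂ)‖ * (‖w‖ / X * Real.exp (‖w‖ ^ 2 / X)) := by
    have : 1 ≤ Real.exp (‖w‖ ^ 2 / X) := Real.one_le_exp (by positivity)
    calc ‖w‖ = X * (‖w‖ / X * 1) := by field_simp
      _ ≤ _ := by gcongr
  rw [f3, norm_mul A, norm_mul _ (Gamma p), norm_mul _ A]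
  calc ‖A‖ * ‖(1 + X * I + w) * (Gamma (p + w / 2) * exp (-(w / 2 * β)) - Gamma p) + w * Gamma p‖
      ≤ ‖A‖ * (2 * ‖(1 + X * I : ℂ)‖ * (‖Gamma p‖ * Θ)
        + ‖(1 + X * I : ℂ)‖ * (‖w‖ / X * Real.exp (‖w‖ ^ 2 / X)) * ‖Gamma p‖) := by
        gcongr
        refine (norm_add_le _ _).trans ?_
        rw [norm_mul, norm_mul]
        gcongr
    _ = _ := by rw [hΘ]; ring

lemma gam_lower (X : ℝ) (hX : 4 ≤ X) : Real.exp (-X) ≤ ‖gam (2 + X * I)‖ := by
  have h := norm_Gamma_ge (X / 2) (by linarith)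
  have p1 : (2 + X * I) / 2 + 1 = 2 + ((X / 2 : ℝ) : ℂ) * I := by push_cast; ring
  rw [gam, p1, norm_mul, norm_mul, Complex.norm_exp]
  have e : (-((2 + X * I) / 2 * (Real.log Real.pi : ℂ))).re = -Real.log Real.pi := by
    simp only [Complex.neg_re, Complex.mul_re, Complex.ofReal_re, Complex.ofReal_im]; simp
  rw [e, Real.exp_neg (Real.log _), Real.exp_log Real.pi_pos]
  have n1 : X ≤ ‖(2 + X * I - 1 : ℂ)‖ := by
    have := Complex.im_le_norm (2 + X * I - 1 : ℂ); simpa using this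
  have n2 : 1 ≤ ‖(2 + X * I - 1 : ℂ)‖ * Real.pi⁻¹ := by
    rw [← div_eq_mul_inv, le_div_iff₀ Real.pi_pos]; linarith [Real.pi_le_four]
  rw [show -2 * (X / 2) = -X by ring] at h
  nlinarith [Real.exp_pos (-X)]

lemma gam_upper {s : ℂ} (hs : 2 ≤ s.re) :
    ‖gam s‖ ≤ ‖s - 1‖ * Real.exp ((s.re / 2 + 2) ^ 2) := by
  rw [gam, norm_mul, norm_mul, Complex.norm_exp]
  have e : (-(s / 2 * (Real.log Real.pi : ℂ))).re = -(s.re / 2 * Real.log Real.pi) := by
    simp only [Complex.neg_re, Complex.mul_re, Complex.ofReal_re, Complex.ofReal_im]; simp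
  have e2 : (s / 2 + 1).re = s.re / 2 + 1 := by simp
  have h1 : Real.exp (-(s.re / 2 * Real.log Real.pi)) ≤ 1 := by
    rw [Real.exp_le_one_iff]; nlinarith [logpi.1]
  have h2 := norm_Gamma_le (s := s / 2 + 1) (by rw [e2]; linarith)
  have h3 := real_Gamma_le (x := s.re / 2 + 1) (by linarith)
  rw [e2] at h2
  rw [e, show s.re / 2 + 2 = s.re / 2 + 1 + 1 by ring]
  calc _ ≤ ‖s - 1‖ * 1 * Real.exp ((s.re / 2 + 1 + 1) ^ 2) := by gcongr; linarith
    _ = _ := by ring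

lemma log_ge_three {U : ℝ} (hU : 30 ≤ U) : 3 ≤ Real.log U := by
  rw [Real.le_log_iff_exp_le (by linarith)]
  have e1 := Real.exp_one_lt_d9
  have e0 := Real.exp_pos 1
  rw [show (3 : ℝ) = 1 + 1 + 1 by norm_num, Real.exp_add, Real.exp_add]
  nlinarith

lemma gam_approx (U : ℝ) (hU : 30 ≤ U) : ∃ u : ℂ, |u.re - 3 / 2 * Real.log U| ≤ 4 ∧ |u.im| ≤ 2 ∧
    ∀ (d : ℂ) (v : ℝ), ‖d‖ ≤ U → 0 ≤ d.re →
      ‖gam (2 + (U ^ 3 : ℝ) * I + (d + v * I)) - gam (2 + (U ^ 3 : ℝ) * I) * exp ((d + v * I) * u)‖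
        ≤ ‖gam (2 + (U ^ 3 : ℝ) * I) * exp (d * u)‖ * (56 * Real.exp 5 / U * Real.exp (v ^ 2 / 2)) := by
  have hU0 : 0 < U := by linarith
  have hU2 : 100 ≤ U ^ 2 := by nlinarith
  have hU3 : 100 * U ≤ U ^ 3 := by nlinarith
  obtain ⟨u, hu, hu2, h⟩ := gam_near (U ^ 3) (by linarith)
  have hre : |u.re - 3 / 2 * Real.log U| ≤ 4 := by
    have := (Complex.abs_re_le_norm _).trans hu
    simp only [Complex.sub_re, Complex.ofReal_re, Real.log_pow] at this
    have e : 3 / 2 * Real.log U = ((3 : ℕ) : ℝ) * Real.log U / 2 := by push_cast; ring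
    rw [e]; exact this
  refine ⟨u, hre, hu2, fun d v hd hd0 => ?_⟩
  set X := U ^ 3 with hX
  set g0 := gam (2 + (X : ℝ) * I) with hg0
  have hv : ‖g0 * exp ((d + v * I) * u)‖ ≤ ‖g0 * exp (d * u)‖ * Real.exp (2 * |v|) := by
    rw [add_mul, Complex.exp_add, ← mul_assoc, norm_mul (g0 * _), Complex.norm_exp (v * I * u)]
    gcongr
    have : (v * I * u : ℂ).re = -(v * u.im) := by simp
    rw [this]
    have := neg_abs_le (v * u.im)
    rw [abs_mul] at this
    nlinarith [abs_nonneg v]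
  have hw : ‖d + v * I‖ ≤ U + |v| := by
    have := norm_add_le d (v * I)
    simp only [norm_mul, Complex.norm_real, Complex.norm_I, mul_one, Real.norm_eq_abs] at this
    linarith
  have hvv : |v| ^ 2 = v ^ 2 := sq_abs v
  have e5 : 1 ≤ Real.exp 5 := Real.one_le_exp (by norm_num)
  by_cases hc : |v| ≤ X / 4
  · have h1 := h (d + v * I) (by linarith)
    set r := ‖d + v * I‖
    have r0 : 0 ≤ r := norm_nonneg _
    have r2 : r ^ 2 ≤ 2 * U ^ 2 + 2 * v ^ 2 := by nlinarith [abs_nonneg v, sq_nonneg (U - |v|)]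
    have a1 : r ^ 2 / X ≤ 1 + v ^ 2 / 8 := by
      rw [div_le_iff₀ (by positivity)]
      have : 2 * U ^ 2 ≤ X := by rw [hX]; nlinarith
      nlinarith [sq_nonneg v]
    have a2 : (2 * r ^ 2 + r) / X ≤ 56 * Real.exp (v ^ 2 / 8) / U := by
      rw [div_le_div_iff₀ (by positivity) hU0]
      have b1 := Real.add_one_le_exp (v ^ 2 / 8)
      have b2 : 2 * r ^ 2 + r ≤ 7 * (1 + v ^ 2) * U ^ 2 := by nlinarith [sq_nonneg v, sq_nonneg (r - 1)]
      calc (2 * r ^ 2 + r) * U ≤ 7 * (1 + v ^ 2) * U ^ 2 * U := by gcongr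
        _ = 7 * (1 + v ^ 2) * X := by rw [hX]; ring
        _ ≤ _ := mul_le_mul_of_nonneg_right (by nlinarith [sq_nonneg v]) (by positivity)
    have a3 : 2 * |v| ≤ 4 + v ^ 2 / 4 := by nlinarith [sq_nonneg (|v| - 4)]
    refine h1.trans ?_
    calc _ ≤ ‖g0 * exp (d * u)‖ * Real.exp (4 + v ^ 2 / 4) *
          (56 * Real.exp (v ^ 2 / 8) / U * Real.exp (1 + v ^ 2 / 8)) := by
          gcongr
          exact hv.trans (by gcongr)
      _ = _ := by
          rw [show (5 : ℝ) = 4 + 1 by norm_num,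
            show v ^ 2 / 2 = v ^ 2 / 4 + v ^ 2 / 8 + v ^ 2 / 8 by ring]
          simp only [Real.exp_add]; ring
  · push Not at hc
    set V := |v|
    have V1 : 25 * U ≤ V := by linarith
    have V2 : U ^ 2 ≤ V := by nlinarith
    have lu : 0 ≤ u.re := by
      have := log_ge_three hU
      have := (abs_le.1 hre).1; linarith
    have hdre : d.re ≤ U := (Complex.re_le_norm d).trans hd
    have hdim : |d.im| ≤ U := (Complex.abs_im_le_norm d).trans hd
    have sre : (2 + (X : ℝ) * I + (d + v * I) : ℂ).re = 2 + d.re := by simp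
    have u1 := gam_upper (s := 2 + (X : ℝ) * I + (d + v * I)) (by rw [sre]; linarith)
    rw [sre] at u1
    have u2 : ‖(2 + (X : ℝ) * I + (d + v * I) - 1 : ℂ)‖ ≤ Real.exp (6 * V) := by
      have e : (2 + (X : ℝ) * I + (d + v * I) - 1 : ℂ) = 1 + X * I + (d + v * I) := by ring
      have b1 := norm_add_le (1 + X * I : ℂ) (d + v * I)
      have b2 := norm_add_le (1 : ℂ) (X * I)
      rw [norm_mul, Complex.norm_real, Complex.norm_I, norm_one,
        Real.norm_of_nonneg (by positivity)] at b2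
      have b3 := Real.add_one_le_exp (6 * V)
      rw [e]; linarith
    have u3 : Real.exp (((2 + d.re) / 2 + 2) ^ 2) ≤ Real.exp V := by
      gcongr
      refine le_trans ?_ V2
      gcongr; linarith
    have u4 : ‖gam (2 + (X : ℝ) * I + (d + v * I))‖ ≤ Real.exp (7 * V) := by
      rw [show 7 * V = 6 * V + V by ring, Real.exp_add]
      exact u1.trans (by gcongr)
    have l1 : Real.exp (-5 * V) ≤ ‖g0 * exp (d * u)‖ := by
      rw [norm_mul, Complex.norm_exp]
      have b1 := gam_lower X (by linarith)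
      have b2 : -(2 * U) ≤ (d * u).re := by
        rw [Complex.mul_re]
        have c1 := le_abs_self (d.im * u.im)
        rw [abs_mul] at c1
        have c2 : |d.im| * |u.im| ≤ U * 2 := by gcongr
        have c3 := mul_nonneg hd0 lu
        linarith
      calc Real.exp (-5 * V) ≤ Real.exp (-X + -(2 * U)) := by gcongr; linarith
        _ = Real.exp (-X) * Real.exp (-(2 * U)) := Real.exp_add _ _
        _ ≤ _ := by gcongr
    set N := ‖g0 * exp (d * u)‖
    have N0 : 0 ≤ N := norm_nonneg _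
    have l2 : Real.exp (7 * V) ≤ N * Real.exp (12 * V) := by
      calc Real.exp (7 * V) = Real.exp (-5 * V) * Real.exp (12 * V) := by
            rw [← Real.exp_add]; congr 1; ring
        _ ≤ _ := by gcongr
    have l3 : N * Real.exp (2 * V) ≤ N * Real.exp (12 * V) := by gcongr; linarith
    have l4 : 2 * Real.exp (12 * V) ≤ 56 * Real.exp 5 / U * Real.exp (v ^ 2 / 2) := by
      rw [div_mul_eq_mul_div, le_div_iff₀ hU0]
      have b1 : U ≤ Real.exp V := by linarith [Real.add_one_le_exp V]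
      have b2 : Real.exp (12 * V) * Real.exp V ≤ Real.exp (v ^ 2 / 2) := by
        rw [← Real.exp_add, ← hvv]; gcongr; nlinarith
      have b3 := Real.exp_pos (12 * V)
      have b4 := Real.exp_pos (v ^ 2 / 2)
      have b5 : Real.exp (12 * V) * U ≤ Real.exp (12 * V) * Real.exp V := by gcongr
      nlinarith
    refine (norm_sub_le _ _).trans ?_
    calc _ ≤ N * (2 * Real.exp (12 * V)) := by linarith
      _ ≤ _ := by gcongr

end H19Xi
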