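import Pool.Agent.Lib.helper19.XiSer

open Complex Finset Metric
open scoped ENNReal

namespace H19Xi

def Rset (a b : ℝ) : Set ℂ := {z | z.im = 0 ∧ a < z.re ∧ z.re ≤ b}

def Nset (a b : ℝ) : Set ℂ := {z | z.im ≠ 0 ∧ |z.im| ≤ b ∧ a < z.re ∧ z.re ≤ b}

lemma ball_re_im {z c : ℂ} {r : ℝ} (h : z ∈ closedBall c r) :
    c.re - r ≤ z.re ∧ z.re ≤ c.re + r ∧ c.im - r ≤ z.im ∧ z.im ≤ c.im + r := by
  rw [mem_closedBall, dist_eq_norm] at h
  have h1 := abs_le.1 ((Complex.abs_re_le_norm _).trans h)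
  have h2 := abs_le.1 ((Complex.abs_im_le_norm _).trans h)
  rw [Complex.sub_re] at h1
  rw [Complex.sub_im] at h2
  refine ⟨?_, ?_, ?_, ?_⟩ <;> linarith [h1.1, h1.2, h2.1, h2.2]

/-- Normalised function and its three estimates. -/
lemma normalised (U : ℝ) (hU : 2688 * Real.exp 5 ≤ U) : ∃ (u : ℂ) (f : ℂ → ℂ),
    |u.re - 3 / 2 * Real.log U| ≤ 4 ∧ Differentiable ℂ f ∧
    (∀ S, zeroCount f S = zeroCount (Xi (-(1 / 4))) S) ∧
    (∀ z : ℂ, |z.re - U ^ 3| ≤ U →
      ‖f z‖ ≤ 2 * Real.exp ((2 + (u.re / 2 - 1 / 2 + z.im)) ^ 2)) ∧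
    (∀ z : ℂ, u.re / 2 - 1 / 2 + z.im ≤ -2 →
      -(u.re / 2 - 1 / 2 + z.im) - 2 + |z.re - U ^ 3| ≤ U → 1 / 4 ≤ ‖f z‖ ∧ ‖f z‖ ≤ 2) ∧
    (∀ z : ℂ, |z.re - U ^ 3| ≤ U → ‖∑' n, term u z n‖
      - 224 * Real.exp 5 / U * Real.exp ((2 + (u.re / 2 - 1 / 2 + z.im)) ^ 2) ≤ ‖f z‖) := by
  have e5 : 1 ≤ Real.exp 5 := Real.one_le_exp (by norm_num)
  have hU0 : 0 < U := by linarith
  obtain ⟨u, hu, h⟩ := Xi_approx U (by linarith)
  have hC : 224 * Real.exp 5 / U ≤ 1 / 12 := by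
    rw [div_le_iff₀ hU0]; linarith
  have E0 : ∀ z, Efac (U ^ 3) u z ≠ 0 := by
    intro z
    refine mul_ne_zero ?_ (Complex.exp_ne_zero _)
    have := gam_lower (U ^ 3) (by nlinarith [sq_nonneg U])
    exact norm_pos_iff.1 (lt_of_lt_of_le (Real.exp_pos _) this)
  have Ed : Differentiable ℂ (fun z => (Efac (U ^ 3) u z)⁻¹) := by
    refine Differentiable.inv ?_ E0
    unfold Efac; fun_prop
  refine ⟨u, fun z => Xi (-(1 / 4)) z * (Efac (U ^ 3) u z)⁻¹, hu, Xi_diff.mul Ed,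
    fun S => cnt_congr S (order_mul_ne Xi_diff Ed fun z => inv_ne_zero (E0 z)), ?_, ?_, ?_⟩
  · intro z hz
    have h1 := h z 2 le_rfl (by linarith)
    have h2 := ser_upper u z
    rw [div_eq_mul_inv] at h1
    have h3 := norm_le_norm_sub_add (Xi (-(1 / 4)) z * (Efac (U ^ 3) u z)⁻¹) (∑' n, term u z n)
    have h4 := Real.exp_pos ((2 + (u.re / 2 - 1 / 2 + z.im)) ^ 2)
    nlinarith
  · intro z hz1 hz2
    have h1 := h z (-(u.re / 2 - 1 / 2 + z.im)) (by linarith) hz2
    have h2 := ser_one u z hz1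
    rw [div_eq_mul_inv, neg_add_cancel] at h1
    simp only [ne_eq, OfNat.ofNat_ne_zero, not_false_eq_true, zero_pow, Real.exp_zero,
      mul_one] at h1
    set w := Xi (-(1 / 4)) z * (Efac (U ^ 3) u z)⁻¹
    have h3 : ‖w - 1‖ ≤ 3 / 4 := by
      have := norm_sub_le_norm_sub_add_norm_sub w (∑' n, term u z n) 1
      linarith
    have h4 := norm_le_norm_sub_add w 1
    have h5 := norm_sub_norm_le 1 w
    rw [norm_sub_rev] at h5
    rw [norm_one] at h4 h5
    constructor <;> linarith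
  · intro z hz
    have h1 := h z 2 le_rfl (by linarith)
    rw [div_eq_mul_inv, norm_sub_rev] at h1
    have h3 := norm_sub_norm_le (∑' n, term u z n) (Xi (-(1 / 4)) z * (Efac (U ^ 3) u z)⁻¹)
    linarith

lemma block : ∃ K > (0 : ℝ), ∃ ε > (0 : ℝ), ∃ k0 : ℕ, ∀ k : ℕ, k0 ≤ k → ∀ U : ℝ,
    (k : ℝ) ^ 16 ≤ U → U ≤ (2 * k) ^ 16 → ∃ Y' ≥ U ^ 3 + 1, ∃ n : ℝ, ε ≤ n ∧
      zeroCount (Xi (-(1 / 4))) (Rset (U ^ 3) Y') ≤ ENNReal.ofReal (K * n) ∧
      ENNReal.ofReal n ≤ zeroCount (Xi (-(1 / 4))) (Nset (U ^ 3) Y') := by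
  classical
  obtain ⟨δ, hδ, m0, hZ⟩ := many_zeros 2501 (by norm_num)
  set c0 : ℝ := 1 / (64 * (40 * (4 * Real.exp 4) ^ 2 + 8)) with hc0
  have c0p : 0 < c0 := by positivity
  obtain ⟨k0, hk0⟩ := exists_nat_ge (Real.exp (2 * m0) + Real.exp 4 + 8 * Real.exp 25
    + 2688 * Real.exp 5 + 896 * Real.exp 9 + 1000)
  refine ⟨20 * 80005 / (c0 * δ), by positivity, c0 * δ / 4, by positivity, k0, ?_⟩
  intro k hk U hU1 hU2
  have hk' : (k0 : ℝ) ≤ k := by exact_mod_cast hk
  have p1 := Real.exp_pos (2 * m0)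
  have p2 := Real.exp_pos 4
  have p3 := Real.exp_pos 25
  have p4 := Real.exp_pos 5
  have p5 := Real.exp_pos 9
  have k1000 : (1000 : ℝ) ≤ k := by linarith
  have kn : 1000 ≤ k := by exact_mod_cast k1000
  have kp : (0 : ℝ) < k := by linarith
  set m : ℝ := Real.log k / 2 with hm
  have m2 : 2 ≤ m := by
    have := (Real.le_log_iff_exp_le kp).2 (show Real.exp 4 ≤ k by linarith); linarith
  have mm0 : m ≥ m0 := by
    have := (Real.le_log_iff_exp_le kp).2 (show Real.exp (2 * m0) ≤ k by linarith); linarith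
  have mk : m ≤ k := by have := Real.log_le_sub_one_of_pos kp; linarith
  have k12 : (k : ℝ) ^ 12 * 4 ≤ U := by
    refine le_trans ?_ hU1
    rw [show (k : ℝ) ^ 16 = k ^ 12 * k ^ 4 by ring]
    gcongr
    calc (4 : ℝ) ≤ 1000 ^ 4 := by norm_num
      _ ≤ _ := by gcongr
  have k3 : (k : ℝ) ^ 3 ≤ U := le_trans (pow_le_pow_right₀ (by linarith) (by norm_num)) hU1
  have kU : 1000 * (k : ℝ) ≤ U := by
    refine le_trans ?_ k3
    rw [show (k : ℝ) ^ 3 = k ^ 2 * k by ring]
    exact mul_le_mul_of_nonneg_right (k1000.trans (le_self_pow₀ (by linarith) two_ne_zero)) kp.le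
  have msq : 4 ≤ m ^ 2 := by
    calc (4 : ℝ) = 2 ^ 2 := by norm_num
      _ ≤ _ := by gcongr
  have U0 : 0 < U := by linarith
  have U3 : U ≤ U ^ 3 := le_self_pow₀ (by linarith) (by norm_num)
  have lU1 : 32 * m ≤ Real.log U := by
    have := Real.log_le_log (by positivity) hU1
    rw [Real.log_pow] at this; push_cast at this; linarith
  have lU2 : Real.log U ≤ 40 * m := by
    have := Real.log_le_log U0 hU2
    rw [Real.log_pow, Real.log_mul two_ne_zero kp.ne'] at this; push_cast at this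
    linarith [Real.log_two_lt_d9]
  obtain ⟨u, f, hu, hf, hcnt, bU, bL, bB⟩ := normalised U (by linarith)
  obtain ⟨hu1, hu2⟩ := abs_le.1 hu
  set Y := U ^ 3 with hY
  set H := 24 * m with hH
  have H0 : 0 < H := by linarith
  set J := ⌊U / (2 * H)⌋₊ with hJ
  have J1 : (J : ℝ) * H ≤ U / 2 := by
    have := Nat.floor_le (a := U / (2 * H)) (by positivity)
    rw [← hJ, le_div_iff₀ (by positivity)] at this; linarith
  have J2 : U / 4 ≤ J * H := by
    have := Nat.lt_floor_add_one (U / (2 * H))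
    rw [← hJ, div_lt_iff₀ (by positivity)] at this; linarith
  have J3 : (1 : ℝ) ≤ J := by
    have : J ≠ 0 := by intro h; rw [h] at J2; simp at J2; linarith
    exact_mod_cast Nat.one_le_iff_ne_zero.2 this
  set y0 : ℝ := -(u.re / 2 + 3 / 2 + 2 * m) with hy0
  set ctr : ℝ → ℂ := fun x => (x : ℂ) + (y0 : ℂ) * I with hctr
  have cre : ∀ x, (ctr x).re = x := fun x => by simp [hctr]
  have cim : ∀ x, (ctr x).im = y0 := fun x => by simp [hctr]
  -- real zeros
  have hreal : ∀ x, Y ≤ x → x ≤ Y + (J + 3) * H →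
      zeroCount f (closedBall (ctr x) (66 * m)) ≤ ENNReal.ofReal (80005 * m ^ 2) := by
    intro x hx1 hx2
    have h1 := cnt_le hf (c := ctr x) (r := 66 * m) (M := 2 * Real.exp (40000 * m ^ 2))
      (n := ⌈80000 * m ^ 2⌉₊ + 4) (by linarith) (fun z hz => by
        obtain ⟨a1, a2, a3, a4⟩ := ball_re_im hz
        rw [cre] at a1 a2; rw [cim] at a3 a4
        refine (bU z (abs_le.2 ⟨by linarith, by linarith⟩)).trans ?_
        gcongr
        rw [show 40000 * m ^ 2 = (200 * m) ^ 2 by ring]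
        exact sq_le_sq' (by linarith) (by linarith)) (by
        have a1 := (bL (ctr x) (by rw [cim]; linarith) (by
          rw [cim, cre, abs_of_nonneg (by linarith)]; linarith)).1
        have a2 : Real.exp (40000 * m ^ 2) ≤ 2 ^ ⌈80000 * m ^ 2⌉₊ := by
          rw [← Real.exp_log (show (0 : ℝ) < 2 ^ ⌈80000 * m ^ 2⌉₊ by positivity), Real.log_pow]
          refine Real.exp_le_exp.2 ?_
          have := Nat.le_ceil (80000 * m ^ 2)
          have := mul_le_mul this (show (1 / 2 : ℝ) ≤ Real.log 2 by linarith [Real.log_two_gt_d9])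
            (by norm_num) (Nat.cast_nonneg _)
          linarith
        rw [pow_add]
        calc 2 * Real.exp (40000 * m ^ 2) < Real.exp (40000 * m ^ 2) * 2 ^ 4 * (1 / 4) := by
              linarith [Real.exp_pos (40000 * m ^ 2)]
          _ ≤ _ := by gcongr)
    refine h1.trans ?_
    rw [← ENNReal.ofReal_natCast]
    apply ENNReal.ofReal_le_ofReal
    have := Nat.ceil_lt_add_one (a := 80000 * m ^ 2) (by positivity)
    push_cast; linarith
  have hR : zeroCount f (Rset Y (Y + (J + 3) * H)) ≤ ENNReal.ofReal (5 * J * (80005 * m ^ 2)) := by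
    refine (cnt_cover f (J + 4) (fun i => closedBall (ctr (Y + i * H)) (66 * m)) _
      fun z hz => ?_).trans ?_
    · obtain ⟨z1, z2, z3⟩ := hz
      set i := ⌊(z.re - Y) / H⌋₊ with hi
      have i1 : (i : ℝ) * H ≤ z.re - Y := by
        have := Nat.floor_le (a := (z.re - Y) / H) (div_nonneg (by linarith) H0.le)
        rwa [← hi, le_div_iff₀ H0] at this
      have i2 : z.re - Y < (i + 1) * H := by
        have := Nat.lt_floor_add_one ((z.re - Y) / H)
        rwa [← hi, div_lt_iff₀ H0] at this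
      have i3 : (i : ℝ) ≤ J + 3 := le_of_mul_le_mul_right (by linarith) H0
      have i4 : i ≤ J + 3 := by exact_mod_cast i3
      refine ⟨i, by omega, ?_⟩
      rw [mem_closedBall, dist_eq_norm]
      refine (Complex.norm_le_abs_re_add_abs_im _).trans ?_
      rw [Complex.sub_re, Complex.sub_im, cre, cim, z1, abs_of_nonneg (by linarith),
        abs_of_nonneg (by linarith)]
      linarith
    · calc _ ≤ ∑ i ∈ range (J + 4), ENNReal.ofReal (80005 * m ^ 2) := by
            refine Finset.sum_le_sum fun i hi => hreal _ (le_add_of_nonneg_right (by positivity)) ?_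
            have : (i : ℝ) ≤ J + 3 := by
              have : i ≤ J + 3 := by have := mem_range.1 hi; omega
              exact_mod_cast this
            gcongr
        _ = ENNReal.ofReal ((J + 4 : ℕ) * (80005 * m ^ 2)) := by
            rw [Finset.sum_const, card_range, nsmul_eq_mul,
              ENNReal.ofReal_mul (Nat.cast_nonneg (J + 4)), ENNReal.ofReal_natCast]
        _ ≤ _ := by
            apply ENNReal.ofReal_le_ofReal
            push_cast
            gcongr; linarith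
  -- good windows
  have hG := good_windows (a := coef k u.im) (K := 4 * Real.exp 4) (H := H) (N0 := k) (N := k ^ 2)
    (J := J) (by positivity) (le_trans (by norm_num) (Nat.pow_le_pow_left kn 2)) (by omega)
    (coef_le_one k u.im)
    (fun c hc => coef_sum (by omega) u.im _ c hc) (coef_sq_sum (by omega) u.im)
    (by push_cast; rw [Real.log_pow]; push_cast; linarith)
    (by push_cast; rw [← pow_mul]; norm_num; linarith) (Y + H)
  set G := (range J).filter fun j : ℕ => ∃ x ∈ Set.Icc (Y + H + (j + 1) * H) (Y + H + (j + 2) * H),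
    1 ≤ ‖ES (Icc 1 (k ^ 2)) (coef k u.im) (fun n => -Real.log n) x‖ with hGdef
  have hx : ∀ j : ℕ, ∃ x : ℝ, j ∈ G → (x ∈ Set.Icc (Y + H + (j + 1) * H) (Y + H + (j + 2) * H) ∧
      1 ≤ ‖ES (Icc 1 (k ^ 2)) (coef k u.im) (fun n => -Real.log n) x‖) := by
    intro j
    by_cases h : j ∈ G
    · obtain ⟨x, hx⟩ := (mem_filter.1 h).2
      exact ⟨x, fun _ => hx⟩
    · exact ⟨0, fun h' => absurd h' h⟩
  choose xx hxx using hx
  have hxr : ∀ j ∈ G, Y + 2 * H ≤ xx j ∧ xx j ≤ Y + (J + 2) * H := by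
    intro j hj
    obtain ⟨⟨a1, a2⟩, -⟩ := hxx j hj
    have a3 : (j : ℝ) + 1 ≤ J := by exact_mod_cast mem_range.1 (mem_filter.1 hj).1
    have a4 : (0 : ℝ) ≤ j * H := by positivity
    have a5 : ((j : ℝ) + 1) * H ≤ J * H := by gcongr
    constructor <;> linarith
  have hgood : ∀ j ∈ G, ENNReal.ofReal (δ * m ^ 2) ≤
      zeroCount f (closedBall (ctr (xx j)) (24 * m)) := by
    intro j hj
    obtain ⟨x1, x2⟩ := hxr j hj
    have hD := (hxx j hj).2
    set x := xx j
    set z1 : ℂ := (x : ℂ) + ((m + 1 / 2 - u.re / 2 : ℝ) : ℂ) * I with hz1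
    have z1re : z1.re = x := by
      simp only [hz1, Complex.add_re, Complex.mul_re, Complex.ofReal_re, Complex.ofReal_im]; simp
    have z1im : z1.im = m + 1 / 2 - u.re / 2 := by
      simp only [hz1, Complex.add_im, Complex.mul_im, Complex.ofReal_re, Complex.ofReal_im]; simp
    refine hZ m mm0 f (ctr x) z1 hf ?_ (fun z hz => ?_) (fun z hz => ?_) ?_
    · refine (Complex.norm_le_abs_re_add_abs_im _).trans ?_
      rw [Complex.sub_re, Complex.sub_im, cre, cim, z1re, z1im, sub_self, abs_zero,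
        abs_of_nonneg (by linarith)]
      linarith
    · obtain ⟨a1, a2, a3, a4⟩ := ball_re_im hz
      rw [cre] at a1 a2; rw [cim] at a3 a4
      refine (bU z (abs_le.2 ⟨by linarith, by linarith⟩)).trans ?_
      have b1 : (2 + (u.re / 2 - 1 / 2 + z.im)) ^ 2 ≤ 2500 * m ^ 2 := by
        rw [show 2500 * m ^ 2 = (50 * m) ^ 2 by ring]
        exact sq_le_sq' (by linarith) (by linarith)
      have b2 : 2 ≤ Real.exp (m ^ 2) := by
        have := Real.add_one_le_exp (m ^ 2); linarith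
      rw [show 2501 * m ^ 2 = m ^ 2 + 2500 * m ^ 2 by ring, Real.exp_add]
      gcongr
    · obtain ⟨a1, a2, a3, a4⟩ := ball_re_im hz
      rw [cre] at a1 a2; rw [cim] at a3 a4
      refine bL z (by linarith) ?_
      rw [abs_of_nonneg (by linarith)]; linarith
    · have hμ : u.re / 2 - 1 / 2 + z1.im = m := by rw [z1im]; ring
      have b1 := ser_big (u := u) (z := z1) (k := k) (by linarith) hμ (by rw [z1re]; exact hD)
      have b2 := bB z1 (by rw [z1re]; exact abs_le.2 ⟨by linarith, by linarith⟩)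
      rw [hμ] at b2
      have b3 : Real.exp ((2 + m) ^ 2) = Real.exp (m ^ 2) * Real.exp 4 * k ^ 2 := by
        rw [← Real.exp_log (pow_pos kp 2), ← Real.exp_add, ← Real.exp_add, Real.log_pow]
        congr 1; rw [hm]; push_cast; ring
      have b4 : 224 * Real.exp 5 / U * Real.exp ((2 + m) ^ 2) ≤ Real.exp (m ^ 2) / 4 := by
        rw [b3, div_mul_eq_mul_div, div_le_iff₀ U0]
        have c1 : Real.exp 9 = Real.exp 5 * Real.exp 4 := by rw [← Real.exp_add]; norm_num
        have c2 : 896 * Real.exp 9 * k ^ 2 ≤ U := by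
          refine le_trans ?_ k3
          rw [show (k : ℝ) ^ 3 = k * k ^ 2 by ring]
          gcongr; linarith
        calc _ = Real.exp (m ^ 2) / 4 * (896 * Real.exp 9 * k ^ 2) := by rw [c1]; ring
          _ ≤ _ := by gcongr
      rw [← hm] at b1
      linarith
  have hov := cnt_overlap f G (fun j => closedBall (ctr (xx j)) (24 * m))
    (Nset Y (Y + (J + 3) * H)) (fun j hj z hz => by
      obtain ⟨x1, x2⟩ := hxr j hj
      obtain ⟨a1, a2, a3, a4⟩ := ball_re_im hz
      rw [cre] at a1 a2; rw [cim] at a3 a4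
      have : 0 ≤ (J + 3) * H := by positivity
      exact ⟨ne_of_lt (by linarith), abs_le.2 ⟨by linarith, by linarith⟩, by linarith,
        by linarith⟩) (fun z => by
      set j0 := ⌈(z.re - Y) / H - 4⌉₊ with hj0
      refine le_trans (Finset.card_le_card (t := Ico j0 (j0 + 4)) fun j hj => ?_) (by simp)
      obtain ⟨hj, hz⟩ := mem_filter.1 hj
      obtain ⟨⟨x1, x2⟩, -⟩ := hxx j hj
      obtain ⟨a1, a2, -, -⟩ := ball_re_im hz
      rw [cre] at a1 a2
      rw [mem_Ico]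
      constructor
      · rw [hj0, Nat.ceil_le, sub_le_iff_le_add, div_le_iff₀ H0]; linarith
      · have b1 := Nat.le_ceil ((z.re - Y) / H - 4)
        rw [← hj0, sub_le_iff_le_add, div_le_iff₀ H0] at b1
        have b2 : ((j : ℝ) + 1) * H ≤ (j0 + 4) * H := by linarith
        have b3 : (j : ℝ) + 1 ≤ j0 + 4 := le_of_mul_le_mul_right b2 H0
        exact_mod_cast b3)
  refine ⟨Y + (J + 3) * H, by linarith, c0 * J * (δ * m ^ 2) / 4, ?_, ?_, ?_⟩
  · have : c0 * δ * 1 * 1 ≤ c0 * δ * J * m ^ 2 := by gcongr; linarith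
    linarith
  · rw [← hcnt]
    refine hR.trans (le_of_eq ?_)
    congr 1; field_simp; norm_num
  · rw [← hcnt]
    have h1 : ENNReal.ofReal (#G * (δ * m ^ 2)) ≤ 4 * zeroCount f (Nset Y (Y + (J + 3) * H)) := by
      refine le_trans ?_ hov
      rw [ENNReal.ofReal_mul (by positivity), ENNReal.ofReal_natCast, ← nsmul_eq_mul]
      exact Finset.card_nsmul_le_sum _ _ _ hgood
    have h2 : ENNReal.ofReal (c0 * J * (δ * m ^ 2)) ≤ ENNReal.ofReal (#G * (δ * m ^ 2)) := by
      apply ENNReal.ofReal_le_ofReal; gcongr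
    rw [ENNReal.ofReal_div_of_pos (by norm_num), ENNReal.ofReal_ofNat]
    exact ENNReal.div_le_of_le_mul' (h2.trans h1)

lemma block' : ∃ K > (0 : ℝ), ∃ ε > (0 : ℝ), ∃ Y0 > (0 : ℝ), ∀ Y ≥ Y0, ∃ Y' ≥ Y + 1, ∃ n : ℝ, ε ≤ n ∧
      zeroCount (Xi (-(1 / 4))) (Rset Y Y') ≤ ENNReal.ofReal (K * n) ∧
      ENNReal.ofReal n ≤ zeroCount (Xi (-(1 / 4))) (Nset Y Y') := by
  obtain ⟨K, hK, ε, hε, k0, h⟩ := block
  refine ⟨K, hK, ε, hε, ((k0 + 1 : ℕ) : ℝ) ^ 48, by positivity, fun Y hY => ?_⟩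
  have Y0 : 0 ≤ Y := le_trans (by positivity) hY
  set W := Y ^ ((48 : ℕ) : ℝ)⁻¹ with hW
  have W0 : 0 ≤ W := by positivity
  have W48 : W ^ 48 = Y := Real.rpow_inv_natCast_pow Y0 (by norm_num)
  have W1 : ((k0 + 1 : ℕ) : ℝ) ≤ W := by
    rw [← W48] at hY
    exact (pow_le_pow_iff_left₀ (by positivity) W0 (by norm_num)).1 hY
  have k1 : k0 + 1 ≤ ⌊W⌋₊ := Nat.le_floor W1
  have k2 : (1 : ℝ) ≤ ⌊W⌋₊ := by exact_mod_cast (show 1 ≤ ⌊W⌋₊ by omega)
  have := h ⌊W⌋₊ (by omega) (W ^ 16) (by gcongr; exact Nat.floor_le W0)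
    (by gcongr; linarith [Nat.lt_floor_add_one W])
  rwa [← pow_mul, W48] at this

lemma chain : ∃ K > (0 : ℝ), ∃ ε > (0 : ℝ), ∃ Y0 > (0 : ℝ), ∀ i : ℕ, ∃ T ≥ Y0 + i, ∃ S : ℝ,
      i * ε ≤ S ∧ zeroCount (Xi (-(1 / 4))) (Rset Y0 T) ≤ ENNReal.ofReal (K * S) ∧
      ENNReal.ofReal S ≤ zeroCount (Xi (-(1 / 4))) (Nset Y0 T) := by
  obtain ⟨K, hK, ε, hε, Y0, hY0, h⟩ := block'
  refine ⟨K, hK, ε, hε, Y0, hY0, fun i => ?_⟩
  induction i with
  | zero =>
    refine ⟨Y0, by simp, 0, by simp, ?_, by simp⟩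
    rw [cnt_zero fun z hz => absurd hz.2.1 (not_lt.2 hz.2.2)]; simp
  | succ i ih =>
    obtain ⟨T, hT, S, hS, h1, h2⟩ := ih
    have i0 : (0 : ℝ) ≤ i := Nat.cast_nonneg i
    obtain ⟨T', hT', n, hn, h3, h4⟩ := h T (by linarith)
    have S0 : 0 ≤ S := le_trans (by positivity) hS
    have n0 : 0 ≤ n := by linarith
    refine ⟨T', by push_cast; linarith, S + n, by push_cast; linarith, ?_, ?_⟩
    · rw [mul_add, ENNReal.ofReal_add (by positivity) (by positivity)]
      refine (cnt_mono _ (T := Rset Y0 T ∪ Rset T T') fun z hz => ?_).trans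
        ((cnt_union_le _ _ _).trans (add_le_add h1 h3))
      rcases le_or_gt z.re T with h' | h'
      · exact Or.inl ⟨hz.1, hz.2.1, h'⟩
      · exact Or.inr ⟨hz.1, h', hz.2.2⟩
    · rw [ENNReal.ofReal_add S0 n0]
      refine (add_le_add h2 h4).trans ?_
      rw [← cnt_union _ (Set.disjoint_left.2 fun z a b => absurd b.2.2.1 (not_lt.2 a.2.2.2))]
      refine cnt_mono _ fun z hz => ?_
      rcases hz with a | a
      · exact ⟨a.1, by linarith [a.2.1], a.2.2.1, by linarith [a.2.2.2]⟩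
      · exact ⟨a.1, a.2.1, by linarith [a.2.2.1], a.2.2.2⟩

lemma Xi_ne : ∃ c, Xi (-(1 / 4)) c ≠ 0 := by
  obtain ⟨u, f, -, hf, hc, -, bL, -⟩ := normalised (2688 * Real.exp 5) le_rfl
  set c : ℂ := (((2688 * Real.exp 5) ^ 3 : ℝ) : ℂ) + ((-3 / 2 - u.re / 2 : ℝ) : ℂ) * I with hcd
  have cre : c.re = (2688 * Real.exp 5) ^ 3 := by
    simp only [hcd, Complex.add_re, Complex.mul_re, Complex.ofReal_re, Complex.ofReal_im]; simp
  have cim : c.im = -3 / 2 - u.re / 2 := by
    simp only [hcd, Complex.add_im, Complex.mul_im, Complex.ofReal_re, Complex.ofReal_im]; simp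
  have h1 := (bL c (by rw [cim]; linarith) (by
    rw [cim, cre, sub_self, abs_zero]; linarith [Real.exp_pos 5])).1
  refine ⟨c, fun h => ?_⟩
  have h2 : zeroCount f {c} = 0 := cnt_zero fun z hz h0 => by
    rw [Set.mem_singleton_iff.1 hz] at h0
    rw [h0] at h1; norm_num at h1
  rw [hc, zeroCount, ENNReal.tsum_eq_zero] at h2
  have h3 := h2 ⟨c, rfl⟩
  exact (Xi_diff.analyticAt c).analyticOrderAt_ne_zero.2 h (by simpa using h3)

lemma cnt_fin (T : ℝ) : zeroCount (Xi (-(1 / 4))) (closedBall 0 T) < ⊤ := by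
  obtain ⟨c, hc⟩ := Xi_ne
  set r := |T| + ‖c‖ + 1 with hr
  have r0 : 0 < r := by positivity
  obtain ⟨M, hM⟩ := (isCompact_closedBall c (3 * r)).exists_bound_of_continuousOn
    Xi_diff.continuous.continuousOn
  obtain ⟨n, hn⟩ := pow_unbounded_of_one_lt (M / ‖Xi (-(1 / 4)) c‖) (one_lt_two (α := ℝ))
  rw [div_lt_iff₀ (norm_pos_iff.2 hc)] at hn
  refine lt_of_le_of_lt ((cnt_mono _ fun z hz => ?_).trans (cnt_le Xi_diff r0 hM hn))
    (ENNReal.natCast_lt_top n)
  rw [mem_closedBall, dist_eq_norm] at *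
  have := norm_sub_le z c
  rw [sub_zero] at hz
  linarith [le_abs_self T]

lemma main : ∃ c : ℝ≥0∞, c < 1 ∧ ∃ᶠ T : ℝ in Filter.atTop,
    0 < zeroCount (Xi (-(1 / 4))) {z | |z.re| ≤ T ∧ |z.im| ≤ T} ∧
    zeroCount (Xi (-(1 / 4))) {z | z.im = 0 ∧ ‖z‖ ≤ T}
      ≤ c * zeroCount (Xi (-(1 / 4))) {z | |z.re| ≤ T ∧ |z.im| ≤ T} := by
  obtain ⟨K, hK, ε, hε, Y0, hY0, h⟩ := chain
  refine ⟨ENNReal.ofReal ((2 * K + 1) / (2 * K + 2)), ?_, ?_⟩
  · rw [ENNReal.ofReal_lt_one, div_lt_one (by positivity)]; linarith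
  rw [Filter.frequently_atTop]
  intro a
  set C0 := (zeroCount (Xi (-(1 / 4))) (closedBall 0 Y0)).toReal with hC0
  have C0' : zeroCount (Xi (-(1 / 4))) (closedBall 0 Y0) = ENNReal.ofReal C0 :=
    (ENNReal.ofReal_toReal (cnt_fin Y0).ne).symm
  have C00 : 0 ≤ C0 := ENNReal.toReal_nonneg
  obtain ⟨i, hi⟩ := exists_nat_ge (|a| + (C0 + 1) / ε)
  obtain ⟨T, hT, S, hS, h1, h2⟩ := h i
  have q0 : 0 ≤ (C0 + 1) / ε := by positivity
  have hS' : C0 + 1 ≤ S := by
    have : (C0 + 1) / ε ≤ i := by linarith [abs_nonneg a]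
    rw [div_le_iff₀ hε] at this; linarith
  refine ⟨T, by linarith [le_abs_self a], ?_⟩
  set R := zeroCount (Xi (-(1 / 4))) {z | z.im = 0 ∧ ‖z‖ ≤ T} with hR
  have hR1 : R ≤ ENNReal.ofReal ((2 * K + 1) * S) := by
    have h3 := (cnt_mirror Xi_diff (Xi_conj _) (Rset Y0 T)).trans h1
    calc R ≤ zeroCount (Xi (-(1 / 4))) (closedBall 0 Y0 ∪ Rset Y0 T
          ∪ {z | -(starRingEnd ℂ) z ∈ Rset Y0 T}) := by
          refine cnt_mono _ fun z hz => ?_
          obtain ⟨z1, z2⟩ := hz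
          have z3 := abs_le.1 ((Complex.abs_re_le_norm z).trans z2)
          by_cases a1 : Y0 < z.re
          · exact Or.inl (Or.inr ⟨z1, a1, z3.2⟩)
          by_cases a2 : Y0 < -z.re
          · exact Or.inr ⟨by simp [z1], by simpa using a2, by simp; linarith [z3.1]⟩
          refine Or.inl (Or.inl ?_)
          rw [mem_closedBall, dist_zero_right]
          refine (Complex.norm_le_abs_re_add_abs_im z).trans ?_
          rw [z1, abs_zero, add_zero, abs_le]; constructor <;> linarith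
      _ ≤ ENNReal.ofReal C0 + ENNReal.ofReal (K * S) + ENNReal.ofReal (K * S) :=
          (cnt_union_le _ _ _).trans (add_le_add ((cnt_union_le _ _ _).trans
            (add_le_add C0'.le h1)) h3)
      _ ≤ _ := by
          have : 0 ≤ K * S := by have : 0 ≤ S := by linarith
                                 positivity
          rw [← ENNReal.ofReal_add C00 this, ← ENNReal.ofReal_add (by linarith) this]
          apply ENNReal.ofReal_le_ofReal; linarith
  have hB : R + ENNReal.ofReal S ≤ zeroCount (Xi (-(1 / 4))) {z | |z.re| ≤ T ∧ |z.im| ≤ T} := by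
    refine (add_le_add le_rfl h2).trans ?_
    rw [hR, ← cnt_union _ (Set.disjoint_left.2 fun z a b => b.1 a.1)]
    refine cnt_mono _ fun z hz => ?_
    rcases hz with a | a
    · exact ⟨(Complex.abs_re_le_norm z).trans a.2, (Complex.abs_im_le_norm z).trans a.2⟩
    · exact ⟨abs_le.2 ⟨by linarith [a.2.2.1, a.2.2.2], a.2.2.2⟩, a.2.1⟩
  refine ⟨lt_of_lt_of_le ?_ hB, le_trans ?_ (mul_le_mul_right hB _)⟩
  · exact lt_of_lt_of_le (ENNReal.ofReal_pos.2 (by linarith)) le_add_self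
  · have Rf : R ≠ ⊤ := ne_top_of_le_ne_top ENNReal.ofReal_ne_top hR1
    have S0 : 0 ≤ S := by linarith
    rw [← ENNReal.ofReal_toReal Rf] at hR1 ⊢
    rw [ENNReal.ofReal_le_ofReal_iff (by positivity)] at hR1
    rw [← ENNReal.ofReal_add ENNReal.toReal_nonneg S0, ← ENNReal.ofReal_mul (by positivity)]
    apply ENNReal.ofReal_le_ofReal
    rw [div_mul_eq_mul_div, le_div_iff₀ (by positivity)]
    linarith

lemma Xi_integrable (z : ℂ) : MeasureTheory.Integrable fun t : ℝ =>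
    ((Phi t * Real.exp (-(1 / 4) * t ^ 2) : ℝ) : ℂ) * Complex.exp (Complex.I * z * (t : ℂ)) := by
  have e : ∀ t, ∑' n, FF n z t = ((Phi t * Real.exp (-(1 / 4) * t ^ 2) : ℝ) : ℂ)
      * exp (I * z * (t : ℂ)) := by
    intro t
    unfold FF
    rw [tsum_mul_right, ← Complex.ofReal_tsum, tsum_mul_right, Phi, ← tsum_mul_left]
    rfl
  simp_rw [← e]
  constructor
  · exact (Measurable.tsum fun n => (FF_cont n z).measurable).aestronglyMeasurable
  · rw [MeasureTheory.hasFiniteIntegral_iff_enorm]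
    refine lt_of_le_of_lt (MeasureTheory.lintegral_mono fun t => enorm_tsum_le_tsum_enorm) ?_
    rw [MeasureTheory.lintegral_tsum fun n => (FF_cont n z).measurable.enorm.aemeasurable]
    have h : ∀ n, ∫⁻ t, ‖FF n z t‖ₑ ≤ ENNReal.ofReal
        (Real.exp ((|z.im| + 3) ^ 2) * 7 * (1 / ((n : ℝ) + 1) ^ 2)) := by
      intro n
      rw [← MeasureTheory.ofReal_integral_norm_eq_lintegral_enorm (FF_integrable n z)]
      exact ENNReal.ofReal_le_ofReal (FF_int_norm n z le_rfl)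
    refine lt_of_le_of_lt (ENNReal.tsum_le_tsum h) ?_
    rw [← ENNReal.ofReal_tsum_of_nonneg (fun n => by positivity) (summable_sq.mul_left _)]
    exact ENNReal.ofReal_lt_top

end H19Xi
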