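import Mathlib

open Complex Finset

namespace H19Xi

noncomputable def osc (θ a b : ℝ) : ℂ := ∫ x in a..b, exp (I * θ * (x : ℂ))

lemma osc_le1 (θ a b : ℝ) : ‖osc θ a b‖ ≤ |b - a| := by
  have := intervalIntegral.norm_integral_le_of_norm_le_const (a := a) (b := b) (C := 1)
    (f := fun x : ℝ => exp (I * θ * (x : ℂ))) (fun x _ => by
      rw [Complex.norm_exp]; simp)
  simpa [osc] using this

lemma osc_le2 {θ : ℝ} (h : θ ≠ 0) (a b : ℝ) : ‖osc θ a b‖ ≤ 2 / |θ| := by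
  rw [osc, integral_exp_mul_complex (by simpa using h), norm_div, norm_mul, Complex.norm_I,
    one_mul, Complex.norm_real, Real.norm_eq_abs]
  gcongr
  refine (norm_sub_le _ _).trans ?_
  rw [Complex.norm_exp, Complex.norm_exp]; simp; norm_num

lemma osc_zero (a b : ℝ) : osc 0 a b = ((b - a : ℝ) : ℂ) := by simp [osc]

lemma osc_shift (θ x a : ℝ) : osc θ x (x + a) = osc θ 0 a * exp (I * θ * (x : ℂ)) := by
  rw [osc, osc, ← intervalIntegral.integral_mul_const]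
  have := intervalIntegral.integral_comp_add_left (a := 0) (b := a)
    (fun y : ℝ => exp (I * θ * (y : ℂ))) x
  rw [add_zero] at this
  rw [← this]
  congr 1; ext y
  rw [← Complex.exp_add]; congr 1; push_cast; ring

noncomputable def ES {ι : Type*} (s : Finset ι) (c : ι → ℂ) (ω : ι → ℝ) (x : ℝ) : ℂ :=
  ∑ i ∈ s, c i * exp (I * ω i * (x : ℂ))

lemma ES_cont {ι : Type*} (s : Finset ι) (c : ι → ℂ) (ω : ι → ℝ) : Continuous (ES s c ω) := by
  unfold ES; fun_prop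

lemma ES_int {ι : Type*} (s : Finset ι) (c : ι → ℂ) (ω : ι → ℝ) (a b : ℝ) :
    ((∫ x in a..b, ‖ES s c ω x‖ ^ 2 : ℝ) : ℂ)
      = ∑ i ∈ s, ∑ j ∈ s, c i * (starRingEnd ℂ) (c j) * osc (ω i - ω j) a b := by
  rw [← intervalIntegral.integral_ofReal]
  have e : ∀ x : ℝ, ((‖ES s c ω x‖ ^ 2 : ℝ) : ℂ) = ∑ i ∈ s, ∑ j ∈ s,
      c i * (starRingEnd ℂ) (c j) * exp (I * (ω i - ω j : ℝ) * (x : ℂ)) := by
    intro x
    rw [← Complex.normSq_eq_norm_sq, ← Complex.mul_conj, ES, map_sum, Finset.sum_mul_sum]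
    refine Finset.sum_congr rfl fun i _ => Finset.sum_congr rfl fun j _ => ?_
    rw [map_mul, ← Complex.exp_conj]
    have : exp (I * (ω i - ω j : ℝ) * (x : ℂ)) = exp (I * ω i * (x : ℂ))
        * exp ((starRingEnd ℂ) (I * ω j * (x : ℂ))) := by
      rw [← Complex.exp_add]; congr 1; simp; ring
    rw [this]; ring
  simp_rw [e]
  rw [intervalIntegral.integral_finsetSum fun i _ => Continuous.intervalIntegrable (by fun_prop) _ _]
  refine Finset.sum_congr rfl fun i _ => ?_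
  rw [intervalIntegral.integral_finsetSum fun i _ => Continuous.intervalIntegrable (by fun_prop) _ _]
  refine Finset.sum_congr rfl fun j _ => ?_
  rw [intervalIntegral.integral_const_mul, osc]

lemma mean_value {ι : Type*} (s : Finset ι) (c : ι → ℂ) (ω : ι → ℝ) {δ : ℝ} (hδ : 0 < δ)
    (hsep : ∀ i ∈ s, ∀ j ∈ s, ω i ≠ ω j → δ ≤ |ω i - ω j|) (A V : ℝ) :
    ‖((∫ x in A..A + V, ‖ES s c ω x‖ ^ 2 : ℝ) : ℂ)
      - V * ∑ i ∈ s, ∑ j ∈ s, if ω i = ω j then c i * (starRingEnd ℂ) (c j) else 0‖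
      ≤ 2 / δ * (∑ i ∈ s, ‖c i‖) ^ 2 := by
  rw [ES_int, Finset.mul_sum, ← Finset.sum_sub_distrib, sq, Finset.sum_mul_sum, Finset.mul_sum]
  refine norm_sum_le_of_le _ fun i hi => ?_
  rw [Finset.mul_sum, ← Finset.sum_sub_distrib, Finset.mul_sum]
  refine norm_sum_le_of_le _ fun j hj => ?_
  split_ifs with h
  · rw [h, sub_self, osc_zero]
    have : c i * (starRingEnd ℂ) (c j) * ((A + V - A : ℝ) : ℂ) - V * (c i * (starRingEnd ℂ) (c j))
        = 0 := by push_cast; ring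
    rw [this, norm_zero]; positivity
  · rw [mul_zero, sub_zero, norm_mul, norm_mul, Complex.norm_conj, mul_comm]
    gcongr
    refine (osc_le2 (sub_ne_zero.2 h) _ _).trans ?_
    gcongr
    exact hsep i hi j hj h

lemma log_sep {p q M : ℕ} (hp : 1 ≤ p) (hq : 1 ≤ q) (hpM : p ≤ M) (hqM : q ≤ M) (h : p ≠ q) :
    1 / (M : ℝ) ≤ |Real.log p - Real.log q| := by
  have key : ∀ p q : ℕ, 1 ≤ p → q ≤ M → p < q → 1 / (M : ℝ) ≤ Real.log q - Real.log p := by
    intro p q hp hq h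
    have p0 : (0 : ℝ) < p := by exact_mod_cast hp
    have h1 : (p : ℝ) + 1 ≤ q := by exact_mod_cast h
    have h2 : (q : ℝ) ≤ M := by exact_mod_cast hq
    have q0 : (0 : ℝ) < q := by linarith
    have := Real.log_le_sub_one_of_pos (x := (p : ℝ) / q) (by positivity)
    rw [Real.log_div p0.ne' q0.ne'] at this
    have h3 : 1 / (M : ℝ) ≤ 1 / q := by gcongr
    have h4 : (p : ℝ) / q - 1 ≤ -(1 / q) := by
      rw [div_sub_one q0.ne', ← neg_div]; gcongr; linarith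
    linarith
  rcases lt_or_gt_of_ne h with h | h
  · rw [abs_sub_comm]; exact (key p q hp hqM h).trans (le_abs_self _)
  · exact (key q p hq hpM h).trans (le_abs_self _)

lemma cover_sum {α β : Type*} [DecidableEq α] (P : Finset α) (Q : Finset β) (φ : β → α)
    (F : α → ℝ) (hF : ∀ x, 0 ≤ F x) (h : ∀ x ∈ P, ∃ y ∈ Q, φ y = x) :
    ∑ x ∈ P, F x ≤ ∑ y ∈ Q, F (φ y) := by
  rw [Finset.sum_comp F φ]
  calc ∑ x ∈ P, F x ≤ ∑ x ∈ Q.image φ, F x :=
        Finset.sum_le_sum_of_subset_of_nonneg (fun x hx => Finset.mem_image.2 (h x hx))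
          fun x _ _ => hF x
    _ ≤ _ := by
        refine Finset.sum_le_sum fun x hx => ?_
        obtain ⟨y, hy, rfl⟩ := Finset.mem_image.1 hx
        have : 1 ≤ #{a ∈ Q | φ a = φ y} := Finset.card_pos.2 ⟨y, by simp [hy]⟩
        rw [nsmul_eq_mul]
        have h1 : (1 : ℝ) ≤ #{a ∈ Q | φ a = φ y} := by exact_mod_cast this
        nlinarith [hF (φ y)]

lemma param {N m n m' n' : ℕ} (hm : m ∈ Icc 1 N) (hn : n ∈ Icc 1 N) (hm' : m' ∈ Icc 1 N)
    (hn' : n' ∈ Icc 1 N) (h : n * m' = n' * m) : ∃ b ∈ Icc 1 N, ∃ c ∈ Icc 1 N, ∃ g ∈ Icc 1 N,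
      ∃ g' ∈ Icc 1 N, g * b = m ∧ g * c = n ∧ g' * b = m' ∧ g' * c = n' := by
  rw [mem_Icc] at *
  obtain ⟨b, c, hbc, h1, h2⟩ := Nat.exists_coprime m n
  set g := Nat.gcd m n
  have g0 : 0 < g := Nat.gcd_pos_of_pos_left _ hm.1
  have h3 : c * m' = n' * b := by
    apply Nat.eq_of_mul_eq_mul_left g0
    calc g * (c * m') = (c * g) * m' := by ring
      _ = n' * (b * g) := by rw [← h2, ← h1, h]
      _ = _ := by ring
  obtain ⟨g', hg'⟩ : b ∣ m' := hbc.dvd_of_dvd_mul_left ⟨n', by rw [h3]; ring⟩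
  have b0 : 0 < b := Nat.pos_of_ne_zero (by rintro rfl; omega)
  have c0 : 0 < c := Nat.pos_of_ne_zero (by rintro rfl; omega)
  have g0' : 0 < g' := Nat.pos_of_ne_zero (by rintro rfl; omega)
  have h4 : g' * c = n' := by
    apply Nat.eq_of_mul_eq_mul_left b0
    calc b * (g' * c) = c * (b * g') := by ring
      _ = n' * b := by rw [← hg', h3]
      _ = _ := by ring
  refine ⟨b, ?_, c, ?_, g, ?_, g', ?_, by rw [h1]; ring, by rw [h2]; ring, by rw [hg']; ring, h4⟩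
  all_goals rw [mem_Icc]; constructor <;> nlinarith

lemma tele3 {β : ℝ} (hβ : 0 < β) (n : ℕ) :
    ∑ k ∈ range n, 1 / (β + (k + 1 : ℕ)) ^ 2 ≤ 1 / β - 1 / (β + n) := by
  induction n with
  | zero => simp
  | succ n ih =>
    rw [Finset.sum_range_succ]
    push_cast at *
    have : 1 / (β + ((n : ℝ) + 1)) ^ 2 ≤ 1 / (β + n) - 1 / (β + (n + 1)) := by
      rw [div_sub_div _ _ (by positivity) (by positivity), div_le_div_iff₀ (by positivity)
        (by positivity)]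
      nlinarith [Nat.cast_nonneg (α := ℝ) n]
    linarith

lemma tele4 {β : ℝ} (hβ : 0 < β) (N c : ℕ) :
    ∑ b ∈ Icc 1 N, (if b < c then 1 / (β + (c - b : ℕ)) ^ 2 else 0) ≤ 1 / β := by
  rw [← Finset.sum_filter]
  calc _ ≤ ∑ b ∈ range c, 1 / (β + (c - b : ℕ)) ^ 2 :=
        Finset.sum_le_sum_of_subset_of_nonneg (fun b hb => by simp at hb ⊢; omega)
          fun _ _ _ => by positivity
    _ = ∑ k ∈ range c, 1 / (β + (k + 1 : ℕ)) ^ 2 := by
        rw [← Finset.sum_range_reflect (fun k => 1 / (β + (k + 1 : ℕ)) ^ 2) c]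
        refine Finset.sum_congr rfl fun b hb => ?_
        rw [mem_range] at hb
        rw [show c - 1 - b + 1 = c - b by omega]
    _ ≤ 1 / β := by
        have := tele3 hβ c
        have : 0 ≤ 1 / (β + c) := by positivity
        linarith

lemma kap_lt {H : ℝ} (hH : 0 < H) {b c : ℕ} (hb : 1 ≤ b) (hbc : b < c) {θ : ℝ}
    (hθ : |θ| = Real.log c - Real.log b) :
    ‖osc θ 0 (2 * H)‖ ^ 2 / (c : ℝ) ^ 2 ≤ 16 * (1 / (c / H + (c - b : ℕ)) ^ 2) := by
  have b0 : (0 : ℝ) < b := by exact_mod_cast hb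
  have h1 : (b : ℝ) + 1 ≤ c := by exact_mod_cast hbc
  have c0 : (0 : ℝ) < c := by linarith
  rw [Nat.cast_sub hbc.le]
  set k : ℝ := c - b with hk
  have k0 : 0 < k := by linarith
  have hl : k / c ≤ |θ| := by
    have := Real.log_le_sub_one_of_pos (x := (b : ℝ) / c) (by positivity)
    rw [Real.log_div b0.ne' c0.ne', div_sub_one c0.ne'] at this
    have e : ((b : ℝ) - c) / c = -(k / c) := by rw [hk]; ring
    linarith
  have θ0 : θ ≠ 0 := by
    intro h; rw [h, abs_zero] at hl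
    have : 0 < k / c := by positivity
    linarith
  have a1 := osc_le1 θ 0 (2 * H)
  rw [sub_zero, abs_of_pos (by positivity)] at a1
  have a2 : ‖osc θ 0 (2 * H)‖ ≤ 2 / (k / c) := (osc_le2 θ0 _ _).trans (by gcongr)
  set κ := ‖osc θ 0 (2 * H)‖
  have κ0 : 0 ≤ κ := norm_nonneg _
  have a3 : κ * (c / H) ≤ 2 * c := by
    calc κ * (c / H) ≤ 2 * H * (c / H) := by gcongr
      _ = _ := by field_simp
  have a4 : κ * k ≤ 2 * c := by
    calc κ * k ≤ 2 / (k / c) * k := by gcongr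
      _ = _ := by field_simp
  rw [mul_one_div, div_le_div_iff₀ (by positivity) (by positivity), ← mul_pow,
    show (16 : ℝ) * c ^ 2 = (4 * c) ^ 2 by ring]
  exact pow_le_pow_left₀ (by positivity) (by linarith) 2

lemma sum_inv_sq (N : ℕ) : ∑ b ∈ Icc 1 N, 1 / (b : ℝ) ^ 2 ≤ 2 := by
  have h := (hasSum_zeta_two).summable.sum_le_tsum (Icc 1 N) (fun _ _ => by positivity)
  rw [hasSum_zeta_two.tsum_eq] at h
  nlinarith [Real.pi_lt_d2, Real.pi_pos]

lemma sum_inv (N : ℕ) : ∑ b ∈ Icc 1 N, 1 / (b : ℝ) ≤ 1 + Real.log N := by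
  have := harmonic_le_one_add_log N
  simp_rw [harmonic_eq_sum_Icc, Rat.cast_sum, Rat.cast_inv, Rat.cast_natCast] at this
  simpa using this

lemma kap_sum {H : ℝ} (N : ℕ) (hH0 : 0 < H) (hH : 1 + Real.log N ≤ H) :
    ∑ b ∈ Icc 1 N, ∑ c ∈ Icc 1 N,
      ‖osc (Real.log c - Real.log b) 0 (2 * H)‖ ^ 2 / ((max b c : ℕ) : ℝ) ^ 2 ≤ 40 * H ^ 2 := by
  have key : ∀ b ∈ Icc 1 N, ∀ c ∈ Icc 1 N,
      ‖osc (Real.log c - Real.log b) 0 (2 * H)‖ ^ 2 / ((max b c : ℕ) : ℝ) ^ 2 ≤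
      (if b = c then 4 * H ^ 2 * (1 / (b : ℝ) ^ 2) else 0)
      + 16 * (if b < c then 1 / (c / H + (c - b : ℕ)) ^ 2 else 0)
      + 16 * (if c < b then 1 / (b / H + (b - c : ℕ)) ^ 2 else 0) := by
    intro b hb c hc
    rw [mem_Icc] at hb hc
    have b0 : (0 : ℝ) < b := by exact_mod_cast hb.1
    have c0 : (0 : ℝ) < c := by exact_mod_cast hc.1
    rcases lt_trichotomy b c with h | h | h
    · rw [if_neg h.ne, if_pos h, if_neg (by omega), max_eq_right h.le]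
      have := kap_lt hH0 hb.1 h (θ := Real.log c - Real.log b) (abs_of_nonneg
        (sub_nonneg.2 (Real.log_le_log b0 (by exact_mod_cast h.le))))
      linarith
    · subst h
      simp only [if_true, lt_self_iff_false, if_false, max_self, sub_self, osc_zero]
      rw [Complex.norm_real, sub_zero, Real.norm_of_nonneg (by positivity)]
      apply le_of_eq; ring
    · rw [if_neg h.ne', if_neg (by omega), if_pos h, max_eq_left h.le]
      have := kap_lt hH0 hc.1 h (θ := Real.log c - Real.log b) (by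
        rw [abs_sub_comm]; exact abs_of_nonneg
          (sub_nonneg.2 (Real.log_le_log c0 (by exact_mod_cast h.le))))
      linarith
  refine (Finset.sum_le_sum fun b hb => Finset.sum_le_sum fun c hc => key b hb c hc).trans ?_
  simp only [Finset.sum_add_distrib, ← Finset.mul_sum]
  have s1 : ∑ b ∈ Icc 1 N, ∑ c ∈ Icc 1 N, (if b = c then 4 * H ^ 2 * (1 / (b : ℝ) ^ 2) else 0)
      ≤ 8 * H ^ 2 := by
    have : ∀ b ∈ Icc 1 N, ∑ c ∈ Icc 1 N, (if b = c then 4 * H ^ 2 * (1 / (b : ℝ) ^ 2) else 0)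
        = 4 * H ^ 2 * (1 / (b : ℝ) ^ 2) := by
      intro b hb; rw [Finset.sum_ite_eq, if_pos hb]
    rw [Finset.sum_congr rfl this, ← Finset.mul_sum]
    nlinarith [sum_inv_sq N, sq_nonneg H]
  have s2 : ∑ b ∈ Icc 1 N, ∑ c ∈ Icc 1 N,
      (if c < b then 1 / ((b : ℝ) / H + (b - c : ℕ)) ^ 2 else 0) ≤ H ^ 2 := by
    calc _ ≤ ∑ b ∈ Icc 1 N, H * (1 / (b : ℝ)) := by
          refine Finset.sum_le_sum fun b hb => ?_
          have b0 : (0 : ℝ) < b := by exact_mod_cast (mem_Icc.1 hb).1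
          refine (tele4 (β := b / H) (by positivity) N b).trans (le_of_eq ?_)
          field_simp
      _ ≤ H * H := by
          rw [← Finset.mul_sum]; gcongr; exact (sum_inv N).trans hH
      _ = _ := by ring
  have s3 : ∑ b ∈ Icc 1 N, ∑ c ∈ Icc 1 N,
      (if b < c then 1 / ((c : ℝ) / H + (c - b : ℕ)) ^ 2 else 0) ≤ H ^ 2 := by
    rw [Finset.sum_comm]; exact s2
  linarith

lemma log_pair {N : ℕ} {p q : ℕ × ℕ} (hp : p ∈ Icc 1 N ×ˢ Icc 1 N) (hq : q ∈ Icc 1 N ×ˢ Icc 1 N) :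
    (-Real.log p.1 - -Real.log p.2) - (-Real.log q.1 - -Real.log q.2)
      = Real.log (p.2 * q.1 : ℕ) - Real.log (q.2 * p.1 : ℕ) := by
  simp only [mem_product, mem_Icc] at hp hq
  have a1 : (p.1 : ℝ) ≠ 0 := by have := hp.1.1; positivity
  have a2 : (p.2 : ℝ) ≠ 0 := by have := hp.2.1; positivity
  have a3 : (q.1 : ℝ) ≠ 0 := by have := hq.1.1; positivity
  have a4 : (q.2 : ℝ) ≠ 0 := by have := hq.2.1; positivity
  push_cast
  rw [Real.log_mul a2 a3, Real.log_mul a4 a1]; ring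

lemma diag_bound {a : ℕ → ℂ} {K H : ℝ} {N0 N : ℕ} (hK : 0 < K) (hH0 : 0 < H)
    (h1 : ∀ n, ‖a n‖ ≤ 1)
    (h2 : ∀ c : ℕ, 1 ≤ c → ∑ g ∈ Icc 1 N, ‖a (g * c)‖ ≤ K * N0 / c)
    (hH : 1 + Real.log N ≤ H) (cc : ℕ × ℕ → ℂ)
    (hcc : ∀ p, cc p = a p.1 * (starRingEnd ℂ) (a p.2) *
      osc (-Real.log p.1 - -Real.log p.2) 0 (2 * H)) :
    ‖∑ p ∈ Icc 1 N ×ˢ Icc 1 N, ∑ q ∈ Icc 1 N ×ˢ Icc 1 N,
      if (-Real.log p.1 - -Real.log p.2) = (-Real.log q.1 - -Real.log q.2)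
        then cc p * (starRingEnd ℂ) (cc q) else 0‖ ≤ 40 * K ^ 2 * N0 ^ 2 * H ^ 2 := by
  classical
  set s := Icc 1 N with hs
  rw [← Finset.sum_product', ← Finset.sum_filter]
  refine (norm_sum_le _ _).trans ?_
  have hc := cover_sum (((s ×ˢ s) ×ˢ (s ×ˢ s)).filter fun x : (ℕ × ℕ) × (ℕ × ℕ) =>
      (-Real.log x.1.1 - -Real.log x.1.2) = (-Real.log x.2.1 - -Real.log x.2.2))
    ((s ×ˢ s) ×ˢ (s ×ˢ s))
    (fun y : (ℕ × ℕ) × (ℕ × ℕ) => ((y.2.1 * y.1.1, y.2.1 * y.1.2), (y.2.2 * y.1.1, y.2.2 * y.1.2)))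
    (fun x => ‖cc x.1 * (starRingEnd ℂ) (cc x.2)‖) (fun _ => norm_nonneg _) (by
      rintro ⟨p, q⟩ hx
      rw [mem_filter, mem_product] at hx
      obtain ⟨⟨hp, hq⟩, he⟩ := hx
      have e := log_pair hp hq
      dsimp only at he hp hq
      rw [he, sub_self] at e
      rw [mem_product] at hp hq
      have p1 := (mem_Icc.1 hp.1).1
      have p2 := (mem_Icc.1 hp.2).1
      have q1 := (mem_Icc.1 hq.1).1
      have q2 := (mem_Icc.1 hq.2).1
      have e2 : ((p.2 * q.1 : ℕ) : ℝ) = (q.2 * p.1 : ℕ) :=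
        Real.log_injOn_pos (Set.mem_Ioi.2 (by positivity)) (Set.mem_Ioi.2 (by positivity))
          (by linarith)
      obtain ⟨b, hb, c, hc, g, hg, g', hg', e1, e3, e4, e5⟩ :=
        param hp.1 hp.2 hq.1 hq.2 (by exact_mod_cast e2)
      refine ⟨((b, c), (g, g')), by simp only [mem_product]; exact ⟨⟨hb, hc⟩, hg, hg'⟩, ?_⟩
      simp only [e1, e3, e4, e5])
  refine hc.trans ?_
  rw [Finset.sum_product]
  have key : ∀ p ∈ s ×ˢ s, ∑ q ∈ s ×ˢ s, ‖cc (q.1 * p.1, q.1 * p.2) *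
      (starRingEnd ℂ) (cc (q.2 * p.1, q.2 * p.2))‖ ≤ K ^ 2 * N0 ^ 2 *
      (‖osc (Real.log p.2 - Real.log p.1) 0 (2 * H)‖ ^ 2 / ((max p.1 p.2 : ℕ) : ℝ) ^ 2) := by
    rintro ⟨b, c⟩ hp
    rw [mem_product] at hp
    have b1 := (mem_Icc.1 hp.1).1
    have c1 := (mem_Icc.1 hp.2).1
    dsimp only at b1 c1 ⊢
    set κ := ‖osc (Real.log c - Real.log b) 0 (2 * H)‖
    have e : ∀ g ∈ s, ‖cc (g * b, g * c)‖ ≤ ‖a (g * max b c)‖ * κ := by
      intro g hg
      have g1 := (mem_Icc.1 hg).1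
      have e1 : -Real.log (g * b : ℕ) - -Real.log (g * c : ℕ) = Real.log c - Real.log b := by
        push_cast
        rw [Real.log_mul (by positivity) (by positivity),
          Real.log_mul (by positivity) (by positivity)]; ring
      rw [hcc]; dsimp only
      rw [e1, norm_mul, norm_mul, Complex.norm_conj]
      gcongr
      rcases max_choice b c with h | h <;> rw [h]
      · exact mul_le_of_le_one_right (norm_nonneg _) (h1 _)
      · exact mul_le_of_le_one_left (norm_nonneg _) (h1 _)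
    have m1 : 1 ≤ max b c := le_max_of_le_left b1
    have r : ∑ g ∈ s, ‖cc (g * b, g * c)‖ ≤ K * N0 / (max b c : ℕ) * κ := by
      refine (Finset.sum_le_sum e).trans ?_
      rw [← Finset.sum_mul]
      gcongr
      exact h2 _ m1
    rw [Finset.sum_product]
    simp only [norm_mul, Complex.norm_conj]
    rw [← Finset.sum_mul_sum, ← sq]
    calc _ ≤ (K * N0 / (max b c : ℕ) * κ) ^ 2 :=
          pow_le_pow_left₀ (Finset.sum_nonneg fun _ _ => norm_nonneg _) r 2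
      _ = _ := by ring
  refine (Finset.sum_le_sum key).trans ?_
  rw [← Finset.mul_sum, Finset.sum_product]
  have := kap_sum N hH0 hH
  calc _ ≤ K ^ 2 * N0 ^ 2 * (40 * H ^ 2) := by gcongr
    _ = _ := by ring

lemma sum_norm_le {a : ℕ → ℂ} (h1 : ∀ n, ‖a n‖ ≤ 1) (N : ℕ) : ∑ n ∈ Icc 1 N, ‖a n‖ ≤ N := by
  calc _ ≤ ∑ n ∈ Icc 1 N, (1 : ℝ) := Finset.sum_le_sum fun n _ => h1 n
    _ = _ := by simp

lemma first_moment {a : ℕ → ℂ} (h1 : ∀ n, ‖a n‖ ≤ 1) {N : ℕ} (hN : 1 ≤ N) (A V : ℝ) :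
    V * ∑ n ∈ Icc 1 N, ‖a n‖ ^ 2 - 2 * N ^ 3
      ≤ ∫ x in A..A + V, ‖ES (Icc 1 N) a (fun n => -Real.log n) x‖ ^ 2 := by
  have N0 : (0 : ℝ) < N := by exact_mod_cast hN
  have h := mean_value (Icc 1 N) a (fun n => -Real.log n) (δ := 1 / N) (by positivity) (by
    intro i hi j hj hij
    rw [mem_Icc] at hi hj
    have := log_sep hj.1 hi.1 hj.2 hi.2 (by rintro rfl; exact hij rfl)
    rwa [neg_sub_neg]) A V
  have e : ∑ i ∈ Icc 1 N, ∑ j ∈ Icc 1 N, (if -Real.log i = -Real.log j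
      then a i * (starRingEnd ℂ) (a j) else 0) = ((∑ n ∈ Icc 1 N, ‖a n‖ ^ 2 : ℝ) : ℂ) := by
    push_cast
    refine Finset.sum_congr rfl fun i hi => ?_
    rw [Finset.sum_eq_single i]
    · rw [if_pos rfl, Complex.mul_conj, Complex.normSq_eq_norm_sq]; push_cast; rfl
    · intro j hj hji
      rw [if_neg]
      intro h
      have i1 := (mem_Icc.1 hi).1
      have j1 := (mem_Icc.1 hj).1
      have : (j : ℝ) = i := Real.log_injOn_pos (Set.mem_Ioi.2 (by positivity))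
        (Set.mem_Ioi.2 (by positivity)) (by linarith)
      exact hji (by exact_mod_cast this)
    · intro h; exact absurd hi h
  rw [e, ← Complex.ofReal_mul, ← Complex.ofReal_sub, Complex.norm_real, Real.norm_eq_abs] at h
  have h2 := (abs_le.1 h).1
  have h3 : 2 / (1 / (N : ℝ)) * (∑ i ∈ Icc 1 N, ‖a i‖) ^ 2 ≤ 2 * N ^ 3 := by
    calc _ ≤ 2 / (1 / (N : ℝ)) * N ^ 2 := by
          gcongr
          exact sum_norm_le h1 N
      _ = _ := by field_simp
  linarith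

lemma second_moment {a : ℕ → ℂ} {K H : ℝ} {N0 N : ℕ} (hK : 0 < K) (hH0 : 0 < H) (hN : 1 ≤ N)
    (h1 : ∀ n, ‖a n‖ ≤ 1)
    (h2 : ∀ c : ℕ, 1 ≤ c → ∑ g ∈ Icc 1 N, ‖a (g * c)‖ ≤ K * N0 / c)
    (hH : 1 + Real.log N ≤ H) (A : ℝ) {V : ℝ} (hV : 0 ≤ V) :
    ∫ y in A..A + V, (∫ x in y..y + 2 * H, ‖ES (Icc 1 N) a (fun n => -Real.log n) x‖ ^ 2) ^ 2
      ≤ V * (40 * K ^ 2 * N0 ^ 2 * H ^ 2) + 8 * H ^ 2 * N ^ 6 := by
  classical
  have N0' : (0 : ℝ) < N := by exact_mod_cast hN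
  set s := Icc 1 N with hs
  set cc : ℕ × ℕ → ℂ := fun p => a p.1 * (starRingEnd ℂ) (a p.2) *
      osc (-Real.log p.1 - -Real.log p.2) 0 (2 * H) with hcc
  set θ : ℕ × ℕ → ℝ := fun p => -Real.log p.1 - -Real.log p.2 with hθ
  have e : ∀ y : ℝ, (∫ x in y..y + 2 * H, ‖ES s a (fun n => -Real.log n) x‖ ^ 2) ^ 2
      = ‖ES (s ×ˢ s) cc θ y‖ ^ 2 := by
    intro y
    have : ((∫ x in y..y + 2 * H, ‖ES s a (fun n => -Real.log n) x‖ ^ 2 : ℝ) : ℂ)
        = ES (s ×ˢ s) cc θ y := by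
      rw [ES_int, ES, Finset.sum_product]
      refine Finset.sum_congr rfl fun i _ => Finset.sum_congr rfl fun j _ => ?_
      rw [osc_shift, hcc, hθ]; dsimp only; ring
    rw [← this, Complex.norm_real, Real.norm_eq_abs, sq_abs]
  simp_rw [e]
  have h := mean_value (s ×ˢ s) cc θ (δ := 1 / ((N * N : ℕ) : ℝ)) (by positivity) (by
    intro p hp q hq hpq
    have e := log_pair hp hq
    rw [hθ]; dsimp only
    rw [e]
    simp only [hs, mem_product, mem_Icc] at hp hq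
    refine log_sep (Nat.mul_pos hp.2.1 hq.1.1) (Nat.mul_pos hq.2.1 hp.1.1)
      (Nat.mul_le_mul hp.2.2 hq.1.2) (Nat.mul_le_mul hq.2.2 hp.1.2) ?_
    intro h
    rw [h, sub_self, sub_eq_zero] at e
    exact hpq e) A V
  have hd := diag_bound hK hH0 h1 h2 hH cc (fun p => rfl)
  have h3 : ∑ p ∈ s ×ˢ s, ‖cc p‖ ≤ N ^ 2 * (2 * H) := by
    calc _ ≤ ∑ p ∈ s ×ˢ s, (2 * H) := by
          refine Finset.sum_le_sum fun p _ => ?_
          rw [hcc]; dsimp only
          rw [norm_mul, norm_mul, Complex.norm_conj]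
          have := osc_le1 (-Real.log p.1 - -Real.log p.2) 0 (2 * H)
          rw [sub_zero, abs_of_pos (by positivity)] at this
          calc _ ≤ 1 * 1 * (2 * H) := by gcongr <;> exact h1 _
            _ = _ := by ring
      _ = _ := by simp [hs, sq]
  have h4 : 2 / (1 / ((N * N : ℕ) : ℝ)) * (∑ p ∈ s ×ˢ s, ‖cc p‖) ^ 2 ≤ 8 * H ^ 2 * N ^ 6 := by
    calc _ ≤ 2 / (1 / ((N * N : ℕ) : ℝ)) * (N ^ 2 * (2 * H)) ^ 2 := by gcongr
      _ = _ := by push_cast; field_simp; ring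
  set Q := ∫ y in A..A + V, ‖ES (s ×ˢ s) cc θ y‖ ^ 2
  set Dg := ∑ p ∈ s ×ˢ s, ∑ q ∈ s ×ˢ s, if θ p = θ q then cc p * (starRingEnd ℂ) (cc q) else 0
  have h5 : ‖(Q : ℂ)‖ ≤ ‖(Q : ℂ) - V * Dg‖ + ‖(V : ℂ) * Dg‖ := norm_le_norm_sub_add _ _
  rw [norm_mul, Complex.norm_real, Complex.norm_real, Real.norm_of_nonneg hV,
    Real.norm_eq_abs] at h5
  have h6 : V * ‖Dg‖ ≤ V * (40 * K ^ 2 * N0 ^ 2 * H ^ 2) := by gcongr
  linarith [le_abs_self Q]

open Classical in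
lemma good_windows {a : ℕ → ℂ} {K H : ℝ} {N0 N J : ℕ} (hK : 0 < K) (hN : 4 ≤ N) (hN0 : 16 ≤ N0)
    (h1 : ∀ n, ‖a n‖ ≤ 1)
    (h2 : ∀ c : ℕ, 1 ≤ c → ∑ g ∈ Icc 1 N, ‖a (g * c)‖ ≤ K * N0 / c)
    (h3 : (N0 : ℝ) / 4 ≤ ∑ n ∈ Icc 1 N, ‖a n‖ ^ 2)
    (hH : 1 + Real.log N ≤ H) (hJ : (N : ℝ) ^ 6 ≤ J * H) (Y : ℝ) :
    1 / (64 * (40 * K ^ 2 + 8)) * J ≤ #((range J).filter fun j : ℕ => ∃ x ∈ Set.Icc
      (Y + (j + 1) * H) (Y + (j + 2) * H), 1 ≤ ‖ES (Icc 1 N) a (fun n => -Real.log n) x‖) := by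
  have N4 : (4 : ℝ) ≤ N := by exact_mod_cast hN
  have N16 : (16 : ℝ) ≤ N0 := by exact_mod_cast hN0
  have hH0 : 0 < H := by have := Real.log_nonneg (x := N) (by linarith); linarith
  set D : ℝ → ℝ := fun x => ‖ES (Icc 1 N) a (fun n => -Real.log n) x‖ ^ 2 with hD
  have Dc : Continuous D := (ES_cont _ _ _).norm.pow 2
  have D0 : ∀ x, 0 ≤ D x := fun x => sq_nonneg _
  set Q : ℕ → ℝ := fun j => ∫ x in Y + (j + 1) * H..Y + (j + 2) * H, D x with hQ
  set R : ℝ → ℝ := fun y => ∫ x in y..y + 2 * H, D x with hR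
  have Rc : Continuous R := by
    have : R = fun y => (∫ x in (0 : ℝ)..y + 2 * H, D x) - ∫ x in (0 : ℝ)..y, D x := by
      ext y
      rw [intervalIntegral.integral_interval_sub_left (Dc.intervalIntegrable _ _)
        (Dc.intervalIntegrable _ _)]
    rw [this]
    have hp : Continuous fun y : ℝ => ∫ x in (0 : ℝ)..y, D x :=
      intervalIntegral.continuous_primitive (fun _ _ => Dc.intervalIntegrable _ _) 0
    exact (hp.comp (by fun_prop)).sub hp
  have Q0 : ∀ j, 0 ≤ Q j := fun j =>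
    intervalIntegral.integral_nonneg (by nlinarith) fun x _ => D0 x
  have m1 : ∑ j ∈ range J, Q j = ∫ x in Y + H..Y + H + J * H, D x := by
    have := intervalIntegral.sum_integral_adjacent_intervals (μ := MeasureTheory.volume) (f := D)
      (a := fun j : ℕ => Y + (j + 1) * H) (n := J) fun k _ => Dc.intervalIntegrable _ _
    simp only [Nat.cast_zero, zero_add, one_mul] at this
    rw [show Y + H + J * H = Y + (J + 1) * H by ring, ← this]
    refine Finset.sum_congr rfl fun j _ => ?_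
    rw [hQ]; dsimp only; congr 1; push_cast; ring
  have m2 := first_moment h1 (N := N) (by omega) (Y + H) (J * H)
  have m3 : ∑ j ∈ range J, H * Q j ^ 2 ≤ ∫ y in Y..Y + J * H, R y ^ 2 := by
    have := intervalIntegral.sum_integral_adjacent_intervals (μ := MeasureTheory.volume)
      (f := fun y => R y ^ 2) (a := fun j : ℕ => Y + j * H) (n := J)
      fun k _ => (Rc.pow 2).intervalIntegrable _ _
    simp only [Nat.cast_zero, zero_mul, add_zero] at this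
    rw [← this]
    refine Finset.sum_le_sum fun j _ => ?_
    have e : H * Q j ^ 2 = ∫ y in Y + j * H..Y + ((j + 1 : ℕ) : ℝ) * H, Q j ^ 2 := by
      rw [intervalIntegral.integral_const, smul_eq_mul]; push_cast; ring
    rw [e]
    refine intervalIntegral.integral_mono_on (by push_cast; nlinarith)
      (continuous_const.intervalIntegrable _ _) ((Rc.pow 2).intervalIntegrable _ _) fun y hy => ?_
    refine pow_le_pow_left₀ (Q0 j) ?_ 2
    have y1 := hy.1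
    have y2 := hy.2
    push_cast at y2
    exact intervalIntegral.integral_mono_interval (by linarith) (by nlinarith) (by linarith)
      (MeasureTheory.ae_of_all _ D0) (Dc.intervalIntegrable _ _)
  have m4 := second_moment hK hH0 (N := N) (by omega) h1 h2 hH Y (V := J * H) (by positivity)
  set G := (range J).filter fun j : ℕ => ∃ x ∈ Set.Icc (Y + (j + 1) * H)
      (Y + (j + 2) * H), 1 ≤ ‖ES (Icc 1 N) a (fun n => -Real.log n) x‖ with hG
  have bad : ∀ j ∈ range J, Q j ≤ (if j ∈ G then Q j else 0) + H := by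
    intro j hj
    split_ifs with h
    · linarith
    · rw [hG, mem_filter] at h
      push Not at h
      have h' := h hj
      have e : H = ∫ x in Y + (j + 1) * H..Y + (j + 2) * H, (1 : ℝ) := by
        rw [intervalIntegral.integral_const, smul_eq_mul]; ring
      rw [zero_add]
      conv_rhs => rw [e]
      refine intervalIntegral.integral_mono_on (by nlinarith) (Dc.intervalIntegrable _ _)
        (continuous_const.intervalIntegrable _ _) fun x hx => ?_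
      exact pow_le_one₀ (norm_nonneg _) (h' x hx).le
  have m5 : ∑ j ∈ range J, Q j ≤ ∑ j ∈ G, Q j + J * H := by
    refine (Finset.sum_le_sum bad).trans ?_
    rw [Finset.sum_add_distrib, ← Finset.sum_filter, Finset.sum_const, card_range, nsmul_eq_mul]
    exact add_le_add_left (Finset.sum_le_sum_of_subset_of_nonneg
      (fun j hj => (mem_filter.1 hj).2) fun j _ _ => Q0 j) _
  have m6 : (∑ j ∈ G, Q j) ^ 2 ≤ #G * ∑ j ∈ G, Q j ^ 2 := sq_sum_le_card_mul_sum_sq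
  have m7 : ∑ j ∈ G, Q j ^ 2 ≤ ∑ j ∈ range J, Q j ^ 2 :=
    Finset.sum_le_sum_of_subset_of_nonneg (filter_subset _ _) fun _ _ _ => sq_nonneg _
  have JH : 0 < (J : ℝ) * H := lt_of_lt_of_le (by positivity) hJ
  have J0 : (0 : ℝ) < J := (mul_pos_iff_of_pos_right hH0).1 JH
  have m8 : ∑ j ∈ range J, Q j ^ 2 ≤ (40 * K ^ 2 + 8) * J * N0 ^ 2 * H ^ 2 := by
    rw [← Finset.mul_sum] at m3
    refine le_of_mul_le_mul_left (m3.trans (m4.trans ?_)) hH0
    have : 8 * H ^ 2 * (N : ℝ) ^ 6 ≤ 8 * H ^ 2 * (J * H * N0 ^ 2) := by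
      gcongr
      refine hJ.trans (le_mul_of_one_le_right JH.le (by nlinarith))
    nlinarith
  have m9 : J * H * N0 / 8 ≤ ∑ j ∈ G, Q j := by
    have a1 : 32 * (N : ℝ) ^ 3 ≤ N ^ 6 := by
      have : (64 : ℝ) ≤ N ^ 3 := by
        calc (64 : ℝ) = 4 ^ 3 := by norm_num
          _ ≤ _ := by gcongr
      nlinarith
    have a2 : J * H * (N0 / 4) ≤ J * H * ∑ n ∈ Icc 1 N, ‖a n‖ ^ 2 := by gcongr
    have a3 : J * H * 16 ≤ J * H * N0 := by gcongr
    have a4 : ∑ j ∈ range J, Q j ≥ J * H * ∑ n ∈ Icc 1 N, ‖a n‖ ^ 2 - 2 * N ^ 3 := by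
      rw [m1]; exact m2
    linarith
  have m10 : (J * H * N0 / 8) ^ 2 ≤ #G * ((40 * K ^ 2 + 8) * J * N0 ^ 2 * H ^ 2) := by
    calc _ ≤ (∑ j ∈ G, Q j) ^ 2 := by gcongr
      _ ≤ _ := m6.trans (by gcongr; exact m7.trans m8)
  rw [one_div, inv_mul_le_iff₀ (by positivity)]
  have p : 0 < (J : ℝ) * N0 ^ 2 * H ^ 2 := by positivity
  refine le_of_mul_le_mul_right ?_ p
  nlinarith

end H19Xi
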