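import Pool.Agent.Lib.helper19.XiDefs
import Pool.Agent.Lib.helper19.XiGamma

open Metric Complex Filter Topology MeasureTheory

namespace H19Xi

noncomputable def EE (a : ℂ) (r : ℝ) (t : ℝ) : ℂ :=
  exp (2 * a * t - (r * Real.exp (2 * t) : ℝ))

lemma intE {a : ℂ} (ha : 0 < a.re) {r : ℝ} (hr : 0 < r) :
    ∫ t, EE a r t = exp (-(a * (Real.log r : ℂ))) * Gamma a / 2 := by
  have h := Complex.integral_cpow_mul_exp_neg_mul_Ioi ha hr
  have him : (fun t : ℝ => Real.exp (2 * t)) '' Set.univ = Set.Ioi 0 := by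
    ext y
    simp only [Set.image_univ, Set.mem_range, Set.mem_Ioi]
    constructor
    · rintro ⟨t, rfl⟩; exact Real.exp_pos _
    · intro hy
      exact ⟨Real.log y / 2, by rw [mul_div_cancel₀ _ two_ne_zero, Real.exp_log hy]⟩
  rw [← him, integral_image_eq_integral_abs_deriv_smul (f' := fun t => Real.exp (2 * t) * 2)
    MeasurableSet.univ
    (fun t _ => by
      have := ((hasDerivAt_id t).const_mul 2).exp
      simp only [id, mul_one] at this
      exact this.hasDerivWithinAt)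
    (fun x _ y _ hxy => by
      have := Real.exp_injective hxy
      linarith)] at h
  rw [Measure.restrict_univ] at h
  have e : ∀ t : ℝ, |Real.exp (2 * t) * 2| • (((Real.exp (2 * t) : ℝ) : ℂ) ^ (a - 1) *
      exp (-((r : ℂ) * (Real.exp (2 * t) : ℝ)))) = 2 * EE a r t := by
    intro t
    rw [abs_of_pos (by positivity), Complex.real_smul, EE,
      Complex.cpow_def_of_ne_zero (by exact_mod_cast (Real.exp_pos _).ne'),
      ← Complex.ofReal_log (Real.exp_pos _).le, Real.log_exp]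
    push_cast
    rw [mul_comm (exp (2 * (t : ℂ))) 2, mul_assoc, ← Complex.exp_add, ← Complex.exp_add]
    congr 2; ring
  simp_rw [e] at h
  rw [integral_const_mul] at h
  have e2 : (1 / (r : ℂ)) ^ a = exp (-(a * (Real.log r : ℂ))) := by
    rw [Complex.cpow_def_of_ne_zero (by simpa using hr.ne')]
    have : (1 / (r : ℂ)) = ((1 / r : ℝ) : ℂ) := by push_cast; ring
    rw [this, ← Complex.ofReal_log (by positivity), one_div, Real.log_inv]
    congr 1; push_cast; ring
  rw [e2] at h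
  rw [← h]; ring

lemma integrableE {a : ℂ} (ha : 0 < a.re) {r : ℝ} (hr : 0 < r) : Integrable (EE a r) := by
  by_contra H
  have := intE ha hr
  rw [integral_undef H] at this
  have h1 := Complex.Gamma_ne_zero_of_re_pos ha
  have h2 := Complex.exp_ne_zero (-(a * (Real.log r : ℂ)))
  exact (div_ne_zero (mul_ne_zero h2 h1) two_ne_zero) this.symm

lemma normE (a : ℂ) (r t : ℝ) :
    ‖EE a r t‖ = Real.exp (2 * a.re * t - r * Real.exp (2 * t)) := by
  rw [EE, Complex.norm_exp]; congr 1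
  simp only [Complex.sub_re, Complex.ofReal_re, Complex.mul_re, Complex.ofReal_im]; simp

lemma intE_norm (k : ℕ) {r : ℝ} (hr : 0 < r) :
    ∫ t, ‖EE ((k : ℂ) + 1) r t‖ = (k.factorial : ℝ) / r ^ (k + 1) / 2 := by
  have h := intE (a := (k : ℂ) + 1) (by simp; positivity) hr
  have e : ∀ t, EE ((k : ℂ) + 1) r t = ((‖EE ((k : ℂ) + 1) r t‖ : ℝ) : ℂ) := by
    intro t; rw [normE, EE]; push_cast; simp
  have e' : ∫ t, EE ((k : ℂ) + 1) r t = ((∫ t, ‖EE ((k : ℂ) + 1) r t‖ : ℝ) : ℂ) := by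
    rw [← integral_complex_ofReal]; exact integral_congr_ae (ae_of_all _ e)
  rw [e', Complex.Gamma_nat_eq_factorial] at h
  have e2 : exp (-(((k : ℂ) + 1) * (Real.log r : ℂ))) = ((1 / r ^ (k + 1) : ℝ) : ℂ) := by
    rw [one_div, ← Real.exp_log (pow_pos hr (k + 1)), ← Real.exp_neg, Real.log_pow]
    push_cast; rfl
  rw [e2] at h
  have : ((∫ t, ‖EE ((k : ℂ) + 1) r t‖ : ℝ) : ℂ) = (((k.factorial : ℝ) / r ^ (k + 1) / 2 : ℝ) : ℂ) := by
    refine Eq.trans h ?_
    push_cast; ring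
  exact_mod_cast this

/-- The `n`-th term of `Φ`. -/
noncomputable def phi (n : ℕ) (t : ℝ) : ℝ :=
  2 * ((2 * Real.pi ^ 2 * ((n : ℝ) + 1) ^ 4 * Real.exp (9 * t / 2)
      - 3 * Real.pi * ((n : ℝ) + 1) ^ 2 * Real.exp (5 * t / 2))
      * Real.exp (-(Real.pi * ((n : ℝ) + 1) ^ 2 * Real.exp (2 * t))))

lemma phi_cont (n : ℕ) : Continuous (phi n) := by unfold phi; fun_prop

noncomputable def rr (n : ℕ) : ℝ := Real.pi * ((n : ℝ) + 1) ^ 2

lemma rr_pos (n : ℕ) : 0 < rr n := by unfold rr; positivity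

noncomputable def ll (n : ℕ) : ℝ := Real.log ((n : ℝ) + 1)

lemma phi_mul (n : ℕ) (s : ℂ) (t : ℝ) : (phi n t : ℂ) * exp ((s - 1 / 2) * t)
    = 4 * (rr n : ℂ) ^ 2 * EE (s / 2 + 1 + 1) (rr n) t - 6 * rr n * EE (s / 2 + 1) (rr n) t := by
  have e1 : EE (s / 2 + 1 + 1) (rr n) t = exp (9 * t / 2) * exp (-(rr n * exp (2 * t)))
      * exp ((s - 1 / 2) * t) := by
    rw [EE, ← Complex.exp_add, ← Complex.exp_add]; congr 1; push_cast; ring
  have e2 : EE (s / 2 + 1) (rr n) t = exp (5 * t / 2) * exp (-(rr n * exp (2 * t)))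
      * exp ((s - 1 / 2) * t) := by
    rw [EE, ← Complex.exp_add, ← Complex.exp_add]; congr 1; push_cast; ring
  rw [e1, e2, phi, rr]; push_cast; ring

lemma phi_integrable (n : ℕ) {s : ℂ} (hs : 0 < s.re) :
    Integrable (fun t : ℝ => (phi n t : ℂ) * exp ((s - 1 / 2) * t)) := by
  simp_rw [phi_mul]
  exact ((integrableE (by simp; linarith) (rr_pos n)).const_mul _).sub
    ((integrableE (by simp; linarith) (rr_pos n)).const_mul _)

lemma phi_mellin (n : ℕ) {s : ℂ} (hs : 0 < s.re) :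
    ∫ t : ℝ, (phi n t : ℂ) * exp ((s - 1 / 2) * t) = gam s * exp (-(s * ll n)) := by
  simp_rw [phi_mul]
  rw [integral_sub ((integrableE (by simp; linarith) (rr_pos n)).const_mul _)
    ((integrableE (by simp; linarith) (rr_pos n)).const_mul _), integral_const_mul,
    integral_const_mul, intE (by simp; linarith) (rr_pos n), intE (by simp; linarith) (rr_pos n)]
  have s0 : s / 2 + 1 ≠ 0 := by
    intro h; have := congrArg Complex.re h; simp at this; linarith
  rw [Complex.Gamma_add_one _ s0, gam]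
  have hr : exp ((Real.log (rr n) : ℝ) : ℂ) = rr n := by
    rw [← Complex.ofReal_exp, Real.exp_log (rr_pos n)]
  have hl : ((Real.log (rr n) : ℝ) : ℂ) = (Real.log Real.pi : ℂ) + 2 * ll n := by
    rw [rr, Real.log_mul Real.pi_pos.ne' (by positivity), Real.log_pow, ll]; push_cast; ring
  set L := ((Real.log (rr n) : ℝ) : ℂ)
  have r0 : (rr n : ℂ) ≠ 0 := by exact_mod_cast (rr_pos n).ne'
  have e1 : exp (-((s / 2 + 1 + 1) * L)) = exp (-(s / 2 * L)) / (rr n : ℂ) ^ 2 := by
    rw [← hr, sq, ← Complex.exp_add, ← Complex.exp_sub]; congr 1; ring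
  have e2 : exp (-((s / 2 + 1) * L)) = exp (-(s / 2 * L)) / (rr n : ℂ) := by
    rw [← hr, ← Complex.exp_sub]; congr 1; ring
  have e3 : exp (-(s / 2 * L)) = exp (-(s / 2 * (Real.log Real.pi : ℂ))) * exp (-(s * ll n)) := by
    rw [← Complex.exp_add, hl]; congr 1; ring
  rw [e1, e2, e3]; field_simp; ring

/-- majorant -/
noncomputable def psi (n : ℕ) (t : ℝ) : ℝ := ‖(phi n t : ℂ) * exp (((2 : ℂ) - 1 / 2) * t)‖

lemma psi_integrable (n : ℕ) : Integrable (psi n) := (phi_integrable n (s := 2) (by simp)).norm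

lemma psi_eq (n : ℕ) (t : ℝ) : psi n t = |phi n t| * Real.exp (3 / 2 * t) := by
  rw [psi, norm_mul, Complex.norm_real, Complex.norm_exp, Real.norm_eq_abs]
  congr 2
  have : ((2 : ℂ) - 1 / 2) * t = ((3 / 2 * t : ℝ) : ℂ) := by push_cast; ring
  rw [this, Complex.ofReal_re]

lemma psi_int (n : ℕ) : ∫ t, psi n t ≤ 7 / ((n : ℝ) + 1) ^ 2 := by
  have hr := rr_pos n
  have i1 := (integrableE (a := ((2 : ℕ) : ℂ) + 1) (by simp; norm_num) hr).norm
  have i2 := (integrableE (a := ((1 : ℕ) : ℂ) + 1) (by simp) hr).norm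
  have h : ∀ t, psi n t ≤ 4 * rr n ^ 2 * ‖EE (((2 : ℕ) : ℂ) + 1) (rr n) t‖
      + 6 * rr n * ‖EE (((1 : ℕ) : ℂ) + 1) (rr n) t‖ := by
    intro t
    rw [psi, phi_mul]
    refine (norm_sub_le _ _).trans (le_of_eq ?_)
    simp only [norm_mul, norm_pow, Complex.norm_real, Real.norm_of_nonneg hr.le,
      Complex.norm_ofNat]
    norm_num
  refine (integral_mono (psi_integrable n) ((i1.const_mul _).fun_add (i2.const_mul _)) h).trans ?_
  rw [integral_add (i1.const_mul _) (i2.const_mul _), integral_const_mul, integral_const_mul,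
    intE_norm 2 hr, intE_norm 1 hr]
  have e : 4 * rr n ^ 2 * (((2 : ℕ).factorial : ℝ) / rr n ^ (2 + 1) / 2)
      + 6 * rr n * (((1 : ℕ).factorial : ℝ) / rr n ^ (1 + 1) / 2) = 7 / rr n := by
    simp only [Nat.factorial]; field_simp; norm_num; ring
  rw [e, rr]
  gcongr
  nlinarith [Real.pi_gt_three, sq_nonneg ((n : ℝ) + 1)]

lemma summable_sq : Summable (fun n : ℕ => 1 / ((n : ℝ) + 1) ^ 2) := by
  have := (summable_nat_add_iff 1).2 (Real.summable_one_div_nat_pow.2 one_lt_two)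
  simpa using this

noncomputable def FF (n : ℕ) (z : ℂ) (t : ℝ) : ℂ :=
  ((phi n t * Real.exp (-(1 / 4) * t ^ 2) : ℝ) : ℂ) * exp (I * z * (t : ℂ))

lemma FF_cont (n : ℕ) (z : ℂ) : Continuous (FF n z) := by
  have := phi_cont n
  unfold FF; fun_prop

lemma FF_norm (n : ℕ) (z : ℂ) (t : ℝ) {A : ℝ} (hA : |z.im| ≤ A) :
    Real.exp |t| * ‖FF n z t‖ ≤ Real.exp ((A + 3) ^ 2) * psi n t := by
  rw [FF, psi_eq, norm_mul, Complex.norm_real, Complex.norm_exp, Real.norm_eq_abs, abs_mul,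
    Real.abs_exp]
  have e : (I * z * (t : ℂ)).re = -(z.im * t) := by simp
  rw [e]
  have h : |t| + (-(1 / 4) * t ^ 2) + -(z.im * t) ≤ (A + 3) ^ 2 + 3 / 2 * t := by
    have h1 := neg_abs_le (z.im * t)
    rw [abs_mul] at h1
    have h2 : |z.im| * |t| ≤ A * |t| := by gcongr
    have h3 := neg_abs_le t
    have h4 := abs_nonneg t
    have h5 := sq_abs t
    nlinarith [sq_nonneg (|t| / 2 - (A + 3))]
  calc _ = |phi n t| * Real.exp (|t| + (-(1 / 4) * t ^ 2) + -(z.im * t)) := by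
        simp only [Real.exp_add]; ring
    _ ≤ |phi n t| * Real.exp ((A + 3) ^ 2 + 3 / 2 * t) := by gcongr
    _ = _ := by simp only [Real.exp_add]; ring

lemma FF_norm' (n : ℕ) (z : ℂ) (t : ℝ) {A : ℝ} (hA : |z.im| ≤ A) :
    ‖FF n z t‖ ≤ Real.exp ((A + 3) ^ 2) * psi n t := by
  refine le_trans ?_ (FF_norm n z t hA)
  have := Real.one_le_exp (abs_nonneg t)
  nlinarith [norm_nonneg (FF n z t)]

lemma FF_integrable (n : ℕ) (z : ℂ) : Integrable (FF n z) :=
  ((psi_integrable n).const_mul _).mono' (FF_cont n z).aestronglyMeasurable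
    (ae_of_all _ fun t => FF_norm' n z t le_rfl)

lemma FF_int_norm (n : ℕ) (z : ℂ) {A : ℝ} (hA : |z.im| ≤ A) :
    ∫ t, ‖FF n z t‖ ≤ Real.exp ((A + 3) ^ 2) * 7 * (1 / ((n : ℝ) + 1) ^ 2) := by
  refine (integral_mono (FF_integrable n z).norm ((psi_integrable n).const_mul _)
    (fun t => FF_norm' n z t hA)).trans ?_
  rw [integral_const_mul, mul_assoc, mul_one_div]
  gcongr
  exact psi_int n

noncomputable def TT (n : ℕ) (z : ℂ) : ℂ := ∫ t, FF n z t

lemma hasSum_TT (z : ℂ) : HasSum (fun n => TT n z) (Xi (-(1 / 4)) z) := by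
  have h := hasSum_integral_of_summable_integral_norm (FF_integrable · z)
    (Summable.of_nonneg_of_le (fun n => integral_nonneg fun _ => norm_nonneg _)
      (fun n => FF_int_norm n z le_rfl) (summable_sq.mul_left _))
  have e : ∀ t, ∑' n, FF n z t = ((Phi t * Real.exp (-(1 / 4) * t ^ 2) : ℝ) : ℂ)
      * exp (I * z * (t : ℂ)) := by
    intro t
    unfold FF
    rw [tsum_mul_right, ← Complex.ofReal_tsum, tsum_mul_right, Phi, ← tsum_mul_left]
    rfl
  simp_rw [e] at h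
  exact h

lemma TT_diff (n : ℕ) : Differentiable ℂ (TT n) := by
  intro z0
  have := hasDerivAt_integral_of_dominated_loc_of_deriv_le (μ := volume) (F := FF n)
    (F' := fun z t => FF n z t * (I * t)) (x₀ := z0) (s := ball z0 1)
    (bound := fun t => Real.exp ((|z0.im| + 1 + 3) ^ 2) * psi n t) (ball_mem_nhds z0 one_pos)
    (Eventually.of_forall fun z => (FF_cont n z).aestronglyMeasurable) (FF_integrable n z0)
    (((FF_cont n z0).mul (by fun_prop)).aestronglyMeasurable)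
    (ae_of_all _ fun t z hz => by
      have h1 : |z.im| ≤ |z0.im| + 1 := by
        have a1 := Complex.abs_im_le_norm (z - z0)
        rw [mem_ball, dist_eq_norm] at hz
        rw [Complex.sub_im] at a1
        have := abs_sub_abs_le_abs_sub z.im z0.im
        linarith
      refine le_trans ?_ (FF_norm n z t h1)
      rw [norm_mul, norm_mul, Complex.norm_I, one_mul, Complex.norm_real, Real.norm_eq_abs,
        mul_comm]
      gcongr
      linarith [Real.add_one_le_exp |t|])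
    ((psi_integrable n).const_mul _)
    (ae_of_all _ fun t z _ => by
      unfold FF
      have h1 : HasDerivAt (fun z : ℂ => I * z * (t : ℂ)) (I * t) z := by
        simpa using ((hasDerivAt_id z).const_mul I).mul_const (t : ℂ)
      have := h1.cexp.const_mul (((phi n t * Real.exp (-(1 / 4) * t ^ 2) : ℝ) : ℂ))
      rw [← mul_assoc] at this
      exact this)
  exact this.2.differentiableAt

lemma Xi_diff : Differentiable ℂ (Xi (-(1 / 4))) := by
  intro z0
  have h : DifferentiableOn ℂ (fun w => ∑' n, TT n w) (ball z0 1) := by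
    refine Complex.differentiableOn_tsum_of_summable_norm
      (u := fun n : ℕ => Real.exp ((|z0.im| + 1 + 3) ^ 2) * 7 * (1 / ((n : ℝ) + 1) ^ 2))
      (summable_sq.mul_left _) (fun n => (TT_diff n).differentiableOn) isOpen_ball ?_
    intro n z hz
    have h1 : |z.im| ≤ |z0.im| + 1 := by
      have a1 := Complex.abs_im_le_norm (z - z0)
      rw [mem_ball, dist_eq_norm] at hz
      rw [Complex.sub_im] at a1
      have := abs_sub_abs_le_abs_sub z.im z0.im
      linarith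
    exact (norm_integral_le_integral_norm _).trans (FF_int_norm n z h1)
  have e : (fun w => ∑' n, TT n w) = Xi (-(1 / 4)) := funext fun w => (hasSum_TT w).tsum_eq
  rw [e] at h
  exact h.differentiableAt (ball_mem_nhds z0 one_pos)

lemma gauss (c d : ℂ) : ∫ v : ℝ, exp (-1 * (v : ℂ) ^ 2 + c * v + d)
    = (Real.sqrt Real.pi : ℂ) * exp (d + c ^ 2 / 4) := by
  rw [integral_cexp_quadratic (by simp)]
  congr 1
  · rw [Real.sqrt_eq_rpow, Complex.ofReal_cpow Real.pi_pos.le]; simp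
  · congr 1; ring

lemma TT_rep (n : ℕ) (z : ℂ) {σ : ℝ} (hσ : 0 < σ) :
    Integrable (fun v : ℝ => exp (-((v : ℂ) - (σ - 1 / 2 + z.im : ℝ) * I) ^ 2) *
      (gam (σ + z.re * I + v * I) * exp (-((σ + z.re * I + v * I) * ll n)))) ∧
    (Real.sqrt Real.pi : ℂ) * TT n z = ∫ v : ℝ, exp (-((v : ℂ) - (σ - 1 / 2 + z.im : ℝ) * I) ^ 2) *
      (gam (σ + z.re * I + v * I) * exp (-((σ + z.re * I + v * I) * ll n))) := by
  set κ : ℝ := σ - 1 / 2 + z.im with hκ
  set H : ℝ → ℝ → ℂ := fun t v => exp (-((v : ℂ) - κ * I) ^ 2) *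
    ((phi n t : ℂ) * exp ((σ + z.re * I + v * I - 1 / 2) * t)) with hH
  have hz : z = z.re + z.im * I := (Complex.re_add_im z).symm
  have h1 : ∀ t, ∫ v, H t v = (Real.sqrt Real.pi : ℂ) * FF n z t := by
    intro t
    have e : ∀ v : ℝ, H t v = (phi n t : ℂ) * exp (-1 * (v : ℂ) ^ 2 + (2 * κ * I + I * t) * v
        + (κ ^ 2 + (σ + z.re * I - 1 / 2) * t)) := by
      intro v
      rw [hH]; dsimp only
      rw [mul_left_comm, ← Complex.exp_add]
      congr 2
      linear_combination (-(κ : ℂ) ^ 2) * Complex.I_sq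
    simp_rw [e]
    rw [integral_const_mul, gauss, FF]
    push_cast
    have e2 : (κ : ℂ) ^ 2 + (σ + z.re * I - 1 / 2) * t + (2 * κ * I + I * t) ^ 2 / 4
        = -(1 / 4) * (t : ℂ) ^ 2 + I * z * t := by
      nth_rewrite 2 [hz]
      rw [hκ]; push_cast
      linear_combination ((2 * ((σ : ℂ) - 1 / 2 + z.im) + t) ^ 2 / 4 - z.im * t) * Complex.I_sq
    rw [e2, Complex.exp_add]; ring
  have h2 : ∀ v : ℝ, ∫ t, H t v = exp (-((v : ℂ) - κ * I) ^ 2) *
      (gam (σ + z.re * I + v * I) * exp (-((σ + z.re * I + v * I) * ll n))) := by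
    intro v
    rw [hH]; dsimp only
    rw [integral_const_mul, phi_mellin n (by simpa using hσ)]
  have hint : Integrable (Function.uncurry H) (volume.prod volume) := by
    have i1 := (phi_integrable n (s := σ) (by simpa using hσ)).norm
    have i2 := (integrable_exp_neg_mul_sq one_pos).const_mul (Real.exp (κ ^ 2))
    refine (i1.mul_prod i2).mono' ?_ (ae_of_all _ fun p => le_of_eq ?_)
    · have := phi_cont n
      apply Continuous.aestronglyMeasurable
      rw [hH]; unfold Function.uncurry; fun_prop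
    · rw [hH]; unfold Function.uncurry; dsimp only
      simp only [norm_mul, Complex.norm_exp]
      have a1 : (-((p.2 : ℂ) - κ * I) ^ 2).re = κ ^ 2 + -1 * p.2 ^ 2 := by
        simp [sq]; ring
      have a2 : (((σ : ℂ) + z.re * I + p.2 * I - 1 / 2) * p.1).re
          = (((σ : ℂ) - 1 / 2) * p.1).re := by simp
      rw [a1, a2, Real.exp_add]; ring
  constructor
  · have := hint.integral_prod_right
    simp only [Function.uncurry] at this
    simp_rw [h2] at this
    exact this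
  · have := integral_integral_swap hint
    simp_rw [h1, h2] at this
    rw [integral_const_mul] at this
    exact this

noncomputable def term (u z : ℂ) (n : ℕ) : ℂ :=
  exp (-((1 / 2 + I * z) * ll n) + u * ll n / 2 - (ll n : ℂ) ^ 2 / 4)

noncomputable def Efac (X : ℝ) (u z : ℂ) : ℂ :=
  gam (2 + X * I) * exp ((I * z - 3 / 2 - X * I) * u - u ^ 2 / 4)

lemma exp_ll (n : ℕ) {σ : ℝ} (hσ : 2 ≤ σ) : Real.exp (-(σ * ll n)) ≤ 1 / ((n : ℝ) + 1) ^ 2 := by
  have h0 : 0 ≤ ll n := Real.log_nonneg (by linarith [Nat.cast_nonneg (α := ℝ) n])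
  have : 1 / ((n : ℝ) + 1) ^ 2 = Real.exp (-(2 * ll n)) := by
    rw [Real.exp_neg, show (2 : ℝ) * ll n = ((2 : ℕ) : ℝ) * ll n by norm_num, Real.exp_nat_mul, ll,
      Real.exp_log (by positivity), one_div]
  rw [this]; gcongr

lemma TT_approx {X B : ℝ} {u : ℂ} (n : ℕ) (z : ℂ) {σ : ℝ} (hσ : 2 ≤ σ) (hB : 0 ≤ B)
    (h : ∀ v : ℝ, ‖gam (2 + X * I + ((σ - 2 + (z.re - X) * I) + v * I))
      - gam (2 + X * I) * exp (((σ - 2 + (z.re - X) * I) + v * I) * u)‖
        ≤ ‖gam (2 + X * I) * exp ((σ - 2 + (z.re - X) * I) * u)‖ * (B * Real.exp (v ^ 2 / 2))) :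
    ‖TT n z - Efac X u z * term u z n‖ ≤ ‖Efac X u z‖ *
      (2 * B * Real.exp ((σ + (u.re / 2 - 1 / 2 + z.im)) ^ 2)) * (1 / ((n : ℝ) + 1) ^ 2) := by
  obtain ⟨i1, r1⟩ := TT_rep n z (σ := σ) (by linarith)
  set κ : ℝ := σ - 1 / 2 + z.im with hκ
  set d : ℂ := σ - 2 + (z.re - X) * I with hd
  set g0 := gam (2 + X * I) with hg0
  have hz : z = z.re + z.im * I := (Complex.re_add_im z).symm
  have es : ∀ v : ℝ, (σ + z.re * I + v * I : ℂ) = 2 + X * I + (d + v * I) := by
    intro v; rw [hd]; ring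
  set Mf : ℝ → ℂ := fun v => exp (-((v : ℂ) - κ * I) ^ 2) *
    (g0 * exp ((d + v * I) * u) * exp (-((σ + z.re * I + v * I) * ll n))) with hMf
  have eM : ∀ v : ℝ, Mf v = g0 * exp (-1 * (v : ℂ) ^ 2 + (2 * κ * I + I * u - I * ll n) * v
      + (κ ^ 2 + d * u - (σ + z.re * I) * ll n)) := by
    intro v
    rw [hMf]; dsimp only
    rw [mul_assoc g0, mul_left_comm, ← Complex.exp_add, ← Complex.exp_add]
    congr 2
    linear_combination (-(κ : ℂ) ^ 2) * Complex.I_sq
  have i2 : Integrable Mf := by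
    rw [funext eM]
    exact (integrable_cexp_quadratic' (by simp) _ _).const_mul _
  have r2 : (Real.sqrt Real.pi : ℂ) * (Efac X u z * term u z n) = ∫ v, Mf v := by
    simp_rw [eM]
    rw [integral_const_mul, gauss, Efac, term, ← hg0, mul_assoc g0, ← Complex.exp_add,
      mul_left_comm]
    congr 3
    rw [hd, hκ]
    nth_rewrite 1 [hz]
    nth_rewrite 3 [hz]
    push_cast
    linear_combination (z.im * u - z.im * (ll n : ℂ)
      - (2 * ((σ : ℂ) - 1 / 2 + z.im) + u - ll n) ^ 2 / 4) * Complex.I_sq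
  have hsp : 1 ≤ Real.sqrt Real.pi := Real.one_le_sqrt.2 (by linarith [Real.pi_gt_three])
  set N := ‖g0 * exp (d * u)‖ with hN
  have N0 : 0 ≤ N := norm_nonneg _
  have hb : ∀ v : ℝ, ‖exp (-((v : ℂ) - κ * I) ^ 2) *
      (gam (σ + z.re * I + v * I) * exp (-((σ + z.re * I + v * I) * ll n))) - Mf v‖
      ≤ (Real.exp (κ ^ 2) * N * B * (1 / ((n : ℝ) + 1) ^ 2)) * Real.exp (-(1 / 2) * v ^ 2) := by
    intro v
    rw [hMf]; dsimp only
    rw [← mul_sub, ← sub_mul, norm_mul, norm_mul, Complex.norm_exp, Complex.norm_exp]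
    have a1 : (-((v : ℂ) - κ * I) ^ 2).re = κ ^ 2 + -v ^ 2 := by simp [sq]; ring
    have a2 : (-(((σ : ℂ) + z.re * I + v * I) * ll n)).re = -(σ * ll n) := by simp
    rw [a1, a2]
    nth_rewrite 1 [es v]
    calc _ ≤ Real.exp (κ ^ 2 + -v ^ 2) * (N * (B * Real.exp (v ^ 2 / 2))
          * (1 / ((n : ℝ) + 1) ^ 2)) := by
          gcongr
          · exact h v
          · exact exp_ll n hσ
      _ = _ := by
          rw [show -(1 / 2) * v ^ 2 = -v ^ 2 + v ^ 2 / 2 by ring]
          simp only [Real.exp_add]; ring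
  have hI := norm_integral_le_of_norm_le
    ((integrable_exp_neg_mul_sq (b := 1 / 2) (by norm_num)).const_mul _) (ae_of_all volume hb)
  rw [integral_sub i1 i2, ← r1, ← r2, ← mul_sub, norm_mul, Complex.norm_real,
    Real.norm_of_nonneg (by linarith), integral_const_mul, integral_gaussian] at hI
  have s2 : Real.sqrt (Real.pi / (1 / 2)) ≤ Real.sqrt Real.pi * 2 := by
    rw [show Real.pi / (1 / 2) = Real.pi * 2 by ring, Real.sqrt_mul Real.pi_pos.le]
    gcongr
    rw [Real.sqrt_le_left (by norm_num)]; norm_num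
  have hE : Real.exp (κ ^ 2) * N ≤
      ‖Efac X u z‖ * Real.exp ((σ + (u.re / 2 - 1 / 2 + z.im)) ^ 2) := by
    rw [hN, Efac, ← hg0, norm_mul, norm_mul, Complex.norm_exp, Complex.norm_exp, mul_left_comm,
      mul_assoc, ← Real.exp_add, ← Real.exp_add]
    refine mul_le_mul_of_nonneg_left (Real.exp_le_exp.2 ?_) (norm_nonneg _)
    have a1 : (d * u).re = (σ - 2) * u.re - (z.re - X) * u.im := by
      rw [hd]; simp
    have a2 : ((I * z - 3 / 2 - X * I) * u - u ^ 2 / 4).re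
        = (-z.im - 3 / 2) * u.re - (z.re - X) * u.im - (u.re ^ 2 - u.im ^ 2) / 4 := by
      simp [sq]
    rw [a1, a2, hκ]
    nlinarith [sq_nonneg u.im]
  have hpos : 0 < Real.sqrt Real.pi := by linarith
  refine le_of_mul_le_mul_left (hI.trans ?_) hpos
  calc _ ≤ (‖Efac X u z‖ * Real.exp ((σ + (u.re / 2 - 1 / 2 + z.im)) ^ 2) * B
        * (1 / ((n : ℝ) + 1) ^ 2)) * (Real.sqrt Real.pi * 2) := by gcongr
    _ = _ := by ring

lemma term_norm (u z : ℂ) (n : ℕ) :
    ‖term u z n‖ = Real.exp ((u.re / 2 - 1 / 2 + z.im) * ll n - ll n ^ 2 / 4) := by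
  rw [term, Complex.norm_exp]; congr 1
  simp [sq]; ring

lemma term_le (u z : ℂ) (n : ℕ) : ‖term u z n‖ ≤
    Real.exp ((2 + (u.re / 2 - 1 / 2 + z.im)) ^ 2) * (1 / ((n : ℝ) + 1) ^ 2) := by
  refine le_trans ?_ (mul_le_mul_of_nonneg_left (exp_ll n le_rfl) (Real.exp_pos _).le)
  rw [term_norm, ← Real.exp_add]
  gcongr
  nlinarith [sq_nonneg (ll n / 2 - (2 + (u.re / 2 - 1 / 2 + z.im)))]

lemma term_summable (u z : ℂ) : Summable (term u z) :=
  Summable.of_norm_bounded (summable_sq.mul_left _) (term_le u z)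

lemma hasSum_sq : HasSum (fun n : ℕ => 1 / ((n : ℝ) + 1) ^ 2) (Real.pi ^ 2 / 6) := by
  have := (hasSum_nat_add_iff' 1).2 hasSum_zeta_two
  simpa using this

lemma zeta_two_le : Real.pi ^ 2 / 6 ≤ 5 / 3 := by
  nlinarith [Real.pi_lt_d2, Real.pi_pos]

/-- The structure theorem. -/
lemma Xi_approx (U : ℝ) (hU : 30 ≤ U) : ∃ u : ℂ, |u.re - 3 / 2 * Real.log U| ≤ 4 ∧
    ∀ (z : ℂ) (σ : ℝ), 2 ≤ σ → σ - 2 + |z.re - U ^ 3| ≤ U →
      ‖Xi (-(1 / 4)) z / Efac (U ^ 3) u z - ∑' n, term u z n‖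
        ≤ 224 * Real.exp 5 / U * Real.exp ((σ + (u.re / 2 - 1 / 2 + z.im)) ^ 2) := by
  obtain ⟨u, hu, -, h⟩ := gam_approx U hU
  refine ⟨u, hu, fun z σ hσ hz => ?_⟩
  have hU0 : 0 < U := by linarith
  have hd : ‖((σ : ℂ) - 2 + (z.re - (U ^ 3 : ℝ)) * I)‖ ≤ U := by
    refine (Complex.norm_le_abs_re_add_abs_im _).trans ?_
    have a1 : ((σ : ℂ) - 2 + (z.re - (U ^ 3 : ℝ)) * I).re = σ - 2 := by
      simp only [Complex.add_re, Complex.mul_re, Complex.sub_re, Complex.sub_im, Complex.ofReal_re,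
        Complex.ofReal_im]; simp
    have a2 : ((σ : ℂ) - 2 + (z.re - (U ^ 3 : ℝ)) * I).im = z.re - U ^ 3 := by
      simp only [Complex.add_im, Complex.mul_im, Complex.sub_re, Complex.sub_im, Complex.ofReal_re,
        Complex.ofReal_im]; simp
    rw [a1, a2, abs_of_nonneg (by linarith)]; exact hz
  have hd0 : 0 ≤ ((σ : ℂ) - 2 + (z.re - (U ^ 3 : ℝ)) * I).re := by
    simp only [Complex.add_re, Complex.mul_re, Complex.sub_re, Complex.sub_im, Complex.ofReal_re,
        Complex.ofReal_im]; simp; linarith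
  have hT := fun n => TT_approx (X := U ^ 3) (u := u) (B := 56 * Real.exp 5 / U) n z hσ
    (by positivity) (fun v => h _ v hd hd0)
  have E0 : Efac (U ^ 3) u z ≠ 0 := by
    refine mul_ne_zero ?_ (Complex.exp_ne_zero _)
    have := gam_lower (U ^ 3) (by nlinarith [sq_nonneg U])
    exact norm_pos_iff.1 (lt_of_lt_of_le (Real.exp_pos _) this)
  have hs := (hasSum_TT z).sub ((term_summable u z).hasSum.mul_left (Efac (U ^ 3) u z))
  have hb := hs.norm_le_of_bounded (hasSum_sq.mul_left _) hT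
  have e : Xi (-(1 / 4)) z / Efac (U ^ 3) u z - ∑' n, term u z n
      = (Xi (-(1 / 4)) z - Efac (U ^ 3) u z * ∑' n, term u z n) / Efac (U ^ 3) u z := by
    field_simp
  rw [e, norm_div, div_le_iff₀ (norm_pos_iff.2 E0)]
  refine hb.trans ?_
  calc _ ≤ ‖Efac (U ^ 3) u z‖ * (2 * (56 * Real.exp 5 / U) *
        Real.exp ((σ + (u.re / 2 - 1 / 2 + z.im)) ^ 2)) * 2 := by
        gcongr; linarith [zeta_two_le]
    _ = _ := by ring

end H19Xi
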