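import Pool.Agent.Lib.helper19.XiRep
import Pool.Agent.Lib.helper19.XiMean
import Pool.Agent.Lib.helper19.XiZeros

open Complex Finset
open scoped ENNReal

namespace H19Xi

lemma ser_upper (u z : ℂ) : ‖∑' n, term u z n‖ ≤
    Real.exp ((2 + (u.re / 2 - 1 / 2 + z.im)) ^ 2) * (5 / 3) := by
  refine (tsum_of_norm_bounded (hasSum_sq.mul_left _) (term_le u z)).trans ?_
  exact mul_le_mul_of_nonneg_left zeta_two_le (Real.exp_pos _).le

lemma ser_one (u z : ℂ) (h : u.re / 2 - 1 / 2 + z.im ≤ -2) : ‖∑' n, term u z n - 1‖ ≤ 2 / 3 := by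
  rw [(term_summable u z).tsum_eq_zero_add]
  have e : term u z 0 = 1 := by simp [term, ll]
  rw [e, add_sub_cancel_left]
  have hs := (hasSum_nat_add_iff' 1).2 hasSum_sq
  refine (tsum_of_norm_bounded hs fun n => ?_).trans ?_
  · refine le_trans ?_ (exp_ll (n + 1) (σ := -(u.re / 2 - 1 / 2 + z.im)) (by linarith))
    rw [term_norm]
    gcongr
    nlinarith [sq_nonneg (ll (n + 1))]
  · simp; linarith [zeta_two_le]

noncomputable def coef (k : ℕ) (η : ℝ) (n : ℕ) : ℂ :=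
  exp (((-(Real.log n / 2 - Real.log k / 2) ^ 2 : ℝ) : ℂ) + I * (η * Real.log n / 2 : ℝ))

lemma coef_norm (k : ℕ) (η : ℝ) (n : ℕ) :
    ‖coef k η n‖ = Real.exp (-(Real.log n / 2 - Real.log k / 2) ^ 2) := by
  rw [coef, Complex.norm_exp]
  simp only [Complex.add_re, Complex.ofReal_re, Complex.mul_re, Complex.I_re, Complex.I_im,
    Complex.ofReal_im]; simp

lemma coef_le_one (k : ℕ) (η : ℝ) (n : ℕ) : ‖coef k η n‖ ≤ 1 := by
  rw [coef_norm, Real.exp_le_one_iff]; simp [sq_nonneg]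

lemma coef_le_pow {k n : ℕ} (hk : 1 ≤ k) (hn : 1 ≤ n) (η : ℝ) (j : ℕ) :
    ‖coef k η n‖ ≤ Real.exp (j ^ 2) * ((k : ℝ) / n) ^ j := by
  have k0 : (0 : ℝ) < k := by exact_mod_cast hk
  have n0 : (0 : ℝ) < n := by exact_mod_cast hn
  rw [coef_norm, ← Real.exp_log (div_pos k0 n0), ← Real.exp_nat_mul, ← Real.exp_add,
    Real.log_div k0.ne' n0.ne']
  gcongr
  nlinarith [sq_nonneg ((Real.log n - Real.log k) / 2 - j)]

lemma coef_sum {k : ℕ} (hk : 1 ≤ k) (η : ℝ) (N c : ℕ) (hc : 1 ≤ c) :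
    ∑ g ∈ Icc 1 N, ‖coef k η (g * c)‖ ≤ 4 * Real.exp 4 * k / c := by
  have k0 : (0 : ℝ) < k := by exact_mod_cast hk
  have c0 : (0 : ℝ) < c := by exact_mod_cast hc
  set β : ℝ := k / c with hβ
  have β0 : 0 < β := by positivity
  have e4 : 1 ≤ Real.exp 4 := Real.one_le_exp (by norm_num)
  have key : ∀ g ∈ Icc 1 N, ‖coef k η (g * c)‖
      ≤ 4 * Real.exp 4 * β ^ 2 * (1 / (β + g) ^ 2) := by
    intro g hg
    have g1 := (mem_Icc.1 hg).1
    have g0 : (0 : ℝ) < g := by exact_mod_cast g1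
    rw [mul_one_div, le_div_iff₀ (by positivity)]
    rcases le_total (g : ℝ) β with h | h
    · calc _ ≤ 1 * (2 * β) ^ 2 := by
            gcongr
            · exact coef_le_one _ _ _
            · linarith
        _ ≤ _ := by nlinarith [sq_nonneg β]
    · have := coef_le_pow hk (Nat.mul_pos g1 hc) η 2
      calc _ ≤ Real.exp ((2 : ℕ) ^ 2) * ((k : ℝ) / (g * c : ℕ)) ^ 2 * (2 * g) ^ 2 := by
            gcongr; linarith
        _ = _ := by rw [hβ]; push_cast; field_simp; norm_num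
  refine (Finset.sum_le_sum key).trans ?_
  rw [← Finset.mul_sum]
  have h1 : ∑ g ∈ Icc 1 N, 1 / (β + (g : ℝ)) ^ 2 = ∑ g ∈ range N, 1 / (β + (g + 1 : ℕ)) ^ 2 := by
    rw [Finset.range_eq_Ico, Finset.sum_Ico_add' (fun g : ℕ => 1 / (β + (g : ℝ)) ^ 2) 0 N (c := 1)]
    simp only [Finset.Ico_add_one_right_eq_Icc]
  have h2 := tele3 β0 N
  have h3 : 0 ≤ 1 / (β + N) := by positivity
  rw [h1]
  calc _ ≤ 4 * Real.exp 4 * β ^ 2 * (1 / β) := by gcongr; linarith
    _ = _ := by rw [hβ]; field_simp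

lemma coef_sq_sum {k : ℕ} (hk : 2 ≤ k) (η : ℝ) :
    (k : ℝ) / 4 ≤ ∑ n ∈ Icc 1 (k ^ 2), ‖coef k η n‖ ^ 2 := by
  have k0 : (0 : ℝ) < k := by positivity
  calc (k : ℝ) / 4 ≤ ∑ n ∈ Icc k (2 * k), (1 / 4 : ℝ) := by
        simp only [sum_const, Nat.card_Icc, nsmul_eq_mul]
        rw [show 2 * k + 1 - k = k + 1 by omega]; push_cast; linarith
    _ ≤ ∑ n ∈ Icc k (2 * k), ‖coef k η n‖ ^ 2 := by
        refine Finset.sum_le_sum fun n hn => ?_
        rw [mem_Icc] at hn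
        have a1 : (k : ℝ) ≤ n := by exact_mod_cast hn.1
        have a2 : (n : ℝ) ≤ 2 * k := by exact_mod_cast hn.2
        have a3 : Real.log k ≤ Real.log n := Real.log_le_log k0 a1
        have a4 : Real.log n ≤ Real.log 2 + Real.log k := by
          rw [← Real.log_mul two_ne_zero k0.ne']; exact Real.log_le_log (by linarith) a2
        have a5 := Real.log_two_lt_d9
        have a6 := Real.add_one_le_exp (-(Real.log n / 2 - Real.log k / 2) ^ 2)
        rw [coef_norm]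
        have a7 : 1 / 2 ≤ Real.exp (-(Real.log n / 2 - Real.log k / 2) ^ 2) := by nlinarith
        nlinarith
    _ ≤ _ := Finset.sum_le_sum_of_subset_of_nonneg
        (Icc_subset_Icc (by omega) (by nlinarith)) fun _ _ _ => by positivity

lemma term_coef {u z : ℂ} {k : ℕ} (h : u.re / 2 - 1 / 2 + z.im = Real.log k / 2) (n : ℕ) :
    term u z n = (Real.exp ((Real.log k / 2) ^ 2) : ℂ) *
      (coef k u.im (n + 1) * exp (I * (-Real.log (n + 1 : ℕ) : ℝ) * (z.re : ℂ))) := by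
  rw [term, coef, Complex.ofReal_exp, ← Complex.exp_add, ← Complex.exp_add, ← h, ll]
  congr 1
  have hz : z = z.re + z.im * I := (Complex.re_add_im z).symm
  have hu : u = u.re + u.im * I := (Complex.re_add_im u).symm
  nth_rewrite 1 [hz]
  nth_rewrite 1 [hu]
  push_cast
  linear_combination (-(z.im : ℂ) * (Real.log ((n : ℝ) + 1) : ℂ)) * Complex.I_sq

lemma ser_big {u z : ℂ} {k : ℕ} (hk : 8 * Real.exp 25 ≤ k)
    (h : u.re / 2 - 1 / 2 + z.im = Real.log k / 2)
    (hD : 1 ≤ ‖ES (Icc 1 (k ^ 2)) (coef k u.im) (fun n => -Real.log n) z.re‖) :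
    Real.exp ((Real.log k / 2) ^ 2) * (3 / 4) ≤ ‖∑' n, term u z n‖ := by
  have k0 : (0 : ℝ) < k := lt_of_lt_of_le (by positivity) hk
  have k1 : 1 ≤ k := by exact_mod_cast k0
  set E := Real.exp ((Real.log k / 2) ^ 2) with hE
  have E0 : 0 < E := Real.exp_pos _
  rw [← (term_summable u z).sum_add_tsum_nat_add (k ^ 2)]
  have h1 : ∑ n ∈ range (k ^ 2), term u z n
      = E * ES (Icc 1 (k ^ 2)) (coef k u.im) (fun n => -Real.log n) z.re := by
    simp_rw [term_coef h]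
    rw [← Finset.mul_sum, ES, Finset.range_eq_Ico,
      Finset.sum_Ico_add' (fun n : ℕ => coef k u.im n * exp (I * (-Real.log n : ℝ) * (z.re : ℂ)))
        0 (k ^ 2) (c := 1)]
    simp only [Finset.Ico_add_one_right_eq_Icc, zero_add, hE]
  have h2 : ‖∑' n, term u z (n + k ^ 2)‖ ≤ E * Real.exp 25 / k * (Real.pi ^ 2 / 6) := by
    refine tsum_of_norm_bounded (hasSum_sq.mul_left _) fun n => ?_
    rw [term_coef h, norm_mul, norm_mul, Complex.norm_real, Real.norm_of_nonneg E0.le,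
      Complex.norm_exp]
    have a1 : (I * (-Real.log (n + k ^ 2 + 1 : ℕ) : ℝ) * (z.re : ℂ)).re = 0 := by
      simp only [Complex.mul_re, Complex.mul_im, Complex.ofReal_re, Complex.ofReal_im]; simp
    rw [a1, Real.exp_zero, mul_one]
    have a2 := coef_le_pow (n := n + k ^ 2 + 1) k1 (by omega) u.im 5
    have a3 : ((k : ℝ) / (n + k ^ 2 + 1 : ℕ)) ^ 5 ≤ 1 / k * (1 / ((n : ℝ) + 1) ^ 2) := by
      rw [div_pow, one_div_mul_one_div, div_le_div_iff₀ (by positivity) (by positivity)]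
      push_cast
      calc (k : ℝ) ^ 5 * (k * ((n : ℝ) + 1) ^ 2) = (k ^ 2) ^ 3 * ((n : ℝ) + 1) ^ 2 := by ring
        _ ≤ ((n : ℝ) + k ^ 2 + 1) ^ 3 * ((n : ℝ) + k ^ 2 + 1) ^ 2 := by
            gcongr
            · linarith [Nat.cast_nonneg (α := ℝ) n]
            · nlinarith
        _ = _ := by ring
    calc _ ≤ E * (Real.exp ((5 : ℕ) ^ 2) * (1 / k * (1 / ((n : ℝ) + 1) ^ 2))) := by
          gcongr; exact a2.trans (by gcongr)
      _ = _ := by norm_num; ring
  have h3 : E * Real.exp 25 / k * (Real.pi ^ 2 / 6) ≤ E / 4 := by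
    calc _ ≤ E * Real.exp 25 / (8 * Real.exp 25) * 2 := by gcongr; linarith [zeta_two_le]
      _ = _ := by field_simp; norm_num
  have h4 := norm_sub_norm_le (∑ n ∈ range (k ^ 2), term u z n) (-∑' n, term u z (n + k ^ 2))
  rw [sub_neg_eq_add, norm_neg] at h4
  have h5 : E ≤ ‖∑ n ∈ range (k ^ 2), term u z n‖ := by
    rw [h1, norm_mul, Complex.norm_real, Real.norm_of_nonneg E0.le]
    exact le_mul_of_one_le_right E0.le hD
  linarith

lemma cnt_cover (f : ℂ → ℂ) (n : ℕ) (B : ℕ → Set ℂ) : ∀ S : Set ℂ,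
    (∀ z ∈ S, ∃ i < n, z ∈ B i) → zeroCount f S ≤ ∑ i ∈ range n, zeroCount f (B i) := by
  induction n with
  | zero =>
    intro S h
    rw [cnt_zero (fun z hz => by obtain ⟨i, hi, -⟩ := h z hz; omega)]; simp
  | succ n ih =>
    intro S h
    rw [Finset.sum_range_succ]
    refine (cnt_mono f (T := {z | ∃ i < n, z ∈ B i} ∪ B n) fun z hz => ?_).trans
      ((cnt_union_le _ _ _).trans (by gcongr; exact ih _ fun z hz => hz))
    obtain ⟨i, hi, hz⟩ := h z hz
    rcases Nat.lt_succ_iff_lt_or_eq.1 hi with h' | rfl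
    · exact Or.inl ⟨i, h', hz⟩
    · exact Or.inr hz

open Classical in
lemma cnt_overlap (f : ℂ → ℂ) (G : Finset ℕ) (D : ℕ → Set ℂ) (N : Set ℂ)
    (h1 : ∀ j ∈ G, D j ⊆ N) (h2 : ∀ z, #(G.filter fun j => z ∈ D j) ≤ 4) :
    ∑ j ∈ G, zeroCount f (D j) ≤ 4 * zeroCount f N := by
  simp only [cnt_eq]
  rw [← Summable.tsum_finsetSum (fun _ _ => ENNReal.summable), ← ENNReal.tsum_mul_left]
  refine ENNReal.tsum_le_tsum fun z => ?_
  simp only [Set.indicator_apply]
  rw [← Finset.sum_filter, Finset.sum_const, nsmul_eq_mul]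
  split_ifs with h
  · gcongr; exact_mod_cast h2 z
  · rw [Finset.filter_eq_empty_iff.2 fun j hj hz => h (h1 j hj hz)]; simp

lemma Xi_conj (lam : ℝ) (z : ℂ) :
    Xi lam (-(starRingEnd ℂ) z) = (starRingEnd ℂ) (Xi lam z) := by
  rw [Xi, Xi, ← integral_conj]
  congr 1; ext t
  rw [map_mul, Complex.conj_ofReal, ← Complex.exp_conj]
  congr 2; simp

lemma order_mirror {f : ℂ → ℂ} (hf : Differentiable ℂ f)
    (h : ∀ z, f (-(starRingEnd ℂ) z) = (starRingEnd ℂ) (f z)) (z : ℂ) :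
    analyticOrderAt f z ≤ analyticOrderAt f (-(starRingEnd ℂ) z) := by
  refine ENat.forall_natCast_le_iff_le.1 fun n hn => ?_
  rw [natCast_le_analyticOrderAt (hf.analyticAt _)] at hn ⊢
  obtain ⟨g, hg, he⟩ := hn
  have hc : Filter.Tendsto (fun w : ℂ => -(starRingEnd ℂ) w) (nhds (-(starRingEnd ℂ) z))
      (nhds z) := by
    have : Continuous (fun w : ℂ => -(starRingEnd ℂ) w) := Complex.continuous_conj.neg
    simpa using this.tendsto (-(starRingEnd ℂ) z)
  refine ⟨fun w => (-1) ^ n * (starRingEnd ℂ) (g (-(starRingEnd ℂ) w)), ?_, ?_⟩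
  · refine analyticAt_const.mul ?_
    rw [Complex.analyticAt_iff_eventually_differentiableAt] at hg ⊢
    filter_upwards [hc.eventually hg] with w hw
    have h1 : DifferentiableAt ℂ (fun v => g (-v)) ((starRingEnd ℂ) w) :=
      DifferentiableAt.comp (g := g) _ hw (by fun_prop)
    exact differentiableAt_conj_conj_iff.2 h1
  · filter_upwards [hc.eventually he] with w hw
    have := h (-(starRingEnd ℂ) w)
    simp only [map_neg, Complex.conj_conj, neg_neg] at this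
    rw [this, hw, smul_eq_mul, smul_eq_mul, map_mul, map_pow, ← mul_assoc, ← mul_pow]
    congr 2; simp; ring

lemma cnt_mirror {f : ℂ → ℂ} (hf : Differentiable ℂ f)
    (h : ∀ z, f (-(starRingEnd ℂ) z) = (starRingEnd ℂ) (f z)) (S : Set ℂ) :
    zeroCount f {z | -(starRingEnd ℂ) z ∈ S} ≤ zeroCount f S := by
  let e : ℂ ≃ ℂ := ⟨fun z => -(starRingEnd ℂ) z, fun z => -(starRingEnd ℂ) z,
    fun z => by simp, fun z => by simp⟩
  rw [cnt_eq, cnt_eq, ← e.tsum_eq (S.indicator _)]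
  refine ENNReal.tsum_le_tsum fun z => ?_
  by_cases hz : -(starRingEnd ℂ) z ∈ S
  · rw [Set.indicator_of_mem (show z ∈ {z | -(starRingEnd ℂ) z ∈ S} from hz),
      Set.indicator_of_mem (show e z ∈ S from hz)]
    exact ENat.toENNReal_le.2 (order_mirror hf h z)
  · rw [Set.indicator_of_notMem (show z ∉ {z | -(starRingEnd ℂ) z ∈ S} from hz)]; simp

end H19Xi
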